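import Pool.Agent.Helper21.V2.BA

/-!
Local norms and heights of tuples and polynomials.
-/

namespace Pool.Agent.V2

open NumberField Finset
open Pool.Agent.Helper64.Vojta (Pl nv nv_nonneg nv_mul nv_one nv_zero nv_pos nv_sum_le_inr
  fin_support_nv log_finprod)

variable {K : Type*} [Field K] [NumberField K]

section BB
variable {κ : Type*}

theorem le_vn [Finite κ] (v : Pl K) (x : κ → K) (i : κ) : nv v (x i) ≤ vn v x :=
  le_ciSup (f := fun i => nv v (x i)) (Set.finite_range _).bddAbove i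

theorem vn_le (v : Pl K) (x : κ → K) {B : ℝ} (hB : 0 ≤ B) (h : ∀ i, nv v (x i) ≤ B) :
    vn v x ≤ B :=
  Real.iSup_le h hB

theorem vn_pos [Finite κ] (v : Pl K) {x : κ → K} (hx : x ≠ 0) : 0 < vn v x := by
  obtain ⟨i, hi⟩ := Function.ne_iff.mp hx
  exact (nv_pos v hi).trans_le (le_vn v x i)

/-- common argument for the finiteness of supports -/
theorem finS_log_sup {α : Type*} (s : Set α) (hs : s.Finite) (x : α → K) (hx : ∀ a, x a ≠ 0 ↔ a ∈ s)
    (hne : s.Nonempty) (N : FinitePlace K → ℝ) (hN : ∀ w, ∀ a, nv (.inr w) (x a) ≤ N w)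
    (hN' : ∀ w, ∀ B : ℝ, 0 ≤ B → (∀ a, nv (.inr w) (x a) ≤ B) → N w ≤ B) :
    (Function.support fun w : FinitePlace K => Real.log (N w)).Finite := by
  have hfin : (⋃ a ∈ s, Function.mulSupport (fun w : FinitePlace K => nv (.inr w) (x a))).Finite :=
    Set.Finite.biUnion hs fun a ha => fin_support_nv ((hx a).mpr ha)
  refine Set.Finite.subset hfin ?_
  intro w hw
  by_contra hcon
  simp only [Set.mem_iUnion, Function.mem_mulSupport, not_exists, not_not] at hcon
  apply hw
  obtain ⟨a, ha⟩ := hne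
  have h1 : N w = 1 := by
    refine le_antisymm (hN' w 1 zero_le_one fun b => ?_) ?_
    · by_cases hb : x b = 0
      · rw [hb, nv_zero]; exact zero_le_one
      · exact (hcon b ((hx b).mp hb)).le
    · have := hN w a
      rwa [hcon a ha] at this
  simp [h1]

theorem finS_vn [Finite κ] {x : κ → K} (hx : x ≠ 0) : FinS (fun v => Real.log (vn v x)) := by
  obtain ⟨i, hi⟩ := Function.ne_iff.mp hx
  exact finS_log_sup {i | x i ≠ 0} (Set.toFinite _) x (fun a => Iff.rfl) ⟨i, hi⟩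
    (fun w => vn (.inr w) x) (fun w a => le_vn _ x a) (fun w B hB h => vn_le _ x hB h)

theorem vH_eq [Fintype κ] {x : κ → K} (hx : x ≠ 0) : vH x = Height.logHeight x := by
  have hm : Nonempty κ := by
    obtain ⟨i, _⟩ := Function.ne_iff.mp hx
    exact ⟨i⟩
  have h1 : ∀ w : InfinitePlace K, (⨆ i, w (x i)) ^ w.mult = vn (.inl w) x := by
    intro w
    rw [Real.iSup_pow (fun i => apply_nonneg w _)]; rfl
  rw [Height.logHeight_eq_log_mulHeight, NumberField.mulHeight_eq hx]
  simp_rw [h1]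
  have h2 : ∏ᶠ w : FinitePlace K, ⨆ i, w (x i) = ∏ᶠ w : FinitePlace K, vn (.inr w) x := rfl
  rw [h2]
  have hms : (fun w : FinitePlace K => vn (.inr w) x).HasFiniteMulSupport := by
    refine Set.Finite.subset (finS_vn hx) ?_
    intro w hw h0
    apply hw
    have h3 : Real.log (vn (.inr w) x) = 0 := h0
    have h4 := vn_pos (.inr w) hx
    rcases Real.log_eq_zero.mp h3 with h | h | h
    · exact absurd h h4.ne'
    · exact h
    · exfalso; linarith
  have hp1 : ∏ w : InfinitePlace K, vn (.inl w) x ≠ 0 :=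
    Finset.prod_ne_zero_iff.mpr fun w _ => (vn_pos (.inl w) hx).ne'
  have hp2 : ∏ᶠ w : FinitePlace K, vn (.inr w) x ≠ 0 := by
    have hfs : (Function.mulSupport (fun w : FinitePlace K => vn (.inr w) x)).Finite := hms
    rw [finprod_eq_prod_of_mulSupport_subset _ (s := hfs.toFinset) (by simp)]
    exact Finset.prod_ne_zero_iff.mpr fun w _ => (vn_pos (.inr w) hx).ne'
  rw [Real.log_mul hp1 hp2, Real.log_prod (fun w _ => (vn_pos (.inl w) hx).ne'),
    log_finprod _ (fun w => vn_pos (.inr w) hx) hms]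
  rfl

theorem vH_nonneg [Finite κ] {x : κ → K} (hx : x ≠ 0) : 0 ≤ vH x := by
  obtain ⟨i, hi⟩ := Function.ne_iff.mp hx
  have hi' : x i ≠ 0 := hi
  rw [← gsum_nv hi']
  exact gsum_mono (finS_nv hi') (finS_vn hx) fun v => Real.log_le_log (nv_pos v hi') (le_vn v x i)

theorem vn_smul (v : Pl K) (a : K) (x : κ → K) : vn v (a • x) = nv v a * vn v x := by
  unfold vn
  rw [Real.mul_iSup_of_nonneg (nv_nonneg v a)]
  refine iSup_congr fun i => ?_
  rw [Pi.smul_apply, smul_eq_mul, nv_mul]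

theorem vH_smul [Finite κ] {x : κ → K} (hx : x ≠ 0) {a : K} (ha : a ≠ 0) : vH (a • x) = vH x := by
  unfold vH
  have h1 : (fun v => Real.log (vn v (a • x))) =
      fun v => Real.log (nv v a) + Real.log (vn v x) := by
    funext v
    rw [vn_smul, Real.log_mul (nv_pos v ha).ne' (vn_pos v hx).ne']
  rw [h1, gsum_add (finS_nv ha) (finS_vn hx), gsum_nv ha, zero_add]

/-- a single term of a sum of nonnegative terms -/
theorem single_le_gsum {f : Pl K → ℝ} (hf : FinS f) (h : ∀ v, 0 ≤ f v) (v : Pl K) :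
    f v ≤ gsum f := by
  unfold gsum
  rcases v with v | v
  · have h1 : f (.inl v) ≤ ∑ v : InfinitePlace K, f (.inl v) :=
      Finset.single_le_sum (f := fun v : InfinitePlace K => f (.inl v)) (fun w _ => h _)
        (Finset.mem_univ v)
    have h2 : 0 ≤ ∑ᶠ v : FinitePlace K, f (.inr v) := finsum_nonneg fun w => h _
    linarith
  · have h1 : 0 ≤ ∑ v : InfinitePlace K, f (.inl v) := Finset.sum_nonneg fun w _ => h _
    have h2 : f (.inr v) ≤ ∑ᶠ v : FinitePlace K, f (.inr v) :=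
      single_le_finsum (f := fun v : FinitePlace K => f (.inr v)) v hf (fun w => h _)
    linarith

/-- fundamental inequality: at every place, the value of a nonzero linear combination -/
theorem le_nv_of_ne_zero {y : K} (hy : y ≠ 0) (g : Pl K → ℝ) (hg : FinS g)
    (h : ∀ w, Real.log (nv w y) ≤ g w) (v : Pl K) : g v - gsum g ≤ Real.log (nv v y) := by
  have h1 : FinS (fun w => g w + - Real.log (nv w y)) := hg.add (finS_nv hy).neg
  have h2 := single_le_gsum h1 (fun w => by have := h w; linarith) v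
  rw [gsum_add hg (finS_nv hy).neg, gsum_neg, gsum_nv hy] at h2
  linarith

theorem bdd_pn (v : Pl K) (p : MvPolynomial κ K) :
    BddAbove (Set.range fun d : κ →₀ ℕ => nv v (p.coeff d)) := by
  refine ⟨∑ d ∈ p.support, nv v (p.coeff d), ?_⟩
  rintro _ ⟨d, rfl⟩
  by_cases hd : d ∈ p.support
  · exact Finset.single_le_sum (f := fun d => nv v (p.coeff d)) (fun e _ => nv_nonneg v _) hd
  · rw [MvPolynomial.notMem_support_iff] at hd
    simp only [hd, nv_zero]
    exact Finset.sum_nonneg fun e _ => nv_nonneg v _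

theorem le_pn (v : Pl K) (p : MvPolynomial κ K) (d : κ →₀ ℕ) : nv v (p.coeff d) ≤ pn v p :=
  le_ciSup (f := fun d => nv v (p.coeff d)) (bdd_pn v p) d

theorem pn_le (v : Pl K) (p : MvPolynomial κ K) {B : ℝ} (hB : 0 ≤ B) (h : ∀ d, nv v (p.coeff d) ≤ B) :
    pn v p ≤ B :=
  Real.iSup_le h hB

theorem pn_pos (v : Pl K) {p : MvPolynomial κ K} (hp : p ≠ 0) : 0 < pn v p := by
  obtain ⟨d, hd⟩ := MvPolynomial.ne_zero_iff.mp hp
  exact (nv_pos v hd).trans_le (le_pn v p d)

theorem finS_pn {p : MvPolynomial κ K} (hp : p ≠ 0) : FinS (fun v => Real.log (pn v p)) := by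
  obtain ⟨d, hd⟩ := MvPolynomial.ne_zero_iff.mp hp
  exact finS_log_sup (p.support : Set (κ →₀ ℕ)) p.support.finite_toSet (fun d => p.coeff d)
    (fun a => by simp) ⟨d, by simpa using hd⟩
    (fun w => pn (.inr w) p) (fun w a => le_pn _ p a) (fun w B hB h => pn_le _ p hB h)

theorem pH_nonneg {p : MvPolynomial κ K} (hp : p ≠ 0) : 0 ≤ pH p := by
  obtain ⟨d, hd⟩ := MvPolynomial.ne_zero_iff.mp hp
  rw [← gsum_nv hd]
  exact gsum_mono (finS_nv hd) (finS_pn hp) fun v => Real.log_le_log (nv_pos v hd) (le_pn v p d)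

theorem bdd_pn1 (v : Pl K) (p : Polynomial K) :
    BddAbove (Set.range fun d : ℕ => nv v (p.coeff d)) := by
  refine ⟨∑ d ∈ p.support, nv v (p.coeff d), ?_⟩
  rintro _ ⟨d, rfl⟩
  by_cases hd : d ∈ p.support
  · exact Finset.single_le_sum (f := fun d => nv v (p.coeff d)) (fun e _ => nv_nonneg v _) hd
  · rw [Polynomial.notMem_support_iff] at hd
    simp only [hd, nv_zero]
    exact Finset.sum_nonneg fun e _ => nv_nonneg v _

theorem le_pn1 (v : Pl K) (p : Polynomial K) (d : ℕ) : nv v (p.coeff d) ≤ pn1 v p :=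
  le_ciSup (f := fun d => nv v (p.coeff d)) (bdd_pn1 v p) d

theorem pn1_le (v : Pl K) (p : Polynomial K) {B : ℝ} (hB : 0 ≤ B) (h : ∀ d, nv v (p.coeff d) ≤ B) :
    pn1 v p ≤ B :=
  Real.iSup_le h hB

omit [NumberField K] in
theorem exists_coeff_ne {p : Polynomial K} (hp : p ≠ 0) : ∃ d, p.coeff d ≠ 0 := by
  by_contra h
  push Not at h
  exact hp (Polynomial.ext (by simpa using h))

theorem pn1_pos (v : Pl K) {p : Polynomial K} (hp : p ≠ 0) : 0 < pn1 v p := by
  obtain ⟨d, hd⟩ := exists_coeff_ne hp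
  exact (nv_pos v hd).trans_le (le_pn1 v p d)

theorem finS_pn1 {p : Polynomial K} (hp : p ≠ 0) : FinS (fun v => Real.log (pn1 v p)) := by
  obtain ⟨d, hd⟩ := exists_coeff_ne hp
  exact finS_log_sup (p.support : Set ℕ) p.support.finite_toSet (fun d => p.coeff d)
    (fun a => by simp) ⟨d, by simpa using hd⟩
    (fun w => pn1 (.inr w) p) (fun w a => le_pn1 _ p a) (fun w B hB h => pn1_le _ p hB h)

theorem pH1_nonneg {p : Polynomial K} (hp : p ≠ 0) : 0 ≤ pH1 p := by
  obtain ⟨d, hd⟩ := exists_coeff_ne hp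
  rw [← gsum_nv hd]
  exact gsum_mono (finS_nv hd) (finS_pn1 hp) fun v => Real.log_le_log (nv_pos v hd) (le_pn1 v p d)

/-- `nv` of a sum, infinite places -/
theorem nv_sum_inl (v : InfinitePlace K) {α : Type*} (s : Finset α) (f : α → K) {B : ℝ} (hB : 0 ≤ B)
    (h : ∀ i ∈ s, nv (.inl v) (f i) ≤ B) :
    nv (.inl v) (∑ i ∈ s, f i) ≤ (s.card : ℝ) ^ v.mult * B := by
  have hm : v.mult = 1 ∨ v.mult = 2 := by
    unfold InfinitePlace.mult; split_ifs <;> simp
  have hsum : v (∑ i ∈ s, f i) ≤ ∑ i ∈ s, v (f i) := by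
    classical
    induction s using Finset.induction_on with
    | empty => simp
    | insert a s ha ih =>
      rw [Finset.sum_insert ha, Finset.sum_insert ha]
      exact (v.1.add_le _ _).trans (add_le_add le_rfl (ih (fun i hi => h i (Finset.mem_insert_of_mem hi))))
  rcases hm with hm | hm
  · simp only [nv, hm, pow_one] at h ⊢
    calc v (∑ i ∈ s, f i) ≤ ∑ i ∈ s, v (f i) := hsum
      _ ≤ ∑ i ∈ s, B := Finset.sum_le_sum h
      _ = s.card * B := by rw [Finset.sum_const, nsmul_eq_mul]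
  · simp only [nv, hm] at h ⊢
    have h2 : ∀ i ∈ s, v (f i) ≤ Real.sqrt B := fun i hi => Real.le_sqrt_of_sq_le (h i hi)
    have h1 : v (∑ i ∈ s, f i) ≤ s.card * Real.sqrt B := by
      calc v (∑ i ∈ s, f i) ≤ ∑ i ∈ s, v (f i) := hsum
        _ ≤ ∑ i ∈ s, Real.sqrt B := Finset.sum_le_sum h2
        _ = s.card * Real.sqrt B := by rw [Finset.sum_const, nsmul_eq_mul]
    calc v (∑ i ∈ s, f i) ^ 2 ≤ (s.card * Real.sqrt B) ^ 2 :=
          pow_le_pow_left₀ (apply_nonneg v _) h1 2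
      _ = (s.card : ℝ) ^ 2 * B := by rw [mul_pow, Real.sq_sqrt hB]

/-- `nv` of a sum, finite places -/
theorem nv_sum_inr (v : FinitePlace K) {α : Type*} (s : Finset α) (f : α → K) {B : ℝ} (hB : 0 ≤ B)
    (h : ∀ i ∈ s, nv (.inr v) (f i) ≤ B) : nv (.inr v) (∑ i ∈ s, f i) ≤ B :=
  nv_sum_le_inr v s f B hB h

end BB

end Pool.Agent.V2
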