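import Pool.Agent.Helper21.V2.Defs2
import Pool.Agent.Helper21.V2.BB

/-!
Block V2-AR1: `ZI_null`, `wf_bounds`, `lw_tendsto`.
-/

set_option autoImplicit false

namespace Pool.Agent.V2

open MvPolynomial

open NumberField Filter
open Pool.Agent.Helper64.Vojta (Pl nv nv_nonneg nv_mul nv_one nv_zero nv_pos)

variable {k : Type*} [Field k] [NumberField k]

/-- AR1. -/
theorem ZI_null (U : Ultrafilter ℕ) (F : ℕ → Fin 3 → k) (hF : ∀ n, F n ≠ 0) :
    ZI (Null U F) where
  zero := Eventually.of_forall fun n => by simp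
  one := by
    intro h
    have h' : ∀ᶠ n in (U : Filter ℕ), False := by
      filter_upwards [h] with n hn
      simp at hn
    exact h'.exists.choose_spec
  add s t N _ _ hs ht := by
    unfold Null at hs ht ⊢
    filter_upwards [hs, ht] with n h1 h2
    rw [map_add, h1, h2, add_zero]
  mul s t M N _ _ := by
    unfold Null
    rw [← Ultrafilter.eventually_or]
    refine eventually_congr (Eventually.of_forall fun n => ?_)
    rw [map_mul, mul_eq_zero]
  C_mul s N a _ hs := by
    unfold Null at hs ⊢
    filter_upwards [hs] with n h1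
    rw [map_mul, h1, mul_zero]

theorem gsum_single [DecidableEq (Pl k)] (a : Pl k) (c : ℝ) :
    gsum (fun v => if v = a then c else 0) = c := by
  classical
  unfold gsum
  rcases a with a | a
  · have h2 : ∀ v : FinitePlace k, (if (Sum.inr v : Pl k) = Sum.inl a then c else 0) = 0 :=
      fun v => if_neg (by simp)
    simp_rw [h2]
    rw [finsum_zero, add_zero]
    simp [Finset.sum_ite_eq']
  · have h2 : ∀ v : InfinitePlace k, (if (Sum.inl v : Pl k) = Sum.inr a then c else 0) = 0 :=
      fun v => if_neg (by simp)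
    simp_rw [h2]
    rw [Finset.sum_const_zero, zero_add, finsum_eq_single _ a (fun b hb => if_neg (by simpa using hb)),
      if_pos rfl]

theorem finS_single [DecidableEq (Pl k)] (a : Pl k) (c : ℝ) :
    FinS (fun v => if v = a then c else 0) := by
  unfold FinS
  rcases a with a | a
  · refine Set.Finite.subset (Set.finite_empty) fun v hv => ?_
    simp at hv
  · refine Set.Finite.subset (Set.finite_singleton a) fun v hv => ?_
    rw [Function.mem_support] at hv
    by_contra h
    exact hv (if_neg (by simpa using h))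

theorem sum_le_gsum {f : Pl k → ℝ} (hf : FinS f) (h : ∀ v, 0 ≤ f v) (T : Finset (Pl k)) :
    ∑ v ∈ T, f v ≤ gsum f := by
  classical
  have h1 : ∑ v ∈ T, f v = gsum (fun v => ∑ a ∈ T, if v = a then f a else 0) := by
    rw [gsum_sum T (fun a _ => finS_single a (f a))]
    exact Finset.sum_congr rfl fun a _ => (gsum_single a (f a)).symm
  rw [h1]
  refine gsum_mono (FinS.sum T fun a _ => finS_single a (f a)) hf fun v => ?_
  by_cases hv : v ∈ T
  · rw [Finset.sum_ite_eq, if_pos hv]
  · rw [Finset.sum_ite_eq, if_neg hv]; exact h v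

theorem finS_vn' {κ : Type*} [Finite κ] (x : κ → k) : FinS (fun v => Real.log (vn v x)) := by
  by_cases hx : x = 0
  · have h : (fun v => Real.log (vn v x)) = fun _ => 0 := by
      funext v
      have : vn v x = 0 := by
        unfold vn
        subst hx
        simp only [Pi.zero_apply, nv_zero]
        exact Real.iSup_const_zero
      rw [this, Real.log_zero]
    rw [h]
    exact FinS.zero
  · exact finS_vn hx

theorem nv_prod_pow (v : Pl k) {κ : Type*} (s : Finset κ) (e : κ → ℕ) (x : κ → k) :
    nv v (∏ i ∈ s, x i ^ e i) = ∏ i ∈ s, nv v (x i) ^ e i := by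
  classical
  have hpow : ∀ (y : k) (n : ℕ), nv v (y ^ n) = nv v y ^ n := by
    intro y n
    induction n with
    | zero => rw [pow_zero, pow_zero, nv_one]
    | succ n ih => rw [pow_succ, pow_succ, nv_mul, ih]
  induction s using Finset.induction_on with
  | empty => simp [nv_one]
  | insert a s ha ih => rw [Finset.prod_insert ha, Finset.prod_insert ha, nv_mul, ih, hpow]

/-- the monomials of degree `N` -/
theorem nv_monomial_le (v : Pl k) {s : MvPolynomial (Fin 3) k} {N : ℕ} (hs : s.IsHomogeneous N)
    (x : Fin 3 → k) {d : Fin 3 →₀ ℕ} (hd : d ∈ s.support) :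
    nv v (s.coeff d * ∏ i, x i ^ d i) ≤ pn v s * vn v x ^ N := by
  rw [nv_mul, nv_prod_pow]
  refine mul_le_mul (le_pn v s d) ?_ (Finset.prod_nonneg fun i _ => pow_nonneg (nv_nonneg v _) _)
    ((nv_nonneg v _).trans (le_pn v s d))
  have h1 : ∑ i, d i = N := by
    have := hs (mem_support_iff.1 hd)
    rw [Finsupp.weight_apply, Finsupp.sum_fintype _ _ (by simp)] at this
    simpa using this
  rw [← h1, ← Finset.prod_pow_eq_pow_sum]
  exact Finset.prod_le_prod (fun i _ => pow_nonneg (nv_nonneg v _) _)
    fun i _ => pow_le_pow_left₀ (nv_nonneg v _) (le_vn v x i) _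

/-- The exponent of the local constant. -/
noncomputable def lbc (s : MvPolynomial (Fin 3) k) (v : Pl k) : ℝ :=
  |Real.log (pn v s)| + match v with
    | .inl v => v.mult * Real.log (s.support.card)
    | .inr _ => 0

theorem lbc_nonneg (s : MvPolynomial (Fin 3) k) (v : Pl k) : 0 ≤ lbc s v := by
  unfold lbc
  refine add_nonneg (abs_nonneg _) ?_
  rcases v with v | v
  · exact mul_nonneg (Nat.cast_nonneg _) (Real.log_natCast_nonneg _)
  · exact le_rfl

theorem finS_lbc {s : MvPolynomial (Fin 3) k} (hs : s ≠ 0) : FinS (lbc s) := by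
  refine Set.Finite.subset (finS_pn hs) fun v hv => ?_
  rw [Function.mem_support] at hv ⊢
  intro h
  apply hv
  simp only [lbc, h, abs_zero, add_zero]

theorem log_nv_eval_le {s : MvPolynomial (Fin 3) k} {N : ℕ} (hs : s.IsHomogeneous N)
    (x : Fin 3 → k) (hx : eval x s ≠ 0) (v : Pl k) :
    Real.log (nv v (eval x s)) ≤ N * Real.log (vn v x) + lbc s v := by
  have hs0 : s ≠ 0 := by
    rintro rfl
    simp at hx
  have hcard : 1 ≤ s.support.card := by
    rw [Nat.one_le_iff_ne_zero, Finset.card_ne_zero]
    exact support_nonempty.mpr hs0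
  have hcard' : (0 : ℝ) < s.support.card := by exact_mod_cast hcard
  have hpn := pn_pos v hs0
  have hvn0 : 0 ≤ vn v x := (nv_nonneg v (x 0)).trans (le_vn v x 0)
  have hvnN : 0 < vn v x ^ N := by
    rcases Nat.eq_zero_or_pos N with h | h
    · subst h; simp
    · have hx0 : x ≠ 0 := by
        rintro rfl
        apply hx
        have h2 : s.coeff 0 = 0 := hs.coeff_eq_zero (d := 0) (by simp; omega)
        have h3 : eval (0 : Fin 3 → k) s = constantCoeff s := by
          have := MvPolynomial.aeval_zero (R := k) (S₁ := k) (σ := Fin 3) s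
          simpa using this
        rw [h3, MvPolynomial.constantCoeff_eq, h2]
      exact pow_pos (vn_pos v hx0) N
  have hB : 0 ≤ pn v s * vn v x ^ N := by positivity
  have hev : eval x s = ∑ d ∈ s.support, s.coeff d * ∏ i, x i ^ d i := by
    rw [eval_eq']
  have hlog : Real.log (vn v x ^ N) = N * Real.log (vn v x) := Real.log_pow _ _
  have hnvpos := nv_pos v hx
  rcases v with v | v
  · have h1 : nv (.inl v) (eval x s) ≤ (s.support.card : ℝ) ^ v.mult * (pn (.inl v) s * vn (.inl v) x ^ N) := by
      rw [hev]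
      exact nv_sum_inl v _ _ hB fun d hd => nv_monomial_le (.inl v) hs x hd
    refine (Real.log_le_log hnvpos h1).trans ?_
    rw [Real.log_mul (by positivity) (by positivity), Real.log_mul hpn.ne' hvnN.ne', hlog, Real.log_pow]
    unfold lbc
    have := le_abs_self (Real.log (pn (.inl v) s))
    linarith
  · have h1 : nv (.inr v) (eval x s) ≤ pn (.inr v) s * vn (.inr v) x ^ N := by
      rw [hev]
      exact nv_sum_inr v _ _ hB fun d hd => nv_monomial_le (.inr v) hs x hd
    refine (Real.log_le_log hnvpos h1).trans ?_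
    rw [Real.log_mul hpn.ne' hvnN.ne', hlog]
    unfold lbc
    have := le_abs_self (Real.log (pn (.inr v) s))
    linarith

/-- AR2. local bounds and Liouville for one polynomial -/
theorem wf_bounds (s : MvPolynomial (Fin 3) k) (N : ℕ) (hs : s.IsHomogeneous N) :
    ∃ C : ℝ, ∀ x : Fin 3 → k, eval x s ≠ 0 →
      (∀ v, -C ≤ wf v N s x) ∧ ∀ T : Finset (Pl k), ∑ v ∈ T, wf v N s x ≤ N * vH x + C := by
  by_cases hs0 : s = 0
  · subst hs0
    exact ⟨0, fun x hx => absurd (by simp) hx⟩
  · refine ⟨gsum (lbc s), fun x hx => ?_⟩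
    have hnn : ∀ v, 0 ≤ wf v N s x + lbc s v := by
      intro v
      have := log_nv_eval_le hs x hx v
      unfold wf
      linarith
    have hf1 : FinS (fun v => (N : ℝ) * Real.log (vn v x)) := (finS_vn' x).const_mul _
    have hf2 : FinS (fun v => -Real.log (nv v (eval x s))) := (finS_nv hx).neg
    have hfw : FinS (fun v => wf v N s x) := by
      have := hf1.add hf2
      simpa [wf, sub_eq_add_neg] using this
    have hg : gsum (fun v => wf v N s x) = N * vH x := by
      have h1 : (fun v => wf v N s x) = fun v => (N : ℝ) * Real.log (vn v x) + -Real.log (nv v (eval x s)) := by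
        funext v; unfold wf; ring
      rw [h1, gsum_add hf1 hf2, gsum_const_mul, gsum_neg, gsum_nv hx, neg_zero, add_zero]
      rfl
    constructor
    · intro v
      have h1 := single_le_gsum (finS_lbc hs0) (lbc_nonneg s) v
      have h2 := hnn v
      linarith
    · intro T
      calc ∑ v ∈ T, wf v N s x ≤ ∑ v ∈ T, (wf v N s x + lbc s v) :=
            Finset.sum_le_sum fun v _ => by have := lbc_nonneg s v; linarith
        _ ≤ gsum (fun v => wf v N s x + lbc s v) := sum_le_gsum (hfw.add (finS_lbc hs0)) hnn T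
        _ = N * vH x + gsum (lbc s) := by rw [gsum_add hfw (finS_lbc hs0), hg]

/-- AR3. the limits exist -/
theorem lw_tendsto (U : Ultrafilter ℕ) (F : ℕ → Fin 3 → k) (hF : ∀ n, F n ≠ 0)
    (hH : Tendsto (fun n => vH (F n)) (U : Filter ℕ) atTop) (v : Pl k)
    (s : MvPolynomial (Fin 3) k) (N : ℕ) (hs : s.IsHomogeneous N) (h0 : ¬ Null U F s) :
    Tendsto (fun n => wf v N s (F n) / vH (F n)) (U : Filter ℕ) (nhds (lw U F v s)) := by
  have hs0 : s ≠ 0 := by
    rintro rfl
    exact h0 (Eventually.of_forall fun n => by simp)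
  have hN : s.totalDegree = N := hs.totalDegree hs0
  unfold lw
  rw [hN]
  apply tendsto_nhds_limUnder
  obtain ⟨C, hC⟩ := wf_bounds s N hs
  have hne : ∀ᶠ n in (U : Filter ℕ), eval (F n) s ≠ 0 := by
    unfold Null at h0
    rwa [← Ultrafilter.eventually_not] at h0
  have hmem : ∀ᶠ n in (U : Filter ℕ), wf v N s (F n) / vH (F n) ∈ Set.Icc (-|C|) (N + |C|) := by
    filter_upwards [hne, hH.eventually_ge_atTop 1] with n h1 h2
    obtain ⟨h3, h4⟩ := hC (F n) h1
    have h5 := h3 v
    have h6 := h4 {v}
    rw [Finset.sum_singleton] at h6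
    have hp : 0 < vH (F n) := by linarith
    have hc1 := le_abs_self C
    have hc0 := abs_nonneg C
    constructor
    · rw [le_div_iff₀ hp]
      nlinarith
    · rw [div_le_iff₀ hp]
      nlinarith
  obtain ⟨a, _, ha⟩ := isCompact_Icc.ultrafilter_le_nhds
    (U.map fun n => wf v N s (F n) / vH (F n)) (by
      rw [le_principal_iff]
      exact hmem)
  exact ⟨a, ha⟩

end Pool.Agent.V2
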