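import Mathlib
import Pool.Agent.Helper64.Vojta.Places

/-!
# Definitions for the subspace theorem over a number field

`Pl K` : places of `K`; `nv v x` : normalised absolute value (product formula).
-/

namespace Pool.Agent.V2

open NumberField Finset
open Pool.Agent.Helper64.Vojta (Pl nv)

/-! ### Sums over all places -/

section gsum

variable {K : Type*} [Field K] [NumberField K]

/-- A real function on the places which vanishes at almost all finite places. -/
def FinS (f : Pl K → ℝ) : Prop := (Function.support fun v : FinitePlace K => f (.inr v)).Finite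

/-- Sum over all places. -/
noncomputable def gsum (f : Pl K → ℝ) : ℝ :=
  ∑ v : InfinitePlace K, f (.inl v) + ∑ᶠ v : FinitePlace K, f (.inr v)

/-- Local sup norm of a tuple. -/
noncomputable def vn {ι : Type*} (v : Pl K) (x : ι → K) : ℝ := ⨆ i, nv v (x i)

/-- Logarithmic height of a tuple (equal to `Height.logHeight x` for `x ≠ 0`, `ι` finite). -/
noncomputable def vH {ι : Type*} (x : ι → K) : ℝ := gsum fun v => Real.log (vn v x)

/-- Local sup norm of the coefficients of a polynomial. -/
noncomputable def pn {σ : Type*} (v : Pl K) (p : MvPolynomial σ K) : ℝ :=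
  ⨆ d : σ →₀ ℕ, nv v (p.coeff d)

/-- Logarithmic height of a polynomial. -/
noncomputable def pH {σ : Type*} (p : MvPolynomial σ K) : ℝ := gsum fun v => Real.log (pn v p)

/-- Local sup norm of the coefficients of a polynomial in one variable. -/
noncomputable def pn1 (v : Pl K) (p : Polynomial K) : ℝ := ⨆ d : ℕ, nv v (p.coeff d)

/-- Logarithmic height of a polynomial in one variable. -/
noncomputable def pH1 (p : Polynomial K) : ℝ := gsum fun v => Real.log (pn1 v p)

end gsum

/-! ### Polynomials -/

section poly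

variable {K : Type*} [CommRing K] {σ : Type*}

/-- `dd q p`: the divided derivative `∂^q / q!` of `p`. -/
noncomputable def dd [Fintype σ] (q : σ →₀ ℕ) (p : MvPolynomial σ K) : MvPolynomial σ K :=
  ∑ d ∈ p.support, MvPolynomial.monomial (d - q) (p.coeff d * ((∏ i, (d i).choose (q i) : ℕ) : K))

/-- `sh ξ p` is the polynomial `p (X + ξ)`. -/
noncomputable def sh (ξ : σ → K) (p : MvPolynomial σ K) : MvPolynomial σ K :=
  MvPolynomial.bind₁ (fun i => MvPolynomial.X i + MvPolynomial.C (ξ i)) p

/-- The index of `p` at `ξ` with respect to the weights `w` is at least `a`. -/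
def IdxGe [Fintype σ] (w : σ → ℝ) (ξ : σ → K) (p : MvPolynomial σ K) (a : ℝ) : Prop :=
  ∀ q : σ →₀ ℕ, (sh ξ p).coeff q ≠ 0 → a ≤ ∑ h, w h * q h

/-- `p` is multihomogeneous of degree `r h` in the block of variables `(h, ·)`. -/
def MHom {m : ℕ} {ι : Type*} [Fintype ι] (r : Fin m → ℕ) (p : MvPolynomial (Fin m × ι) K) : Prop :=
  ∀ d ∈ p.support, ∀ h, ∑ i, d (h, i) = r h

/-- `lin A p` is the polynomial `p (A X)`: in every block, `X_i` is replaced by `∑ l, A i l X_l`. -/
noncomputable def lin {m : ℕ} {ι : Type*} [Fintype ι] (A : Matrix ι ι K)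
    (p : MvPolynomial (Fin m × ι) K) : MvPolynomial (Fin m × ι) K :=
  MvPolynomial.bind₁ (fun a => ∑ l, MvPolynomial.C (A a.2 l) * MvPolynomial.X (a.1, l)) p

end poly

/-! ### Systems of linear forms, exponents, twisted heights -/

section forms

variable (K : Type*) [Field K] [NumberField K] (ι : Type*) [Fintype ι] [DecidableEq ι]

/-- A system of linear forms: an invertible matrix `L v` for every place, the identity outside the
infinite places and the finite set `S`. -/
structure Frm where
  S : Finset (FinitePlace K)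
  L : Pl K → Matrix ι ι K
  hL : ∀ v, (L v).det ≠ 0
  hS : ∀ v : FinitePlace K, v ∉ S → L (.inr v) = 1

variable {K ι}

/-- The exponents vanish outside the infinite places and `S`. -/
def ExpS (S : Finset (FinitePlace K)) (c : Pl K → ι → ℝ) : Prop :=
  ∀ v : FinitePlace K, v ∉ S → c (.inr v) = 0

/-- The degree (total exponent). -/
noncomputable def deg (c : Pl K → ι → ℝ) : ℝ := gsum fun v => ∑ i, c v i

/-- Exponents multiplied by `t`. -/
def sc (t : ℝ) (c : Pl K → ι → ℝ) : Pl K → ι → ℝ := fun v i => t * c v i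

/-- `x` lies in the box `‖L_{v,i}(x)‖_v ≤ exp b_{v,i}` for all places `v` and all `i`. -/
def Bb (F : Frm K ι) (b : Pl K → ι → ℝ) (x : ι → K) : Prop :=
  ∀ v i, nv v (Matrix.mulVec (F.L v) x i) ≤ Real.exp (b v i)

/-- Local twisted norm. -/
noncomputable def tn (F : Frm K ι) (b : Pl K → ι → ℝ) (v : Pl K) (x : ι → K) : ℝ :=
  ⨆ i, nv v (Matrix.mulVec (F.L v) x i) * Real.exp (-(b v i))

/-- Logarithmic twisted height. -/
noncomputable def tH (F : Frm K ι) (b : Pl K → ι → ℝ) (x : ι → K) : ℝ :=
  gsum fun v => Real.log (tn F b v x)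

/-- Exponents raised by `a` (total amount), equally distributed over the infinite places. -/
noncomputable def rai (b : Pl K → ι → ℝ) (a : ℝ) : Pl K → ι → ℝ
  | .inl v, i => b (.inl v) i + a * v.mult / Module.finrank ℚ K
  | .inr v, i => b (.inr v) i

/-- Slopes `ν` and adapted bases `x j` of the family of boxes with exponents `c` at the parameters
`t j`, along the ultrafilter `U`. -/
structure Slopes {n : ℕ} (F : Frm K ι) (c : Pl K → ι → ℝ) (U : Ultrafilter ℕ) (t : ℕ → ℝ)
    (x : ℕ → Fin n → ι → K) (ν : Fin n → ℝ) : Prop where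
  card : Fintype.card ι = n
  indep : ∀ᶠ j in (U : Filter ℕ), LinearIndependent K (x j)
  mono : Monotone ν
  sum : ∑ l, ν l = -deg c
  upper : ∀ ε : ℝ, 0 < ε → ∀ l, ∀ᶠ j in (U : Filter ℕ), Bb F (sc (t j) (rai c (ν l + ε))) (x j l)
  lower : ∀ ε : ℝ, 0 < ε → ∀ l, ∀ᶠ j in (U : Filter ℕ), ∀ y : ι → K,
    y ∉ Submodule.span K (x j '' {l' | l' < l}) → (ν l - ε) * t j ≤ tH F (sc (t j) c) y

end forms

end Pool.Agent.V2
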