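import Mathlib
import Pool.Agent.Helper21.V2.Defs

/-!
# Definitions, parts II and III: graded valuations on `k[X₀, X₁, X₂]`

A binary quadratic form `a X² + b X Y + c Y²` is the point `(a, b, c)`, i.e. `X 0, X 1, X 2` are the
coefficients.
-/

namespace Pool.Agent.V2

open MvPolynomial

section alg

variable {k : Type*} [Field k]

/-- The linear form `F ↦ F(α)` on binary quadratic forms `F`. -/
noncomputable def Tan (α : Fin 2 → k) : MvPolynomial (Fin 3) k :=
  C (α 0 ^ 2) * X 0 + C (α 0 * α 1) * X 1 + C (α 1 ^ 2) * X 2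

/-- The discriminant `b² - 4ac`. -/
noncomputable def Dis : MvPolynomial (Fin 3) k := X 1 ^ 2 - C 4 * X 0 * X 2

/-- `w` is a real valuation, trivial on constants, on the graded ring
`k[X₀,X₁,X₂]` modulo the homogeneous prime ideal whose homogeneous elements are those with `Z`;
only the values at homogeneous `s` with `¬ Z s` matter. -/
structure GV (Z : MvPolynomial (Fin 3) k → Prop) (w : MvPolynomial (Fin 3) k → ℝ) : Prop where
  nonneg : ∀ s N, s.IsHomogeneous N → ¬ Z s → 0 ≤ w s
  mul : ∀ s t M N, s.IsHomogeneous M → t.IsHomogeneous N → ¬ Z s → ¬ Z t → w (s * t) = w s + w t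
  add : ∀ s t N, s.IsHomogeneous N → t.IsHomogeneous N → ¬ Z s → ¬ Z t → ¬ Z (s + t) →
    min (w s) (w t) ≤ w (s + t)
  congr : ∀ s t (N : ℕ), s.IsHomogeneous N → t.IsHomogeneous N → ¬ Z s → Z t → w (s + t) = w s
  const : ∀ a : k, a ≠ 0 → w (C a) = 0
  unit : ∃ i, ¬ Z (X i) ∧ w (X i) = 0

/-- `Z` behaves like membership in a homogeneous prime ideal (on homogeneous elements). -/
structure ZI (Z : MvPolynomial (Fin 3) k → Prop) : Prop where
  zero : Z 0
  one : ¬ Z 1
  add : ∀ s t N, s.IsHomogeneous N → t.IsHomogeneous N → Z s → Z t → Z (s + t)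
  mul : ∀ s t M N, s.IsHomogeneous M → t.IsHomogeneous N → (Z (s * t) ↔ Z s ∨ Z t)
  C_mul : ∀ s N (a : k), s.IsHomogeneous N → Z s → Z (C a * s)

/-- Liouville inequality for a family of valuations. -/
def LI {τ : Type*} [Fintype τ] (Z : MvPolynomial (Fin 3) k → Prop)
    (w : τ → MvPolynomial (Fin 3) k → ℝ) : Prop :=
  ∀ s (N : ℕ), s.IsHomogeneous N → ¬ Z s → ∑ t, w t s ≤ N

/-- Subspace inequality: for bases `s t` (one for every `t`) of the same space of homogeneous
elements of degree `N` modulo `Z`, the sum of all values is at most `m N`. -/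
def SU {τ : Type*} [Fintype τ] (Z : MvPolynomial (Fin 3) k → Prop)
    (w : τ → MvPolynomial (Fin 3) k → ℝ) : Prop :=
  ∀ (N m : ℕ) (s : τ → Fin m → MvPolynomial (Fin 3) k), (∀ t i, (s t i).IsHomogeneous N) →
    (∀ t, ∀ a : Fin m → k, a ≠ 0 → ¬ Z (∑ i, C (a i) * s t i)) →
    (∀ t t' i, ∃ a : Fin m → k, Z (s t i - ∑ j, C (a j) * s t' j)) →
    ∑ t, ∑ i, w t (s t i) ≤ m * N

/-- The space of homogeneous polynomials of degree `N`. -/
noncomputable abbrev hs (k : Type*) [Field k] (N : ℕ) : Submodule k (MvPolynomial (Fin 3) k) :=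
  homogeneousSubmodule (Fin 3) k N

/-- The space of homogeneous polynomials of degree `N` which are divisible by `f` or have value
at least `x`. -/
noncomputable def fil (f : MvPolynomial (Fin 3) k) (w : MvPolynomial (Fin 3) k → ℝ) (N : ℕ)
    (x : ℝ) : Submodule k (MvPolynomial (Fin 3) k) :=
  Submodule.span k {s | s.IsHomogeneous N ∧ (f ∣ s ∨ x ≤ w s)}

/-- `w` is normalised on the plane curve `f = 0` of degree `δ` (like the order at a closed point
times the degree of the point): integral values, Bezout's bound, and the codimension of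
`{w ≥ j}` in the polynomials of degree `N` modulo `f` is `j + O(1)` for `j ≤ δ N`. -/
structure NormC (f : MvPolynomial (Fin 3) k) (δ : ℕ) (w : MvPolynomial (Fin 3) k → ℝ) : Prop where
  int : ∀ s N, s.IsHomogeneous N → ¬ f ∣ s → ∃ a : ℕ, w s = a
  le : ∀ s (N : ℕ), s.IsHomogeneous N → ¬ f ∣ s → w s ≤ δ * N
  up : ∃ C : ℕ, ∀ N j : ℕ,
    Module.finrank k (hs k N) ≤ Module.finrank k (fil f w N j) + j + C
  low : ∃ C : ℕ, ∀ N j : ℕ, j ≤ δ * N →
    Module.finrank k (fil f w N j) + j ≤ Module.finrank k (hs k N) + C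

/-- The derivation `b ∂_a + 2(a+c) ∂_b + b ∂_c` (infinitesimal action of the torus fixing `±1`). -/
noncomputable def VF (s : MvPolynomial (Fin 3) k) : MvPolynomial (Fin 3) k :=
  X 1 * pderiv 0 s + C 2 * (X 0 + X 2) * pderiv 1 s + X 1 * pderiv 2 s

/-- Linear substitution `X_i ↦ ∑_j g i j X_j`. -/
noncomputable def sub3 (g : Matrix (Fin 3) (Fin 3) k) (s : MvPolynomial (Fin 3) k) :
    MvPolynomial (Fin 3) k :=
  bind₁ (fun i => ∑ j, C (g i j) * X j) s

/-- Dehomogenisation `X₂ = 1`, as a polynomial in `y = X₁` over `k[x]`, `x = X₀`. -/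
noncomputable def deh (s : MvPolynomial (Fin 3) k) : Polynomial (Polynomial k) :=
  aeval ![Polynomial.C Polynomial.X, Polynomial.X, 1] s

end alg

section limit

open NumberField
open Pool.Agent.Helper64.Vojta (Pl nv)

variable {k : Type*} [Field k] [NumberField k]

/-- `s` vanishes at almost all `F n` (along `U`). -/
def Null (U : Ultrafilter ℕ) (F : ℕ → Fin 3 → k) (s : MvPolynomial (Fin 3) k) : Prop :=
  ∀ᶠ n in (U : Filter ℕ), eval (F n) s = 0

/-- The Weil function of the divisor of a homogeneous polynomial `s` of degree `N`. -/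
noncomputable def wf (v : Pl k) (N : ℕ) (s : MvPolynomial (Fin 3) k) (x : Fin 3 → k) : ℝ :=
  N * Real.log (vn v x) - Real.log (nv v (eval x s))

/-- The limit along `U` of `wf v N s (F n) / vH (F n)`, `N = s.totalDegree`. -/
noncomputable def lw (U : Ultrafilter ℕ) (F : ℕ → Fin 3 → k) (v : Pl k)
    (s : MvPolynomial (Fin 3) k) : ℝ :=
  Filter.limUnder (U : Filter ℕ) fun n => wf v s.totalDegree s (F n) / vH (F n)

end limit

end Pool.Agent.V2
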