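import Mathlib
import Pool.Agent.Helper21.V2.Defs2

/-!
# Limits of Weil functions (block V2-AR4, written by helper62)

`GV_lw_of`, `LI_lw_of` take the blocks AR2 (`wf_bounds`) and AR3 (`lw_tendsto`) as hypotheses.
-/

set_option autoImplicit false

namespace Pool.Agent.V2

open MvPolynomial NumberField Filter
open Pool.Agent.Helper64.Vojta (Pl nv nv_pos nv_nonneg nv_mul nv_sum_le)

namespace AR4

variable {k : Type*} [Field k] [NumberField k]

omit [NumberField k] in
lemma not_null {U : Ultrafilter ℕ} {F : ℕ → Fin 3 → k} {s : MvPolynomial (Fin 3) k}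
    (h : ¬ Null U F s) : ∀ᶠ n in (U : Filter ℕ), eval (F n) s ≠ 0 :=
  Ultrafilter.eventually_not.2 h

omit [NumberField k] in
lemma null_of {U : Ultrafilter ℕ} {F : ℕ → Fin 3 → k} {s : MvPolynomial (Fin 3) k}
    (h : ∀ᶠ n in (U : Filter ℕ), eval (F n) s ≠ 0) : ¬ Null U F s :=
  Ultrafilter.eventually_not.1 h

lemma vn_pos (v : Pl k) {x : Fin 3 → k} (hx : x ≠ 0) :
    ∃ i, nv v (x i) = vn v x ∧ 0 < vn v x := by
  obtain ⟨i, hi⟩ := Finite.exists_max (fun i => nv v (x i))
  have h1 : vn v x = nv v (x i) := by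
    unfold vn
    exact le_antisymm (ciSup_le hi) (le_ciSup (f := fun i => nv v (x i))
      (Set.finite_range _).bddAbove i)
  refine ⟨i, h1.symm, ?_⟩
  obtain ⟨j, hj⟩ := Function.ne_iff.mp hx
  rw [h1]
  exact (nv_pos v hj).trans_le (hi j)

/-- A constant divided by the height tends to zero. -/
lemma const_tendsto {U : Ultrafilter ℕ} {F : ℕ → Fin 3 → k}
    (hH : Tendsto (fun n => vH (F n)) (U : Filter ℕ) atTop) (C : ℝ) :
    Tendsto (fun n => C / vH (F n)) (U : Filter ℕ) (nhds 0) :=
  hH.const_div_atTop C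

/-- The statement of AR2. -/
def Bounds (k : Type*) [Field k] [NumberField k] : Prop :=
  ∀ (s : MvPolynomial (Fin 3) k) (N : ℕ), s.IsHomogeneous N →
    ∃ C : ℝ, ∀ x : Fin 3 → k, eval x s ≠ 0 →
      (∀ v, -C ≤ wf v N s x) ∧ ∀ T : Finset (Pl k), ∑ v ∈ T, wf v N s x ≤ N * vH x + C

/-- The statement of AR3. -/
def Limits (U : Ultrafilter ℕ) (F : ℕ → Fin 3 → k) : Prop :=
  ∀ (v : Pl k) (s : MvPolynomial (Fin 3) k) (N : ℕ), s.IsHomogeneous N → ¬ Null U F s →
    Tendsto (fun n => wf v N s (F n) / vH (F n)) (U : Filter ℕ) (nhds (lw U F v s))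

theorem GV_lw_of (hB : Bounds k) (U : Ultrafilter ℕ) (F : ℕ → Fin 3 → k) (hF : ∀ n, F n ≠ 0)
    (hH : Tendsto (fun n => vH (F n)) (U : Filter ℕ) atTop) (hL : Limits U F) (v : Pl k) :
    GV (Null U F) (lw U F v) := by
  have hpos : ∀ᶠ n in (U : Filter ℕ), 0 < vH (F n) := hH.eventually_gt_atTop 0
  refine ⟨?_, ?_, ?_, ?_, ?_, ?_⟩
  · intro s N hs h0
    obtain ⟨C, hC⟩ := hB s N hs
    have h1 := hL v s N hs h0
    have h2 := const_tendsto hH (-C)
    refine le_of_tendsto_of_tendsto h2 h1 ?_
    filter_upwards [hpos, not_null h0] with n hn hn0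
    exact div_le_div_of_nonneg_right ((hC (F n) hn0).1 v) hn.le
  · intro s t M N hs ht h0 h0'
    have h1 := hL v s M hs h0
    have h2 := hL v t N ht h0'
    have hst : ¬ Null U F (s * t) := by
      refine null_of ?_
      filter_upwards [not_null h0, not_null h0'] with n hn hn'
      rw [map_mul]
      exact mul_ne_zero hn hn'
    have h3 := hL v (s * t) (M + N) (hs.mul ht) hst
    refine tendsto_nhds_unique h3 ((h1.add h2).congr' ?_)
    filter_upwards [not_null h0, not_null h0'] with n hn hn'
    rw [← add_div]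
    congr 1
    unfold wf
    rw [map_mul, nv_mul, Real.log_mul (nv_pos v hn).ne' (nv_pos v hn').ne']
    push_cast
    ring
  · intro s t N hs ht h0 h0' h0''
    have h1 := hL v s N hs h0
    have h2 := hL v t N ht h0'
    have h3 := hL v (s + t) N (hs.add ht) h0''
    have h4 := const_tendsto hH (-(Real.log 9))
    have h5 := (h1.min h2).add h4
    rw [add_zero] at h5
    refine le_of_tendsto_of_tendsto h5 h3 ?_
    filter_upwards [hpos, not_null h0, not_null h0', not_null h0''] with n hn hn1 hn2 hn3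
    rw [min_div_div_right hn.le, ← add_div]
    refine div_le_div_of_nonneg_right ?_ hn.le
    have h6 : nv v (eval (F n) (s + t)) ≤ 9 * max (nv v (eval (F n) s)) (nv v (eval (F n) t)) := by
      have := nv_sum_le v (Finset.univ : Finset (Fin 2))
        (fun i => if i = 0 then eval (F n) s else eval (F n) t)
        (max (nv v (eval (F n) s)) (nv v (eval (F n) t)))
        (le_max_of_le_left (nv_nonneg v _))
        (fun i _ => by
          fin_cases i
          · simp
          · simp)
      rw [Fin.sum_univ_two] at this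
      simp only [Finset.card_univ, Fintype.card_fin, if_true, Fin.one_eq_zero_iff,
        OfNat.ofNat_ne_one, if_false] at this
      rw [map_add]
      refine this.trans (le_of_eq ?_)
      norm_num
    have h7 : Real.log (nv v (eval (F n) (s + t))) ≤
        Real.log 9 + max (Real.log (nv v (eval (F n) s))) (Real.log (nv v (eval (F n) t))) := by
      have h8 := Real.log_le_log (nv_pos v hn3) h6
      rw [Real.log_mul (by norm_num) (lt_max_of_lt_left (nv_pos v hn1)).ne'] at h8
      refine h8.trans (add_le_add le_rfl ?_)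
      rcases le_total (nv v (eval (F n) s)) (nv v (eval (F n) t)) with h | h
      · rw [max_eq_right h]; exact le_max_right _ _
      · rw [max_eq_left h]; exact le_max_left _ _
    unfold wf
    rcases le_total (Real.log (nv v (eval (F n) s))) (Real.log (nv v (eval (F n) t))) with h | h
    · rw [max_eq_right h] at h7
      have := min_le_right (↑N * Real.log (vn v (F n)) - Real.log (nv v (eval (F n) s)))
        (↑N * Real.log (vn v (F n)) - Real.log (nv v (eval (F n) t)))
      linarith
    · rw [max_eq_left h] at h7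
      have := min_le_left (↑N * Real.log (vn v (F n)) - Real.log (nv v (eval (F n) s)))
        (↑N * Real.log (vn v (F n)) - Real.log (nv v (eval (F n) t)))
      linarith
  · intro s t N hs ht h0 hz
    have hst : ∀ᶠ n in (U : Filter ℕ), eval (F n) (s + t) = eval (F n) s := by
      have hz' : ∀ᶠ n in (U : Filter ℕ), eval (F n) t = 0 := hz
      filter_upwards [hz'] with n hn
      rw [map_add, hn, add_zero]
    have h0' : ¬ Null U F (s + t) := by
      refine null_of ?_
      filter_upwards [hst, not_null h0] with n hn hn'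
      rw [hn]; exact hn'
    have h1 := hL v s N hs h0
    have h2 := hL v (s + t) N (hs.add ht) h0'
    refine tendsto_nhds_unique h2 (h1.congr' ?_)
    filter_upwards [hst] with n hn
    unfold wf
    rw [hn]
  · intro a ha
    have h0 : ¬ Null U F (C a) := null_of (by simpa using ha)
    have h1 := hL v (C a) 0 (isHomogeneous_C (Fin 3) a) h0
    refine tendsto_nhds_unique h1 ((const_tendsto hH (-(Real.log (nv v a)))).congr fun n => ?_)
    simp [wf]
  · have hex : ∀ n, ∃ i, nv v (F n i) = vn v (F n) ∧ 0 < vn v (F n) := fun n => vn_pos v (hF n)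
    have h1 : ∃ i : Fin 3, ∀ᶠ n in (U : Filter ℕ),
        nv v (F n i) = vn v (F n) ∧ 0 < vn v (F n) := by
      by_contra hcon
      rw [not_exists] at hcon
      have h2 : ∀ i : Fin 3, ∀ᶠ n in (U : Filter ℕ),
          ¬ (nv v (F n i) = vn v (F n) ∧ 0 < vn v (F n)) := fun i =>
        Ultrafilter.eventually_not.2 (hcon i)
      have h3 : ∀ᶠ n in (U : Filter ℕ), ∀ i : Fin 3,
          ¬ (nv v (F n i) = vn v (F n) ∧ 0 < vn v (F n)) := eventually_all.2 h2
      obtain ⟨n, hn⟩ := h3.exists
      obtain ⟨i, hi⟩ := hex n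
      exact hn i hi
    obtain ⟨i, hi⟩ := h1
    have h0 : ¬ Null U F (X i) := by
      refine null_of ?_
      filter_upwards [hi] with n hn
      rw [eval_X]
      intro h
      have h2 := hn.1
      rw [h, Pool.Agent.Helper64.Vojta.nv_zero] at h2
      linarith [hn.2]
    refine ⟨i, h0, ?_⟩
    have h1 := hL v (X i) 1 (isHomogeneous_X k i) h0
    refine tendsto_nhds_unique h1 (tendsto_const_nhds.congr' ?_)
    filter_upwards [hi] with n hn
    simp [wf, hn.1]

theorem LI_lw_of (hB : Bounds k) (U : Ultrafilter ℕ) (F : ℕ → Fin 3 → k)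
    (hH : Tendsto (fun n => vH (F n)) (U : Filter ℕ) atTop) (hL : Limits U F)
    (T : Finset (Pl k)) :
    LI (Null U F) (fun v : T => lw U F v) := by
  have hpos : ∀ᶠ n in (U : Filter ℕ), 0 < vH (F n) := hH.eventually_gt_atTop 0
  intro s N hs h0
  obtain ⟨C, hC⟩ := hB s N hs
  have h1 : Tendsto (fun n => ∑ v : T, wf (v : Pl k) N s (F n) / vH (F n)) (U : Filter ℕ)
      (nhds (∑ v : T, lw U F v s)) := tendsto_finsetSum _ fun v _ => hL v s N hs h0
  have h2 : Tendsto (fun n => (N : ℝ) + C / vH (F n)) (U : Filter ℕ) (nhds ((N : ℝ) + 0)) :=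
    tendsto_const_nhds.add (const_tendsto hH C)
  rw [add_zero] at h2
  refine le_of_tendsto_of_tendsto h1 h2 ?_
  filter_upwards [hpos, not_null h0] with n hn hn0
  have h3 := (hC (F n) hn0).2 T
  rw [← Finset.sum_div]
  have h4 : (∑ v : T, wf (v : Pl k) N s (F n)) = ∑ v ∈ T, wf v N s (F n) :=
    Finset.sum_coe_sort T (fun v => wf v N s (F n))
  rw [h4, div_le_iff₀ hn, add_mul, div_mul_cancel₀ _ hn.ne']
  exact h3

end AR4

end Pool.Agent.V2
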