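import Mathlib
import Pool.Agent.Helper21.V2.Defs2
import Pool.Agent.Helper21.V2.AR1
import Pool.Agent.Helper21.V2.AR4a

/-!
# Block V2-AR4: the limits of the Weil functions are graded valuations with Liouville inequality
-/

set_option autoImplicit false

namespace Pool.Agent.V2

open MvPolynomial NumberField Filter
open Pool.Agent.Helper64.Vojta (Pl nv)

variable {k : Type*} [Field k] [NumberField k]

/-- AR4. -/
theorem GV_lw (U : Ultrafilter ℕ) (F : ℕ → Fin 3 → k) (hF : ∀ n, F n ≠ 0)
    (hH : Tendsto (fun n => vH (F n)) (U : Filter ℕ) atTop) (v : Pl k) :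
    GV (Null U F) (lw U F v) :=
  AR4.GV_lw_of wf_bounds U F hF hH (fun v s N hs h0 => lw_tendsto U F hF hH v s N hs h0) v

/-- AR4'. -/
theorem LI_lw (U : Ultrafilter ℕ) (F : ℕ → Fin 3 → k) (hF : ∀ n, F n ≠ 0)
    (hH : Tendsto (fun n => vH (F n)) (U : Filter ℕ) atTop) (T : Finset (Pl k)) :
    LI (Null U F) (fun v : T => lw U F v) :=
  AR4.LI_lw_of wf_bounds U F hH (fun v s N hs h0 => lw_tendsto U F hF hH v s N hs h0) T

end Pool.Agent.V2
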