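import Pool.Agent.Helper21.V2.Defs

/-!
# Block BA: sums over all places
-/

namespace Pool.Agent.V2

open NumberField Finset
open Pool.Agent.Helper64.Vojta (Pl nv)

set_option linter.unusedVariables false

variable {K : Type*} [Field K] [NumberField K]

theorem FinS.hfs {f : Pl K → ℝ} (hf : FinS f) :
    (fun v : FinitePlace K => f (.inr v)).HasFiniteSupport := hf

theorem gsum_add {f g : Pl K → ℝ} (hf : FinS f) (hg : FinS g) :
    gsum (fun v => f v + g v) = gsum f + gsum g := by
  unfold gsum
  rw [Finset.sum_add_distrib, finsum_add_distrib hf.hfs hg.hfs]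
  ring

theorem FinS.add {f g : Pl K → ℝ} (hf : FinS f) (hg : FinS g) : FinS (fun v => f v + g v) :=
  Function.HasFiniteSupport.add hf.hfs hg.hfs

theorem FinS.neg {f : Pl K → ℝ} (hf : FinS f) : FinS (fun v => - f v) := by
  refine Set.Finite.subset hf fun v hv => ?_
  simpa using hv

theorem FinS.const_mul {f : Pl K → ℝ} (hf : FinS f) (a : ℝ) : FinS (fun v => a * f v) := by
  refine Set.Finite.subset hf fun v hv => ?_
  rw [Function.mem_support] at hv ⊢
  exact right_ne_zero_of_mul hv

theorem FinS.zero : FinS (K := K) (fun _ => 0) := by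
  unfold FinS
  simp

theorem FinS.sum {α : Type*} (s : Finset α) {f : α → Pl K → ℝ} (hf : ∀ a ∈ s, FinS (f a)) :
    FinS (fun v => ∑ a ∈ s, f a v) := by
  classical
  induction s using Finset.induction_on with
  | empty => simpa using FinS.zero
  | insert a s ha ih =>
    simp_rw [Finset.sum_insert ha]
    exact (hf a (Finset.mem_insert_self _ _)).add
      (ih fun b hb => hf b (Finset.mem_insert_of_mem hb))

theorem gsum_neg (f : Pl K → ℝ) : gsum (fun v => - f v) = - gsum f := by
  unfold gsum
  rw [Finset.sum_neg_distrib, finsum_neg_distrib]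
  ring

theorem gsum_const_mul (f : Pl K → ℝ) (a : ℝ) : gsum (fun v => a * f v) = a * gsum f := by
  unfold gsum
  rw [← Finset.mul_sum, mul_add, mul_finsum]

theorem gsum_zero : gsum (K := K) (fun _ => 0) = 0 := by
  unfold gsum
  simp

theorem gsum_sum {α : Type*} (s : Finset α) {f : α → Pl K → ℝ} (hf : ∀ a ∈ s, FinS (f a)) :
    gsum (fun v => ∑ a ∈ s, f a v) = ∑ a ∈ s, gsum (f a) := by
  classical
  induction s using Finset.induction_on with
  | empty => simpa using gsum_zero
  | insert a s ha ih =>
    simp_rw [Finset.sum_insert ha]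
    rw [gsum_add (hf a (Finset.mem_insert_self _ _))
      (FinS.sum s fun b hb => hf b (Finset.mem_insert_of_mem hb)),
      ih fun b hb => hf b (Finset.mem_insert_of_mem hb)]

theorem gsum_mono {f g : Pl K → ℝ} (hf : FinS f) (hg : FinS g) (h : ∀ v, f v ≤ g v) :
    gsum f ≤ gsum g :=
  add_le_add (Finset.sum_le_sum fun v _ => h _) (finsum_le_finsum' hf.hfs hg.hfs fun v => h _)

theorem gsum_nonneg {f : Pl K → ℝ} (h : ∀ v, 0 ≤ f v) : 0 ≤ gsum f :=
  add_nonneg (Finset.sum_nonneg fun v _ => h _) (finsum_nonneg fun v => h _)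

/-- the constant function equal to `mult v * B` at infinite places and `0` at finite places -/
theorem gsum_inf (B : ℝ) : gsum (K := K) (fun v => match v with
    | .inl v => v.mult * B
    | .inr _ => 0) = Module.finrank ℚ K * B := by
  unfold gsum
  simp only [finsum_zero, add_zero]
  rw [← Finset.sum_mul, ← NumberField.InfinitePlace.sum_mult_eq]
  push_cast
  rfl

/-- a function which is `≤ 0` at the finite places and `≤ mult v * B` at the infinite ones -/
theorem gsum_le {f : Pl K → ℝ} (hf : FinS f) (B : ℝ)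
    (hi : ∀ v : InfinitePlace K, f (.inl v) ≤ v.mult * B)
    (h0 : ∀ v : FinitePlace K, f (.inr v) ≤ 0) : gsum f ≤ Module.finrank ℚ K * B := by
  rw [← gsum_inf (K := K) B]
  refine gsum_mono hf ?_ ?_
  · unfold FinS
    simp
  · rintro (v | v)
    · exact hi v
    · exact h0 v

theorem finS_nv {y : K} (hy : y ≠ 0) : FinS (fun v => Real.log (nv v y)) :=
  Pool.Agent.Helper64.Vojta.log_support _ (Pool.Agent.Helper64.Vojta.fin_support_nv hy)

theorem gsum_nv {y : K} (hy : y ≠ 0) : gsum (fun v => Real.log (nv v y)) = 0 :=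
  Pool.Agent.Helper64.Vojta.product_formula_log hy

end Pool.Agent.V2
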