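import Pool.Agent.Helper21.V2.BB

/-!
# Block M0: twisted heights, determinants and degrees
-/

namespace Pool.Agent.V2

open NumberField Finset
open Pool.Agent.Helper64.Vojta (Pl nv nv_nonneg nv_mul nv_one nv_zero nv_pos nv_inv nv_sum_le
  nv_sum_le_inr nv_sum_le_inl)

variable {K : Type*} [Field K] [NumberField K] {ι : Type*} [Fintype ι] [DecidableEq ι]

theorem nv_neg_one (v : Pl K) : nv v (-1 : K) = 1 := by
  have h1 : nv v (-1 : K) * nv v (-1 : K) = 1 := by
    rw [← nv_mul]
    simp [nv_one]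
  have h2 := nv_nonneg v (-1 : K)
  nlinarith

theorem nv_prod (v : Pl K) {α : Type*} (s : Finset α) (f : α → K) :
    nv v (∏ i ∈ s, f i) = ∏ i ∈ s, nv v (f i) := by
  classical
  induction s using Finset.induction_on with
  | empty => simp [nv_one]
  | insert a s ha ih => rw [Finset.prod_insert ha, Finset.prod_insert ha, nv_mul, ih]

theorem le_tn (F : Frm K ι) (b : Pl K → ι → ℝ) (v : Pl K) (x : ι → K) (i : ι) :
    nv v (Matrix.mulVec (F.L v) x i) * Real.exp (-(b v i)) ≤ tn F b v x :=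
  le_ciSup (f := fun i => nv v (Matrix.mulVec (F.L v) x i) * Real.exp (-(b v i)))
    (Set.finite_range _).bddAbove i

theorem le_tn' (F : Frm K ι) (b : Pl K → ι → ℝ) (v : Pl K) (x : ι → K) (i : ι) :
    nv v (Matrix.mulVec (F.L v) x i) ≤ tn F b v x * Real.exp (b v i) := by
  have h1 := le_tn F b v x i
  rw [Real.exp_neg, ← div_eq_mul_inv, div_le_iff₀ (Real.exp_pos _)] at h1
  exact h1

theorem tn_nonneg (F : Frm K ι) (b : Pl K → ι → ℝ) (v : Pl K) (x : ι → K) : 0 ≤ tn F b v x :=
  Real.iSup_nonneg fun _ => mul_nonneg (nv_nonneg _ _) (Real.exp_pos _).le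

theorem tn_pos (F : Frm K ι) (b : Pl K → ι → ℝ) (v : Pl K) {x : ι → K} (hx : x ≠ 0) :
    0 < tn F b v x := by
  have h1 : Matrix.mulVec (F.L v) x ≠ 0 := fun h => hx (Matrix.eq_zero_of_mulVec_eq_zero (F.hL v) h)
  obtain ⟨i, hi⟩ := Function.ne_iff.mp h1
  exact (mul_pos (nv_pos v hi) (Real.exp_pos _)).trans_le (le_tn F b v x i)

theorem tn_le (F : Frm K ι) (b : Pl K → ι → ℝ) (v : Pl K) (x : ι → K) {B : ℝ} (hB : 0 ≤ B)
    (h : ∀ i, nv v (Matrix.mulVec (F.L v) x i) * Real.exp (-(b v i)) ≤ B) : tn F b v x ≤ B :=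
  Real.iSup_le h hB

theorem tn_out (F : Frm K ι) (b : Pl K → ι → ℝ) (hb : ExpS F.S b) {v : FinitePlace K}
    (hv : v ∉ F.S) (x : ι → K) : tn F b (.inr v) x = vn (.inr v) x := by
  unfold tn vn
  rw [F.hS v hv, hb v hv]
  simp

theorem finS_of_S (S : Finset (FinitePlace K)) {f : Pl K → ℝ}
    (h : ∀ v : FinitePlace K, v ∉ S → f (.inr v) = 0) : FinS f := by
  refine Set.Finite.subset S.finite_toSet fun v hv => ?_
  by_contra hcon
  exact hv (h v (fun h2 => hcon (by simpa using h2)))

/-- M0a. -/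
theorem finS_tn (F : Frm K ι) (b : Pl K → ι → ℝ) (hb : ExpS F.S b) {y : ι → K}
    (hy : y ≠ 0) : FinS (fun v => Real.log (tn F b v y)) := by
  refine Set.Finite.subset (F.S.finite_toSet.union (finS_vn (K := K) hy)) fun v hv => ?_
  by_cases h : v ∈ F.S
  · left; simpa using h
  · right
    have hv' : Real.log (tn F b (.inr v) y) ≠ 0 := hv
    rw [tn_out F b hb h] at hv'
    exact hv'

theorem finS_deg (F : Frm K ι) (b : Pl K → ι → ℝ) (hb : ExpS F.S b) :
    FinS (fun v => ∑ i, b v i) :=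
  finS_of_S F.S fun v hv => by rw [hb v hv]; simp

theorem deg_sc (t : ℝ) (c : Pl K → ι → ℝ) : deg (sc t c) = t * deg c := by
  unfold deg sc
  rw [← gsum_const_mul]
  congr 1
  funext v
  rw [Finset.mul_sum]

theorem deg_rai (S : Finset (FinitePlace K)) (b : Pl K → ι → ℝ) (hb : ExpS S b) (a : ℝ) :
    deg (rai b a) = deg b + Fintype.card ι * a := by
  have hd : (0 : ℝ) < Module.finrank ℚ K := Nat.cast_pos.2 Module.finrank_pos
  unfold deg
  let g : Pl K → ℝ := fun v => match v with
    | .inl v => v.mult * (Fintype.card ι * a / Module.finrank ℚ K)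
    | .inr _ => 0
  have h1 : (fun v : Pl K => ∑ i, rai b a v i) = fun v => ∑ i, b v i + g v := by
    funext v
    rcases v with v | v
    · simp only [rai, Finset.sum_add_distrib, Finset.sum_const, Finset.card_univ, nsmul_eq_mul, g]
      ring
    · simp only [rai, add_zero, g]
  have h2 : gsum g = Module.finrank ℚ K * (Fintype.card ι * a / Module.finrank ℚ K) :=
    gsum_inf _
  rw [h1, gsum_add, h2]
  · field_simp
  · exact finS_of_S S fun v hv => by rw [hb v hv]; simp
  · exact finS_of_S ∅ fun v _ => rfl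

theorem ExpS.rai {S : Finset (FinitePlace K)} {b : Pl K → ι → ℝ} (hb : ExpS S b) (a : ℝ) :
    ExpS S (V2.rai b a) := by
  intro v hv
  funext i
  simp only [V2.rai, hb v hv]

theorem ExpS.sc {S : Finset (FinitePlace K)} {b : Pl K → ι → ℝ} (hb : ExpS S b) (t : ℝ) :
    ExpS S (V2.sc t b) := by
  intro v hv
  funext i
  simp only [V2.sc, hb v hv, Pi.zero_apply, mul_zero]

/-- local determinant inequality -/
theorem nv_det_le (F : Frm K ι) (b : Pl K → ι → ℝ) (v : Pl K) {n : ℕ} (e : Fin n ≃ ι)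
    (y : Fin n → ι → K) :
    nv v ((Matrix.of fun i j => y (e.symm i) j : Matrix ι ι K).det) * nv v (F.L v).det ≤
      Real.exp (match v with
        | .inl _ => Real.log ((Fintype.card (Equiv.Perm ι) + 1 : ℝ) ^ 2)
        | .inr _ => 0) * ((∏ l, tn F b v (y l)) * Real.exp (∑ i, b v i)) := by
  set Y : Matrix ι ι K := Matrix.of fun i j => y (e.symm i) j with hY
  have h1 : nv v Y.det * nv v (F.L v).det = nv v (Y * (F.L v).transpose).det := by
    rw [Matrix.det_mul, Matrix.det_transpose, nv_mul]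
  have hZ : ∀ i j, (Y * (F.L v).transpose) i j = Matrix.mulVec (F.L v) (y (e.symm i)) j := by
    intro i j
    simp only [Matrix.mul_apply, Matrix.transpose_apply, Matrix.mulVec, dotProduct, hY,
      Matrix.of_apply]
    exact Finset.sum_congr rfl fun k _ => mul_comm _ _
  rw [h1, Matrix.det_apply']
  set B := (∏ l, tn F b v (y l)) * Real.exp (∑ i, b v i) with hB
  have hB0 : 0 ≤ B := mul_nonneg (Finset.prod_nonneg fun l _ => tn_nonneg _ _ _ _)
    (Real.exp_pos _).le
  have hterm : ∀ σ ∈ (Finset.univ : Finset (Equiv.Perm ι)),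
      nv v ((((Equiv.Perm.sign σ : ℤˣ) : ℤ) : K) * ∏ i, (Y * (F.L v).transpose) (σ i) i) ≤ B := by
    intro σ _
    rw [nv_mul]
    have hs : nv v ((((Equiv.Perm.sign σ : ℤˣ) : ℤ) : K)) = 1 := by
      rcases Int.units_eq_one_or (Equiv.Perm.sign σ) with h | h
      · rw [h]; simp [nv_one]
      · rw [h]; simp [nv_neg_one]
    rw [hs, one_mul, nv_prod]
    have h2 : ∏ i, nv v ((Y * (F.L v).transpose) (σ i) i) ≤
        ∏ i, (tn F b v (y (e.symm (σ i))) * Real.exp (b v i)) := by
      apply Finset.prod_le_prod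
      · intro i _; exact nv_nonneg _ _
      · intro i _
        rw [hZ]
        exact le_tn' F b v _ i
    refine h2.trans (le_of_eq ?_)
    rw [Finset.prod_mul_distrib, hB, Real.exp_sum]
    congr 1
    rw [Equiv.prod_comp σ (fun i => tn F b v (y (e.symm i)))]
    exact Equiv.prod_comp e.symm (fun l => tn F b v (y l))
  rcases v with v | v
  · have h3 := nv_sum_le_inl v Finset.univ _ B hB0 hterm
    rw [Finset.card_univ] at h3
    change _ ≤ Real.exp (Real.log ((Fintype.card (Equiv.Perm ι) + 1 : ℝ) ^ 2)) * B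
    rw [Real.exp_log (by positivity)]
    exact h3
  · have h3 := nv_sum_le_inr v Finset.univ _ B hB0 hterm
    change _ ≤ Real.exp 0 * B
    rw [Real.exp_zero, one_mul]
    exact h3

/-- M0b. lower bound for the twisted heights of a basis (product formula for the determinant) -/
theorem det_lower {n : ℕ} (hn : Fintype.card ι = n) (F : Frm K ι) :
    ∃ C : ℝ, ∀ b : Pl K → ι → ℝ, ExpS F.S b → ∀ y : Fin n → ι → K, LinearIndependent K y →
      -(deg b) - C ≤ ∑ l, tH F b (y l) := by
  let κ : Pl K → ℝ := fun v => match v with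
    | .inl _ => Real.log ((Fintype.card (Equiv.Perm ι) + 1 : ℝ) ^ 2)
    | .inr _ => 0
  have hκ : FinS κ := finS_of_S ∅ fun v _ => rfl
  have hL : FinS fun v : Pl K => Real.log (nv v (F.L v).det) :=
    finS_of_S F.S fun v hv => by rw [F.hS v hv, Matrix.det_one, nv_one, Real.log_one]
  let e : Fin n ≃ ι := (Fintype.equivFinOfCardEq hn).symm
  refine ⟨gsum κ - gsum (fun v : Pl K => Real.log (nv v (F.L v).det)), fun b hb y hy => ?_⟩
  set Y : Matrix ι ι K := Matrix.of fun i j => y (e.symm i) j with hY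
  have hYdet : Y.det ≠ 0 := by
    have h1 : LinearIndependent K Y.row := hy.comp e.symm e.symm.injective
    have h2 := Matrix.linearIndependent_rows_iff_isUnit.1 h1
    exact ((Matrix.isUnit_iff_isUnit_det Y).1 h2).ne_zero
  have hy0 : ∀ l, y l ≠ 0 := fun l => hy.ne_zero l
  have hsum : FinS fun v : Pl K => ∑ l, Real.log (tn F b v (y l)) :=
    FinS.sum _ fun l _ => finS_tn F b hb (hy0 l)
  have hdeg := finS_deg F b hb
  have hloc : ∀ v : Pl K, Real.log (nv v Y.det) + Real.log (nv v (F.L v).det) ≤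
      κ v + (∑ l, Real.log (tn F b v (y l)) + ∑ i, b v i) := by
    intro v
    have h1 := nv_det_le F b v e y
    rw [← hY] at h1
    have h2 := Real.log_le_log (mul_pos (nv_pos v hYdet) (nv_pos v (F.hL v))) h1
    rw [Real.log_mul (nv_pos v hYdet).ne' (nv_pos v (F.hL v)).ne',
      Real.log_mul (Real.exp_pos _).ne', Real.log_exp,
      Real.log_mul (Finset.prod_ne_zero_iff.2 fun l _ => (tn_pos F b v (hy0 l)).ne')
        (Real.exp_pos _).ne', Real.log_exp,
      Real.log_prod fun l _ => (tn_pos F b v (hy0 l)).ne'] at h2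
    · exact h2
    · exact mul_ne_zero (Finset.prod_ne_zero_iff.2 fun l _ => (tn_pos F b v (hy0 l)).ne')
        (Real.exp_pos _).ne'
  have h3 := gsum_mono ((finS_nv hYdet).add hL) (hκ.add (hsum.add hdeg)) hloc
  rw [gsum_add (finS_nv hYdet) hL, gsum_nv hYdet, zero_add, gsum_add hκ (hsum.add hdeg),
    gsum_add hsum hdeg, gsum_sum _ fun l _ => finS_tn F b hb (hy0 l)] at h3
  unfold deg tH
  linarith

/-- M0c. -/
theorem tH_lower (F : Frm K ι) (c : Pl K → ι → ℝ) (hc : ExpS F.S c) :
    ∃ C : ℝ, ∀ t : ℝ, 0 ≤ t → ∀ y : ι → K, y ≠ 0 → -C * (t + 1) ≤ tH F (sc t c) y := by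
  classical
  let m : Pl K → ℝ := fun v => ∑ i, |c v i|
  have hm : FinS m := finS_of_S F.S fun v hv => by simp only [m, hc v hv]; simp
  let N : Pl K → ℝ := fun v => (Fintype.card ι + 1 : ℝ) ^ 2 *
    (1 + ∑ k, ∑ i, nv v ((F.L v)⁻¹ k i))
  let κ : Pl K → ℝ := fun v => match v with
    | .inl w => Real.log (N (.inl w))
    | .inr w => if w ∈ F.S then Real.log (N (.inr w)) else 0
  have hκ : FinS κ := finS_of_S F.S fun v hv => by simp only [κ, if_neg hv]
  refine ⟨|gsum κ| + |gsum m|, fun t ht y hy => ?_⟩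
  obtain ⟨k, hk⟩ := Function.ne_iff.mp hy
  have hk' : y k ≠ 0 := hk
  have hN1 : ∀ v, 1 ≤ N v := by
    intro v
    have h1 : (0 : ℝ) ≤ ∑ k, ∑ i, nv v ((F.L v)⁻¹ k i) :=
      Finset.sum_nonneg fun k _ => Finset.sum_nonneg fun i _ => nv_nonneg _ _
    have h2 : (1 : ℝ) ≤ (Fintype.card ι + 1 : ℝ) ^ 2 := by
      have : (0 : ℝ) ≤ Fintype.card ι := Nat.cast_nonneg _
      nlinarith
    simp only [N]
    nlinarith
  -- general local bound
  have hgen : ∀ v : Pl K, Real.log (nv v (y k)) ≤
      Real.log (N v) + (Real.log (tn F (sc t c) v y) + t * m v) := by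
    intro v
    have hinv : y k = ∑ i, (F.L v)⁻¹ k i * Matrix.mulVec (F.L v) y i := by
      have h1 : Matrix.mulVec (F.L v)⁻¹ (Matrix.mulVec (F.L v) y) = y := by
        rw [Matrix.mulVec_mulVec, Matrix.nonsing_inv_mul _ (F.hL v).isUnit, Matrix.one_mulVec]
      have := congrFun h1 k
      rw [← this]
      rfl
    have hT := tn_pos F (sc t c) v hy
    set R := (1 + ∑ k, ∑ i, nv v ((F.L v)⁻¹ k i)) * (tn F (sc t c) v y * Real.exp (t * m v))
      with hR
    have hS0 : (0 : ℝ) ≤ ∑ k, ∑ i, nv v ((F.L v)⁻¹ k i) :=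
      Finset.sum_nonneg fun k _ => Finset.sum_nonneg fun i _ => nv_nonneg _ _
    have hR0 : 0 < R := by
      have : (0 : ℝ) < 1 + ∑ k, ∑ i, nv v ((F.L v)⁻¹ k i) := by linarith
      positivity
    have hterm : ∀ i ∈ (Finset.univ : Finset ι),
        nv v ((F.L v)⁻¹ k i * Matrix.mulVec (F.L v) y i) ≤ R := by
      intro i _
      rw [nv_mul]
      have e1 : nv v ((F.L v)⁻¹ k i) ≤ 1 + ∑ k, ∑ i, nv v ((F.L v)⁻¹ k i) := by
        have f1 : nv v ((F.L v)⁻¹ k i) ≤ ∑ i, nv v ((F.L v)⁻¹ k i) :=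
          Finset.single_le_sum (f := fun i => nv v ((F.L v)⁻¹ k i))
            (fun i _ => nv_nonneg _ _) (Finset.mem_univ i)
        have f2 : ∑ i, nv v ((F.L v)⁻¹ k i) ≤ ∑ k, ∑ i, nv v ((F.L v)⁻¹ k i) :=
          Finset.single_le_sum (f := fun k => ∑ i, nv v ((F.L v)⁻¹ k i))
            (fun k _ => Finset.sum_nonneg fun i _ => nv_nonneg _ _) (Finset.mem_univ k)
        linarith
      have e2 : nv v (Matrix.mulVec (F.L v) y i) ≤ tn F (sc t c) v y * Real.exp (t * m v) := by
        refine (le_tn' F (sc t c) v y i).trans ?_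
        apply mul_le_mul_of_nonneg_left _ hT.le
        apply Real.exp_le_exp.2
        change t * c v i ≤ t * m v
        apply mul_le_mul_of_nonneg_left _ ht
        exact (le_abs_self _).trans (Finset.single_le_sum (f := fun i => |c v i|)
          (fun i _ => abs_nonneg _) (Finset.mem_univ i))
      exact mul_le_mul e1 e2 (nv_nonneg _ _) (by linarith)
    have h2 := nv_sum_le v Finset.univ _ R hR0.le hterm
    rw [← hinv, Finset.card_univ] at h2
    have h3 := Real.log_le_log (nv_pos v hk') h2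
    have h4 : (Fintype.card ι + 1 : ℝ) ^ 2 * R =
        N v * (tn F (sc t c) v y * Real.exp (t * m v)) := by
      rw [hR]; simp only [N]; ring
    rw [h4, Real.log_mul (by linarith [hN1 v]) (by positivity),
      Real.log_mul hT.ne' (Real.exp_pos _).ne', Real.log_exp] at h3
    exact h3
  have hloc : ∀ v : Pl K, Real.log (nv v (y k)) ≤
      κ v + (Real.log (tn F (sc t c) v y) + t * m v) := by
    intro v
    rcases v with v | v
    · exact hgen (.inl v)
    · by_cases hv : v ∈ F.S
      · have := hgen (.inr v)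
        simp only [κ, if_pos hv]
        exact this
      · have h1 : m (.inr v) = 0 := by simp only [m, hc v hv]; simp
        simp only [κ, if_neg hv, h1, mul_zero, add_zero, zero_add]
        apply Real.log_le_log (nv_pos _ hk')
        rw [tn_out F _ (hc.sc t) hv]
        exact le_vn _ _ _
  have hft := finS_tn F (sc t c) (hc.sc t) hy
  have h5 := gsum_mono (finS_nv hk') (hκ.add (hft.add (hm.const_mul t))) hloc
  rw [gsum_nv hk', gsum_add hκ (hft.add (hm.const_mul t)), gsum_add hft (hm.const_mul t),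
    gsum_const_mul] at h5
  have h6 := neg_abs_le (gsum κ)
  have h7 := le_abs_self (gsum κ)
  have h8 := le_abs_self (gsum m)
  have h9 := abs_nonneg (gsum κ)
  have h10 := abs_nonneg (gsum m)
  have h11 : t * gsum m ≤ t * |gsum m| := mul_le_mul_of_nonneg_left h8 ht
  have h12 : 0 ≤ t * |gsum κ| := mul_nonneg ht h9
  change _ ≤ gsum fun v => Real.log (tn F (sc t c) v y)
  nlinarith

/-- M0d. -/
theorem Bb.tH_le {F : Frm K ι} {b : Pl K → ι → ℝ} (hb : ExpS F.S b) {a : ℝ} {x : ι → K}
    (hx : x ≠ 0) (h : Bb F (V2.rai b a) x) : tH F b x ≤ a := by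
  have hd : (0 : ℝ) < Module.finrank ℚ K := Nat.cast_pos.2 Module.finrank_pos
  have h1 := gsum_le (finS_tn F b hb hx) (a / Module.finrank ℚ K)
    (by
      intro v
      have h2 : tn F b (.inl v) x ≤ Real.exp (v.mult * (a / Module.finrank ℚ K)) := by
        refine tn_le F b _ x (Real.exp_pos _).le fun i => ?_
        rw [Real.exp_neg, ← div_eq_mul_inv, div_le_iff₀ (Real.exp_pos _), ← Real.exp_add]
        refine (h (.inl v) i).trans (le_of_eq ?_)
        congr 1
        simp only [V2.rai]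
        ring
      have h3 := Real.log_le_log (tn_pos F b (.inl v) hx) h2
      rwa [Real.log_exp] at h3)
    (by
      intro v
      have h2 : tn F b (.inr v) x ≤ 1 := by
        refine tn_le F b _ x zero_le_one fun i => ?_
        rw [Real.exp_neg, ← div_eq_mul_inv, div_le_iff₀ (Real.exp_pos _), one_mul]
        exact h (.inr v) i
      have h3 := Real.log_le_log (tn_pos F b (.inr v) hx) h2
      rwa [Real.log_one] at h3)
  rw [mul_div_cancel₀ _ hd.ne'] at h1
  exact h1

end Pool.Agent.V2
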