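import Pool.Agent.Helper21.V2.Defs

/-! M1. Minkowski's first theorem for boxes over a number field (pigeonhole). -/

namespace Pool.Agent.V2

open NumberField Finset IsDedekindDomain
open Pool.Agent.Helper64.Vojta (Pl nv nv_nonneg nv_mul nv_one nv_zero nv_pos nv_inv product_formula_log)

set_option linter.unusedSectionVars false

variable {K : Type*} [Field K] [NumberField K]

namespace M1


/-- norm of the maximal ideal of a finite place -/
noncomputable def qv (v : FinitePlace K) : ℕ := Ideal.absNorm v.maximalIdeal.asIdeal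

theorem one_lt_qv (v : FinitePlace K) : 1 < qv v :=
  NumberField.HeightOneSpectrum.one_lt_absNorm v.maximalIdeal

theorem nv_int_le_one (v : FinitePlace K) (x : 𝓞 K) : nv (.inr v) (x : K) ≤ 1 := by
  have := FinitePlace.norm_le_one K v.maximalIdeal x
  rwa [FinitePlace.norm_embedding_eq] at this

theorem nv_le_of_mem_pow (v : FinitePlace K) (x : 𝓞 K) (k : ℕ)
    (hx : x ∈ v.maximalIdeal.asIdeal ^ k) : nv (.inr v) (x : K) ≤ ((qv v : ℝ) ^ k)⁻¹ := by
  have h1 : (v.maximalIdeal).intValuation x ≤ WithZero.exp (-(k : ℤ)) :=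
    ((v.maximalIdeal).intValuation_le_pow_iff_mem x k).mpr hx
  have h2 := FinitePlace.norm_embedding_int K v.maximalIdeal x
  rw [FinitePlace.norm_embedding_eq] at h2
  change v (x : K) ≤ _
  rw [h2]
  have h3 := (WithZeroMulInt.toNNReal_strictMono
    (NumberField.HeightOneSpectrum.one_lt_absNorm_nnreal v.maximalIdeal)).monotone h1
  have h4 : WithZeroMulInt.toNNReal (NumberField.HeightOneSpectrum.absNorm_ne_zero v.maximalIdeal)
      (WithZero.exp (-(k : ℤ))) = ((qv v : NNReal) ^ k)⁻¹ := by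
    rw [WithZeroMulInt.toNNReal_neg_apply _ (WithZero.exp_ne_zero)]
    have h5 : (WithZero.unzero (WithZero.exp_ne_zero (a := (-(k : ℤ))))).toAdd = -(k : ℤ) := rfl
    rw [h5, zpow_neg, zpow_natCast]
    rfl
  calc _ ≤ ((((qv v : NNReal) ^ k)⁻¹ : NNReal) : ℝ) := by
        rw [← h4]; exact_mod_cast h3
    _ = _ := by push_cast; rfl

theorem card_quot (v : FinitePlace K) (k : ℕ) :
    Nat.card (𝓞 K ⧸ v.maximalIdeal.asIdeal ^ k) = qv v ^ k := by
  have := map_pow Ideal.absNorm v.maximalIdeal.asIdeal k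
  rw [qv, ← this, Ideal.absNorm_apply, Submodule.cardQuot_apply]

theorem exists_exp (q t : ℝ) (hq : 1 < q) (ht : 0 < t) (ht1 : t ≤ 1) :
    ∃ k : ℕ, (q ^ k)⁻¹ ≤ t ∧ q ^ k ≤ q / t := by
  obtain ⟨n, hn, hn1⟩ := exists_nat_pow_near (x := t⁻¹) ((one_le_inv₀ ht).mpr ht1) hq
  refine ⟨n + 1, inv_le_of_inv_le₀ ht hn1.le, ?_⟩
  rw [pow_succ, mul_comm, div_eq_mul_inv]
  exact mul_le_mul_of_nonneg_left hn (by linarith)

/-- an integer divisible only by one prime -/
theorem exists_unit1 (v : FinitePlace K) : ∃ α : 𝓞 K, α ≠ 0 ∧ nv (.inr v) (α : K) < 1 ∧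
    ∀ w : FinitePlace K, w ≠ v → nv (.inr w) (α : K) = 1 := by
  classical
  set p : Ideal (𝓞 K) := v.maximalIdeal.asIdeal with hp
  have hp0 : p ≠ ⊥ := v.maximalIdeal.ne_bot
  have hpm : p ∈ nonZeroDivisors (Ideal (𝓞 K)) := mem_nonZeroDivisors_of_ne_zero hp0
  have h1 : ClassGroup.mk0 (⟨p, hpm⟩ ^ Nat.card (ClassGroup (𝓞 K))) = 1 := by
    rw [map_pow, pow_card_eq_one']
  set h := Nat.card (ClassGroup (𝓞 K)) with hh
  have hpos : h ≠ 0 := Nat.card_pos.ne'
  have h2 : (p ^ h).IsPrincipal := by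
    have := (ClassGroup.mk0_eq_one_iff (I := p ^ h) (pow_mem hpm h)).mp (by
      rw [← h1]; rfl)
    exact this
  obtain ⟨α, hα⟩ := h2
  have hα' : p ^ h = Ideal.span {α} := hα
  have hα0 : α ≠ 0 := by
    rintro rfl
    rw [Ideal.span_singleton_eq_bot.mpr rfl] at hα'
    exact hp0 (eq_zero_of_pow_eq_zero hα')
  refine ⟨α, hα0, ?_, fun w hw => ?_⟩
  · have : α ∈ p := by
      have h3 : α ∈ p ^ h := by rw [hα']; exact Ideal.mem_span_singleton_self α
      exact Ideal.pow_le_self hpos h3
    have h4 := (FinitePlace.norm_lt_one_iff_mem K v.maximalIdeal α).mpr this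
    rwa [FinitePlace.norm_embedding_eq] at h4
  · have : α ∉ w.maximalIdeal.asIdeal := by
      intro hmem
      have h3 : p ^ h ≤ w.maximalIdeal.asIdeal := by
        rw [hα', Ideal.span_le]; simpa using hmem
      have h4 : p ≤ w.maximalIdeal.asIdeal := (w.maximalIdeal.isPrime.pow_le_iff hpos).mp h3
      have h5 : p = w.maximalIdeal.asIdeal :=
        (v.maximalIdeal.isMaximal).eq_of_le w.maximalIdeal.isPrime.ne_top h4
      apply hw
      rw [← FinitePlace.maximalIdeal_inj]
      exact HeightOneSpectrum.ext h5.symm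
    have h4 := (FinitePlace.norm_eq_one_iff_notMem K w.maximalIdeal α).mpr this
    rwa [FinitePlace.norm_embedding_eq] at h4

theorem nv_pow (v : Pl K) (x : K) (k : ℕ) : nv v (x ^ k) = nv v x ^ k := by
  induction k with
  | zero => simp [nv_one]
  | succ k ih => rw [pow_succ, nv_mul, ih, pow_succ]

theorem nv_prod (v : Pl K) {α : Type*} (s : Finset α) (f : α → K) :
    nv v (∏ i ∈ s, f i) = ∏ i ∈ s, nv v (f i) := by
  classical
  induction s using Finset.induction_on with
  | empty => simp [nv_one]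
  | insert a s ha ih => rw [prod_insert ha, prod_insert ha, nv_mul, ih]

/-- an `S`-unit, integral, and small at the places of `S` -/
theorem exists_unit (S : Finset (FinitePlace K)) (e : ℝ) (he : 0 < e) :
    ∃ N : 𝓞 K, N ≠ 0 ∧ (∀ v ∈ S, nv (.inr v) (N : K) ≤ e) ∧
      ∀ w : FinitePlace K, w ∉ S → nv (.inr w) (N : K) = 1 := by
  classical
  choose α hα0 hα1 hα2 using exists_unit1 (K := K)
  have hk : ∀ v : FinitePlace K, ∃ k : ℕ, nv (.inr v) (α v : K) ^ k < e := fun v =>
    exists_pow_lt_of_lt_one he (hα1 v)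
  choose k hk using hk
  refine ⟨∏ v ∈ S, α v ^ k v, prod_ne_zero_iff.mpr fun v _ => pow_ne_zero _ (hα0 v), ?_, ?_⟩
  · intro v hv
    push_cast
    rw [nv_prod, ← mul_prod_erase S _ hv, nv_pow]
    have h1 : ∏ x ∈ S.erase v, nv (.inr v) ((α x : K) ^ k x) = 1 := by
      refine prod_eq_one fun x hx => ?_
      rw [nv_pow, hα2 x v (ne_of_mem_erase hx).symm, one_pow]
    rw [h1, mul_one]
    exact (hk v).le
  · intro w hw
    push_cast
    rw [nv_prod]
    refine prod_eq_one fun x hx => ?_
    rw [nv_pow, hα2 x w (by rintro rfl; exact hw hx), one_pow]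

theorem pig {α J2 τ2 : Type*} {J1 : Type*} [Fintype J1] [Fintype J2] {τ1 : J1 → Type*}
    (A : Finset α) (f1 : ∀ j, α → τ1 j) (m1 : J1 → ℝ)
    (f2 : J2 → α → τ2) (m2 : J2 → ℝ)
    (h1 : ∀ j, ∃ s : Finset (τ1 j), (∀ a ∈ A, f1 j a ∈ s) ∧ (s.card : ℝ) ≤ m1 j)
    (h2 : ∀ j, ∃ s : Finset τ2, (∀ a ∈ A, f2 j a ∈ s) ∧ (s.card : ℝ) ≤ m2 j)
    (hlt : (∏ j, m1 j) * ∏ j, m2 j < A.card) :
    ∃ a ∈ A, ∃ a' ∈ A, a ≠ a' ∧ (∀ j, f1 j a = f1 j a') ∧ ∀ j, f2 j a = f2 j a' := by
  classical
  choose s1 hs1 hc1 using h1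
  choose s2 hs2 hc2 using h2
  let T : Finset ((∀ j, τ1 j) × (J2 → τ2)) := Fintype.piFinset s1 ×ˢ Fintype.piFinset s2
  have hT : T.card < A.card := by
    have h3 : (T.card : ℝ) ≤ (∏ j, m1 j) * ∏ j, m2 j := by
      rw [card_product, Fintype.card_piFinset, Fintype.card_piFinset]
      push_cast
      refine mul_le_mul ?_ ?_ (prod_nonneg fun _ _ => Nat.cast_nonneg _) ?_
      · exact prod_le_prod (fun _ _ => Nat.cast_nonneg _) fun j _ => hc1 j
      · exact prod_le_prod (fun _ _ => Nat.cast_nonneg _) fun j _ => hc2 j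
      · exact prod_nonneg fun j _ => (Nat.cast_nonneg _).trans (hc1 j)
    exact_mod_cast h3.trans_lt hlt
  obtain ⟨a, ha, a', ha', hne, heq⟩ := exists_ne_map_eq_of_card_lt_of_maps_to hT
    (f := fun a => ((fun j => f1 j a, fun j => f2 j a) : (∀ j, τ1 j) × (J2 → τ2))) (by
      intro a ha
      simp only [T, coe_product, Set.mem_prod, mem_coe, Fintype.mem_piFinset]
      exact ⟨fun j => hs1 j a ha, fun j => hs2 j a ha⟩)
  simp only [Prod.mk.injEq] at heq
  exact ⟨a, ha, a', ha', hne, fun j => congrFun heq.1 j, fun j => congrFun heq.2 j⟩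



/-- the cell of side `δ` containing the image of `y` at an infinite place -/
noncomputable def cel (v : InfinitePlace K) (δ : ℝ) (y : K) (e : Fin v.mult) : ℤ :=
  ⌊(if (e : ℕ) = 0 then (v.embedding y).re else (v.embedding y).im) / δ⌋

theorem cel_mem (v : InfinitePlace K) (δ : ℝ) (hδ : 0 < δ) (y : K) (e : Fin v.mult) (B : ℝ)
    (hB : v y ≤ B) : cel v δ y e ∈ Finset.Icc (-⌈B / δ⌉) ⌈B / δ⌉ := by
  have h0 : |(if (e : ℕ) = 0 then (v.embedding y).re else (v.embedding y).im)| ≤ B := by
    rw [← InfinitePlace.norm_embedding_eq] at hB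
    split_ifs
    · exact (Complex.abs_re_le_norm _).trans hB
    · exact (Complex.abs_im_le_norm _).trans hB
  unfold cel
  set u : ℝ := (if (e : ℕ) = 0 then (v.embedding y).re else (v.embedding y).im)
  rw [abs_le] at h0
  rw [mem_Icc]
  constructor
  · rw [Int.le_floor]
    push_cast
    have h1 : B / δ ≤ ⌈B / δ⌉ := Int.le_ceil _
    have h2 : -(B / δ) ≤ u / δ := by
      rw [← neg_div]; exact div_le_div_of_nonneg_right h0.1 hδ.le
    linarith
  · have h1 : u / δ ≤ B / δ := div_le_div_of_nonneg_right h0.2 hδ.le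
    exact (Int.floor_mono h1).trans (Int.floor_le_ceil _)

theorem card_cell (B δ : ℝ) (hδ : 0 < δ) (hB : δ ≤ B) :
    ((Finset.Icc (-⌈B / δ⌉) ⌈B / δ⌉).card : ℝ) ≤ 5 * B / δ := by
  have h1 : 1 ≤ B / δ := (one_le_div hδ).mpr hB
  have h2 : (⌈B / δ⌉ : ℝ) < B / δ + 1 := Int.ceil_lt_add_one _
  have h3 : (0 : ℤ) ≤ ⌈B / δ⌉ := by
    have : (0 : ℝ) ≤ B / δ := by linarith
    exact Int.ceil_nonneg this
  rw [Int.card_Icc]
  have h4 : (((⌈B / δ⌉ + 1 - -⌈B / δ⌉).toNat : ℤ) : ℝ) = 2 * (⌈B / δ⌉ : ℝ) + 1 := by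
    rw [Int.toNat_of_nonneg (by omega)]
    push_cast; ring
  rw [Int.cast_natCast] at h4
  rw [h4, mul_div_assoc]
  linarith

theorem cel_eq (v : InfinitePlace K) (δ : ℝ) (hδ : 0 < δ) (y y' : K)
    (h : ∀ e, cel v δ y e = cel v δ y' e) : v (y - y') ≤ 2 * δ := by
  have key : ∀ u u' : ℝ, ⌊u / δ⌋ = ⌊u' / δ⌋ → |u - u'| ≤ δ := by
    intro u u' huu
    have h1 := Int.abs_sub_lt_one_of_floor_eq_floor huu
    rw [← sub_div, abs_div, abs_of_pos hδ, div_lt_one hδ] at h1
    exact h1.le
  rw [← InfinitePlace.norm_embedding_eq, map_sub]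
  have h0 : 0 < v.mult := v.mult_pos
  have hre : |(v.embedding y - v.embedding y').re| ≤ δ := by
    rw [Complex.sub_re]
    apply key
    have := h ⟨0, h0⟩
    simpa [cel] using this
  have him : |(v.embedding y - v.embedding y').im| ≤ δ := by
    by_cases hv : v.IsReal
    · have h1 := InfinitePlace.isReal_iff.mp hv
      have h2 : ∀ w : K, (v.embedding w).im = 0 := by
        intro w
        rw [← ComplexEmbedding.IsReal.coe_embedding_apply h1 w]
        exact Complex.ofReal_im _
      rw [Complex.sub_im, h2, h2, sub_zero, abs_zero]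
      exact hδ.le
    · have hm : v.mult = 2 := by
        unfold InfinitePlace.mult; rw [if_neg hv]
      rw [Complex.sub_im]
      apply key
      have := h ⟨1, by omega⟩
      simpa [cel] using this
  calc ‖v.embedding y - v.embedding y'‖ ≤ |(v.embedding y - v.embedding y').re|
        + |(v.embedding y - v.embedding y').im| := Complex.norm_le_abs_re_add_abs_im _
    _ ≤ 2 * δ := by linarith

variable {ι : Type*} [Fintype ι] [DecidableEq ι]

/-- index type of an integral basis -/
abbrev Bi (K : Type*) [Field K] [NumberField K] := Module.Free.ChooseBasisIndex ℤ (𝓞 K)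

/-- the integral vector with coordinates `a` -/
noncomputable def zz {R : ℕ} (a : ι × Bi K → Fin R) (i : ι) : 𝓞 K :=
  ∑ s, ((a (i, s) : ℕ) : 𝓞 K) * RingOfIntegers.basis K s

theorem zz_inj {R : ℕ} {a a' : ι × Bi K → Fin R} (h : a ≠ a') : ∃ i, zz a i ≠ zz a' i := by
  by_contra hcon
  push Not at hcon
  apply h
  funext ⟨i, s⟩
  have h1 := hcon i
  unfold zz at h1
  have h2 : ∀ b : ι × Bi K → Fin R, ∑ s, ((b (i, s) : ℕ) : 𝓞 K) * RingOfIntegers.basis K s =
      ∑ s, ((b (i, s) : ℕ) : ℤ) • RingOfIntegers.basis K s := by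
    intro b
    refine sum_congr rfl fun s _ => ?_
    rw [zsmul_eq_mul]; push_cast; rfl
  rw [h2, h2] at h1
  have h3 := congrArg (fun y => (RingOfIntegers.basis K).repr y s) h1
  simp only [Module.Basis.repr_sum_self] at h3
  exact Fin.ext (by exact_mod_cast h3)

theorem card_idx : Fintype.card (Bi K) = Module.finrank ℚ K := by
  rw [← RingOfIntegers.rank, Module.finrank_eq_card_chooseBasisIndex]

/-- bound for the linear forms at the infinite places -/
noncomputable def cc (F : Frm K ι) : ℝ :=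
  1 + ∑ v : InfinitePlace K, ∑ i, ∑ k, ∑ s, v (F.L (.inl v) i k * (RingOfIntegers.basis K s : K))

theorem one_le_cc (F : Frm K ι) : 1 ≤ cc F := by
  unfold cc
  have : 0 ≤ ∑ v : InfinitePlace K, ∑ i, ∑ k, ∑ s,
      v (F.L (.inl v) i k * (RingOfIntegers.basis K s : K)) :=
    sum_nonneg fun v _ => sum_nonneg fun i _ => sum_nonneg fun k _ => sum_nonneg fun s _ =>
      apply_nonneg v _
  linarith

theorem mulVec_zz_le (F : Frm K ι) {R : ℕ} (a : ι × Bi K → Fin R) (v : InfinitePlace K) (i : ι) :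
    v (Matrix.mulVec (F.L (.inl v)) (fun k => (zz a k : K)) i) ≤ cc F * R := by
  have h1 : Matrix.mulVec (F.L (.inl v)) (fun k => (zz a k : K)) i =
      ∑ k, ∑ s, ((a (k, s) : ℕ) : K) * (F.L (.inl v) i k * (RingOfIntegers.basis K s : K)) := by
    simp only [Matrix.mulVec, dotProduct]
    refine sum_congr rfl fun k _ => ?_
    unfold zz
    push_cast
    rw [mul_sum]
    refine sum_congr rfl fun s _ => ?_
    ring
  rw [h1, ← InfinitePlace.norm_embedding_eq, map_sum]
  have h2 : ∑ k, ∑ s, v (F.L (.inl v) i k * (RingOfIntegers.basis K s : K)) ≤ cc F := by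
    unfold cc
    have h3 : ∑ k, ∑ s, v (F.L (.inl v) i k * (RingOfIntegers.basis K s : K)) ≤
        ∑ i, ∑ k, ∑ s, v (F.L (.inl v) i k * (RingOfIntegers.basis K s : K)) :=
      single_le_sum (f := fun i => ∑ k, ∑ s, v (F.L (.inl v) i k * (RingOfIntegers.basis K s : K)))
        (fun i _ => sum_nonneg fun k _ => sum_nonneg fun s _ => apply_nonneg v _) (mem_univ i)
    have h4 : ∑ i, ∑ k, ∑ s, v (F.L (.inl v) i k * (RingOfIntegers.basis K s : K)) ≤
        ∑ v : InfinitePlace K, ∑ i, ∑ k, ∑ s,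
          v (F.L (.inl v) i k * (RingOfIntegers.basis K s : K)) :=
      single_le_sum (f := fun v : InfinitePlace K => ∑ i, ∑ k, ∑ s,
          v (F.L (.inl v) i k * (RingOfIntegers.basis K s : K)))
        (fun v _ => sum_nonneg fun i _ => sum_nonneg fun k _ => sum_nonneg fun s _ =>
          apply_nonneg v _) (mem_univ v)
    linarith
  calc ‖∑ k, v.embedding (∑ s, ((a (k, s) : ℕ) : K) *
          (F.L (.inl v) i k * (RingOfIntegers.basis K s : K)))‖
      ≤ ∑ k, ∑ s, (R : ℝ) * v (F.L (.inl v) i k * (RingOfIntegers.basis K s : K)) := by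
        refine (norm_sum_le _ _).trans (sum_le_sum fun k _ => ?_)
        rw [map_sum]
        refine (norm_sum_le _ _).trans (sum_le_sum fun s _ => ?_)
        rw [map_mul, norm_mul, InfinitePlace.norm_embedding_eq v (F.L (.inl v) i k * _)]
        refine mul_le_mul_of_nonneg_right ?_ (apply_nonneg v _)
        rw [map_natCast, Complex.norm_natCast]
        exact_mod_cast (a (k, s)).2.le
    _ = R * ∑ k, ∑ s, v (F.L (.inl v) i k * (RingOfIntegers.basis K s : K)) := by
        simp only [mul_sum]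
    _ ≤ R * cc F := mul_le_mul_of_nonneg_left h2 (Nat.cast_nonneg _)
    _ = cc F * R := mul_comm _ _

/-- common denominator of the forms at the places of `S` -/
theorem exists_den (F : Frm K ι) : ∃ D : 𝓞 K, D ≠ 0 ∧ ∃ E : F.S → ι → ι → 𝓞 K,
    ∀ v i k, (E v i k : K) = D * F.L (.inr v) i k := by
  obtain ⟨D, hD⟩ := IsLocalization.exist_integer_multiples_of_finite (nonZeroDivisors (𝓞 K))
    (fun p : F.S × ι × ι => F.L (.inr p.1) p.2.1 p.2.2)
  refine ⟨D, nonZeroDivisors.coe_ne_zero D, ?_⟩
  choose E hE using hD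
  refine ⟨fun v i k => E (v, i, k), fun v i k => ?_⟩
  have := hE (v, i, k)
  rw [Algebra.smul_def] at this
  exact this

end M1

open M1

/-- M1. Minkowski's first theorem (pigeonhole). -/
theorem first {ι : Type*} [Fintype ι] [DecidableEq ι] (F : Frm K ι) :
    ∃ C : ℝ, ∀ b : Pl K → ι → ℝ, ExpS F.S b → C ≤ deg b →
    ∃ x : ι → K, x ≠ 0 ∧ Bb F b x := by
  classical
  obtain ⟨D, hD0, E, hE⟩ := exists_den F
  have hDK : (D : K) ≠ 0 := by exact_mod_cast hD0
  set c := cc F with hc
  have hc1 : 1 ≤ c := one_le_cc F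
  have hcpos : 0 < c := by linarith
  set n : ℕ := Fintype.card ι with hn
  set d : ℕ := Module.finrank ℚ K with hd
  refine ⟨1 + n * ∑ v : F.S, (Real.log (qv (v : FinitePlace K)) - Real.log (nv (.inr (v : FinitePlace K)) (D : K)))
    + n * d * Real.log (10 * c), fun b hb hdeg => ?_⟩
  -- the S-unit
  obtain ⟨N, hN0, hN1, hN2⟩ := exists_unit F.S (Real.exp (-∑ v : F.S, ∑ i, |b (.inr v) i|))
    (Real.exp_pos _)
  have hNK : (N : K) ≠ 0 := by exact_mod_cast hN0
  have hNpos : ∀ v : Pl K, 0 < nv v (N : K) := fun v => nv_pos v hNK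
  have hDpos : ∀ v : Pl K, 0 < nv v (D : K) := fun v => nv_pos v hDK
  have hsmall : ∀ (v : F.S) i, nv (.inr v) (D : K) * nv (.inr v) (N : K) * Real.exp (b (.inr v) i) ≤ 1 := by
    intro v i
    have h1 : nv (.inr v) (D : K) ≤ 1 := nv_int_le_one v D
    have h2 : nv (.inr v) (N : K) ≤ Real.exp (-(b (.inr v) i)) := by
      refine (hN1 v v.2).trans (Real.exp_le_exp.mpr ?_)
      have h3 : |b (.inr v) i| ≤ ∑ i, |b (.inr v) i| :=
        single_le_sum (f := fun i => |b (.inr v) i|) (fun _ _ => abs_nonneg _) (mem_univ i)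
      have h4 : ∑ i, |b (.inr v) i| ≤ ∑ v : F.S, ∑ i, |b (.inr v) i| :=
        single_le_sum (f := fun v : F.S => ∑ i, |b (.inr v) i|)
          (fun _ _ => sum_nonneg fun _ _ => abs_nonneg _) (mem_univ v)
      have h5 := le_abs_self (b (.inr v) i)
      linarith
    calc nv (.inr v) (D : K) * nv (.inr v) (N : K) * Real.exp (b (.inr v) i)
        ≤ 1 * Real.exp (-(b (.inr v) i)) * Real.exp (b (.inr v) i) := by
          gcongr
          exact nv_nonneg _ _
      _ = 1 := by rw [one_mul, ← Real.exp_add]; simp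
  have hex : ∀ (v : F.S) (i : ι), ∃ k : ℕ, ((qv (v : FinitePlace K) : ℝ) ^ k)⁻¹ ≤
      nv (.inr v) (D : K) * nv (.inr v) (N : K) * Real.exp (b (.inr v) i) ∧
      (qv (v : FinitePlace K) : ℝ) ^ k ≤ (qv (v : FinitePlace K) : ℝ) /
        (nv (.inr v) (D : K) * nv (.inr v) (N : K) * Real.exp (b (.inr v) i)) := by
    intro v i
    refine exists_exp _ _ (by exact_mod_cast one_lt_qv (v : FinitePlace K)) ?_ (hsmall v i)
    exact mul_pos (mul_pos (hDpos _) (hNpos _)) (Real.exp_pos _)
  choose k hk1 hk2 using hex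
  -- the cells
  let δ : InfinitePlace K → ι → ℝ := fun v i => Real.exp (b (.inl v) i / v.mult) * v (N : K) / 2
  have hvN : ∀ v : InfinitePlace K, 0 < v (N : K) := fun v => InfinitePlace.pos_iff.mpr hNK
  have hδ : ∀ v i, 0 < δ v i := fun v i => by
    have := hvN v
    simp only [δ]; positivity
  let R : ℕ := ⌈∑ v, ∑ i, δ v i⌉₊ + 1
  have hRδ : ∀ v i, δ v i ≤ c * R := by
    intro v i
    have h3 : δ v i ≤ ∑ i, δ v i :=
      single_le_sum (f := fun i => δ v i) (fun i _ => (hδ v i).le) (mem_univ i)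
    have h4 : ∑ i, δ v i ≤ ∑ v, ∑ i, δ v i :=
      single_le_sum (f := fun v => ∑ i, δ v i)
        (fun v _ => sum_nonneg fun i _ => (hδ v i).le) (mem_univ v)
    have h5 : ∑ v, ∑ i, δ v i ≤ R := by
      refine (Nat.le_ceil _).trans ?_
      simp only [R]; push_cast; linarith
    have h6 : (R : ℝ) ≤ c * R := le_mul_of_one_le_left (Nat.cast_nonneg _) hc1
    linarith
  have hRpos : (0 : ℝ) < R := by simp only [R]; positivity
  -- pigeonhole
  have key : ∃ a a' : ι × Bi K → Fin R, a ≠ a' ∧
      (∀ (v : F.S) (i : ι), ∑ l, E v i l * zz a l - ∑ l, E v i l * zz a' l ∈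
        (v : FinitePlace K).maximalIdeal.asIdeal ^ k v i) ∧
      ∀ (v : InfinitePlace K) (i : ι) (e : Fin v.mult),
        cel v (δ v i) (Matrix.mulVec (F.L (.inl v)) (fun k => (zz a k : K)) i) e =
        cel v (δ v i) (Matrix.mulVec (F.L (.inl v)) (fun k => (zz a' k : K)) i) e := by
    have hpig := pig (J1 := F.S × ι)
      (J2 := Σ v : InfinitePlace K, ι × Fin v.mult)
      (τ1 := fun j => 𝓞 K ⧸ (j.1 : FinitePlace K).maximalIdeal.asIdeal ^ k j.1 j.2)
      (τ2 := ℤ)
      (univ : Finset (ι × Bi K → Fin R))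
      (fun j a => Ideal.Quotient.mk _ (∑ l, E j.1 j.2 l * zz a l))
      (fun j => (qv (j.1 : FinitePlace K) : ℝ) /
          (nv (.inr j.1) (D : K) * nv (.inr j.1) (N : K) * Real.exp (b (.inr j.1) j.2)))
      (fun j a => cel j.1 (δ j.1 j.2.1)
        (Matrix.mulVec (F.L (.inl j.1)) (fun k => (zz a k : K)) j.2.1) j.2.2)
      (fun j => 5 * (c * R) / δ j.1 j.2.1) (by
        intro j
        have hfin : Finite (𝓞 K ⧸ (j.1 : FinitePlace K).maximalIdeal.asIdeal ^ k j.1 j.2) :=
          Ideal.finiteQuotientOfFreeOfNeBot _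
            (pow_ne_zero _ (j.1 : FinitePlace K).maximalIdeal.ne_bot)
        have := Fintype.ofFinite (𝓞 K ⧸ (j.1 : FinitePlace K).maximalIdeal.asIdeal ^ k j.1 j.2)
        refine ⟨univ, fun _ _ => mem_univ _, ?_⟩
        rw [card_univ, ← Nat.card_eq_fintype_card, card_quot]
        push_cast
        exact hk2 j.1 j.2) (by
        intro j
        refine ⟨_, fun a _ => cel_mem j.1 _ (hδ _ _) _ _ _ (mulVec_zz_le F a j.1 j.2.1), ?_⟩
        exact card_cell _ _ (hδ _ _) (hRδ _ _)) ?_
    · obtain ⟨a, -, a', -, hne, hf1, hf2⟩ := hpig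
      refine ⟨a, a', hne, fun v i => ?_, fun v i e => hf2 ⟨v, i, e⟩⟩
      exact (Ideal.Quotient.mk_eq_mk_iff_sub_mem _ _).mp (hf1 (v, i))
    · -- count
      have hq0 : ∀ v : F.S, (0 : ℝ) < qv (v : FinitePlace K) := fun v => by
        exact_mod_cast (zero_lt_one.trans (one_lt_qv (v : FinitePlace K)))
      have hm1 : ∀ j : F.S × ι, 0 < (qv (j.1 : FinitePlace K) : ℝ) /
          (nv (.inr j.1) (D : K) * nv (.inr j.1) (N : K) * Real.exp (b (.inr j.1) j.2)) := fun j =>
        div_pos (hq0 j.1) (mul_pos (mul_pos (hDpos _) (hNpos _)) (Real.exp_pos _))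
      have hm2 : ∀ j : (Σ v : InfinitePlace K, ι × Fin v.mult),
          0 < 5 * (c * R) / δ j.1 j.2.1 := fun j =>
        div_pos (by positivity) (hδ _ _)
      have hcard : ((univ : Finset (ι × Bi K → Fin R)).card : ℝ) = (R : ℝ) ^ (n * d) := by
        rw [card_univ, Fintype.card_fun, Fintype.card_fin, Fintype.card_prod, card_idx]
        push_cast; rfl
      rw [hcard]
      have hL : 0 < (∏ j : F.S × ι, (qv (j.1 : FinitePlace K) : ℝ) /
          (nv (.inr j.1) (D : K) * nv (.inr j.1) (N : K) * Real.exp (b (.inr j.1) j.2))) *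
          ∏ j : (Σ v : InfinitePlace K, ι × Fin v.mult), 5 * (c * R) / δ j.1 j.2.1 :=
        mul_pos (prod_pos fun j _ => hm1 j) (prod_pos fun j _ => hm2 j)
      refine (Real.log_lt_log_iff hL (by positivity)).mp ?_
      rw [Real.log_mul (prod_pos fun j _ => hm1 j).ne' (prod_pos fun j _ => hm2 j).ne',
        Real.log_prod (fun j _ => (hm1 j).ne'), Real.log_prod (fun j _ => (hm2 j).ne'),
        Real.log_pow]
      have e1 : ∑ j : F.S × ι, Real.log ((qv (j.1 : FinitePlace K) : ℝ) /
          (nv (.inr j.1) (D : K) * nv (.inr j.1) (N : K) * Real.exp (b (.inr j.1) j.2))) =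
          n * ∑ v : F.S, (Real.log (qv (v : FinitePlace K)) - Real.log (nv (.inr (v : FinitePlace K)) (D : K)))
          - n * ∑ v : F.S, Real.log (nv (.inr (v : FinitePlace K)) (N : K))
          - ∑ v : F.S, ∑ i, b (.inr v) i := by
        rw [Fintype.sum_prod_type, mul_sum, mul_sum, ← sum_sub_distrib, ← sum_sub_distrib]
        refine sum_congr rfl fun v _ => ?_
        have : ∀ i, Real.log ((qv (v : FinitePlace K) : ℝ) /
          (nv (.inr (v : FinitePlace K)) (D : K) * nv (.inr (v : FinitePlace K)) (N : K) *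
            Real.exp (b (.inr v) i))) =
          (Real.log (qv (v : FinitePlace K)) - Real.log (nv (.inr (v : FinitePlace K)) (D : K))
            - Real.log (nv (.inr (v : FinitePlace K)) (N : K))) - b (.inr v) i := by
          intro i
          rw [Real.log_div (hq0 v).ne' (mul_pos (mul_pos (hDpos _) (hNpos _)) (Real.exp_pos _)).ne',
            Real.log_mul (mul_pos (hDpos _) (hNpos _)).ne' (Real.exp_pos _).ne',
            Real.log_mul (hDpos _).ne' (hNpos _).ne', Real.log_exp]
          ring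
        simp_rw [this]
        rw [sum_sub_distrib, sum_const, card_univ, nsmul_eq_mul]
        ring
      have e2 : ∑ j : (Σ v : InfinitePlace K, ι × Fin v.mult), Real.log (5 * (c * R) / δ j.1 j.2.1)
          = n * d * Real.log (10 * c) + n * d * Real.log R
            - n * ∑ v : InfinitePlace K, Real.log (nv (.inl v) (N : K))
            - ∑ v : InfinitePlace K, ∑ i, b (.inl v) i := by
        have hdm : (d : ℝ) = ∑ v : InfinitePlace K, (v.mult : ℝ) := by
          rw [← Nat.cast_sum, InfinitePlace.sum_mult_eq]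
        rw [Fintype.sum_sigma, hdm]
        have : ∀ v : InfinitePlace K, ∑ y : ι × Fin v.mult, Real.log (5 * (c * R) / δ v y.1) =
            n * v.mult * Real.log (10 * c) + n * v.mult * Real.log R
            - n * Real.log (nv (.inl v) (N : K)) - ∑ i, b (.inl v) i := by
          intro v
          have hm : (v.mult : ℝ) ≠ 0 := by exact_mod_cast v.mult_ne_zero
          rw [Fintype.sum_prod_type]
          have h7 : ∀ i : ι, ∑ y : Fin v.mult, Real.log (5 * (c * R) / δ v i) =
              (v.mult * Real.log (10 * c) + v.mult * Real.log R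
              - Real.log (nv (.inl v) (N : K))) - b (.inl v) i := by
            intro i
            rw [sum_const, card_univ, Fintype.card_fin, nsmul_eq_mul]
            have h8 : 5 * (c * R) / δ v i =
                (10 * c) * R / (Real.exp (b (.inl v) i / v.mult) * v (N : K)) := by
              simp only [δ]
              have := hvN v
              field_simp
              ring
            have h9 : nv (.inl v) (N : K) = v (N : K) ^ v.mult := rfl
            rw [h8, h9, Real.log_pow, Real.log_div (by positivity)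
              (mul_pos (Real.exp_pos _) (hvN v)).ne', Real.log_mul (by positivity) hRpos.ne',
              Real.log_mul (Real.exp_pos _).ne' (hvN v).ne', Real.log_exp]
            field_simp
            ring
          simp_rw [h7]
          rw [sum_sub_distrib, sum_const, card_univ, nsmul_eq_mul]
          ring
        simp_rw [this]
        rw [sum_sub_distrib, sum_sub_distrib, sum_add_distrib, ← sum_mul, ← sum_mul, ← mul_sum,
          ← mul_sum]
      have e3 : ∑ v : InfinitePlace K, Real.log (nv (.inl v) (N : K)) +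
          ∑ v : F.S, Real.log (nv (.inr (v : FinitePlace K)) (N : K)) = 0 := by
        rw [← product_formula_log hNK, finsum_eq_sum_of_support_subset (s := F.S), sum_coe_sort F.S
          (fun w => Real.log (nv (.inr w) (N : K)))]
        intro w hw
        by_contra hcon
        apply hw
        change Real.log _ = 0
        rw [hN2 w hcon, Real.log_one]
      have e4 : deg b = ∑ v : InfinitePlace K, ∑ i, b (.inl v) i + ∑ v : F.S, ∑ i, b (.inr v) i := by
        unfold deg gsum
        rw [finsum_eq_sum_of_support_subset (s := F.S), sum_coe_sort F.S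
          (fun w => ∑ i, b (.inr w) i)]
        intro w hw
        by_contra hcon
        apply hw
        change ∑ i, b (.inr w) i = 0
        rw [hb w hcon]; simp
      rw [e1, e2]
      push_cast
      have e5 : (n : ℝ) * ∑ v : InfinitePlace K, Real.log (nv (.inl v) (N : K)) +
          n * ∑ v : F.S, Real.log (nv (.inr (v : FinitePlace K)) (N : K)) = 0 := by
        rw [← mul_add, e3, mul_zero]
      linarith
  obtain ⟨a, a', hne, hf1, hf2⟩ := key
  -- conclusion
  have hne' : ∃ i, zz a i ≠ zz a' i := zz_inj hne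
  let x : ι → K := fun i => ((zz a i : K) - (zz a' i : K)) * (N : K)⁻¹
  have hmv : ∀ (v : Pl K) i, Matrix.mulVec (F.L v) x i =
      (Matrix.mulVec (F.L v) (fun k => (zz a k : K)) i -
        Matrix.mulVec (F.L v) (fun k => (zz a' k : K)) i) * (N : K)⁻¹ := by
    intro v i
    simp only [Matrix.mulVec, dotProduct, x]
    rw [← sum_sub_distrib, sum_mul]
    refine sum_congr rfl fun l _ => ?_
    ring
  refine ⟨x, ?_, ?_⟩
  · obtain ⟨i, hi⟩ := hne'
    intro hx
    have h1 : x i = 0 := by rw [hx]; rfl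
    simp only [x] at h1
    rcases mul_eq_zero.mp h1 with h2 | h2
    · apply hi
      have h3 := sub_eq_zero.mp h2
      exact_mod_cast h3
    · exact hNK (inv_eq_zero.mp h2)
  · intro v i
    rcases v with v | v
    · -- infinite places
      rw [hmv, nv_mul, nv_inv]
      have h1 := cel_eq v (δ v i) (hδ v i) _ _ (hf2 v i)
      have h2 : nv (.inl v) (Matrix.mulVec (F.L (.inl v)) (fun k => (zz a k : K)) i -
        Matrix.mulVec (F.L (.inl v)) (fun k => (zz a' k : K)) i) ≤
          Real.exp (b (.inl v) i) * nv (.inl v) (N : K) := by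
        change v _ ^ v.mult ≤ _ * v _ ^ v.mult
        have h3 : 2 * δ v i = Real.exp (b (.inl v) i / v.mult) * v (N : K) := by
          simp only [δ]; ring
        rw [h3] at h1
        have h4 := pow_le_pow_left₀ (apply_nonneg v _) h1 v.mult
        rw [mul_pow, ← Real.exp_nat_mul] at h4
        have hm : (v.mult : ℝ) ≠ 0 := by exact_mod_cast v.mult_ne_zero
        have h5 : (v.mult : ℝ) * (b (.inl v) i / v.mult) = b (.inl v) i := by
          field_simp
        rwa [h5] at h4
      rw [← div_eq_mul_inv, div_le_iff₀ (hNpos _)]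
      exact h2
    · by_cases hv : v ∈ F.S
      · -- places of S
        rw [hmv, nv_mul, nv_inv, ← div_eq_mul_inv, div_le_iff₀ (hNpos _)]
        have h1 := nv_le_of_mem_pow v _ _ (hf1 ⟨v, hv⟩ i)
        have h2 : ((∑ l, E ⟨v, hv⟩ i l * zz a l - ∑ l, E ⟨v, hv⟩ i l * zz a' l : 𝓞 K) : K) =
            (D : K) * (Matrix.mulVec (F.L (.inr v)) (fun k => (zz a k : K)) i -
              Matrix.mulVec (F.L (.inr v)) (fun k => (zz a' k : K)) i) := by
          push_cast
          simp only [Matrix.mulVec, dotProduct, hE]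
          rw [mul_sub, mul_sum, mul_sum]
          congr 1 <;> exact sum_congr rfl fun l _ => by ring
        rw [h2, nv_mul] at h1
        have h3 := h1.trans (hk1 ⟨v, hv⟩ i)
        have h4 : nv (.inr v) (D : K) * nv (.inr v) (N : K) * Real.exp (b (.inr v) i) =
            nv (.inr v) (D : K) * (Real.exp (b (.inr v) i) * nv (.inr v) (N : K)) := by ring
        rw [h4] at h3
        exact le_of_mul_le_mul_left h3 (hDpos _)
      · -- other finite places
        rw [F.hS v hv, Matrix.one_mulVec, hb v hv]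
        simp only [Pi.zero_apply, Real.exp_zero, x]
        rw [nv_mul, nv_inv, hN2 v hv, inv_one, mul_one]
        have : ((zz a i : K) - (zz a' i : K)) = ((zz a i - zz a' i : 𝓞 K) : K) := by push_cast; rfl
        rw [this]
        exact nv_int_le_one v _

end Pool.Agent.V2
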