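import Pool.Agent.Helper21.V2.Defs

/-!
# Local form of Davenport's lemma (block M4)
-/

set_option autoImplicit false

namespace Pool.Agent.V2

open NumberField Finset
open Pool.Agent.Helper64.Vojta (Pl nv nv_nonneg nv_mul nv_zero nv_pos nv_sum_le)

variable {K : Type*} [Field K] [NumberField K] {ι : Type*} [Fintype ι] [DecidableEq ι]

/-- The forms with index in `J` dominate all forms on `V`. -/
def DavDom (v : Pl K) (A : Matrix ι ι K) (b : ι → ℝ) (V : Submodule K (ι → K)) (J : Finset ι)
    (C : ℝ) : Prop :=
  ∀ y ∈ V, y ≠ 0 → ∀ i, ∃ j ∈ J, nv v (Matrix.mulVec A y i) * Real.exp (-(b i)) ≤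
    C * (nv v (Matrix.mulVec A y j) * Real.exp (-(b j)))

omit [DecidableEq ι] [NumberField K] in
theorem dav_rel (A : Matrix ι ι K) (V : Submodule K (ι → K)) (J : Finset ι)
    (h : Module.finrank K V < J.card) :
    ∃ a : ι → K, (∃ i ∈ J, a i ≠ 0) ∧ ∀ y ∈ V, ∑ i ∈ J, a i * Matrix.mulVec A y i = 0 := by
  classical
  let f : J → Module.Dual K V := fun i =>
    ((LinearMap.proj (i : ι)).comp (Matrix.mulVecLin A)).comp V.subtype
  have hf : ∀ (i : J) (y : V), f i y = Matrix.mulVec A (y : ι → K) i := fun i y => rfl
  have hli : ¬ LinearIndependent K f := by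
    intro hli
    have h1 := hli.fintype_card_le_finrank
    rw [Fintype.card_coe, Subspace.dual_finrank_eq] at h1
    omega
  rw [Fintype.not_linearIndependent_iff] at hli
  obtain ⟨g, hg, i0, hi0⟩ := hli
  refine ⟨fun i => if hi : i ∈ J then g ⟨i, hi⟩ else 0, ⟨i0, i0.2, ?_⟩, ?_⟩
  · simpa using hi0
  · intro y hy
    have h1 := congrArg (fun φ : Module.Dual K V => φ ⟨y, hy⟩) hg
    simp only [LinearMap.sum_apply, LinearMap.smul_apply, LinearMap.zero_apply, hf,
      smul_eq_mul] at h1
    rw [← h1, ← Finset.sum_attach]
    rw [← Finset.univ_eq_attach]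
    apply Finset.sum_congr rfl
    intro i _
    simp

theorem dav_step (v : Pl K) {A : Matrix ι ι K} (hA : A.det ≠ 0) (b : ι → ℝ)
    {V V' : Submodule K (ι → K)} {J : Finset ι} {C : ℝ} (hC : 0 ≤ C) (hV : V ≤ V')
    (hd : DavDom v A b V' J C) (hcard : Module.finrank K V < J.card) :
    ∃ i ∈ J, DavDom v A b V (J.erase i) (C * (Fintype.card ι : ℝ) ^ 2) := by
  obtain ⟨a, ⟨i0, hi0, hai0⟩, hrel⟩ := dav_rel A V J hcard
  obtain ⟨s, hs, hmax⟩ := Finset.exists_max_image J (fun i => nv v (a i) * Real.exp (b i))
    ⟨i0, hi0⟩
  have has : a s ≠ 0 := by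
    intro h0
    have h1 := hmax i0 hi0
    rw [h0, nv_zero, zero_mul] at h1
    have h2 := mul_pos (nv_pos v hai0) (Real.exp_pos (b i0))
    linarith
  have hJn : (J.card : ℝ) ≤ Fintype.card ι := by
    exact_mod_cast Finset.card_le_univ J
  have hJ1 : (1 : ℝ) ≤ J.card := by
    exact_mod_cast Finset.card_pos.mpr ⟨i0, hi0⟩
  have hn2 : (1 : ℝ) ≤ (Fintype.card ι : ℝ) ^ 2 := by
    have : (1 : ℝ) ≤ Fintype.card ι := hJ1.trans hJn
    nlinarith
  refine ⟨s, hs, ?_⟩
  intro y hy hy0 i
  obtain ⟨j, hj, hle⟩ := hd y (hV hy) hy0 i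
  set u : ι → ℝ := fun i => nv v (Matrix.mulVec A y i) * Real.exp (-(b i)) with hu
  have hu0 : ∀ i, 0 ≤ u i := fun i => mul_nonneg (nv_nonneg _ _) (Real.exp_pos _).le
  by_cases hjs : j = s
  · -- the dominating form is the removed one
    subst hjs
    have hsum : a j * Matrix.mulVec A y j = -∑ i ∈ J.erase j, a i * Matrix.mulVec A y i := by
      have h1 := hrel y hy
      rw [← Finset.add_sum_erase J _ hj] at h1
      exact eq_neg_of_add_eq_zero_left h1
    by_cases hne : (J.erase j).Nonempty
    · obtain ⟨j', hj', hmax'⟩ := Finset.exists_max_image (J.erase j) u hne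
      refine ⟨j', hj', ?_⟩
      have hB : nv v (a j * Matrix.mulVec A y j) ≤
          ((J.erase j).card + 1 : ℝ) ^ 2 * (nv v (a j) * Real.exp (b j) * u j') := by
        have hneg : nv v (a j * Matrix.mulVec A y j) =
            nv v (∑ i ∈ J.erase j, -(a i * Matrix.mulVec A y i)) := by
          rw [hsum, Finset.sum_neg_distrib]
        rw [hneg]
        apply nv_sum_le
        · exact mul_nonneg (mul_nonneg (nv_nonneg _ _) (Real.exp_pos _).le) (hu0 _)
        · intro i hi
          have h1 : nv v (-(a i * Matrix.mulVec A y i)) =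
              (nv v (a i) * Real.exp (b i)) * u i := by
            have h2 : nv v (-(a i * Matrix.mulVec A y i)) =
                nv v (a i * Matrix.mulVec A y i) := by
              rw [← neg_one_mul, nv_mul]
              have h3 : nv v (-1 : K) = 1 := by
                have h4 : nv v (-1 : K) * nv v (-1 : K) = 1 := by
                  rw [← nv_mul]
                  have : (-1 : K) * -1 = 1 := by ring
                  rw [this]
                  exact Pool.Agent.Helper64.Vojta.nv_one v
                nlinarith [nv_nonneg v (-1 : K)]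
              rw [h3, one_mul]
            rw [h2, nv_mul, hu]
            have h5 : Real.exp (b i) * Real.exp (-(b i)) = 1 := by
              rw [← Real.exp_add]; simp
            calc nv v (a i) * nv v (Matrix.mulVec A y i)
                = nv v (a i) * nv v (Matrix.mulVec A y i) *
                  (Real.exp (b i) * Real.exp (-(b i))) := by rw [h5, mul_one]
              _ = _ := by ring
          rw [h1]
          exact mul_le_mul (hmax i (Finset.mem_of_mem_erase hi)) (hmax' i hi) (hu0 i)
            (mul_nonneg (nv_nonneg _ _) (Real.exp_pos _).le)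
      have hcj : ((J.erase j).card + 1 : ℝ) = J.card := by
        rw [Finset.card_erase_of_mem hj]
        have : 1 ≤ J.card := Finset.card_pos.mpr ⟨j, hj⟩
        push_cast [Nat.cast_sub this]
        ring
      rw [hcj, nv_mul] at hB
      have hpos : 0 < nv v (a j) := nv_pos v has
      have h6 : nv v (Matrix.mulVec A y j) ≤ (J.card : ℝ) ^ 2 * (Real.exp (b j) * u j') := by
        have h7 : nv v (a j) * nv v (Matrix.mulVec A y j) ≤
            nv v (a j) * ((J.card : ℝ) ^ 2 * (Real.exp (b j) * u j')) := by
          calc nv v (a j) * nv v (Matrix.mulVec A y j)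
              ≤ (J.card : ℝ) ^ 2 * (nv v (a j) * Real.exp (b j) * u j') := hB
            _ = _ := by ring
        exact le_of_mul_le_mul_left h7 hpos
      have h8 : u j ≤ (J.card : ℝ) ^ 2 * u j' := by
        have h5 : Real.exp (b j) * Real.exp (-(b j)) = 1 := by
          rw [← Real.exp_add]; simp
        calc u j = nv v (Matrix.mulVec A y j) * Real.exp (-(b j)) := rfl
          _ ≤ ((J.card : ℝ) ^ 2 * (Real.exp (b j) * u j')) * Real.exp (-(b j)) :=
              mul_le_mul_of_nonneg_right h6 (Real.exp_pos _).le
          _ = (J.card : ℝ) ^ 2 * u j' * (Real.exp (b j) * Real.exp (-(b j))) := by ring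
          _ = _ := by rw [h5, mul_one]
      have h9 : (J.card : ℝ) ^ 2 * u j' ≤ (Fintype.card ι : ℝ) ^ 2 * u j' := by
        apply mul_le_mul_of_nonneg_right _ (hu0 j')
        exact pow_le_pow_left₀ (by linarith) hJn 2
      calc nv v (Matrix.mulVec A y i) * Real.exp (-(b i)) ≤ C * u j := hle
        _ ≤ C * ((Fintype.card ι : ℝ) ^ 2 * u j') := mul_le_mul_of_nonneg_left (h8.trans h9) hC
        _ = C * (Fintype.card ι : ℝ) ^ 2 * u j' := by ring
    · -- only one form is left: it vanishes
      exfalso
      rw [Finset.not_nonempty_iff_eq_empty] at hne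
      rw [hne, Finset.sum_empty, neg_zero] at hsum
      have h1 : Matrix.mulVec A y j = 0 := (mul_eq_zero.mp hsum).resolve_left has
      have hall : ∀ i, Matrix.mulVec A y i = 0 := by
        intro i
        by_contra hi
        obtain ⟨k, hk, hle⟩ := hd y (hV hy) hy0 i
        have hkj : k = j := by
          by_contra hkj
          have : k ∈ J.erase j := Finset.mem_erase.mpr ⟨hkj, hk⟩
          rw [hne] at this
          exact absurd this (Finset.notMem_empty k)
        rw [hkj, h1, nv_zero, zero_mul, mul_zero] at hle
        have := mul_pos (nv_pos v hi) (Real.exp_pos (-(b i)))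
        linarith
      apply hy0
      have hAy : Matrix.mulVec A y = 0 := funext hall
      exact Matrix.eq_zero_of_mulVec_eq_zero hA hAy
  · refine ⟨j, Finset.mem_erase.mpr ⟨hjs, hj⟩, ?_⟩
    calc nv v (Matrix.mulVec A y i) * Real.exp (-(b i)) ≤ C * u j := hle
      _ = C * 1 * u j := by ring
      _ ≤ C * (Fintype.card ι : ℝ) ^ 2 * u j :=
          mul_le_mul_of_nonneg_right (mul_le_mul_of_nonneg_left hn2 hC) (hu0 j)

omit [NumberField K] [DecidableEq ι] in
theorem dav_finrank {n : ℕ} (x : Fin n → ι → K) (m : ℕ) :
    Module.finrank K (Submodule.span K (x '' {l' : Fin n | (l' : ℕ) < m})) ≤ m := by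
  classical
  have h1 : x '' {l' : Fin n | (l' : ℕ) < m} =
      ((univ.filter (fun l' : Fin n => (l' : ℕ) < m)).image x : Finset (ι → K)) := by
    ext z; simp
  rw [h1]
  refine (finrank_span_finset_le_card _).trans (Finset.card_image_le.trans ?_)
  have h2 : (univ.filter (fun l' : Fin n => (l' : ℕ) < m)).card ≤ (range m).card := by
    apply Finset.card_le_card_of_injOn (fun l' : Fin n => (l' : ℕ))
    · intro l' hl'
      simpa using hl'
    · intro a _ b _ hab
      exact Fin.ext hab
  simpa using h2

theorem dav_aux {n : ℕ} (hn : Fintype.card ι = n) (h0 : Nonempty ι) (v : Pl K)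
    (A : Matrix ι ι K) (hA : A.det ≠ 0) (b : ι → ℝ) (x : Fin n → ι → K) :
    ∀ k ≤ n, ∃ c : ℕ → ι, Set.InjOn c {i | i < k} ∧ ∀ j ≤ k,
      DavDom v A b (Submodule.span K (x '' {l' : Fin n | (l' : ℕ) < n - j}))
        (univ \ (range j).image c) ((n : ℝ) ^ (2 * j)) := by
  intro k
  induction k with
  | zero =>
    intro _
    refine ⟨fun _ => Classical.choice h0, ?_, ?_⟩
    · intro i hi
      exact absurd hi (Nat.not_lt_zero i)
    · intro j hj y _ _ i
      obtain rfl : j = 0 := by omega
      exact ⟨i, by simp, by simp⟩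
  | succ k ih =>
    intro hk
    obtain ⟨c, hinj, hc⟩ := ih (by omega)
    have hcard : (univ \ (range k).image c).card = n - k := by
      rw [Finset.card_sdiff_of_subset (Finset.subset_univ _), Finset.card_univ, hn,
        Finset.card_image_of_injOn, Finset.card_range]
      intro a ha b hb hab
      exact hinj (by simpa using ha) (by simpa using hb) hab
    have hlt : Module.finrank K (Submodule.span K (x '' {l' : Fin n | (l' : ℕ) < n - (k + 1)})) <
        (univ \ (range k).image c).card := by
      rw [hcard]
      exact (dav_finrank x (n - (k + 1))).trans_lt (by omega)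
    have hV : Submodule.span K (x '' {l' : Fin n | (l' : ℕ) < n - (k + 1)}) ≤
        Submodule.span K (x '' {l' : Fin n | (l' : ℕ) < n - k}) := by
      apply Submodule.span_mono
      apply Set.image_mono
      intro l' hl'
      simp only [Set.mem_ofPred_eq] at hl' ⊢
      omega
    obtain ⟨i, hi, hdom⟩ := dav_step v hA b (by positivity) hV (hc k le_rfl) hlt
    have himg : ∀ j ≤ k, (range j).image (Function.update c k i) = (range j).image c := by
      intro j hj
      apply Finset.image_congr
      intro a ha
      have : a < j := by simpa using ha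
      exact Function.update_of_ne (by omega) _ _
    refine ⟨Function.update c k i, ?_, ?_⟩
    · intro a ha b hb hab
      simp only [Set.mem_ofPred_eq] at ha hb
      have hnot : ∀ a < k, c a ≠ i := by
        intro a ha hai
        rw [Finset.mem_sdiff] at hi
        exact hi.2 (Finset.mem_image.mpr ⟨a, by simpa using ha, hai⟩)
      rcases Nat.lt_succ_iff_lt_or_eq.mp ha with ha | rfl
      · rcases Nat.lt_succ_iff_lt_or_eq.mp hb with hb | rfl
        · rw [Function.update_of_ne (by omega), Function.update_of_ne (by omega)] at hab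
          exact hinj ha hb hab
        · rw [Function.update_of_ne (by omega), Function.update_self] at hab
          exact absurd hab (hnot a ha)
      · rcases Nat.lt_succ_iff_lt_or_eq.mp hb with hb | rfl
        · rw [Function.update_self, Function.update_of_ne (by omega)] at hab
          exact absurd hab.symm (hnot b hb)
        · rfl
    · intro j hj
      rcases Nat.le_succ_iff.mp hj with hj | rfl
      · rw [himg j hj]
        exact hc j hj
      · have h1 : univ \ (range (k + 1)).image (Function.update c k i) =
            (univ \ (range k).image c).erase i := by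
          rw [Finset.range_add_one, Finset.image_insert, Function.update_self, himg k le_rfl]
          ext z
          simp only [Finset.mem_sdiff, Finset.mem_univ, true_and, Finset.mem_insert,
            Finset.mem_erase]
          tauto
        rw [h1]
        have h2 : (n : ℝ) ^ (2 * (k + 1)) = (n : ℝ) ^ (2 * k) * (Fintype.card ι : ℝ) ^ 2 := by
          rw [hn, ← pow_add]
          ring_nf
        rw [h2]
        exact hdom

/-- M4. Local form of Davenport's lemma. -/
theorem dav {n : ℕ} (hn : Fintype.card ι = n) (v : Pl K) (A : Matrix ι ι K) (hA : A.det ≠ 0)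
    (b : ι → ℝ) (x : Fin n → ι → K) (hx : LinearIndependent K x) :
    ∃ π : Fin n ≃ ι, ∀ l, ∀ y ∈ Submodule.span K (x '' {l' | l' ≤ l}), ∀ i, ∃ m ≤ l,
      nv v (Matrix.mulVec A y i) * Real.exp (-(b i)) ≤
        (n : ℝ) ^ (2 * n) * (nv v (Matrix.mulVec A y (π m)) * Real.exp (-(b (π m)))) := by
  rcases Nat.eq_zero_or_pos n with h0 | hpos
  · subst h0
    exact ⟨(Fintype.equivFinOfCardEq hn).symm, fun l => l.elim0⟩
  · have hne : Nonempty ι := Fintype.card_pos_iff.mp (by omega)
    obtain ⟨c, hinj, hc⟩ := dav_aux hn hne v A hA b x n le_rfl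
    have hinj' : Function.Injective (fun l : Fin n => c (n - 1 - l)) := by
      intro a b hab
      have h1 := hinj (show n - 1 - (a : ℕ) < n by omega) (show n - 1 - (b : ℕ) < n by omega) hab
      apply Fin.ext
      omega
    have hbij : Function.Bijective (fun l : Fin n => c (n - 1 - l)) := by
      rw [Fintype.bijective_iff_injective_and_card]
      exact ⟨hinj', by rw [Fintype.card_fin, hn]⟩
    refine ⟨Equiv.ofBijective _ hbij, ?_⟩
    intro l y hy i
    have hπ : ∀ m : Fin n, Equiv.ofBijective _ hbij m = c (n - 1 - m) := fun m => rfl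
    by_cases hy0 : y = 0
    · refine ⟨l, le_rfl, ?_⟩
      subst hy0
      rw [Matrix.mulVec_zero, Pi.zero_apply, Pi.zero_apply, nv_zero]
      simp
    · have hset : {l' : Fin n | l' ≤ l} = {l' : Fin n | (l' : ℕ) < n - (n - 1 - l)} := by
        ext l'
        simp only [Set.mem_ofPred_eq, Fin.le_def]
        omega
      rw [hset] at hy
      obtain ⟨j, hj, hle⟩ := hc (n - 1 - l) (by omega) y hy hy0 i
      obtain ⟨m, rfl⟩ := (Equiv.ofBijective _ hbij).surjective j
      refine ⟨m, ?_, hle.trans ?_⟩
      · by_contra hcon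
        push Not at hcon
        rw [Finset.mem_sdiff] at hj
        apply hj.2
        rw [Finset.mem_image]
        refine ⟨n - 1 - m, ?_, rfl⟩
        rw [Finset.mem_range]
        have h1 : (l : ℕ) < m := hcon
        omega
      · apply mul_le_mul_of_nonneg_right
        · apply pow_le_pow_right₀
          · exact_mod_cast hpos
          · omega
        · exact mul_nonneg (nv_nonneg _ _) (Real.exp_pos _).le

end Pool.Agent.V2
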