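import Pool.Agent.Helper21.V2.M0
import Pool.Agent.Helper38.V2.M5

/-!
# Block SL2: existence of slopes
-/

namespace Pool.Agent.V2

open NumberField Finset
open Pool.Agent.Helper64.Vojta (Pl nv)

set_option linter.unusedVariables false

variable {K : Type*} [Field K] [NumberField K] {ι : Type*} [Fintype ι] [DecidableEq ι]

/-! ### linear algebra -/

/-- Exchange: a vector outside the span of the first vectors of a basis may replace one of the
later vectors. -/
theorem SL2.exchange {k : Type*} [Field k] {n : ℕ} {ι : Type*} [Fintype ι] (hn : Fintype.card ι = n)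
    {x : Fin n → ι → k} (hx : LinearIndependent k x) (l : Fin n) {y : ι → k}
    (hy : y ∉ Submodule.span k (x '' {l' | l' < l})) :
    ∃ m, l ≤ m ∧ LinearIndependent k (Function.update x m y) := by
  classical
  have hspan : Submodule.span k (Set.range x) = ⊤ := by
    apply hx.span_eq_top_of_card_eq_finrank'
    rw [Module.finrank_fintype_fun_eq_card, hn, Fintype.card_fin]
  have hmem : y ∈ Submodule.span k (Set.range x) := by rw [hspan]; trivial
  rw [Finsupp.mem_span_range_iff_exists_finsupp] at hmem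
  obtain ⟨c, hc⟩ := hmem
  have hex : ∃ m, l ≤ m ∧ c m ≠ 0 := by
    by_contra hcon
    push Not at hcon
    apply hy
    rw [← hc]
    refine Submodule.sum_mem _ fun m hm => Submodule.smul_mem _ _ ?_
    apply Submodule.subset_span
    refine ⟨m, ?_, rfl⟩
    show m < l
    by_contra hlt
    exact (Finsupp.mem_support_iff.mp hm) (hcon m (not_lt.mp hlt))
  obtain ⟨m, hlm, hcm⟩ := hex
  refine ⟨m, hlm, hx.update m y ⟨1, Submonoid.one_mem _, c, ?_, ?_⟩⟩
  · exact mem_nonZeroDivisors_of_ne_zero hcm
  · rw [one_smul, Finsupp.linearCombination_apply, hc]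

/-! ### boxes -/

theorem SL2.Bb_mono {F : Frm K ι} {b b' : Pl K → ι → ℝ} (h : ∀ v i, b v i ≤ b' v i) {x : ι → K}
    (hx : Bb F b x) : Bb F b' x := fun v i => (hx v i).trans (Real.exp_le_exp.mpr (h v i))

theorem SL2.rai_sc_le (c : Pl K → ι → ℝ) {t a a' : ℝ} (h : a ≤ t * a') (v : Pl K) (i : ι) :
    rai (sc t c) a v i ≤ sc t (rai c a') v i := by
  have hd : (0 : ℝ) < Module.finrank ℚ K := by exact_mod_cast Module.finrank_pos
  rcases v with v | v
  · show t * c (.inl v) i + a * v.mult / Module.finrank ℚ K ≤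
      t * (c (.inl v) i + a' * v.mult / Module.finrank ℚ K)
    have h1 : a * v.mult / Module.finrank ℚ K ≤ (t * a') * v.mult / Module.finrank ℚ K := by
      gcongr
    calc _ ≤ t * c (.inl v) i + (t * a') * v.mult / Module.finrank ℚ K := by linarith
      _ = _ := by ring
  · exact le_refl _

/-- SL2. -/
theorem slopes_exist {n : ℕ} (hn : Fintype.card ι = n) (F : Frm K ι) (c : Pl K → ι → ℝ)
    (hc : ExpS F.S c) (U : Ultrafilter ℕ) (t : ℕ → ℝ)
    (ht : Filter.Tendsto t (U : Filter ℕ) Filter.atTop) :
    ∃ (x : ℕ → Fin n → ι → K) (ν : Fin n → ℝ), Slopes F c U t x ν := by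
  classical
  obtain ⟨C1, h1⟩ := minkowski hn F
  obtain ⟨C2, h2⟩ := det_lower hn F
  obtain ⟨C3, h3⟩ := tH_lower F c hc
  choose x μ hmono hli hBb hsum using fun j => h1 (sc (t j) c) (hc.sc (t j))
  have ht1 : ∀ᶠ j in (U : Filter ℕ), 1 ≤ t j := ht.eventually_ge_atTop 1
  -- heights of the basis vectors
  have htH : ∀ j l, tH F (sc (t j) c) (x j l) ≤ μ j l := fun j l =>
    Bb.tH_le (hc.sc _) ((hli j).ne_zero l) (hBb j l)
  -- bounds
  have hlow : ∀ j, 1 ≤ t j → ∀ l, -(2 * |C3|) * t j ≤ μ j l := by
    intro j hj l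
    have h4 := h3 (t j) (by linarith) (x j l) ((hli j).ne_zero l)
    have h5 : C3 * (t j + 1) ≤ |C3| * (2 * t j) := by
      have h6 : C3 * (t j + 1) ≤ |C3| * (t j + 1) :=
        mul_le_mul_of_nonneg_right (le_abs_self _) (by linarith)
      have h7 : |C3| * (t j + 1) ≤ |C3| * (2 * t j) :=
        mul_le_mul_of_nonneg_left (by linarith) (abs_nonneg _)
      linarith
    have := htH j l
    linarith
  set B : ℝ := |deg c| + |C1| + (n + 1) * (2 * |C3|) with hB
  have hB0 : 0 ≤ |C3| := abs_nonneg _
  have hbd : ∀ j, 1 ≤ t j → ∀ l, μ j l / t j ∈ Set.Icc (-B) B := by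
    intro j hj l
    have hj0 : 0 < t j := by linarith
    have h4 := hlow j hj
    constructor
    · rw [le_div_iff₀ hj0]
      have h5 : 0 ≤ (|deg c| + |C1| + n * (2 * |C3|)) * t j := by positivity
      have := h4 l
      nlinarith
    · rw [div_le_iff₀ hj0]
      have h5 : ∑ l', μ j l' = μ j l + ∑ l' ∈ Finset.univ.erase l, μ j l' :=
        (Finset.add_sum_erase _ _ (Finset.mem_univ l)).symm
      have h6 : -(n * (2 * |C3|) * t j) ≤ ∑ l' ∈ Finset.univ.erase l, μ j l' := by
        have h7 : ∑ l' ∈ Finset.univ.erase l, (-(2 * |C3|) * t j) ≤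
            ∑ l' ∈ Finset.univ.erase l, μ j l' := Finset.sum_le_sum fun l' _ => h4 l'
        rw [Finset.sum_const, nsmul_eq_mul] at h7
        refine le_trans ?_ h7
        have h8 : ((Finset.univ.erase l).card : ℝ) ≤ n := by
          have : (Finset.univ.erase l).card ≤ n := by
            refine (Finset.card_le_univ _).trans ?_
            simp
          exact_mod_cast this
        have h9 : 0 ≤ 2 * |C3| * t j := by positivity
        nlinarith
      have h7 := hsum j
      rw [deg_sc] at h7
      have h8 : -(t j * deg c) ≤ |deg c| * t j := by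
        have : -deg c ≤ |deg c| := neg_le_abs _
        nlinarith
      have h9 : C1 ≤ |C1| * t j := by
        have h10 : C1 ≤ |C1| := le_abs_self _
        have h11 : 0 ≤ |C1| := abs_nonneg _
        nlinarith
      have h10 : 0 ≤ 2 * |C3| * t j := by positivity
      rw [hB]
      nlinarith
  -- limits
  have hlim : ∀ l, ∃ ν : ℝ, Filter.Tendsto (fun j => μ j l / t j) (U : Filter ℕ) (nhds ν) := by
    intro l
    have hc := (isCompact_Icc (a := -B) (b := B)).ultrafilter_le_nhds
      (U.map fun j => μ j l / t j) (by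
        rw [Filter.le_principal_iff]
        show ∀ᶠ j in (U : Filter ℕ), μ j l / t j ∈ Set.Icc (-B) B
        filter_upwards [ht1] with j hj using hbd j hj l)
    obtain ⟨ν, _, hν⟩ := hc
    exact ⟨ν, hν⟩
  choose ν hν using hlim
  refine ⟨x, ν, hn, Filter.Eventually.of_forall hli, ?_, ?_, ?_, ?_⟩
  · -- monotone
    intro l l' hll
    refine le_of_tendsto_of_tendsto (hν l) (hν l') ?_
    filter_upwards [ht1] with j hj
    exact div_le_div_of_nonneg_right (hmono j hll) (by linarith)
  · -- sum
    have hs : Filter.Tendsto (fun j => ∑ l, μ j l / t j) (U : Filter ℕ) (nhds (∑ l, ν l)) :=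
      tendsto_finsetSum _ fun l _ => hν l
    have hinv : Filter.Tendsto (fun j => (t j)⁻¹) (U : Filter ℕ) (nhds 0) :=
      tendsto_inv_atTop_zero.comp ht
    have hup : Filter.Tendsto (fun j => -deg c + C1 * (t j)⁻¹) (U : Filter ℕ) (nhds (-deg c)) := by
      simpa using (hinv.const_mul C1).const_add (-deg c)
    have hdn : Filter.Tendsto (fun j => -deg c - C2 * (t j)⁻¹) (U : Filter ℕ) (nhds (-deg c)) := by
      simpa using (hinv.const_mul C2).const_sub (-deg c)
    apply le_antisymm
    · refine le_of_tendsto_of_tendsto hs hup ?_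
      filter_upwards [ht1] with j hj
      have hj0 : 0 < t j := by linarith
      rw [← Finset.sum_div, div_le_iff₀ hj0]
      have h4 := hsum j
      rw [deg_sc] at h4
      have h5 : (-deg c + C1 * (t j)⁻¹) * t j = -(t j * deg c) + C1 := by
        field_simp
      rw [h5]
      exact h4
    · refine le_of_tendsto_of_tendsto hdn hs ?_
      filter_upwards [ht1] with j hj
      have hj0 : 0 < t j := by linarith
      rw [← Finset.sum_div, le_div_iff₀ hj0]
      have h4 := h2 (sc (t j) c) (hc.sc _) (x j) (hli j)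
      rw [deg_sc] at h4
      have h5 : (-deg c - C2 * (t j)⁻¹) * t j = -(t j * deg c) - C2 := by
        field_simp
      rw [h5]
      exact h4.trans (Finset.sum_le_sum fun l _ => htH j l)
  · -- upper bounds
    intro ε hε l
    have h4 : ∀ᶠ j in (U : Filter ℕ), μ j l / t j < ν l + ε :=
      (hν l).eventually_lt_const (by linarith)
    filter_upwards [ht1, h4] with j hj h5
    have hj0 : 0 < t j := by linarith
    rw [div_lt_iff₀ hj0] at h5
    refine SL2.Bb_mono (SL2.rai_sc_le c ?_) (hBb j l)
    linarith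
  · -- lower bounds
    intro ε hε l
    have h4 : ∀ᶠ j in (U : Filter ℕ), ν l - ε / 2 < μ j l / t j :=
      (hν l).eventually_const_lt (by linarith)
    have h5 : ∀ᶠ j in (U : Filter ℕ), 2 * |C1 + C2| / ε ≤ t j := ht.eventually_ge_atTop _
    filter_upwards [ht1, h4, h5] with j hj h6 h7 y hy
    have hj0 : 0 < t j := by linarith
    rw [lt_div_iff₀ hj0] at h6
    rw [div_le_iff₀ hε] at h7
    obtain ⟨m, hlm, hm⟩ := SL2.exchange hn (hli j) l hy
    have h8 := h2 (sc (t j) c) (hc.sc _) _ hm
    rw [deg_sc] at h8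
    have h9 : ∑ l', tH F (sc (t j) c) (Function.update (x j) m y l') =
        tH F (sc (t j) c) y + ∑ l' ∈ Finset.univ.erase m, tH F (sc (t j) c) (x j l') := by
      rw [← Finset.add_sum_erase _ _ (Finset.mem_univ m)]
      rw [Function.update_self]
      congr 1
      refine Finset.sum_congr rfl fun l' hl' => ?_
      rw [Function.update_of_ne (Finset.ne_of_mem_erase hl')]
    rw [h9] at h8
    have h10 : ∑ l' ∈ Finset.univ.erase m, tH F (sc (t j) c) (x j l') ≤
        ∑ l' ∈ Finset.univ.erase m, μ j l' := Finset.sum_le_sum fun l' _ => htH j l'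
    have h11 : ∑ l', μ j l' = μ j m + ∑ l' ∈ Finset.univ.erase m, μ j l' :=
      (Finset.add_sum_erase _ _ (Finset.mem_univ m)).symm
    have h12 := hsum j
    rw [deg_sc] at h12
    have h13 := hmono j hlm
    have h14 : C1 + C2 ≤ |C1 + C2| := le_abs_self _
    nlinarith

end Pool.Agent.V2
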