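import Pool.Agent.Helper21.V2.Defs

/-!
# SL3: comparison of slopes
-/

namespace Pool.Agent.V2

open NumberField Finset
open Pool.Agent.Helper64.Vojta (Pl nv)

set_option linter.unusedVariables false

variable {K : Type*} [Field K] [NumberField K] {ι : Type*} [Fintype ι] [DecidableEq ι]

omit [NumberField K] [Fintype ι] [DecidableEq ι] in
theorem sl3_finrank {n : ℕ} {y : Fin n → ι → K} (hy : LinearIndependent K y) (S : Set (Fin n)) :
    Module.finrank K (Submodule.span K (y '' S)) = Nat.card S := by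
  classical
  rw [Set.image_eq_range, Nat.card_eq_fintype_card]
  exact finrank_span_eq_card (hy.comp (Subtype.val : S → Fin n) Subtype.val_injective)

theorem sl3_card_lt {n : ℕ} (l : Fin n) : Nat.card {l' : Fin n | l' < l} = (l : ℕ) := by
  rw [Nat.card_eq_fintype_card, Fintype.card_ofFinset]
  have : (Finset.univ.filter fun x : Fin n => x < l) = Finset.Iio l := by ext; simp
  simp [this]

theorem sl3_card_le {n : ℕ} (l : Fin n) : Nat.card {l' : Fin n | l' ≤ l} = (l : ℕ) + 1 := by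
  rw [Nat.card_eq_fintype_card, Fintype.card_ofFinset]
  have : (Finset.univ.filter fun x : Fin n => x ≤ l) = Finset.Iic l := by ext; simp
  simp [this]

omit [NumberField K] [DecidableEq ι] in
theorem sl3_exists {n : ℕ} {x z : Fin n → ι → K} (hx : LinearIndependent K x)
    (hz : LinearIndependent K z) (l : Fin n) :
    ∃ m ≤ l, z m ∉ Submodule.span K (x '' {l' | l' < l}) := by
  by_contra hcon
  push Not at hcon
  have h1 : Submodule.span K (z '' {l' | l' ≤ l}) ≤ Submodule.span K (x '' {l' | l' < l}) := by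
    rw [Submodule.span_le]
    rintro _ ⟨m, hm, rfl⟩
    exact hcon m hm
  have h2 := Submodule.finrank_mono h1
  rw [sl3_finrank hx, sl3_finrank hz, sl3_card_lt, sl3_card_le] at h2
  omega

/-- SL3. Comparison. -/
theorem Slopes.compare {n : ℕ} {F : Frm K ι} {c : Pl K → ι → ℝ} (hc : ExpS F.S c)
    {U : Ultrafilter ℕ} {t : ℕ → ℝ} (ht : Filter.Tendsto t (U : Filter ℕ) Filter.atTop)
    {x : ℕ → Fin n → ι → K} {ν : Fin n → ℝ} (h : Slopes F c U t x ν)
    (z : ℕ → Fin n → ι → K) (ν' : Fin n → ℝ) (hν' : Monotone ν')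
    (hz : ∀ᶠ j in (U : Filter ℕ), LinearIndependent K (z j))
    (hup : ∀ ε : ℝ, 0 < ε → ∀ l, ∀ᶠ j in (U : Filter ℕ), tH F (sc (t j) c) (z j l) ≤ (ν' l + ε) * t j)
    (hsum : ∑ l, ν' l ≤ -deg c) :
    ν' = ν ∧ ∀ l : Fin n, (∀ l' < l, ν l' < ν l) → ∀ᶠ j in (U : Filter ℕ),
      Submodule.span K (z j '' {l' | l' < l}) = Submodule.span K (x j '' {l' | l' < l}) := by
  have hpos : ∀ᶠ j in (U : Filter ℕ), 0 < t j := ht.eventually (Filter.eventually_gt_atTop 0)
  have hle : ∀ l, ν l ≤ ν' l := by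
    intro l
    refine le_of_forall_pos_le_add fun ε hε => ?_
    have hε2 : 0 < ε / 2 := by linarith
    have hall : ∀ᶠ j in (U : Filter ℕ), ∀ m, tH F (sc (t j) c) (z j m) ≤ (ν' m + ε / 2) * t j :=
      Filter.eventually_all.2 (fun m => hup (ε / 2) hε2 m)
    obtain ⟨j, hj⟩ := (hall.and (hz.and (h.indep.and ((h.lower (ε / 2) hε2 l).and hpos)))).exists
    obtain ⟨h1, h2, h3, h4, h5⟩ := hj
    obtain ⟨m, hml, hm⟩ := sl3_exists h3 h2 l
    have h6 := h4 (z j m) hm
    have h7 := h1 m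
    have h8 : (ν l - ε / 2) * t j ≤ (ν' m + ε / 2) * t j := h6.trans h7
    have h9 := le_of_mul_le_mul_right h8 h5
    have h10 := hν' hml
    linarith
  have heq : ν' = ν := by
    have h1 : ∑ l, ν l = ∑ l, ν' l := by
      apply le_antisymm
      · exact Finset.sum_le_sum fun l _ => hle l
      · rw [h.sum]; exact hsum
    have h2 := (Finset.sum_eq_sum_iff_of_le (fun l _ => hle l)).1 h1
    funext l
    exact (h2 l (Finset.mem_univ l)).symm
  refine ⟨heq, ?_⟩
  subst heq
  intro l hl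
  obtain ⟨ε, hε, hgap⟩ : ∃ ε : ℝ, 0 < ε ∧ ∀ l' < l, ν' l' + ε < ν' l - ε := by
    have h1 : ∀ l' : Fin n, ∃ e : ℝ, 0 < e ∧ (l' < l → ν' l' + e < ν' l - e) := by
      intro l'
      by_cases h : l' < l
      · exact ⟨(ν' l - ν' l') / 4, by linarith [hl l' h], fun _ => by linarith [hl l' h]⟩
      · exact ⟨1, one_pos, fun h' => absurd h' h⟩
    choose e he1 he2 using h1
    have hne : (Finset.univ : Finset (Fin n)).Nonempty := ⟨l, Finset.mem_univ l⟩
    refine ⟨Finset.univ.inf' hne e, ?_, ?_⟩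
    · rw [Finset.lt_inf'_iff]
      exact fun l' _ => he1 l'
    · intro l' h
      have h2 := he2 l' h
      have h3 : Finset.univ.inf' hne e ≤ e l' := Finset.inf'_le e (Finset.mem_univ l')
      linarith
  have hall : ∀ᶠ j in (U : Filter ℕ), ∀ m, tH F (sc (t j) c) (z j m) ≤ (ν' m + ε) * t j :=
    Filter.eventually_all.2 (fun m => hup ε hε m)
  filter_upwards [hall, hz, h.indep, h.lower ε hε l, hpos] with j h1 h2 h3 h4 h5
  have hsub : Submodule.span K (z j '' {l' | l' < l}) ≤
      Submodule.span K (x j '' {l' | l' < l}) := by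
    rw [Submodule.span_le]
    rintro _ ⟨m, hm, rfl⟩
    by_contra hcon
    have h6 := h4 (z j m) hcon
    have h7 := h1 m
    have h8 : (ν' l - ε) * t j ≤ (ν' m + ε) * t j := h6.trans h7
    have h9 := le_of_mul_le_mul_right h8 h5
    have h10 := hgap m hm
    linarith
  apply Submodule.eq_of_le_of_finrank_eq hsub
  rw [sl3_finrank h2, sl3_finrank h3]

end Pool.Agent.V2
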