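import Mathlib

/-! Block SL6 (helper33): linear algebra of compound matrices and wedge products. -/

namespace Pool.Agent.V2

open Module
open Set (powersetCard)

variable {K : Type*} [Field K] {n : ℕ}

/-- coordinates of the wedge product of `p` vectors -/
noncomputable def wdg {p : ℕ} (x : Fin p → Fin n → K) : powersetCard (Fin n) p → K := fun s =>
  Matrix.det (Matrix.of fun i j => x i (Set.powersetCard.ofFinEmbEquiv.symm s j))

/-- compound matrix -/
noncomputable def cmpd (p : ℕ) (A : Matrix (Fin n) (Fin n) K) :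
    Matrix (powersetCard (Fin n) p) (powersetCard (Fin n) p) K := fun s s' =>
  Matrix.det (Matrix.of fun i j => A (Set.powersetCard.ofFinEmbEquiv.symm s i)
    (Set.powersetCard.ofFinEmbEquiv.symm s' j))

/-- the standard basis of the exterior power -/
noncomputable def xB (K : Type*) [Field K] (n p : ℕ) :
    Basis (powersetCard (Fin n) p) K (⋀[K]^p (Fin n → K)) :=
  (Pi.basisFun K (Fin n)).exteriorPower p

theorem wdg_eq {p : ℕ} (x : Fin p → Fin n → K) :
    wdg x = (xB K n p).equivFun (exteriorPower.ιMulti K p x) := by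
  ext s
  rw [Basis.equivFun_apply, xB, exteriorPower.basis_repr_apply,
    exteriorPower.ιMultiDual_apply_ιMulti]
  simp [wdg]

theorem cmpd_eq (p : ℕ) (A : Matrix (Fin n) (Fin n) K) :
    cmpd p A = LinearMap.toMatrix (xB K n p) (xB K n p)
      (exteriorPower.map p (Matrix.toLin' A)) := by
  ext s s'
  rw [LinearMap.toMatrix_apply]
  rw [xB, exteriorPower.basis_repr_apply, exteriorPower.basis_apply,
    exteriorPower.map_apply_ιMulti_family, exteriorPower.ιMulti_family,
    exteriorPower.ιMultiDual_apply_ιMulti, cmpd, ← Matrix.det_transpose]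
  congr 1
  ext i j
  simp

/-- SL6a. -/
theorem cmpd_mulVec_wdg {p : ℕ} (A : Matrix (Fin n) (Fin n) K) (x : Fin p → Fin n → K) :
    Matrix.mulVec (cmpd p A) (wdg x) = wdg (fun i => Matrix.mulVec A (x i)) := by
  rw [wdg_eq, wdg_eq, cmpd_eq, Basis.equivFun_apply, LinearMap.toMatrix_mulVec_repr,
    exteriorPower.map_apply_ιMulti, Basis.equivFun_apply]
  rfl

/-- SL6c. -/
theorem cmpd_one (p : ℕ) : cmpd p (1 : Matrix (Fin n) (Fin n) K) = 1 := by
  rw [cmpd_eq, Matrix.toLin'_one, exteriorPower.map_id, LinearMap.toMatrix_id]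

theorem cmpd_mul (p : ℕ) (A B : Matrix (Fin n) (Fin n) K) :
    cmpd p (A * B) = cmpd p A * cmpd p B := by
  rw [cmpd_eq, cmpd_eq, cmpd_eq, Matrix.toLin'_mul, exteriorPower.map_comp,
    LinearMap.toMatrix_comp (xB K n p) (xB K n p) (xB K n p)]

/-- SL6b. -/
theorem cmpd_det_ne_zero (p : ℕ) {A : Matrix (Fin n) (Fin n) K} (hA : A.det ≠ 0) :
    (cmpd p A).det ≠ 0 := by
  have h1 : cmpd p A * cmpd p A⁻¹ = 1 := by
    rw [← cmpd_mul, Matrix.mul_nonsing_inv _ (isUnit_iff_ne_zero.mpr hA), cmpd_one]
  have h2 := congrArg Matrix.det h1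
  rw [Matrix.det_mul, Matrix.det_one] at h2
  exact left_ne_zero_of_mul_eq_one h2

/-- SL6d. the wedge products of the members of an independent family are independent -/
theorem wdg_indep (p : ℕ) {x : Fin n → Fin n → K} (hx : LinearIndependent K x) :
    LinearIndependent K (fun s : powersetCard (Fin n) p =>
      wdg (fun i => x (Set.powersetCard.ofFinEmbEquiv.symm s i))) := by
  have h1 := exteriorPower.ιMulti_family_linearIndependent_field (n := p) hx
  have h2 := h1.map' (xB K n p).equivFun.toLinearMap (LinearEquiv.ker _)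
  have h3 : (fun s : powersetCard (Fin n) p =>
      wdg (fun i => x (Set.powersetCard.ofFinEmbEquiv.symm s i))) =
      (xB K n p).equivFun ∘ exteriorPower.ιMulti_family K p x := by
    funext s
    rw [wdg_eq]
    rfl
  rw [h3]
  exact h2

end Pool.Agent.V2
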