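import Pool.Agent.Helper21.V2.SL6

/-! Block SL6e (helper33): the hyperplane of wedge products determines the span of the first
vectors. -/

namespace Pool.Agent.V2

open Module
open Set (powersetCard)

variable {K : Type*} [Field K]

namespace SL6e

/-- the last `p` indices -/
noncomputable def s0 (k p : ℕ) : powersetCard (Fin (k + p)) p :=
  Set.powersetCard.ofFinEmbEquiv (Fin.natAddOrderEmb (m := p) k)

theorem mem_s0 {k p : ℕ} (i : Fin (k + p)) :
    i ∈ ((s0 k p : powersetCard (Fin (k + p)) p) : Finset (Fin (k + p))) ↔ k ≤ (i : ℕ) := by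
  have h1 := Set.powersetCard.mem_range_ofFinEmbEquiv_symm_iff_mem (s0 k p) i
  rw [s0, Equiv.symm_apply_apply] at h1
  rw [s0]
  refine h1.symm.trans ?_
  constructor
  · rintro ⟨j, rfl⟩
    simp
  · intro h
    exact ⟨⟨i - k, by omega⟩, by ext; simp; omega⟩

theorem ne_s0 {k p : ℕ} (s : powersetCard (Fin (k + p)) p) :
    (∃ i ∈ (s : Finset (Fin (k + p))), (i : ℕ) < k) ↔ s ≠ s0 k p := by
  constructor
  · rintro ⟨i, hi, hik⟩ rfl
    rw [mem_s0] at hi
    omega
  · intro h
    by_contra! h2
    apply h
    apply Subtype.ext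
    apply Finset.eq_of_subset_of_card_le
    · intro i hi
      exact (mem_s0 i).mpr (h2 i hi)
    · rw [show (s : Finset (Fin (k + p))).card = p from s.2,
        show ((s0 k p : powersetCard (Fin (k + p)) p) : Finset (Fin (k + p))).card = p from
          (s0 k p).2]

/-- the hyperplane -/
noncomputable def H {k p : ℕ} (x : Fin (k + p) → Fin (k + p) → K) :
    Submodule K (powersetCard (Fin (k + p)) p → K) :=
  Submodule.span K ((fun s : powersetCard (Fin (k + p)) p =>
        wdg (fun i => x (Set.powersetCard.ofFinEmbEquiv.symm s i))) ''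
          {s | ∃ i ∈ (s : Finset (Fin (k + p))), (i : ℕ) < k})

theorem wdg_mem_H {k p : ℕ} (b : Basis (Fin (k + p)) K (Fin (k + p) → K))
    (v : Fin p → Fin (k + p) → K) :
    wdg v ∈ H (k := k) b ↔
      Matrix.det (Matrix.of fun i j => b.coord (Fin.natAddOrderEmb (m := p) k j) (v i)) = 0 := by
  have h1 : H (k := k) b = (Submodule.span K ((b.exteriorPower p) '' {s | s ≠ s0 k p})).map
      (xB K (k + p) p).equivFun.toLinearMap := by
    rw [Submodule.map_span, H, Set.image_image]
    congr 1
    have h2 : {s : powersetCard (Fin (k + p)) p | ∃ i ∈ (s : Finset (Fin (k + p))), (i : ℕ) < k} =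
        {s | s ≠ s0 k p} := by
      ext s
      exact ne_s0 s
    rw [h2]
    apply Set.image_congr
    intro s hs
    rw [wdg_eq, exteriorPower.basis_apply]
    rfl
  rw [h1, wdg_eq]
  have h2 : (xB K (k + p) p).equivFun (exteriorPower.ιMulti K p v) ∈
      (Submodule.span K ((b.exteriorPower p) '' {s | s ≠ s0 k p})).map
      (xB K (k + p) p).equivFun.toLinearMap ↔ exteriorPower.ιMulti K p v ∈
      (Submodule.span K ((b.exteriorPower p) '' {s | s ≠ s0 k p})) := by
    rw [Submodule.mem_map]
    constructor
    · rintro ⟨w, hw, hw2⟩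
      have := (xB K (k + p) p).equivFun.injective hw2
      rwa [← this]
    · intro h
      exact ⟨_, h, rfl⟩
  rw [h2, Basis.mem_span_image]
  have h3 : (b.exteriorPower p).repr (exteriorPower.ιMulti K p v) (s0 k p) =
      Matrix.det (Matrix.of fun i j => b.coord (Fin.natAddOrderEmb (m := p) k j) (v i)) := by
    rw [exteriorPower.basis_repr_apply, exteriorPower.ιMultiDual_apply_ιMulti, s0,
      Equiv.symm_apply_apply]
  rw [← h3]
  constructor
  · intro h
    by_contra h4
    exact h (Finsupp.mem_support_iff.mpr h4) rfl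
  · intro h s hs hs2
    rw [hs2] at hs
    exact Finsupp.mem_support_iff.mp hs h

theorem mem_span_iff {k p : ℕ} (b : Basis (Fin (k + p)) K (Fin (k + p) → K))
    (z : Fin (k + p) → K) :
    z ∈ Submodule.span K (b '' {i | (i : ℕ) < k}) ↔
      ∀ (v : Fin p → Fin (k + p) → K) (i0 : Fin p), wdg (Function.update v i0 z) ∈ H (k := k) b := by
  rw [Basis.mem_span_image]
  constructor
  · intro h v i0
    rw [wdg_mem_H]
    apply Matrix.det_eq_zero_of_row_eq_zero i0
    intro j
    simp only [Matrix.of_apply, Function.update_self]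
    by_contra h2
    have h3 := h (Finsupp.mem_support_iff.mpr h2)
    simp at h3
  · intro h m hm
    by_contra h2
    have h2' : k ≤ (m : ℕ) := not_lt.mp h2
    apply Finsupp.mem_support_iff.mp hm
    obtain ⟨i0, hi0⟩ : ∃ i0 : Fin p, Fin.natAddOrderEmb (m := p) k i0 = m :=
      ⟨⟨m - k, by omega⟩, by ext; simp; omega⟩
    have h3 := h (fun i => b (Fin.natAddOrderEmb (m := p) k i)) i0
    rw [wdg_mem_H] at h3
    have h4 : (Matrix.of fun i j => b.coord (Fin.natAddOrderEmb (m := p) k j)
        (Function.update (fun i => b (Fin.natAddOrderEmb (m := p) k i)) i0 z i)) =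
        (1 : Matrix (Fin p) (Fin p) K).updateRow i0
          (fun j => b.coord (Fin.natAddOrderEmb (m := p) k j) z) := by
      ext i j
      by_cases hi : i = i0
      · subst hi
        simp
      · rw [Matrix.updateRow_ne hi, Matrix.of_apply, Function.update_of_ne hi, Basis.coord_apply,
          Basis.repr_self, Matrix.one_apply, Finsupp.single_apply]
        simp
    rw [h4, ← Matrix.cramer_transpose_apply, Matrix.transpose_one, Matrix.cramer_one] at h3
    rw [← hi0]
    exact h3

end SL6e

/-- SL6e. the hyperplane spanned by all wedge products except the last one determines the span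
of the first `k` vectors -/
theorem span_of_wdg {n k p : ℕ} (hk : k + p = n) (hp : 0 < p) {x y : Fin n → Fin n → K}
    (hx : LinearIndependent K x) (hy : LinearIndependent K y)
    (h : Submodule.span K ((fun s : powersetCard (Fin n) p =>
        wdg (fun i => x (Set.powersetCard.ofFinEmbEquiv.symm s i))) ''
          {s | ∃ i ∈ (s : Finset (Fin n)), (i : ℕ) < k}) =
      Submodule.span K ((fun s : powersetCard (Fin n) p =>
        wdg (fun i => y (Set.powersetCard.ofFinEmbEquiv.symm s i))) ''
          {s | ∃ i ∈ (s : Finset (Fin n)), (i : ℕ) < k})) :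
    Submodule.span K (x '' {i | (i : ℕ) < k}) = Submodule.span K (y '' {i | (i : ℕ) < k}) := by
  subst hk
  have : Nonempty (Fin (k + p)) := ⟨⟨0, by omega⟩⟩
  obtain ⟨b, rfl⟩ : ∃ b : Basis (Fin (k + p)) K (Fin (k + p) → K), (b : _ → _) = x :=
    ⟨basisOfLinearIndependentOfCardEqFinrank hx (by simp), by simp⟩
  obtain ⟨c, rfl⟩ : ∃ b : Basis (Fin (k + p)) K (Fin (k + p) → K), (b : _ → _) = y :=
    ⟨basisOfLinearIndependentOfCardEqFinrank hy (by simp), by simp⟩
  have h' : SL6e.H (k := k) (b : Fin (k + p) → Fin (k + p) → K) = SL6e.H (k := k) c := h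
  ext z
  rw [SL6e.mem_span_iff, SL6e.mem_span_iff, h']

end Pool.Agent.V2
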