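import Pool.Agent.Helper21.V2.P3
import Pool.Agent.Helper21.V2.SL3
import Pool.Agent.Helper21.V2.SL6
import Pool.Agent.Helper21.V2.SL6e

/-!
# Block SL7: the span at a gap of the slopes is constant (compound systems)
-/

namespace Pool.Agent.V2

open NumberField Finset
open Pool.Agent.Helper64.Vojta (Pl nv nv_nonneg nv_mul nv_one nv_zero nv_pos)
open Set (powersetCard)

variable {K : Type*} [Field K] [NumberField K]

/-! ### Determinants -/

theorem nv_sign (v : Pl K) {p : ℕ} (σ : Equiv.Perm (Fin p)) :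
    nv v (((Equiv.Perm.sign σ : ℤˣ) : ℤ) : K) = 1 := by
  rcases Int.units_eq_one_or (Equiv.Perm.sign σ) with h | h
  · rw [h]; simp [nv_one]
  · rw [h]; simp [nv_neg_one]

theorem nv_det_term (v : Pl K) {p : ℕ} (M : Matrix (Fin p) (Fin p) K) (α β : Fin p → ℝ)
    (h : ∀ i j, nv v (M i j) ≤ Real.exp (α i + β j)) (σ : Equiv.Perm (Fin p)) :
    nv v ((((Equiv.Perm.sign σ : ℤˣ) : ℤ) : K) * ∏ i, M (σ i) i) ≤
      Real.exp (∑ i, α i + ∑ i, β i) := by
  rw [nv_mul, nv_sign, one_mul, nv_prod]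
  calc ∏ i, nv v (M (σ i) i) ≤ ∏ i, Real.exp (α (σ i) + β i) :=
        Finset.prod_le_prod (fun i _ => nv_nonneg v _) (fun i _ => h _ _)
    _ = Real.exp (∑ i, (α (σ i) + β i)) := (Real.exp_sum _ _).symm
    _ = Real.exp (∑ i, α i + ∑ i, β i) := by
        rw [Finset.sum_add_distrib, Equiv.sum_comp σ α]

theorem nv_det_le_inl (v : InfinitePlace K) {p : ℕ} (M : Matrix (Fin p) (Fin p) K)
    (α β : Fin p → ℝ) (h : ∀ i j, nv (.inl v) (M i j) ≤ Real.exp (α i + β j)) :
    nv (.inl v) M.det ≤ (p.factorial : ℝ) ^ v.mult * Real.exp (∑ i, α i + ∑ i, β i) := by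
  rw [Matrix.det_apply']
  have h1 := nv_sum_inl v Finset.univ
    (fun σ : Equiv.Perm (Fin p) => (((Equiv.Perm.sign σ : ℤˣ) : ℤ) : K) * ∏ i, M (σ i) i)
    (Real.exp_pos _).le (fun σ _ => nv_det_term (.inl v) M α β h σ)
  rwa [Finset.card_univ, Fintype.card_perm, Fintype.card_fin] at h1

theorem nv_det_le_inr (v : FinitePlace K) {p : ℕ} (M : Matrix (Fin p) (Fin p) K)
    (α β : Fin p → ℝ) (h : ∀ i j, nv (.inr v) (M i j) ≤ Real.exp (α i + β j)) :
    nv (.inr v) M.det ≤ Real.exp (∑ i, α i + ∑ i, β i) := by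
  rw [Matrix.det_apply']
  exact nv_sum_inr v Finset.univ
    (fun σ : Equiv.Perm (Fin p) => (((Equiv.Perm.sign σ : ℤˣ) : ℤ) : K) * ∏ i, M (σ i) i)
    (Real.exp_pos _).le (fun σ _ => nv_det_term (.inr v) M α β h σ)

/-! ### The compound system -/

/-- exponents of the compound system -/
noncomputable def cmpE {n : ℕ} (p : ℕ) (c : Pl K → Fin n → ℝ) :
    Pl K → powersetCard (Fin n) p → ℝ :=
  fun v s => ∑ a : Fin p, c v (Set.powersetCard.ofFinEmbEquiv.symm s a)

/-- the compound system of linear forms -/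
noncomputable def cmpF {n : ℕ} (p : ℕ) (F : Frm K (Fin n)) : Frm K (powersetCard (Fin n) p) where
  S := F.S
  L := fun v => cmpd p (F.L v)
  hL := fun v => cmpd_det_ne_zero p (F.hL v)
  hS := fun v hv => by rw [F.hS v hv, cmpd_one]

theorem cmpE_expS {n : ℕ} (p : ℕ) {F : Frm K (Fin n)} {c : Pl K → Fin n → ℝ} (hc : ExpS F.S c) :
    ExpS (cmpF p F).S (cmpE p c) := by
  intro v hv
  funext s
  simp only [cmpE, hc v hv, Pi.zero_apply, Finset.sum_const_zero]

theorem sum_em {n p : ℕ} (s : powersetCard (Fin n) p) (f : Fin n → ℝ) :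
    ∑ a : Fin p, f (Set.powersetCard.ofFinEmbEquiv.symm s a) = ∑ i ∈ (s : Finset (Fin n)), f i := by
  have h1 : (Finset.univ : Finset (Fin p)).map
      (Set.powersetCard.ofFinEmbEquiv.symm s).toEmbedding = (s : Finset (Fin n)) := by
    ext i
    simp only [Finset.mem_map, Finset.mem_univ, true_and, RelEmbedding.coe_toEmbedding]
    exact Set.powersetCard.mem_range_ofFinEmbEquiv_symm_iff_mem s i
  rw [← h1, Finset.sum_map]
  rfl

theorem cnt_le {n p : ℕ} (i i' : Fin n) :
    (univ.filter fun s : powersetCard (Fin n) p => i ∈ (s : Finset (Fin n))).card ≤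
      (univ.filter fun s : powersetCard (Fin n) p => i' ∈ (s : Finset (Fin n))).card := by
  refine Finset.card_le_card_of_injOn
    (fun s => Set.powersetCard.map p (Equiv.swap i i').toEmbedding s) ?_ ?_
  · intro s hs
    simp only [Finset.coe_filter, Finset.mem_univ, true_and, Set.mem_ofPred_eq] at hs ⊢
    rw [Set.powersetCard.val_map, Finset.mem_map]
    exact ⟨i, hs, by simp⟩
  · intro s _ s' _ h
    have h2 := congrArg Subtype.val h
    simp only [Set.powersetCard.val_map] at h2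
    exact Subtype.ext (Finset.map_injective _ h2)

theorem sum_cmp (n p : ℕ) (hn : 0 < n) : ∃ B : ℝ, ∀ f : Fin n → ℝ,
    ∑ s : powersetCard (Fin n) p, ∑ a : Fin p, f (Set.powersetCard.ofFinEmbEquiv.symm s a) =
      B * ∑ i, f i := by
  classical
  let i0 : Fin n := ⟨0, hn⟩
  refine ⟨((univ.filter fun s : powersetCard (Fin n) p => i0 ∈ (s : Finset (Fin n))).card : ℝ),
    fun f => ?_⟩
  have h1 : ∀ s : powersetCard (Fin n) p,
      ∑ a : Fin p, f (Set.powersetCard.ofFinEmbEquiv.symm s a) =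
        ∑ i, if i ∈ (s : Finset (Fin n)) then f i else 0 := by
    intro s
    rw [sum_em, Finset.sum_ite_mem, Finset.univ_inter]
  simp_rw [h1]
  rw [Finset.sum_comm, Finset.mul_sum]
  refine Finset.sum_congr rfl fun i _ => ?_
  rw [← Finset.sum_filter, Finset.sum_const, nsmul_eq_mul,
    le_antisymm (cnt_le (p := p) i i0) (cnt_le i0 i)]

theorem tH_wdg_le {n p : ℕ} {F : Frm K (Fin n)} {c : Pl K → Fin n → ℝ} (hc : ExpS F.S c) {t : ℝ}
    (a : Fin p → ℝ) (y : Fin p → Fin n → K) (hy : ∀ i, Bb F (sc t (rai c (a i))) (y i))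
    (hw : wdg y ≠ 0) :
    tH (cmpF p F) (sc t (cmpE p c)) (wdg y) ≤
      Module.finrank ℚ K * Real.log (p.factorial : ℝ) + t * ∑ i, a i := by
  have hd : (0 : ℝ) < Module.finrank ℚ K := by
    exact_mod_cast Module.finrank_pos
  have hmv : ∀ v, Matrix.mulVec ((cmpF p F).L v) (wdg y) =
      wdg (fun i => Matrix.mulVec (F.L v) (y i)) := fun v => cmpd_mulVec_wdg (F.L v) y
  have hexp : ExpS (cmpF p F).S (V2.sc t (cmpE p c)) := ExpS.sc (cmpE_expS p hc) t
  have key := gsum_le (finS_tn (cmpF p F) (sc t (cmpE p c)) hexp hw)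
    (Real.log (p.factorial : ℝ) + t * (∑ i, a i) / Module.finrank ℚ K) ?_ ?_
  · refine key.trans_eq ?_
    field_simp
  · intro v
    have h1 : tn (cmpF p F) (sc t (cmpE p c)) (.inl v) (wdg y) ≤
        (p.factorial : ℝ) ^ v.mult * Real.exp (v.mult * (t * (∑ i, a i) / Module.finrank ℚ K)) := by
      refine Real.iSup_le (fun s => ?_) (by positivity)
      rw [hmv]
      have h2 := nv_det_le_inl v
        (Matrix.of fun i j => Matrix.mulVec (F.L (.inl v)) (y i)
          (Set.powersetCard.ofFinEmbEquiv.symm s j))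
        (fun i => t * (a i * v.mult / Module.finrank ℚ K))
        (fun j => t * c (.inl v) (Set.powersetCard.ofFinEmbEquiv.symm s j))
        (fun i j => by
          have h3 := hy i (.inl v) (Set.powersetCard.ofFinEmbEquiv.symm s j)
          refine h3.trans_eq (congrArg Real.exp ?_)
          change t * (c (.inl v) _ + a i * v.mult / Module.finrank ℚ K) = _
          ring)
      have h4 : (sc t (cmpE p c)) (.inl v) s =
          ∑ j, t * c (.inl v) (Set.powersetCard.ofFinEmbEquiv.symm s j) := by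
        change t * ∑ j, _ = _
        rw [Finset.mul_sum]
      rw [h4]
      calc nv (.inl v) (wdg (fun i => Matrix.mulVec (F.L (.inl v)) (y i)) s) * Real.exp _ ≤
          ((p.factorial : ℝ) ^ v.mult * Real.exp (∑ i, t * (a i * v.mult / Module.finrank ℚ K) +
            ∑ j, t * c (.inl v) (Set.powersetCard.ofFinEmbEquiv.symm s j))) *
            Real.exp (-∑ j, t * c (.inl v) (Set.powersetCard.ofFinEmbEquiv.symm s j)) :=
            mul_le_mul_of_nonneg_right h2 (Real.exp_pos _).le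
        _ = (p.factorial : ℝ) ^ v.mult *
            Real.exp (∑ i, t * (a i * v.mult / Module.finrank ℚ K)) := by
            rw [mul_assoc, ← Real.exp_add, add_neg_cancel_right]
        _ = _ := by
            congr 2
            rw [Finset.mul_sum, Finset.sum_div, Finset.mul_sum]
            refine Finset.sum_congr rfl fun i _ => ?_
            ring
    refine (Real.log_le_log (tn_pos _ _ _ hw) h1).trans_eq ?_
    have hf : (0 : ℝ) < p.factorial := by exact_mod_cast Nat.factorial_pos p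
    rw [Real.log_mul (pow_pos hf _).ne' (Real.exp_pos _).ne', Real.log_pow, Real.log_exp]
    ring
  · intro v
    refine Real.log_nonpos (tn_pos _ _ _ hw).le ?_
    refine Real.iSup_le (fun s => ?_) zero_le_one
    rw [hmv]
    have h2 := nv_det_le_inr v
      (Matrix.of fun i j => Matrix.mulVec (F.L (.inr v)) (y i)
        (Set.powersetCard.ofFinEmbEquiv.symm s j))
      (fun _ => 0)
      (fun j => t * c (.inr v) (Set.powersetCard.ofFinEmbEquiv.symm s j))
      (fun i j => by
        have h3 := hy i (.inr v) (Set.powersetCard.ofFinEmbEquiv.symm s j)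
        refine h3.trans_eq (congrArg Real.exp ?_)
        change t * c (.inr v) _ = _
        ring)
    have h4 : (sc t (cmpE p c)) (.inr v) s =
        ∑ j, t * c (.inr v) (Set.powersetCard.ofFinEmbEquiv.symm s j) := by
      change t * ∑ j, _ = _
      rw [Finset.mul_sum]
    rw [h4]
    calc nv (.inr v) (wdg (fun i => Matrix.mulVec (F.L (.inr v)) (y i)) s) * Real.exp _ ≤
        Real.exp (∑ _i : Fin p, (0 : ℝ) +
          ∑ j, t * c (.inr v) (Set.powersetCard.ofFinEmbEquiv.symm s j)) *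
          Real.exp (-∑ j, t * c (.inr v) (Set.powersetCard.ofFinEmbEquiv.symm s j)) :=
          mul_le_mul_of_nonneg_right h2 (Real.exp_pos _).le
      _ = 1 := by
          rw [← Real.exp_add, Finset.sum_const_zero, zero_add, add_neg_cancel, Real.exp_zero]

/-! ### The gap -/

theorem sum_lt_top {n p : ℕ} (k : Fin n) (hp0 : 0 < p) (ν : Fin n → ℝ) (hmono : Monotone ν)
    (hgap : ∀ l' < k, ν l' < ν k) (s s0 : powersetCard (Fin n) p)
    (hs0 : ∀ i, i ∈ (s0 : Finset (Fin n)) ↔ k ≤ i) (hs : ∃ i ∈ (s : Finset (Fin n)), i < k) :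
    ∑ i ∈ (s : Finset (Fin n)), ν i < ∑ i ∈ (s0 : Finset (Fin n)), ν i := by
  classical
  have hc1 : (s : Finset (Fin n)).card = p := s.2
  have hc2 : (s0 : Finset (Fin n)).card = p := s0.2
  have h1 : ∑ i ∈ (s : Finset (Fin n)), (ν i - ν k) < ∑ i ∈ (s0 : Finset (Fin n)), (ν i - ν k) := by
    rw [← Finset.sum_inter_add_sum_sdiff (s : Finset (Fin n)) (s0 : Finset (Fin n))]
    have h2 : ∑ i ∈ (s : Finset (Fin n)) ∩ s0, (ν i - ν k) ≤
        ∑ i ∈ (s0 : Finset (Fin n)), (ν i - ν k) :=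
      Finset.sum_le_sum_of_subset_of_nonneg Finset.inter_subset_right fun i hi _ =>
        sub_nonneg.mpr (hmono ((hs0 i).mp hi))
    have h3 : ∑ i ∈ (s : Finset (Fin n)) \ s0, (ν i - ν k) < 0 := by
      obtain ⟨i, hi, hik⟩ := hs
      refine Finset.sum_neg (fun l hl => ?_) ⟨i, ?_⟩
      · rw [Finset.mem_sdiff, hs0, not_le] at hl
        exact sub_neg.mpr (hgap l hl.2)
      · rw [Finset.mem_sdiff, hs0, not_le]
        exact ⟨hi, hik⟩
    linarith
  rw [Finset.sum_sub_distrib, Finset.sum_sub_distrib, Finset.sum_const, Finset.sum_const, hc1,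
    hc2] at h1
  linarith

/-- SL7. Every span at a gap of the slopes is constant along `U`. -/
theorem gap_const {n : ℕ} {F : Frm K (Fin n)} {c : Pl K → Fin n → ℝ} (hc : ExpS F.S c)
    (hd : deg c = 0) {U : Ultrafilter ℕ} {t : ℕ → ℝ}
    (ht : Filter.Tendsto t (U : Filter ℕ) Filter.atTop)
    {x : ℕ → Fin n → Fin n → K} {ν : Fin n → ℝ} (h : Slopes F c U t x ν)
    (k : Fin n) (hk : 0 < (k : ℕ)) (hgap : ∀ l' < k, ν l' < ν k) :
    ∃ W : Submodule K (Fin n → K), ∀ᶠ j in (U : Filter ℕ),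
      Submodule.span K (x j '' {l' | l' < k}) = W := by
  classical
  obtain ⟨p, hp⟩ : ∃ p, (k : ℕ) + p = n := ⟨n - k, by omega⟩
  have hp0 : 0 < p := by have := k.2; omega
  have hn0 : 0 < n := by omega
  have hnt : Nontrivial (powersetCard (Fin n) p) :=
    Set.powersetCard.nontrivial' hp0 (by rw [Nat.card_eq_fintype_card, Fintype.card_fin]; omega)
  obtain ⟨N, hN⟩ : ∃ N, Fintype.card (powersetCard (Fin n) p) = N + 2 := by
    have h1 := Fintype.one_lt_card (α := powersetCard (Fin n) p)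
    exact ⟨Fintype.card (powersetCard (Fin n) p) - 2, by omega⟩
  let e0 : Fin (N + 2) ≃ powersetCard (Fin n) p := (Fintype.equivFinOfCardEq hN).symm
  let νs : powersetCard (Fin n) p → ℝ := fun s =>
    ∑ a : Fin p, ν (Set.powersetCard.ofFinEmbEquiv.symm s a)
  let e : Fin (N + 2) ≃ powersetCard (Fin n) p := (Tuple.sort (νs ∘ e0)).trans e0
  have hmono : Monotone (νs ∘ e) := Tuple.monotone_sort (νs ∘ e0)
  -- the top set
  have hcard0 : (univ.filter fun i : Fin n => k ≤ i).card = p := by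
    have h1 : (univ.filter fun i : Fin n => k ≤ i) = Finset.Ici k := by
      ext i; simp
    rw [h1, Fin.card_Ici]
    omega
  let s0 : powersetCard (Fin n) p := ⟨univ.filter fun i : Fin n => k ≤ i, hcard0⟩
  have hs0 : ∀ i, i ∈ (s0 : Finset (Fin n)) ↔ k ≤ i := by
    intro i
    change i ∈ (univ.filter fun i : Fin n => k ≤ i) ↔ _
    simp
  have hne : ∀ s : powersetCard (Fin n) p, s ≠ s0 ↔ ∃ i ∈ (s : Finset (Fin n)), i < k := by
    intro s
    constructor
    · intro hs
      by_contra hcon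
      push Not at hcon
      apply hs
      apply Subtype.ext
      refine Finset.eq_of_subset_of_card_le (fun i hi => (hs0 i).mpr (hcon i hi)) ?_
      rw [show (s0 : Finset (Fin n)).card = p from s0.2, show (s : Finset (Fin n)).card = p from s.2]
    · rintro ⟨i, hi, hik⟩ rfl
      exact absurd ((hs0 i).mp hi) (not_le.mpr hik)
  have hlt : ∀ s, s ≠ s0 → νs s < νs s0 := by
    intro s hs
    change ∑ a : Fin p, ν _ < ∑ a : Fin p, ν _
    rw [sum_em, sum_em]
    exact sum_lt_top k hp0 ν h.mono hgap s s0 hs0 ((hne s).mp hs)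
  have hlast : e (Fin.last (N + 1)) = s0 := by
    by_contra hcon
    have h1 := hlt _ hcon
    have h2 : νs s0 ≤ νs (e (Fin.last (N + 1))) := by
      have := hmono (Fin.le_last (e.symm s0))
      simpa using this
    exact absurd h1 (not_lt.mpr h2)
  -- the compound system
  have hc' : ExpS (cmpF p F).S (cmpE p c) := cmpE_expS p hc
  obtain ⟨B, hB⟩ := sum_cmp n p hn0
  have hdeg' : deg (cmpE p c) = 0 := by
    have h1 : (fun v : Pl K => ∑ s : powersetCard (Fin n) p, cmpE p c v s) =
        fun v => B * ∑ i, c v i := by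
      funext v
      exact hB (c v)
    have h2 : gsum (fun v : Pl K => ∑ i, c v i) = 0 := hd
    unfold deg
    rw [h1, gsum_const_mul, h2, mul_zero]
  obtain ⟨x', ν', hS⟩ := slopes_exist hN (cmpF p F) (cmpE p c) hc' U t ht
  let z : ℕ → Fin (N + 2) → powersetCard (Fin n) p → K := fun j l =>
    wdg (fun a => x j (Set.powersetCard.ofFinEmbEquiv.symm (e l) a))
  have hz : ∀ᶠ j in (U : Filter ℕ), LinearIndependent K (z j) := by
    filter_upwards [h.indep] with j hj
    exact (wdg_indep p hj).comp e e.injective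
  have hup : ∀ ε : ℝ, 0 < ε → ∀ l, ∀ᶠ j in (U : Filter ℕ),
      tH (cmpF p F) (sc (t j) (cmpE p c)) (z j l) ≤ ((νs ∘ e) l + ε) * t j := by
    intro ε hε l
    have hpR : (0 : ℝ) < p := by exact_mod_cast hp0
    have h1 : ∀ᶠ j in (U : Filter ℕ), ∀ i, Bb F (sc (t j) (rai c (ν i + ε / (2 * p)))) (x j i) :=
      Filter.eventually_all.mpr fun i => h.upper (ε / (2 * p)) (by positivity) i
    filter_upwards [h1, hz, ht.eventually_ge_atTop
      (2 * (Module.finrank ℚ K * Real.log (p.factorial : ℝ)) / ε)] with j hj hzj htj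
    have h2 := tH_wdg_le hc (fun a => ν (Set.powersetCard.ofFinEmbEquiv.symm (e l) a) + ε / (2 * p))
      (fun a => x j (Set.powersetCard.ofFinEmbEquiv.symm (e l) a)) (fun a => hj _) (hzj.ne_zero l)
    refine h2.trans ?_
    rw [Finset.sum_add_distrib, Finset.sum_const, Finset.card_univ, Fintype.card_fin, nsmul_eq_mul]
    have h3 : (p : ℝ) * (ε / (2 * p)) = ε / 2 := by field_simp
    rw [h3]
    rw [div_le_iff₀ hε] at htj
    change _ ≤ (νs (e l) + ε) * t j
    change _ + t j * (νs (e l) + ε / 2) ≤ _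
    nlinarith
  have hsum : ∑ l, (νs ∘ e) l ≤ -deg (cmpE p c) := by
    rw [hdeg', neg_zero]
    have h1 : ∑ l, (νs ∘ e) l = ∑ s, νs s := Equiv.sum_comp e νs
    have h2 : ∑ s, νs s = B * ∑ i, ν i := hB ν
    rw [h1, h2, h.sum, hd, neg_zero, mul_zero]
  obtain ⟨hνeq, hgaps⟩ := hS.compare hc' ht z (νs ∘ e) hmono hz hup hsum
  have hgap' : ∀ l' < Fin.last (N + 1), ν' l' < ν' (Fin.last (N + 1)) := by
    intro l' hl'
    rw [← hνeq]
    change νs (e l') < νs (e (Fin.last (N + 1)))
    rw [hlast]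
    refine hlt _ fun hcon => ?_
    rw [← hlast] at hcon
    exact hl'.ne (e.injective hcon)
  obtain ⟨W', hW'⟩ := last_const hc' hdeg' ht hS hgap'
  have hall := (hgaps (Fin.last (N + 1)) hgap').and (hW'.and h.indep)
  obtain ⟨j0, hj0⟩ := hall.exists
  refine ⟨Submodule.span K (x j0 '' {l' | l' < k}), ?_⟩
  have himg : ∀ j, z j '' {l' | l' < Fin.last (N + 1)} =
      (fun s : powersetCard (Fin n) p =>
        wdg (fun i => x j (Set.powersetCard.ofFinEmbEquiv.symm s i))) ''
          {s | ∃ i ∈ (s : Finset (Fin n)), (i : ℕ) < k} := by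
    intro j
    ext w
    constructor
    · rintro ⟨l, hl, rfl⟩
      refine ⟨e l, ?_, rfl⟩
      have h1 : e l ≠ s0 := fun hcon => by
        rw [← hlast] at hcon
        exact (show l < Fin.last (N + 1) from hl).ne (e.injective hcon)
      exact (hne _).mp h1
    · rintro ⟨s, hs, rfl⟩
      refine ⟨e.symm s, ?_, by simp [z]⟩
      have h1 : s ≠ s0 := (hne s).mpr hs
      change e.symm s < Fin.last (N + 1)
      refine lt_of_le_of_ne (Fin.le_last _) fun hcon => h1 ?_
      rw [← hlast, ← hcon, Equiv.apply_symm_apply]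
  filter_upwards [hall] with j hj
  refine span_of_wdg hp hp0 hj.2.2 hj0.2.2 ?_
  rw [← himg, ← himg, hj.1, hj0.1, hj.2.1, hj0.2.1]

end Pool.Agent.V2
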