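import Mathlib
import Pool.Agent.Helper21.V2.SL7
import Pool.Agent.Helper21.V2.SL2

/-!
# SL8: the subspace theorem, ultrafilter form
-/

namespace Pool.Agent.V2

open NumberField Finset
open Pool.Agent.Helper64.Vojta (Pl nv)

variable {K : Type*} [Field K] [NumberField K] {ι : Type*} [Fintype ι] [DecidableEq ι]

/-- SL8. The subspace theorem, ultrafilter form. -/
theorem subspace {n : ℕ} (F : Frm K (Fin n)) (c : Pl K → Fin n → ℝ) (hc : ExpS F.S c)
    (hd : deg c = 0)
    (U : Ultrafilter ℕ) (t : ℕ → ℝ) (ht : Filter.Tendsto t (U : Filter ℕ) Filter.atTop)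
    (δ : ℝ) (hδ : 0 < δ) (y : ℕ → Fin n → K)
    (hy : ∀ᶠ j in (U : Filter ℕ), y j ≠ 0 ∧ tH F (sc (t j) c) (y j) ≤ -δ * t j) :
    ∃ W : Submodule K (Fin n → K), W ≠ ⊤ ∧ ∀ᶠ j in (U : Filter ℕ), y j ∈ W := by
  obtain ⟨x, ν, h⟩ := slopes_exist (Fintype.card_fin n) F c hc U t ht
  rcases Nat.eq_zero_or_pos n with hn | hn
  · subst hn
    obtain ⟨j, hj, -⟩ := hy.exists
    exact absurd (Subsingleton.elim _ _) hj
  -- some slope is > -δ
  have hex : ∃ l, -δ < ν l := by
    by_contra hcon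
    push Not at hcon
    have h1 := h.sum
    rw [hd, neg_zero] at h1
    have h2 : ∑ l, ν l ≤ ∑ _l : Fin n, -δ := Finset.sum_le_sum fun l _ => hcon l
    rw [h1, Finset.sum_const, Finset.card_univ, Fintype.card_fin, nsmul_eq_mul] at h2
    have h3 : (0 : ℝ) < n := by exact_mod_cast hn
    nlinarith
  obtain ⟨k, hk, hmin⟩ : ∃ k, -δ < ν k ∧ ∀ l < k, ν l ≤ -δ := by
    obtain ⟨l, hl⟩ := hex
    have hwf : WellFounded ((· < ·) : Fin n → Fin n → Prop) := wellFounded_lt
    refine ⟨hwf.min {l | -δ < ν l} ⟨l, hl⟩, hwf.min_mem {l | -δ < ν l} ⟨l, hl⟩, ?_⟩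
    intro l' hl'
    by_contra hcon
    push Not at hcon
    exact hwf.not_lt_min {l | -δ < ν l} hcon hl'
  have hgap : ∀ l' < k, ν l' < ν k := fun l' hl' => (hmin l' hl').trans_lt hk
  have hin : ∀ᶠ j in (U : Filter ℕ), y j ∈ Submodule.span K (x j '' {l' | l' < k}) := by
    filter_upwards [h.lower ((ν k + δ) / 2) (by linarith) k, hy, ht.eventually_gt_atTop 0]
      with j h1 h2 h3
    by_contra hcon
    have h4 := h1 (y j) hcon
    have h5 := h2.2
    nlinarith
  have hk0 : 0 < (k : ℕ) := by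
    rcases Nat.eq_zero_or_pos (k : ℕ) with h0 | h0
    · exfalso
      obtain ⟨j, hj1, hj2, -⟩ := (hin.and hy).exists
      have hem : {l' : Fin n | l' < k} = ∅ := by
        ext l'
        simp only [Set.mem_setOf_eq, Set.mem_empty_iff_false, iff_false, not_lt]
        rw [Fin.le_def, h0]
        exact Nat.zero_le _
      rw [hem, Set.image_empty, Submodule.span_empty, Submodule.mem_bot] at hj1
      exact hj2 hj1
    · exact h0
  obtain ⟨W, hW⟩ := gap_const hc hd ht h k hk0 hgap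
  refine ⟨W, ?_, ?_⟩
  · rintro rfl
    obtain ⟨j, hj1, hj2⟩ := (hW.and h.indep).exists
    have h1 : x j k ∈ Submodule.span K (x j '' {l' | l' < k}) := by rw [hj1]; trivial
    refine hj2.notMem_span_image (s := {l' | l' < k}) (x := k) ?_ h1
    simp
  · filter_upwards [hin, hW] with j h1 h2
    rw [← h2]
    exact h1

end Pool.Agent.V2
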