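import Pool.Agent.Helper21.V2.Defs2
import Pool.Agent.Helper21.V2.BA
import Pool.Agent.Helper21.V2.BB
import Pool.Agent.Helper21.V2.M0
import Pool.Agent.Helper21.V2.AR1
import Pool.Agent.Helper21.V2.SL8

/-!
# Block AR5: the subspace inequality for the limits of Weil functions
-/

namespace Pool.Agent.V2

open NumberField Filter MvPolynomial
open Pool.Agent.Helper64.Vojta (Pl nv nv_mul nv_nonneg nv_zero nv_pos nv_one)

set_option linter.unusedVariables false
set_option linter.unusedSectionVars false

variable {k : Type*} [Field k] [NumberField k]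






/-! ### sums over finitely many places -/

theorem AR5.gsum_supp (T : Finset (Pl k)) (f : Pl k → ℝ) (h : ∀ v, v ∉ T → f v = 0) :
    gsum f = ∑ v ∈ T, f v := by
  classical
  unfold gsum
  have h1 : ∑ v : InfinitePlace k, f (.inl v) = ∑ v ∈ T.toLeft, f (.inl v) := by
    symm
    refine Finset.sum_subset (Finset.subset_univ _) fun v _ hv => ?_
    exact h _ fun hcon => hv (Finset.mem_toLeft.mpr hcon)
  have h2 : ∑ᶠ v : FinitePlace k, f (.inr v) = ∑ v ∈ T.toRight, f (.inr v) := by
    refine finsum_eq_sum_of_support_subset _ fun v hv => ?_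
    by_contra hcon
    exact hv (h _ fun hc => hcon (Finset.mem_coe.mpr (Finset.mem_toRight.mpr hc)))
  rw [h1, h2]
  conv_rhs => rw [← Finset.toLeft_disjSum_toRight (u := T)]
  rw [Finset.sum_disjSum]

theorem AR5.finS_supp (T : Finset (Pl k)) (f : Pl k → ℝ) (h : ∀ v, v ∉ T → f v = 0) : FinS f := by
  refine Set.Finite.subset T.toRight.finite_toSet fun v hv => ?_
  by_contra hcon
  exact hv (h _ fun hc => hcon (Finset.mem_coe.mpr (Finset.mem_toRight.mpr hc)))

/-! ### local bounds -/

theorem AR5.nv_pow (v : Pl k) (x : k) (n : ℕ) : nv v (x ^ n) = nv v x ^ n := by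
  induction n with
  | zero => simp [nv_one]
  | succ n ih => rw [pow_succ, pow_succ, nv_mul, ih]

theorem AR5.vn_nonneg {κ : Type*} (v : Pl k) (x : κ → k) : 0 ≤ vn v x :=
  Real.iSup_nonneg fun _ => nv_nonneg _ _

theorem AR5.local_bound (s : MvPolynomial (Fin 3) k) (N : ℕ) (hs : s.IsHomogeneous N) :
    ∃ B : Pl k → ℝ, (∀ v, 0 ≤ B v) ∧ FinS B ∧
      ∀ v x, nv v (eval x s) ≤ Real.exp (B v) * vn v x ^ N := by
  classical
  by_cases h0 : s = 0
  · refine ⟨fun _ => 0, fun _ => le_rfl, FinS.zero, fun v x => ?_⟩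
    rw [h0, map_zero, nv_zero]
    have := AR5.vn_nonneg v x
    positivity
  have hp : ∀ v, 0 < pn v s := fun v => pn_pos v h0
  have hcard : 1 ≤ s.support.card := Finset.card_pos.mpr (MvPolynomial.support_nonempty.mpr h0)
  have hcard' : (1 : ℝ) ≤ s.support.card := by exact_mod_cast hcard
  have hlogc : 0 ≤ Real.log s.support.card := Real.log_nonneg hcard'
  refine ⟨fun v => match v with
    | .inl w => w.mult * Real.log s.support.card + max 0 (Real.log (pn (.inl w) s))
    | .inr w => max 0 (Real.log (pn (.inr w) s)), ?_, ?_, ?_⟩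
  · rintro (w | w)
    · show 0 ≤ (w.mult : ℝ) * Real.log s.support.card + max 0 (Real.log (pn (.inl w) s))
      have := le_max_left 0 (Real.log (pn (.inl w) s))
      positivity
    · exact le_max_left _ _
  · refine Set.Finite.subset (finS_pn h0) fun v hv => ?_
    rw [Function.mem_support] at hv ⊢
    intro hcon
    apply hv
    have hcon' : Real.log (pn (.inr v) s) = 0 := hcon
    show max 0 (Real.log (pn (.inr v) s)) = 0
    rw [hcon']; simp
  · intro v x
    have hvn := AR5.vn_nonneg v x
    have hterm : ∀ d ∈ s.support, nv v (s.coeff d * ∏ i, x i ^ d i) ≤ pn v s * vn v x ^ N := by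
      intro d hd
      rw [nv_mul]
      refine mul_le_mul (le_pn v s d) ?_ (nv_nonneg _ _) (hp v).le
      rw [nv_prod]
      have hdeg : ∑ i, d i = N := by
        have := hs (MvPolynomial.mem_support_iff.mp hd)
        rw [← this, Finsupp.weight_apply, Finsupp.sum_fintype _ _ (by simp)]
        simp
      rw [← hdeg, ← Finset.prod_pow_eq_pow_sum]
      refine Finset.prod_le_prod (fun i _ => nv_nonneg _ _) fun i _ => ?_
      rw [AR5.nv_pow]
      exact pow_le_pow_left₀ (nv_nonneg _ _) (le_vn v x i) _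
    have hev : eval x s = ∑ d ∈ s.support, s.coeff d * ∏ i, x i ^ d i := by
      rw [MvPolynomial.eval_eq']
    have hpe : pn v s ≤ Real.exp (max 0 (Real.log (pn v s))) := by
      calc pn v s = Real.exp (Real.log (pn v s)) := (Real.exp_log (hp v)).symm
        _ ≤ _ := Real.exp_le_exp.mpr (le_max_right _ _)
    rcases v with w | w
    · show nv (.inl w) (eval x s) ≤ Real.exp (w.mult * Real.log s.support.card +
        max 0 (Real.log (pn (.inl w) s))) * vn (.inl w) x ^ N
      rw [hev]
      have hB : 0 ≤ pn (.inl w) s * vn (.inl w) x ^ N := mul_nonneg (hp _).le (pow_nonneg hvn _)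
      refine (nv_sum_inl w _ _ hB hterm).trans ?_
      rw [Real.exp_add, Real.exp_nat_mul, Real.exp_log (by linarith), mul_assoc]
      refine mul_le_mul_of_nonneg_left ?_ (by positivity)
      exact mul_le_mul_of_nonneg_right hpe (pow_nonneg hvn _)
    · show nv (.inr w) (eval x s) ≤ Real.exp (max 0 (Real.log (pn (.inr w) s))) *
        vn (.inr w) x ^ N
      rw [hev]
      have hB : 0 ≤ pn (.inr w) s * vn (.inr w) x ^ N := mul_nonneg (hp _).le (pow_nonneg hvn _)
      refine (nv_sum_inr w _ _ hB hterm).trans ?_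
      exact mul_le_mul_of_nonneg_right hpe (pow_nonneg hvn _)

/-- AR5. from the subspace theorem (V2.subspace) -/
theorem SU_lw (U : Ultrafilter ℕ) (F : ℕ → Fin 3 → k) (hF : ∀ n, F n ≠ 0)
    (hH : Tendsto (fun n => vH (F n)) (U : Filter ℕ) atTop) (T : Finset (Pl k)) :
    SU (Null U F) (fun v : T => lw U F v) := by
  classical
  intro N m s hs hind hspan
  by_contra hcon
  push Not at hcon
  set lam : T → Fin m → ℝ := fun t i => lw U F t (s t i) with hlam
  set σ : ℝ := ∑ t, ∑ i, lam t i with hσ
  have hσN : (m : ℝ) * N < σ := hcon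
  -- T and m are nonempty
  have hm : 0 < m := by
    rcases Nat.eq_zero_or_pos m with h | h
    · subst h
      simp [hσ] at hσN
    · exact h
  have hTne : Nonempty T := by
    by_contra h
    rw [not_nonempty_iff] at h
    have : σ = 0 := by rw [hσ]; simp
    rw [this] at hσN
    have : (0 : ℝ) ≤ (m : ℝ) * N := by positivity
    linarith
  obtain ⟨t0⟩ := hTne
  have hTc : 0 < T.card := Finset.card_pos.mpr ⟨t0.1, t0.2⟩
  have hm' : (0 : ℝ) < m := by exact_mod_cast hm
  have hTc' : (0 : ℝ) < T.card := by exact_mod_cast hTc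
  choose A hA using hspan
  -- members of the bases are not null
  have hnn : ∀ t i, ¬ Null U F (s t i) := by
    intro t i h
    apply hind t (Pi.single i 1) (by
      intro h0
      have := congrFun h0 i
      simp at this)
    have : ∑ j, C ((Pi.single i 1 : Fin m → k) j) * s t j = s t i := by
      rw [Finset.sum_eq_single i]
      · simp
      · intro j _ hj; simp [hj]
      · simp
    rw [this]
    exact h
  have hnz : ∀ t i, ∀ᶠ j in (U : Filter ℕ), eval (F j) (s t i) ≠ 0 := fun t i =>
    Ultrafilter.eventually_not.mpr (hnn t i)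
  -- the matrices
  have hdet : ∀ t, (Matrix.of (A t t0)).det ≠ 0 := by
    intro t h
    obtain ⟨a, ha, haM⟩ := Matrix.exists_vecMul_eq_zero_iff.mpr h
    apply hind t a ha
    have h1 : ∀ᶠ j in (U : Filter ℕ), ∀ i, eval (F j) (s t i - ∑ l, C (A t t0 i l) * s t0 l) = 0 :=
      Filter.eventually_all.mpr fun i => hA t t0 i
    show ∀ᶠ j in (U : Filter ℕ), eval (F j) (∑ i, C (a i) * s t i) = 0
    filter_upwards [h1] with j hj
    have h2 : ∀ i, eval (F j) (s t i) = ∑ l, A t t0 i l * eval (F j) (s t0 l) := by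
      intro i
      have := hj i
      rw [map_sub, sub_eq_zero] at this
      rw [this, map_sum]
      simp
    rw [map_sum]
    simp only [map_mul, eval_C]
    simp_rw [h2, Finset.mul_sum]
    rw [Finset.sum_comm]
    refine Finset.sum_eq_zero fun l _ => ?_
    have h3 := congrFun haM l
    simp only [Matrix.vecMul, dotProduct, Matrix.of_apply, Pi.zero_apply] at h3
    calc ∑ i, a i * (A t t0 i l * eval (F j) (s t0 l))
        = (∑ i, a i * A t t0 i l) * eval (F j) (s t0 l) := by
          rw [Finset.sum_mul]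
          exact Finset.sum_congr rfl fun i _ => by ring
      _ = 0 := by rw [h3, zero_mul]
  let Fr : Frm k (Fin m) :=
    { S := T.toRight
      L := fun v => if h : v ∈ T then Matrix.of (A ⟨v, h⟩ t0) else 1
      hL := fun v => by
        by_cases h : v ∈ T
        · simp only [h, dite_true]; exact hdet _
        · simp only [h, dite_false]; simp
      hS := fun v hv => by
        have h : Sum.inr v ∉ T := fun h => hv (Finset.mem_toRight.mpr h)
        simp only [h, dite_false] }
  let c : Pl k → Fin m → ℝ := fun v i =>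
    if h : v ∈ T then -lam ⟨v, h⟩ i + σ / (m * T.card) else 0
  have hcT : ∀ v (h : v ∈ T) i, c v i = -lam ⟨v, h⟩ i + σ / (m * T.card) := fun v h i => by
    simp only [c, h, dite_true]
  have hcN : ∀ v, v ∉ T → ∀ i, c v i = 0 := fun v h i => by simp only [c, h, dite_false]
  have hFT : ∀ v (h : v ∈ T), Fr.L v = Matrix.of (A ⟨v, h⟩ t0) := fun v h => by
    simp only [Fr, h, dite_true]
  have hFN : ∀ v, v ∉ T → Fr.L v = 1 := fun v h => by simp only [Fr, h, dite_false]
  have hcE : ExpS Fr.S c := fun v hv => by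
    have h : Sum.inr v ∉ T := fun h => hv (Finset.mem_toRight.mpr h)
    funext i
    exact hcN _ h i
  have hdeg : deg c = 0 := by
    unfold deg
    rw [AR5.gsum_supp T _ fun v hv => Finset.sum_eq_zero fun i _ => hcN v hv i, ← Finset.sum_coe_sort]
    have h1 : ∀ v : T, ∑ i, c v i = -(∑ i, lam v i) + σ / T.card := by
      intro v
      simp_rw [hcT v.1 v.2]
      rw [Finset.sum_add_distrib, Finset.sum_neg_distrib, Finset.sum_const, Finset.card_univ,
        Fintype.card_fin, nsmul_eq_mul]
      congr 1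
      field_simp
    rw [Finset.sum_congr rfl fun v _ => h1 v, Finset.sum_add_distrib, Finset.sum_neg_distrib,
      ← hσ, Finset.sum_const, Finset.card_univ, Fintype.card_coe, nsmul_eq_mul]
    field_simp
    ring
  -- the points
  let y : ℕ → Fin m → k := fun j i => eval (F j) (s t0 i)
  choose B hB0 hBf hB using fun i => AR5.local_bound (s t0 i) N (hs t0 i)
  let BB : Pl k → ℝ := fun v => ∑ i, B i v
  have hBBf : FinS BB := FinS.sum Finset.univ fun i _ => hBf i
  have hBB0 : ∀ v, 0 ≤ BB v := fun v => Finset.sum_nonneg fun i _ => hB0 i v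
  have hBBle : ∀ i v, B i v ≤ BB v := fun i v =>
    Finset.single_le_sum (f := fun i => B i v) (fun i _ => hB0 i v) (Finset.mem_univ i)
  set κ : ℝ := σ / m - N with hκ
  have hκ0 : 0 < κ := by
    rw [hκ, sub_pos, lt_div_iff₀ hm']
    linarith
  set ε : ℝ := κ / (4 * T.card) with hε
  have hε0 : 0 < ε := by positivity
  -- eventual statements
  have e1 : ∀ᶠ j in (U : Filter ℕ), ∀ v : T, ∀ i,
      eval (F j) (s v i - ∑ l, C (A v t0 i l) * s t0 l) = 0 :=
    Filter.eventually_all.mpr fun v => Filter.eventually_all.mpr fun i => hA v t0 i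
  have e2 : ∀ᶠ j in (U : Filter ℕ), ∀ v : T, ∀ i, eval (F j) (s v i) ≠ 0 :=
    Filter.eventually_all.mpr fun v => Filter.eventually_all.mpr fun i => hnz v i
  have e3 : ∀ᶠ j in (U : Filter ℕ), ∀ v : T, ∀ i,
      lam v i - ε < wf v N (s v i) (F j) / vH (F j) :=
    Filter.eventually_all.mpr fun v => Filter.eventually_all.mpr fun i =>
      (lw_tendsto U F hF hH v (s v i) N (hs v i) (hnn v i)).eventually_const_lt (by
        show lam v i - ε < lw U F v (s v i)
        have : lam v i = lw U F v (s v i) := rfl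
        linarith)
  have e4 : ∀ᶠ j in (U : Filter ℕ), 1 ≤ vH (F j) := hH.eventually_ge_atTop 1
  have e5 : ∀ᶠ j in (U : Filter ℕ), 4 * gsum BB / κ ≤ vH (F j) := hH.eventually_ge_atTop _
  have hmain : ∀ᶠ j in (U : Filter ℕ), y j ≠ 0 ∧
      tH Fr (sc (vH (F j)) c) (y j) ≤ -(κ / 2) * vH (F j) := by
    filter_upwards [e1, e2, e3, e4, e5] with j h1 h2 h3 h4 h5
    have hy : y j ≠ 0 := fun h => h2 t0 ⟨0, hm⟩ (congrFun h ⟨0, hm⟩)
    refine ⟨hy, ?_⟩
    have hj0 : 0 < vH (F j) := by linarith
    rw [div_le_iff₀ hκ0] at h5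
    have hvn : ∀ v, 0 < vn v (F j) := fun v => vn_pos v (hF j)
    -- local bounds
    have hloc : ∀ v, Real.log (tn Fr (sc (vH (F j)) c) v (y j)) ≤
        N * Real.log (vn v (F j)) + (BB v +
          (if v ∈ T then (ε - σ / (m * T.card)) * vH (F j) else 0)) := by
      intro v
      rw [Real.log_le_iff_le_exp (tn_pos _ _ _ hy)]
      refine tn_le _ _ _ _ (Real.exp_pos _).le fun i => ?_
      by_cases hv : v ∈ T
      · rw [if_pos hv, hFT v hv]
        have h6 : Matrix.mulVec (Matrix.of (A ⟨v, hv⟩ t0)) (y j) i =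
            eval (F j) (s ⟨v, hv⟩ i) := by
          have h7 := h1 ⟨v, hv⟩ i
          rw [map_sub, sub_eq_zero, map_sum] at h7
          rw [h7]
          simp [Matrix.mulVec, dotProduct, y]
        rw [h6]
        have h7 := h2 ⟨v, hv⟩ i
        have h8 := h3 ⟨v, hv⟩ i
        rw [lt_div_iff₀ hj0] at h8
        have h9 : sc (vH (F j)) c v i = vH (F j) * (-lam ⟨v, hv⟩ i + σ / (m * T.card)) := by
          show vH (F j) * c v i = _
          rw [hcT v hv]
        rw [h9, ← Real.exp_log (nv_pos v h7), ← Real.exp_add]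
        apply Real.exp_le_exp.mpr
        unfold wf at h8
        have h10 := hBB0 v
        have h11 : vH (F j) * (-lam ⟨v, hv⟩ i + σ / (m * T.card)) =
            -(lam ⟨v, hv⟩ i * vH (F j)) + σ / (m * T.card) * vH (F j) := by ring
        rw [h11]
        have h12 : (lam ⟨v, hv⟩ i - ε) * vH (F j) = lam ⟨v, hv⟩ i * vH (F j) - ε * vH (F j) := by
          ring
        rw [h12] at h8
        have h13 : (ε - σ / (m * T.card)) * vH (F j) =
            ε * vH (F j) - σ / (m * T.card) * vH (F j) := by ring
        rw [h13]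
        linarith
      · rw [if_neg hv, hFN v hv, Matrix.one_mulVec]
        have h9 : sc (vH (F j)) c v i = 0 := by
          show vH (F j) * c v i = _
          rw [hcN v hv, mul_zero]
        rw [h9, neg_zero, Real.exp_zero, mul_one]
        refine (hB i v (F j)).trans ?_
        rw [add_zero, Real.exp_add, Real.exp_nat_mul, Real.exp_log (hvn v), mul_comm]
        refine mul_le_mul_of_nonneg_left ?_ (pow_nonneg (hvn v).le _)
        exact Real.exp_le_exp.mpr (hBBle i v)
    have hfT : FinS (fun v : Pl k =>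
        (if v ∈ T then (ε - σ / (m * T.card)) * vH (F j) else 0)) :=
      AR5.finS_supp T _ fun v hv => if_neg hv
    have hg := gsum_mono (finS_tn Fr (sc (vH (F j)) c) (hcE.sc _) hy)
      (((finS_vn (hF j)).const_mul (N : ℝ)).add (hBBf.add hfT)) hloc
    rw [gsum_add ((finS_vn (hF j)).const_mul (N : ℝ)) (hBBf.add hfT), gsum_add hBBf hfT,
      gsum_const_mul, AR5.gsum_supp T _ (fun v hv => if_neg hv)] at hg
    have h6 : ∑ v ∈ T, (if v ∈ T then (ε - σ / (m * T.card)) * vH (F j) else 0) =
        (κ / 4 - σ / m) * vH (F j) := by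
      rw [Finset.sum_congr rfl fun v hv => if_pos hv, Finset.sum_const, nsmul_eq_mul, hε]
      field_simp
    rw [h6] at hg
    have h7 : gsum (fun v => Real.log (vn v (F j))) = vH (F j) := rfl
    rw [h7] at hg
    have h8 : tH Fr (sc (vH (F j)) c) (y j) =
        gsum (fun v => Real.log (tn Fr (sc (vH (F j)) c) v (y j))) := rfl
    rw [h8]
    refine hg.trans ?_
    have h9 : σ / m = κ + N := by rw [hκ]; ring
    rw [h9]
    nlinarith
  obtain ⟨W, hW, hyW⟩ := subspace Fr c hcE hdeg U (fun j => vH (F j)) hH (κ / 2) (by positivity) y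
    hmain
  obtain ⟨f, hf0, hfW⟩ := Submodule.exists_le_ker_of_lt_top W (lt_top_iff_ne_top.mpr hW)
  have hfy : ∀ z : Fin m → k, f z = ∑ i, f (Pi.single i 1) * z i := by
    intro z
    conv_lhs => rw [pi_eq_sum_univ' z]
    rw [map_sum]
    refine Finset.sum_congr rfl fun i _ => ?_
    rw [map_smul, smul_eq_mul, mul_comm]
  apply hind t0 (fun i => f (Pi.single i 1))
  · intro h0
    apply hf0
    apply LinearMap.ext
    intro z
    rw [hfy z]
    simp only [LinearMap.zero_apply]
    exact Finset.sum_eq_zero fun i _ => by rw [congrFun h0 i]; simp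
  · show ∀ᶠ j in (U : Filter ℕ), eval (F j) (∑ i, C (f (Pi.single i 1)) * s t0 i) = 0
    filter_upwards [hyW] with j hj
    have h1 := hfy (y j)
    have h2 : f (y j) = 0 := LinearMap.mem_ker.mp (hfW hj)
    rw [h2] at h1
    rw [map_sum]
    simp only [map_mul, eval_C]
    exact h1.symm

end Pool.Agent.V2
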