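import Pool.Agent.Helper21.V2.BB
import Pool.Agent.Helper21.V2.Defs2

/-!
# Block AR6: the Zariski closure along an ultrafilter is the plane or an irreducible curve
-/

namespace Pool.Agent.V2

open NumberField Filter MvPolynomial
open Pool.Agent.Helper64.Vojta (Pl nv)

section AR6elim

/-- Elimination: an irreducible polynomial and a polynomial not divisible by it. -/
theorem elim_C {R : Type*} [CommRing R] [IsDomain R] [UniqueFactorizationMonoid R]
    (f g : Polynomial R) (hf : Irreducible f) (hg : ¬ f ∣ g) :
    ∃ (r : R) (a b : Polynomial R), r ≠ 0 ∧ a * f + b * g = Polynomial.C r := by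
  classical
  by_cases h0 : f.natDegree = 0
  · obtain ⟨r, rfl⟩ := Polynomial.natDegree_eq_zero.mp h0
    refine ⟨r, 1, 0, ?_, by simp⟩
    rintro rfl
    exact hf.ne_zero (by simp)
  · have hp := hf.isPrimitive h0
    let K := FractionRing R
    have h1 : Irreducible (f.map (algebraMap R K)) :=
      hp.irreducible_iff_irreducible_map_fraction_map.mp hf
    have h2 : ¬ f.map (algebraMap R K) ∣ g.map (algebraMap R K) :=
      fun h => hg (hp.dvd_of_fraction_map_dvd_fraction_map h)
    obtain ⟨a, b, hab⟩ := (h1.coprime_iff_not_dvd).mpr h2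
    obtain ⟨c, hc, hc'⟩ := IsLocalization.integerNormalization_spec (nonZeroDivisors R) a
    obtain ⟨d, hd, hd'⟩ := IsLocalization.integerNormalization_spec (nonZeroDivisors R) b
    refine ⟨c * d, Polynomial.C d * IsLocalization.integerNormalization (nonZeroDivisors R) a,
      Polynomial.C c * IsLocalization.integerNormalization (nonZeroDivisors R) b,
      mul_ne_zero (nonZeroDivisors.ne_zero hc) (nonZeroDivisors.ne_zero hd), ?_⟩
    apply Polynomial.map_injective (algebraMap R K) (IsFractionRing.injective R K)
    simp only [Polynomial.map_add, Polynomial.map_mul, Polynomial.map_C, hc', hd', map_mul]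
    rw [Algebra.smul_def, Algebra.smul_def, Polynomial.algebraMap_apply,
      Polynomial.algebraMap_apply]
    calc _ = Polynomial.C (algebraMap R K c) * Polynomial.C (algebraMap R K d) *
        (a * f.map (algebraMap R K) + b * g.map (algebraMap R K)) := by ring
      _ = _ := by rw [hab, mul_one]

variable {k : Type*} [Field k] {ι : Type*}

/-- restriction of a polynomial to the line through `x` -/
noncomputable def lnm (x : ι → k) : MvPolynomial ι k →ₐ[k] Polynomial k :=
  aeval (fun i => Polynomial.C (x i) * Polynomial.X)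

theorem lnm_hom (x : ι → k) {s : MvPolynomial ι k} {N : ℕ} (hs : s.IsHomogeneous N) :
    lnm x s = Polynomial.C (eval x s) * Polynomial.X ^ N := by
  unfold lnm
  rw [aeval_def, eval₂_eq, eval_eq, map_sum, Finset.sum_mul]
  refine Finset.sum_congr rfl fun d hd => ?_
  have h1 : ∑ i ∈ d.support, d i = N := (hs.degree_eq_sum_deg_support hd).symm
  rw [map_mul, mul_assoc]
  congr 1
  rw [map_prod, ← h1, ← Finset.prod_pow_eq_pow_sum, ← Finset.prod_mul_distrib]
  exact Finset.prod_congr rfl fun i _ => by rw [mul_pow, map_pow]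

theorem coeff_lnm (x : ι → k) (s : MvPolynomial ι k) (N : ℕ) :
    (lnm x s).coeff N = eval x (homogeneousComponent N s) := by
  conv_lhs => rw [← sum_homogeneousComponent s]
  rw [map_sum, Polynomial.finsetSum_coeff]
  have h1 : ∀ i ∈ Finset.range (s.totalDegree + 1),
      (lnm x (homogeneousComponent i s)).coeff N =
      if i = N then eval x (homogeneousComponent N s) else 0 := by
    intro i _
    rw [lnm_hom x (homogeneousComponent_isHomogeneous i s), Polynomial.coeff_C_mul_X_pow]
    by_cases h : i = N
    · subst h; simp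
    · rw [if_neg (Ne.symm h), if_neg h]
  rw [Finset.sum_congr rfl h1, Finset.sum_ite_eq']
  split_ifs with h
  · rfl
  · rw [homogeneousComponent_eq_zero N s (by simpa using h), map_zero]

theorem lnm_eq_zero (x : ι → k) (s : MvPolynomial ι k) (h : lnm x s = 0) (N : ℕ) :
    lnm x (homogeneousComponent N s) = 0 := by
  rw [lnm_hom x (homogeneousComponent_isHomogeneous N s), ← coeff_lnm, h]
  simp

/-- the homogeneous ideal of the polynomials vanishing along `U` -/
def nullIdeal (U : Ultrafilter ℕ) (F : ℕ → ι → k) : Ideal (MvPolynomial ι k) where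
  carrier := {s | ∀ᶠ n in (U : Filter ℕ), lnm (F n) s = 0}
  add_mem' := by
    intro a b ha hb
    filter_upwards [ha, hb] with n h1 h2
    rw [map_add, h1, h2, add_zero]
  zero_mem' := by
    filter_upwards with n
    rw [map_zero]
  smul_mem' := by
    intro c a ha
    filter_upwards [ha] with n h1
    rw [smul_eq_mul, map_mul, h1, mul_zero]

theorem mem_nullIdeal (U : Ultrafilter ℕ) (F : ℕ → ι → k) (s : MvPolynomial ι k) :
    s ∈ nullIdeal U F ↔ ∀ᶠ n in (U : Filter ℕ), lnm (F n) s = 0 := Iff.rfl

theorem nullIdeal_comp (U : Ultrafilter ℕ) (F : ℕ → ι → k) (s : MvPolynomial ι k)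
    (h : s ∈ nullIdeal U F) (N : ℕ) : homogeneousComponent N s ∈ nullIdeal U F := by
  rw [mem_nullIdeal] at h ⊢
  filter_upwards [h] with n hn
  exact lnm_eq_zero _ _ hn N

theorem mem_nullIdeal_hom (U : Ultrafilter ℕ) (F : ℕ → ι → k) {s : MvPolynomial ι k} {N : ℕ}
    (hs : s.IsHomogeneous N) :
    s ∈ nullIdeal U F ↔ ∀ᶠ n in (U : Filter ℕ), eval (F n) s = 0 := by
  rw [mem_nullIdeal]
  refine eventually_congr (Filter.Eventually.of_forall fun n => ?_)
  rw [lnm_hom (F n) hs]
  simp

theorem nullIdeal_prime (U : Ultrafilter ℕ) (F : ℕ → ι → k) : (nullIdeal U F).IsPrime := by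
  constructor
  · intro h
    have h1 : (1 : MvPolynomial ι k) ∈ nullIdeal U F := by rw [h]; trivial
    rw [mem_nullIdeal] at h1
    obtain ⟨n, hn⟩ := h1.exists
    rw [map_one] at hn
    exact one_ne_zero hn
  · intro a b h
    rw [mem_nullIdeal] at h
    have h1 : ∀ᶠ n in (U : Filter ℕ), lnm (F n) a = 0 ∨ lnm (F n) b = 0 := by
      filter_upwards [h] with n hn
      rw [map_mul] at hn
      exact mul_eq_zero.mp hn
    exact Ultrafilter.eventually_or.mp h1

theorem eval_smul_hom {s : MvPolynomial ι k} {N : ℕ} (hs : s.IsHomogeneous N) (a : k)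
    (x : ι → k) : eval (a • x) s = a ^ N * eval x s := by
  rw [eval_eq, eval_eq, Finset.mul_sum]
  refine Finset.sum_congr rfl fun d hd => ?_
  have h1 : ∑ i ∈ d.support, d i = N := (hs.degree_eq_sum_deg_support hd).symm
  rw [← h1, ← Finset.prod_pow_eq_pow_sum, mul_left_comm, ← Finset.prod_mul_distrib]
  congr 1
  exact Finset.prod_congr rfl fun i _ => by rw [Pi.smul_apply, smul_eq_mul, mul_pow]

/-- a homogeneous prime ideal which is principal has a homogeneous generator -/
theorem gen_hom {f : MvPolynomial ι k} (hf : f ≠ 0)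
    (h : ∀ N, f ∣ homogeneousComponent N f) : ∃ δ, f.IsHomogeneous δ := by
  refine ⟨f.totalDegree, ?_⟩
  have h1 : ∀ N, N ≠ f.totalDegree → homogeneousComponent N f = 0 := by
    intro N hN
    by_contra hne
    obtain ⟨g, hg⟩ := h N
    have hg0 : g ≠ 0 := by
      rintro rfl
      rw [mul_zero] at hg
      exact hne hg
    have h2 : (homogeneousComponent N f).totalDegree = f.totalDegree + g.totalDegree := by
      rw [hg, totalDegree_mul_of_isDomain hf hg0]
    rw [(homogeneousComponent_isHomogeneous N f).totalDegree hne] at h2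
    have h3 : ¬ f.totalDegree < N := fun h4 => hne (homogeneousComponent_eq_zero N f h4)
    omega
  have h2 : f = homogeneousComponent f.totalDegree f := by
    conv_lhs => rw [← sum_homogeneousComponent f]
    rw [Finset.sum_eq_single f.totalDegree]
    · intro b _ hb
      exact h1 b hb
    · intro h3
      exact absurd (Finset.mem_range.mpr (Nat.lt_succ_self _)) h3
  rw [h2]
  have h3 := homogeneousComponent_isHomogeneous f.totalDegree f
  convert h3 using 1
  rw [← h2]

/-- a nonzero binary form vanishing along `U` forces a constant ratio -/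
theorem ratio_const [Infinite k] (U : Ultrafilter ℕ) (x y : ℕ → k)
    (hx : ∀ᶠ n in (U : Filter ℕ), x n ≠ 0) (r : MvPolynomial (Fin 2) k) (N : ℕ)
    (hr : r.IsHomogeneous N) (hr0 : r ≠ 0)
    (h : ∀ᶠ n in (U : Filter ℕ), eval ![x n, y n] r = 0) :
    ∃ c : k, ∀ᶠ n in (U : Filter ℕ), y n = c * x n := by
  classical
  -- the dehomogenised polynomial
  let q : Polynomial k := aeval ![(1 : Polynomial k), Polynomial.X] r
  have hq : ∀ a b : k, eval ![a, b] r = a ^ N * q.eval (b / a) ∨ a = 0 := by
    intro a b
    by_cases ha : a = 0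
    · right; exact ha
    · left
      have h1 : q.eval (b / a) = eval ![1, b / a] r := by
        simp only [q]
        have h2 : ∀ s : MvPolynomial (Fin 2) k,
            (aeval ![(1 : Polynomial k), Polynomial.X] s).eval (b / a) = eval ![1, b / a] s := by
          intro s
          induction s using MvPolynomial.induction_on with
          | C c => simp
          | add p q hp hq => simp only [map_add, Polynomial.eval_add, hp, hq]
          | mul_X p i hp =>
            simp only [map_mul, Polynomial.eval_mul, hp, aeval_X, eval_X]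
            congr 1
            fin_cases i <;> simp
        exact h2 r
      rw [h1]
      have h3 : ![a, b] = a • ![1, b / a] := by
        funext i
        fin_cases i
        · simp
        · simp [mul_div_cancel₀ b ha]
      rw [h3, eval_smul_hom hr]
  have hq0 : q ≠ 0 := by
    intro hq0
    apply hr0
    have h1 : X 0 * r = 0 := by
      apply MvPolynomial.funext
      intro z
      rw [map_mul, eval_X, map_zero]
      have h2 : z = ![z 0, z 1] := by
        funext i
        fin_cases i <;> rfl
      rcases hq (z 0) (z 1) with h3 | h3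
      · rw [h2, h3, hq0]
        simp
      · rw [h3, zero_mul]
    rcases mul_eq_zero.mp h1 with h2 | h2
    · exact absurd h2 (X_ne_zero 0)
    · exact h2
  have h1 : ∀ᶠ n in (U : Filter ℕ), ∃ c ∈ (q.roots.toFinset : Set k), y n = c * x n := by
    filter_upwards [hx, h] with n hn1 hn2
    refine ⟨y n / x n, ?_, by rw [div_mul_cancel₀ _ hn1]⟩
    rcases hq (x n) (y n) with h3 | h3
    · rw [hn2] at h3
      have h4 : q.eval (y n / x n) = 0 := by
        rcases mul_eq_zero.mp h3.symm with h5 | h5
        · exact absurd h5 (pow_ne_zero _ hn1)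
        · exact h5
      simp only [Finset.mem_coe, Multiset.mem_toFinset]
      rw [Polynomial.mem_roots hq0]
      exact h4
    · exact absurd h3 hn1
  rw [Ultrafilter.eventually_exists_mem_iff (Finset.finite_toSet _)] at h1
  obtain ⟨c, _, hc⟩ := h1
  exact ⟨c, hc⟩

theorem exists_option_equiv (i j : Fin 3) (hij : i ≠ j) :
    ∃ e : Option (Fin 2) ≃ Fin 3, e (some 0) = i ∧ e (some 1) = j := by
  revert i j
  decide

/-- two coprime elements of the homogeneous ideal give a binary form in it -/
theorem binary_form (U : Ultrafilter ℕ) (F : ℕ → Fin 3 → k) {f g : MvPolynomial (Fin 3) k}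
    (hf : Irreducible f) (hfP : f ∈ nullIdeal U F) (hgP : g ∈ nullIdeal U F) (hfg : ¬ f ∣ g)
    (i j : Fin 3) (hij : i ≠ j) :
    ∃ (r : MvPolynomial (Fin 2) k) (N : ℕ), r ≠ 0 ∧ r.IsHomogeneous N ∧
      ∀ᶠ n in (U : Filter ℕ), eval ![F n i, F n j] r = 0 := by
  obtain ⟨e, he0, he1⟩ := exists_option_equiv i j hij
  let Φ : MvPolynomial (Fin 3) k ≃ₐ[k] Polynomial (MvPolynomial (Fin 2) k) :=
    (renameEquiv k e.symm).trans (optionEquivLeft k (Fin 2))
  have h1 : Irreducible (Φ f) := (MulEquiv.irreducible_iff Φ).mpr hf
  have h2 : ¬ Φ f ∣ Φ g := fun h => hfg ((map_dvd_iff Φ).mp h)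
  obtain ⟨r, a, b, hr, hab⟩ := elim_C _ _ h1 h2
  have h3 : Φ.symm (Polynomial.C r) ∈ nullIdeal U F := by
    rw [← hab, map_add, map_mul, map_mul, AlgEquiv.symm_apply_apply, AlgEquiv.symm_apply_apply]
    exact Ideal.add_mem _ (Ideal.mul_mem_left _ _ hfP) (Ideal.mul_mem_left _ _ hgP)
  have h4 : Φ.symm (Polynomial.C r) = rename (fun i => e (some i)) r := by
    rw [AlgEquiv.symm_apply_eq]
    have h5 : ∀ s : MvPolynomial (Fin 2) k,
        Polynomial.C s = Φ (rename (fun i => e (some i)) s) := by
      intro s
      induction s using MvPolynomial.induction_on with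
      | C c =>
        simp only [rename_C, Φ, AlgEquiv.trans_apply, renameEquiv_apply, optionEquivLeft_C]
      | add p q hp hq => rw [map_add, map_add, map_add, hp, hq]
      | mul_X p i hp =>
        rw [map_mul, map_mul, map_mul, hp]
        congr 1
        simp only [rename_X, Φ, AlgEquiv.trans_apply, renameEquiv_apply, Equiv.symm_apply_apply,
          optionEquivLeft_X_some]
    exact h5 r
  obtain ⟨N, hN⟩ : ∃ N, homogeneousComponent N r ≠ 0 := by
    by_contra! h
    apply hr
    rw [← sum_homogeneousComponent r]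
    exact Finset.sum_eq_zero fun i _ => h i
  refine ⟨homogeneousComponent N r, N, hN, homogeneousComponent_isHomogeneous N r, ?_⟩
  have h5 := nullIdeal_comp U F _ h3 N
  rw [h4, ← rename_homogeneousComponent] at h5
  rw [mem_nullIdeal_hom U F ((homogeneousComponent_isHomogeneous N r).rename_isHomogeneous)] at h5
  filter_upwards [h5] with n hn
  rw [eval_rename] at hn
  rw [← hn]
  congr 2
  funext l
  fin_cases l
  · simp [he0]
  · simp [he1]

end AR6elim

section AR6

variable {k : Type*} [Field k] [NumberField k]

/-- AR6. the Zariski closure is the plane or an irreducible curve -/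
theorem null_cases (U : Ultrafilter ℕ) (F : ℕ → Fin 3 → k) (hF : ∀ n, F n ≠ 0)
    (hH : Tendsto (fun n => vH (F n)) (U : Filter ℕ) atTop) :
    (∀ s N, MvPolynomial.IsHomogeneous s N → (Null U F s ↔ s = 0)) ∨
    ∃ (f : MvPolynomial (Fin 3) k) (δ : ℕ), Irreducible f ∧ f.IsHomogeneous δ ∧ 1 ≤ δ ∧
      ∀ s N, MvPolynomial.IsHomogeneous s N → (Null U F s ↔ f ∣ s) := by
  classical
  have hprime := nullIdeal_prime U F
  have hnull : ∀ s N, MvPolynomial.IsHomogeneous s N → (Null U F s ↔ s ∈ nullIdeal U F) :=
    fun s N hs => (mem_nullIdeal_hom U F hs).symm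
  by_cases hP : nullIdeal U F = ⊥
  · left
    intro s N hs
    rw [hnull s N hs, hP, Ideal.mem_bot]
  · right
    obtain ⟨f, hfP, hfp⟩ := hprime.exists_mem_prime_of_ne_bot hP
    have hf : Irreducible f := hfp.irreducible
    have hdvd : ∀ g ∈ nullIdeal U F, f ∣ g := by
      intro g hg
      by_contra hfg
      have h1 : ∀ᶠ n in (U : Filter ℕ), ∃ i, F n i ≠ 0 :=
        Filter.Eventually.of_forall fun n => Function.ne_iff.mp (hF n)
      rw [Ultrafilter.eventually_exists_iff] at h1
      obtain ⟨i, hi⟩ := h1
      have h2 : ∀ j, ∃ c : k, ∀ᶠ n in (U : Filter ℕ), F n j = c * F n i := by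
        intro j
        by_cases hij : i = j
        · subst hij
          exact ⟨1, Filter.Eventually.of_forall fun n => (one_mul _).symm⟩
        · obtain ⟨r, N, hr0, hr, h⟩ := binary_form U F hf hfP hg hfg i j hij
          exact ratio_const U _ _ hi r N hr hr0 h
      choose c hc using h2
      have h3 : ∀ᶠ n in (U : Filter ℕ), ∀ j, F n j = c j * F n i :=
        Filter.eventually_all.mpr hc
      have h4 : ∀ᶠ n in (U : Filter ℕ), vH (F n) = vH c := by
        filter_upwards [h3, hi] with n hn hni
        have h5 : F n = F n i • c := by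
          funext j
          rw [hn j, Pi.smul_apply, smul_eq_mul, mul_comm]
        have hc0 : c ≠ 0 := by
          rintro rfl
          rw [smul_zero] at h5
          exact hF n h5
        rw [h5]
        exact vH_smul hc0 (by simpa [← h5] using hni)
      have h5 := hH.eventually (eventually_ge_atTop (vH c + 1))
      obtain ⟨n, hn1, hn2⟩ := (h4.and h5).exists
      linarith
    obtain ⟨δ, hδ⟩ := gen_hom hf.ne_zero fun N => hdvd _ (nullIdeal_comp U F f hfP N)
    refine ⟨f, δ, hf, hδ, ?_, fun s N hs => ?_⟩
    · rcases Nat.eq_zero_or_pos δ with h | h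
      · subst h
        exfalso
        have h1 := hδ.totalDegree_le
        have h2 : f = C (coeff 0 f) := totalDegree_eq_zero_iff_eq_C.mp (Nat.le_zero.mp h1)
        have h3 : coeff 0 f ≠ 0 := by
          intro h4
          rw [h4, C_0] at h2
          exact hf.ne_zero h2
        apply hf.not_isUnit
        rw [h2]
        exact (isUnit_iff_ne_zero.mpr h3).map C
      · exact h
    · rw [hnull s N hs]
      refine ⟨fun h => hdvd s h, fun h => ?_⟩
      obtain ⟨t, rfl⟩ := h
      exact Ideal.mul_mem_right _ _ hfP

end AR6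

end Pool.Agent.V2
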