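import Pool.Agent.Helper21.V2.Defs2

/-!
# Block CV0, CV1: divisibility by an irreducible form, dimension of the forms of degree `N`
-/

namespace Pool.Agent.V2

open MvPolynomial

set_option linter.unusedVariables false
set_option linter.unusedSectionVars false

section alg

variable {k : Type*} [Field k] [CharZero k]

/-- CV0. -/
theorem ZI_dvd {f : MvPolynomial (Fin 3) k} (hf : Irreducible f) {δ : ℕ}
    (hδ : f.IsHomogeneous δ) (h1 : 1 ≤ δ) : ZI (fun s => f ∣ s) where
  zero := dvd_zero f
  one := fun h => hf.not_isUnit (isUnit_of_dvd_one h)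
  add := fun _ _ _ _ _ hs ht => dvd_add hs ht
  mul := fun _ _ _ _ _ _ => hf.prime.dvd_mul
  C_mul := fun _ _ _ _ h => h.mul_left _

/-- CV1. dimension of the homogeneous polynomials of degree `N` -/
theorem finrank_hs (N : ℕ) : Module.finrank k (hs k N) = Nat.choose (N + 2) 2 := by
  classical
  have h1 : hs k N = AddMonoidAlgebra.supported _ k {d : Fin 3 →₀ ℕ | d.degree = N} :=
    homogeneousSubmodule_eq_finsupp_supported (σ := Fin 3) (R := k) N
  have h2 : ({d : Fin 3 →₀ ℕ | d.degree = N} : Set (Fin 3 →₀ ℕ)) =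
      ↑(Finset.finsuppAntidiag (Finset.univ : Finset (Fin 3)) N) := by
    ext d
    simp [Finsupp.degree_eq_sum]
  rw [h1, (AddMonoidAlgebra.supportedEquivFinsupp (R := k) (S := k)
    {d : Fin 3 →₀ ℕ | d.degree = N}).finrank_eq, h2, Module.finrank_finsupp_self,
    ← Set.toFinset_card, Finset.toFinset_coe, Finset.card_finsuppAntidiag_nat_eq_choose, Finset.card_univ, Fintype.card_fin]
  have h3 : 3 + N - 1 = N + 2 := by omega
  rw [h3, ← Nat.choose_symm_of_eq_add (show N + 2 = N + 2 from rfl)]

/-- CV1'. finitely generated -/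
theorem finite_hs (N : ℕ) : Module.Finite k (hs k N) :=
  Module.Finite.iff_fg.2 (homogeneousSubmodule_fg (σ := Fin 3) (R := k) N)

end alg

end Pool.Agent.V2
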