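import Pool.Agent.Helper21.V2.Defs2

/-!
# Block PL0: sums in graded valuations
-/

namespace Pool.Agent.V2

open MvPolynomial

set_option linter.unusedVariables false

variable {k : Type*} [Field k]

section PL0

variable {Z : MvPolynomial (Fin 3) k → Prop} {w : MvPolynomial (Fin 3) k → ℝ}

theorem hom_C_mul {s : MvPolynomial (Fin 3) k} {N : ℕ} (hs : s.IsHomogeneous N) (a : k) :
    (C a * s).IsHomogeneous N := by
  have h := (isHomogeneous_C (Fin 3) a).mul hs
  rwa [zero_add] at h

theorem ZI.not_C_mul (hZ : ZI Z) {s : MvPolynomial (Fin 3) k} {N : ℕ} (hs : s.IsHomogeneous N)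
    (hsZ : ¬ Z s) {a : k} (ha : a ≠ 0) : ¬ Z (C a * s) := by
  intro h
  have h1 := hZ.C_mul _ N a⁻¹ (hom_C_mul hs a) h
  rw [← mul_assoc, ← map_mul, inv_mul_cancel₀ ha, map_one, one_mul] at h1
  exact hsZ h1

theorem ZI.not_C (hZ : ZI Z) {a : k} (ha : a ≠ 0) : ¬ Z (C a) := by
  have h := hZ.not_C_mul (isHomogeneous_one (Fin 3) k) hZ.one ha
  rwa [mul_one] at h

theorem GV.C_mul (hZ : ZI Z) (hw : GV Z w) {s : MvPolynomial (Fin 3) k} {N : ℕ}
    (hs : s.IsHomogeneous N) (hsZ : ¬ Z s) {a : k} (ha : a ≠ 0) : w (C a * s) = w s := by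
  rw [hw.mul (C a) s 0 N (isHomogeneous_C _ _) hs (hZ.not_C ha) hsZ, hw.const a ha, zero_add]

/-- PL0. -/
theorem GV.sum_le {Z : MvPolynomial (Fin 3) k → Prop} (hZ : ZI Z)
    {w : MvPolynomial (Fin 3) k → ℝ} (hw : GV Z w) {α : Type*} (I : Finset α)
    (s : α → MvPolynomial (Fin 3) k) (N : ℕ) (hs : ∀ i ∈ I, (s i).IsHomogeneous N) (a : ℝ)
    (ha : ∀ i ∈ I, Z (s i) ∨ a ≤ w (s i)) (hsum : ¬ Z (∑ i ∈ I, s i)) :
    a ≤ w (∑ i ∈ I, s i) := by
  classical
  have key : Z (∑ i ∈ I, s i) ∨ a ≤ w (∑ i ∈ I, s i) := by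
    clear hsum
    induction I using Finset.induction_on with
    | empty => left; rw [Finset.sum_empty]; exact hZ.zero
    | insert b I hb ih =>
      have hI : ∀ i ∈ I, (s i).IsHomogeneous N := fun i hi => hs i (Finset.mem_insert_of_mem hi)
      have ih' := ih hI fun i hi => ha i (Finset.mem_insert_of_mem hi)
      have hb' := ha b (Finset.mem_insert_self _ _)
      have hsb := hs b (Finset.mem_insert_self _ _)
      have hsI : (∑ i ∈ I, s i).IsHomogeneous N := IsHomogeneous.sum _ _ _ hI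
      rw [Finset.sum_insert hb]
      by_cases h1 : Z (s b)
      · by_cases h2 : Z (∑ i ∈ I, s i)
        · exact Or.inl (hZ.add _ _ N hsb hsI h1 h2)
        · right
          rw [add_comm, hw.congr _ _ N hsI hsb h2 h1]
          exact ih'.resolve_left h2
      · by_cases h2 : Z (∑ i ∈ I, s i)
        · right
          rw [hw.congr _ _ N hsb hsI h1 h2]
          exact hb'.resolve_left h1
        · by_cases h3 : Z (s b + ∑ i ∈ I, s i)
          · exact Or.inl h3
          · right
            exact (le_min (hb'.resolve_left h1) (ih'.resolve_left h2)).trans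
              (hw.add _ _ N hsb hsI h1 h2 h3)
  exact key.resolve_left hsum

/-- PL0'. if the values of two homogeneous elements are different, the value of the sum is the
minimum. -/
theorem GV.add_eq {Z : MvPolynomial (Fin 3) k → Prop} (hZ : ZI Z)
    {w : MvPolynomial (Fin 3) k → ℝ} (hw : GV Z w) (s t : MvPolynomial (Fin 3) k) (N : ℕ)
    (hs : s.IsHomogeneous N) (ht : t.IsHomogeneous N) (hsZ : ¬ Z s) (htZ : Z t ∨ w s < w t) :
    ¬ Z (s + t) ∧ w (s + t) = w s := by
  have hst : (s + t).IsHomogeneous N := hs.add ht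
  have hnt : (C (-1 : k) * t).IsHomogeneous N := hom_C_mul ht _
  have hm1 : (-1 : k) ≠ 0 := neg_ne_zero.mpr one_ne_zero
  have hid : (s + t) + C (-1 : k) * t = s := by
    rw [map_neg, map_one]; ring
  by_cases htz : Z t
  · have hn : ¬ Z (s + t) := by
      intro h
      have := hZ.add _ _ N hst hnt h (hZ.C_mul t N _ ht htz)
      rw [hid] at this
      exact hsZ this
    exact ⟨hn, hw.congr _ _ N hs ht hsZ htz⟩
  · have hlt := htZ.resolve_left htz
    have hwt : w (C (-1 : k) * t) = w t := hw.C_mul hZ ht htz hm1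
    have hnz : ¬ Z (C (-1 : k) * t) := hZ.not_C_mul ht htz hm1
    have hn : ¬ Z (s + t) := by
      intro h
      have h1 := hw.congr _ _ N hnt hst hnz h
      rw [add_comm, hid, hwt] at h1
      exact absurd h1 hlt.ne
    refine ⟨hn, le_antisymm ?_ ?_⟩
    · have h2 := hw.add _ _ N hst hnt hn hnz (by rw [hid]; exact hsZ)
      rw [hid, hwt, min_le_iff] at h2
      rcases h2 with h2 | h2
      · exact h2
      · exact absurd hlt (not_lt.mpr h2)
    · have h3 := hw.add _ _ N hs ht hsZ htz hn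
      rwa [min_eq_left hlt.le] at h3

/-- PL0''. some linear form among the members of a basis has value 0 -/
theorem GV.unit_basis {Z : MvPolynomial (Fin 3) k → Prop} (hZ : ZI Z)
    {w : MvPolynomial (Fin 3) k → ℝ} (hw : GV Z w) (g : Matrix (Fin 3) (Fin 3) k)
    (hg : g.det ≠ 0) : ∃ i, ¬ Z (∑ j, C (g i j) * X j) ∧ w (∑ j, C (g i j) * X j) = 0 := by
  classical
  by_contra hcon
  push Not at hcon
  obtain ⟨i0, hi0, hwi0⟩ := hw.unit
  set L : Fin 3 → MvPolynomial (Fin 3) k := fun i => ∑ j, C (g i j) * X j with hL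
  have hLh : ∀ i, (L i).IsHomogeneous 1 := fun i =>
    IsHomogeneous.sum _ _ _ fun j _ => hom_C_mul (isHomogeneous_X k j) _
  set f : Fin 3 → ℝ := fun i => if Z (L i) then 1 else w (L i) with hf
  have hfpos : ∀ i, 0 < f i := by
    intro i
    simp only [hf]
    split_ifs with h
    · exact one_pos
    · exact lt_of_le_of_ne (hw.nonneg _ 1 (hLh i) h) (Ne.symm (hcon i h))
  set a := Finset.univ.inf' Finset.univ_nonempty f with ha
  have hapos : 0 < a := (Finset.lt_inf'_iff _).mpr fun i _ => hfpos i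
  have hale : ∀ i, Z (L i) ∨ a ≤ w (L i) := by
    intro i
    by_cases h : Z (L i)
    · exact Or.inl h
    · right
      have h1 : a ≤ f i := Finset.inf'_le _ (Finset.mem_univ i)
      simpa only [hf, if_neg h] using h1
  have hXi : (X i0 : MvPolynomial (Fin 3) k) = ∑ i, C (g⁻¹ i0 i) * L i := by
    simp only [hL, Finset.mul_sum]
    rw [Finset.sum_comm]
    have h2 : ∀ j, ∑ i, C (g⁻¹ i0 i) * (C (g i j) * (X j : MvPolynomial (Fin 3) k)) =
        C ((g⁻¹ * g) i0 j) * X j := by
      intro j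
      rw [Matrix.mul_apply, map_sum, Finset.sum_mul]
      refine Finset.sum_congr rfl fun i _ => ?_
      rw [map_mul]; ring
    rw [Finset.sum_congr rfl fun j _ => h2 j,
      Matrix.nonsing_inv_mul g (isUnit_iff_ne_zero.mpr hg)]
    rw [Finset.sum_eq_single i0]
    · rw [Matrix.one_apply_eq, map_one, one_mul]
    · intro b _ hb
      rw [Matrix.one_apply_ne (Ne.symm hb), map_zero, zero_mul]
    · intro h; exact absurd (Finset.mem_univ _) h
  have hfin := hw.sum_le hZ Finset.univ (fun i => C (g⁻¹ i0 i) * L i) 1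
    (fun i _ => hom_C_mul (hLh i) _) a (fun i _ => by
      by_cases h0 : g⁻¹ i0 i = 0
      · left; simp only [h0, map_zero, zero_mul]; exact hZ.zero
      · rcases hale i with h | h
        · exact Or.inl (hZ.C_mul _ 1 _ (hLh i) h)
        · by_cases hz : Z (L i)
          · exact Or.inl (hZ.C_mul _ 1 _ (hLh i) hz)
          · right
            rw [hw.C_mul hZ (hLh i) hz h0]
            exact h) (by rw [← hXi]; exact hi0)
  rw [← hXi, hwi0] at hfin
  exact absurd hfin (not_le.mpr hapos)

end PL0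

end Pool.Agent.V2
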