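import Pool.Agent.Helper21.V2.Defs2
import Pool.Agent.Helper21.V2.PL0
import Pool.Agent.Helper21.V2.CV1

/-!
# Block CU3: adapted bases of the filtration by `{w ≥ j}`
-/

namespace Pool.Agent.V2

open MvPolynomial

set_option linter.unusedVariables false
set_option linter.unusedSectionVars false

section CU3

variable {k : Type*} [Field k] [CharZero k]

/-- the sets defining `fil` are subspaces -/
theorem mem_fil {f : MvPolynomial (Fin 3) k} (hZ : ZI (fun s => f ∣ s))
    {w : MvPolynomial (Fin 3) k → ℝ} (hw : GV (fun s => f ∣ s) w) (N : ℕ) (x : ℝ)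
    (s : MvPolynomial (Fin 3) k) :
    s ∈ fil f w N x ↔ s.IsHomogeneous N ∧ (f ∣ s ∨ x ≤ w s) := by
  constructor
  · intro h
    unfold fil at h
    induction h using Submodule.span_induction with
    | mem s hs => exact hs
    | zero => exact ⟨isHomogeneous_zero _ _ _, Or.inl (dvd_zero f)⟩
    | add a b _ _ ha hb =>
      refine ⟨ha.1.add hb.1, ?_⟩
      by_cases h3 : f ∣ a + b
      · exact Or.inl h3
      · right
        have := hw.sum_le hZ (Finset.univ : Finset (Fin 2)) ![a, b] N
          (by intro i _; fin_cases i; exacts [ha.1, hb.1]) x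
          (by intro i _; fin_cases i; exacts [ha.2, hb.2])
          (by simpa [Fin.sum_univ_two] using h3)
        simpa [Fin.sum_univ_two] using this
    | smul c a _ ha =>
      rw [smul_eq_C_mul]
      refine ⟨hom_C_mul ha.1 c, ?_⟩
      by_cases hc : c = 0
      · left; rw [hc, map_zero, zero_mul]; exact dvd_zero f
      · by_cases hfa : f ∣ a
        · exact Or.inl (hfa.mul_left _)
        · right
          rw [hw.C_mul hZ ha.1 hfa hc]
          exact ha.2.resolve_left hfa
  · intro h
    exact Submodule.subset_span h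

theorem fil_le_hs {f : MvPolynomial (Fin 3) k} {w : MvPolynomial (Fin 3) k → ℝ} (N : ℕ) (x : ℝ) :
    fil f w N x ≤ hs k N := by
  unfold fil
  rw [Submodule.span_le]
  intro s hs
  exact (mem_homogeneousSubmodule N s).mpr hs.1

/-- a homogeneous multiple of a homogeneous polynomial is a multiple by a homogeneous one -/
theorem hom_factor {f s : MvPolynomial (Fin 3) k} {δ N : ℕ} (hf : f.IsHomogeneous δ)
    (hs : s.IsHomogeneous N) (hN : δ ≤ N) (h : f ∣ s) :
    ∃ g : MvPolynomial (Fin 3) k, g.IsHomogeneous (N - δ) ∧ s = f * g := by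
  obtain ⟨g, rfl⟩ := h
  refine ⟨homogeneousComponent (N - δ) g, homogeneousComponent_isHomogeneous _ _, ?_⟩
  have h1 : homogeneousComponent N (f * g) = f * g := by
    rw [homogeneousComponent_of_mem ((mem_homogeneousSubmodule N _).mpr hs), if_pos rfl]
  have h2 : homogeneousComponent N (f * g) = ∑ i ∈ Finset.range (g.totalDegree + 1),
      homogeneousComponent N (f * homogeneousComponent i g) := by
    conv_lhs => rw [← sum_homogeneousComponent g, Finset.mul_sum, map_sum]
  have h3 : ∀ i, homogeneousComponent N (f * homogeneousComponent i g) =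
      if i = N - δ then f * homogeneousComponent (N - δ) g else 0 := by
    intro i
    have h4 : f * homogeneousComponent i g ∈ homogeneousSubmodule (Fin 3) k (δ + i) :=
      (mem_homogeneousSubmodule _ _).mpr (hf.mul (homogeneousComponent_isHomogeneous _ _))
    rw [homogeneousComponent_of_mem h4]
    by_cases h5 : i = N - δ
    · subst h5
      rw [if_pos (by omega), if_pos rfl]
    · rw [if_neg (by omega), if_neg h5]
  rw [h1] at h2
  rw [Finset.sum_congr rfl fun i _ => h3 i, Finset.sum_ite_eq'] at h2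
  split_ifs at h2 with h6
  · exact h2
  · rw [h2]
    have h7 : homogeneousComponent (N - δ) g = 0 := by
      rw [Finset.mem_range, not_lt] at h6
      exact homogeneousComponent_eq_zero _ _ (by omega)
    rw [h7, mul_zero]

/-- multiples of `f` of degree `N` -/
noncomputable def dvdS (f : MvPolynomial (Fin 3) k) (N : ℕ) : Submodule k (MvPolynomial (Fin 3) k) where
  carrier := {s | s.IsHomogeneous N ∧ f ∣ s}
  zero_mem' := ⟨isHomogeneous_zero _ _ _, dvd_zero f⟩
  add_mem' := fun ha hb => ⟨ha.1.add hb.1, dvd_add ha.2 hb.2⟩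
  smul_mem' := fun c a ha => by
    rw [smul_eq_C_mul]
    exact ⟨hom_C_mul ha.1 c, ha.2.mul_left _⟩

theorem mem_dvdS {f : MvPolynomial (Fin 3) k} {N : ℕ} {s : MvPolynomial (Fin 3) k} :
    s ∈ dvdS f N ↔ s.IsHomogeneous N ∧ f ∣ s := Iff.rfl

theorem finrank_dvdS {f : MvPolynomial (Fin 3) k} (hf0 : f ≠ 0) {δ N : ℕ} (hf : f.IsHomogeneous δ)
    (hN : δ ≤ N) : Module.finrank k (dvdS f N) = Nat.choose (N + 2 - δ) 2 := by
  have h1 : dvdS f N = (hs k (N - δ)).map (LinearMap.mulLeft k f) := by
    ext s
    rw [mem_dvdS, Submodule.mem_map]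
    constructor
    · rintro ⟨h2, h3⟩
      obtain ⟨g, hg, rfl⟩ := hom_factor hf h2 hN h3
      exact ⟨g, (mem_homogeneousSubmodule _ _).mpr hg, rfl⟩
    · rintro ⟨g, hg, rfl⟩
      refine ⟨?_, Dvd.intro _ rfl⟩
      have := hf.mul ((mem_homogeneousSubmodule _ _).mp hg)
      rw [Nat.add_sub_cancel' hN] at this
      exact this
  have hinj : Function.Injective (LinearMap.mulLeft k f) := by
    intro a b hab
    exact mul_left_cancel₀ hf0 hab
  rw [h1, ← LinearEquiv.finrank_eq (Submodule.equivMapOfInjective _ hinj (hs k (N - δ))),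
    finrank_hs]
  congr 1
  omega

/-- greedy choice of vectors which are independent modulo `D` -/
theorem greedyF {V : Type*} [AddCommGroup V] [Module k V] (D : Submodule k V)
    [Module.Finite k D] : ∀ (l : ℕ) (F : Fin l → Submodule k V) (hF : ∀ i, Module.Finite k (F i))
    (hd : ∀ i : Fin l, Module.finrank k D + i < Module.finrank k (F i)),
    ∃ t : Fin l → V, (∀ i, t i ∈ F i) ∧ ∀ a : Fin l → k, ∑ i, a i • t i ∈ D → a = 0 := by
  intro l
  induction l with
  | zero =>
    intro F _ _
    exact ⟨fun i => i.elim0, fun i => i.elim0, fun a _ => funext fun i => i.elim0⟩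
  | succ l ih =>
    intro F hF hd
    obtain ⟨t, ht, hind⟩ := ih (fun i => F i.castSucc) (fun i => hF _) fun i => by
      simpa using hd i.castSucc
    have hex : ∃ x ∈ F (Fin.last l), x ∉ D ⊔ Submodule.span k (Set.range t) := by
      by_contra hcon
      push Not at hcon
      have hle : F (Fin.last l) ≤ D ⊔ Submodule.span k (Set.range t) := fun x hx => hcon x hx
      have : Module.Finite k (Submodule.span k (Set.range t)) :=
        Module.Finite.span_of_finite k (Set.finite_range t)
      have h1 := Submodule.finrank_mono hle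
      have h2 := Submodule.finrank_add_le_finrank_add_finrank D (Submodule.span k (Set.range t))
      have h3 := finrank_range_le_card (R := k) t
      have h4 := hd (Fin.last l)
      rw [Set.finrank, Fintype.card_fin] at h3
      rw [Fin.val_last] at h4
      omega
    obtain ⟨x, hx, hxn⟩ := hex
    refine ⟨Fin.snoc t x, ?_, ?_⟩
    · intro i
      refine Fin.lastCases ?_ (fun i => ?_) i
      · rw [Fin.snoc_last]; exact hx
      · rw [Fin.snoc_castSucc]; exact ht i
    · intro a ha
      rw [Fin.sum_univ_castSucc, Fin.snoc_last] at ha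
      simp only [Fin.snoc_castSucc] at ha
      have h0 : a (Fin.last l) = 0 := by
        by_contra hne
        apply hxn
        have h5 : x = (a (Fin.last l))⁻¹ • (∑ i : Fin l, a i.castSucc • t i +
            a (Fin.last l) • x) - (a (Fin.last l))⁻¹ • ∑ i : Fin l, a i.castSucc • t i := by
          rw [smul_add, smul_smul, inv_mul_cancel₀ hne, one_smul]
          abel
        rw [h5]
        refine Submodule.sub_mem _ (Submodule.smul_mem _ _ (Submodule.mem_sup_left ha))
          (Submodule.smul_mem _ _ (Submodule.mem_sup_right ?_))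
        exact Submodule.sum_mem _ fun i _ => Submodule.smul_mem _ _
          (Submodule.subset_span ⟨i, rfl⟩)
      rw [h0, zero_smul, add_zero] at ha
      have h6 := hind _ ha
      funext i
      refine Fin.lastCases ?_ (fun i => ?_) i
      · exact h0
      · exact congrFun h6 i

/-- CU3. codimension of `{w ≥ n}`: families which are independent modulo `{w ≥ n}` -/
theorem NormC.indep {f : MvPolynomial (Fin 3) k} (hf : Irreducible f) {δ : ℕ}
    (hδ : f.IsHomogeneous δ) (h1 : 1 ≤ δ) {w : MvPolynomial (Fin 3) k → ℝ}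
    (hw : GV (fun s => f ∣ s) w) (hn : NormC f δ w) :
    ∃ C0 : ℕ, ∀ N n : ℕ, n ≤ δ * N → ∃ (m : ℕ) (s : Fin m → MvPolynomial (Fin 3) k),
      n ≤ m + C0 ∧ (∀ i, (s i).IsHomogeneous N) ∧ ∀ a : Fin m → k, a ≠ 0 →
        ¬ (f ∣ ∑ i, C (a i) * s i) ∧ w (∑ i, C (a i) * s i) < n := by
  obtain ⟨C0, hC0⟩ := hn.low
  have hZ := ZI_dvd hf hδ h1
  refine ⟨C0, fun N n hnN => ?_⟩
  have h2 := hC0 N n hnN
  have := finite_hs (k := k) N
  have hle := fil_le_hs (f := f) (w := w) N (n : ℝ)
  have : Module.Finite k (fil f w N (n : ℝ)) := Submodule.finiteDimensional_of_le hle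
  have h3 := Submodule.finrank_mono hle
  obtain ⟨t, ht, hind⟩ := greedyF (fil f w N (n : ℝ))
    (Module.finrank k (hs k N) - Module.finrank k (fil f w N (n : ℝ))) (fun _ => hs k N)
    (fun _ => inferInstance) (fun i => by have := i.2; omega)
  refine ⟨_, t, by omega, fun i => (mem_homogeneousSubmodule _ _).mp (ht i), fun a ha => ?_⟩
  have h4 : ∑ i, C (a i) * t i = ∑ i, a i • t i :=
    Finset.sum_congr rfl fun i _ => (smul_eq_C_mul _ _).symm
  have h5 : ∑ i, C (a i) * t i ∉ fil f w N (n : ℝ) := by
    rw [h4]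
    exact fun h => ha (hind a h)
  have h6 : (∑ i, C (a i) * t i).IsHomogeneous N :=
    IsHomogeneous.sum _ _ _ fun i _ => hom_C_mul ((mem_homogeneousSubmodule _ _).mp (ht i)) _
  rw [mem_fil hZ hw] at h5
  push Not at h5
  exact h5 h6

/-- CU9. adapted basis (for the subspace inequality) -/
theorem NormC.basis {f : MvPolynomial (Fin 3) k} (hf : Irreducible f) {δ : ℕ}
    (hδ : f.IsHomogeneous δ) (h1 : 1 ≤ δ) {w : MvPolynomial (Fin 3) k → ℝ}
    (hw : GV (fun s => f ∣ s) w) (hn : NormC f δ w) :
    ∃ C0 : ℕ, ∀ N m : ℕ, m + Nat.choose (N + 2 - δ) 2 = Nat.choose (N + 2) 2 → δ ≤ N →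
      ∃ s : Fin m → MvPolynomial (Fin 3) k, (∀ i, (s i).IsHomogeneous N) ∧
        (∀ a : Fin m → k, a ≠ 0 → ¬ f ∣ ∑ i, C (a i) * s i) ∧
        (∀ r, MvPolynomial.IsHomogeneous r N → ∃ a : Fin m → k, f ∣ r - ∑ i, C (a i) * s i) ∧
        ∀ i : Fin m, (i : ℕ) ≤ w (s i) + C0 := by
  obtain ⟨C0, hC0⟩ := hn.up
  have hZ := ZI_dvd hf hδ h1
  refine ⟨C0, fun N m hm hN => ?_⟩
  have := finite_hs (k := k) N
  have hDle : dvdS f N ≤ hs k N := fun s hs => (mem_homogeneousSubmodule _ _).mpr hs.1
  have : Module.Finite k (dvdS f N) := Submodule.finiteDimensional_of_le hDle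
  have hD := finrank_dvdS hf.ne_zero hδ hN
  have hH := finrank_hs (k := k) N
  have hfin : ∀ x : ℝ, Module.Finite k (fil f w N x) := fun x =>
    Submodule.finiteDimensional_of_le (fil_le_hs (f := f) (w := w) N x)
  have h0 : fil f w N ((0 : ℕ) : ℝ) = hs k N := by
    refine le_antisymm (fil_le_hs N _) fun s hs => ?_
    rw [mem_fil hZ hw]
    have hs' := (mem_homogeneousSubmodule _ _).mp hs
    refine ⟨hs', ?_⟩
    by_cases hfs : f ∣ s
    · exact Or.inl hfs
    · right
      rw [Nat.cast_zero]
      exact hw.nonneg s N hs' hfs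
  obtain ⟨t, ht, hind⟩ := greedyF (dvdS f N) m
    (fun l : Fin m => fil f w N ((m - 1 - (l : ℕ) - C0 : ℕ) : ℝ)) (fun l => hfin _) (fun l => by
      have hl := l.2
      by_cases h2 : C0 ≤ m - 1 - (l : ℕ)
      · have := hC0 N (m - 1 - (l : ℕ) - C0)
        omega
      · have h3 : m - 1 - (l : ℕ) - C0 = 0 := by omega
        rw [h3, h0]
        omega)
  have hsum : ∀ a : Fin m → k, ∑ i, C (a i) * t (Fin.rev i) =
      ∑ i, a (Fin.rev i) • t i := by
    intro a
    rw [← Equiv.sum_comp Fin.revPerm]
    refine Finset.sum_congr rfl fun i _ => ?_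
    rw [Fin.revPerm_apply, Fin.rev_rev, smul_eq_C_mul]
  have hth : ∀ i, (t i).IsHomogeneous N := fun i => ((mem_fil hZ hw _ _ _).mp (ht i)).1
  have hindf : ∀ a : Fin m → k, a ≠ 0 → ¬ f ∣ ∑ i, C (a i) * t (Fin.rev i) := by
    intro a ha hdv
    rw [hsum] at hdv
    have h4 := hind (fun i => a (Fin.rev i)) (mem_dvdS.mpr ⟨?_, hdv⟩)
    · apply ha
      funext i
      have := congrFun h4 (Fin.rev i)
      simpa using this
    · refine IsHomogeneous.sum _ _ _ fun i _ => ?_
      rw [smul_eq_C_mul]
      exact hom_C_mul (hth i) _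
  refine ⟨fun i => t (Fin.rev i), fun i => hth _, hindf, ?_, ?_⟩
  · -- spanning
    intro r hr
    have : Module.Finite k (Submodule.span k (Set.range t)) :=
      Module.Finite.span_of_finite k (Set.finite_range t)
    have hLI : LinearIndependent k t := by
      rw [Fintype.linearIndependent_iff]
      intro a ha i
      exact congrFun (hind a (by rw [ha]; exact Submodule.zero_mem _)) i
    have hspan : Module.finrank k (Submodule.span k (Set.range t)) = m := by
      rw [finrank_span_eq_card hLI, Fintype.card_fin]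
    have hinf : dvdS f N ⊓ Submodule.span k (Set.range t) = ⊥ := by
      rw [eq_bot_iff]
      rintro x ⟨hx1, hx2⟩
      obtain ⟨a, rfl⟩ := (Submodule.mem_span_range_iff_exists_fun k).mp hx2
      have := hind a hx1
      rw [Submodule.mem_bot, this]
      simp
    have hsup := Submodule.finrank_sup_add_finrank_inf_eq (dvdS f N)
      (Submodule.span k (Set.range t))
    rw [hinf, finrank_bot, add_zero, hspan, hD] at hsup
    have hle : dvdS f N ⊔ Submodule.span k (Set.range t) ≤ hs k N := by
      refine sup_le hDle (Submodule.span_le.mpr ?_)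
      rintro _ ⟨i, rfl⟩
      exact (mem_homogeneousSubmodule _ _).mpr (hth i)
    have heq : dvdS f N ⊔ Submodule.span k (Set.range t) = hs k N :=
      Submodule.eq_of_le_of_finrank_eq hle (by omega)
    have hr' : r ∈ dvdS f N ⊔ Submodule.span k (Set.range t) := by
      rw [heq]; exact (mem_homogeneousSubmodule _ _).mpr hr
    obtain ⟨x, hx, y, hy, rfl⟩ := Submodule.mem_sup.mp hr'
    obtain ⟨b, rfl⟩ := (Submodule.mem_span_range_iff_exists_fun k).mp hy
    refine ⟨fun i => b (Fin.rev i), ?_⟩
    rw [hsum]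
    simp only [Fin.rev_rev]
    rw [add_sub_cancel_right]
    exact hx.2
  · intro i
    have h5 := ((mem_fil hZ hw _ _ _).mp (ht (Fin.rev i))).2
    have h6 : ¬ f ∣ t (Fin.rev i) := by
      intro hdv
      refine hindf (Pi.single i 1) (by simp) ?_
      rw [Finset.sum_eq_single i]
      · rw [Pi.single_eq_same, map_one, one_mul]; exact hdv
      · intro j _ hj
        rw [Pi.single_eq_of_ne hj, map_zero, zero_mul]
      · intro h; exact absurd (Finset.mem_univ _) h
    have h7 := h5.resolve_left h6
    have h8 : (i : ℕ) ≤ (m - 1 - (Fin.rev i : ℕ) - C0) + C0 := by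
      rw [Fin.val_rev]
      have := i.2
      omega
    have h9 : ((i : ℕ) : ℝ) ≤ ((m - 1 - (Fin.rev i : ℕ) - C0 : ℕ) : ℝ) + C0 := by
      exact_mod_cast h8
    linarith

end CU3

end Pool.Agent.V2
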