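import Pool.Agent.Helper21.V2.CU1
import Pool.Agent.Helper21.V2.CU3

set_option autoImplicit false

/-!
# CU4: the derivation `VF` at a transversal point (`v`-side)
-/

namespace Pool.Agent.V2

open MvPolynomial

set_option linter.unusedSectionVars false

namespace CU4

variable {k : Type*} [Field k] [CharZero k]

/-- coordinates -/
noncomputable def xx (k : Type*) [Field k] : MvPolynomial (Fin 3) k := X 0 + X 1 + X 2
/-- coordinates -/
noncomputable def yy (k : Type*) [Field k] : MvPolynomial (Fin 3) k := X 0 - X 1 + X 2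
/-- coordinates -/
noncomputable def zz (k : Type*) [Field k] : MvPolynomial (Fin 3) k := X 0 - X 2

/-- the change of coordinates -/
noncomputable def rho (k : Type*) [Field k] :
    MvPolynomial (Fin 3) k →ₐ[k] MvPolynomial (Fin 3) k := aeval ![xx k, yy k, zz k]

/-- the inverse change of coordinates -/
noncomputable def rho' (k : Type*) [Field k] :
    MvPolynomial (Fin 3) k →ₐ[k] MvPolynomial (Fin 3) k :=
  aeval ![C (1 / 4) * (X 0 + X 1) + C (1 / 2) * X 2, C (1 / 2) * (X 0 - X 1),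
    C (1 / 4) * (X 0 + X 1) - C (1 / 2) * X 2]

theorem rho_X0 : rho k (X 0) = xx k := by rw [rho, aeval_X]; rfl
theorem rho_X1 : rho k (X 1) = yy k := by rw [rho, aeval_X]; rfl
theorem rho_X2 : rho k (X 2) = zz k := by rw [rho, aeval_X]; rfl
theorem rho'_X0 : rho' k (X 0) = C (1 / 4) * (X 0 + X 1) + C (1 / 2) * X 2 := by
  rw [rho', aeval_X]; rfl
theorem rho'_X1 : rho' k (X 1) = C (1 / 2) * (X 0 - X 1) := by rw [rho', aeval_X]; rfl
theorem rho'_X2 : rho' k (X 2) = C (1 / 4) * (X 0 + X 1) - C (1 / 2) * X 2 := by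
  rw [rho', aeval_X]; rfl

theorem rho_C (c : k) : rho k (C c) = C c := (rho k).commutes c
theorem rho'_C (c : k) : rho' k (C c) = C c := (rho' k).commutes c

theorem C42 : (C (1 / 4 : k) : MvPolynomial (Fin 3) k) * 2 = C (1 / 2) := by
  have h : (2 : MvPolynomial (Fin 3) k) = C 2 := (map_ofNat C 2).symm
  rw [h, ← C_mul]
  congr 1
  norm_num

theorem C2 : (C (1 / 2 : k) : MvPolynomial (Fin 3) k) * 2 = 1 := by
  have h : (2 : MvPolynomial (Fin 3) k) = C 2 := (map_ofNat C 2).symm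
  rw [h, ← C_mul, one_div, inv_mul_cancel₀ (by norm_num), C_1]

theorem rho_rho' (s : MvPolynomial (Fin 3) k) : rho k (rho' k s) = s := by
  have h : (rho k).comp (rho' k) = AlgHom.id k _ := by
    apply MvPolynomial.algHom_ext
    intro i
    have h4 := C42 (k := k)
    have h2 := C2 (k := k)
    fin_cases i
    · change rho k (rho' k (X 0)) = X 0
      rw [rho'_X0, map_add, map_mul, map_mul, map_add, rho_C, rho_C, rho_X0, rho_X1, rho_X2]
      unfold xx yy zz
      linear_combination (X 0 + X 2) * h4 + X 0 * h2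
    · change rho k (rho' k (X 1)) = X 1
      rw [rho'_X1, map_mul, map_sub, rho_C, rho_X0, rho_X1]
      unfold xx yy
      linear_combination (X 1) * h2
    · change rho k (rho' k (X 2)) = X 2
      rw [rho'_X2, map_sub, map_mul, map_mul, map_add, rho_C, rho_C, rho_X0, rho_X1, rho_X2]
      unfold xx yy zz
      linear_combination (X 0 + X 2) * h4 + X 2 * h2
  exact DFunLike.congr_fun h s

theorem rho'_rho (s : MvPolynomial (Fin 3) k) : rho' k (rho k s) = s := by
  have h : (rho' k).comp (rho k) = AlgHom.id k _ := by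
    apply MvPolynomial.algHom_ext
    intro i
    have h4 := C42 (k := k)
    have h2 := C2 (k := k)
    fin_cases i
    · change rho' k (rho k (X 0)) = X 0
      rw [rho_X0, xx, map_add, map_add, rho'_X0, rho'_X1, rho'_X2]
      linear_combination (X 0 + X 1) * h4 + X 0 * h2
    · change rho' k (rho k (X 1)) = X 1
      rw [rho_X1, yy, map_add, map_sub, rho'_X0, rho'_X1, rho'_X2]
      linear_combination (X 0 + X 1) * h4 + X 1 * h2
    · change rho' k (rho k (X 2)) = X 2
      rw [rho_X2, zz, map_sub, rho'_X0, rho'_X2]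
      linear_combination X 2 * h2
  exact DFunLike.congr_fun h s

theorem hom_xx : (xx k).IsHomogeneous 1 :=
  ((isHomogeneous_X _ _).add (isHomogeneous_X _ _)).add (isHomogeneous_X _ _)
theorem hom_yy : (yy k).IsHomogeneous 1 :=
  ((isHomogeneous_X _ _).sub (isHomogeneous_X _ _)).add (isHomogeneous_X _ _)
theorem hom_zz : (zz k).IsHomogeneous 1 := (isHomogeneous_X _ _).sub (isHomogeneous_X _ _)

theorem hom_rho {s : MvPolynomial (Fin 3) k} {N : ℕ} (hs : s.IsHomogeneous N) :
    (rho k s).IsHomogeneous N := by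
  have h := hs.aeval ![xx k, yy k, zz k] (n := 1) (fun i => by
    fin_cases i
    · exact hom_xx
    · exact hom_yy
    · exact hom_zz)
  rwa [one_mul] at h

theorem hom_rho' {s : MvPolynomial (Fin 3) k} {N : ℕ} (hs : s.IsHomogeneous N) :
    (rho' k s).IsHomogeneous N := by
  have h0 : (X 0 + X 1 : MvPolynomial (Fin 3) k).IsHomogeneous 1 :=
    (isHomogeneous_X _ _).add (isHomogeneous_X _ _)
  have h1 : (X 0 - X 1 : MvPolynomial (Fin 3) k).IsHomogeneous 1 :=
    (isHomogeneous_X _ _).sub (isHomogeneous_X _ _)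
  have h2 : (X 2 : MvPolynomial (Fin 3) k).IsHomogeneous 1 := isHomogeneous_X _ _
  have h := hs.aeval (![C (1 / 4) * (X 0 + X 1) + C (1 / 2) * X 2, C (1 / 2) * (X 0 - X 1),
    C (1 / 4) * (X 0 + X 1) - C (1 / 2) * X 2] : Fin 3 → MvPolynomial (Fin 3) k) (n := 1)
    (fun i => by
    fin_cases i
    · exact (h0.C_mul _).add (h2.C_mul _)
    · exact h1.C_mul _
    · exact (h0.C_mul _).sub (h2.C_mul _))
  rwa [one_mul] at h

/-! ### dehomogenisation -/

/-- `x ↦ X 0`, `y ↦ X 1`, `z ↦ 1` -/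
noncomputable def dh (k : Type*) [Field k] :
    MvPolynomial (Fin 3) k →ₐ[k] MvPolynomial (Fin 2) k :=
  (aeval ![X 0, X 1, 1]).comp (rho' k)

theorem dh_rho (s : MvPolynomial (Fin 3) k) : dh k (rho k s) = aeval ![X 0, X 1, 1] s := by
  rw [dh, AlgHom.comp_apply, rho'_rho]

theorem dh_xx : dh k (xx k) = X 0 := by rw [← rho_X0, dh_rho, aeval_X]; rfl
theorem dh_yy : dh k (yy k) = X 1 := by rw [← rho_X1, dh_rho, aeval_X]; rfl
theorem dh_zz : dh k (zz k) = 1 := by rw [← rho_X2, dh_rho, aeval_X]; rfl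
theorem dh_C (c : k) : dh k (C c) = C c := (dh k).commutes c

/-- the exponent with given first two entries -/
noncomputable def ext3 (N : ℕ) (d : Fin 2 →₀ ℕ) : Fin 3 →₀ ℕ :=
  Finsupp.single 0 (d 0) + Finsupp.single 1 (d 1) + Finsupp.single 2 (N - (d 0 + d 1))

theorem ext3_0 (N : ℕ) (d : Fin 2 →₀ ℕ) : ext3 N d 0 = d 0 := by simp [ext3]
theorem ext3_1 (N : ℕ) (d : Fin 2 →₀ ℕ) : ext3 N d 1 = d 1 := by simp [ext3]
theorem ext3_2 (N : ℕ) (d : Fin 2 →₀ ℕ) : ext3 N d 2 = N - (d 0 + d 1) := by simp [ext3]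

theorem deg3 (e : Fin 3 →₀ ℕ) : e.degree = e 0 + e 1 + e 2 := by
  rw [Finsupp.degree_eq_sum, Fin.sum_univ_three]

theorem coeff_aeval3 {s : MvPolynomial (Fin 3) k} {N : ℕ} (hs : s.IsHomogeneous N)
    (d : Fin 2 →₀ ℕ) (hd : d 0 + d 1 ≤ N) :
    coeff d (aeval ![X 0, X 1, 1] s : MvPolynomial (Fin 2) k) = coeff (ext3 N d) s := by
  classical
  conv_lhs => rw [s.as_sum, map_sum, coeff_sum]
  have hterm : ∀ (e : Fin 3 →₀ ℕ) (c : k),
      (aeval ![X 0, X 1, 1] (monomial e c) : MvPolynomial (Fin 2) k) =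
        monomial (Finsupp.single 0 (e 0) + Finsupp.single 1 (e 1)) c := by
    intro e c
    rw [aeval_monomial, Finsupp.prod_fintype _ _ (fun _ => pow_zero _), Fin.prod_univ_three]
    have h : (monomial (Finsupp.single 0 (e 0) + Finsupp.single 1 (e 1)) c :
        MvPolynomial (Fin 2) k) = C c * (X 0 ^ e 0 * X 1 ^ e 1) := by
      rw [X_pow_eq_monomial, X_pow_eq_monomial, monomial_mul, C_mul_monomial, one_mul, mul_one]
    rw [h]
    change C c * (X 0 ^ e 0 * X 1 ^ e 1 * 1 ^ e 2) = _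
    rw [one_pow, mul_one]
  simp only [hterm, coeff_monomial]
  have huniq : ∀ e ∈ s.support, (Finsupp.single 0 (e 0) + Finsupp.single 1 (e 1) = d) →
      e = ext3 N d := by
    intro e he hed
    have h0 : e 0 = d 0 := by rw [← hed]; simp
    have h1 : e 1 = d 1 := by rw [← hed]; simp
    have h2 : e.degree = N := by
      by_contra h
      exact (mem_support_iff.1 he) (hs.coeff_eq_zero h)
    rw [deg3] at h2
    ext i
    fin_cases i
    · change e 0 = ext3 N d 0
      rw [ext3_0, h0]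
    · change e 1 = ext3 N d 1
      rw [ext3_1, h1]
    · change e 2 = ext3 N d 2
      rw [ext3_2]
      omega
  have hd' : Finsupp.single 0 (ext3 N d 0) + Finsupp.single 1 (ext3 N d 1) = d := by
    rw [ext3_0, ext3_1]
    ext i
    fin_cases i <;> simp
  by_cases hmem : ext3 N d ∈ s.support
  · rw [Finset.sum_eq_single (ext3 N d)]
    · rw [if_pos hd']
    · intro e he hne
      rw [if_neg]
      intro h
      exact hne (huniq e he h)
    · intro h
      exact absurd hmem h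
  · rw [Finset.sum_eq_zero]
    · rw [mem_support_iff, not_not] at hmem
      exact hmem.symm
    · intro e he
      rw [if_neg]
      intro h
      rw [huniq e he h] at he
      exact hmem he

theorem dh_inj {s : MvPolynomial (Fin 3) k} {N : ℕ} (hs : s.IsHomogeneous N)
    (h : dh k s = 0) : s = 0 := by
  have h1 : (aeval ![X 0, X 1, 1] (rho' k s) : MvPolynomial (Fin 2) k) = 0 := h
  have h2 : rho' k s = 0 := by
    ext e
    rw [coeff_zero]
    by_cases he : e.degree = N
    · rw [deg3] at he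
      have h3 := coeff_aeval3 (hom_rho' hs) (Finsupp.single 0 (e 0) + Finsupp.single 1 (e 1))
        (by simp; omega)
      rw [h1, coeff_zero] at h3
      rw [h3]
      congr 1
      ext i
      fin_cases i
      · change e 0 = ext3 N _ 0
        rw [ext3_0]; simp
      · change e 1 = ext3 N _ 1
        rw [ext3_1]; simp
      · change e 2 = ext3 N _ 2
        rw [ext3_2]
        simp
        omega
    · exact (hom_rho' hs).coeff_eq_zero he
  rw [← rho_rho' s, h2, map_zero]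

/-- every polynomial is a dehomogenisation -/
theorem exists_hom (s : MvPolynomial (Fin 2) k) :
    ∃ (N : ℕ) (S : MvPolynomial (Fin 3) k), S.IsHomogeneous N ∧ dh k S = s := by
  induction s using MvPolynomial.induction_on' with
  | monomial d c =>
    refine ⟨d 0 + d 1, C c * (xx k ^ d 0 * yy k ^ d 1), ?_, ?_⟩
    · have h := (hom_xx (k := k)).pow (d 0)
      have h' := (hom_yy (k := k)).pow (d 1)
      rw [one_mul] at h h'
      exact (h.mul h').C_mul c
    · have hd : (Finsupp.single 0 (d 0) + Finsupp.single 1 (d 1) : Fin 2 →₀ ℕ) = d := by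
        ext i
        fin_cases i <;> simp
      rw [map_mul, map_mul, map_pow, map_pow, dh_xx, dh_yy, dh_C, X_pow_eq_monomial,
        X_pow_eq_monomial, monomial_mul, C_mul_monomial, one_mul, mul_one, hd]
  | add p q hp hq =>
    obtain ⟨N, S, hS, hSp⟩ := hp
    obtain ⟨M, T, hT, hTq⟩ := hq
    have h := (hom_zz (k := k)).pow M
    have h' := (hom_zz (k := k)).pow N
    rw [one_mul] at h h'
    refine ⟨M + N, zz k ^ M * S + zz k ^ N * T, (h.mul hS).add ?_, ?_⟩
    · rw [add_comm M N]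
      exact h'.mul hT
    · rw [map_add, map_mul, map_mul, map_pow, map_pow, dh_zz, one_pow, one_pow, one_mul, one_mul,
        hSp, hTq]

/-! ### the derivation -/

/-- `VF` in the new coordinates -/
noncomputable def VF' (s : MvPolynomial (Fin 3) k) : MvPolynomial (Fin 3) k :=
  C 2 * (X 0 * pderiv 0 s) - C 2 * (X 1 * pderiv 1 s)

theorem VF'_monomial (e : Fin 3 →₀ ℕ) (c : k) :
    VF' (monomial e c) = monomial e (2 * ((e 0 : k) - e 1) * c) := by
  rw [VF', X_mul_pderiv_monomial, X_mul_pderiv_monomial, smul_monomial,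
    smul_monomial, C_mul_monomial, C_mul_monomial, ← map_sub]
  congr 1
  simp only [nsmul_eq_mul]
  ring

theorem VF_C (c : k) : VF (C c : MvPolynomial (Fin 3) k) = 0 := by simp [VF]

theorem VF_add (s t : MvPolynomial (Fin 3) k) : VF (s + t) = VF s + VF t := by
  simp only [VF, map_add]; ring

theorem VF_mul (s t : MvPolynomial (Fin 3) k) : VF (s * t) = VF s * t + s * VF t := by
  simp only [VF, pderiv_mul]; ring

theorem VF'_C (c : k) : VF' (C c : MvPolynomial (Fin 3) k) = 0 := by simp [VF']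

theorem VF'_add (s t : MvPolynomial (Fin 3) k) : VF' (s + t) = VF' s + VF' t := by
  simp only [VF', map_add]; ring

theorem VF'_mul (s t : MvPolynomial (Fin 3) k) : VF' (s * t) = VF' s * t + s * VF' t := by
  simp only [VF', pderiv_mul]; ring

theorem VF_rho_X (i : Fin 3) : VF (rho k (X i)) = rho k (VF' (X i)) := by
  have h2 : (C 2 : MvPolynomial (Fin 3) k) = 2 := map_ofNat C 2
  fin_cases i
  · change VF (rho k (X 0)) = rho k (VF' (X 0))
    have e : VF' (X 0 : MvPolynomial (Fin 3) k) = 2 * X 0 := by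
      simp [VF', pderiv_X]
      rw [h2]
    rw [e, rho_X0, map_mul, rho_X0, map_ofNat]
    simp only [xx, VF, map_add, pderiv_X, Pi.single_apply]
    simp
    rw [h2]
    ring
  · change VF (rho k (X 1)) = rho k (VF' (X 1))
    have e : VF' (X 1 : MvPolynomial (Fin 3) k) = - 2 * X 1 := by
      simp [VF', pderiv_X]
      rw [h2]
    rw [e, rho_X1, map_mul, rho_X1, map_neg, map_ofNat]
    simp only [yy, VF, map_add, map_sub, pderiv_X, Pi.single_apply]
    simp
    rw [h2]
    ring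
  · change VF (rho k (X 2)) = rho k (VF' (X 2))
    have e : VF' (X 2 : MvPolynomial (Fin 3) k) = 0 := by
      simp [VF', pderiv_X]
    rw [e, rho_X2, map_zero]
    simp only [zz, VF, map_sub, pderiv_X, Pi.single_apply]
    simp

theorem VF_rho (s : MvPolynomial (Fin 3) k) : VF (rho k s) = rho k (VF' s) := by
  induction s using MvPolynomial.induction_on with
  | C c => rw [rho_C, VF_C, VF'_C, map_zero]
  | add p q hp hq => rw [map_add, VF_add, VF'_add, map_add, hp, hq]
  | mul_X p i hp => rw [map_mul, VF_mul, VF'_mul, map_add, map_mul, map_mul, hp, VF_rho_X]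

/-! ### values -/

section val

variable {f : MvPolynomial (Fin 3) k} (hf : Irreducible f)
  {v : MvPolynomial (Fin 3) k → ℝ} (hv : GV (fun s => f ∣ s) v)

include hv in
theorem two_sum {s t : MvPolynomial (Fin 3) k} {N : ℕ} (a : ℝ) (hs : s.IsHomogeneous N)
    (ht : t.IsHomogeneous N) (h : f ∣ s ∨ a ≤ v s) (h' : f ∣ t ∨ a ≤ v t) :
    f ∣ s + t ∨ a ≤ v (s + t) := by
  by_cases h1 : f ∣ s
  · by_cases h2 : f ∣ t
    · exact Or.inl (dvd_add h1 h2)
    · right
      rw [add_comm, hv.congr t s N ht hs h2 h1]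
      exact h'.resolve_left h2
  · by_cases h2 : f ∣ t
    · right
      rw [hv.congr s t N hs ht h1 h2]
      exact h.resolve_left h1
    · by_cases h3 : f ∣ s + t
      · exact Or.inl h3
      · exact Or.inr ((le_min (h.resolve_left h1) (h'.resolve_left h2)).trans
          (hv.add s t N hs ht h1 h2 h3))

include hf in
theorem not_dvd_C {c : k} (hc : c ≠ 0) : ¬ f ∣ (C c : MvPolynomial (Fin 3) k) := fun h =>
  hf.not_isUnit (isUnit_of_dvd_unit h ((isUnit_iff_ne_zero.2 hc).map C))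

include hf hv in
theorem C_val {c : k} (hc : c ≠ 0) {s : MvPolynomial (Fin 3) k} {N : ℕ} (hs : s.IsHomogeneous N)
    (h : ¬ f ∣ s) : ¬ f ∣ C c * s ∧ v (C c * s) = v s := by
  refine ⟨fun h' => (hf.prime.dvd_or_dvd h').elim (not_dvd_C hf hc) h, ?_⟩
  rw [hv.mul (C c) s 0 N (isHomogeneous_C _ _) hs (not_dvd_C hf hc) h, hv.const c hc, zero_add]

include hf hv in
theorem C_val' (c : k) {s : MvPolynomial (Fin 3) k} {N : ℕ} (a : ℝ) (hs : s.IsHomogeneous N)
    (h : f ∣ s ∨ a ≤ v s) : f ∣ C c * s ∨ a ≤ v (C c * s) := by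
  by_cases hc : c = 0
  · left
    rw [hc, C_0, zero_mul]
    exact dvd_zero f
  · by_cases h1 : f ∣ s
    · exact Or.inl (h1.mul_left _)
    · right
      rw [(C_val hf hv hc hs h1).2]
      exact h.resolve_left h1

include hf hv in
theorem pow_val {s : MvPolynomial (Fin 3) k} {N : ℕ} (hs : s.IsHomogeneous N) (h : ¬ f ∣ s)
    (n : ℕ) : ¬ f ∣ s ^ n ∧ v (s ^ n) = n * v s := by
  induction n with
  | zero =>
    rw [pow_zero]
    refine ⟨fun h' => hf.not_isUnit (isUnit_of_dvd_one h'), ?_⟩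
    rw [← C_1, hv.const 1 one_ne_zero]
    simp
  | succ n ih =>
    rw [pow_succ]
    refine ⟨fun h' => (hf.prime.dvd_or_dvd h').elim ih.1 h, ?_⟩
    rw [hv.mul (s ^ n) s (N * n) N (hs.pow n) hs ih.1 h, ih.2]
    push_cast
    ring

include hf hv in
theorem mul_val {s t : MvPolynomial (Fin 3) k} {M N : ℕ} (hs : s.IsHomogeneous M)
    (ht : t.IsHomogeneous N) (h : ¬ f ∣ s) (h' : ¬ f ∣ t) :
    ¬ f ∣ s * t ∧ v (s * t) = v s + v t :=
  ⟨fun h1 => (hf.prime.dvd_or_dvd h1).elim h h', hv.mul s t M N hs ht h h'⟩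

variable {m M : ℕ} (hm : 1 ≤ m) (hM : 1 ≤ M) (hf2 : ¬ f ∣ xx k) (hf3 : ¬ f ∣ yy k)
  (h2 : v (xx k) = M) (h3 : v (yy k) = m)

include hf hv hm hM h2 h3 in
theorem zz_unit : ¬ f ∣ zz k ∧ v (zz k) = 0 := by
  by_contra hcon
  obtain ⟨a, ha, haz⟩ : ∃ a : ℝ, 0 < a ∧ (f ∣ zz k ∨ a ≤ v (zz k)) := by
    by_cases h : f ∣ zz k
    · exact ⟨1, one_pos, Or.inl h⟩
    · have h4 := hv.nonneg _ _ hom_zz h
      have h5 : v (zz k) ≠ 0 := fun h5 => hcon ⟨h, h5⟩
      exact ⟨v (zz k), lt_of_le_of_ne h4 h5.symm, Or.inr le_rfl⟩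
  have hb : 0 < min a 1 := lt_min ha one_pos
  have hz : f ∣ zz k ∨ min a 1 ≤ v (zz k) := haz.imp id fun h => (min_le_left _ _).trans h
  have hx : f ∣ xx k ∨ min a 1 ≤ v (xx k) := by
    right
    rw [h2]
    refine (min_le_right _ _).trans ?_
    exact_mod_cast hM
  have hy : f ∣ yy k ∨ min a 1 ≤ v (yy k) := by
    right
    rw [h3]
    refine (min_le_right _ _).trans ?_
    exact_mod_cast hm
  have hlin : ∀ p q r : k, f ∣ (C p * xx k + C q * yy k) + C r * zz k ∨
      min a 1 ≤ v ((C p * xx k + C q * yy k) + C r * zz k) := fun p q r =>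
    two_sum hv _ ((hom_xx.C_mul p).add (hom_yy.C_mul q)) (hom_zz.C_mul r)
      (two_sum hv _ (hom_xx.C_mul p) (hom_yy.C_mul q) (C_val' hf hv p _ hom_xx hx)
        (C_val' hf hv q _ hom_yy hy)) (C_val' hf hv r _ hom_zz hz)
  obtain ⟨i, hi1, hi2⟩ := hv.unit
  have hX : ∃ p q r : k, (X i : MvPolynomial (Fin 3) k) =
      (C p * xx k + C q * yy k) + C r * zz k := by
    rw [← rho_rho' (X i : MvPolynomial (Fin 3) k)]
    fin_cases i
    · refine ⟨1 / 4, 1 / 4, 1 / 2, ?_⟩
      change rho k (rho' k (X 0)) = _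
      rw [rho'_X0, map_add, map_mul, map_mul, map_add, rho_C, rho_C, rho_X0, rho_X1, rho_X2]
      ring
    · refine ⟨1 / 2, - (1 / 2), 0, ?_⟩
      change rho k (rho' k (X 1)) = _
      rw [rho'_X1, map_mul, map_sub, rho_C, rho_X0, rho_X1, C_neg, C_0]
      ring
    · refine ⟨1 / 4, 1 / 4, - (1 / 2), ?_⟩
      change rho k (rho' k (X 2)) = _
      rw [rho'_X2, map_sub, map_mul, map_mul, map_add, rho_C, rho_C, rho_X0, rho_X1, rho_X2, C_neg]
      ring
  obtain ⟨p, q, r, hX⟩ := hX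
  rw [hX] at hi1 hi2
  rcases hlin p q r with h | h
  · exact hi1 h
  · linarith

include hf hv hm hM hf2 hf3 h2 h3 in
theorem mono_val {c : k} (hc : c ≠ 0) (i j l : ℕ) :
    (C c * (xx k ^ i * yy k ^ j * zz k ^ l)).IsHomogeneous (i + j + l) ∧
    ¬ f ∣ C c * (xx k ^ i * yy k ^ j * zz k ^ l) ∧
    v (C c * (xx k ^ i * yy k ^ j * zz k ^ l)) = i * M + j * m := by
  obtain ⟨hz1, hz2⟩ := zz_unit hf hv hm hM h2 h3
  have e1 := (hom_xx (k := k)).pow i
  have e2 := (hom_yy (k := k)).pow j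
  have e3 := (hom_zz (k := k)).pow l
  rw [one_mul] at e1 e2 e3
  have p1 := pow_val hf hv hom_xx hf2 i
  have p2 := pow_val hf hv hom_yy hf3 j
  have p3 := pow_val hf hv hom_zz hz1 l
  have q1 := mul_val hf hv e1 e2 p1.1 p2.1
  have q2 := mul_val hf hv (e1.mul e2) e3 q1.1 p3.1
  have q3 := C_val hf hv hc ((e1.mul e2).mul e3) q2.1
  refine ⟨((e1.mul e2).mul e3).C_mul c, q3.1, ?_⟩
  rw [q3.2, q2.2, q1.2, p1.2, p2.2, p3.2, h2, h3, hz2, mul_zero, add_zero]

/-! ### the valuation on `k[x, y]` -/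

/-- two homogeneous polynomials with the same dehomogenisation -/
theorem dh_eq {S T : MvPolynomial (Fin 3) k} {M N : ℕ} (hS : S.IsHomogeneous M)
    (hT : T.IsHomogeneous N) (h : dh k S = dh k T) : zz k ^ N * S = zz k ^ M * T := by
  have h4 := (hom_zz (k := k)).pow M
  have h5 := (hom_zz (k := k)).pow N
  rw [one_mul] at h4 h5
  have h6 : (zz k ^ M * T).IsHomogeneous (N + M) := by
    rw [add_comm]; exact h4.mul hT
  have h7 := dh_inj (s := zz k ^ N * S - zz k ^ M * T) ((h5.mul hS).sub h6) (by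
    rw [map_sub, map_mul, map_mul, map_pow, map_pow, dh_zz, one_pow, one_pow, one_mul, one_mul, h,
      sub_self])
  exact sub_eq_zero.1 h7

/-- a homogeneous polynomial with dehomogenisation `s` -/
noncomputable def lif (s : MvPolynomial (Fin 2) k) : MvPolynomial (Fin 3) k :=
  (exists_hom s).choose_spec.choose

theorem lif_spec (s : MvPolynomial (Fin 2) k) : ∃ N, (lif s).IsHomogeneous N ∧ dh k (lif s) = s :=
  ⟨(exists_hom s).choose, (exists_hom s).choose_spec.choose_spec⟩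

include hf hv hm hM h2 h3 in
theorem lif_iff {s : MvPolynomial (Fin 2) k} {S : MvPolynomial (Fin 3) k} {N : ℕ}
    (hS : S.IsHomogeneous N) (h : dh k S = s) :
    (f ∣ lif s ↔ f ∣ S) ∧ (¬ f ∣ S → v (lif s) = v S) := by
  obtain ⟨hz1, hz2⟩ := zz_unit hf hv hm hM h2 h3
  obtain ⟨M', h4, h5⟩ := lif_spec s
  have h6 := dh_eq h4 hS (h5.trans h.symm)
  have p1 := pow_val hf hv hom_zz hz1 N
  have p2 := pow_val hf hv hom_zz hz1 M'
  have e1 := (hom_zz (k := k)).pow N
  have e2 := (hom_zz (k := k)).pow M'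
  have h7 : f ∣ lif s ↔ f ∣ S := by
    constructor
    · intro h8
      have h9 : f ∣ zz k ^ M' * S := by rw [← h6]; exact h8.mul_left _
      exact (hf.prime.dvd_or_dvd h9).resolve_left p2.1
    · intro h8
      have h9 : f ∣ zz k ^ N * lif s := by rw [h6]; exact h8.mul_left _
      exact (hf.prime.dvd_or_dvd h9).resolve_left p1.1
  refine ⟨h7, fun h8 => ?_⟩
  have h9 : ¬ f ∣ lif s := fun h => h8 (h7.1 h)
  have q1 := mul_val hf hv e1 h4 p1.1 h9
  have q2 := mul_val hf hv e2 hS p2.1 h8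
  rw [h6, q2.2, p1.2, p2.2, hz2] at q1
  linarith [q1.2]

/-- statement of `newton` (CU1) -/
def NewtonS (k : Type*) [Field k] : Prop :=
  ∀ (ν : MvPolynomial (Fin 2) k → ℝ) (Zν : MvPolynomial (Fin 2) k → Prop),
    Zν 0 → (∀ s t, Zν s → Zν t → Zν (s + t)) → (∀ s t, Zν s → Zν (s * t)) →
    ∀ (α β : ℕ), 1 ≤ α → 1 ≤ β →
    (∀ (i j : ℕ) (c : k), c ≠ 0 → ¬ Zν (C c * X 0 ^ i * X 1 ^ j) ∧
      ν (C c * X 0 ^ i * X 1 ^ j) = i * α + j * β) →
    (∀ s t (a : ℝ), (Zν s ∨ a ≤ ν s) → (Zν t ∨ a ≤ ν t) → (Zν (s + t) ∨ a ≤ ν (s + t))) →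
    ∀ φ : MvPolynomial (Fin 2) k, φ ≠ 0 → Zν φ → ∀ C0 : ℕ,
    (∀ n : ℕ, ∃ (m : ℕ) (s : Fin m → MvPolynomial (Fin 2) k), n ≤ m + C0 ∧
      ∀ a : Fin m → k, a ≠ 0 → ¬ (Zν (∑ i, C (a i) * s i) ∨ (n : ℝ) ≤ ν (∑ i, C (a i) * s i))) →
    ∀ d ∈ φ.support, α * β ≤ d 0 * α + d 1 * β

include hf hv hm hM hf2 hf3 h2 h3 in
/-- the Newton polygon of `f` in the coordinates `x, y, z` -/
theorem weights (HN : NewtonS k) {δ : ℕ} (hδ : f.IsHomogeneous δ) (h1 : 1 ≤ δ)
    (HI : ∃ C0 : ℕ, ∀ N n : ℕ, n ≤ δ * N → ∃ (m : ℕ) (s : Fin m → MvPolynomial (Fin 3) k),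
      n ≤ m + C0 ∧ (∀ i, (s i).IsHomogeneous N) ∧ ∀ a : Fin m → k, a ≠ 0 →
        ¬ (f ∣ ∑ i, C (a i) * s i) ∧ v (∑ i, C (a i) * s i) < n)
    (e : Fin 3 →₀ ℕ) (he : e ∈ (rho' k f).support) : M * m ≤ e 0 * M + e 1 * m := by
  obtain ⟨hz1, hz2⟩ := zz_unit hf hv hm hM h2 h3
  obtain ⟨C0, HI⟩ := HI
  have hlif : ∀ (s : MvPolynomial (Fin 2) k) (S : MvPolynomial (Fin 3) k) (N : ℕ),
      S.IsHomogeneous N → dh k S = s → (f ∣ lif s ↔ f ∣ S) ∧ (¬ f ∣ S → v (lif s) = v S) :=
    fun s S N hS h => lif_iff hf hv hm hM h2 h3 hS h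
  have hsum : ∀ s t : MvPolynomial (Fin 2) k, ∃ (S T : MvPolynomial (Fin 3) k) (N : ℕ),
      S.IsHomogeneous N ∧ T.IsHomogeneous N ∧ dh k S = s ∧ dh k T = t := by
    intro s t
    obtain ⟨N, S, hS, hSs⟩ := exists_hom s
    obtain ⟨N', T, hT, hTt⟩ := exists_hom t
    have e1 := (hom_zz (k := k)).pow N
    have e2 := (hom_zz (k := k)).pow N'
    rw [one_mul] at e1 e2
    refine ⟨zz k ^ N' * S, zz k ^ N * T, N' + N, e2.mul hS, ?_, ?_, ?_⟩
    · rw [add_comm]; exact e1.mul hT
    · rw [map_mul, map_pow, dh_zz, one_pow, one_mul, hSs]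
    · rw [map_mul, map_pow, dh_zz, one_pow, one_mul, hTt]
  have hf0 : f ≠ 0 := hf.ne_zero
  have hφ : dh k f ≠ 0 := fun h => hf0 (dh_inj hδ h)
  have key := HN (fun s => v (lif s)) (fun s => f ∣ lif s) ?_ ?_ ?_ M m hM hm ?_ ?_ (dh k f) hφ ?_
    C0 ?_ (Finsupp.single 0 (e 0) + Finsupp.single 1 (e 1)) ?_
  · simpa using key
  · exact (hlif 0 0 0 (isHomogeneous_zero _ _ _) (map_zero _)).1.2 (dvd_zero f)
  · intro s t hs ht
    obtain ⟨S, T, N, hS, hT, hSs, hTt⟩ := hsum s t
    rw [(hlif s S N hS hSs).1] at hs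
    rw [(hlif t T N hT hTt).1] at ht
    exact (hlif (s + t) (S + T) N (hS.add hT) (by rw [map_add, hSs, hTt])).1.2 (dvd_add hs ht)
  · intro s t hs
    obtain ⟨S, T, N, hS, hT, hSs, hTt⟩ := hsum s t
    rw [(hlif s S N hS hSs).1] at hs
    exact (hlif (s * t) (S * T) (N + N) (hS.mul hT) (by rw [map_mul, hSs, hTt])).1.2
      (hs.mul_right _)
  · intro i j c hc
    obtain ⟨q1, q2, q3⟩ := mono_val hf hv hm hM hf2 hf3 h2 h3 hc i j 0
    have h4 := hlif (C c * X 0 ^ i * X 1 ^ j) _ _ q1 (by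
      rw [map_mul, map_mul, map_mul, map_pow, map_pow, dh_xx, dh_yy, dh_C, pow_zero, map_one,
        mul_one, mul_assoc])
    exact ⟨fun h => q2 (h4.1.1 h), (h4.2 q2).trans q3⟩
  · intro s t a hs ht
    obtain ⟨S, T, N, hS, hT, hSs, hTt⟩ := hsum s t
    have a1 := hlif s S N hS hSs
    have a2 := hlif t T N hT hTt
    have a3 := hlif (s + t) (S + T) N (hS.add hT) (by rw [map_add, hSs, hTt])
    have b1 : f ∣ S ∨ a ≤ v S := by
      by_cases h : f ∣ S
      · exact Or.inl h
      · right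
        rw [← a1.2 h]
        exact hs.resolve_left (fun h' => h (a1.1.1 h'))
    have b2 : f ∣ T ∨ a ≤ v T := by
      by_cases h : f ∣ T
      · exact Or.inl h
      · right
        rw [← a2.2 h]
        exact ht.resolve_left (fun h' => h (a2.1.1 h'))
    by_cases h : f ∣ S + T
    · exact Or.inl (a3.1.2 h)
    · right
      rw [a3.2 h]
      exact (two_sum hv a hS hT b1 b2).resolve_left h
  · exact (hlif (dh k f) f δ hδ rfl).1.2 dvd_rfl
  · intro n
    obtain ⟨m', s, hs1, hs2, hs3⟩ := HI n n (by nlinarith)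
    refine ⟨m', fun i => dh k (s i), hs1, fun a ha => ?_⟩
    obtain ⟨c1, c2⟩ := hs3 a ha
    have hS : (∑ i, C (a i) * s i).IsHomogeneous n :=
      IsHomogeneous.sum _ _ _ fun i _ => (hs2 i).C_mul _
    have h4 := hlif (∑ i, C (a i) * dh k (s i)) _ n hS (by
      rw [map_sum]
      exact Finset.sum_congr rfl fun i _ => by rw [map_mul, dh_C])
    rintro (h5 | h5)
    · exact c1 (h4.1.1 h5)
    · simp only at h5
      rw [h4.2 c1] at h5
      linarith
  · rw [mem_support_iff]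
    have h4 : e.degree = δ := by
      by_contra h
      exact (mem_support_iff.1 he) ((hom_rho' hδ).coeff_eq_zero h)
    rw [deg3] at h4
    have h5 := coeff_aeval3 (hom_rho' hδ) (Finsupp.single 0 (e 0) + Finsupp.single 1 (e 1))
      (by simp; omega)
    change coeff _ (aeval ![X 0, X 1, 1] (rho' k f) : MvPolynomial (Fin 2) k) ≠ 0
    rw [h5]
    have h6 : ext3 δ (Finsupp.single 0 (e 0) + Finsupp.single 1 (e 1)) = e := by
      ext i
      fin_cases i
      · change ext3 δ _ 0 = e 0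
        rw [ext3_0]; simp
      · change ext3 δ _ 1 = e 1
        rw [ext3_1]; simp
      · change ext3 δ _ 2 = e 2
        rw [ext3_2]
        simp
        omega
    rw [h6]
    exact mem_support_iff.1 he

/-- some monomial does not contain the variable `i` -/
theorem exists_support_zero {F : MvPolynomial (Fin 3) k} (i : Fin 3) (h : ¬ X i ∣ F) :
    ∃ e ∈ F.support, e i = 0 := by
  by_contra hcon
  push Not at hcon
  apply h
  rw [F.as_sum]
  refine Finset.dvd_sum fun e he => ?_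
  refine ⟨monomial (e - Finsupp.single i 1) (coeff e F), ?_⟩
  have hee : Finsupp.single i 1 + (e - Finsupp.single i 1) = e := by
    ext j
    by_cases hj : j = i
    · subst hj
      have := hcon e he
      simp
      omega
    · simp [Ne.symm hj]
  rw [X, monomial_mul, one_mul, hee]

include hf hv hm hM hf2 hf3 h2 h3 in
theorem main (HN : NewtonS k) {δ : ℕ} (hδ : f.IsHomogeneous δ) (h1 : 1 ≤ δ)
    (HI : ∃ C0 : ℕ, ∀ N n : ℕ, n ≤ δ * N → ∃ (m : ℕ) (s : Fin m → MvPolynomial (Fin 3) k),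
      n ≤ m + C0 ∧ (∀ i, (s i).IsHomogeneous N) ∧ ∀ a : Fin m → k, a ≠ 0 →
        ¬ (f ∣ ∑ i, C (a i) * s i) ∧ v (∑ i, C (a i) * s i) < n) :
    ¬ f ∣ VF f ∧ (m * M : ℝ) ≤ v (VF f) := by
  have hw := weights hf hv hm hM hf2 hf3 h2 h3 HN hδ h1 HI
  set F := rho' k f with hF
  have hfF : rho k F = f := rho_rho' f
  have hFhom : F.IsHomogeneous δ := hom_rho' hδ
  -- `VF f` as a sum of terms
  have hterm : ∀ (e : Fin 3 →₀ ℕ) (c : k), rho k (monomial e c) =
      C c * (xx k ^ e 0 * yy k ^ e 1 * zz k ^ e 2) := by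
    intro e c
    rw [rho, aeval_monomial, Finsupp.prod_fintype _ _ (fun _ => pow_zero _), Fin.prod_univ_three]
    rfl
  have hVF : VF f = ∑ e ∈ F.support, C (2 * ((e 0 : k) - e 1) * coeff e F) *
      (xx k ^ e 0 * yy k ^ e 1 * zz k ^ e 2) := by
    have hadd : ∀ (I : Finset (Fin 3 →₀ ℕ)) (g : (Fin 3 →₀ ℕ) → MvPolynomial (Fin 3) k),
        VF' (∑ e ∈ I, g e) = ∑ e ∈ I, VF' (g e) := by
      classical
      intro I g
      induction I using Finset.induction_on with
      | empty =>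
        rw [Finset.sum_empty, Finset.sum_empty, ← C_0, VF'_C, C_0]
      | insert a I ha ih => rw [Finset.sum_insert ha, Finset.sum_insert ha, VF'_add, ih]
    conv_lhs => rw [← hfF, VF_rho, F.as_sum, hadd, map_sum]
    refine Finset.sum_congr rfl fun e _ => ?_
    rw [VF'_monomial, hterm]
  have hVFhom : (VF f).IsHomogeneous δ := by
    rw [hVF]
    refine IsHomogeneous.sum _ _ _ fun e he => ?_
    have h4 : e.degree = δ := by
      by_contra h
      exact (mem_support_iff.1 he) (hFhom.coeff_eq_zero h)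
    rw [deg3] at h4
    have e1 := (hom_xx (k := k)).pow (e 0)
    have e2 := (hom_yy (k := k)).pow (e 1)
    have e3 := (hom_zz (k := k)).pow (e 2)
    rw [one_mul] at e1 e2 e3
    rw [← h4]
    exact ((e1.mul e2).mul e3).C_mul _
  -- lower bound for the value
  have hval : ∀ I : Finset (Fin 3 →₀ ℕ), I ⊆ F.support →
      (∑ e ∈ I, C (2 * ((e 0 : k) - e 1) * coeff e F) *
        (xx k ^ e 0 * yy k ^ e 1 * zz k ^ e 2)).IsHomogeneous δ ∧
      (f ∣ ∑ e ∈ I, C (2 * ((e 0 : k) - e 1) * coeff e F) *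
        (xx k ^ e 0 * yy k ^ e 1 * zz k ^ e 2) ∨ (m * M : ℝ) ≤
      v (∑ e ∈ I, C (2 * ((e 0 : k) - e 1) * coeff e F) *
        (xx k ^ e 0 * yy k ^ e 1 * zz k ^ e 2))) := by
    classical
    intro I
    induction I using Finset.induction_on with
    | empty =>
      intro _
      rw [Finset.sum_empty]
      exact ⟨isHomogeneous_zero _ _ _, Or.inl (dvd_zero f)⟩
    | insert e I heI ih =>
      intro hI
      obtain ⟨i1, i2⟩ := ih (fun x hx => hI (Finset.mem_insert_of_mem hx))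
      have he : e ∈ F.support := hI (Finset.mem_insert_self _ _)
      have h4 : e.degree = δ := by
        by_contra h
        exact (mem_support_iff.1 he) (hFhom.coeff_eq_zero h)
      rw [deg3] at h4
      rw [Finset.sum_insert heI]
      have e1 := (hom_xx (k := k)).pow (e 0)
      have e2 := (hom_yy (k := k)).pow (e 1)
      have e3 := (hom_zz (k := k)).pow (e 2)
      rw [one_mul] at e1 e2 e3
      have h5 : (C (2 * ((e 0 : k) - e 1) * coeff e F) *
          (xx k ^ e 0 * yy k ^ e 1 * zz k ^ e 2)).IsHomogeneous δ := by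
        rw [← h4]
        exact ((e1.mul e2).mul e3).C_mul _
      refine ⟨h5.add i1, two_sum hv _ h5 i1 ?_ i2⟩
      by_cases hc : 2 * ((e 0 : k) - e 1) * coeff e F = 0
      · left
        rw [hc, C_0, zero_mul]
        exact dvd_zero f
      · right
        rw [(mono_val hf hv hm hM hf2 hf3 h2 h3 hc (e 0) (e 1) (e 2)).2.2]
        have h6 := hw e he
        have h7 : ((M * m : ℕ) : ℝ) ≤ ((e 0 * M + e 1 * m : ℕ) : ℝ) := by exact_mod_cast h6
        push_cast at h7
        linarith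
  have hval' := (hval F.support subset_rfl).2
  rw [← hVF] at hval'
  have hnd : ¬ f ∣ VF f := by
    rintro ⟨q, hq⟩
    -- `VF f = κ f`
    obtain ⟨κ, hκ⟩ : ∃ κ : k, VF f = C κ * f := by
      by_cases h0 : VF f = 0
      · exact ⟨0, by rw [h0, C_0, zero_mul]⟩
      · have hq0 : q ≠ 0 := by rintro rfl; rw [mul_zero] at hq; exact h0 hq
        have d1 := hVFhom.totalDegree h0
        have d2 := hδ.totalDegree hf.ne_zero
        rw [hq, totalDegree_mul_of_isDomain hf.ne_zero hq0, d2] at d1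
        have d3 : q.totalDegree = 0 := by omega
        rw [totalDegree_eq_zero_iff_eq_C] at d3
        exact ⟨coeff 0 q, by rw [hq, ← d3, mul_comm]⟩
    have hco : ∀ e ∈ F.support, 2 * ((e 0 : k) - e 1) = κ := by
      intro e he
      have h5 : VF' F = C κ * F := by
        have h6 := congrArg (rho' k) hκ
        rw [← hfF, VF_rho, rho'_rho, map_mul, rho'_C, rho'_rho] at h6
        exact h6
      have h7 : coeff e (VF' F) = 2 * ((e 0 : k) - e 1) * coeff e F := by
        classical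
        have hadd : ∀ (I : Finset (Fin 3 →₀ ℕ)) (g : (Fin 3 →₀ ℕ) → MvPolynomial (Fin 3) k),
            VF' (∑ e ∈ I, g e) = ∑ e ∈ I, VF' (g e) := by
          intro I g
          induction I using Finset.induction_on with
          | empty =>
            rw [Finset.sum_empty, Finset.sum_empty, ← C_0, VF'_C, C_0]
          | insert a I ha ih => rw [Finset.sum_insert ha, Finset.sum_insert ha, VF'_add, ih]
        conv_lhs => rw [F.as_sum, hadd, coeff_sum]
        simp only [VF'_monomial, coeff_monomial]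
        rw [Finset.sum_ite_eq' F.support e, if_pos he]
      rw [h5, coeff_C_mul] at h7
      exact (mul_right_cancel₀ (mem_support_iff.1 he) h7).symm
    have hnx : ¬ X 0 ∣ F := by
      rintro ⟨G, hG⟩
      have h5 : f = xx k * rho k G := by rw [← hfF, hG, map_mul, rho_X0]
      rcases hf.isUnit_or_isUnit h5 with h7 | h7
      · have h8 := isUnit_iff_totalDegree_of_isReduced.1 h7
        have h9 := (hom_xx (k := k)).totalDegree (fun h => hf2 (h ▸ dvd_zero f))
        omega
      · apply hf2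
        obtain ⟨u, hu⟩ := h7
        exact ⟨↑u⁻¹, by rw [h5, ← hu]; simp⟩
    have hny : ¬ X 1 ∣ F := by
      rintro ⟨G, hG⟩
      have h5 : f = yy k * rho k G := by rw [← hfF, hG, map_mul, rho_X1]
      rcases hf.isUnit_or_isUnit h5 with h7 | h7
      · have h8 := isUnit_iff_totalDegree_of_isReduced.1 h7
        have h9 := (hom_yy (k := k)).totalDegree (fun h => hf3 (h ▸ dvd_zero f))
        omega
      · apply hf3
        obtain ⟨u, hu⟩ := h7
        exact ⟨↑u⁻¹, by rw [h5, ← hu]; simp⟩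
    obtain ⟨e, he, he0⟩ := exists_support_zero 0 hnx
    obtain ⟨e', he', he'0⟩ := exists_support_zero 1 hny
    have h5 := (hco e he).trans (hco e' he').symm
    rw [he0, he'0] at h5
    have h6 : ((e' 0 + e 1 : ℕ) : k) = 0 := by
      push_cast at h5 ⊢
      have h7 : (2 : k) * (e' 0 + e 1) = 0 := by linear_combination -h5
      exact (mul_eq_zero.1 h7).resolve_left two_ne_zero
    have h7 : e' 0 + e 1 = 0 := by exact_mod_cast h6
    have h8 := hw e he
    rw [he0, show e 1 = 0 by omega] at h8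
    have h9 : 0 < M * m := Nat.mul_pos hM hm
    omega
  exact ⟨hnd, hval'.resolve_left hnd⟩

end val

end CU4

variable {k : Type*} [Field k] [CharZero k]

/-- CU4. `v`-side: transversal point, `T₂ = a + b + c`, `T₃ = a - b + c` of values `M`, `m`. -/
theorem VF_v {f : MvPolynomial (Fin 3) k} (hf : Irreducible f) {δ : ℕ}
    (hδ : f.IsHomogeneous δ) (h1 : 1 ≤ δ) {v : MvPolynomial (Fin 3) k → ℝ}
    (hv : GV (fun s => f ∣ s) v) (nv : NormC f δ v) (m M : ℕ) (hm : 1 ≤ m) (hM : 1 ≤ M)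
    (hf2 : ¬ f ∣ (X 0 + X 1 + X 2)) (hf3 : ¬ f ∣ (X 0 - X 1 + X 2))
    (h2 : v (X 0 + X 1 + X 2) = M) (h3 : v (X 0 - X 1 + X 2) = m) :
    ¬ f ∣ VF f ∧ (m * M : ℝ) ≤ v (VF f) :=
  CU4.main hf hv hm hM hf2 hf3 h2 h3
    (fun ν Zν a1 a2 a3 α β a4 a5 a6 a7 φ a8 a9 C0 a10 =>
      newton ν Zν a1 a2 a3 α β a4 a5 a6 a7 φ a8 a9 C0 a10) hδ h1
    (NormC.indep hf hδ h1 hv nv)

end Pool.Agent.V2
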