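import Pool.Agent.Helper21.V2.CU6Core
import Pool.Agent.Helper21.V2.CU4
import Pool.Agent.Helper21.V2.CU5

/-!
# Block CU6 (helper80): two places in normal position
-/

namespace Pool.Agent.V2

open MvPolynomial

variable {k : Type*} [Field k] [CharZero k]

/-- CU6. two places in normal position. -/
theorem two_normal {f : MvPolynomial (Fin 3) k} (hf : Irreducible f) {δ : ℕ}
    (hδ : f.IsHomogeneous δ) (h1 : 1 ≤ δ) {u v : MvPolynomial (Fin 3) k → ℝ}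
    (hu : GV (fun s => f ∣ s) u) (nu : NormC f δ u) (hv : GV (fun s => f ∣ s) v)
    (nv : NormC f δ v)
    (bez : ∀ s (N : ℕ), s.IsHomogeneous N → ¬ f ∣ s → u s + v s ≤ δ * N)
    (hfD : ¬ f ∣ Dis) (hf1 : ¬ f ∣ X 0) (hf2 : ¬ f ∣ (X 0 + X 1 + X 2))
    (hf3 : ¬ f ∣ (X 0 - X 1 + X 2))
    (hL : 0 < u (X 0)) (hI : 0 < u Dis) (hM : 0 < v (X 0 + X 1 + X 2))
    (hm : 0 < v (X 0 - X 1 + X 2)) :
    u Dis + u (X 0) + v (X 0 + X 1 + X 2) + v (X 0 - X 1 + X 2) ≤ 4 * δ :=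
  CU6.core hf hδ h1 hu nu hv nv bez hfD hf1 hf2 hf3 hL hI hM hm
    (fun m M hm1 hM1 e2 e3 => VF_v hf hδ h1 hv nv m M hm1 hM1 hf2 hf3 e2 e3)
    (fun e I he hI a b c d e' g => VF_u hf hδ h1 hu nu e I he hI a b hfD c d e' g)

end Pool.Agent.V2
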