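import Pool.Agent.Helper21.V2.TR
import Pool.Agent.Helper21.V2.CU6

/-!
# CU7: two places, three distinct points (change of coordinates by `PGL₂`)
-/

namespace Pool.Agent.V2

open MvPolynomial

namespace CU7

variable {k : Type*} [Field k]

/-- The matrix of the action of `[[p, q], [r, s]]` on the coefficients of binary quadratic forms. -/
def qm (p q r s : k) : Matrix (Fin 3) (Fin 3) k :=
  !![p ^ 2, p * r, r ^ 2; 2 * p * q, p * s + q * r, 2 * r * s; q ^ 2, q * s, s ^ 2]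

theorem qm_det (p q r s : k) : (qm p q r s).det = (p * s - q * r) ^ 3 := by
  rw [qm, Matrix.det_fin_three]
  simp
  ring

theorem qm_row0 (p q r s : k) (f : Fin 3 → MvPolynomial (Fin 3) k) :
    ∑ j, C (qm p q r s 0 j) * f j = C (p ^ 2) * f 0 + C (p * r) * f 1 + C (r ^ 2) * f 2 := by
  simp [qm, Fin.sum_univ_three]

theorem qm_row1 (p q r s : k) (f : Fin 3 → MvPolynomial (Fin 3) k) :
    ∑ j, C (qm p q r s 1 j) * f j =
      C (2 * p * q) * f 0 + C (p * s + q * r) * f 1 + C (2 * r * s) * f 2 := by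
  simp [qm, Fin.sum_univ_three]

theorem qm_row2 (p q r s : k) (f : Fin 3 → MvPolynomial (Fin 3) k) :
    ∑ j, C (qm p q r s 2 j) * f j = C (q ^ 2) * f 0 + C (q * s) * f 1 + C (s ^ 2) * f 2 := by
  simp [qm, Fin.sum_univ_three]

theorem sub3_X (g : Matrix (Fin 3) (Fin 3) k) (i : Fin 3) :
    sub3 g (X i) = ∑ j, C (g i j) * X j := by
  rw [sub3, bind₁_X_right]

theorem sub3_X0 (p q r s : k) : sub3 (qm p q r s) (X 0) = Tan ![p, r] := by
  rw [sub3_X, qm_row0 p q r s X, Tan]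
  simp

theorem sub3_plus (p q r s : k) :
    sub3 (qm p q r s) (X 0 + X 1 + X 2) = Tan ![p + q, r + s] := by
  have h : sub3 (qm p q r s) (X 0 + X 1 + X 2) = sub3 (qm p q r s) (X 0) +
      sub3 (qm p q r s) (X 1) + sub3 (qm p q r s) (X 2) := by simp only [sub3, map_add]
  rw [h, sub3_X, sub3_X, sub3_X, qm_row0 p q r s X, qm_row1 p q r s X, qm_row2 p q r s X, Tan]
  simp only [Matrix.cons_val_zero, Matrix.cons_val_one, map_add, map_mul, map_pow, map_ofNat]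
  ring

theorem sub3_minus (p q r s : k) :
    sub3 (qm p q r s) (X 0 - X 1 + X 2) = Tan ![p - q, r - s] := by
  have h : sub3 (qm p q r s) (X 0 - X 1 + X 2) = sub3 (qm p q r s) (X 0) -
      sub3 (qm p q r s) (X 1) + sub3 (qm p q r s) (X 2) := by simp only [sub3, map_add, map_sub]
  rw [h, sub3_X, sub3_X, sub3_X, qm_row0 p q r s X, qm_row1 p q r s X, qm_row2 p q r s X, Tan]
  simp only [Matrix.cons_val_zero, Matrix.cons_val_one, map_add, map_sub, map_mul, map_pow,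
    map_ofNat]
  ring

theorem sub3_Dis (p q r s : k) :
    sub3 (qm p q r s) Dis = C ((p * s - q * r) ^ 2) * Dis := by
  have h : sub3 (qm p q r s) Dis = sub3 (qm p q r s) (X 1) ^ 2 -
      C 4 * sub3 (qm p q r s) (X 0) * sub3 (qm p q r s) (X 2) := by
    simp only [sub3, Dis, map_sub, map_mul, map_pow, bind₁_C_right]
  rw [h, sub3_X, sub3_X, sub3_X, qm_row0 p q r s X, qm_row1 p q r s X, qm_row2 p q r s X, Dis]
  simp only [map_add, map_sub, map_mul, map_pow, map_ofNat]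
  ring

theorem Tan_smul (a : k) (α : Fin 2 → k) : Tan ![a * α 0, a * α 1] = C (a ^ 2) * Tan α := by
  simp only [Tan, Matrix.cons_val_zero, Matrix.cons_val_one, map_mul, map_pow]
  ring

theorem hom_C (a : k) : (C a : MvPolynomial (Fin 3) k).IsHomogeneous 0 := isHomogeneous_C _ a

theorem isUnit_C {a : k} (ha : a ≠ 0) : IsUnit (C a : MvPolynomial (Fin 3) k) :=
  (isUnit_iff_ne_zero.mpr ha).map C

theorem dvd_C_mul {a : k} (ha : a ≠ 0) (f s : MvPolynomial (Fin 3) k) :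
    f ∣ C a * s ↔ f ∣ s := by
  obtain ⟨c, hc⟩ := isUnit_C ha
  rw [← hc]
  exact Units.dvd_mul_left

theorem val_C_mul {f : MvPolynomial (Fin 3) k} (hf : Irreducible f)
    {w : MvPolynomial (Fin 3) k → ℝ} (hw : GV (fun s => f ∣ s) w) {a : k} (ha : a ≠ 0)
    {s : MvPolynomial (Fin 3) k} {N : ℕ} (hs : s.IsHomogeneous N) (hfs : ¬ f ∣ s) :
    w (C a * s) = w s := by
  have h1 : ¬ f ∣ (C a : MvPolynomial (Fin 3) k) := fun h =>
    hf.not_isUnit (isUnit_of_dvd_unit h (isUnit_C ha))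
  have := hw.mul (C a) s 0 N (hom_C a) hs h1 hfs
  rw [this, hw.const a ha, zero_add]

theorem hom_Tan (α : Fin 2 → k) : (Tan α).IsHomogeneous 1 := by
  unfold Tan
  have h : ∀ (a : k) (i : Fin 3), (C a * X i : MvPolynomial (Fin 3) k).IsHomogeneous 1 := by
    intro a i
    have := (isHomogeneous_C (Fin 3) a).mul (isHomogeneous_X k i)
    simpa using this
  exact ((h _ 0).add (h _ 1)).add (h _ 2)

theorem hom_Dis : (Dis : MvPolynomial (Fin 3) k).IsHomogeneous 2 := by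
  unfold Dis
  have h1 : (X 1 ^ 2 : MvPolynomial (Fin 3) k).IsHomogeneous 2 := by
    simpa using (isHomogeneous_X k (1 : Fin 3)).pow 2
  have h2 : (C 4 * X 0 * X 2 : MvPolynomial (Fin 3) k).IsHomogeneous 2 := by
    have := ((isHomogeneous_C (Fin 3) (4 : k)).mul (isHomogeneous_X k 0)).mul (isHomogeneous_X k 2)
    simpa using this
  exact h1.sub h2

end CU7

open CU7

variable {k : Type*} [Field k] [CharZero k]

/-- CU7. two places, three distinct points. -/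
theorem two_core {f : MvPolynomial (Fin 3) k} (hf : Irreducible f) {δ : ℕ}
    (hδ : f.IsHomogeneous δ) (h1 : 1 ≤ δ) {u v : MvPolynomial (Fin 3) k → ℝ}
    (hu : GV (fun s => f ∣ s) u) (nu : NormC f δ u) (hv : GV (fun s => f ∣ s) v)
    (nv : NormC f δ v)
    (bez : ∀ s (N : ℕ), s.IsHomogeneous N → ¬ f ∣ s → u s + v s ≤ δ * N)
    (hfD : ¬ f ∣ Dis) (α β γ : Fin 2 → k)
    (h12 : α 0 * β 1 ≠ α 1 * β 0) (h13 : α 0 * γ 1 ≠ α 1 * γ 0) (h23 : β 0 * γ 1 ≠ β 1 * γ 0)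
    (hα : ¬ f ∣ Tan α) (hβ : ¬ f ∣ Tan β) (hγ : ¬ f ∣ Tan γ)
    (hL : 0 < u (Tan α)) (hI : 0 < u Dis) (hM : 0 < v (Tan β)) (hm : 0 < v (Tan γ)) :
    u Dis + u (Tan α) + v (Tan β) + v (Tan γ) ≤ 4 * δ := by
  -- `P = [A α | B β + G γ]`, `P (1, 1) = 2 B β`, `P (1, -1) = -2 G γ`
  set A : k := β 0 * γ 1 - β 1 * γ 0 with hA
  set B : k := α 0 * γ 1 - α 1 * γ 0 with hB
  set G : k := α 0 * β 1 - α 1 * β 0 with hG
  have hA0 : A ≠ 0 := sub_ne_zero.mpr h23
  have hB0 : B ≠ 0 := sub_ne_zero.mpr h13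
  have hG0 : G ≠ 0 := sub_ne_zero.mpr h12
  set p : k := A * α 0 with hp
  set r : k := A * α 1 with hr
  set q : k := B * β 0 + G * γ 0 with hq
  set s : k := B * β 1 + G * γ 1 with hs
  have hdet : p * s - q * r = 2 * A * B * G := by
    rw [hp, hr, hq, hs, hA, hB, hG]; ring
  have hdet0 : p * s - q * r ≠ 0 := by
    rw [hdet]
    exact mul_ne_zero (mul_ne_zero (mul_ne_zero two_ne_zero hA0) hB0) hG0
  set g := qm p q r s with hg
  have hgdet : IsUnit g.det := by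
    rw [hg, qm_det]
    exact isUnit_iff_ne_zero.mpr (pow_ne_zero 3 hdet0)
  set g' := g⁻¹ with hg'
  have hgg : g * g' = 1 := Matrix.mul_nonsing_inv g hgdet
  have e0 : sub3 g (X 0) = C (A ^ 2) * Tan α := by
    rw [hg, sub3_X0, hp, hr, Tan_smul]
  have e1 : sub3 g (X 0 + X 1 + X 2) = C ((2 * B) ^ 2) * Tan β := by
    rw [hg, sub3_plus, ← Tan_smul]
    congr 1
    have i1 : p + q = 2 * B * β 0 := by rw [hp, hq, hA, hB, hG]; ring
    have i2 : r + s = 2 * B * β 1 := by rw [hr, hs, hA, hB, hG]; ring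
    rw [i1, i2]
  have e2 : sub3 g (X 0 - X 1 + X 2) = C ((-2 * G) ^ 2) * Tan γ := by
    rw [hg, sub3_minus, ← Tan_smul]
    congr 1
    have i1 : p - q = -2 * G * γ 0 := by rw [hp, hq, hA, hB, hG]; ring
    have i2 : r - s = -2 * G * γ 1 := by rw [hr, hs, hA, hB, hG]; ring
    rw [i1, i2]
  have e3 : sub3 g Dis = C ((p * s - q * r) ^ 2) * Dis := by rw [hg, sub3_Dis]
  have n0 : A ^ 2 ≠ 0 := pow_ne_zero 2 hA0
  have n1 : (2 * B) ^ 2 ≠ 0 := pow_ne_zero 2 (mul_ne_zero two_ne_zero hB0)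
  have n2 : (-2 * G) ^ 2 ≠ 0 :=
    pow_ne_zero 2 (mul_ne_zero (neg_ne_zero.mpr two_ne_zero) hG0)
  have n3 : (p * s - q * r) ^ 2 ≠ 0 := pow_ne_zero 2 hdet0
  have u0 : u (sub3 g (X 0)) = u (Tan α) := by rw [e0, val_C_mul hf hu n0 (hom_Tan α) hα]
  have u3 : u (sub3 g Dis) = u Dis := by rw [e3, val_C_mul hf hu n3 hom_Dis hfD]
  have v1 : v (sub3 g (X 0 + X 1 + X 2)) = v (Tan β) := by
    rw [e1, val_C_mul hf hv n1 (hom_Tan β) hβ]
  have v2 : v (sub3 g (X 0 - X 1 + X 2)) = v (Tan γ) := by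
    rw [e2, val_C_mul hf hv n2 (hom_Tan γ) hγ]
  have key := two_normal (sub3_irr hgg hf) (sub3_hom g' hδ) h1
    (GV.sub3 hgg hf hδ h1 hu) (NormC.sub3 hgg nu) (GV.sub3 hgg hf hδ h1 hv) (NormC.sub3 hgg nv)
    (fun t N ht hft => bez _ N (sub3_hom g ht) (fun h => hft ((sub3_dvd hgg f t).mpr h)))
    (by rw [sub3_dvd hgg, e3, dvd_C_mul n3]; exact hfD)
    (by rw [sub3_dvd hgg, e0, dvd_C_mul n0]; exact hα)
    (by rw [sub3_dvd hgg, e1, dvd_C_mul n1]; exact hβ)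
    (by rw [sub3_dvd hgg, e2, dvd_C_mul n2]; exact hγ)
    (by rw [u0]; exact hL) (by rw [u3]; exact hI) (by rw [v1]; exact hM) (by rw [v2]; exact hm)
  simp only [u0, u3, v1, v2] at key
  exact key

end Pool.Agent.V2
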