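import Pool.Agent.Helper21.V2.PL0

/-! Blocks PL1: tangents. -/

namespace Pool.Agent.V2

open MvPolynomial

section alg

set_option linter.unusedVariables false
set_option linter.unusedSectionVars false

variable {k : Type*} [Field k] [CharZero k]

namespace PL1

/-- The third linear form: the polarised form `2F(α, β)`. -/
noncomputable def Pol (α β : Fin 2 → k) : MvPolynomial (Fin 3) k :=
  C (2 * α 0 * β 0) * X 0 + C (α 0 * β 1 + α 1 * β 0) * X 1 + C (2 * α 1 * β 1) * X 2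

theorem isHomogeneous_lin (a b c : k) :
    (C a * X 0 + C b * X 1 + C c * X 2 : MvPolynomial (Fin 3) k).IsHomogeneous 1 := by
  have h : ∀ (x : k) (i : Fin 3), (C x * X i : MvPolynomial (Fin 3) k).IsHomogeneous 1 := by
    intro x i
    have := (isHomogeneous_C (Fin 3) x).mul (isHomogeneous_X k i)
    simpa using this
  exact ((h a 0).add (h b 1)).add (h c 2)

theorem isHomogeneous_Tan (α : Fin 2 → k) : (Tan α).IsHomogeneous 1 := isHomogeneous_lin _ _ _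

theorem isHomogeneous_Pol (α β : Fin 2 → k) : (Pol α β).IsHomogeneous 1 := isHomogeneous_lin _ _ _

theorem isHomogeneous_Dis : (Dis : MvPolynomial (Fin 3) k).IsHomogeneous 2 := by
  unfold Dis
  refine IsHomogeneous.sub ?_ ?_
  · have := (isHomogeneous_X k (1 : Fin 3)).pow 2
    simpa using this
  · have := ((isHomogeneous_C (Fin 3) (4 : k)).mul (isHomogeneous_X k 0)).mul
      (isHomogeneous_X k (2 : Fin 3))
    simpa using this

theorem Pol_sq (α β : Fin 2 → k) :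
    Pol α β ^ 2 = C ((α 0 * β 1 - α 1 * β 0) ^ 2) * Dis + C 4 * (Tan α * Tan β) := by
  unfold Pol Dis Tan
  simp only [map_mul, map_pow, map_add, map_sub, map_ofNat]
  ring

theorem tangent_form (a b c : k) (g : Matrix (Fin 3) (Fin 3) k) (i : Fin 3)
    (h0 : g i 0 = a) (h1 : g i 1 = b) (h2 : g i 2 = c) :
    (∑ j, C (g i j) * X j : MvPolynomial (Fin 3) k) = C a * X 0 + C b * X 1 + C c * X 2 := by
  rw [Fin.sum_univ_three, h0, h1, h2]

/-- Coefficient matrix of three tangents. -/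
def matT (α β γ : Fin 2 → k) : Matrix (Fin 3) (Fin 3) k :=
  !![α 0 ^ 2, α 0 * α 1, α 1 ^ 2; β 0 ^ 2, β 0 * β 1, β 1 ^ 2; γ 0 ^ 2, γ 0 * γ 1, γ 1 ^ 2]

/-- Coefficient matrix of `Tan α, Tan β, Pol α β`. -/
def matP (α β : Fin 2 → k) : Matrix (Fin 3) (Fin 3) k :=
  !![α 0 ^ 2, α 0 * α 1, α 1 ^ 2; β 0 ^ 2, β 0 * β 1, β 1 ^ 2;
    2 * α 0 * β 0, α 0 * β 1 + α 1 * β 0, 2 * α 1 * β 1]

theorem det_matT (α β γ : Fin 2 → k) : (matT α β γ).det =
    (α 0 * β 1 - α 1 * β 0) * (α 0 * γ 1 - α 1 * γ 0) * (β 0 * γ 1 - β 1 * γ 0) := by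
  rw [matT, Matrix.det_fin_three]
  simp
  ring

theorem det_matP (α β : Fin 2 → k) : (matP α β).det = - (α 0 * β 1 - α 1 * β 0) ^ 3 := by
  rw [matP, Matrix.det_fin_three]
  simp
  ring

end PL1

open PL1

/-- PL1. -/
theorem three_tangents {Z : MvPolynomial (Fin 3) k → Prop} (hZ : ZI Z)
    {w : MvPolynomial (Fin 3) k → ℝ} (hw : GV Z w) (α β γ : Fin 2 → k)
    (h1 : α 0 * β 1 ≠ α 1 * β 0) (h2 : α 0 * γ 1 ≠ α 1 * γ 0) (h3 : β 0 * γ 1 ≠ β 1 * γ 0)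
    (hα : ¬ Z (Tan α)) (hβ : ¬ Z (Tan β)) (hγ : ¬ Z (Tan γ)) :
    w (Tan α) = 0 ∨ w (Tan β) = 0 ∨ w (Tan γ) = 0 := by
  have hdet : (matT α β γ).det ≠ 0 := by
    rw [det_matT]
    exact mul_ne_zero (mul_ne_zero (sub_ne_zero.2 h1) (sub_ne_zero.2 h2)) (sub_ne_zero.2 h3)
  obtain ⟨i, -, hi⟩ := hw.unit_basis hZ (matT α β γ) hdet
  fin_cases i
  · left
    rw [tangent_form (α 0 ^ 2) (α 0 * α 1) (α 1 ^ 2)] at hi <;> first | exact hi | rfl
  · right; left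
    rw [tangent_form (β 0 ^ 2) (β 0 * β 1) (β 1 ^ 2)] at hi <;> first | exact hi | rfl
  · right; right
    rw [tangent_form (γ 0 ^ 2) (γ 0 * γ 1) (γ 1 ^ 2)] at hi <;> first | exact hi | rfl

/-- PL1'. -/
theorem two_tangents {Z : MvPolynomial (Fin 3) k → Prop} (hZ : ZI Z)
    {w : MvPolynomial (Fin 3) k → ℝ} (hw : GV Z w) (α β : Fin 2 → k)
    (h1 : α 0 * β 1 ≠ α 1 * β 0) (hα : ¬ Z (Tan α)) (hβ : ¬ Z (Tan β)) (hD : ¬ Z Dis) :
    w Dis = 0 ∨ w (Tan α) = 0 ∨ w (Tan β) = 0 := by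
  by_contra hcon
  push Not at hcon
  obtain ⟨hD0, hα0, hβ0⟩ := hcon
  have hdet : (matP α β).det ≠ 0 := by
    rw [det_matP]
    exact neg_ne_zero.2 (pow_ne_zero 3 (sub_ne_zero.2 h1))
  obtain ⟨i, hiZ, hi⟩ := hw.unit_basis hZ (matP α β) hdet
  fin_cases i
  · rw [tangent_form (α 0 ^ 2) (α 0 * α 1) (α 1 ^ 2)] at hi <;> first | exact hα0 hi | rfl
  · rw [tangent_form (β 0 ^ 2) (β 0 * β 1) (β 1 ^ 2)] at hi <;> first | exact hβ0 hi | rfl
  · rw [tangent_form (2 * α 0 * β 0) (α 0 * β 1 + α 1 * β 0) (2 * α 1 * β 1) _ _ rfl rfl rfl]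
      at hi hiZ
    change w (Pol α β) = 0 at hi
    change ¬ Z (Pol α β) at hiZ
    have hP2 : w (Pol α β ^ 2) = 0 := by
      rw [pow_two, hw.mul _ _ 1 1 (isHomogeneous_Pol α β) (isHomogeneous_Pol α β) hiZ hiZ, hi,
        add_zero]
    have hκ : (α 0 * β 1 - α 1 * β 0) ^ 2 ≠ 0 := pow_ne_zero 2 (sub_ne_zero.2 h1)
    have hCZ : ∀ a : k, a ≠ 0 → ¬ Z (C a) := by
      intro a ha h
      have := hZ.C_mul (C a) 0 a⁻¹ (isHomogeneous_C _ _) h
      rw [← C_mul, inv_mul_cancel₀ ha, C_1] at this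
      exact hZ.one this
    have nmul : ∀ s t M N, s.IsHomogeneous M → t.IsHomogeneous N → ¬ Z s → ¬ Z t → ¬ Z (s * t) := by
      intro s t M N hs ht h h' h''
      rcases (hZ.mul s t M N hs ht).1 h'' with h3 | h3
      · exact h h3
      · exact h' h3
    have hDZ : ¬ Z (C ((α 0 * β 1 - α 1 * β 0) ^ 2) * Dis) :=
      nmul _ _ 0 2 (isHomogeneous_C _ _) isHomogeneous_Dis (hCZ _ hκ) hD
    have hTT : ¬ Z (Tan α * Tan β) :=
      nmul _ _ 1 1 (isHomogeneous_Tan α) (isHomogeneous_Tan β) hα hβ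
    have h4 : (4 : k) ≠ 0 := by norm_num
    have hhTT : (Tan α * Tan β).IsHomogeneous 2 := (isHomogeneous_Tan α).mul (isHomogeneous_Tan β)
    have hTZ : ¬ Z (C 4 * (Tan α * Tan β)) :=
      nmul _ _ 0 2 (isHomogeneous_C _ _) hhTT (hCZ _ h4) hTT
    have hwD : w (C ((α 0 * β 1 - α 1 * β 0) ^ 2) * Dis) = w Dis := by
      rw [hw.mul _ _ 0 2 (isHomogeneous_C _ _) isHomogeneous_Dis (hCZ _ hκ) hD, hw.const _ hκ,
        zero_add]
    have hwT : w (C 4 * (Tan α * Tan β)) = w (Tan α) + w (Tan β) := by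
      rw [hw.mul _ _ 0 2 (isHomogeneous_C _ _) hhTT (hCZ _ h4) hTT, hw.const _ h4,
        zero_add, hw.mul _ _ 1 1 (isHomogeneous_Tan α) (isHomogeneous_Tan β) hα hβ]
    have hsum : ¬ Z (C ((α 0 * β 1 - α 1 * β 0) ^ 2) * Dis + C 4 * (Tan α * Tan β)) := by
      rw [← Pol_sq, pow_two]
      exact nmul _ _ 1 1 (isHomogeneous_Pol α β) (isHomogeneous_Pol α β) hiZ hiZ
    have hh1 : (C ((α 0 * β 1 - α 1 * β 0) ^ 2) * Dis : MvPolynomial (Fin 3) k).IsHomogeneous 2 := by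
      have := (isHomogeneous_C (Fin 3) ((α 0 * β 1 - α 1 * β 0) ^ 2)).mul (isHomogeneous_Dis (k := k))
      simpa using this
    have hh2 : (C 4 * (Tan α * Tan β) : MvPolynomial (Fin 3) k).IsHomogeneous 2 := by
      have := (isHomogeneous_C (Fin 3) (4 : k)).mul hhTT
      simpa using this
    have hmin := hw.add _ _ 2 hh1 hh2 hDZ hTZ hsum
    rw [← Pol_sq, hP2, hwD, hwT] at hmin
    have p1 : 0 < w Dis := lt_of_le_of_ne (hw.nonneg _ 2 isHomogeneous_Dis hD) (Ne.symm hD0)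
    have p2 : 0 < w (Tan α) := lt_of_le_of_ne (hw.nonneg _ 1 (isHomogeneous_Tan α) hα) (Ne.symm hα0)
    have p3 : 0 < w (Tan β) := lt_of_le_of_ne (hw.nonneg _ 1 (isHomogeneous_Tan β) hβ) (Ne.symm hβ0)
    have : 0 < min (w Dis) (w (Tan α) + w (Tan β)) := lt_min p1 (by linarith)
    linarith

end alg

end Pool.Agent.V2
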