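import Mathlib
import Pool.Agent.Helper21.V2.Defs2
import Pool.Agent.Helper21.V2.PL1
import Pool.Agent.Helper21.V2.CV1

/-!
# Block CU8: the weights of one and of two places

The statement of `two_core` (block CU7) is taken here as the hypothesis `TwoCore f δ`; it is
supplied in `CU8.lean`.
-/

namespace Pool.Agent.V2

open MvPolynomial

namespace CU8

variable {k : Type*} [Field k] [CharZero k]

omit [CharZero k] in
lemma hom_CX (c : k) (i : Fin 3) :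
    (C c * X i : MvPolynomial (Fin 3) k).IsHomogeneous 1 := by
  have h := (isHomogeneous_C (Fin 3) c).mul (isHomogeneous_X k i)
  rwa [zero_add] at h

omit [CharZero k] in
lemma hom_Tan (α : Fin 2 → k) : (Tan α).IsHomogeneous 1 := by
  unfold Tan
  exact ((hom_CX _ _).add (hom_CX _ _)).add (hom_CX _ _)

omit [CharZero k] in
lemma hom_Dis : (Dis : MvPolynomial (Fin 3) k).IsHomogeneous 2 := by
  unfold Dis
  have h1 := (isHomogeneous_X k (1 : Fin 3)).pow 2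
  rw [one_mul] at h1
  have h2 := (hom_CX (4 : k) 0).mul (isHomogeneous_X k (2 : Fin 3))
  exact h1.sub h2

lemma sum_supp {q : ℕ} (g : Fin q → ℝ) {B : ℝ} (hB : ∀ i, g i ≤ B) :
    ∑ i, g i ≤ ((Finset.univ.filter fun i => g i ≠ 0).card : ℝ) * B := by
  classical
  rw [← Finset.sum_filter_ne_zero, ← nsmul_eq_mul]
  exact Finset.sum_le_card_nsmul _ _ _ fun i _ => hB i

lemma card_le_one {q : ℕ} (g : Fin q → ℝ) (h : ∀ i j, i ≠ j → g i = 0 ∨ g j = 0) :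
    (Finset.univ.filter fun i => g i ≠ 0).card ≤ 1 := by
  classical
  rw [Finset.card_le_one]
  intro a ha b hb
  rw [Finset.mem_filter] at ha hb
  by_contra hab
  rcases h a b hab with h1 | h1
  · exact ha.2 h1
  · exact hb.2 h1

lemma card_le_two {q : ℕ} (g : Fin q → ℝ)
    (h : ∀ i j l, i ≠ j → i ≠ l → j ≠ l → g i = 0 ∨ g j = 0 ∨ g l = 0) :
    (Finset.univ.filter fun i => g i ≠ 0).card ≤ 2 := by
  classical
  by_contra hcon
  push Not at hcon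
  rw [Finset.two_lt_card] at hcon
  obtain ⟨a, ha, b, hb, c, hc, h1, h2, h3⟩ := hcon
  rw [Finset.mem_filter] at ha hb hc
  rcases h a b c h1 h2 h3 with h4 | h4 | h4
  · exact ha.2 h4
  · exact hb.2 h4
  · exact hc.2 h4

lemma sum_two_le {q : ℕ} (g : Fin q → ℝ) {B : ℝ} (hB0 : 0 ≤ B) (hB : ∀ i, g i ≤ B)
    (h : ∀ i j l, i ≠ j → i ≠ l → j ≠ l → g i = 0 ∨ g j = 0 ∨ g l = 0) : ∑ i, g i ≤ 2 * B := by
  refine (sum_supp g hB).trans (mul_le_mul_of_nonneg_right ?_ hB0)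
  exact_mod_cast card_le_two g h

lemma sum_one_le {q : ℕ} (g : Fin q → ℝ) {B : ℝ} (hB0 : 0 ≤ B) (hB : ∀ i, g i ≤ B)
    (h : ∀ i j, i ≠ j → g i = 0 ∨ g j = 0) : ∑ i, g i ≤ B := by
  refine (sum_supp g hB).trans ?_
  have h1 : ((Finset.univ.filter fun i => g i ≠ 0).card : ℝ) ≤ 1 := by
    exact_mod_cast card_le_one g h
  nlinarith

/-- the statement of `two_core` for a fixed curve -/
def TwoCore (f : MvPolynomial (Fin 3) k) (δ : ℕ) : Prop :=
  ∀ u v : MvPolynomial (Fin 3) k → ℝ, GV (fun s => f ∣ s) u → NormC f δ u →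
    GV (fun s => f ∣ s) v → NormC f δ v →
    (∀ s (N : ℕ), s.IsHomogeneous N → ¬ f ∣ s → u s + v s ≤ δ * N) →
    ∀ α β γ : Fin 2 → k, α 0 * β 1 ≠ α 1 * β 0 → α 0 * γ 1 ≠ α 1 * γ 0 →
      β 0 * γ 1 ≠ β 1 * γ 0 → ¬ f ∣ Tan α → ¬ f ∣ Tan β → ¬ f ∣ Tan γ →
      0 < u (Tan α) → 0 < u Dis → 0 < v (Tan β) → 0 < v (Tan γ) →
      u Dis + u (Tan α) + v (Tan β) + v (Tan γ) ≤ 4 * δ

/-- the local facts at one place -/
lemma facts {f : MvPolynomial (Fin 3) k} (hf : Irreducible f) {δ : ℕ}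
    (hδ : f.IsHomogeneous δ) (h1 : 1 ≤ δ) {u : MvPolynomial (Fin 3) k → ℝ}
    (hu : GV (fun s => f ∣ s) u) (nu : NormC f δ u)
    (hfD : ¬ f ∣ Dis) {q : ℕ} (D : Fin q → Fin 2 → k)
    (hD : ∀ i j, i ≠ j → D i 0 * D j 1 ≠ D i 1 * D j 0) (hT : ∀ i, ¬ f ∣ Tan (D i)) :
    0 ≤ u Dis ∧ u Dis ≤ 2 * δ ∧ (∀ i, 0 ≤ u (Tan (D i))) ∧ (∀ i, u (Tan (D i)) ≤ δ) ∧
      ∑ i, u (Tan (D i)) ≤ 2 * δ ∧ (u Dis ≠ 0 → ∑ i, u (Tan (D i)) ≤ δ) ∧
      (u Dis ≠ 0 → ∀ i j, i ≠ j → u (Tan (D i)) = 0 ∨ u (Tan (D j)) = 0) ∧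
      (∀ i j l, i ≠ j → i ≠ l → j ≠ l →
        u (Tan (D i)) = 0 ∨ u (Tan (D j)) = 0 ∨ u (Tan (D l)) = 0) := by
  have hZ : ZI (fun s => f ∣ s) := ZI_dvd hf hδ h1
  have hδ0 : (0 : ℝ) ≤ δ := Nat.cast_nonneg δ
  have a1 := hu.nonneg _ _ hom_Dis hfD
  have a2 : u Dis ≤ 2 * δ := by
    have := nu.le _ _ hom_Dis hfD
    push_cast at this
    linarith
  have a3 : ∀ i, 0 ≤ u (Tan (D i)) := fun i => hu.nonneg _ _ (hom_Tan _) (hT i)
  have a4 : ∀ i, u (Tan (D i)) ≤ δ := fun i => by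
    have := nu.le _ _ (hom_Tan (D i)) (hT i)
    push_cast at this
    linarith
  have a7 : u Dis ≠ 0 → ∀ i j, i ≠ j → u (Tan (D i)) = 0 ∨ u (Tan (D j)) = 0 := by
    intro h0 i j hij
    rcases two_tangents hZ hu (D i) (D j) (hD i j hij) (hT i) (hT j) hfD with h | h | h
    · exact absurd h h0
    · exact Or.inl h
    · exact Or.inr h
  have a8 : ∀ i j l, i ≠ j → i ≠ l → j ≠ l →
        u (Tan (D i)) = 0 ∨ u (Tan (D j)) = 0 ∨ u (Tan (D l)) = 0 := fun i j l hij hil hjl =>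
    three_tangents hZ hu (D i) (D j) (D l) (hD i j hij) (hD i l hil) (hD j l hjl) (hT i) (hT j) (hT l)
  refine ⟨a1, a2, a3, a4, sum_two_le _ hδ0 a4 a8, fun h0 => sum_one_le _ hδ0 a4 (a7 h0), a7, a8⟩

/-- the main case -/
lemma mixed {f : MvPolynomial (Fin 3) k} (hf : Irreducible f) {δ : ℕ}
    (hδ : f.IsHomogeneous δ) (h1 : 1 ≤ δ) (TC : TwoCore f δ) {u v : MvPolynomial (Fin 3) k → ℝ}
    (hu : GV (fun s => f ∣ s) u) (nu : NormC f δ u) (hv : GV (fun s => f ∣ s) v)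
    (nv : NormC f δ v)
    (bez : ∀ s (N : ℕ), s.IsHomogeneous N → ¬ f ∣ s → u s + v s ≤ δ * N)
    (hfD : ¬ f ∣ Dis) {q : ℕ} (D : Fin q → Fin 2 → k)
    (hD : ∀ i j, i ≠ j → D i 0 * D j 1 ≠ D i 1 * D j 0) (hT : ∀ i, ¬ f ∣ Tan (D i))
    (hu0 : u Dis ≠ 0) (hv0 : v Dis = 0) :
    (u Dis + ∑ i, u (Tan (D i))) + (v Dis + ∑ i, v (Tan (D i))) ≤ 4 * δ := by
  classical
  obtain ⟨a1, a2, a3, a4, a5, a6, a7, a8⟩ := facts hf hδ h1 hu nu hfD D hD hT
  obtain ⟨b1, b2, b3, b4, b5, b6, b7, b8⟩ := facts hf hδ h1 hv nv hfD D hD hT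
  have hδ0 : (0 : ℝ) ≤ δ := Nat.cast_nonneg δ
  have a6' := a6 hu0
  have a7' := a7 hu0
  by_cases hi : ∃ i₀, u (Tan (D i₀)) ≠ 0
  · obtain ⟨i₀, hi₀⟩ := hi
    have hus : ∑ i, u (Tan (D i)) = u (Tan (D i₀)) := by
      refine Finset.sum_eq_single i₀ (fun j _ hj => ?_) (fun h => absurd (Finset.mem_univ _) h)
      rcases a7' j i₀ hj with h | h
      · exact h
      · exact absurd h hi₀
    -- the support of the values of `v`
    have hc := card_le_two (fun i => v (Tan (D i))) b8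
    rcases Nat.lt_or_ge ((Finset.univ.filter fun i => v (Tan (D i)) ≠ 0).card) 2 with hlt | hge
    · have hvs := sum_supp (fun i => v (Tan (D i))) b4
      have h3 : ((Finset.univ.filter fun i => v (Tan (D i)) ≠ 0).card : ℝ) ≤ 1 := by
        exact_mod_cast Nat.le_of_lt_succ hlt
      have h4 : ∑ i, v (Tan (D i)) ≤ 1 * δ := hvs.trans (mul_le_mul_of_nonneg_right h3 hδ0)
      rw [hv0]
      linarith
    · have h2 : (Finset.univ.filter fun i => v (Tan (D i)) ≠ 0).card = 2 := le_antisymm hc hge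
      rw [Finset.card_eq_two] at h2
      obtain ⟨j, l, hjl, h3⟩ := h2
      have hj : v (Tan (D j)) ≠ 0 := by
        have : j ∈ Finset.univ.filter fun i => v (Tan (D i)) ≠ 0 := by rw [h3]; simp
        exact (Finset.mem_filter.mp this).2
      have hl : v (Tan (D l)) ≠ 0 := by
        have : l ∈ Finset.univ.filter fun i => v (Tan (D i)) ≠ 0 := by rw [h3]; simp
        exact (Finset.mem_filter.mp this).2
      have hvs : ∑ i, v (Tan (D i)) = v (Tan (D j)) + v (Tan (D l)) := by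
        rw [← Finset.sum_filter_ne_zero, h3, Finset.sum_pair hjl]
      by_cases hij : i₀ = j
      · subst hij
        have h4 := bez _ _ (hom_Tan (D i₀)) (hT i₀)
        have h5 := b4 l
        rw [hus, hvs, hv0]
        push_cast at h4
        linarith
      · by_cases hil : i₀ = l
        · subst hil
          have h4 := bez _ _ (hom_Tan (D i₀)) (hT i₀)
          have h5 := b4 j
          rw [hus, hvs, hv0]
          push_cast at h4
          linarith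
        · have h4 := TC u v hu nu hv nv bez (D i₀) (D j) (D l)
            (hD _ _ hij) (hD _ _ hil) (hD _ _ hjl) (hT _) (hT _) (hT _)
            (lt_of_le_of_ne (a3 _) (Ne.symm hi₀)) (lt_of_le_of_ne a1 (Ne.symm hu0))
            (lt_of_le_of_ne (b3 _) (Ne.symm hj)) (lt_of_le_of_ne (b3 _) (Ne.symm hl))
          rw [hus, hvs, hv0]
          linarith
  · push Not at hi
    have hus : ∑ i, u (Tan (D i)) = 0 := Finset.sum_eq_zero fun i _ => hi i
    rw [hus, hv0]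
    linarith

/-- CU8. two places: the weights. -/
theorem two_places_of {f : MvPolynomial (Fin 3) k} (hf : Irreducible f) {δ : ℕ}
    (hδ : f.IsHomogeneous δ) (h1 : 1 ≤ δ) (TC : TwoCore f δ) {u v : MvPolynomial (Fin 3) k → ℝ}
    (hu : GV (fun s => f ∣ s) u) (nu : NormC f δ u) (hv : GV (fun s => f ∣ s) v)
    (nv : NormC f δ v)
    (bez : ∀ s (N : ℕ), s.IsHomogeneous N → ¬ f ∣ s → u s + v s ≤ δ * N)
    (hfD : ¬ f ∣ Dis) {q : ℕ} (D : Fin q → Fin 2 → k)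
    (hD : ∀ i j, i ≠ j → D i 0 * D j 1 ≠ D i 1 * D j 0) (hT : ∀ i, ¬ f ∣ Tan (D i)) :
    (u Dis + ∑ i, u (Tan (D i))) + (v Dis + ∑ i, v (Tan (D i))) ≤ 4 * δ := by
  obtain ⟨a1, a2, a3, a4, a5, a6, a7, a8⟩ := facts hf hδ h1 hu nu hfD D hD hT
  obtain ⟨b1, b2, b3, b4, b5, b6, b7, b8⟩ := facts hf hδ h1 hv nv hfD D hD hT
  by_cases hu0 : u Dis = 0
  · by_cases hv0 : v Dis = 0
    · rw [hu0, hv0]
      linarith
    · have h := mixed hf hδ h1 TC hv nv hu nu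
        (fun s N hs hns => by rw [add_comm]; exact bez s N hs hns) hfD D hD hT hv0 hu0
      linarith
  · by_cases hv0 : v Dis = 0
    · exact mixed hf hδ h1 TC hu nu hv nv bez hfD D hD hT hu0 hv0
    · have h2 := a6 hu0
      have h3 := b6 hv0
      have h4 := bez _ _ hom_Dis hfD
      push_cast at h4
      linarith

end CU8

section

open CU8

variable {k : Type*} [Field k] [CharZero k]

/-- CU8'. one place -/
theorem one_place {f : MvPolynomial (Fin 3) k} (hf : Irreducible f) {δ : ℕ}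
    (hδ : f.IsHomogeneous δ) (h1 : 1 ≤ δ) {u : MvPolynomial (Fin 3) k → ℝ}
    (hu : GV (fun s => f ∣ s) u) (nu : NormC f δ u)
    (hfD : ¬ f ∣ Dis) {q : ℕ} (D : Fin q → Fin 2 → k)
    (hD : ∀ i j, i ≠ j → D i 0 * D j 1 ≠ D i 1 * D j 0) (hT : ∀ i, ¬ f ∣ Tan (D i)) :
    u Dis + ∑ i, u (Tan (D i)) ≤ 3 * δ := by
  obtain ⟨a1, a2, a3, a4, a5, a6, a7, a8⟩ := facts hf hδ h1 hu nu hfD D hD hT
  have hδ0 : (0 : ℝ) ≤ δ := Nat.cast_nonneg δ
  by_cases hu0 : u Dis = 0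
  · rw [hu0]
    linarith
  · have h2 := a6 hu0
    linarith


end

end Pool.Agent.V2
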