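import Mathlib
import Pool.Agent.Helper21.V2.CU7
import Pool.Agent.Helper21.V2.CU8a

/-!
# Block CU8: the weights of two places
-/

namespace Pool.Agent.V2

open MvPolynomial

variable {k : Type*} [Field k] [CharZero k]

/-- CU8. two places: the weights. -/
theorem two_places {f : MvPolynomial (Fin 3) k} (hf : Irreducible f) {δ : ℕ}
    (hδ : f.IsHomogeneous δ) (h1 : 1 ≤ δ) {u v : MvPolynomial (Fin 3) k → ℝ}
    (hu : GV (fun s => f ∣ s) u) (nu : NormC f δ u) (hv : GV (fun s => f ∣ s) v)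
    (nv : NormC f δ v)
    (bez : ∀ s (N : ℕ), s.IsHomogeneous N → ¬ f ∣ s → u s + v s ≤ δ * N)
    (hfD : ¬ f ∣ Dis) {q : ℕ} (D : Fin q → Fin 2 → k)
    (hD : ∀ i j, i ≠ j → D i 0 * D j 1 ≠ D i 1 * D j 0) (hT : ∀ i, ¬ f ∣ Tan (D i)) :
    (u Dis + ∑ i, u (Tan (D i))) + (v Dis + ∑ i, v (Tan (D i))) ≤ 4 * δ :=
  CU8.two_places_of hf hδ h1 (fun u v hu nu hv nv bez α β γ h12 h13 h23 hα hβ hγ hL hI hM hm =>
    two_core hf hδ h1 hu nu hv nv bez hfD α β γ h12 h13 h23 hα hβ hγ hL hI hM hm)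
    hu nu hv nv bez hfD D hD hT

end Pool.Agent.V2
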