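import Pool.Agent.Helper21.V2.CV7
import Pool.Agent.Helper21.V2.CU3
import Pool.Agent.Helper21.V2.CU8

/-!
# CU10: the curve case
-/

namespace Pool.Agent.V2

open MvPolynomial

set_option linter.unusedVariables false

variable {k : Type*} [Field k] [CharZero k]



namespace CU10

/-- limit `N → ∞` -/
theorem lim_bound {x a b : ℝ} {δ : ℕ} (h : ∀ N : ℕ, δ ≤ N → x * (a * N - b) ≤ N) :
    x * a ≤ 1 := by
  by_contra hcon
  push Not at hcon
  obtain ⟨N, hN⟩ := exists_nat_gt (x * b / (x * a - 1))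
  have h0 : 0 < x * a - 1 := by linarith
  rw [div_lt_iff₀ h0] at hN
  have h1 := h (N + δ) (Nat.le_add_left _ _)
  push_cast at h1
  have h2 : 0 ≤ (δ : ℝ) * (x * a - 1) := by positivity
  nlinarith

theorem sum_fin_id (m : ℕ) : ∑ i : Fin m, (((i : ℕ) : ℕ) : ℝ) = m * (m - 1) / 2 := by
  rw [Fin.sum_univ_eq_sum_range (fun i => (i : ℝ)) m]
  induction m with
  | zero => simp
  | succ n ih =>
    rw [Finset.sum_range_succ, ih]
    push_cast
    ring

/-- the dimension of the coordinate ring in degree `N` -/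
theorem dim_eq {N δ : ℕ} (h : δ ≤ N) (h1 : 1 ≤ δ) : ∃ m : ℕ,
    m + Nat.choose (N + 2 - δ) 2 = Nat.choose (N + 2) 2 ∧ 0 < m ∧
      (δ : ℝ) * N - δ ^ 2 ≤ m := by
  have hle : Nat.choose (N + 2 - δ) 2 ≤ Nat.choose (N + 2) 2 :=
    Nat.choose_le_choose 2 (Nat.sub_le _ _)
  refine ⟨Nat.choose (N + 2) 2 - Nat.choose (N + 2 - δ) 2, Nat.sub_add_cancel hle, ?_⟩
  have e : (((Nat.choose (N + 2) 2 - Nat.choose (N + 2 - δ) 2 : ℕ)) : ℝ) =
      δ * (2 * N + 3 - δ) / 2 := by
    rw [Nat.cast_sub hle, Nat.cast_choose_two, Nat.cast_choose_two,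
      Nat.cast_sub (by omega : δ ≤ N + 2)]
    push_cast
    ring
  have hδ : (1 : ℝ) ≤ δ := by exact_mod_cast h1
  have hN : (δ : ℝ) ≤ N := by exact_mod_cast h
  constructor
  · have : (0 : ℝ) < ((Nat.choose (N + 2) 2 - Nat.choose (N + 2 - δ) 2 : ℕ) : ℝ) := by
      rw [e]
      have : 0 < (δ : ℝ) * (2 * N + 3 - δ) := by
        apply mul_pos <;> linarith
      linarith
    exact_mod_cast this
  · rw [e]
    nlinarith

/-- a member of an independent family is not divisible by `f` -/
theorem not_dvd_of_indep {f : MvPolynomial (Fin 3) k} {m : ℕ}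
    {s : Fin m → MvPolynomial (Fin 3) k}
    (h : ∀ a : Fin m → k, a ≠ 0 → ¬ f ∣ ∑ i, C (a i) * s i) (i : Fin m) : ¬ f ∣ s i := by
  have h1 := h (Pi.single i 1) (by
    intro h0
    have := congrFun h0 i
    simp at this)
  have h2 : ∑ j, C ((Pi.single i 1 : Fin m → k) j) * s j = s i := by
    rw [Finset.sum_eq_single i]
    · simp
    · intro j _ hj
      simp [Pi.single_eq_of_ne hj]
    · intro h
      exact absurd (Finset.mem_univ _) h
  rwa [h2] at h1

/-- a normalised valuation is a valuation -/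
theorem gv_div {Z : MvPolynomial (Fin 3) k → Prop} {w : MvPolynomial (Fin 3) k → ℝ}
    (hw : GV Z w) {c : ℝ} (hc : 0 < c) : GV Z (fun s => w s / c) where
  nonneg s N hs hZ := div_nonneg (hw.nonneg s N hs hZ) hc.le
  mul s t M N hs ht h1 h2 := by
    show w (s * t) / c = w s / c + w t / c
    rw [hw.mul s t M N hs ht h1 h2, add_div]
  add s t N hs ht h1 h2 h3 := by
    show min (w s / c) (w t / c) ≤ w (s + t) / c
    have := hw.add s t N hs ht h1 h2 h3
    rcases min_le_iff.1 this with h | h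
    · exact (min_le_left _ _).trans (by gcongr)
    · exact (min_le_right _ _).trans (by gcongr)
  congr s t N hs ht h1 h2 := by
    show w (s + t) / c = w s / c
    rw [hw.congr s t N hs ht h1 h2]
  const a ha := by
    show w (C a) / c = 0
    rw [hw.const a ha, zero_div]
  unit := by
    obtain ⟨i, h1, h2⟩ := hw.unit
    exact ⟨i, h1, by show w (X i) / c = 0; rw [h2, zero_div]⟩

theorem hom_Dis : (Dis : MvPolynomial (Fin 3) k).IsHomogeneous 2 := by
  unfold Dis
  apply MvPolynomial.IsHomogeneous.sub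
  · exact isHomogeneous_X_pow _ _
  · have h1 : (C (4 : k) * X 0 : MvPolynomial (Fin 3) k).IsHomogeneous (0 + 1) :=
      (isHomogeneous_C _ _).mul (isHomogeneous_X _ _)
    have h2 := h1.mul (isHomogeneous_X k (2 : Fin 3))
    exact h2

theorem hom_Tan (α : Fin 2 → k) : (Tan α : MvPolynomial (Fin 3) k).IsHomogeneous 1 := by
  unfold Tan
  have h : ∀ (c : k) (i : Fin 3), (C c * X i : MvPolynomial (Fin 3) k).IsHomogeneous 1 := by
    intro c i
    have h1 : (C c * X i : MvPolynomial (Fin 3) k).IsHomogeneous (0 + 1) :=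
      (isHomogeneous_C _ _).mul (isHomogeneous_X _ _)
    simpa using h1
  exact ((h _ _).add (h _ _)).add (h _ _)

/-- the final optimisation -/
theorem optimise {σ : Type*} [Fintype σ] (c W : σ → ℝ) (d : ℝ) (hd : 0 < d)
    (hc : ∀ t, 0 < c t) (E : σ → σ → Prop) [∀ t, DecidablePred (E t)]
    (hW : ∀ t t', E t t' → W t' = W t)
    (hW2 : ∀ t t', ¬ E t t' → W t + W t' ≤ 4 * d) (hW3 : ∀ t, W t ≤ 3 * d)
    (h1 : (∑ t, c t) * d ≤ 2)
    (h2 : ∀ t, (∑ t' ∈ Finset.univ.filter (E t), c t') * d ≤ 1) :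
    ∑ t, c t * W t ≤ 4 := by
  classical
  by_cases hall : ∀ t, W t ≤ 2 * d
  · calc ∑ t, c t * W t ≤ ∑ t, c t * (2 * d) := by
          apply Finset.sum_le_sum
          intro t _
          exact mul_le_mul_of_nonneg_left (hall t) (hc t).le
      _ = 2 * ((∑ t, c t) * d) := by rw [← Finset.sum_mul]; ring
      _ ≤ 4 := by linarith
  · push Not at hall
    obtain ⟨p, hp⟩ := hall
    have hp3 := hW3 p
    set Cq := ∑ t' ∈ Finset.univ.filter (E p), c t' with hCq
    set Cr := ∑ t' ∈ Finset.univ.filter (fun t => ¬ E p t), c t' with hCr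
    have hsum : Cq + Cr = ∑ t, c t := by
      rw [hCq, hCr, Finset.sum_filter_add_sum_filter_not]
    have e : ∑ t, c t * W t = ∑ t' ∈ Finset.univ.filter (E p), c t' * W t' +
        ∑ t' ∈ Finset.univ.filter (fun t => ¬ E p t), c t' * W t' := by
      rw [Finset.sum_filter_add_sum_filter_not]
    have e1 : ∑ t' ∈ Finset.univ.filter (E p), c t' * W t' = Cq * W p := by
      rw [hCq, Finset.sum_mul]
      apply Finset.sum_congr rfl
      intro t ht
      rw [hW p t (Finset.mem_filter.1 ht).2]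
    have e2 : ∑ t' ∈ Finset.univ.filter (fun t => ¬ E p t), c t' * W t' ≤
        Cr * (4 * d - W p) := by
      rw [hCr, Finset.sum_mul]
      apply Finset.sum_le_sum
      intro t ht
      apply mul_le_mul_of_nonneg_left _ (hc t).le
      linarith [hW2 p t (Finset.mem_filter.1 ht).2]
    have hq := h2 p
    rw [← hCq] at hq
    rw [e, e1]
    -- `Cq W + Cr (4d - W) ≤ 4`
    have hr : Cr * (4 * d - W p) ≤ ((2 : ℝ) / d - Cq) * (4 * d - W p) := by
      apply mul_le_mul_of_nonneg_right _ (by linarith)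
      have : Cq + Cr ≤ 2 / d := by
        rw [hsum, le_div_iff₀ hd]
        exact h1
      linarith
    have hq' : Cq ≤ 1 / d := by
      rw [le_div_iff₀ hd]
      exact hq
    have hq2 : Cq * (2 * W p - 4 * d) ≤ 1 / d * (2 * W p - 4 * d) := by
      apply mul_le_mul_of_nonneg_right hq' (by linarith)
    have e3 : (1 : ℝ) / d * (2 * W p - 4 * d) + 2 / d * (4 * d - W p) = 4 := by
      field_simp
      ring
    nlinarith

end CU10

open CU10 in
/-- CU10. The curve case. -/
theorem curve_main {f : MvPolynomial (Fin 3) k} (hf : Irreducible f) {δ : ℕ}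
    (hδ : f.IsHomogeneous δ) (h1 : 1 ≤ δ)
    {τ : Type*} [Fintype τ] (w : τ → MvPolynomial (Fin 3) k → ℝ)
    (hw : ∀ t, GV (fun s => f ∣ s) (w t)) (hLI : LI (fun s => f ∣ s) w)
    (hSU : SU (fun s => f ∣ s) w) (hfD : ¬ f ∣ Dis) {q : ℕ} (D : Fin q → Fin 2 → k)
    (hD : ∀ i j, i ≠ j → D i 0 * D j 1 ≠ D i 1 * D j 0) (hT : ∀ i, ¬ f ∣ Tan (D i)) :
    ∑ t, (w t Dis + ∑ i, w t (Tan (D i))) ≤ 4 := by
  classical
  have hδ0 : (0 : ℝ) < δ := by exact_mod_cast h1
  set P : τ → Prop := fun t => ∃ s N, MvPolynomial.IsHomogeneous s N ∧ ¬ f ∣ s ∧ 0 < w t s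
    with hP
  -- trivial valuations
  have htriv : ∀ t, ¬ P t → ∀ s N, MvPolynomial.IsHomogeneous s N → ¬ f ∣ s → w t s = 0 := by
    intro t ht s N hs hfs
    by_contra hne
    exact ht ⟨s, N, hs, hfs, lt_of_le_of_ne ((hw t).nonneg s N hs hfs) (Ne.symm hne)⟩
  obtain ⟨c, hc, hn, hbez⟩ := bezout hf hδ h1 (fun t : {t // P t} => w t.1)
    (fun t => hw t.1) (fun t => t.2)
  have hred : ∑ t, (w t Dis + ∑ i, w t (Tan (D i))) =
      ∑ t : {t // P t}, (w t.1 Dis + ∑ i, w t.1 (Tan (D i))) := by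
    rw [← Fintype.sum_subtype_add_sum_subtype P]
    have : ∑ t : {t // ¬ P t}, (w t.1 Dis + ∑ i, w t.1 (Tan (D i))) = 0 := by
      apply Finset.sum_eq_zero
      intro t _
      rw [htriv t.1 t.2 Dis 2 hom_Dis hfD, zero_add]
      apply Finset.sum_eq_zero
      intro i _
      exact htriv t.1 t.2 _ 1 (hom_Tan _) (hT i)
    rw [this, add_zero]
  rw [hred]
  have hnn : ∀ (t : {t // P t}), GV (fun s => f ∣ s) (fun s => w t.1 s / c t) :=
    fun t => gv_div (hw t.1) (hc t)
  have hcw : ∀ (t : {t // P t}) s, w t.1 s = c t * (w t.1 s / c t) := by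
    intro t s
    rw [mul_div_cancel₀ _ (hc t).ne']
  -- adapted bases
  have hbas := fun t : {t // P t} => NormC.basis hf hδ h1 (hnn t) (hn t)
  choose C0 hC0 using hbas
  -- the two estimates
  have hF1 : (∑ t, c t) * δ ≤ 2 := by
    by_cases hemp : IsEmpty {t // P t}
    · rw [Finset.univ_eq_empty, Finset.sum_empty]
      norm_num
    rw [not_isEmpty_iff] at hemp
    obtain ⟨t0⟩ := hemp
    set K : ℕ := ∑ t, C0 t with hK
    have hKt : ∀ t, (C0 t : ℝ) ≤ K := by
      intro t
      have : C0 t ≤ K := Finset.single_le_sum (fun _ _ => Nat.zero_le _) (Finset.mem_univ t)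
      exact_mod_cast this
    have hlim : (∑ t, c t) * ((δ : ℝ) / 2) ≤ 1 := by
      refine lim_bound (b := ((δ : ℝ) ^ 2 + 1) / 2 + K) (δ := δ) ?_
      intro N hN
      obtain ⟨m, hm, hm0, hmN⟩ := dim_eq hN h1
      choose s hs1 hs2 hs3 hs4 using fun t => hC0 t N m hm hN
      -- the bases for all `t`
      set S : τ → Fin m → MvPolynomial (Fin 3) k :=
        fun t => if h : P t then s ⟨t, h⟩ else s t0 with hS
      have hS' : ∀ t, ∃ t' : {t // P t}, S t = s t' := by
        intro t
        by_cases h : P t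
        · exact ⟨⟨t, h⟩, by rw [hS]; simp only [h, dif_pos]⟩
        · exact ⟨t0, by rw [hS]; simp only [h, dif_neg, not_false_iff]⟩
      have hSt : ∀ t : {t // P t}, S t.1 = s t := by
        intro t
        rw [hS]
        simp only [t.2, dif_pos, Subtype.coe_eta]
      have hsu := hSU N m S
        (by
          intro t i
          obtain ⟨t', ht'⟩ := hS' t
          rw [ht']
          exact hs1 t' i)
        (by
          intro t a ha
          obtain ⟨t', ht'⟩ := hS' t
          rw [ht']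
          exact hs2 t' a ha)
        (by
          intro t t' i
          obtain ⟨t1, ht1⟩ := hS' t
          obtain ⟨t2, ht2⟩ := hS' t'
          rw [ht1, ht2]
          exact hs3 t2 _ (hs1 t1 i))
      have hm0' : (0 : ℝ) < m := by exact_mod_cast hm0
      have hlow : (∑ t, c t) * (m * (m - 1) / 2 - m * K) ≤ ∑ t, ∑ i, w t (S t i) := by
        rw [← Fintype.sum_subtype_add_sum_subtype P]
        have h2 : 0 ≤ ∑ t : {t // ¬ P t}, ∑ i, w t.1 (S t.1 i) := by
          apply Finset.sum_nonneg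
          intro t _
          apply Finset.sum_nonneg
          intro i _
          obtain ⟨t', ht'⟩ := hS' t.1
          rw [ht']
          exact (hw t.1).nonneg _ N (hs1 t' i) (not_dvd_of_indep (hs2 t') i)
        have h3 : (∑ t, c t) * (m * (m - 1) / 2 - m * K) ≤
            ∑ t : {t // P t}, ∑ i, w t.1 (S t.1 i) := by
          rw [Finset.sum_mul]
          apply Finset.sum_le_sum
          intro t _
          calc c t * (m * (m - 1) / 2 - m * K) = ∑ i : Fin m, c t * (((i : ℕ) : ℝ) - K) := by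
                rw [← Finset.mul_sum, Finset.sum_sub_distrib, sum_fin_id, Finset.sum_const,
                  Finset.card_univ, Fintype.card_fin, nsmul_eq_mul]
            _ ≤ ∑ i, w t.1 (S t.1 i) := by
                apply Finset.sum_le_sum
                intro i _
                rw [hSt, hcw t]
                apply mul_le_mul_of_nonneg_left _ (hc t).le
                linarith [hs4 t i, hKt t]
        linarith
      have hfin := hlow.trans hsu
      have hx : 0 ≤ ∑ t, c t := Finset.sum_nonneg fun t _ => (hc t).le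
      have h4 : (∑ t, c t) * (((m : ℝ) - 1) / 2 - K) ≤ N := by
        have h5 : (m : ℝ) * ((∑ t, c t) * (((m : ℝ) - 1) / 2 - K)) ≤ m * N := by
          calc (m : ℝ) * ((∑ t, c t) * (((m : ℝ) - 1) / 2 - K)) =
              (∑ t, c t) * (m * (m - 1) / 2 - m * K) := by ring
            _ ≤ m * N := hfin
        exact le_of_mul_le_mul_left h5 hm0'
      calc (∑ t, c t) * ((δ : ℝ) / 2 * N - (((δ : ℝ) ^ 2 + 1) / 2 + K)) ≤
          (∑ t, c t) * (((m : ℝ) - 1) / 2 - K) := by
            apply mul_le_mul_of_nonneg_left _ hx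
            linarith
        _ ≤ N := h4
    linarith
  -- equality of the normalised valuations
  set E : {t // P t} → {t // P t} → Prop := fun t t' =>
    ∀ s N, MvPolynomial.IsHomogeneous s N → ¬ f ∣ s → w t.1 s / c t = w t'.1 s / c t' with hE
  have hF2 : ∀ t, (∑ t' ∈ Finset.univ.filter (E t), c t') * δ ≤ 1 := by
    intro t
    refine lim_bound (b := (δ : ℝ) ^ 2 + 1 + C0 t) (δ := δ) ?_
    intro N hN
    obtain ⟨m, hm, hm0, hmN⟩ := dim_eq hN h1
    obtain ⟨s, hs1, hs2, hs3, hs4⟩ := hC0 t N m hm hN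
    set i : Fin m := ⟨m - 1, by omega⟩ with hi
    have h4 := hs4 i
    have hnd := not_dvd_of_indep hs2 i
    have hi' : (((i : ℕ) : ℕ) : ℝ) = m - 1 := by
      rw [hi]
      simp only
      rw [Nat.cast_sub hm0, Nat.cast_one]
    have hval : (δ : ℝ) * N - (δ ^ 2 + 1 + C0 t) ≤ w t.1 (s i) / c t := by
      rw [hi'] at h4
      linarith
    have hli := hLI (s i) N (hs1 i) hnd
    have hx : 0 ≤ ∑ t' ∈ Finset.univ.filter (E t), c t' :=
      Finset.sum_nonneg fun t _ => (hc t).le
    calc (∑ t' ∈ Finset.univ.filter (E t), c t') * ((δ : ℝ) * N - (δ ^ 2 + 1 + C0 t)) ≤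
        (∑ t' ∈ Finset.univ.filter (E t), c t') * (w t.1 (s i) / c t) :=
          mul_le_mul_of_nonneg_left hval hx
      _ = ∑ t' ∈ Finset.univ.filter (E t), w t'.1 (s i) := by
          rw [Finset.sum_mul]
          apply Finset.sum_congr rfl
          intro t' ht'
          rw [(Finset.mem_filter.1 ht').2 (s i) N (hs1 i) hnd, ← hcw t']
      _ ≤ ∑ t' : {t // P t}, w t'.1 (s i) := by
          apply Finset.sum_le_sum_of_subset_of_nonneg (Finset.filter_subset _ _)
          intro t' _ _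
          exact (hw t'.1).nonneg _ N (hs1 i) hnd
      _ ≤ ∑ t, w t (s i) := by
          rw [← Fintype.sum_subtype_add_sum_subtype P]
          have : 0 ≤ ∑ t' : {t // ¬ P t}, w t'.1 (s i) :=
            Finset.sum_nonneg fun t' _ => (hw t'.1).nonneg _ N (hs1 i) hnd
          linarith
      _ ≤ N := hli
  -- conclusion
  have hfinal := optimise c (fun t => w t.1 Dis / c t + ∑ i, w t.1 (Tan (D i)) / c t) δ hδ0 hc E
    (by
      intro t t' h
      show w t'.1 Dis / c t' + ∑ i, w t'.1 (Tan (D i)) / c t' =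
        w t.1 Dis / c t + ∑ i, w t.1 (Tan (D i)) / c t
      rw [h Dis 2 hom_Dis hfD]
      congr 1
      apply Finset.sum_congr rfl
      intro i _
      rw [h _ 1 (hom_Tan _) (hT i)])
    (by
      intro t t' h
      rcases hbez t t' with h' | h'
      · exact absurd h' h
      · exact two_places hf hδ h1 (hnn t) (hn t) (hnn t') (hn t') h' hfD D hD hT)
    (fun t => one_place hf hδ h1 (hnn t) (hn t) hfD D hD hT)
    hF1 hF2
  calc ∑ t : {t // P t}, (w t.1 Dis + ∑ i, w t.1 (Tan (D i))) =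
      ∑ t : {t // P t}, c t * (w t.1 Dis / c t + ∑ i, w t.1 (Tan (D i)) / c t) := by
        apply Finset.sum_congr rfl
        intro t _
        rw [mul_add, mul_div_cancel₀ _ (hc t).ne', Finset.mul_sum]
        congr 1
        apply Finset.sum_congr rfl
        intro i _
        rw [mul_div_cancel₀ _ (hc t).ne']
    _ ≤ 4 := hfinal

end Pool.Agent.V2
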