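import Pool.Agent.Helper21.V2.Defs2

/-!
# A basis of monomials in three independent linear forms (block PL2, helper14)
-/

namespace Pool.Agent.V2

open MvPolynomial

variable {k : Type*} [Field k]

namespace PL2

/-- the linear form with coefficients `a` -/
noncomputable def lf (a : Fin 3 → k) : MvPolynomial (Fin 3) k := ∑ j, C (a j) * X j

theorem lf_hom (a : Fin 3 → k) : (lf a).IsHomogeneous 1 := by
  unfold lf
  refine IsHomogeneous.sum _ _ _ fun j _ => ?_
  have h := (isHomogeneous_C (Fin 3) (a j)).mul (isHomogeneous_X k j)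
  simpa using h

/-- the substitution `X_i ↦ ∑_j g i j X_j` -/
noncomputable def sb (g : Matrix (Fin 3) (Fin 3) k) :
    MvPolynomial (Fin 3) k →ₐ[k] MvPolynomial (Fin 3) k := bind₁ fun i => lf (g i)

theorem sb_X (g : Matrix (Fin 3) (Fin 3) k) (i : Fin 3) : sb g (X i) = lf (g i) := by
  unfold sb
  rw [bind₁_X_right]

theorem sb_lf (g h : Matrix (Fin 3) (Fin 3) k) (i : Fin 3) : sb h (lf (g i)) = lf ((g * h) i) := by
  unfold lf
  rw [map_sum]
  have h1 : ∀ j, sb h (C (g i j) * X j) = ∑ m, C (g i j * h j m) * X m := by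
    intro j
    rw [map_mul, sb_X]
    have : sb h (C (g i j)) = C (g i j) := by
      unfold sb
      rw [bind₁_C_right]
    rw [this, lf, Finset.mul_sum]
    exact Finset.sum_congr rfl fun m _ => by rw [C_mul]; ring
  rw [Finset.sum_congr rfl fun j _ => h1 j, Finset.sum_comm]
  refine Finset.sum_congr rfl fun m _ => ?_
  rw [Matrix.mul_apply, map_sum, Finset.sum_mul]

theorem lf_one (i : Fin 3) : lf ((1 : Matrix (Fin 3) (Fin 3) k) i) = X i := by
  unfold lf
  rw [Finset.sum_eq_single i]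
  · simp
  · intro j _ hj
    rw [Matrix.one_apply_ne hj.symm]
    simp
  · simp

theorem sb_inj {g : Matrix (Fin 3) (Fin 3) k} (hg : g.det ≠ 0) : Function.Injective (sb g) := by
  have h1 : (sb g⁻¹).comp (sb g) = AlgHom.id k _ := by
    apply MvPolynomial.algHom_ext
    intro i
    rw [AlgHom.comp_apply, sb_X, sb_lf, Matrix.mul_nonsing_inv _ (isUnit_iff_ne_zero.mpr hg), lf_one]
    rfl
  intro x y hxy
  have h2 := congrArg (sb g⁻¹) hxy
  rw [← AlgHom.comp_apply, ← AlgHom.comp_apply, h1] at h2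
  exact h2

theorem lf_ne_zero {g : Matrix (Fin 3) (Fin 3) k} (hg : g.det ≠ 0) (i : Fin 3) : lf (g i) ≠ 0 := by
  rw [← sb_X]
  intro h
  have := sb_inj hg (h.trans (map_zero _).symm)
  exact X_ne_zero i this

section val

variable {w : MvPolynomial (Fin 3) k → ℝ} (hw : GV (fun s => s = 0) w)

include hw

theorem w_pow {s : MvPolynomial (Fin 3) k} {M : ℕ} (hs : s.IsHomogeneous M) (h0 : s ≠ 0) (n : ℕ) :
    w (s ^ n) = n * w s := by
  induction n with
  | zero =>
    have := hw.const 1 one_ne_zero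
    rw [C_1] at this
    rw [pow_zero, this]
    simp
  | succ n ih =>
    rw [pow_succ, hw.mul (s ^ n) s (M * n) M (hs.pow n) hs (pow_ne_zero n h0) h0, ih]
    push_cast
    ring

theorem w_mono {s t u : MvPolynomial (Fin 3) k} (hs : s.IsHomogeneous 1) (ht : t.IsHomogeneous 1)
    (hu : u.IsHomogeneous 1) (hs0 : s ≠ 0) (ht0 : t ≠ 0) (hu0 : u ≠ 0) (i j m : ℕ) :
    i * w s + j * w t ≤ w (s ^ i * t ^ j * u ^ m) := by
  have h1 := hs.pow i
  have h2 := ht.pow j
  have h3 := hu.pow m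
  rw [hw.mul _ _ _ _ (h1.mul h2) h3 (mul_ne_zero (pow_ne_zero _ hs0) (pow_ne_zero _ ht0))
    (pow_ne_zero _ hu0), hw.mul _ _ _ _ h1 h2 (pow_ne_zero _ hs0) (pow_ne_zero _ ht0),
    w_pow hw hs hs0, w_pow hw ht ht0]
  have := hw.nonneg _ _ h3 (pow_ne_zero _ hu0)
  linarith

end val

/-- index set: `a ≤ N`, `i ≤ a` -/
def T (N : ℕ) : Finset (Σ _ : ℕ, ℕ) := (Finset.range (N + 1)).sigma fun a => Finset.range (a + 1)

theorem card_T (N : ℕ) : (T N).card = Nat.choose (N + 2) 2 := by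
  unfold T
  rw [Finset.card_sigma]
  induction N with
  | zero => simp
  | succ N ih =>
    rw [Finset.sum_range_succ, ih, Finset.card_range]
    have : Nat.choose (N + 1 + 2) 2 = Nat.choose (N + 2) 1 + Nat.choose (N + 2) 2 :=
      Nat.choose_succ_succ (N + 2) 1
    rw [this, Nat.choose_one_right]
    ring

theorem sum_T (N : ℕ) (A B : ℝ) :
    ∑ p ∈ T N, ((p.2 : ℝ) * A + ((p.1 - p.2 : ℕ) : ℝ) * B) =
      N * (N + 1) * (N + 2) / 6 * (A + B) := by
  unfold T
  rw [Finset.sum_sigma]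
  have h1 : ∀ a ∈ Finset.range (N + 1), ∑ i ∈ Finset.range (a + 1),
      ((i : ℝ) * A + ((a - i : ℕ) : ℝ) * B) = a * (a + 1) / 2 * (A + B) := by
    intro a _
    have h2 : ∀ n : ℕ, ∑ i ∈ Finset.range (n + 1), (i : ℝ) = n * (n + 1) / 2 := by
      intro n
      induction n with
      | zero => simp
      | succ n ih =>
        rw [Finset.sum_range_succ, ih]
        push_cast
        ring
    have h3 : ∑ i ∈ Finset.range (a + 1), ((a - i : ℕ) : ℝ) = a * (a + 1) / 2 := by
      rw [← h2 a]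
      rw [← Finset.sum_range_reflect]
      refine Finset.sum_congr rfl fun i hi => ?_
      have : i < a + 1 := Finset.mem_range.1 hi
      congr 1
      omega
    rw [Finset.sum_add_distrib, ← Finset.sum_mul, ← Finset.sum_mul, h2, h3]
    ring
  rw [Finset.sum_congr rfl h1]
  induction N with
  | zero => simp
  | succ N ih =>
    rw [Finset.sum_range_succ, ih (fun a ha => h1 a (by
      rw [Finset.mem_range] at ha ⊢
      omega))]
    push_cast
    ring

/-- the exponent of the monomial with index `p` -/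
noncomputable def ex3 (N : ℕ) (p : Σ _ : ℕ, ℕ) : Fin 3 →₀ ℕ :=
  Finsupp.equivFunOnFinite.symm ![p.2, p.1 - p.2, N - p.1]

theorem mono_eq (N : ℕ) (p : Σ _ : ℕ, ℕ) :
    (monomial (ex3 N p) (1 : k)) = X 0 ^ p.2 * X 1 ^ (p.1 - p.2) * X 2 ^ (N - p.1) := by
  rw [monomial_eq, Finsupp.prod_fintype _ _ (by simp), Fin.prod_univ_three]
  simp [ex3]

theorem ex3_inj (N : ℕ) : Set.InjOn (ex3 N) (T N : Set (Σ _ : ℕ, ℕ)) := by
  rintro ⟨a, i⟩ hp ⟨b, j⟩ hq h
  simp only [T, Finset.coe_sigma, Set.mem_sigma_iff, Finset.coe_range, Set.mem_Iio] at hp hq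
  have h' := congrArg Finsupp.equivFunOnFinite h
  simp only [ex3, Equiv.apply_symm_apply] at h'
  have h0 := congrFun h' 0
  have h1 := congrFun h' 1
  have h2 := congrFun h' 2
  simp at h0 h1 h2
  obtain ⟨hp1, hp2⟩ := hp
  obtain ⟨hq1, hq2⟩ := hq
  have e2 : i = j := h0
  have e1 : a = b := by omega
  subst e1 e2
  rfl

/-- the general form: a basis of monomials in three linear forms -/
theorem basis {w : MvPolynomial (Fin 3) k → ℝ} (hw : GV (fun s => s = 0) w)
    {g : Matrix (Fin 3) (Fin 3) k} (hg : g.det ≠ 0) (N : ℕ) :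
    ∃ s : Fin (Nat.choose (N + 2) 2) → MvPolynomial (Fin 3) k, (∀ i, (s i).IsHomogeneous N) ∧
      LinearIndependent k s ∧
      (N : ℝ) ^ 3 / 6 * (w (lf (g 0)) + w (lf (g 1))) ≤ ∑ i, w (s i) := by
  classical
  let e : T N ≃ Fin (Nat.choose (N + 2) 2) := Finset.equivFinOfCardEq (card_T N)
  let f : (Σ _ : ℕ, ℕ) → MvPolynomial (Fin 3) k := fun p =>
    lf (g 0) ^ p.2 * lf (g 1) ^ (p.1 - p.2) * lf (g 2) ^ (N - p.1)
  have hf : ∀ p, f p = sb g (monomial (ex3 N p) 1) := by
    intro p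
    rw [mono_eq, map_mul, map_mul, map_pow, map_pow, map_pow, sb_X, sb_X, sb_X]
  refine ⟨fun i => f (e.symm i), ?_, ?_, ?_⟩
  · intro i
    have hp := (e.symm i).2
    set p := (e.symm i : Σ _ : ℕ, ℕ)
    simp only [T, Finset.mem_sigma, Finset.mem_range] at hp
    have h1 := ((lf_hom (g 0)).pow p.2).mul ((lf_hom (g 1)).pow (p.1 - p.2))
    have h2 := h1.mul ((lf_hom (g 2)).pow (N - p.1))
    have h3 : 1 * p.2 + 1 * (p.1 - p.2) + 1 * (N - p.1) = N := by omega
    rw [h3] at h2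
    exact h2
  · have h1 : LinearIndependent k (fun d : Fin 3 →₀ ℕ => monomial d (1 : k)) := by
      have := (basisMonomials (Fin 3) k).linearIndependent
      simpa using this
    have h2 : LinearIndependent k (fun i => monomial (ex3 N (e.symm i)) (1 : k)) := by
      refine h1.comp (fun i => ex3 N (e.symm i)) ?_
      intro i j hij
      have := ex3_inj N (e.symm i).2 (e.symm j).2 hij
      exact e.symm.injective (Subtype.ext this)
    have h3 := h2.map' (sb g).toLinearMap (LinearMap.ker_eq_bot.mpr (sb_inj hg))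
    have h4 : (fun i => f (e.symm i)) =
        ⇑(sb g).toLinearMap ∘ fun i => monomial (ex3 N (e.symm i)) (1 : k) := by
      funext i
      exact hf _
    rw [h4]
    exact h3
  · have h0 := lf_ne_zero hg
    have hA := hw.nonneg _ _ (lf_hom (g 0)) (h0 0)
    have hB := hw.nonneg _ _ (lf_hom (g 1)) (h0 1)
    have h1 : ∑ i, w (f (e.symm i)) = ∑ p ∈ T N, w (f p) := by
      rw [← Finset.sum_coe_sort (T N) fun p => w (f p)]
      exact Equiv.sum_comp e.symm fun p : T N => w (f p)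
    rw [h1]
    have h2 : ∑ p ∈ T N, ((p.2 : ℝ) * w (lf (g 0)) + ((p.1 - p.2 : ℕ) : ℝ) * w (lf (g 1))) ≤
        ∑ p ∈ T N, w (f p) :=
      Finset.sum_le_sum fun p _ =>
        w_mono hw (lf_hom _) (lf_hom _) (lf_hom _) (h0 0) (h0 1) (h0 2) _ _ _
    rw [sum_T] at h2
    refine le_trans ?_ h2
    apply mul_le_mul_of_nonneg_right _ (add_nonneg hA hB)
    have hN : (0 : ℝ) ≤ N := Nat.cast_nonneg N
    nlinarith [mul_nonneg hN hN]

/-- the matrix of `Tan α`, `Tan β` and their polar -/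
def gm (α β : Fin 2 → k) : Matrix (Fin 3) (Fin 3) k :=
  !![α 0 ^ 2, α 0 * α 1, α 1 ^ 2; β 0 ^ 2, β 0 * β 1, β 1 ^ 2;
    2 * α 0 * β 0, α 0 * β 1 + α 1 * β 0, 2 * α 1 * β 1]

theorem gm_det (α β : Fin 2 → k) : (gm α β).det = -(α 0 * β 1 - α 1 * β 0) ^ 3 := by
  unfold gm
  rw [Matrix.det_fin_three]
  simp
  ring

end PL2

/-- PL2. The monomials in three independent linear forms. -/
theorem plane_basis1 {k : Type*} [Field k] [CharZero k]
    {w : MvPolynomial (Fin 3) k → ℝ} (hw : GV (fun s => s = 0) w)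
    (α β : Fin 2 → k) (h1 : α 0 * β 1 ≠ α 1 * β 0) (N : ℕ) :
    ∃ s : Fin (Nat.choose (N + 2) 2) → MvPolynomial (Fin 3) k, (∀ i, (s i).IsHomogeneous N) ∧
      LinearIndependent k s ∧
      (N : ℝ) ^ 3 / 6 * (w (Tan α) + w (Tan β)) ≤ ∑ i, w (s i) := by
  have hdet : (PL2.gm α β).det ≠ 0 := by
    rw [PL2.gm_det]
    exact neg_ne_zero.mpr (pow_ne_zero _ (sub_ne_zero.mpr h1))
  have hα : PL2.lf (PL2.gm α β 0) = Tan α := by
    unfold PL2.lf PL2.gm Tan
    rw [Fin.sum_univ_three]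
    simp
  have hβ : PL2.lf (PL2.gm α β 1) = Tan β := by
    unfold PL2.lf PL2.gm Tan
    rw [Fin.sum_univ_three]
    simp
  have := PL2.basis hw hdet N
  rw [hα, hβ] at this
  exact this

end Pool.Agent.V2
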