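import Pool.Agent.Helper21.V2.PL1
import Pool.Agent.Helper21.V2.PL2

/-!
# A basis adapted to powers of the discriminant (block PL2b, helper67)
-/

namespace Pool.Agent.V2

open MvPolynomial

variable {k : Type*} [Field k]

namespace PL2b

/-- exponent vector -/
noncomputable def ex (a b c : ℕ) : Fin 3 →₀ ℕ := Finsupp.equivFunOnFinite.symm ![a, b, c]

theorem mono_ex (a b c : ℕ) (x : k) :
    (monomial (ex a b c) x) = C x * (X 0 ^ a * X 1 ^ b * X 2 ^ c) := by
  rw [monomial_eq, Finsupp.prod_fintype _ _ (by simp), Fin.prod_univ_three]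
  simp [ex]

theorem ex_inj {a b c a' b' c' : ℕ} (h : ex a b c = ex a' b' c') : a = a' ∧ b = b' ∧ c = c' := by
  have h' := congrArg Finsupp.equivFunOnFinite h
  simp only [ex, Equiv.apply_symm_apply] at h'
  have h0 := congrFun h' 0
  have h1 := congrFun h' 1
  have h2 := congrFun h' 2
  simp at h0 h1 h2
  exact ⟨h0, h1, h2⟩

/-- the model elements -/
noncomputable def el (κ : k) (i j e : ℕ) : MvPolynomial (Fin 3) k :=
  X 0 ^ i * X 1 ^ j * (C κ * (X 2 ^ 2 - C 4 * (X 0 * X 1))) ^ (e / 2) * X 2 ^ (e % 2)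

theorem el_eq (κ : k) (i j e : ℕ) : el κ i j e =
    ∑ l ∈ Finset.range (e / 2 + 1),
      monomial (ex (i + (e / 2 - l)) (j + (e / 2 - l)) (2 * l + e % 2))
        (κ ^ (e / 2) * ((-4) ^ (e / 2 - l) * (Nat.choose (e / 2) l : k))) := by
  unfold el
  rw [mul_pow, sub_eq_add_neg, add_pow, Finset.mul_sum, Finset.mul_sum, Finset.sum_mul]
  refine Finset.sum_congr rfl fun l _ => ?_
  rw [mono_ex]
  have h4 : -(C 4 * (X 0 * X 1 : MvPolynomial (Fin 3) k)) = C (-4) * (X 0 * X 1) := by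
    rw [C_neg]; ring
  rw [h4, mul_pow, mul_pow (X 0) (X 1)]
  simp only [map_mul, map_pow, map_natCast]
  ring

theorem coeff_el (κ : k) (i j e a b c : ℕ) (h : e < c ∨ (e = c ∧ ¬ (i = a ∧ j = b))) :
    coeff (ex a b c) (el κ i j e) = 0 := by
  rw [el_eq, coeff_sum]
  refine Finset.sum_eq_zero fun l hl => ?_
  rw [coeff_monomial, if_neg]
  intro hh
  obtain ⟨h1, h2, h3⟩ := ex_inj hh
  have hl' : l ≤ e / 2 := by
    have := Finset.mem_range.1 hl
    omega
  have he := Nat.div_add_mod e 2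
  rcases h with h | ⟨h, h'⟩
  · omega
  · apply h'
    omega

theorem coeff_el_self (κ : k) (i j e : ℕ) :
    coeff (ex i j e) (el κ i j e) = κ ^ (e / 2) := by
  have he := Nat.div_add_mod e 2
  rw [el_eq, coeff_sum, Finset.sum_eq_single (e / 2)]
  · rw [coeff_monomial, if_pos]
    · simp
    · rw [Nat.sub_self, he]
      rfl
  · intro l hl hne
    have hl' : l ≤ e / 2 := by
      have := Finset.mem_range.1 hl
      omega
    rw [coeff_monomial, if_neg]
    intro hh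
    obtain ⟨h1, h2, h3⟩ := ex_inj hh
    omega
  · intro h
    exact absurd (Finset.mem_range.2 (Nat.lt_succ_self _)) h

/-- independence of the model elements -/
theorem indep {κ : k} (hκ : κ ≠ 0) (M : ℕ) {ι : Type*} [Finite ι] (p : ι → Σ _ : ℕ, ℕ)
    (hp : ∀ i, p i ∈ PL2.T M) (hinj : Function.Injective p) :
    LinearIndependent k (fun t => el κ (p t).2 ((p t).1 - (p t).2) (M - (p t).1)) := by
  classical
  have := Fintype.ofFinite ι
  rw [Fintype.linearIndependent_iff]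
  intro c hc
  by_contra hcon
  push Not at hcon
  obtain ⟨t0, ht0⟩ := hcon
  let S : Finset ι := Finset.univ.filter fun t => c t ≠ 0
  have hS : S.Nonempty := ⟨t0, by simp [S, ht0]⟩
  obtain ⟨q, hq, hmax⟩ := S.exists_max_image (fun t => M - (p t).1) hS
  have hq' : c q ≠ 0 := by simpa [S] using hq
  have h1 := congrArg (coeff (ex (p q).2 ((p q).1 - (p q).2) (M - (p q).1))) hc
  rw [coeff_sum, coeff_zero, Finset.sum_eq_single q] at h1
  · rw [coeff_smul, coeff_el_self, smul_eq_mul] at h1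
    rcases mul_eq_zero.1 h1 with h | h
    · exact hq' h
    · exact pow_ne_zero _ hκ h
  · intro t _ htq
    rw [coeff_smul, smul_eq_mul]
    by_cases hct : c t = 0
    · rw [hct, zero_mul]
    · rw [coeff_el, mul_zero]
      have h2 : M - (p t).1 ≤ M - (p q).1 := hmax t (by simp [S, hct])
      rcases lt_or_eq_of_le h2 with h3 | h3
      · exact Or.inl h3
      · right
        refine ⟨h3, ?_⟩
        rintro ⟨h4, h5⟩
        apply htq
        apply hinj
        have hpt := hp t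
        have hpq := hp q
        simp only [PL2.T, Finset.mem_sigma, Finset.mem_range] at hpt hpq
        have h6 : (p t).1 = (p q).1 := by omega
        exact Sigma.ext h6 (heq_of_eq h4)
  · intro h
    exact absurd (Finset.mem_univ _) h

theorem sum_fst (N : ℕ) :
    ∑ p ∈ PL2.T (2 * N), (((2 * N - p.1) / 2 : ℕ) : ℝ) = N * (N + 1) * (4 * N - 1) / 6 := by
  unfold PL2.T
  rw [Finset.sum_sigma]
  have h0 : ∀ M : ℕ, ∑ a ∈ Finset.range (M + 1), ∑ _i ∈ Finset.range (a + 1),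
      (((M - a) / 2 : ℕ) : ℝ) = ∑ a ∈ Finset.range (M + 1), ((a : ℝ) + 1) * (((M - a) / 2 : ℕ) : ℝ) := by
    intro M
    refine Finset.sum_congr rfl fun a _ => ?_
    rw [Finset.sum_const, Finset.card_range, nsmul_eq_mul]
    push_cast
    ring
  change ∑ a ∈ Finset.range (2 * N + 1), ∑ _i ∈ Finset.range (a + 1),
      (((2 * N - a) / 2 : ℕ) : ℝ) = _
  rw [h0]
  have hg : ∀ n : ℕ, ∑ a ∈ Finset.range n, ((a : ℝ) + 1) = n * (n + 1) / 2 := by
    intro n
    induction n with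
    | zero => simp
    | succ n ih =>
      rw [Finset.sum_range_succ, ih]
      push_cast
      ring
  induction N with
  | zero => simp
  | succ N ih =>
    have e1 : 2 * (N + 1) + 1 = (2 * N + 1) + 1 + 1 := by ring
    rw [e1, Finset.sum_range_succ, Finset.sum_range_succ]
    have e2 : (2 * (N + 1) - (2 * N + 1 + 1)) / 2 = 0 := by omega
    have e3 : (2 * (N + 1) - (2 * N + 1)) / 2 = 0 := by omega
    rw [e2, e3]
    have e4 : ∑ a ∈ Finset.range (2 * N + 1), ((a : ℝ) + 1) * (((2 * (N + 1) - a) / 2 : ℕ) : ℝ) =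
        ∑ a ∈ Finset.range (2 * N + 1), ((a : ℝ) + 1) * (((2 * N - a) / 2 : ℕ) : ℝ) +
        ∑ a ∈ Finset.range (2 * N + 1), ((a : ℝ) + 1) := by
      rw [← Finset.sum_add_distrib]
      refine Finset.sum_congr rfl fun a ha => ?_
      have ha' := Finset.mem_range.1 ha
      have : (2 * (N + 1) - a) / 2 = (2 * N - a) / 2 + 1 := by omega
      rw [this]
      push_cast
      ring
    rw [e4, ih, hg]
    push_cast
    ring

end PL2b

/-- PL2'. Powers of the discriminant. -/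
theorem plane_basis2 {k : Type*} [Field k] [CharZero k]
    {w : MvPolynomial (Fin 3) k → ℝ} (hw : GV (fun s => s = 0) w)
    (α : Fin 2 → k) (h1 : α ≠ 0) (N : ℕ) :
    ∃ s : Fin (Nat.choose (2 * N + 2) 2) → MvPolynomial (Fin 3) k,
      (∀ i, (s i).IsHomogeneous (2 * N)) ∧ LinearIndependent k s ∧
      ((2 * N : ℕ) : ℝ) ^ 3 / 6 * (w (Tan α) + w Dis / 2) ≤ ∑ i, w (s i) := by
  classical
  obtain ⟨β, hβ⟩ : ∃ β : Fin 2 → k, α 0 * β 1 ≠ α 1 * β 0 := by
    by_cases h0 : α 0 = 0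
    · have h0' : α 1 ≠ 0 := by
        intro h
        apply h1
        funext i
        fin_cases i
        · exact h0
        · exact h
      exact ⟨![1, 0], by simpa [h0] using h0'.symm⟩
    · exact ⟨![0, 1], by simpa using h0⟩
  set δ : k := α 0 * β 1 - α 1 * β 0 with hδ
  have hδ0 : δ ≠ 0 := sub_ne_zero.2 hβ
  set κ : k := (δ ^ 2)⁻¹ with hκdef
  have hκ : κ ≠ 0 := inv_ne_zero (pow_ne_zero 2 hδ0)
  have hdet : (PL2.gm α β).det ≠ 0 := by
    rw [PL2.gm_det]
    exact neg_ne_zero.mpr (pow_ne_zero _ hδ0)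
  have hα' : PL2.lf (PL2.gm α β 0) = Tan α := by
    unfold PL2.lf PL2.gm Tan
    rw [Fin.sum_univ_three]
    simp
  have hβ' : PL2.lf (PL2.gm α β 1) = Tan β := by
    unfold PL2.lf PL2.gm Tan
    rw [Fin.sum_univ_three]
    simp
  have hP' : PL2.lf (PL2.gm α β 2) = PL1.Pol α β := by
    unfold PL2.lf PL2.gm PL1.Pol
    rw [Fin.sum_univ_three]
    simp
  have hTα0 : Tan α ≠ 0 := hα' ▸ PL2.lf_ne_zero hdet 0
  have hTβ0 : Tan β ≠ 0 := hβ' ▸ PL2.lf_ne_zero hdet 1
  have hP0 : PL1.Pol α β ≠ 0 := hP' ▸ PL2.lf_ne_zero hdet 2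
  have hDis : PL2.sb (PL2.gm α β) (C κ * (X 2 ^ 2 - C 4 * (X 0 * X 1))) = Dis := by
    rw [map_mul, map_sub, map_pow, map_mul, map_mul, PL2.sb_X, PL2.sb_X, PL2.sb_X, hα', hβ', hP']
    have hC : ∀ a : k, PL2.sb (PL2.gm α β) (C a) = C a := by
      intro a
      unfold PL2.sb
      rw [bind₁_C_right]
    rw [hC, hC, PL1.Pol_sq, ← hδ]
    have : C κ * C (δ ^ 2) = (1 : MvPolynomial (Fin 3) k) := by
      rw [← C_mul, hκdef, inv_mul_cancel₀ (pow_ne_zero 2 hδ0), C_1]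
    calc C κ * (C (δ ^ 2) * Dis + C 4 * (Tan α * Tan β) - C 4 * (Tan α * Tan β))
        = (C κ * C (δ ^ 2)) * Dis := by ring
      _ = Dis := by rw [this, one_mul]
  have hDis0 : (Dis : MvPolynomial (Fin 3) k) ≠ 0 := by
    intro h
    have h2 := PL1.Pol_sq α β
    rw [h, mul_zero, zero_add] at h2
    have h3 := congrArg (coeff (PL2b.ex 1 0 1)) (show (Dis : MvPolynomial (Fin 3) k) = 0 from h)
    have h4 : (Dis : MvPolynomial (Fin 3) k) = monomial (PL2b.ex 0 2 0) 1 - monomial (PL2b.ex 1 0 1) 4 := by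
      rw [PL2b.mono_ex, PL2b.mono_ex, Dis]
      simp only [C_1]
      ring
    rw [h4, coeff_sub, coeff_monomial, coeff_monomial, if_neg, if_pos rfl, coeff_zero] at h3
    · norm_num at h3
    · intro hh
      have := PL2b.ex_inj hh
      omega
  let e : PL2.T (2 * N) ≃ Fin (Nat.choose (2 * N + 2) 2) :=
    Finset.equivFinOfCardEq (PL2.card_T (2 * N))
  let f : (Σ _ : ℕ, ℕ) → MvPolynomial (Fin 3) k := fun p =>
    Tan α ^ p.2 * Tan β ^ (p.1 - p.2) * Dis ^ ((2 * N - p.1) / 2) *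
      PL1.Pol α β ^ ((2 * N - p.1) % 2)
  have hf : ∀ p, f p = PL2.sb (PL2.gm α β) (PL2b.el κ p.2 (p.1 - p.2) (2 * N - p.1)) := by
    intro p
    rw [PL2b.el, map_mul, map_mul, map_mul, map_pow, map_pow, map_pow, map_pow, hDis, PL2.sb_X,
      PL2.sb_X, PL2.sb_X, hα', hβ', hP']
  refine ⟨fun i => f (e.symm i), ?_, ?_, ?_⟩
  · intro i
    have hp := (e.symm i).2
    set p := (e.symm i : Σ _ : ℕ, ℕ)
    simp only [PL2.T, Finset.mem_sigma, Finset.mem_range] at hp
    have g1 := ((PL1.isHomogeneous_Tan α).pow p.2).mul ((PL1.isHomogeneous_Tan β).pow (p.1 - p.2))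
    have g2 := (g1.mul ((PL1.isHomogeneous_Dis (k := k)).pow ((2 * N - p.1) / 2))).mul
      ((PL1.isHomogeneous_Pol α β).pow ((2 * N - p.1) % 2))
    have g3 : 1 * p.2 + 1 * (p.1 - p.2) + 2 * ((2 * N - p.1) / 2) + 1 * ((2 * N - p.1) % 2)
        = 2 * N := by omega
    rw [g3] at g2
    exact g2
  · have h2 := PL2b.indep hκ (2 * N) (fun i => (e.symm i : Σ _ : ℕ, ℕ)) (fun i => (e.symm i).2)
      (fun i j h => e.symm.injective (Subtype.ext h))
    have h3 := h2.map' (PL2.sb (PL2.gm α β)).toLinearMap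
      (LinearMap.ker_eq_bot.mpr (PL2.sb_inj hdet))
    have h4 : (fun i => f (e.symm i)) = ⇑(PL2.sb (PL2.gm α β)).toLinearMap ∘
        fun i => PL2b.el κ (e.symm i : Σ _ : ℕ, ℕ).2
          ((e.symm i : Σ _ : ℕ, ℕ).1 - (e.symm i : Σ _ : ℕ, ℕ).2)
          (2 * N - (e.symm i : Σ _ : ℕ, ℕ).1) := by
      funext i
      exact hf _
    rw [h4]
    exact h3
  · have hA := hw.nonneg _ _ (PL1.isHomogeneous_Tan α) hTα0
    have hB := hw.nonneg _ _ (PL1.isHomogeneous_Dis (k := k)) hDis0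
    have h2 : ∑ i, w (f (e.symm i)) = ∑ p ∈ PL2.T (2 * N), w (f p) := by
      rw [← Finset.sum_coe_sort (PL2.T (2 * N)) fun p => w (f p)]
      exact Equiv.sum_comp e.symm fun p : PL2.T (2 * N) => w (f p)
    rw [h2]
    have h3 : ∀ p : Σ _ : ℕ, ℕ, (p.2 : ℝ) * w (Tan α) + (((2 * N - p.1) / 2 : ℕ) : ℝ) * w Dis ≤
        w (f p) := by
      intro p
      have i1 := (PL1.isHomogeneous_Tan α).pow p.2
      have i2 := (PL1.isHomogeneous_Tan β).pow (p.1 - p.2)
      have i3 := (PL1.isHomogeneous_Dis (k := k)).pow ((2 * N - p.1) / 2)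
      have i4 := (PL1.isHomogeneous_Pol α β).pow ((2 * N - p.1) % 2)
      have n1 := pow_ne_zero p.2 hTα0
      have n2 := pow_ne_zero (p.1 - p.2) hTβ0
      have n3 := pow_ne_zero ((2 * N - p.1) / 2) hDis0
      have n4 := pow_ne_zero ((2 * N - p.1) % 2) hP0
      have w2 := hw.nonneg _ _ i2 n2
      have w4 := hw.nonneg _ _ i4 n4
      change _ ≤ w (Tan α ^ p.2 * Tan β ^ (p.1 - p.2) * Dis ^ ((2 * N - p.1) / 2) *
        PL1.Pol α β ^ ((2 * N - p.1) % 2))
      rw [hw.mul _ _ _ _ ((i1.mul i2).mul i3) i4 (mul_ne_zero (mul_ne_zero n1 n2) n3) n4,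
        hw.mul _ _ _ _ (i1.mul i2) i3 (mul_ne_zero n1 n2) n3, hw.mul _ _ _ _ i1 i2 n1 n2,
        PL2.w_pow hw (PL1.isHomogeneous_Tan α) hTα0,
        PL2.w_pow hw (PL1.isHomogeneous_Dis (k := k)) hDis0]
      linarith
    have h4 : ∑ p ∈ PL2.T (2 * N), ((p.2 : ℝ) * w (Tan α) +
        (((2 * N - p.1) / 2 : ℕ) : ℝ) * w Dis) ≤ ∑ p ∈ PL2.T (2 * N), w (f p) :=
      Finset.sum_le_sum fun p _ => h3 p
    refine le_trans ?_ h4
    rw [Finset.sum_add_distrib, ← Finset.sum_mul, ← Finset.sum_mul, PL2b.sum_fst]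
    have h5 := PL2.sum_T (2 * N) 1 0
    simp only [mul_one, mul_zero, add_zero] at h5
    rw [h5]
    have hN : (0 : ℝ) ≤ N := Nat.cast_nonneg N
    have j1 : ((2 * N : ℕ) : ℝ) ^ 3 / 6 ≤
        ((2 * N : ℕ) : ℝ) * (((2 * N : ℕ) : ℝ) + 1) * (((2 * N : ℕ) : ℝ) + 2) / 6 := by
      push_cast
      nlinarith [mul_nonneg hN hN]
    have j2 : ((2 * N : ℕ) : ℝ) ^ 3 / 6 / 2 ≤ (N : ℝ) * (N + 1) * (4 * N - 1) / 6 := by
      push_cast
      rcases Nat.eq_zero_or_pos N with h | h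
      · subst h
        simp
      · have : (1 : ℝ) ≤ N := by exact_mod_cast h
        nlinarith [mul_nonneg hN hN]
    calc ((2 * N : ℕ) : ℝ) ^ 3 / 6 * (w (Tan α) + w Dis / 2)
        = ((2 * N : ℕ) : ℝ) ^ 3 / 6 * w (Tan α) + ((2 * N : ℕ) : ℝ) ^ 3 / 6 / 2 * w Dis := by ring
      _ ≤ _ := add_le_add (mul_le_mul_of_nonneg_right j1 hA) (mul_le_mul_of_nonneg_right j2 hB)

end Pool.Agent.V2
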