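import Pool.Agent.Helper21.V2.PL0
import Pool.Agent.Helper21.V2.PL1
import Pool.Agent.Helper21.V2.PL2
import Pool.Agent.Helper21.V2.CV1
import Pool.Agent.Helper21.V2.PL2b

/-!
# Block PL3: the Zariski dense case (helper40)
-/

namespace Pool.Agent.V2

open MvPolynomial

namespace PL3

section field

variable {k : Type*} [Field k]

theorem ZI_zero : ZI (fun s : MvPolynomial (Fin 3) k => s = 0) where
  zero := rfl
  one := one_ne_zero
  add := by
    intro s t N _ _ hs ht
    change s + t = 0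
    rw [show s = 0 from hs, show t = 0 from ht, add_zero]
  mul := by
    intro s t M N _ _
    exact mul_eq_zero
  C_mul := by
    intro s N a _ hs
    change C a * s = 0
    rw [show s = 0 from hs, mul_zero]

theorem Tan_hom (α : Fin 2 → k) : (Tan α).IsHomogeneous 1 := by
  unfold Tan
  exact ((hom_C_mul (isHomogeneous_X k 0) _).add (hom_C_mul (isHomogeneous_X k 1) _)).add
    (hom_C_mul (isHomogeneous_X k 2) _)

theorem Dis_hom : (Dis : MvPolynomial (Fin 3) k).IsHomogeneous 2 := by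
  unfold Dis
  have h1 : ((X 1 : MvPolynomial (Fin 3) k) ^ 2).IsHomogeneous 2 := by
    have := (isHomogeneous_X k (1 : Fin 3)).pow 2
    simpa using this
  have h2 : (C 4 * X 0 * X 2 : MvPolynomial (Fin 3) k).IsHomogeneous 2 := by
    have := (hom_C_mul (isHomogeneous_X k (0 : Fin 3)) (4 : k)).mul (isHomogeneous_X k (2 : Fin 3))
    simpa using this
  exact h1.sub h2

theorem Tan_ne {α : Fin 2 → k} (h : α ≠ 0) : Tan α ≠ 0 := by
  intro h0
  apply h
  have e0 := congrArg (eval ![1, 0, 0]) h0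
  have e2 := congrArg (eval ![0, 0, 1]) h0
  simp [Tan] at e0 e2
  funext i
  fin_cases i
  · exact e0
  · exact e2

theorem Dis_ne : (Dis : MvPolynomial (Fin 3) k) ≠ 0 := by
  intro h0
  have e0 := congrArg (eval ![0, 1, 0]) h0
  simp [Dis] at e0

/-- a vector which is not proportional to a given one -/
theorem exists_other {α : Fin 2 → k} (h : α ≠ 0) : ∃ β : Fin 2 → k, α 0 * β 1 ≠ α 1 * β 0 := by
  by_cases h0 : α 0 = 0
  · refine ⟨![1, 0], ?_⟩
    have h1 : α 1 ≠ 0 := by
      intro h1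
      apply h
      funext i
      fin_cases i
      · exact h0
      · exact h1
    simpa [h0] using h1.symm
  · exact ⟨![0, 1], by simpa using h0⟩

end field

section main

variable {k : Type*} [Field k] [CharZero k]

/-- an independent family of the right size spans the forms of degree `N` -/
theorem span_fam (N : ℕ) (s : MvPolynomial (Fin 3) k)
    (s' : Fin (Nat.choose (N + 2) 2) → MvPolynomial (Fin 3) k) (h : s.IsHomogeneous N)
    (h' : ∀ i, (s' i).IsHomogeneous N) (hli : LinearIndependent k s') :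
    ∃ a : Fin (Nat.choose (N + 2) 2) → k, s - ∑ j, C (a j) * s' j = 0 := by
  haveI := finite_hs (k := k) N
  let b : Fin (Nat.choose (N + 2) 2) → hs k N := fun i => ⟨s' i, h' i⟩
  have hb : LinearIndependent k b := by
    apply LinearIndependent.of_comp (hs k N).subtype
    exact hli
  have hcard : Fintype.card (Fin (Nat.choose (N + 2) 2)) = Module.finrank k (hs k N) := by
    rw [Fintype.card_fin, finrank_hs]
  have hspan : ⊤ ≤ Submodule.span k (Set.range b) :=
    (hb.span_eq_top_of_card_eq_finrank' hcard).ge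
  have hmem : (⟨s, h⟩ : hs k N) ∈ Submodule.span k (Set.range b) := hspan trivial
  rw [Submodule.mem_span_range_iff_exists_fun] at hmem
  obtain ⟨a, ha⟩ := hmem
  refine ⟨a, ?_⟩
  have h2 : ∑ i, a i • s' i = s := by
    have := congrArg (hs k N).subtype ha
    rw [map_sum] at this
    exact this
  rw [sub_eq_zero, ← h2]
  exact Finset.sum_congr rfl fun i _ => smul_eq_C_mul _ _

/-- for one valuation: two tangents carry the whole sum if the discriminant has value zero -/
theorem local1 {w : MvPolynomial (Fin 3) k → ℝ} (hw : GV (fun s => s = 0) w) {q : ℕ}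
    (D : Fin q → Fin 2 → k) (hD : ∀ i j, i ≠ j → D i 0 * D j 1 ≠ D i 1 * D j 0)
    (hD0 : ∀ i, D i ≠ 0) :
    ∃ α β : Fin 2 → k, α 0 * β 1 ≠ α 1 * β 0 ∧
      ∑ i, w (Tan (D i)) ≤ w (Tan α) + w (Tan β) := by
  classical
  have hnn : ∀ α : Fin 2 → k, α ≠ 0 → 0 ≤ w (Tan α) := fun α hα =>
    hw.nonneg _ 1 (Tan_hom α) (Tan_ne hα)
  set P : Finset (Fin q) := Finset.univ.filter fun i => w (Tan (D i)) ≠ 0 with hP
  have hsum : ∑ i, w (Tan (D i)) = ∑ i ∈ P, w (Tan (D i)) := by
    rw [hP, Finset.sum_filter]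
    refine Finset.sum_congr rfl fun i _ => ?_
    split_ifs with h
    · rfl
    · push Not at h
      exact h
  have hcard : P.card ≤ 2 := by
    by_contra hc
    push Not at hc
    obtain ⟨i, j, l, hi, hj, hl, hij, hil, hjl⟩ := Finset.two_lt_card_iff.mp hc
    rw [hP, Finset.mem_filter] at hi hj hl
    rcases three_tangents ZI_zero hw (D i) (D j) (D l) (hD i j hij) (hD i l hil) (hD j l hjl)
      (Tan_ne (hD0 i)) (Tan_ne (hD0 j)) (Tan_ne (hD0 l)) with h | h | h
    · exact hi.2 h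
    · exact hj.2 h
    · exact hl.2 h
  rw [hsum]
  have h012 : P.card = 0 ∨ P.card = 1 ∨ P.card = 2 := by omega
  rcases h012 with h | h | h
  · rw [Finset.card_eq_zero] at h
    refine ⟨![1, 0], ![0, 1], by simp, ?_⟩
    rw [h, Finset.sum_empty]
    refine add_nonneg (hnn _ ?_) (hnn _ ?_)
    · intro h0
      simpa using congrFun h0 0
    · intro h0
      simpa using congrFun h0 1
  · obtain ⟨i, hi⟩ := Finset.card_eq_one.mp h
    obtain ⟨β, hβ⟩ := exists_other (hD0 i)
    refine ⟨D i, β, hβ, ?_⟩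
    rw [hi, Finset.sum_singleton]
    have hβ0 : β ≠ 0 := by
      rintro rfl
      simp at hβ
    linarith [hnn β hβ0]
  · obtain ⟨i, j, hij, hi⟩ := Finset.card_eq_two.mp h
    refine ⟨D i, D j, hD i j hij, ?_⟩
    rw [hi, Finset.sum_pair hij]

/-- for one valuation: one tangent carries the whole sum if the discriminant has value `> 0` -/
theorem local2 {w : MvPolynomial (Fin 3) k → ℝ} (hw : GV (fun s => s = 0) w) {q : ℕ}
    (D : Fin q → Fin 2 → k) (hD : ∀ i j, i ≠ j → D i 0 * D j 1 ≠ D i 1 * D j 0)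
    (hD0 : ∀ i, D i ≠ 0) (h0 : w Dis ≠ 0) :
    ∃ α : Fin 2 → k, α ≠ 0 ∧ ∑ i, w (Tan (D i)) ≤ w (Tan α) := by
  classical
  have hnn : ∀ α : Fin 2 → k, α ≠ 0 → 0 ≤ w (Tan α) := fun α hα =>
    hw.nonneg _ 1 (Tan_hom α) (Tan_ne hα)
  by_cases hex : ∃ i, w (Tan (D i)) ≠ 0
  · obtain ⟨i, hi⟩ := hex
    refine ⟨D i, hD0 i, ?_⟩
    rw [Finset.sum_eq_single i]
    · intro j _ hji
      rcases two_tangents ZI_zero hw (D i) (D j) (hD i j hji.symm)
        (Tan_ne (hD0 i)) (Tan_ne (hD0 j)) Dis_ne with h | h | h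
      · exact absurd h h0
      · exact absurd h hi
      · exact h
    · intro h
      exact absurd (Finset.mem_univ i) h
  · push Not at hex
    have h1 : (![1, 0] : Fin 2 → k) ≠ 0 := by
      intro h0
      simpa using congrFun h0 0
    refine ⟨![1, 0], h1, ?_⟩
    rw [Finset.sum_eq_zero fun i _ => hex i]
    exact hnn _ h1

/-- for one valuation: a basis of the forms of degree `2N` of large value -/
theorem local_basis {w : MvPolynomial (Fin 3) k → ℝ} (hw : GV (fun s => s = 0) w) {q : ℕ}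
    (D : Fin q → Fin 2 → k) (hD : ∀ i j, i ≠ j → D i 0 * D j 1 ≠ D i 1 * D j 0)
    (hD0 : ∀ i, D i ≠ 0) (N : ℕ) :
    ∃ s : Fin (Nat.choose (2 * N + 2) 2) → MvPolynomial (Fin 3) k,
      (∀ i, (s i).IsHomogeneous (2 * N)) ∧ LinearIndependent k s ∧
      ((2 * N : ℕ) : ℝ) ^ 3 / 6 * (∑ i, w (Tan (D i)) + w Dis / 2) ≤ ∑ i, w (s i) := by
  have hc : (0 : ℝ) ≤ ((2 * N : ℕ) : ℝ) ^ 3 / 6 := by positivity
  by_cases h0 : w Dis = 0
  · obtain ⟨α, β, hαβ, hle⟩ := local1 hw D hD hD0
    obtain ⟨s, h1, h2, h3⟩ := plane_basis1 hw α β hαβ (2 * N)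
    refine ⟨s, h1, h2, le_trans (mul_le_mul_of_nonneg_left ?_ hc) h3⟩
    rw [h0]
    linarith
  · obtain ⟨α, hα, hle⟩ := local2 hw D hD hD0 h0
    obtain ⟨s, h1, h2, h3⟩ := plane_basis2 hw α hα N
    refine ⟨s, h1, h2, le_trans (mul_le_mul_of_nonneg_left ?_ hc) h3⟩
    linarith

/-- the limit `N → ∞` -/
theorem limit_le {S : ℝ} (h : ∀ N : ℕ, ((2 * N : ℕ) : ℝ) ^ 3 / 6 * S ≤
    (Nat.choose (2 * N + 2) 2 : ℕ) * ((2 * N : ℕ) : ℝ)) : S ≤ 3 := by
  by_contra hS
  push Not at hS
  obtain ⟨N, hN⟩ := exists_nat_gt (6 / (S - 3) + 1)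
  have hpos : 0 < S - 3 := by linarith
  have h6 : 0 < 6 / (S - 3) := by positivity
  have hN1 : (1 : ℝ) < N := by linarith
  have hch : ((Nat.choose (2 * N + 2) 2 : ℕ) : ℝ) = (N + 1) * (2 * N + 1) := by
    rw [Nat.cast_choose_two]
    push_cast
    ring
  have h1 := h N
  rw [hch] at h1
  push_cast at h1
  have h2 : (N : ℝ) * (S - 3) > 6 := by
    have : 6 / (S - 3) < N := by linarith
    rwa [div_lt_iff₀ hpos] at this
  have h3 : (4 / 3 : ℝ) * (N : ℝ) ^ 2 * S ≤ 2 * ((N + 1) * (2 * N + 1)) := by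
    have hNpos : (0 : ℝ) < N := by linarith
    have h4 : (N : ℝ) * ((4 / 3 : ℝ) * (N : ℝ) ^ 2 * S) ≤ N * (2 * ((N + 1) * (2 * N + 1))) := by
      nlinarith [h1]
    exact le_of_mul_le_mul_left h4 hNpos
  nlinarith [mul_pos hpos (show (0 : ℝ) < N by linarith)]

end main

end PL3

/-- PL3. The Zariski dense case. -/
theorem plane_main {k : Type*} [Field k] [CharZero k] {τ : Type*} [Fintype τ]
    (w : τ → MvPolynomial (Fin 3) k → ℝ)
    (hw : ∀ t, GV (fun s => s = 0) (w t)) (hLI : LI (fun s => s = 0) w)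
    (hSU : SU (fun s => s = 0) w) {q : ℕ} (D : Fin q → Fin 2 → k)
    (hD : ∀ i j, i ≠ j → D i 0 * D j 1 ≠ D i 1 * D j 0) (hD0 : ∀ i, D i ≠ 0) :
    ∑ t, (w t Dis + ∑ i, w t (Tan (D i))) ≤ 4 := by
  have hA : ∑ t, w t Dis ≤ 2 := by
    have := hLI Dis 2 PL3.Dis_hom PL3.Dis_ne
    exact_mod_cast this
  have hS : ∑ t, (∑ i, w t (Tan (D i)) + w t Dis / 2) ≤ 3 := by
    apply PL3.limit_le
    intro N
    choose s hs1 hs2 hs3 using fun t => PL3.local_basis (hw t) D hD hD0 N
    have key := hSU (2 * N) (Nat.choose (2 * N + 2) 2) s hs1 ?_ ?_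
    · refine le_trans ?_ key
      rw [Finset.mul_sum]
      exact Finset.sum_le_sum fun t _ => hs3 t
    · intro t a ha h0
      apply ha
      have hli := hs2 t
      rw [Fintype.linearIndependent_iff] at hli
      funext i
      refine hli a ?_ i
      rw [← h0]
      exact Finset.sum_congr rfl fun i _ => smul_eq_C_mul _ _
    · intro t t' i
      exact PL3.span_fam (2 * N) (s t i) (s t') (hs1 t i) (hs1 t') (hs2 t')
  have h1 : ∑ t, (w t Dis + ∑ i, w t (Tan (D i))) =
      ∑ t, (∑ i, w t (Tan (D i)) + w t Dis / 2) + (∑ t, w t Dis) / 2 := by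
    rw [Finset.sum_div, ← Finset.sum_add_distrib]
    refine Finset.sum_congr rfl fun t _ => ?_
    ring
  rw [h1]
  linarith

end Pool.Agent.V2
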