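import Pool.Agent.Helper21.V2.AR1
import Pool.Agent.Helper21.V2.AR4
import Pool.Agent.Helper21.V2.AR5
import Pool.Agent.Helper21.V2.AR6
import Pool.Agent.Helper21.V2.PL3
import Pool.Agent.Helper21.V2.CU10

/-!
# Block AR7: the theorem for forms
-/

namespace Pool.Agent.V2

open MvPolynomial


section limit

open NumberField Filter
open Pool.Agent.Helper64.Vojta (Pl nv)


section congrZ

variable {k : Type*} [Field k] {Z Z' : MvPolynomial (Fin 3) k → Prop}

theorem ar7_hom_sum {N m : ℕ} (s : Fin m → MvPolynomial (Fin 3) k)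
    (hs : ∀ i, (s i).IsHomogeneous N) (a : Fin m → k) :
    (∑ i, C (a i) * s i).IsHomogeneous N := by
  refine IsHomogeneous.sum _ _ _ fun i _ => ?_
  have := (isHomogeneous_C (Fin 3) (a i)).mul (hs i)
  rwa [zero_add] at this

theorem GV.congrZ (h : ∀ s N, MvPolynomial.IsHomogeneous s N → (Z s ↔ Z' s))
    {w : MvPolynomial (Fin 3) k → ℝ} (hw : GV Z w) : GV Z' w where
  nonneg s N hs hZ := hw.nonneg s N hs (fun h' => hZ ((h s N hs).1 h'))
  mul s t M N hs ht hZs hZt := hw.mul s t M N hs ht (fun h' => hZs ((h s M hs).1 h'))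
    (fun h' => hZt ((h t N ht).1 h'))
  add s t N hs ht hZs hZt hst := hw.add s t N hs ht (fun h' => hZs ((h s N hs).1 h'))
    (fun h' => hZt ((h t N ht).1 h')) (fun h' => hst ((h (s + t) N (hs.add ht)).1 h'))
  congr s t N hs ht hZs hZt := hw.congr s t N hs ht (fun h' => hZs ((h s N hs).1 h'))
    ((h t N ht).2 hZt)
  const := hw.const
  unit := by
    obtain ⟨i, hi, h0⟩ := hw.unit
    exact ⟨i, fun h' => hi ((h (X i) 1 (isHomogeneous_X k i)).2 h'), h0⟩

theorem LI.congrZ (h : ∀ s N, MvPolynomial.IsHomogeneous s N → (Z s ↔ Z' s)) {τ : Type*}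
    [Fintype τ] {w : τ → MvPolynomial (Fin 3) k → ℝ} (hw : LI Z w) : LI Z' w :=
  fun s N hs hZ => hw s N hs (fun h' => hZ ((h s N hs).1 h'))

theorem SU.congrZ (h : ∀ s N, MvPolynomial.IsHomogeneous s N → (Z s ↔ Z' s)) {τ : Type*}
    [Fintype τ] {w : τ → MvPolynomial (Fin 3) k → ℝ} (hw : SU Z w) : SU Z' w := by
  intro N m s hs h1 h2
  refine hw N m s hs (fun t a ha h' => h1 t a ha ?_) (fun t t' i => ?_)
  · exact (h _ N (ar7_hom_sum (s t) (hs t) a)).1 h'
  · obtain ⟨a, ha⟩ := h2 t t' i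
    exact ⟨a, (h _ N ((hs t i).sub (ar7_hom_sum (s t') (hs t') a))).2 ha⟩

end congrZ

variable {k : Type*} [Field k] [NumberField k]

omit [NumberField k] in
theorem ar7_hom_Dis : (Dis : MvPolynomial (Fin 3) k).IsHomogeneous 2 := by
  unfold Dis
  refine IsHomogeneous.sub ?_ ?_
  · exact (isHomogeneous_X k 1).pow 2
  · have := ((isHomogeneous_C (Fin 3) (4 : k)).mul (isHomogeneous_X k 0)).mul (isHomogeneous_X k 2)
    exact this

omit [NumberField k] in
theorem ar7_hom_Tan (α : Fin 2 → k) : (Tan α : MvPolynomial (Fin 3) k).IsHomogeneous 1 := by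
  unfold Tan
  have h : ∀ (a : k) (i : Fin 3), (C a * X i : MvPolynomial (Fin 3) k).IsHomogeneous 1 := by
    intro a i
    exact (isHomogeneous_C (Fin 3) a).mul (isHomogeneous_X k i)
  exact ((h _ _).add (h _ _)).add (h _ _)

/-- AR7. The theorem for forms, D split over `k`. -/
theorem forms_main (T : Finset (Pl k)) {q : ℕ} (D : Fin q → Fin 2 → k)
    (hD : ∀ i j, i ≠ j → D i 0 * D j 1 ≠ D i 1 * D j 0) (hD0 : ∀ i, D i ≠ 0)
    (ε : ℝ) (hε : 0 < ε) :
    ∃ C : ℝ, ∀ x : Fin 3 → k, eval x (Dis : MvPolynomial (Fin 3) k) ≠ 0 →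
      (∀ i, eval x (Tan (D i)) ≠ 0) →
      ∑ v ∈ T, (wf v 2 Dis x + ∑ i, wf v 1 (Tan (D i)) x) ≤ (4 + ε) * vH x + C := by
  by_contra hcon
  push Not at hcon
  choose F hFD hFT hFs using fun n : ℕ => hcon n
  have hF : ∀ n, F n ≠ 0 := by
    intro n h
    apply hFD n
    rw [h]
    have h1 : eval (0 : Fin 3 → k) (Dis : MvPolynomial (Fin 3) k) = 0 := by
      simp [Dis]
    exact h1
  -- the height tends to infinity
  obtain ⟨C1, hC1⟩ := wf_bounds (Dis : MvPolynomial (Fin 3) k) 2 ar7_hom_Dis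
  choose C2 hC2 using fun i => wf_bounds (Tan (D i)) 1 (ar7_hom_Tan (D i))
  have hup : ∀ n, (4 + ε) * vH (F n) + n < (2 + q) * vH (F n) + (C1 + ∑ i, C2 i) := by
    intro n
    have h1 := (hC1 (F n) (hFD n)).2 T
    have h2 := fun i => (hC2 i (F n) (hFT n i)).2 T
    have h3 : ∑ v ∈ T, (wf v 2 Dis (F n) + ∑ i, wf v 1 (Tan (D i)) (F n)) =
        ∑ v ∈ T, wf v 2 Dis (F n) + ∑ i, ∑ v ∈ T, wf v 1 (Tan (D i)) (F n) := by
      rw [Finset.sum_add_distrib, Finset.sum_comm]
    have h4 : ∑ i, ∑ v ∈ T, wf v 1 (Tan (D i)) (F n) ≤ ∑ i, (1 * vH (F n) + C2 i) :=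
      Finset.sum_le_sum fun i _ => by
        have := h2 i
        push_cast at this
        exact this
    rw [Finset.sum_add_distrib, Finset.sum_const, Finset.card_univ, Fintype.card_fin,
      nsmul_eq_mul] at h4
    have h5 := hFs n
    rw [h3] at h5
    push_cast at h1
    linarith
  set A : ℝ := |q - 2 - ε| + 1 with hA
  have hApos : 0 < A := by positivity
  have hlow : ∀ n : ℕ, (n - (C1 + ∑ i, C2 i)) / A ≤ vH (F n) := by
    intro n
    have h1 := hup n
    have h2 := vH_nonneg (hF n)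
    have h3 : (q - 2 - ε) * vH (F n) ≤ A * vH (F n) := by
      apply mul_le_mul_of_nonneg_right _ h2
      have := le_abs_self ((q : ℝ) - 2 - ε)
      linarith
    rw [div_le_iff₀ hApos]
    linarith
  have htop : Tendsto (fun n => vH (F n)) atTop atTop := by
    refine tendsto_atTop_mono hlow ?_
    exact (tendsto_atTop_add_const_right _ _ tendsto_natCast_atTop_atTop).atTop_div_const hApos
  let U : Ultrafilter ℕ := hyperfilter ℕ
  have hU : (U : Filter ℕ) ≤ atTop := by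
    rw [← Nat.cofinite_eq_atTop]
    exact hyperfilter_le_cofinite
  have hH : Tendsto (fun n => vH (F n)) (U : Filter ℕ) atTop := htop.mono_left hU
  have hnD : ¬ Null U F Dis := by
    intro h
    obtain ⟨n, hn⟩ := h.exists
    exact hFD n hn
  have hnT : ∀ i, ¬ Null U F (Tan (D i)) := by
    intro i h
    obtain ⟨n, hn⟩ := h.exists
    exact hFT n i hn
  -- the limit inequality
  have hmain : ∑ v : T, (lw U F v Dis + ∑ i, lw U F v (Tan (D i))) ≤ 4 := by
    rcases null_cases U F hF hH with hZ | ⟨f, δ, hf, hδ, h1, hZ⟩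
    · exact plane_main (fun v : T => lw U F v) (fun v => (GV_lw U F hF hH v).congrZ hZ)
        ((LI_lw U F hF hH T).congrZ hZ) ((SU_lw U F hF hH T).congrZ hZ) D hD hD0
    · exact curve_main hf hδ h1 (fun v : T => lw U F v) (fun v => (GV_lw U F hF hH v).congrZ hZ)
        ((LI_lw U F hF hH T).congrZ hZ) ((SU_lw U F hF hH T).congrZ hZ)
        (fun h => hnD ((hZ _ 2 ar7_hom_Dis).2 h)) D hD
        (fun i h => hnT i ((hZ _ 1 (ar7_hom_Tan _)).2 h))
  -- the limit of the sums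
  have hlim : Tendsto (fun n => ∑ v ∈ T, (wf v 2 Dis (F n) / vH (F n) +
      ∑ i, wf v 1 (Tan (D i)) (F n) / vH (F n))) (U : Filter ℕ)
      (nhds (∑ v ∈ T, (lw U F v Dis + ∑ i, lw U F v (Tan (D i))))) := by
    refine tendsto_finsetSum _ fun v _ => Tendsto.add ?_ (tendsto_finsetSum _ fun i _ => ?_)
    · exact lw_tendsto U F hF hH v _ 2 ar7_hom_Dis hnD
    · exact lw_tendsto U F hF hH v _ 1 (ar7_hom_Tan _) (hnT i)
  have hge : ∀ᶠ n in (U : Filter ℕ), 4 + ε ≤ ∑ v ∈ T, (wf v 2 Dis (F n) / vH (F n) +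
      ∑ i, wf v 1 (Tan (D i)) (F n) / vH (F n)) := by
    filter_upwards [hH.eventually_gt_atTop 0] with n hn
    have e : ∑ v ∈ T, (wf v 2 Dis (F n) / vH (F n) +
        ∑ i, wf v 1 (Tan (D i)) (F n) / vH (F n)) =
        (∑ v ∈ T, (wf v 2 Dis (F n) + ∑ i, wf v 1 (Tan (D i)) (F n))) / vH (F n) := by
      rw [Finset.sum_div]
      refine Finset.sum_congr rfl fun v _ => ?_
      rw [add_div, Finset.sum_div]
    rw [e, le_div_iff₀ hn]
    have h1 := hFs n
    have h2 : (0 : ℝ) ≤ n := Nat.cast_nonneg n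
    linarith
  have h5 := ge_of_tendsto hlim hge
  have h6 : ∑ v : T, (lw U F v Dis + ∑ i, lw U F v (Tan (D i))) =
      ∑ v ∈ T, (lw U F v Dis + ∑ i, lw U F v (Tan (D i))) :=
    Finset.sum_coe_sort T (fun v => lw U F v Dis + ∑ i, lw U F v (Tan (D i)))
  rw [h6] at hmain
  linarith

end limit

end Pool.Agent.V2
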