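import Mathlib
import Pool.Agent.Helper21.V2.PL3

/-!
# The Zariski dense case with the sharp constant
-/

namespace Pool.Agent.V2

open MvPolynomial

/-- The Zariski dense case: three instead of four, with one half of the discriminant. -/
theorem plane_three {k : Type*} [Field k] [CharZero k] {τ : Type*} [Fintype τ]
    (w : τ → MvPolynomial (Fin 3) k → ℝ)
    (hw : ∀ t, GV (fun s => s = 0) (w t))
    (hSU : SU (fun s => s = 0) w) {q : ℕ} (D : Fin q → Fin 2 → k)
    (hD : ∀ i j, i ≠ j → D i 0 * D j 1 ≠ D i 1 * D j 0) (hD0 : ∀ i, D i ≠ 0) :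
    ∑ t, (∑ i, w t (Tan (D i)) + w t Dis / 2) ≤ 3 := by
  apply PL3.limit_le
  intro N
  choose s hs1 hs2 hs3 using fun t => PL3.local_basis (hw t) D hD hD0 N
  have key := hSU (2 * N) (Nat.choose (2 * N + 2) 2) s hs1 ?_ ?_
  · refine le_trans ?_ key
    rw [Finset.mul_sum]
    exact Finset.sum_le_sum fun t _ => hs3 t
  · intro t a ha h0
    apply ha
    have hli := hs2 t
    rw [Fintype.linearIndependent_iff] at hli
    funext i
    refine hli a ?_ i
    rw [← h0]
    exact Finset.sum_congr rfl fun i _ => smul_eq_C_mul _ _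
  · intro t t' i
    exact PL3.span_fam (2 * N) (s t i) (s t') (hs1 t i) (hs1 t') (hs2 t')

end Pool.Agent.V2
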