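import Mathlib
import Pool.Agent.Helper21.V2.AR7
import Pool.Agent.Helper21.V2.PL3b

/-!
# The theorem for forms outside a plane curve
-/

namespace Pool.Agent.V2

open MvPolynomial

section limit

open NumberField Filter
open Pool.Agent.Helper64.Vojta (Pl nv)

variable {k : Type*} [Field k] [NumberField k]

theorem ar8_countable : Countable (MvPolynomial (Fin 3) k) := by
  have hk : Countable k := by
    have hfd : FiniteDimensional ℚ k := inferInstance
    let b := Module.finBasis ℚ k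
    exact b.equivFun.toEquiv.injective.countable
  have h : Function.Injective (fun p : MvPolynomial (Fin 3) k =>
      (Finsupp.ofSupportFinite (fun d => p.coeff d) (p.support.finite_toSet.subset (by
        intro d hd
        simpa using hd)) : (Fin 3 →₀ ℕ) →₀ k)) := by
    intro p p' h
    ext d
    have := DFunLike.congr_fun h d
    exact this
  exact h.countable

/-- a sequence of nonzero homogeneous polynomials such that every nonzero homogeneous polynomial
divides almost all of them -/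
theorem exists_seq : ∃ P : ℕ → MvPolynomial (Fin 3) k, (∀ n, P n ≠ 0 ∧ ∃ N, (P n).IsHomogeneous N) ∧
    ∀ s N, MvPolynomial.IsHomogeneous s N → s ≠ 0 → ∃ j, ∀ n, j ≤ n → s ∣ P n := by
  classical
  have hc : Countable {s : MvPolynomial (Fin 3) k // s ≠ 0 ∧ ∃ N, s.IsHomogeneous N} := by
    have := ar8_countable (k := k)
    infer_instance
  have hne : Nonempty {s : MvPolynomial (Fin 3) k // s ≠ 0 ∧ ∃ N, s.IsHomogeneous N} :=
    ⟨⟨1, one_ne_zero, 0, isHomogeneous_one (Fin 3) k⟩⟩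
  obtain ⟨f, hf⟩ := exists_surjective_nat {s : MvPolynomial (Fin 3) k // s ≠ 0 ∧ ∃ N, s.IsHomogeneous N}
  refine ⟨fun n => ∏ j ∈ Finset.range (n + 1), (f j : MvPolynomial (Fin 3) k), fun n => ⟨?_, ?_⟩, ?_⟩
  · exact Finset.prod_ne_zero_iff.mpr fun j _ => (f j).2.1
  · choose N hN using fun j => (f j).2.2
    exact ⟨∑ j ∈ Finset.range (n + 1), N j, IsHomogeneous.prod _ _ _ fun j _ => hN j⟩
  · intro s N hs h0
    obtain ⟨j, hj⟩ := hf ⟨s, h0, N, hs⟩
    refine ⟨j, fun n hn => ?_⟩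
    have : s = (f j : MvPolynomial (Fin 3) k) := by rw [hj]
    rw [this]
    exact Finset.dvd_prod_of_mem _ (Finset.mem_range.mpr (by omega))

/-- AR8. The theorem for forms outside a plane curve, D split over `k`. -/
theorem forms_generic (T : Finset (Pl k)) {q : ℕ} (D : Fin q → Fin 2 → k)
    (hD : ∀ i j, i ≠ j → D i 0 * D j 1 ≠ D i 1 * D j 0) (hD0 : ∀ i, D i ≠ 0)
    (ε : ℝ) (hε : 0 < ε) :
    ∃ (Φ : MvPolynomial (Fin 3) k), Φ ≠ 0 ∧ (∃ N, Φ.IsHomogeneous N) ∧
    ∃ C : ℝ, ∀ x : Fin 3 → k, eval x Φ ≠ 0 → eval x (Dis : MvPolynomial (Fin 3) k) ≠ 0 →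
      (∀ i, eval x (Tan (D i)) ≠ 0) →
      ∑ v ∈ T, (wf v 2 Dis x / 2 + ∑ i, wf v 1 (Tan (D i)) x) ≤ (3 + ε) * vH x + C := by
  by_contra hcon
  push Not at hcon
  obtain ⟨P, hP1, hP2⟩ := exists_seq (k := k)
  choose F hFP hFD hFT hFs using fun n : ℕ => hcon (P n) (hP1 n).1 (hP1 n).2 n
  have hF : ∀ n, F n ≠ 0 := by
    intro n h
    apply hFD n
    rw [h]
    have h1 : eval (0 : Fin 3 → k) (Dis : MvPolynomial (Fin 3) k) = 0 := by
      simp [Dis]
    exact h1
  -- the height tends to infinity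
  obtain ⟨C1, hC1⟩ := wf_bounds (Dis : MvPolynomial (Fin 3) k) 2 ar7_hom_Dis
  choose C2 hC2 using fun i => wf_bounds (Tan (D i)) 1 (ar7_hom_Tan (D i))
  have hup : ∀ n, (3 + ε) * vH (F n) + n < (1 + q) * vH (F n) + (C1 / 2 + ∑ i, C2 i) := by
    intro n
    have h1 := (hC1 (F n) (hFD n)).2 T
    have h2 := fun i => (hC2 i (F n) (hFT n i)).2 T
    have h3 : ∑ v ∈ T, (wf v 2 Dis (F n) / 2 + ∑ i, wf v 1 (Tan (D i)) (F n)) =
        (∑ v ∈ T, wf v 2 Dis (F n)) / 2 + ∑ i, ∑ v ∈ T, wf v 1 (Tan (D i)) (F n) := by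
      rw [Finset.sum_add_distrib, Finset.sum_comm, Finset.sum_div]
    have h4 : ∑ i, ∑ v ∈ T, wf v 1 (Tan (D i)) (F n) ≤ ∑ i, (1 * vH (F n) + C2 i) :=
      Finset.sum_le_sum fun i _ => by
        have := h2 i
        push_cast at this
        exact this
    rw [Finset.sum_add_distrib, Finset.sum_const, Finset.card_univ, Fintype.card_fin,
      nsmul_eq_mul] at h4
    have h5 := hFs n
    rw [h3] at h5
    push_cast at h1
    linarith
  set A : ℝ := |q - 2 - ε| + 1 with hA
  have hApos : 0 < A := by positivity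
  have hlow : ∀ n : ℕ, (n - (C1 / 2 + ∑ i, C2 i)) / A ≤ vH (F n) := by
    intro n
    have h1 := hup n
    have h2 := vH_nonneg (hF n)
    have h3 : (q - 2 - ε) * vH (F n) ≤ A * vH (F n) := by
      apply mul_le_mul_of_nonneg_right _ h2
      have := le_abs_self ((q : ℝ) - 2 - ε)
      linarith
    rw [div_le_iff₀ hApos]
    linarith
  have htop : Tendsto (fun n => vH (F n)) atTop atTop := by
    refine tendsto_atTop_mono hlow ?_
    exact (tendsto_atTop_add_const_right _ _ tendsto_natCast_atTop_atTop).atTop_div_const hApos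
  let U : Ultrafilter ℕ := hyperfilter ℕ
  have hU : (U : Filter ℕ) ≤ atTop := by
    rw [← Nat.cofinite_eq_atTop]
    exact hyperfilter_le_cofinite
  have hH : Tendsto (fun n => vH (F n)) (U : Filter ℕ) atTop := htop.mono_left hU
  have hnD : ¬ Null U F Dis := by
    intro h
    obtain ⟨n, hn⟩ := h.exists
    exact hFD n hn
  have hnT : ∀ i, ¬ Null U F (Tan (D i)) := by
    intro i h
    obtain ⟨n, hn⟩ := h.exists
    exact hFT n i hn
  -- no nonzero homogeneous polynomial vanishes at almost all `F n`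
  have hZ : ∀ s N, MvPolynomial.IsHomogeneous s N → (Null U F s ↔ s = 0) := by
    intro s N hs
    constructor
    · intro h
      by_contra h0
      obtain ⟨j, hj⟩ := hP2 s N hs h0
      have h1 : ∀ᶠ n in (U : Filter ℕ), j ≤ n := hU (eventually_ge_atTop j)
      obtain ⟨n, hn1, hn2⟩ := (h.and h1).exists
      apply hFP n
      obtain ⟨r, hr⟩ := hj n hn2
      rw [hr, map_mul, hn1, zero_mul]
    · rintro rfl
      exact Filter.Eventually.of_forall fun n => map_zero _
  -- the limit inequality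
  have hmain : ∑ v : T, (∑ i, lw U F v (Tan (D i)) + lw U F v Dis / 2) ≤ 3 :=
    plane_three (fun v : T => lw U F v) (fun v => (GV_lw U F hF hH v).congrZ hZ)
        ((SU_lw U F hF hH T).congrZ hZ) D hD hD0
  -- the limit of the sums
  have hlim : Tendsto (fun n => ∑ v ∈ T, (wf v 2 Dis (F n) / vH (F n) / 2 +
      ∑ i, wf v 1 (Tan (D i)) (F n) / vH (F n))) (U : Filter ℕ)
      (nhds (∑ v ∈ T, (lw U F v Dis / 2 + ∑ i, lw U F v (Tan (D i))))) := by
    refine tendsto_finsetSum _ fun v _ => Tendsto.add ?_ (tendsto_finsetSum _ fun i _ => ?_)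
    · exact (lw_tendsto U F hF hH v _ 2 ar7_hom_Dis hnD).div_const 2
    · exact lw_tendsto U F hF hH v _ 1 (ar7_hom_Tan _) (hnT i)
  have hge : ∀ᶠ n in (U : Filter ℕ), 3 + ε ≤ ∑ v ∈ T, (wf v 2 Dis (F n) / vH (F n) / 2 +
      ∑ i, wf v 1 (Tan (D i)) (F n) / vH (F n)) := by
    filter_upwards [hH.eventually_gt_atTop 0] with n hn
    have e : ∑ v ∈ T, (wf v 2 Dis (F n) / vH (F n) / 2 +
        ∑ i, wf v 1 (Tan (D i)) (F n) / vH (F n)) =
        (∑ v ∈ T, (wf v 2 Dis (F n) / 2 + ∑ i, wf v 1 (Tan (D i)) (F n))) / vH (F n) := by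
      rw [Finset.sum_div]
      refine Finset.sum_congr rfl fun v _ => ?_
      rw [add_div, Finset.sum_div, div_right_comm]
    rw [e, le_div_iff₀ hn]
    have h1 := hFs n
    have h2 : (0 : ℝ) ≤ n := Nat.cast_nonneg n
    linarith
  have h5 := ge_of_tendsto hlim hge
  have h6 : ∑ v : T, (∑ i, lw U F v (Tan (D i)) + lw U F v Dis / 2) =
      ∑ v ∈ T, (lw U F v Dis / 2 + ∑ i, lw U F v (Tan (D i))) := by
    rw [← Finset.sum_coe_sort T (fun v => lw U F v Dis / 2 + ∑ i, lw U F v (Tan (D i)))]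
    exact Finset.sum_congr rfl fun v _ => add_comm _ _
  rw [h6] at hmain
  linarith

end limit

end Pool.Agent.V2
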