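import Mathlib
import Pool.Agent.Helper21.V2.Defs2

/-!
# The binary quadratic form of a quadratic element
-/

namespace Pool.Agent.V2

open NumberField Polynomial
open Pool.Agent.Helper64.Vojta (Pl nv)

section fin

/-- Coefficients of the minimal polynomial `X² + b X + c` of a quadratic element. -/
noncomputable def qf (k : Type*) [Field k] {L : Type*} [Field L] [Algebra k L] (y : L) : Fin 3 → k :=
  ![1, (minpoly k y).coeff 1, (minpoly k y).coeff 0]

variable {k : Type*} [Field k] [NumberField k]

/-- Local contribution of the discriminant of the form with coefficients `F`: for a finite place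
`v` this is `ord_v (disc F₀) log N v` for a `v`-primitive multiple `F₀` of `F`. -/
noncomputable def ldisc (v : Pl k) (F : Fin 3 → k) : ℝ :=
  2 * Real.log (vn v F) - Real.log (nv v (F 1 ^ 2 - 4 * F 0 * F 2))

end fin

end Pool.Agent.V2
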