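import Mathlib
import Pool.Agent.Helper52.Vojta.BaseChange
import Pool.Agent.Helper52.Vojta.NormLocal
import Pool.Agent.Helper52.Vojta.NormEval
import Pool.Agent.Helper21.V2.FinDefs
import Pool.Agent.Helper21.V2.BB

/-!
# Local heights of a quadratic element and of its minimal form (block FA, helper67)
-/

namespace Pool.Agent.V2

open NumberField Finset Polynomial
open Pool.Agent.Helper64.Vojta (Pl nv sn above mem_above nv_pos nv_nonneg nv_mul nv_one sn_pos le_sn
  sn_le nv_sum_le_inr mult_le_two above_unique)
open Pool.Agent.Helper52.Vojta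

section fin

set_option linter.unusedSectionVars false
set_option linter.unusedVariables false

variable {k : Type*} [Field k] [NumberField k] {L : Type*} [Field L] [NumberField L] [Algebra k L]

namespace FA

theorem ldeg_pos {v : Pl k} {w : Pl L} (h : w ∈ above L v) : 0 < ldeg v w := by
  rw [mem_above] at h
  rcases v with v | v <;> rcases w with w | w
  · have h' : InfinitePlace.LiesOver w v := h
    change 0 < v.inertiaDeg w
    have h1 := InfinitePlace.mult_mul_finrank v w
    rw [← InfinitePlace.inertiaDeg_eq_finrank] at h1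
    rcases Nat.eq_zero_or_pos (v.inertiaDeg w) with h2 | h2
    · rw [h2, mul_zero] at h1
      exact absurd h1.symm w.mult_ne_zero
    · exact h2
  · exact absurd h id
  · exact absurd h id
  · have h' : w.maximalIdeal.asIdeal.LiesOver v.maximalIdeal.asIdeal := h
    have hm : v.maximalIdeal.asIdeal.IsMaximal := v.maximalIdeal.isMaximal
    have hp : w.maximalIdeal.asIdeal.IsPrime := w.maximalIdeal.isPrime
    change 0 < v.maximalIdeal.asIdeal.ramificationIdx' w.maximalIdeal.asIdeal *
      v.maximalIdeal.asIdeal.inertiaDeg' w.maximalIdeal.asIdeal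
    refine Nat.mul_pos (Nat.pos_of_ne_zero ?_) (Nat.pos_of_ne_zero ?_)
    · exact Ideal.IsDedekindDomain.ramificationIdx'_ne_zero_of_liesOver _ v.maximalIdeal.ne_bot
    · exact Ideal.inertiaDeg'_ne_zero _ _

theorem exists_pb (hL : Module.finrank k L = 2) (y : L) (hy : (minpoly k y).natDegree = 2) :
    ∃ pb : PowerBasis k L, pb.gen = y ∧ pb.dim = 2 := by
  have hfd : FiniteDimensional k L := FiniteDimensional.right ℚ k L
  have hint : IsIntegral k y := IsIntegral.of_finite k y
  have h1 : IntermediateField.adjoin k {y} = ⊤ :=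
    (Field.primitive_element_iff_minpoly_natDegree_eq k y).2 (hy.trans hL.symm)
  have h2 : Algebra.adjoin k {y} = ⊤ := by
    rw [← IntermediateField.adjoin_simple_toSubalgebra_of_isAlgebraic hint.isAlgebraic, h1,
      IntermediateField.top_toSubalgebra]
  refine ⟨PowerBasis.ofAdjoinEqTop' hint h2, PowerBasis.ofAdjoinEqTop'_gen hint h2, ?_⟩
  rw [PowerBasis.ofAdjoinEqTop'_dim, hy]

/-- the conjugate -/
noncomputable def cj (k : Type*) [Field k] {L : Type*} [Field L] [Algebra k L] (y : L) : L :=
  -algebraMap k L ((minpoly k y).coeff 1) - y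

theorem minpoly_eq (y : L) (hy : (minpoly k y).natDegree = 2) :
    minpoly k y = X ^ 2 + C ((minpoly k y).coeff 1) * X + C ((minpoly k y).coeff 0) := by
  have hfd : FiniteDimensional k L := FiniteDimensional.right ℚ k L
  have hm : (minpoly k y).Monic := minpoly.monic (IsIntegral.of_finite k y)
  have h := hm.as_sum
  rw [hy, Finset.sum_range_succ, Finset.sum_range_one] at h
  conv_lhs => rw [h]
  rw [pow_one, pow_zero, mul_one]
  ring

theorem add_cj (y : L) : y + cj k y = -algebraMap k L ((minpoly k y).coeff 1) := by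
  unfold cj; ring

theorem mul_cj (y : L) (hy : (minpoly k y).natDegree = 2) :
    y * cj k y = algebraMap k L ((minpoly k y).coeff 0) := by
  have h := minpoly.aeval k y
  rw [minpoly_eq y hy] at h
  simp only [map_add, map_mul, map_pow, aeval_X, aeval_C] at h
  unfold cj
  linear_combination -h

theorem norm_y (hL : Module.finrank k L = 2) (y : L) (hy : (minpoly k y).natDegree = 2) :
    Algebra.norm k y = (minpoly k y).coeff 0 := by
  obtain ⟨pb, h1, h2⟩ := exists_pb hL y hy
  have h := norm_aeval (K := k) pb (X : k[X]) (n := 1) (fun _ => 0) (by simp)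
  rw [h1, h2] at h
  simp only [aeval_X, Algebra.algebraMap_self, RingHom.id_apply, leadingCoeff_X, one_pow,
    Fin.prod_univ_one, one_mul, Polynomial.map_id] at h
  have e2 : eval 0 (minpoly k y) = (minpoly k y).coeff 0 := (coeff_zero_eq_eval_zero _).symm
  rw [h, e2]
  ring

theorem norm_cj (hL : Module.finrank k L = 2) (y : L) (hy : (minpoly k y).natDegree = 2) :
    Algebra.norm k (cj k y) = (minpoly k y).coeff 0 := by
  obtain ⟨pb, h1, h2⟩ := exists_pb hL y hy
  set b := (minpoly k y).coeff 1 with hb
  have hg : (C (-1) * (X - C (-b)) : k[X]).leadingCoeff = -1 := by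
    rw [leadingCoeff_mul, leadingCoeff_C, leadingCoeff_X_sub_C, mul_one]
  have h := norm_aeval (K := k) pb (C (-1) * (X - C (-b)) : k[X]) (n := 1) (fun _ => -b)
    (by rw [hg]; simp)
  rw [h1, h2, hg] at h
  have e1 : aeval y (C (-1) * (X - C (-b)) : k[X]) = cj k y := by
    simp only [map_mul, map_sub, aeval_C, aeval_X, map_neg, map_one]
    unfold cj
    rw [← hb]
    ring
  rw [e1] at h
  simp only [Algebra.algebraMap_self, RingHom.id_apply, Fin.prod_univ_one, Polynomial.map_id] at h
  have e2 : eval (-b) (minpoly k y) = (minpoly k y).coeff 0 := by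
    conv_lhs => rw [minpoly_eq y hy, ← hb]
    simp only [eval_add, eval_mul, eval_pow, eval_X, eval_C]
    ring
  rw [h, e2]
  ring

theorem y_ne (y : L) (hy : (minpoly k y).natDegree = 2) : y ≠ 0 := by
  intro h
  rw [h, minpoly.zero, natDegree_X] at hy
  omega

theorem card_le (hL : Module.finrank k L = 2) (v : Pl k) : (above L v).card ≤ 2 := by
  rw [← hL, ← sum_ldeg (L' := L) v, Finset.card_eq_sum_ones]
  exact Finset.sum_le_sum fun w hw => ldeg_pos hw

/-- symmetry of the local sums -/
theorem sum_conj (hL : Module.finrank k L = 2) (y : L) (hy : (minpoly k y).natDegree = 2)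
    (v : Pl k) (f : ℝ → ℝ) :
    ∑ w ∈ above L v, f (nv w (cj k y)) = ∑ w ∈ above L v, f (nv w y) := by
  classical
  have hN := nv_norm v y
  have hN' := nv_norm v (cj k y)
  rw [norm_y hL y hy] at hN
  rw [norm_cj hL y hy] at hN'
  have hsum := sum_ldeg (L' := L) v
  rw [hL] at hsum
  have hcard := card_le hL v
  have hpos : 0 < (above L v).card := by
    rw [Finset.card_pos]
    by_contra h
    rw [Finset.not_nonempty_iff_eq_empty] at h
    rw [h, Finset.sum_empty] at hsum
    omega
  have hc : (above L v).card = 1 ∨ (above L v).card = 2 := by omega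
  rcases hc with hc | hc
  · obtain ⟨w, hw⟩ := Finset.card_eq_one.1 hc
    rw [hw, Finset.prod_singleton] at hN hN'
    rw [hw, Finset.sum_singleton, Finset.sum_singleton, ← hN, ← hN']
  · obtain ⟨w1, w2, hne, hw⟩ := Finset.card_eq_two.1 hc
    have m1 : w1 ∈ above L v := by rw [hw]; simp
    have m2 : w2 ∈ above L v := by rw [hw]; simp
    have p1 := ldeg_pos m1
    have p2 := ldeg_pos m2
    rw [hw, Finset.sum_pair hne] at hsum
    rw [hw, Finset.prod_pair hne] at hN hN'
    have e1 : ldeg v w1 = 1 := by omega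
    have e2 : ldeg v w2 = 1 := by omega
    have y0 := y_ne y hy
    have q1 := nv_above m1 ((minpoly k y).coeff 0)
    have q2 := nv_above m2 ((minpoly k y).coeff 0)
    rw [e1, pow_one, ← mul_cj y hy, nv_mul, hN] at q1
    rw [e2, pow_one, ← mul_cj y hy, nv_mul, hN] at q2
    have r1 : nv w1 (cj k y) = nv w2 y := mul_left_cancel₀ (nv_pos w1 y0).ne' q1
    have r2 : nv w2 (cj k y) = nv w1 y := by
      rw [mul_comm (nv w1 y)] at q2
      exact mul_left_cancel₀ (nv_pos w2 y0).ne' q2
    rw [hw, Finset.sum_pair hne, Finset.sum_pair hne, r1, r2, add_comm]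

theorem sn_two (w : Pl L) (y : L) : sn w ![y, 1] = max (nv w y) 1 := by
  apply le_antisymm
  · refine sn_le w _ _ (le_max_of_le_right zero_le_one) fun i => ?_
    fin_cases i
    · exact le_max_left _ _
    · change nv w 1 ≤ _
      rw [nv_one]
      exact le_max_right _ _
  · refine max_le (le_sn w ![y, 1] 0) ?_
    have := le_sn w ![y, 1] 1
    change nv w 1 ≤ _ at this
    rwa [nv_one] at this

theorem sn_qf (v : Pl k) (y : L) : sn v (qf k y) = vn v (qf k y) := rfl

theorem sn_qf_map {v : Pl k} {w : Pl L} (h : w ∈ above L v) (y : L) :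
    sn w (fun i => algebraMap k L (qf k y i)) = vn v (qf k y) ^ ldeg v w := by
  rw [sn_above (by norm_num) h, sn_qf]

theorem sn_three (w : Pl L) (y : L) :
    sn w (fun i => algebraMap k L (qf k y i)) =
      max (max 1 (nv w (algebraMap k L ((minpoly k y).coeff 1))))
        (nv w (algebraMap k L ((minpoly k y).coeff 0))) := by
  have h0 : nv w (algebraMap k L (qf k y 0)) = 1 := by
    change nv w (algebraMap k L 1) = 1
    rw [map_one, nv_one]
  apply le_antisymm
  · refine sn_le w _ _ (le_max_of_le_left (le_max_of_le_left zero_le_one)) fun i => ?_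
    fin_cases i
    · change nv w (algebraMap k L (qf k y 0)) ≤ _
      rw [h0]
      exact le_max_of_le_left (le_max_left _ _)
    · exact le_max_of_le_left (le_max_right _ _)
    · exact le_max_right _ _
  · refine max_le (max_le ?_ ?_) ?_
    · rw [← h0]
      exact le_sn w (fun i => algebraMap k L (qf k y i)) 0
    · exact le_sn w (fun i => algebraMap k L (qf k y i)) 1
    · exact le_sn w (fun i => algebraMap k L (qf k y i)) 2

theorem nv_neg (w : Pl L) (x : L) : nv w (-x) = nv w x := by
  rcases w with w | w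
  · change w.1 (-x) ^ w.mult = w.1 x ^ w.mult
    rw [w.1.map_neg]
  · simp [nv]

theorem nv_add_fin (w : FinitePlace L) (x z : L) :
    nv (.inr w) (x + z) ≤ max (nv (.inr w) x) (nv (.inr w) z) := FinitePlace.add_le w x z

theorem nv_add_inf (w : InfinitePlace L) (x z : L) :
    nv (.inl w) (x + z) ≤ 4 * max (nv (.inl w) x) (nv (.inl w) z) := by
  have h := nv_sum_inl w (Finset.univ : Finset (Fin 2)) ![x, z]
    (B := max (nv (.inl w) x) (nv (.inl w) z)) (le_max_of_le_left (nv_nonneg _ _)) (by
      intro i _
      fin_cases i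
      · exact le_max_left _ _
      · exact le_max_right _ _)
  rw [Fin.sum_univ_two] at h
  refine h.trans ?_
  refine mul_le_mul_of_nonneg_right ?_ (le_max_of_le_left (nv_nonneg _ _))
  rw [Finset.card_univ, Fintype.card_fin]
  have := mult_le_two w
  calc ((2 : ℕ) : ℝ) ^ w.mult ≤ ((2 : ℕ) : ℝ) ^ 2 := pow_le_pow_right₀ (by norm_num) this
    _ = 4 := by norm_num

/-- abstract Gauss lemma with a constant `T` -/
theorem gauss {A A' B D T : ℝ} (hT : 1 ≤ T) (hA : 0 ≤ A) (hA' : 0 ≤ A') (hD : D = A * A')
    (hB : B ≤ T * max A A') (hAB : A ≤ T * max B A') (hAB' : A' ≤ T * max B A) :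
    max A 1 * max A' 1 ≤ T * max (max 1 B) D ∧ max (max 1 B) D ≤ T * (max A 1 * max A' 1) := by
  have hT0 : 0 ≤ T := zero_le_one.trans hT
  have hQ1 : 1 ≤ max (max 1 B) D := le_max_of_le_left (le_max_left _ _)
  have hQB : B ≤ max (max 1 B) D := le_max_of_le_left (le_max_right _ _)
  have hQD : D ≤ max (max 1 B) D := le_max_right _ _
  have hP1 : 1 ≤ max A 1 := le_max_right _ _
  have hP1' : 1 ≤ max A' 1 := le_max_right _ _
  have hP : 1 ≤ max A 1 * max A' 1 := one_le_mul_of_one_le_of_one_le hP1 hP1'
  have hTQ : max (max 1 B) D ≤ T * max (max 1 B) D := le_mul_of_one_le_left (zero_le_one.trans hQ1) hT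
  have hTP : max A 1 * max A' 1 ≤ T * (max A 1 * max A' 1) :=
    le_mul_of_one_le_left (zero_le_one.trans hP) hT
  constructor
  · rcases le_total A 1 with h | h <;> rcases le_total A' 1 with h' | h'
    · rw [max_eq_right h, max_eq_right h', one_mul]
      exact hQ1.trans hTQ
    · rw [max_eq_right h, max_eq_left h', one_mul]
      refine hAB'.trans (mul_le_mul_of_nonneg_left ?_ hT0)
      exact max_le hQB (h.trans hQ1)
    · rw [max_eq_left h, max_eq_right h', mul_one]
      refine hAB.trans (mul_le_mul_of_nonneg_left ?_ hT0)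
      exact max_le hQB (h'.trans hQ1)
    · rw [max_eq_left h, max_eq_left h', ← hD]
      exact hQD.trans hTQ
  · refine max_le (max_le (hP.trans hTP) ?_) ?_
    · refine hB.trans (mul_le_mul_of_nonneg_left ?_ hT0)
      refine max_le ?_ ?_
      · calc A ≤ max A 1 := le_max_left _ _
          _ = max A 1 * 1 := (mul_one _).symm
          _ ≤ _ := mul_le_mul_of_nonneg_left hP1' (zero_le_one.trans hP1)
      · calc A' ≤ max A' 1 := le_max_left _ _
          _ = 1 * max A' 1 := (one_mul _).symm
          _ ≤ _ := mul_le_mul_of_nonneg_right hP1 (zero_le_one.trans hP1')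
    · rw [hD]
      refine le_trans ?_ hTP
      exact mul_le_mul (le_max_left _ _) (le_max_left _ _) hA' (zero_le_one.trans hP1)

theorem rel (w : Pl L) (y : L) (hy : (minpoly k y).natDegree = 2) {T : ℝ} (hT : 1 ≤ T)
    (hadd : ∀ x z : L, nv w (x + z) ≤ T * max (nv w x) (nv w z)) :
    sn w ![y, 1] * sn w ![cj k y, 1] ≤ T * sn w (fun i => algebraMap k L (qf k y i)) ∧
    sn w (fun i => algebraMap k L (qf k y i)) ≤ T * (sn w ![y, 1] * sn w ![cj k y, 1]) := by
  rw [sn_two, sn_two, sn_three]
  apply gauss hT (nv_nonneg _ _) (nv_nonneg _ _)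
  · rw [← mul_cj y hy, nv_mul]
  · have := hadd y (cj k y)
    rwa [add_cj, nv_neg] at this
  · have := hadd (-algebraMap k L ((minpoly k y).coeff 1)) (-cj k y)
    rw [nv_neg, nv_neg] at this
    refine le_trans (le_of_eq ?_) this
    congr 1
    unfold cj
    ring
  · have := hadd (-algebraMap k L ((minpoly k y).coeff 1)) (-y)
    rw [nv_neg, nv_neg] at this
    refine le_trans (le_of_eq ?_) this
    congr 1
    unfold cj
    ring

theorem sum_two (hL : Module.finrank k L = 2) (y : L) (hy : (minpoly k y).natDegree = 2)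
    (v : Pl k) :
    ∑ w ∈ above L v, Real.log (sn w ![y, 1] * sn w ![cj k y, 1]) =
      2 * ∑ w ∈ above L v, Real.log (sn w ![y, 1]) := by
  have h1 : ∀ w : Pl L, ∀ z : L, 0 < sn w ![z, 1] := by
    intro w z
    rw [sn_two]
    exact lt_max_of_lt_right zero_lt_one
  have h2 : ∀ w ∈ above L v, Real.log (sn w ![y, 1] * sn w ![cj k y, 1]) =
      Real.log (sn w ![y, 1]) + Real.log (sn w ![cj k y, 1]) := fun w _ =>
    Real.log_mul (h1 w y).ne' (h1 w _).ne'
  rw [Finset.sum_congr rfl h2, Finset.sum_add_distrib]
  have h3 := sum_conj hL y hy v (fun x => Real.log (max x 1))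
  simp only [sn_two]
  rw [h3]
  ring

theorem sum_three (hL : Module.finrank k L = 2) (y : L) (v : Pl k) :
    ∑ w ∈ above L v, Real.log (sn w (fun i => algebraMap k L (qf k y i))) =
      2 * Real.log (vn v (qf k y)) := by
  have h := sum_log_sn (L' := L) (by norm_num) v (qf k y)
  rw [hL, sn_qf] at h
  exact_mod_cast h

end FA

/-- FIN-A. Local Gauss lemma for quadratic elements, finite places. -/
theorem quad_local_fin (hL : Module.finrank k L = 2) (y : L) (hy : (minpoly k y).natDegree = 2)
    (v : FinitePlace k) :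
    ∑ w ∈ above L (.inr v : Pl k), Real.log (sn w ![y, 1]) = Real.log (vn (.inr v) (qf k y)) := by
  have h1 := FA.sum_two hL y hy (.inr v)
  have h2 := FA.sum_three hL y (.inr v)
  have h3 : ∑ w ∈ above L (.inr v : Pl k), Real.log (sn w ![y, 1] * sn w ![FA.cj k y, 1]) =
      ∑ w ∈ above L (.inr v : Pl k), Real.log (sn w (fun i => algebraMap k L (qf k y i))) := by
    refine Finset.sum_congr rfl fun w hw => ?_
    rcases w with w | w
    · exact absurd (mem_above.mp hw) id
    · obtain ⟨h4, h5⟩ := FA.rel (.inr w) y hy le_rfl (fun x z => by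
        rw [one_mul]; exact FA.nv_add_fin w x z)
      rw [one_mul] at h4 h5
      rw [le_antisymm h4 h5]
  linarith

/-- FIN-A'. The same at infinite places, up to a constant. -/
theorem quad_local_inf (hL : Module.finrank k L = 2) (y : L) (hy : (minpoly k y).natDegree = 2)
    (v : InfinitePlace k) :
    |∑ w ∈ above L (.inl v : Pl k), Real.log (sn w ![y, 1]) - Real.log (vn (.inl v) (qf k y))|
      ≤ 2 * Real.log 4 := by
  have h1 := FA.sum_two hL y hy (.inl v)
  have h2 := FA.sum_three hL y (.inl v)
  have h3 : |∑ w ∈ above L (.inl v : Pl k), Real.log (sn w ![y, 1] * sn w ![FA.cj k y, 1]) -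
      ∑ w ∈ above L (.inl v : Pl k), Real.log (sn w (fun i => algebraMap k L (qf k y i)))| ≤
      2 * Real.log 4 := by
    rw [← Finset.sum_sub_distrib]
    refine (Finset.abs_sum_le_sum_abs _ _).trans ?_
    have h4 : ∀ w ∈ above L (.inl v : Pl k),
        |Real.log (sn w ![y, 1] * sn w ![FA.cj k y, 1]) -
          Real.log (sn w (fun i => algebraMap k L (qf k y i)))| ≤ Real.log 4 := by
      intro w hw
      rcases w with w | w
      · obtain ⟨h4, h5⟩ := FA.rel (.inl w) y hy (T := 4) (by norm_num)
          (fun x z => FA.nv_add_inf w x z)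
        have hp : 0 < sn (.inl w) ![y, 1] * sn (.inl w) ![FA.cj k y, 1] := by
          rw [FA.sn_two, FA.sn_two]
          exact mul_pos (lt_max_of_lt_right zero_lt_one) (lt_max_of_lt_right zero_lt_one)
        have hq : 0 < sn (.inl w) (fun i => algebraMap k L (qf k y i)) := by
          rw [FA.sn_three]
          exact lt_max_of_lt_left (lt_max_of_lt_left zero_lt_one)
        have l4 := Real.log_le_log hp h4
        have l5 := Real.log_le_log hq h5
        rw [Real.log_mul (by norm_num) hq.ne'] at l4
        rw [Real.log_mul (by norm_num) hp.ne'] at l5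
        rw [abs_le]
        constructor <;> linarith
      · exact absurd (mem_above.mp hw) id
    refine (Finset.sum_le_sum h4).trans ?_
    rw [Finset.sum_const, nsmul_eq_mul]
    refine mul_le_mul_of_nonneg_right ?_ (Real.log_nonneg (by norm_num))
    exact_mod_cast FA.card_le hL _
  rw [h1, h2] at h3
  rw [abs_le] at h3 ⊢
  have h6 : 0 ≤ Real.log 4 := Real.log_nonneg (by norm_num)
  constructor <;> linarith [h3.1, h3.2]

/-- FIN-A''. Height of the form. -/
theorem quad_height (hL : Module.finrank k L = 2) (y : L) (hy : (minpoly k y).natDegree = 2) :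
    |Height.logHeight ![y, 1] - vH (qf k y)| ≤ Fintype.card (InfinitePlace k) * (2 * Real.log 4) := by
  classical
  have hq0 : qf k y ≠ 0 := by
    intro h
    have := congrFun h 0
    change (1 : k) = 0 at this
    exact one_ne_zero this
  have hy0 : (![y, 1] : Fin 2 → L) ≠ 0 := by
    intro h
    have := congrFun h 1
    change (1 : L) = 0 at this
    exact one_ne_zero this
  have hfin : (Function.support fun v : FinitePlace k => Real.log (vn (.inr v) (qf k y))).Finite :=
    finS_vn hq0
  let W0 : Finset (Pl k) := Finset.univ.disjSum hfin.toFinset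
  have hnn : ∀ w : Pl L, 0 ≤ Real.log (sn w ![y, 1]) := by
    intro w
    rw [FA.sn_two]
    exact Real.log_nonneg (le_max_right _ _)
  have h2 : Height.logHeight ![y, 1] = ∑ w ∈ W0.biUnion (above L), Real.log (sn w ![y, 1]) := by
    apply logHeight_eq_sum hy0
    · intro w
      obtain ⟨ν, hν⟩ := exists_below (L := k) (.inl w : Pl L)
      rw [Finset.mem_biUnion]
      refine ⟨ν, ?_, hν⟩
      rcases ν with ν | ν
      · simp [W0]
      · exact absurd (mem_above.mp hν) id
    · intro w hw
      obtain ⟨ν, hν⟩ := exists_below (L := k) (.inr w : Pl L)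
      rw [Finset.mem_biUnion]
      refine ⟨ν, ?_, hν⟩
      rcases ν with ν | ν
      · simp [W0]
      · simp only [W0, Finset.inr_mem_disjSum, Set.Finite.mem_toFinset]
        intro h0
        have h0' : Real.log (vn (.inr ν) (qf k y)) = 0 := h0
        rw [← quad_local_fin hL y hy ν, Finset.sum_eq_zero_iff_of_nonneg (fun w _ => hnn w)] at h0'
        exact hw (h0' _ hν)
  have hdisj : (W0 : Set (Pl k)).PairwiseDisjoint (above L) := by
    intro a _ b _ hab
    rw [Function.onFun, Finset.disjoint_left]
    intro w hwa hwb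
    exact hab (above_unique (mem_above.mp hwa) (mem_above.mp hwb))
  have h3 : vH (qf k y) = ∑ v : InfinitePlace k, Real.log (vn (.inl v) (qf k y)) +
      ∑ v ∈ hfin.toFinset, Real.log (vn (.inr v) (qf k y)) := by
    unfold vH gsum
    rw [finsum_eq_sum_of_support_subset _ (s := hfin.toFinset) (by simp)]
  rw [h2, h3, Finset.sum_biUnion (fun a ha b hb hab => hdisj ha hb hab)]
  change |∑ v ∈ Finset.univ.disjSum hfin.toFinset, ∑ w ∈ above L v, Real.log (sn w ![y, 1]) - _| ≤ _
  rw [Finset.sum_disjSum]
  have h4 : ∑ v ∈ hfin.toFinset, ∑ w ∈ above L (.inr v : Pl k), Real.log (sn w ![y, 1]) =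
      ∑ v ∈ hfin.toFinset, Real.log (vn (.inr v) (qf k y)) :=
    Finset.sum_congr rfl fun v _ => quad_local_fin hL y hy v
  rw [h4, add_sub_add_right_eq_sub, ← Finset.sum_sub_distrib]
  refine (Finset.abs_sum_le_sum_abs _ _).trans ?_
  refine (Finset.sum_le_sum fun v _ => quad_local_inf hL y hy v).trans ?_
  rw [Finset.sum_const, nsmul_eq_mul, Finset.card_univ]

end fin

end Pool.Agent.V2
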