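import Mathlib
import Pool.Agent.Helper52.Vojta.BaseChange
import Pool.Agent.Helper52.Vojta.NormLocal
import Pool.Agent.Helper52.Vojta.NormEval
import Pool.Agent.Helper21.V2.FinDefs

/-!
# Block FB: values of a polynomial at a quadratic element in terms of its form
-/

namespace Pool.Agent.V2

open NumberField Finset Polynomial
open Pool.Agent.Helper64.Vojta (Pl nv sn above nv_mul nv_one nv_pos)
open Pool.Agent.Helper52.Vojta

section fin

variable {k : Type*} [Field k] [NumberField k] {L : Type*} [Field L] [NumberField L] [Algebra k L]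

/-- FIN-B. The value of `g` at `y` in terms of the form. -/
theorem quad_eval (hL : Module.finrank k L = 2) (y : L) (hy : (minpoly k y).natDegree = 2)
    (g : k[X]) (hg : aeval y g ≠ 0) {K : Type*} [Field K] [NumberField K] [Algebra k K]
    {n : ℕ} (β : Fin n → K)
    (hβ : g.map (algebraMap k K) = C (algebraMap k K g.leadingCoeff) * ∏ i, (X - C (β i)))
    (v : Pl k) (v' : Pl K) (hv : v' ∈ above K v) :
    ∑ i, Real.log (nv v' (MvPolynomial.eval (fun j => algebraMap k K (qf k y j)) (Tan ![β i, 1])))
      = ldeg v v' * (∑ w ∈ above L v, Real.log (nv w (aeval y g))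
        - 2 * Real.log (nv v g.leadingCoeff)) := by
  have hfd : FiniteDimensional k L := Module.finite_of_finrank_pos (by rw [hL]; norm_num)
  have hint : IsIntegral k y := Algebra.IsIntegral.isIntegral y
  have htop : IntermediateField.adjoin k {y} = ⊤ :=
    (Field.primitive_element_iff_minpoly_natDegree_eq k y).mpr (by rw [hy, hL])
  have htop' : Algebra.adjoin k {y} = ⊤ := by
    rw [← IntermediateField.adjoin_simple_toSubalgebra_of_isAlgebraic hint.isAlgebraic, htop,
      IntermediateField.top_toSubalgebra]
  have hg0 : g ≠ 0 := by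
    rintro rfl
    exact hg (by simp)
  have hlc : g.leadingCoeff ≠ 0 := leadingCoeff_ne_zero.mpr hg0
  set pb := PowerBasis.ofAdjoinEqTop hint htop' with hpb
  have hgen : pb.gen = y := PowerBasis.ofAdjoinEqTop_gen hint htop'
  have hdim : pb.dim = 2 := by rw [← pb.finrank, hL]
  have hnorm := norm_aeval pb g β hβ
  rw [hgen, hdim] at hnorm
  -- the minimal polynomial at `β i`
  have hmin : ∀ b : K, ((minpoly k y).map (algebraMap k K)).eval b =
      MvPolynomial.eval (fun j => algebraMap k K (qf k y j)) (Tan ![b, 1]) := by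
    intro b
    have hmonic := minpoly.monic hint
    rw [eval_eq_sum_range, natDegree_map, hy, Finset.sum_range_succ, Finset.sum_range_succ,
      Finset.sum_range_one]
    have h2 : (minpoly k y).coeff 2 = 1 := by
      have := hmonic.coeff_natDegree
      rwa [hy] at this
    simp only [coeff_map, h2, map_one, Tan, qf, map_add, map_mul, MvPolynomial.eval_C,
      MvPolynomial.eval_X, Matrix.cons_val_zero, Matrix.cons_val_one, Matrix.cons_val]
    ring
  simp only [neg_one_sq, one_mul] at hnorm
  have hn0 : Algebra.norm k (aeval y g) ≠ 0 := Algebra.norm_ne_zero_iff.mpr hg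
  have hprod : ∀ i, MvPolynomial.eval (fun j => algebraMap k K (qf k y j)) (Tan ![β i, 1]) ≠ 0 := by
    have h3 : (∏ i, ((minpoly k y).map (algebraMap k K)).eval (β i)) ≠ 0 := by
      intro h0
      rw [h0, mul_zero, map_eq_zero] at hnorm
      exact hn0 hnorm
    intro i
    rw [← hmin]
    exact Finset.prod_ne_zero_iff.mp h3 i (Finset.mem_univ i)
  have hlog : Real.log (nv v' (algebraMap k K (Algebra.norm k (aeval y g)))) =
      Real.log (nv v' (algebraMap k K g.leadingCoeff ^ 2 *
        ∏ i, ((minpoly k y).map (algebraMap k K)).eval (β i))) := by rw [hnorm]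
  have hprodlog : ∀ s : Finset (Fin n), nv v' (∏ i ∈ s, MvPolynomial.eval
      (fun j => algebraMap k K (qf k y j)) (Tan ![β i, 1])) = ∏ i ∈ s, nv v' (MvPolynomial.eval
      (fun j => algebraMap k K (qf k y j)) (Tan ![β i, 1])) := by
    classical
    intro s
    induction s using Finset.induction_on with
    | empty => simp [nv_one]
    | insert a s ha ih => rw [Finset.prod_insert ha, Finset.prod_insert ha, nv_mul, ih]
  have hpow : nv v' (algebraMap k K g.leadingCoeff ^ 2) =
      (nv v g.leadingCoeff ^ ldeg v v') ^ 2 := by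
    rw [pow_two, nv_mul, nv_above hv, pow_two]
  rw [nv_above hv, nv_norm, nv_mul, hpow, Real.log_pow,
    Real.log_prod (fun w _ => (nv_pos w hg).ne')] at hlog
  rw [Real.log_mul (pow_ne_zero _ (pow_ne_zero _ (nv_pos v hlc).ne')) (nv_pos v' (by
    rw [Finset.prod_congr rfl fun i _ => hmin (β i)]
    exact Finset.prod_ne_zero_iff.mpr fun i _ => hprod i)).ne', Real.log_pow, Real.log_pow,
    Finset.prod_congr rfl fun i _ => hmin (β i), hprodlog,
    Real.log_prod (fun i _ => (nv_pos v' (hprod i)).ne')] at hlog
  push_cast at hlog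
  linarith

end fin

end Pool.Agent.V2
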