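import Mathlib
import Pool.Agent.Helper52.Vojta.BaseChange
import Pool.Agent.Helper21.V2.FinDefs
import Pool.Agent.Helper21.V2.BB

/-!
# Block FC (helper80): the product formula for the discriminant, its local orders
-/

namespace Pool.Agent.V2

open NumberField Finset
open Pool.Agent.Helper64.Vojta (Pl nv)

variable {k : Type*} [Field k] [NumberField k]

namespace FC

theorem splitS {f : Pl k → ℝ} (hf : FinS f) (S : Finset (Pl k))
    (hS : ∀ v : InfinitePlace k, Sum.inl v ∈ S) :
    ∑ v ∈ S, f v + ∑ᶠ (v : FinitePlace k) (_ : Sum.inr v ∉ S), f (.inr v) = gsum f := by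
  classical
  have h1 : S.toLeft = Finset.univ := by
    ext v
    simp [Finset.mem_toLeft, hS v]
  have h2 : ∑ v ∈ S, f v = ∑ v : InfinitePlace k, f (.inl v) + ∑ v ∈ S.toRight, f (.inr v) := by
    conv_lhs => rw [← Finset.toLeft_disjSum_toRight (u := S), Finset.sum_disjSum, h1]
  have h3 : ∑ᶠ v : FinitePlace k, f (.inr v) =
      ∑ v ∈ S.toRight, f (.inr v) + ∑ᶠ (v : FinitePlace k) (_ : Sum.inr v ∉ S), f (.inr v) := by
    have hf1 : (Function.support fun v : FinitePlace k => f (.inr v)).Finite := hf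
    have h4 : ∑ v ∈ S.toRight, f (.inr v) =
        ∑ᶠ v : FinitePlace k, (if Sum.inr v ∈ S then f (.inr v) else 0) := by
      rw [← finsum_mem_finset_eq_sum]
      refine finsum_congr fun v => ?_
      by_cases h : (Sum.inr v : Pl k) ∈ S
      · rw [if_pos h, finsum_eq_if, if_pos (Finset.mem_toRight.2 h)]
      · rw [if_neg h, finsum_eq_if, if_neg (fun h' => h (Finset.mem_toRight.1 h'))]
    have h5 : ∑ᶠ (v : FinitePlace k) (_ : Sum.inr v ∉ S), f (.inr v) =
        ∑ᶠ v : FinitePlace k, (if Sum.inr v ∈ S then 0 else f (.inr v)) := by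
      refine finsum_congr fun v => ?_
      by_cases h : (Sum.inr v : Pl k) ∈ S
      · rw [if_pos h, finsum_eq_if, if_neg (not_not.2 h)]
      · rw [if_neg h, finsum_eq_if, if_pos h]
    rw [h4, h5, ← finsum_add_distrib]
    · refine finsum_congr fun v => ?_
      by_cases h : (Sum.inr v : Pl k) ∈ S
      · rw [if_pos h, if_pos h, add_zero]
      · rw [if_neg h, if_neg h, zero_add]
    · refine hf1.subset fun v hv => ?_
      rw [Function.mem_support] at hv ⊢
      intro h0
      rw [h0] at hv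
      simp at hv
    · refine hf1.subset fun v hv => ?_
      rw [Function.mem_support] at hv ⊢
      intro h0
      rw [h0] at hv
      simp at hv
  unfold gsum
  rw [h2, h3]
  ring

theorem exists_zpow (v : FinitePlace k) {x : k} (hx : x ≠ 0) :
    ∃ a : ℤ, nv (.inr v) x = (Ideal.absNorm v.maximalIdeal.asIdeal : ℝ) ^ a := by
  set P := v.maximalIdeal with hP
  have h2 : v x = ‖FinitePlace.embedding P x‖ := (FinitePlace.norm_embedding_eq v _).symm
  have hz : P.valuation k x ≠ 0 := (Valuation.ne_zero_iff _).2 hx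
  rw [FinitePlace.norm_embedding', WithZeroMulInt.toNNReal_neg_apply _ hz] at h2
  refine ⟨Multiplicative.toAdd (WithZero.unzero hz), ?_⟩
  change v x = _
  rw [h2]
  push_cast
  rfl

theorem one_lt_norm (v : FinitePlace k) :
    (1 : ℝ) < (Ideal.absNorm v.maximalIdeal.asIdeal : ℝ) := by
  have h := HeightOneSpectrum.one_lt_absNorm v.maximalIdeal
  exact_mod_cast h

end FC

open FC

/-- FIN-C. The product formula for the discriminant of the form, split in `S` and its complement. -/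
theorem quad_disc (F : Fin 3 → k) (hF : F 1 ^ 2 - 4 * F 0 * F 2 ≠ 0) (S : Finset (Pl k))
    (hS : ∀ v : InfinitePlace k, Sum.inl v ∈ S) :
    ∑ v ∈ S, ldisc v F + ∑ᶠ (v : FinitePlace k) (_ : Sum.inr v ∉ S), ldisc (.inr v) F = 2 * vH F := by
  have hF0 : F ≠ 0 := by
    rintro rfl
    simp at hF
  have f1 : FinS (fun v => 2 * Real.log (vn v F)) := (finS_vn hF0).const_mul 2
  have f2 : FinS (fun v => - Real.log (nv v (F 1 ^ 2 - 4 * F 0 * F 2))) := (finS_nv hF).neg
  have hl : (fun v => ldisc v F) =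
      fun v => 2 * Real.log (vn v F) + - Real.log (nv v (F 1 ^ 2 - 4 * F 0 * F 2)) := by
    funext v
    unfold ldisc
    ring
  have hfin : FinS (fun v => ldisc v F) := by
    rw [hl]
    exact f1.add f2
  rw [splitS hfin S hS, hl, gsum_add f1 f2, gsum_const_mul, gsum_neg, gsum_nv hF]
  unfold vH
  ring

/-- FIN-D'. `ldisc` at a finite place is a nonnegative multiple of `log N v`, and its parity is
that of the order of the discriminant. -/
theorem ldisc_fin (v : FinitePlace k) (F : Fin 3 → k) (hF : F 1 ^ 2 - 4 * F 0 * F 2 ≠ 0) :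
    ∃ n : ℕ, ldisc (.inr v) F = n * Real.log (Ideal.absNorm v.maximalIdeal.asIdeal) ∧
      (Odd n → ∃ m : ℤ, nv (.inr v) (F 1 ^ 2 - 4 * F 0 * F 2)
        = (Ideal.absNorm v.maximalIdeal.asIdeal : ℝ) ^ (2 * m + 1)) := by
  set N : ℝ := (Ideal.absNorm v.maximalIdeal.asIdeal : ℝ) with hN
  have hN1 : 1 < N := one_lt_norm v
  have hN0 : 0 < N := by linarith
  have hF0 : F ≠ 0 := by
    rintro rfl
    simp at hF
  -- the maximum is attained
  obtain ⟨i, hi⟩ : ∃ i, nv (.inr v) (F i) = vn (.inr v) F :=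
    exists_eq_ciSup_of_finite (f := fun i => nv (.inr v : Pl k) (F i))
  have hvn : 0 < vn (.inr v : Pl k) F := vn_pos _ hF0
  have hFi : F i ≠ 0 := by
    intro h0
    rw [h0, Pool.Agent.Helper64.Vojta.nv_zero] at hi
    exact hvn.ne hi
  obtain ⟨a, ha⟩ := exists_zpow v hFi
  obtain ⟨b, hb⟩ := exists_zpow v hF
  rw [← hN] at ha hb
  have hva : vn (.inr v : Pl k) F = N ^ a := by rw [← hi, ha]
  -- ultrametric inequality
  have hle : nv (.inr v) (F 1 ^ 2 - 4 * F 0 * F 2) ≤ (vn (.inr v : Pl k) F) ^ 2 := by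
    have hj : ∀ j, nv (.inr v) (F j) ≤ vn (.inr v : Pl k) F := fun j => le_vn _ _ j
    have h0 : ∀ y : k, 0 ≤ nv (.inr v : Pl k) y := Pool.Agent.Helper64.Vojta.nv_nonneg _
    have h1 : nv (.inr v : Pl k) (F 1 ^ 2) ≤ vn (.inr v : Pl k) F ^ 2 := by
      rw [pow_two, Pool.Agent.Helper64.Vojta.nv_mul, pow_two]
      exact mul_le_mul (hj 1) (hj 1) (h0 _) hvn.le
    have h4 : nv (.inr v : Pl k) (-4) ≤ 1 := by
      have h5 : nv (.inr v : Pl k) (-4) = nv (.inr v : Pl k) 4 := by
        change v (-4) = v 4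
        exact map_neg_eq_map v 4
      rw [h5]
      have h6 := Pool.Agent.Helper64.Vojta.nv_sum_le_inr v (Finset.range 4) (fun _ => (1 : k)) 1
        zero_le_one (fun i _ => (Pool.Agent.Helper64.Vojta.nv_one _).le)
      rw [Finset.sum_const, Finset.card_range, nsmul_eq_mul, mul_one] at h6
      exact_mod_cast h6
    have h2 : nv (.inr v : Pl k) (-4 * (F 0 * F 2)) ≤ vn (.inr v : Pl k) F ^ 2 := by
      rw [Pool.Agent.Helper64.Vojta.nv_mul, Pool.Agent.Helper64.Vojta.nv_mul, pow_two]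
      have h5 : nv (.inr v : Pl k) (F 0) * nv (.inr v : Pl k) (F 2) ≤
          vn (.inr v : Pl k) F * vn (.inr v : Pl k) F :=
        mul_le_mul (hj 0) (hj 2) (h0 _) hvn.le
      calc _ ≤ 1 * (vn (.inr v : Pl k) F * vn (.inr v : Pl k) F) :=
            mul_le_mul h4 h5 (mul_nonneg (h0 _) (h0 _)) zero_le_one
        _ = _ := one_mul _
    have h3 : F 1 ^ 2 - 4 * F 0 * F 2 = F 1 ^ 2 + -4 * (F 0 * F 2) := by ring
    rw [h3]
    exact (FinitePlace.add_le v _ _).trans (max_le h1 h2)
  rw [hb, hva, ← zpow_natCast, ← zpow_mul] at hle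
  have hba : b ≤ a * 2 := by
    have := (zpow_le_zpow_iff_right₀ hN1).1 hle
    simpa using this
  refine ⟨(a * 2 - b).toNat, ?_, ?_⟩
  · unfold ldisc
    rw [hva, hb, Real.log_zpow, Real.log_zpow]
    have h5 : (((a * 2 - b).toNat : ℤ) : ℝ) = ((a * 2 - b : ℤ) : ℝ) := by
      rw [Int.toNat_of_nonneg (by omega)]
    have h6 : (((a * 2 - b).toNat : ℕ) : ℝ) = (((a * 2 - b).toNat : ℤ) : ℝ) := by
      push_cast; rfl
    rw [h6, h5]
    push_cast
    ring
  · rintro ⟨c, hc⟩
    refine ⟨a - c - 1, ?_⟩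
    rw [hb]
    congr 1
    omega

end Pool.Agent.V2
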