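import Mathlib
import Pool.Agent.Helper52.Vojta.BaseChange
import Pool.Agent.Helper21.V2.FinDefs

/-!
# Block FD: ramified places and the discriminant (helper40)
-/

namespace Pool.Agent.V2

open NumberField Finset Polynomial
open Pool.Agent.Helper64.Vojta (Pl nv sn above mem_above)
open Pool.Agent.Helper52.Vojta

namespace FD

/-- the value of a nonzero element at a finite place is an integral power of the norm -/
theorem fin_zpow {K : Type*} [Field K] [NumberField K] (w : FinitePlace K) {x : K} (hx : x ≠ 0) :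
    ∃ j : ℤ, w x = (Ideal.absNorm w.maximalIdeal.asIdeal : ℝ) ^ j := by
  have h1 : w x = ‖FinitePlace.embedding w.maximalIdeal x‖ :=
    (FinitePlace.norm_embedding_eq w _).symm
  have hv : w.maximalIdeal.valuation K x ≠ 0 := (Valuation.ne_zero_iff _).mpr hx
  rw [h1, FinitePlace.norm_embedding', WithZeroMulInt.toNNReal_neg_apply _ hv]
  exact ⟨Multiplicative.toAdd (WithZero.unzero hv), by push_cast; rfl⟩

section

variable {k : Type*} [Field k] [NumberField k] {L : Type*} [Field L] [NumberField L] [Algebra k L]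

/-- a quadratic element is a root of its form -/
theorem root_sq (y : L) (hy : (minpoly k y).natDegree = 2) :
    (2 * y + algebraMap k L (qf k y 1)) ^ 2 =
      algebraMap k L (qf k y 1 ^ 2 - 4 * qf k y 0 * qf k y 2) := by
  haveI : FiniteDimensional k L := FiniteDimensional.right ℚ k L
  have hint : IsIntegral k y := Algebra.IsIntegral.isIntegral y
  have h0 := minpoly.aeval k y
  rw [aeval_eq_sum_range, hy] at h0
  have h2 : (minpoly k y).coeff 2 = 1 := by
    have := minpoly.monic hint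
    rw [Monic, leadingCoeff, hy] at this
    exact this
  simp only [Finset.sum_range_succ, Finset.sum_range_zero, h2, pow_zero, pow_one, zero_add,
    Algebra.smul_def, map_one, mul_one, one_mul] at h0
  simp only [qf, Matrix.cons_val_zero, Matrix.cons_val_one, Matrix.cons_val]
  rw [map_sub, map_pow, map_mul, map_mul, map_one, map_ofNat]
  linear_combination 4 * h0

/-- a prime above a place where the discriminant has odd order is ramified -/
theorem exists_ram (y : L) (hy : (minpoly k y).natDegree = 2) (v : FinitePlace k) (m : ℤ)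
    (hm : nv (.inr v) (qf k y 1 ^ 2 - 4 * qf k y 0 * qf k y 2)
      = (Ideal.absNorm v.maximalIdeal.asIdeal : ℝ) ^ (2 * m + 1)) :
    ∃ w : FinitePlace L, w.maximalIdeal.asIdeal.LiesOver v.maximalIdeal.asIdeal ∧
      v.maximalIdeal.asIdeal.map (algebraMap (𝓞 k) (𝓞 L)) ≤ w.maximalIdeal.asIdeal ^ 2 ∧
      Ideal.absNorm v.maximalIdeal.asIdeal ≤ Ideal.absNorm w.maximalIdeal.asIdeal := by
  haveI : FiniteDimensional k L := FiniteDimensional.right ℚ k L
  set D := qf k y 1 ^ 2 - 4 * qf k y 0 * qf k y 2 with hD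
  have hne : (above L (.inr v : Pl k)).Nonempty := by
    have h1 := sum_ldeg (L' := L) (.inr v : Pl k)
    rw [Finset.nonempty_iff_ne_empty]
    intro h0
    rw [h0, Finset.sum_empty] at h1
    exact (Module.finrank_pos (R := k) (M := L)).ne h1
  obtain ⟨w, hw⟩ := hne
  rcases w with w | w
  · exact absurd (mem_above.mp hw) id
  have hlies : w.maximalIdeal.asIdeal.LiesOver v.maximalIdeal.asIdeal := mem_above.mp hw
  have h1 := nv_above_fin v w hlies D
  set p := v.maximalIdeal with hp
  set P := w.maximalIdeal with hP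
  set e := p.asIdeal.ramificationIdx' P.asIdeal with he
  set f := p.asIdeal.inertiaDeg' P.asIdeal with hf
  have hN : Ideal.absNorm P.asIdeal = Ideal.absNorm p.asIdeal ^ f :=
    Ideal.absNorm_eq_pow_inertiaDeg'_of_liesOver P.asIdeal p.asIdeal p.isPrime p.ne_bot
  have hf0 : f ≠ 0 := by
    intro h0
    rw [h0, pow_zero] at hN
    exact P.isPrime.ne_top (Ideal.absNorm_eq_one_iff.mp hN)
  have hn1 : (1 : ℝ) < Ideal.absNorm p.asIdeal := by
    exact_mod_cast HeightOneSpectrum.one_lt_absNorm p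
  have he0 : e ≠ 0 := Ideal.IsDedekindDomain.ramificationIdx'_ne_zero_of_liesOver P.asIdeal p.ne_bot
  have hDv : (v D : ℝ) = (Ideal.absNorm p.asIdeal : ℝ) ^ (2 * m + 1) := hm
  have hD0 : D ≠ 0 := by
    intro h0
    rw [h0, map_zero] at hDv
    exact (zpow_pos (by linarith) _).ne hDv
  set z : L := 2 * y + algebraMap k L (qf k y 1) with hz
  have hz2 : z ^ 2 = algebraMap k L D := root_sq y hy
  have hz0 : z ≠ 0 := by
    intro h0
    rw [h0] at hz2
    have : algebraMap k L D = 0 := by rw [← hz2]; simp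
    exact hD0 ((map_eq_zero _).mp this)
  obtain ⟨j, hj⟩ := fin_zpow w hz0
  have h2 : w z ^ 2 = v D ^ (e * f) := by
    rw [← map_pow, hz2, h1]
  rw [hj, hDv, hN] at h2
  push_cast at h2
  have h3 : (Ideal.absNorm p.asIdeal : ℝ) ^ ((f : ℤ) * j * 2) =
      (Ideal.absNorm p.asIdeal : ℝ) ^ ((2 * m + 1) * ((e : ℤ) * f)) := by
    rw [zpow_mul, zpow_mul, zpow_natCast, zpow_mul _ (2 * m + 1)]
    rw [← Nat.cast_mul, zpow_natCast]
    exact_mod_cast h2
  have h4 : (f : ℤ) * j * 2 = (2 * m + 1) * ((e : ℤ) * f) :=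
    zpow_right_injective₀ (by linarith) hn1.ne' h3
  have h5 : j * 2 = (2 * m + 1) * e := by
    have hf0' : (f : ℤ) ≠ 0 := by exact_mod_cast hf0
    apply mul_left_cancel₀ hf0'
    linear_combination h4
  have h6 : Even e := by
    have : Even ((2 * m + 1) * (e : ℤ)) := by
      rw [← h5]
      exact even_two.mul_left j
    rw [Int.even_mul] at this
    rcases this with h | h
    · exact absurd h (by simp)
    · exact_mod_cast h
  have h7 : 2 ≤ e := by
    obtain ⟨r, hr⟩ := h6
    omega
  refine ⟨w, hlies, Ideal.le_pow_of_le_ramificationIdx' h7, ?_⟩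
  rw [hN]
  exact Nat.le_self_pow hf0 _

end

end FD

/-- FIN-D. If `disc F` has odd order at the finite places in `W`, then these places ramify in `L/k`,
so the logarithmic discriminant is large. -/
theorem quad_ram {k : Type*} [Field k] [NumberField k] {L : Type*} [Field L] [NumberField L]
    [Algebra k L] (hL : Module.finrank k L = 2) (y : L) (hy : (minpoly k y).natDegree = 2)
    (W : Finset (FinitePlace k))
    (hW : ∀ v ∈ W, ∃ m : ℤ, nv (.inr v) (qf k y 1 ^ 2 - 4 * qf k y 0 * qf k y 2)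
      = (Ideal.absNorm v.maximalIdeal.asIdeal : ℝ) ^ (2 * m + 1)) :
    ∑ v ∈ W, Real.log (Ideal.absNorm v.maximalIdeal.asIdeal)
      ≤ 2 * (Real.log |(discr L : ℝ)| / Module.finrank k L - Real.log |(discr k : ℝ)|) := by
  classical
  have hex : ∀ v ∈ W, ∃ w : FinitePlace L,
      w.maximalIdeal.asIdeal.LiesOver v.maximalIdeal.asIdeal ∧
      v.maximalIdeal.asIdeal.map (algebraMap (𝓞 k) (𝓞 L)) ≤ w.maximalIdeal.asIdeal ^ 2 ∧
      Ideal.absNorm v.maximalIdeal.asIdeal ≤ Ideal.absNorm w.maximalIdeal.asIdeal := by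
    intro v hv
    obtain ⟨m, hm⟩ := hW v hv
    exact FD.exists_ram y hy v m hm
  have hne : W.Nonempty → Nonempty (FinitePlace L) := by
    rintro ⟨v, hv⟩
    obtain ⟨w, _⟩ := hex v hv
    exact ⟨w⟩
  have hdk : (discr k).natAbs ≠ 0 := Int.natAbs_ne_zero.mpr (discr_ne_zero k)
  have hD0 : Ideal.absNorm (differentIdeal (𝓞 k) (𝓞 L)) ≠ 0 := by
    rw [Ne, Ideal.absNorm_eq_zero_iff]
    exact differentIdeal_ne_bot
  have hdisc := natAbs_discr_eq_absNorm_differentIdeal_mul_natAbs_discr_pow k (𝓞 k) L (𝓞 L)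
  rw [hL] at hdisc
  have hcastL : |(discr L : ℝ)| = ((discr L).natAbs : ℝ) := by
    rw [Nat.cast_natAbs, Int.cast_abs]
  have hcastk : |(discr k : ℝ)| = ((discr k).natAbs : ℝ) := by
    rw [Nat.cast_natAbs, Int.cast_abs]
  rw [hcastL, hcastk, hdisc, hL]
  push_cast
  rw [Real.log_mul (by exact_mod_cast hD0) (pow_ne_zero _ (by exact_mod_cast hdk)), Real.log_pow]
  rcases W.eq_empty_or_nonempty with rfl | hWne
  · rw [Finset.sum_empty]
    have : 0 ≤ Real.log (Ideal.absNorm (differentIdeal (𝓞 k) (𝓞 L)) : ℝ) :=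
      Real.log_natCast_nonneg _
    push_cast
    linarith
  haveI := hne hWne
  choose! w hw1 hw2 hw3 using hex
  -- the different is divisible by the product of the ramified primes
  have hinj : ∀ v ∈ W, ∀ v' ∈ W, v ≠ v' → (w v).maximalIdeal.asIdeal ≠ (w v').maximalIdeal.asIdeal := by
    intro v hv v' hv' hne h
    apply hne
    rw [← FinitePlace.maximalIdeal_inj]
    refine IsDedekindDomain.HeightOneSpectrum.ext ?_
    rw [(hw1 v hv).over, (hw1 v' hv').over, h]
  have hdvd : ∀ v ∈ W, (w v).maximalIdeal.asIdeal ∣ differentIdeal (𝓞 k) (𝓞 L) := by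
    intro v hv
    have h1 := pow_sub_one_dvd_differentIdeal (𝓞 k) (p := v.maximalIdeal.asIdeal)
      (w v).maximalIdeal.asIdeal 2 v.maximalIdeal.ne_bot (Ideal.dvd_iff_le.mpr (hw2 v hv))
    simpa using h1
  have hprod : ∏ v ∈ W, (w v).maximalIdeal.asIdeal ∣ differentIdeal (𝓞 k) (𝓞 L) := by
    refine Finset.prod_dvd_of_coprime ?_ hdvd
    intro v hv v' hv' hne
    change IsCoprime _ _
    rw [Ideal.isCoprime_iff_sup_eq]
    exact Ideal.IsMaximal.coprime_of_ne inferInstance inferInstance (hinj v hv v' hv' hne)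
  have hle : ∏ v ∈ W, Ideal.absNorm (w v).maximalIdeal.asIdeal ≤
      Ideal.absNorm (differentIdeal (𝓞 k) (𝓞 L)) := by
    rw [← map_prod]
    exact Nat.le_of_dvd (Nat.pos_of_ne_zero hD0) (Ideal.absNorm_dvd_absNorm_of_le
      (Ideal.dvd_iff_le.mp hprod))
  have hle2 : ∏ v ∈ W, Ideal.absNorm v.maximalIdeal.asIdeal ≤
      Ideal.absNorm (differentIdeal (𝓞 k) (𝓞 L)) :=
    (Finset.prod_le_prod' hw3).trans hle
  have h3 : ∑ v ∈ W, Real.log (Ideal.absNorm v.maximalIdeal.asIdeal) ≤
      Real.log (Ideal.absNorm (differentIdeal (𝓞 k) (𝓞 L))) := by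
    rw [← Real.log_prod (fun v _ => by
      exact_mod_cast (zero_lt_one.trans (HeightOneSpectrum.one_lt_absNorm v.maximalIdeal)).ne')]
    apply Real.log_le_log
    · exact Finset.prod_pos fun v _ => by
        exact_mod_cast zero_lt_one.trans (HeightOneSpectrum.one_lt_absNorm v.maximalIdeal)
    · exact_mod_cast hle2
  push_cast
  linarith

end Pool.Agent.V2
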