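import Mathlib
import Pool.Agent.Helper52.Vojta.Divisor
import Pool.Agent.Helper52.Vojta.Split
import Pool.Agent.Helper21.V2.FA
import Pool.Agent.Helper21.V2.FB
import Pool.Agent.Helper21.V2.FC
import Pool.Agent.Helper21.V2.FD
import Pool.Agent.Helper21.V2.AR8

/-!
From quadratic forms to quadratic points.
-/

namespace Pool.Agent.V2

open NumberField Finset Polynomial
open Pool.Agent.Helper64.Vojta (Pl nv sn above nv_pos nv_mul nv_one mem_above above_unique nv_nonneg)
open Pool.Agent.Helper52.Vojta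

universe u

section fin

variable {k : Type u} [Field k] [NumberField k]

/-- the evaluation of the tangent form at a binary form -/
theorem eval_Tan {K : Type*} [Field K] (α : Fin 2 → K) (F : Fin 3 → K) :
    MvPolynomial.eval F (Tan α) = α 0 ^ 2 * F 0 + α 0 * α 1 * F 1 + α 1 ^ 2 * F 2 := by
  unfold Tan
  simp

theorem eval_Dis {K : Type*} [Field K] (F : Fin 3 → K) :
    MvPolynomial.eval F (Dis : MvPolynomial (Fin 3) K) = F 1 ^ 2 - 4 * F 0 * F 2 := by
  unfold Dis
  simp

/-- the points of the divisor -/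
theorem exists_pts {K : Type*} [Field K] [NumberField K] {n q : ℕ} (β : Fin n → K)
    (hβ : Function.Injective β) (h1 : n ≤ q) (h2 : q ≤ n + 1) :
    ∃ D : Fin q → Fin 2 → K, (∀ i j, i ≠ j → D i 0 * D j 1 ≠ D i 1 * D j 0) ∧ (∀ i, D i ≠ 0) ∧
      ∀ F : Fin 3 → K, F 0 = 1 → (∀ i, MvPolynomial.eval F (Tan ![β i, 1]) ≠ 0) →
        (∀ i, MvPolynomial.eval F (Tan (D i)) ≠ 0) ∧ ∀ v : Pl K,
          ∑ i, Real.log (nv v (MvPolynomial.eval F (Tan (D i))))
            = ∑ i, Real.log (nv v (MvPolynomial.eval F (Tan ![β i, 1]))) := by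
  rcases (by omega : q = n ∨ q = n + 1) with rfl | rfl
  · refine ⟨fun i => ![β i, 1], ?_, ?_, fun F _ hF => ⟨hF, fun v => rfl⟩⟩
    · intro i j hij h
      apply hij
      apply hβ
      simpa using h
    · intro i h
      have := congrFun h 1
      simp at this
  · refine ⟨Fin.cons ![1, 0] (fun i => ![β i, 1]), ?_, ?_, fun F hF0 hF => ⟨?_, fun v => ?_⟩⟩
    · intro i j
      refine Fin.cases ?_ (fun i => ?_) i <;> refine Fin.cases ?_ (fun j => ?_) j
      · intro h; exact absurd rfl h
      · intro _; simp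
      · intro _; simp
      · intro hij h
        apply hij
        congr 1
        apply hβ
        simpa using h
    · intro i
      refine Fin.cases ?_ (fun i => ?_) i
      · intro h
        have := congrFun h 0
        simp at this
      · intro h
        have := congrFun h 1
        simp at this
    · intro i
      refine Fin.cases ?_ (fun i => ?_) i
      · rw [eval_Tan]; simp [hF0]
      · exact hF i
    · rw [Fin.sum_univ_succ]
      have e1 : MvPolynomial.eval F (Tan (Fin.cons (α := fun _ => Fin 2 → K) ![1, 0] (fun i => ![β i, 1]) 0)) = 1 := by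
        rw [eval_Tan]; simp [hF0]
      rw [e1, nv_one, Real.log_one, zero_add]
      rfl

theorem vn_map {K : Type*} [Field K] [NumberField K] [Algebra k K] (F : Fin 3 → k) {v : Pl k} {v' : Pl K}
    (hv : v' ∈ above K v) : vn v' (fun j => algebraMap k K (F j)) = vn v F ^ ldeg v v' :=
  sn_above (by norm_num) hv F

theorem vH_map {K : Type*} [Field K] [NumberField K] [Algebra k K] (F : Fin 3 → k) (hF : F ≠ 0) :
    vH (fun j => algebraMap k K (F j)) = Module.finrank k K * vH F := by
  have hF' : (fun j => algebraMap k K (F j)) ≠ 0 := by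
    intro h
    apply hF
    funext j
    have := congrFun h j
    simpa using this
  rw [vH_eq hF', vH_eq hF]
  exact logHeight_algebraMap hF

theorem quad_disc_ne {L : Type*} [Field L] [NumberField L] [Algebra k L] (y : L)
    (hy : (minpoly k y).natDegree = 2) : qf k y 1 ^ 2 - 4 * qf k y 0 * qf k y 2 ≠ 0 := by
  intro h
  have e0 : qf k y 0 = 1 := rfl
  have e1 : qf k y 1 = (minpoly k y).coeff 1 := rfl
  have e2 : qf k y 2 = (minpoly k y).coeff 0 := rfl
  rw [e0, e1, e2] at h
  have hirr : Irreducible (minpoly k y) := minpoly.irreducible (Algebra.IsIntegral.isIntegral y)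
  have hmon : (minpoly k y).Monic := minpoly.monic (Algebra.IsIntegral.isIntegral y)
  have h2 : (minpoly k y).coeff 2 = 1 := by
    have := hmon.coeff_natDegree
    rwa [hy] at this
  have hroot : IsRoot (minpoly k y) (-(minpoly k y).coeff 1 / 2) := by
    rw [IsRoot.def, eval_eq_sum_range, hy, Finset.sum_range_succ, Finset.sum_range_succ,
      Finset.sum_range_one, h2]
    field_simp
    linear_combination -h
  have h1 := degree_eq_one_of_irreducible_of_root hirr hroot
  have h3 : (minpoly k y).natDegree = 1 := natDegree_eq_of_degree_eq_some h1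
  omega

/-- splitting data of `g` -/
theorem split_data (g : k[X]) (hg : Squarefree g) (K : Type*) [Field K] [NumberField K] [Algebra k K]
    (hsp : (g.map (algebraMap k K)).Splits) : ∃ β : Fin g.natDegree → K, Function.Injective β ∧
      g.map (algebraMap k K) = C (algebraMap k K g.leadingCoeff) * ∏ i, (X - C (β i)) := by
  have hsep : g.Separable := PerfectField.separable_iff_squarefree.mpr hg
  have hsq : Squarefree (g.map (algebraMap k K)) := hsep.map.squarefree
  obtain ⟨β0, hβ0, hβ1⟩ := exists_roots hsq hsp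
  have hnd : (g.map (algebraMap k K)).natDegree = g.natDegree := natDegree_map _
  rw [leadingCoeff_map] at hβ1
  refine ⟨fun i => β0 (Fin.cast hnd.symm i), fun i j h => ?_, ?_⟩
  · have := hβ0 h
    simpa using this
  · refine hβ1.trans ?_
    congr 1
    exact (Fintype.prod_equiv (finCongr hnd.symm) _ _ fun i => rfl).symm

open scoped Classical in
/-- From an inequality for forms over the splitting field to an inequality for points. -/
theorem fin_core (g : k[X]) {K : Type*} [Field K] [NumberField K] [Algebra k K]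
    (β : Fin g.natDegree → K)
    (hβ2 : g.map (algebraMap k K) = C (algebraMap k K g.leadingCoeff) * ∏ i, (X - C (β i)))
    {q : ℕ} (D : Fin q → Fin 2 → K)
    (hD3 : ∀ F : Fin 3 → K, F 0 = 1 → (∀ i, MvPolynomial.eval F (Tan ![β i, 1]) ≠ 0) →
        (∀ i, MvPolynomial.eval F (Tan (D i)) ≠ 0) ∧ ∀ v : Pl K,
          ∑ i, Real.log (nv v (MvPolynomial.eval F (Tan (D i))))
            = ∑ i, Real.log (nv v (MvPolynomial.eval F (Tan ![β i, 1]))))
    (S : Finset (Pl k)) (hS : ∀ v : InfinitePlace k, Sum.inl v ∈ S)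
    (ε α : ℝ) (hε : 0 < ε) (P : (Fin 3 → K) → Prop) (C0 : ℝ)
    (hC0 : ∀ F : Fin 3 → K, P F → MvPolynomial.eval F (Dis : MvPolynomial (Fin 3) K) ≠ 0 →
      (∀ i, MvPolynomial.eval F (Tan (D i)) ≠ 0) →
      ∑ v ∈ S.biUnion (above K), (α * wf v 2 Dis F + ∑ i, wf v 1 (Tan (D i)) F)
        ≤ (2 + 2 * α + ε) * vH F + C0) :
    ∃ C : ℝ, ∀ (L : Type u) [Field L] [NumberField L] [Algebra k L] (y : L),
      Module.finrank k L = 2 → (minpoly k y).natDegree = 2 → aeval y g ≠ 0 →
      P (fun j => algebraMap k K (qf k y j)) →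
      -(2 * (Height.logHeight ![y, 1] / Module.finrank k L)) +
        ∑ ν ∈ S, (∑ w ∈ above L ν, (q * Real.log (sn w ![y, 1]) - Real.log (nv w (aeval y g))))
          / Module.finrank k L
      ≤ ε * (Height.logHeight ![y, 1] / Module.finrank k L)
        + α * ((∑ᶠ (v : FinitePlace k) (_ : Sum.inr v ∉ S), ldisc (.inr v) (qf k y)) / 2) + C := by
  classical
  set T : Finset (Pl K) := S.biUnion (above K) with hT
  set M : ℝ := (Module.finrank k K : ℝ) with hM
  have hM1 : 0 < M := by
    have : 0 < Module.finrank k K := by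
      have : FiniteDimensional k K := FiniteDimensional.right ℚ k K
      exact Module.finrank_pos
    rw [hM]; exact_mod_cast this
  set c1 : ℝ := 2 * Real.log 4 with hc1
  have hc10 : 0 ≤ c1 := by rw [hc1]; have := Real.log_nonneg (by norm_num : (1 : ℝ) ≤ 4); linarith
  set NI : ℝ := (Fintype.card (InfinitePlace k) : ℝ) with hNI
  set lc : ℝ := ∑ v ∈ S, Real.log (nv v g.leadingCoeff) with hlc
  refine ⟨(C0 / M + q * (S.card * c1) + (2 + ε) * (NI * c1)) / 2 - lc, ?_⟩
  intro L _ _ _ y hL hy hgy hPF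
  set F : Fin 3 → k := qf k y with hF
  have hF0 : F 0 = 1 := rfl
  have hFne : F ≠ 0 := by
    intro h
    rw [h] at hF0
    exact zero_ne_one hF0
  -- the discriminant is nonzero
  have hdisc : F 1 ^ 2 - 4 * F 0 * F 2 ≠ 0 := quad_disc_ne y hy
  set F' : Fin 3 → K := fun j => algebraMap k K (F j) with hF'
  have hF'0 : F' 0 = 1 := by rw [hF']; simp [hF0]
  have hdisc' : MvPolynomial.eval F' (Dis : MvPolynomial (Fin 3) K) ≠ 0 := by
    rw [eval_Dis]
    have : F' 1 ^ 2 - 4 * F' 0 * F' 2 = algebraMap k K (F 1 ^ 2 - 4 * F 0 * F 2) := by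
      rw [hF', map_sub, map_mul, map_mul, map_pow, map_ofNat]
    rw [this, Ne, map_eq_zero]
    exact hdisc
  have hTan : ∀ i, MvPolynomial.eval F' (Tan ![β i, 1]) ≠ 0 := by
    intro i h
    have hroot : aeval (β i) g = 0 := by
      have h1 : eval (β i) (g.map (algebraMap k K)) = 0 := by
        rw [hβ2, eval_mul, eval_prod, Finset.prod_eq_zero (Finset.mem_univ i) (by simp), mul_zero]
      rwa [eval_map_algebraMap] at h1
    have hm0 : aeval (β i) (minpoly k y) = 0 := by
      have hmon : (minpoly k y).Monic := minpoly.monic (Algebra.IsIntegral.isIntegral y)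
      have h2 : (minpoly k y).coeff 2 = 1 := by rw [← hy]; exact hmon.coeff_natDegree
      rw [aeval_eq_sum_range, hy, Finset.sum_range_succ, Finset.sum_range_succ, Finset.sum_range_one, h2]
      rw [eval_Tan] at h
      have e1 : F' 1 = algebraMap k K ((minpoly k y).coeff 1) := rfl
      have e2 : F' 2 = algebraMap k K ((minpoly k y).coeff 0) := rfl
      rw [e1, e2, hF'0] at h
      simp only [Matrix.cons_val_zero, Matrix.cons_val_one] at h
      simp only [Algebra.smul_def, map_one]
      linear_combination h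
    have hirr : Irreducible (minpoly k y) := minpoly.irreducible (Algebra.IsIntegral.isIntegral y)
    have hmon : (minpoly k y).Monic := minpoly.monic (Algebra.IsIntegral.isIntegral y)
    have heq : minpoly k y = minpoly k (β i) := minpoly.eq_of_irreducible_of_monic hirr hm0 hmon
    have hdvd : minpoly k (β i) ∣ g := minpoly.dvd k (β i) hroot
    rw [← heq] at hdvd
    obtain ⟨r, hr⟩ := hdvd
    apply hgy
    rw [hr, map_mul, minpoly.aeval, zero_mul]
  obtain ⟨hD4, hD5⟩ := hD3 F' hF'0 hTan
  have hmain := hC0 F' hPF hdisc' hD4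
  have hdisj : (S : Set (Pl k)).PairwiseDisjoint (above K) := by
    intro a _ b _ hab
    rw [Function.onFun, Finset.disjoint_left]
    intro w hwa hwb
    exact hab (above_unique (mem_above.mp hwa) (mem_above.mp hwb))
  rw [hT, Finset.sum_biUnion (fun a ha b hb hab => hdisj ha hb hab), vH_map F hFne] at hmain
  -- local computation
  have hloc : ∀ v ∈ S, ∑ v' ∈ above K v, (α * wf v' 2 Dis F' + ∑ i, wf v' 1 (Tan (D i)) F')
      = M * (α * ldisc v F + (q * Real.log (vn v F) - (∑ w ∈ above L v, Real.log (nv w (aeval y g))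
        - 2 * Real.log (nv v g.leadingCoeff)))) := by
    intro v _
    rw [hM, ← sum_ldeg (L' := K) v]
    push_cast
    rw [Finset.sum_mul]
    refine Finset.sum_congr rfl fun v' hv' => ?_
    have e1 := quad_eval hL y hy g hgy β hβ2 v v' hv'
    have e2 : nv v' (MvPolynomial.eval F' (Dis : MvPolynomial (Fin 3) K))
        = nv v (F 1 ^ 2 - 4 * F 0 * F 2) ^ ldeg v v' := by
      rw [eval_Dis, ← nv_above hv']
      congr 1
      rw [hF', map_sub, map_mul, map_mul, map_pow, map_ofNat]
    unfold wf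
    rw [Finset.sum_sub_distrib, Finset.sum_const, Finset.card_univ, Fintype.card_fin, hD5 v', e1, e2,
      vn_map F hv', Real.log_pow, Real.log_pow]
    unfold ldisc
    simp only [Nat.cast_ofNat, Nat.cast_one, one_mul, nsmul_eq_mul]
    ring
  rw [Finset.sum_congr rfl hloc, ← Finset.mul_sum] at hmain
  have hqd := quad_disc F hdisc S hS
  set δ : ℝ := ∑ᶠ (v : FinitePlace k) (_ : Sum.inr v ∉ S), ldisc (.inr v) F with hδ
  have hh := quad_height hL y hy
  rw [← hF, ← hNI, ← hc1] at hh
  -- comparison with the Weil function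
  have hcmp : ∀ v ∈ S, (∑ w ∈ above L v, (q * Real.log (sn w ![y, 1]) - Real.log (nv w (aeval y g))))
      ≤ (q * Real.log (vn v F) - (∑ w ∈ above L v, Real.log (nv w (aeval y g))
        - 2 * Real.log (nv v g.leadingCoeff))) + q * c1 - 2 * Real.log (nv v g.leadingCoeff) := by
    intro v _
    rw [Finset.sum_sub_distrib, ← Finset.mul_sum]
    have h1 : ∑ w ∈ above L v, Real.log (sn w ![y, 1]) ≤ Real.log (vn v F) + c1 := by
      rcases v with v | v
      · have := quad_local_inf hL y hy v
        rw [← hF, ← hc1, abs_le] at this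
        linarith [this.2]
      · have := quad_local_fin hL y hy v
        rw [← hF] at this
        linarith
    have h2 : (q : ℝ) * ∑ w ∈ above L v, Real.log (sn w ![y, 1]) ≤ q * (Real.log (vn v F) + c1) :=
      mul_le_mul_of_nonneg_left h1 (Nat.cast_nonneg q)
    linarith
  have hsum := Finset.sum_le_sum hcmp
  rw [Finset.sum_sub_distrib, Finset.sum_add_distrib, Finset.sum_const, ← Finset.mul_sum, ← hlc] at hsum
  rw [Finset.sum_add_distrib, ← Finset.mul_sum] at hmain
  set A : ℝ := ∑ v ∈ S, (q * Real.log (vn v F) - (∑ w ∈ above L v, Real.log (nv w (aeval y g))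
        - 2 * Real.log (nv v g.leadingCoeff))) with hA
  set B : ℝ := ∑ v ∈ S, (∑ w ∈ above L v, (q * Real.log (sn w ![y, 1]) - Real.log (nv w (aeval y g)))) with hB
  rw [← Finset.sum_div, ← hB, hL]
  push_cast
  have hmain2 : α * ∑ v ∈ S, ldisc v F + A ≤ (2 + 2 * α + ε) * vH F + C0 / M := by
    have h3 : M * (α * ∑ v ∈ S, ldisc v F + A) ≤ M * ((2 + 2 * α + ε) * vH F + C0 / M) := by
      refine hmain.trans (le_of_eq ?_)
      rw [← hM]
      field_simp
    exact le_of_mul_le_mul_left h3 hM1
  have hh2 : vH F ≤ Height.logHeight ![y, 1] + NI * c1 := by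
    rw [abs_le] at hh
    linarith [hh.1]
  have h4 : (2 + ε) * vH F ≤ (2 + ε) * (Height.logHeight ![y, 1] + NI * c1) :=
    mul_le_mul_of_nonneg_left hh2 (by linarith)
  have h5 : α * ∑ v ∈ S, ldisc v F = α * (2 * vH F) - α * δ := by
    rw [← hqd]; ring
  rw [nsmul_eq_mul] at hsum
  linarith

/-- The main theorem, for an arbitrary quadratic extension `L` generated by `y`. -/
theorem fin_main (g : k[X]) (hg : Squarefree g) {q : ℕ} (hq1 : g.natDegree ≤ q)
    (hq2 : q ≤ g.natDegree + 1) (S : Finset (Pl k)) (hS : ∀ v : InfinitePlace k, Sum.inl v ∈ S)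
    (ε : ℝ) (hε : 0 < ε) :
    ∃ C : ℝ, ∀ (L : Type u) [Field L] [NumberField L] [Algebra k L] (y : L),
      Module.finrank k L = 2 → (minpoly k y).natDegree = 2 → aeval y g ≠ 0 →
      -(2 * (Height.logHeight ![y, 1] / Module.finrank k L)) +
        ∑ ν ∈ S, (∑ w ∈ above L ν, (q * Real.log (sn w ![y, 1]) - Real.log (nv w (aeval y g))))
          / Module.finrank k L
      ≤ ε * (Height.logHeight ![y, 1] / Module.finrank k L)
        + (∑ᶠ (v : FinitePlace k) (_ : Sum.inr v ∉ S), ldisc (.inr v) (qf k y)) / 2 + C := by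
  classical
  let K : Type u := g.SplittingField
  have hKnf : NumberField K := NumberField.of_module_finite k K
  obtain ⟨β, hβ, hβ2⟩ := split_data g hg K (SplittingField.splits g)
  obtain ⟨D, hD1, hD2, hD3⟩ := exists_pts β hβ hq1 hq2
  obtain ⟨C0, hC0⟩ := forms_main (S.biUnion (above K)) D hD1 hD2 ε hε
  obtain ⟨C, hC⟩ := fin_core g β hβ2 D hD3 S hS ε 1 hε (fun _ => True) C0 (by
    intro F _ hF1 hF2
    refine le_trans (le_of_eq ?_) ((hC0 F hF1 hF2).trans (le_of_eq ?_))
    · exact Finset.sum_congr rfl fun v _ => by ring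
    · ring)
  refine ⟨C, fun L _ _ _ y hL hy hgy => ?_⟩
  have := hC L y hL hy hgy trivial
  rw [one_mul] at this
  exact this

/-- a nonzero polynomial over `K` which vanishes at no `k`-rational point outside the zero set of
a nonzero polynomial over `k` -/
theorem descend (K : Type*) [Field K] [NumberField K] [Algebra k K] (Φ : MvPolynomial (Fin 3) K)
    (h0 : Φ ≠ 0) {N : ℕ} (hN : Φ.IsHomogeneous N) : ∃ Ψ : MvPolynomial (Fin 3) k, Ψ ≠ 0 ∧
    Ψ.IsHomogeneous N ∧ ∀ F : Fin 3 → k, MvPolynomial.eval F Ψ ≠ 0 →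
      MvPolynomial.eval (fun j => algebraMap k K (F j)) Φ ≠ 0 := by
  classical
  have hfd : FiniteDimensional k K := FiniteDimensional.right ℚ k K
  obtain ⟨d, hd⟩ := MvPolynomial.ne_zero_iff.mp h0
  let b := Module.finBasis k K
  have hb : ∃ i, b.coord i (Φ.coeff d) ≠ 0 := by
    by_contra h
    push Not at h
    exact hd (b.ext_elem fun i => by simpa using h i)
  obtain ⟨i, hi⟩ := hb
  let ψ : K →ₗ[k] k := b.coord i
  let Ψ : MvPolynomial (Fin 3) k := ∑ e ∈ Φ.support, MvPolynomial.monomial e (ψ (Φ.coeff e))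
  have hcoeff : ∀ e, Ψ.coeff e = ψ (Φ.coeff e) := by
    intro e
    have h1 : Ψ.coeff e = ∑ e' ∈ Φ.support, if e' = e then ψ (Φ.coeff e') else 0 := by
      rw [MvPolynomial.coeff_sum]
      exact Finset.sum_congr rfl fun e' _ => MvPolynomial.coeff_monomial _ _ _
    rw [h1, Finset.sum_ite_eq']
    split_ifs with h
    · rfl
    · rw [MvPolynomial.notMem_support_iff] at h
      rw [h, map_zero]
  refine ⟨Ψ, ?_, ?_, ?_⟩
  · intro h
    apply hi
    have := hcoeff d
    rw [h, MvPolynomial.coeff_zero] at this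
    exact this.symm
  · intro e he
    apply hN
    intro h
    apply he
    rw [hcoeff, h, map_zero]
  · intro F hF hΦ
    apply hF
    have h1 : ψ (MvPolynomial.eval (fun j => algebraMap k K (F j)) Φ) = MvPolynomial.eval F Ψ := by
      rw [MvPolynomial.eval_eq, map_sum, map_sum]
      refine Finset.sum_congr rfl fun e _ => ?_
      rw [MvPolynomial.eval_monomial]
      have h2 : Φ.coeff e * ∏ j ∈ e.support, algebraMap k K (F j) ^ e j
          = (∏ j ∈ e.support, F j ^ e j) • Φ.coeff e := by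
        rw [Algebra.smul_def, map_prod, mul_comm]
        congr 1
        exact Finset.prod_congr rfl fun j _ => (map_pow _ _ _).symm
      rw [h2, map_smul, smul_eq_mul, mul_comm]
      rfl
    rw [← h1, hΦ, map_zero]

/-- The sharper inequality outside a curve in the plane of binary quadratic forms. -/
theorem fin_generic (g : k[X]) (hg : Squarefree g) {q : ℕ} (hq1 : g.natDegree ≤ q)
    (hq2 : q ≤ g.natDegree + 1) (S : Finset (Pl k)) (hS : ∀ v : InfinitePlace k, Sum.inl v ∈ S)
    (ε : ℝ) (hε : 0 < ε) :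
    ∃ Φ : MvPolynomial (Fin 3) k, Φ ≠ 0 ∧ (∃ N, Φ.IsHomogeneous N) ∧
    ∃ C : ℝ, ∀ (L : Type u) [Field L] [NumberField L] [Algebra k L] (y : L),
      Module.finrank k L = 2 → (minpoly k y).natDegree = 2 → aeval y g ≠ 0 →
      MvPolynomial.eval (qf k y) Φ ≠ 0 →
      -(2 * (Height.logHeight ![y, 1] / Module.finrank k L)) +
        ∑ ν ∈ S, (∑ w ∈ above L ν, (q * Real.log (sn w ![y, 1]) - Real.log (nv w (aeval y g))))
          / Module.finrank k L
      ≤ ε * (Height.logHeight ![y, 1] / Module.finrank k L)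
        + (∑ᶠ (v : FinitePlace k) (_ : Sum.inr v ∉ S), ldisc (.inr v) (qf k y)) / 2 / 2 + C := by
  classical
  let K : Type u := g.SplittingField
  have hKnf : NumberField K := NumberField.of_module_finite k K
  obtain ⟨β, hβ, hβ2⟩ := split_data g hg K (SplittingField.splits g)
  obtain ⟨D, hD1, hD2, hD3⟩ := exists_pts β hβ hq1 hq2
  obtain ⟨Φ, hΦ0, ⟨N, hΦN⟩, C0, hC0⟩ := forms_generic (S.biUnion (above K)) D hD1 hD2 ε hε
  obtain ⟨Ψ, hΨ0, hΨN, hΨ⟩ := descend (k := k) K Φ hΦ0 hΦN
  obtain ⟨C, hC⟩ := fin_core g β hβ2 D hD3 S hS ε (1 / 2) hε (fun F => MvPolynomial.eval F Φ ≠ 0) C0 (by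
    intro F hF0 hF1 hF2
    refine le_trans (le_of_eq ?_) ((hC0 F hF0 hF1 hF2).trans (le_of_eq ?_))
    · exact Finset.sum_congr rfl fun v _ => by ring
    · ring)
  refine ⟨Ψ, hΨ0, ⟨N, hΨN⟩, C, fun L _ _ _ y hL hy hgy hΦy => ?_⟩
  have := hC L y hL hy hgy (hΨ _ hΦy)
  refine this.trans (le_of_eq ?_)
  ring

theorem finsum_cond {α : Type*} (p : α → Prop) (f : α → ℝ) (s : Finset α) (h1 : ∀ a, p a → f a ≠ 0 → a ∈ s)
    (h2 : ∀ a ∈ s, p a) : ∑ᶠ (a) (_ : p a), f a = ∑ a ∈ s, f a := by
  classical
  simp_rw [finsum_eq_if]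
  rw [finsum_eq_sum_of_support_subset (s := s)]
  · exact Finset.sum_congr rfl fun a ha => if_pos (h2 a ha)
  · intro a ha
    rw [Function.mem_support] at ha
    by_cases hp : p a
    · rw [if_pos hp] at ha
      exact h1 a hp ha
    · rw [if_neg hp] at ha
      exact absurd rfl ha

/-- The order part outside `S` of the discriminant of the form: `∑ ⌊ord_v(disc)/2⌋ log N v`. -/
noncomputable def idx (S : Finset (Pl k)) (F : Fin 3 → k) : ℝ :=
  ∑ᶠ (v : FinitePlace k) (_ : Sum.inr v ∉ S),
    (⌊ldisc (.inr v) F / (2 * Real.log (Ideal.absNorm v.maximalIdeal.asIdeal))⌋ : ℝ)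
      * Real.log (Ideal.absNorm v.maximalIdeal.asIdeal)

theorem delta_le {L : Type*} [Field L] [NumberField L] [Algebra k L] (y : L)
    (hL : Module.finrank k L = 2) (hy : (minpoly k y).natDegree = 2) (S : Finset (Pl k)) :
    (∑ᶠ (v : FinitePlace k) (_ : Sum.inr v ∉ S), ldisc (.inr v) (qf k y)) / 2
      ≤ (Real.log |(discr L : ℝ)| / Module.finrank k L - Real.log |(discr k : ℝ)|)
        + idx S (qf k y) := by
  classical
  set F := qf k y with hF
  have hdisc : F 1 ^ 2 - 4 * F 0 * F 2 ≠ 0 := quad_disc_ne y hy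
  have hFne : F ≠ 0 := by
    intro h
    rw [h] at hdisc
    simp at hdisc
  -- finitely many places matter
  have hfin : (Function.support fun v : FinitePlace k => ldisc (.inr v) F).Finite := by
    have h1 := (finS_vn hFne).const_mul 2
    have h2 := (h1.add (finS_nv hdisc).neg)
    refine Set.Finite.subset h2 fun v hv => ?_
    rw [Function.mem_support] at hv ⊢
    unfold ldisc at hv
    rw [sub_eq_add_neg] at hv
    exact hv
  choose n hn1 hn2 using fun v : FinitePlace k => ldisc_fin v F hdisc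
  have hN : ∀ v : FinitePlace k, 0 < Real.log (Ideal.absNorm v.maximalIdeal.asIdeal) := by
    intro v
    apply Real.log_pos
    have h1 : Ideal.absNorm v.maximalIdeal.asIdeal ≠ 0 := by
      rw [Ne, Ideal.absNorm_eq_zero_iff]; exact v.maximalIdeal.ne_bot
    have h2 : Ideal.absNorm v.maximalIdeal.asIdeal ≠ 1 := by
      rw [Ne, Ideal.absNorm_eq_one_iff]; exact v.maximalIdeal.isPrime.ne_top
    have h3 : 1 < Ideal.absNorm v.maximalIdeal.asIdeal := by omega
    exact_mod_cast h3
  set T : Finset (FinitePlace k) := hfin.toFinset.filter (fun v => Sum.inr v ∉ S) with hT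
  have hfloor : ∀ v : FinitePlace k,
      (⌊ldisc (.inr v) F / (2 * Real.log (Ideal.absNorm v.maximalIdeal.asIdeal))⌋ : ℝ) = ((n v / 2 : ℕ) : ℝ) := by
    intro v
    have h1 : ldisc (.inr v) F / (2 * Real.log (Ideal.absNorm v.maximalIdeal.asIdeal)) = (n v : ℝ) / (2 : ℕ) := by
      rw [hn1 v]
      have := (hN v).ne'
      field_simp
      push_cast
      ring
    rw [h1]
    have h2 : ⌊(n v : ℝ) / (2 : ℕ)⌋ = ((n v / 2 : ℕ) : ℤ) := by
      have h3 := Nat.floor_div_eq_div (K := ℝ) (n v) 2
      rw [← h3, Int.natCast_floor_eq_floor (by positivity)]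
    rw [h2]
    push_cast
    rfl
  have hs1 : ∑ᶠ (v : FinitePlace k) (_ : Sum.inr v ∉ S), ldisc (.inr v) F
      = ∑ v ∈ T, ldisc (.inr v) F := by
    refine finsum_cond _ _ T (fun v hv hne => ?_) (fun v hv => (Finset.mem_filter.mp hv).2)
    exact Finset.mem_filter.mpr ⟨hfin.mem_toFinset.mpr hne, hv⟩
  have hs2 : idx S F = ∑ v ∈ T, ((n v / 2 : ℕ) : ℝ) * Real.log (Ideal.absNorm v.maximalIdeal.asIdeal) := by
    unfold idx
    simp_rw [hfloor]
    refine finsum_cond _ _ T (fun v hv hne => ?_) (fun v hv => (Finset.mem_filter.mp hv).2)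
    refine Finset.mem_filter.mpr ⟨hfin.mem_toFinset.mpr ?_, hv⟩
    intro h0
    apply hne
    have h0' : ldisc (.inr v) F = 0 := h0
    rw [hn1 v] at h0'
    have h3 : (n v : ℝ) = 0 := (mul_eq_zero.mp h0').resolve_right (hN v).ne'
    have h4 : n v = 0 := by exact_mod_cast h3
    rw [h4]
    simp
  rw [hs1, hs2]
  set W := T.filter (fun v => Odd (n v)) with hW
  have hram := quad_ram hL y hy W (fun v hv => hn2 v (Finset.mem_filter.mp hv).2)
  have hsum : ∑ v ∈ T, ldisc (.inr v) F = 2 * ∑ v ∈ T, ((n v / 2 : ℕ) : ℝ) * Real.log (Ideal.absNorm v.maximalIdeal.asIdeal)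
      + ∑ v ∈ W, Real.log (Ideal.absNorm v.maximalIdeal.asIdeal) := by
    have hWs : ∑ v ∈ W, Real.log (Ideal.absNorm v.maximalIdeal.asIdeal)
        = ∑ v ∈ T, if Odd (n v) then Real.log (Ideal.absNorm v.maximalIdeal.asIdeal) else 0 :=
      Finset.sum_filter _ _
    rw [hWs, Finset.mul_sum, ← Finset.sum_add_distrib]
    refine Finset.sum_congr rfl fun v _ => ?_
    rw [hn1 v]
    split_ifs with h
    · obtain ⟨m, hm⟩ := h
      have h1 : n v / 2 = m := by omega
      rw [h1, hm]
      push_cast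
      ring
    · rw [Nat.not_odd_iff_even] at h
      obtain ⟨m, hm⟩ := h
      have h1 : n v / 2 = m := by omega
      rw [h1, hm]
      push_cast
      ring
  linarith

end fin

end Pool.Agent.V2
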