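import Pool.Agent.Helper21.V2.BB

/-!
# Block R1: the order of vanishing of a polynomial in one variable
-/

namespace Pool.Agent.V2

open NumberField Finset
open Pool.Agent.Helper64.Vojta (Pl nv)

variable {K : Type*} [Field K] [NumberField K]

theorem logHeight₁_gsum (ξ : K) :
    Height.logHeight₁ ξ = gsum (fun v => Real.log (Helper64.Vojta.sn v ![ξ, 1])) := by
  have hne : (![ξ, 1] : Fin 2 → K) ≠ 0 := by
    intro h
    have := congrFun h 1
    simp at this
  rw [Height.logHeight₁_eq_logHeight, Helper64.Vojta.logHeight_eq hne]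
  rfl

theorem finS_sn (ξ : K) : FinS (fun v : Pl K => Real.log (Helper64.Vojta.sn v ![ξ, 1])) := by
  have hne : (![ξ, 1] : Fin 2 → K) ≠ 0 := by
    intro h
    have := congrFun h 1
    simp at this
  exact Helper64.Vojta.log_support _ (Helper64.Vojta.fin_support_sn hne)

theorem sn_pair_le (v : Pl K) (ξ : K) : Helper64.Vojta.sn v ![ξ, 1] ≤ max 1 (nv v ξ) := by
  apply Helper64.Vojta.sn_le _ _ _ (le_trans zero_le_one (le_max_left _ _))
  intro i
  fin_cases i
  · exact le_max_right _ _
  · change nv v (1 : K) ≤ _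
    rw [Helper64.Vojta.nv_one]
    exact le_max_left _ _

/-- finite places. -/
theorem one_var_inr (v : FinitePlace K) (p : Polynomial K) (ξ : K) (l : ℕ)
    (h : (Polynomial.X - Polynomial.C ξ) ^ l ∣ p) :
    max 1 (nv (.inr v) ξ) ^ l * nv (.inr v) p.leadingCoeff ≤ pn1 (.inr v) p := by
  obtain ⟨R, hR⟩ := h
  have hna : IsNonarchimedean v.1 := fun x y => FinitePlace.add_le v x y
  have h1 : p.gaussNorm v.1 1 ≤ pn1 (.inr v) p := by
    obtain ⟨i, hi⟩ := p.exists_eq_gaussNorm v.1 1
    rw [hi, one_pow, mul_one]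
    exact le_pn1 (.inr v) p i
  have h2 : ∀ (n : ℕ) (Q : Polynomial K), (((Polynomial.X - Polynomial.C ξ) ^ n * Q).gaussNorm v.1 1) =
      (Polynomial.X - Polynomial.C ξ : Polynomial K).gaussNorm v.1 1 ^ n * Q.gaussNorm v.1 1 := by
    intro n
    induction n with
    | zero => intro Q; rw [pow_zero, one_mul, pow_zero, one_mul]
    | succ n ih =>
      intro Q
      rw [pow_succ, mul_assoc, ih, Polynomial.gaussNorm_mul hna one_pos, pow_succ]
      ring
  have h3 : max 1 (nv (.inr v) ξ) ≤ (Polynomial.X - Polynomial.C ξ : Polynomial K).gaussNorm v.1 1 := by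
    apply max_le
    · have := (Polynomial.X - Polynomial.C ξ : Polynomial K).le_gaussNorm v.1 (c := 1) zero_le_one 1
      simpa using this
    · have := (Polynomial.X - Polynomial.C ξ : Polynomial K).le_gaussNorm v.1 (c := 1) zero_le_one 0
      rw [pow_zero, mul_one] at this
      simp only [Polynomial.coeff_sub, Polynomial.coeff_X_zero, Polynomial.coeff_C_zero, zero_sub,
        AbsoluteValue.map_neg] at this
      exact this
  have h4 : nv (.inr v) R.leadingCoeff ≤ R.gaussNorm v.1 1 := by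
    have := R.le_gaussNorm v.1 (c := 1) zero_le_one R.natDegree
    rw [one_pow, mul_one] at this
    exact this
  have h5 : p.leadingCoeff = R.leadingCoeff := by
    rw [hR, Polynomial.leadingCoeff_mul, Polynomial.leadingCoeff_pow, Polynomial.leadingCoeff_X_sub_C,
      one_pow, one_mul]
  rw [h5]
  refine le_trans ?_ h1
  rw [hR, h2]
  exact mul_le_mul (pow_le_pow_left₀ (le_trans zero_le_one (le_max_left _ _)) h3 l) h4
    (Helper64.Vojta.nv_nonneg _ _) (pow_nonneg (Polynomial.gaussNorm_nonneg _ _ zero_le_one) _)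

/-- infinite places. -/
theorem one_var_inl (v : InfinitePlace K) (p : Polynomial K) (ξ : K) (l : ℕ)
    (h : (Polynomial.X - Polynomial.C ξ) ^ l ∣ p) :
    max 1 (nv (.inl v) ξ) ^ l * nv (.inl v) p.leadingCoeff ≤
      ((p.natDegree : ℝ) + 1) ^ v.mult * pn1 (.inl v) p := by
  obtain ⟨R, hR⟩ := h
  set φ := v.embedding with hφ
  have hv : ∀ x : K, v x = ‖φ x‖ := fun x => (InfinitePlace.norm_embedding_eq v x).symm
  -- sup of the ordinary absolute values
  have hinj : Function.Injective φ := φ.injective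
  set q := p.map φ with hq
  have hq2 : q = (Polynomial.X - Polynomial.C (φ ξ)) ^ l * R.map φ := by
    rw [hq, hR, Polynomial.map_mul, Polynomial.map_pow, Polynomial.map_sub, Polynomial.map_X,
      Polynomial.map_C]
  have h5 : p.leadingCoeff = R.leadingCoeff := by
    rw [hR, Polynomial.leadingCoeff_mul, Polynomial.leadingCoeff_pow, Polynomial.leadingCoeff_X_sub_C,
      one_pow, one_mul]
  have hM : max 1 ‖φ ξ‖ ^ l * ‖(R.map φ).leadingCoeff‖ ≤ q.mahlerMeasure := by
    have h2 : ∀ (n : ℕ) (Q : Polynomial ℂ), ((Polynomial.X - Polynomial.C (φ ξ)) ^ n * Q).mahlerMeasure =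
        max 1 ‖φ ξ‖ ^ n * Q.mahlerMeasure := by
      intro n
      induction n with
      | zero => intro Q; rw [pow_zero, one_mul, pow_zero, one_mul]
      | succ n ih =>
        intro Q
        rw [pow_succ, mul_assoc, ih, Polynomial.mahlerMeasure_mul, Polynomial.mahlerMeasure_X_sub_C,
          pow_succ]
        ring
    rw [hq2, h2]
    exact mul_le_mul_of_nonneg_left (Polynomial.leadingCoeff_le_mahlerMeasure _)
      (pow_nonneg (le_trans zero_le_one (le_max_left _ _)) _)
  rw [Polynomial.leadingCoeff_map_of_injective hinj] at hM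
  -- the bound for the Mahler measure
  have hm : v.mult = 1 ∨ v.mult = 2 := by
    unfold InfinitePlace.mult; split_ifs <;> simp
  have hm0 : v.mult ≠ 0 := v.mult_ne_zero
  obtain ⟨B, hB0, hB, hBm⟩ : ∃ B : ℝ, 0 ≤ B ∧ (∀ i, ‖φ (p.coeff i)‖ ≤ B) ∧ B ^ v.mult = pn1 (.inl v) p := by
    have hnn : 0 ≤ pn1 (.inl v) p := (Helper64.Vojta.nv_nonneg _ _).trans (le_pn1 (.inl v) p 0)
    refine ⟨(pn1 (.inl v) p) ^ ((v.mult : ℝ)⁻¹), Real.rpow_nonneg hnn _, ?_, ?_⟩
    · intro i
      have h1 := le_pn1 (.inl v) p i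
      have h2 : nv (.inl v) (p.coeff i) = ‖φ (p.coeff i)‖ ^ v.mult := by
        change v (p.coeff i) ^ v.mult = _
        rw [hv]
      rw [h2] at h1
      have h3 := Real.rpow_le_rpow (pow_nonneg (norm_nonneg _) _) h1 (inv_nonneg.2 (Nat.cast_nonneg v.mult))
      rwa [Real.pow_rpow_inv_natCast (norm_nonneg _) hm0] at h3
    · rw [Real.rpow_inv_natCast_pow hnn hm0]
  have hM2 : q.mahlerMeasure ≤ ((p.natDegree : ℝ) + 1) * B := by
    refine (Polynomial.mahlerMeasure_le_sum_norm_coeff q).trans ?_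
    rw [Polynomial.sum_over_range]
    · have hdeg : q.natDegree = p.natDegree := Polynomial.natDegree_map_eq_of_injective hinj p
      rw [hdeg]
      calc ∑ a ∈ Finset.range (p.natDegree + 1), ‖q.coeff a‖ ≤ ∑ a ∈ Finset.range (p.natDegree + 1), B := by
            apply Finset.sum_le_sum
            intro i _
            rw [hq, Polynomial.coeff_map]
            exact hB i
        _ = ((p.natDegree : ℝ) + 1) * B := by
            rw [Finset.sum_const, Finset.card_range, nsmul_eq_mul]
            push_cast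
            ring
    · intro n; exact norm_zero
  have hfin : max 1 ‖φ ξ‖ ^ l * ‖φ R.leadingCoeff‖ ≤ ((p.natDegree : ℝ) + 1) * B := hM.trans hM2
  have hpow := pow_le_pow_left₀ (mul_nonneg (pow_nonneg (le_trans zero_le_one (le_max_left _ _)) l)
    (norm_nonneg _)) hfin v.mult
  rw [mul_pow, mul_pow, hBm, ← pow_mul, mul_comm l, pow_mul] at hpow
  rw [h5]
  have e1 : max 1 ‖φ ξ‖ ^ v.mult = max 1 (nv (.inl v) ξ) := by
    change _ = max 1 (v ξ ^ v.mult)
    rw [hv]
    rcases le_total 1 ‖φ ξ‖ with h1 | h1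
    · rw [max_eq_right h1, max_eq_right (one_le_pow₀ h1)]
    · rw [max_eq_left h1, max_eq_left (pow_le_one₀ (norm_nonneg _) h1), one_pow]
  have e2 : ‖φ R.leadingCoeff‖ ^ v.mult = nv (.inl v) R.leadingCoeff := by
    change _ = v R.leadingCoeff ^ v.mult
    rw [hv]
  rw [e1, e2] at hpow
  exact hpow

/-- R1. -/
theorem one_var (p : Polynomial K) (hp : p ≠ 0) (ξ : K) (l : ℕ)
    (h : (Polynomial.X - Polynomial.C ξ) ^ l ∣ p) :
    l * Height.logHeight₁ ξ ≤ pH1 p + Module.finrank ℚ K * Real.log (p.natDegree + 1) := by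
  have hlc : p.leadingCoeff ≠ 0 := Polynomial.leadingCoeff_ne_zero.2 hp
  let g : Pl K → ℝ := fun v => match v with
    | .inl v => v.mult * Real.log (p.natDegree + 1)
    | .inr _ => 0
  have hg : FinS g := by
    unfold FinS
    have : (Function.support fun v : FinitePlace K => g (.inr v)) = ∅ := by
      ext v
      simp [g]
    rw [this]
    exact Set.finite_empty
  have hloc : ∀ v : Pl K, (l : ℝ) * Real.log (Helper64.Vojta.sn v ![ξ, 1]) +
      Real.log (nv v p.leadingCoeff) ≤ Real.log (pn1 v p) + g v := by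
    intro v
    have hne : (![ξ, 1] : Fin 2 → K) ≠ 0 := by
      intro h
      have := congrFun h 1
      simp at this
    have hsn := Helper64.Vojta.sn_pos v hne
    have hlcp := Helper64.Vojta.nv_pos v hlc
    have h1 : (l : ℝ) * Real.log (Helper64.Vojta.sn v ![ξ, 1]) ≤ Real.log (max 1 (nv v ξ) ^ l) := by
      rw [Real.log_pow]
      exact mul_le_mul_of_nonneg_left (Real.log_le_log hsn (sn_pair_le v ξ)) (Nat.cast_nonneg l)
    have hmaxpos : 0 < max 1 (nv v ξ) ^ l := pow_pos (lt_of_lt_of_le one_pos (le_max_left _ _)) l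
    have h2 : (l : ℝ) * Real.log (Helper64.Vojta.sn v ![ξ, 1]) + Real.log (nv v p.leadingCoeff) ≤
        Real.log (max 1 (nv v ξ) ^ l * nv v p.leadingCoeff) := by
      rw [Real.log_mul hmaxpos.ne' hlcp.ne']
      linarith
    refine h2.trans ?_
    rcases v with v | v
    · have h3 := one_var_inl v p ξ l h
      have h4 := Real.log_le_log (mul_pos hmaxpos hlcp) h3
      have hd : (0 : ℝ) < (p.natDegree : ℝ) + 1 := by positivity
      rw [Real.log_mul (pow_pos hd _).ne' (pn1_pos (.inl v) hp).ne', Real.log_pow] at h4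
      change _ ≤ Real.log (pn1 (.inl v) p) + v.mult * Real.log (p.natDegree + 1)
      linarith
    · have h3 := one_var_inr v p ξ l h
      have h4 := Real.log_le_log (mul_pos hmaxpos hlcp) h3
      change _ ≤ Real.log (pn1 (.inr v) p) + 0
      linarith
  have hF1 : FinS (fun v : Pl K => (l : ℝ) * Real.log (Helper64.Vojta.sn v ![ξ, 1])) :=
    (finS_sn ξ).const_mul l
  have hF2 := finS_nv hlc
  have hF3 := finS_pn1 hp
  have hsum := gsum_mono (hF1.add hF2) (hF3.add hg) hloc
  rw [gsum_add hF1 hF2, gsum_add hF3 hg, gsum_const_mul, gsum_nv hlc, ← logHeight₁_gsum, add_zero] at hsum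
  have hginf : gsum g = Module.finrank ℚ K * Real.log (p.natDegree + 1) := gsum_inf _
  rw [hginf] at hsum
  exact hsum

end Pool.Agent.V2
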