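import Pool.Agent.Helper21.V2.Defs

/-!
# Block R2: generalised Wronskians
-/

namespace Pool.Agent.V2

open NumberField Finset
open Pool.Agent.Helper64.Vojta (Pl nv)

set_option linter.unusedVariables false

section general

variable {K : Type*} [Field K] {σ : Type*}

/-- products of binomial coefficients -/
def r2_bino [Fintype σ] (K : Type*) [Field K] (μ d : σ →₀ ℕ) : K :=
  ((∏ i, (d i).choose (μ i) : ℕ) : K)

theorem r2_bino_eq_zero [Fintype σ] {μ d : σ →₀ ℕ} (h : ¬ μ ≤ d) : r2_bino K μ d = 0 := by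
  rw [Finsupp.le_def] at h
  push Not at h
  obtain ⟨i, hi⟩ := h
  unfold r2_bino
  rw [Finset.prod_eq_zero (Finset.mem_univ i) (Nat.choose_eq_zero_of_lt hi), Nat.cast_zero]

theorem r2_coeff_mono_mul_dd [Fintype σ] (q : σ →₀ ℕ) (p : MvPolynomial σ K) (d : σ →₀ ℕ) :
    (MvPolynomial.monomial q (1 : K) * dd q p).coeff d = p.coeff d * r2_bino K q d := by
  classical
  unfold dd
  rw [Finset.mul_sum, MvPolynomial.coeff_sum]
  have h1 : ∀ e ∈ p.support, MvPolynomial.coeff d (MvPolynomial.monomial q (1 : K) *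
      MvPolynomial.monomial (e - q) (p.coeff e * ((∏ i, (e i).choose (q i) : ℕ) : K))) =
      if e = d then p.coeff d * r2_bino K q d else 0 := by
    intro e _
    rw [MvPolynomial.monomial_mul, one_mul, MvPolynomial.coeff_monomial]
    change (if q + (e - q) = d then p.coeff e * r2_bino K q e else 0) = _
    by_cases hq : q ≤ e
    · rw [add_tsub_cancel_of_le hq]
      by_cases he : e = d
      · rw [if_pos he, if_pos he, he]
      · rw [if_neg he, if_neg he]
    · rw [r2_bino_eq_zero hq, mul_zero, ite_self]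
      by_cases he : e = d
      · rw [if_pos he, ← he, r2_bino_eq_zero hq, mul_zero]
      · rw [if_neg he]
  rw [Finset.sum_congr rfl h1, Finset.sum_ite_eq' p.support d]
  by_cases hd : d ∈ p.support
  · rw [if_pos hd]
  · rw [if_neg hd, MvPolynomial.notMem_support_iff.1 hd, zero_mul]

theorem r2_dd_add' [Fintype σ] (q : σ →₀ ℕ) (p p' : MvPolynomial σ K) :
    dd q (p + p') = dd q p + dd q p' := by
  have h : MvPolynomial.monomial q (1 : K) ≠ 0 := by
    rw [Ne, MvPolynomial.monomial_eq_zero]
    exact one_ne_zero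
  apply mul_left_cancel₀ h
  apply MvPolynomial.ext
  intro d
  rw [mul_add, MvPolynomial.coeff_add, r2_coeff_mono_mul_dd, r2_coeff_mono_mul_dd, r2_coeff_mono_mul_dd,
    MvPolynomial.coeff_add, add_mul]

theorem r2_dd_smul' [Fintype σ] (q : σ →₀ ℕ) (c : K) (p : MvPolynomial σ K) :
    dd q (c • p) = c • dd q p := by
  have h : MvPolynomial.monomial q (1 : K) ≠ 0 := by
    rw [Ne, MvPolynomial.monomial_eq_zero]
    exact one_ne_zero
  apply mul_left_cancel₀ h
  apply MvPolynomial.ext
  intro d
  rw [mul_smul_comm, MvPolynomial.coeff_smul, r2_coeff_mono_mul_dd, r2_coeff_mono_mul_dd,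
    MvPolynomial.coeff_smul, smul_eq_mul, smul_eq_mul, mul_assoc]

/-- `dd q` as a linear map. -/
noncomputable def r2_ddL [Fintype σ] (q : σ →₀ ℕ) : MvPolynomial σ K →ₗ[K] MvPolynomial σ K where
  toFun := dd q
  map_add' := r2_dd_add' q
  map_smul' := r2_dd_smul' q

theorem r2_ddL_apply [Fintype σ] (q : σ →₀ ℕ) (p : MvPolynomial σ K) : r2_ddL q p = dd q p := rfl

/-! ### distinct degrees -/

theorem r2_distinct_degrees (m : MonomialOrder σ) : ∀ (k : ℕ) (f : Fin k → MvPolynomial σ K),
    LinearIndependent K f → ∃ g : Fin k → MvPolynomial σ K,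
      (∀ j, g j ∈ Submodule.span K (Set.range f)) ∧ (∀ j, g j ≠ 0) ∧
      Function.Injective (fun j => m.degree (g j)) := by
  intro k
  induction k with
  | zero =>
    intro f _
    exact ⟨f, fun j => j.elim0, fun j => j.elim0, fun j => j.elim0⟩
  | succ k ih =>
    intro f hf
    set a := m.degree (f 0) with ha
    have hf0 : f 0 ≠ 0 := hf.ne_zero 0
    have hc : (f 0).coeff a ≠ 0 := m.coeff_degree_ne_zero_iff.2 hf0
    let h : Fin k → MvPolynomial σ K := fun j =>
      f j.succ - ((f j.succ).coeff a / (f 0).coeff a) • f 0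
    have hh : LinearIndependent K h := by
      rw [Fintype.linearIndependent_iff] at hf ⊢
      intro c hc0 i
      have h2 := hf (Fin.cons (-∑ j, c j * ((f j.succ).coeff a / (f 0).coeff a)) c) (by
        rw [Fin.sum_univ_succ]
        simp only [Fin.cons_zero, Fin.cons_succ]
        have h3 : ∑ j, c j • h j = ∑ j, c j • f j.succ -
            (∑ j, c j * ((f j.succ).coeff a / (f 0).coeff a)) • f 0 := by
          rw [Finset.sum_smul, ← Finset.sum_sub_distrib]
          refine Finset.sum_congr rfl fun j _ => ?_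
          rw [smul_sub, smul_smul]
        rw [hc0] at h3
        rw [neg_smul]
        linear_combination (exp := 1) -h3) i.succ
      simpa using h2
    obtain ⟨g, hg1, hg2, hg3⟩ := ih h hh
    have hspan : Submodule.span K (Set.range h) ≤ Submodule.span K (Set.range f) := by
      rw [Submodule.span_le]
      rintro _ ⟨j, rfl⟩
      exact sub_mem (Submodule.subset_span ⟨j.succ, rfl⟩)
        (Submodule.smul_mem _ _ (Submodule.subset_span ⟨0, rfl⟩))
    have hcoef : ∀ x ∈ Submodule.span K (Set.range h), x.coeff a = 0 := by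
      intro x hx
      induction hx using Submodule.span_induction with
      | mem x hx =>
        obtain ⟨j, rfl⟩ := hx
        simp only [h, MvPolynomial.coeff_sub, MvPolynomial.coeff_smul, smul_eq_mul]
        rw [div_mul_cancel₀ _ hc, sub_self]
      | zero => exact MvPolynomial.coeff_zero _
      | add x y _ _ hx hy => rw [MvPolynomial.coeff_add, hx, hy, add_zero]
      | smul c x _ hx => rw [MvPolynomial.coeff_smul, hx, smul_zero]
    refine ⟨Fin.cons (f 0) g, ?_, ?_, ?_⟩
    · intro j
      refine Fin.cases ?_ (fun j => ?_) j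
      · exact Submodule.subset_span ⟨0, rfl⟩
      · exact hspan (hg1 j)
    · intro j
      refine Fin.cases hf0 (fun j => hg2 j) j
    · have : (fun j => m.degree ((Fin.cons (f 0) g : Fin (k + 1) → MvPolynomial σ K) j)) =
          Fin.cons (m.degree (f 0)) (fun j => m.degree (g j)) := by
        funext j
        refine Fin.cases rfl (fun j => rfl) j
      rw [this, Fin.cons_injective_iff]
      refine ⟨?_, hg3⟩
      rintro ⟨j, hj⟩
      have h4 : (g j).coeff a = 0 := hcoef _ (hg1 j)
      have h5 : m.degree (g j) = a := hj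
      rw [← h5] at h4
      exact (m.coeff_degree_ne_zero_iff.2 (hg2 j)) h4

/-! ### leading coefficients of products -/

theorem r2_coeff_prod_of_le (m : MonomialOrder σ) {α : Type*} (s : Finset α)
    (P : α → MvPolynomial σ K) (a : α → σ →₀ ℕ)
    (h : ∀ i ∈ s, m.toSyn (m.degree (P i)) ≤ m.toSyn (a i)) :
    m.toSyn (m.degree (∏ i ∈ s, P i)) ≤ m.toSyn (∑ i ∈ s, a i) ∧
      (∏ i ∈ s, P i).coeff (∑ i ∈ s, a i) = ∏ i ∈ s, (P i).coeff (a i) := by
  classical
  induction s using Finset.induction_on with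
  | empty =>
    simp only [Finset.prod_empty, Finset.sum_empty]
    refine ⟨?_, ?_⟩
    · rw [← MvPolynomial.C_1, m.degree_C]
    · exact MvPolynomial.coeff_zero_one
  | insert b s hb ih =>
    obtain ⟨ih1, ih2⟩ := ih fun i hi => h i (Finset.mem_insert_of_mem hi)
    have hb' := h b (Finset.mem_insert_self _ _)
    rw [Finset.prod_insert hb, Finset.sum_insert hb, Finset.prod_insert hb]
    refine ⟨?_, ?_⟩
    · refine le_trans m.degree_mul_le ?_
      rw [map_add, map_add]
      exact add_le_add hb' ih1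
    · rw [m.coeff_mul_of_add_of_degree_le hb' ih1, ih2]

/-! ### interpolation by products of binomial coefficients -/

/-- span of the functions `r2_bino μ` with `|μ| ≤ k` -/
noncomputable def r2_FF (K : Type*) [Field K] (σ : Type*) [Fintype σ] (k : ℕ) :
    Submodule K ((σ →₀ ℕ) → K) :=
  Submodule.span K {ψ | ∃ μ : σ →₀ ℕ, ∑ h, μ h ≤ k ∧ ψ = r2_bino K μ}

theorem r2_choose_rec (d m : ℕ) : d * d.choose m = (m + 1) * d.choose (m + 1) + m * d.choose m := by
  have h := Nat.choose_succ_right_eq d m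
  rcases le_or_gt m d with hm | hm
  · obtain ⟨e, rfl⟩ := Nat.exists_eq_add_of_le hm
    rw [Nat.add_sub_cancel_left] at h
    linarith
  · rw [Nat.choose_eq_zero_of_lt hm, Nat.choose_eq_zero_of_lt (by omega)]
    simp

theorem r2_bino_rec [Fintype σ] [DecidableEq σ] (μ d : σ →₀ ℕ) (h : σ) :
    (d h : K) * r2_bino K μ d = ((μ h : K) + 1) * r2_bino K (μ + Finsupp.single h 1) d +
      (μ h : K) * r2_bino K μ d := by
  have h1 : r2_bino K μ d = ((d h).choose (μ h) : K) *
      ((∏ i ∈ Finset.univ.erase h, (d i).choose (μ i) : ℕ) : K) := by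
    unfold r2_bino
    rw [← Finset.mul_prod_erase _ _ (Finset.mem_univ h), Nat.cast_mul]
  have h2 : r2_bino K (μ + Finsupp.single h 1) d = ((d h).choose (μ h + 1) : K) *
      ((∏ i ∈ Finset.univ.erase h, (d i).choose (μ i) : ℕ) : K) := by
    unfold r2_bino
    rw [← Finset.mul_prod_erase _ _ (Finset.mem_univ h), Nat.cast_mul]
    have h3 : (μ + Finsupp.single h 1 : σ →₀ ℕ) h = μ h + 1 := by simp
    have h4 : ∏ i ∈ Finset.univ.erase h, (d i).choose ((μ + Finsupp.single h 1 : σ →₀ ℕ) i) =
        ∏ i ∈ Finset.univ.erase h, (d i).choose (μ i) := by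
      refine Finset.prod_congr rfl fun i hi => ?_
      have : i ≠ h := Finset.ne_of_mem_erase hi
      simp [this.symm]
    rw [h3, h4]
  rw [h1, h2]
  have h3 := congrArg (fun t : ℕ => (t : K)) (r2_choose_rec (d h) (μ h))
  simp only [Nat.cast_add, Nat.cast_mul, Nat.cast_one] at h3
  linear_combination ((∏ i ∈ Finset.univ.erase h, (d i).choose (μ i) : ℕ) : K) * h3

theorem r2_FF_mono [Fintype σ] {k l : ℕ} (h : k ≤ l) : r2_FF K σ k ≤ r2_FF K σ l := by
  refine Submodule.span_mono ?_
  rintro ψ ⟨μ, hμ, rfl⟩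
  exact ⟨μ, hμ.trans h, rfl⟩

theorem r2_FF_mul [Fintype σ] [DecidableEq σ] {k : ℕ} {ψ : (σ →₀ ℕ) → K} (hψ : ψ ∈ r2_FF K σ k)
    (h : σ) (c : K) : (fun d : σ →₀ ℕ => ((d h : K) - c) * ψ d) ∈ r2_FF K σ (k + 1) := by
  induction hψ using Submodule.span_induction with
  | mem ψ hψ =>
    obtain ⟨μ, hμ, rfl⟩ := hψ
    have h1 : (fun d : σ →₀ ℕ => ((d h : K) - c) * r2_bino K μ d) =
        ((μ h : K) + 1) • r2_bino K (μ + Finsupp.single h 1) + ((μ h : K) - c) • r2_bino K μ := by
      funext d
      simp only [Pi.add_apply, Pi.smul_apply, smul_eq_mul]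
      linear_combination r2_bino_rec (K := K) μ d h
    rw [h1]
    refine add_mem (Submodule.smul_mem _ _ (Submodule.subset_span ⟨_, ?_, rfl⟩))
      (Submodule.smul_mem _ _ (r2_FF_mono (Nat.le_succ k) (Submodule.subset_span ⟨_, hμ, rfl⟩)))
    simp only [Finsupp.add_apply, Finset.sum_add_distrib]
    have : ∑ x, (Finsupp.single h 1 : σ →₀ ℕ) x = 1 := by
      simp [Finsupp.single_apply]
    omega
  | zero =>
    have : (fun d : σ →₀ ℕ => ((d h : K) - c) * (0 : (σ →₀ ℕ) → K) d) = 0 := by
      funext d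
      simp
    rw [this]
    exact zero_mem _
  | add x y _ _ hx hy =>
    have : (fun d : σ →₀ ℕ => ((d h : K) - c) * (x + y) d) =
        (fun d => ((d h : K) - c) * x d) + (fun d => ((d h : K) - c) * y d) := by
      funext d
      simp [mul_add]
    rw [this]
    exact add_mem hx hy
  | smul a x _ hx =>
    have : (fun d : σ →₀ ℕ => ((d h : K) - c) * (a • x) d) =
        a • (fun d => ((d h : K) - c) * x d) := by
      funext d
      simp only [Pi.smul_apply, smul_eq_mul]
      ring
    rw [this]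
    exact Submodule.smul_mem _ _ hx

theorem r2_FF_prod [Fintype σ] [DecidableEq σ] {α : Type*} (T : Finset α) (h : α → σ) (c : α → K) :
    (fun d : σ →₀ ℕ => ∏ t ∈ T, ((d (h t) : K) - c t)) ∈ r2_FF K σ T.card := by
  classical
  induction T using Finset.induction_on with
  | empty =>
    simp only [Finset.prod_empty, Finset.card_empty]
    refine Submodule.subset_span ⟨0, by simp, ?_⟩
    funext d
    simp [r2_bino]
  | insert a T ha ih =>
    simp only [Finset.prod_insert ha, Finset.card_insert_of_notMem ha]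
    exact r2_FF_mul ih (h a) (c a)

theorem r2_exists_bino_det [Fintype σ] [CharZero K] {s : ℕ} (a : Fin (s + 1) → (σ →₀ ℕ))
    (ha : Function.Injective a) :
    ∃ μ : Fin (s + 1) → (σ →₀ ℕ), (∀ i, ∑ h, μ i h ≤ s) ∧
      Matrix.det (Matrix.of fun i j => r2_bino K (μ i) (a j)) ≠ 0 := by
  classical
  let r : ((σ →₀ ℕ) → K) →ₗ[K] (Fin (s + 1) → K) := LinearMap.funLeft K K a
  let S : Set (Fin (s + 1) → K) := {v | ∃ μ : σ →₀ ℕ, ∑ h, μ h ≤ s ∧ v = fun j => r2_bino K μ (a j)}
  have hS : Submodule.span K S = (r2_FF K σ s).map r := by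
    unfold r2_FF
    rw [Submodule.map_span]
    congr 1
    ext v
    constructor
    · rintro ⟨μ, hμ, rfl⟩
      exact ⟨r2_bino K μ, ⟨μ, hμ, rfl⟩, rfl⟩
    · rintro ⟨_, ⟨μ, hμ, rfl⟩, rfl⟩
      exact ⟨μ, hμ, rfl⟩
  have htop : Submodule.span K S = ⊤ := by
    rw [hS, eq_top_iff, ← (Pi.basisFun K (Fin (s + 1))).span_eq, Submodule.span_le]
    rintro _ ⟨j0, rfl⟩
    have hex : ∀ j : {j : Fin (s + 1) // j ≠ j0}, ∃ h : σ, a j h ≠ a j0 h := by
      intro j
      by_contra! hcon
      exact j.2 (ha (Finsupp.ext hcon))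
    choose h hh using hex
    let ψ : (σ →₀ ℕ) → K := fun d =>
      ∏ t : {j : Fin (s + 1) // j ≠ j0}, ((d (h t) : K) - (a t (h t) : K))
    have hψ : ψ ∈ r2_FF K σ s := by
      have := r2_FF_prod (K := K) (Finset.univ : Finset {j : Fin (s + 1) // j ≠ j0}) h
        (fun t => (a t (h t) : K))
      have hc : (Finset.univ : Finset {j : Fin (s + 1) // j ≠ j0}).card = s := by
        rw [Finset.card_univ, Fintype.card_subtype_compl, Fintype.card_fin]
        simp
      rwa [hc] at this
    have h0 : ψ (a j0) ≠ 0 := by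
      refine Finset.prod_ne_zero_iff.2 fun t ht => ?_
      rw [sub_ne_zero]
      exact fun hcon => hh t (Nat.cast_injective hcon).symm
    have h1 : ∀ j, j ≠ j0 → ψ (a j) = 0 := by
      intro j hj
      exact Finset.prod_eq_zero (Finset.mem_univ (⟨j, hj⟩ : {j : Fin (s + 1) // j ≠ j0}))
        (sub_self _)
    refine ⟨(ψ (a j0))⁻¹ • ψ, Submodule.smul_mem _ _ hψ, ?_⟩
    funext j
    rw [map_smul, Pi.smul_apply, Pi.basisFun_apply]
    change (ψ (a j0))⁻¹ • ψ (a j) = _
    by_cases hj : j = j0
    · rw [hj, smul_eq_mul, inv_mul_cancel₀ h0, Pi.single_eq_same]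
    · rw [h1 j hj, smul_zero, Pi.single_eq_of_ne hj]
  have hfr : Module.finrank K (Submodule.span K S) = s + 1 := by
    rw [htop, finrank_top, Module.finrank_pi, Fintype.card_fin]
  obtain ⟨f, hf1, -, hf2⟩ := Submodule.exists_fun_fin_finrank_span_eq K S
  let f' : Fin (s + 1) → Fin (s + 1) → K := fun i => f (Fin.cast hfr.symm i)
  have hf2' : LinearIndependent K f' := hf2.comp _ (Fin.cast_injective _)
  choose μ hμ1 hμ2 using fun i => hf1 (Fin.cast hfr.symm i)
  refine ⟨μ, hμ1, ?_⟩
  have hM : (Matrix.of fun i j => r2_bino K (μ i) (a j)) = Matrix.of f' := by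
    ext i j
    exact (congrFun (hμ2 i) j).symm
  rw [hM]
  have hu : IsUnit (Matrix.of f') := by
    rw [← Matrix.linearIndependent_rows_iff_isUnit]
    exact hf2'
  exact ((Matrix.isUnit_iff_isUnit_det _).1 hu).ne_zero

/-- Generalised Wronskians, for any field of characteristic zero. -/
theorem r2_wronsk_aux [Fintype σ] [CharZero K] (m : MonomialOrder σ) {s : ℕ}
    (f : Fin (s + 1) → MvPolynomial σ K) (hf : LinearIndependent K f) :
    ∃ μ : Fin (s + 1) → (σ →₀ ℕ), (∀ i, ∑ h, μ i h ≤ s) ∧
      Matrix.det (Matrix.of fun i j => dd (μ i) (f j)) ≠ 0 := by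
  classical
  obtain ⟨g, hg1, hg2, hg3⟩ := r2_distinct_degrees m (s + 1) f hf
  obtain ⟨μ, hμ, hdet⟩ := r2_exists_bino_det (K := K) (fun j => m.degree (g j)) hg3
  refine ⟨μ, hμ, fun h0 => ?_⟩
  -- the determinant for `g`
  have hg : ∀ j, ∃ c : Fin (s + 1) → K, ∑ k, c k • f k = g j := fun j =>
    (Submodule.mem_span_range_iff_exists_fun K).1 (hg1 j)
  choose c hc using hg
  have h1 : (Matrix.of fun i j => dd (μ i) (g j)) = (Matrix.of fun i j => dd (μ i) (f j)) *
      (Matrix.of fun k j => MvPolynomial.C (σ := σ) (c j k)) := by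
    ext1 i j
    rw [Matrix.mul_apply, Matrix.of_apply, ← hc j, ← r2_ddL_apply, map_sum]
    refine Finset.sum_congr rfl fun k _ => ?_
    rw [map_smul, r2_ddL_apply, Matrix.of_apply, Matrix.of_apply, MvPolynomial.smul_eq_C_mul,
      mul_comm]
  have h2 : Matrix.det (Matrix.of fun i j => dd (μ i) (g j)) = 0 := by
    rw [h1, Matrix.det_mul, h0, zero_mul]
  have h3 : Matrix.det (Matrix.of fun i j : Fin (s + 1) =>
      MvPolynomial.monomial (μ i) (1 : K) * dd (μ i) (g j)) = 0 := by
    have := Matrix.det_mul_column (fun i => MvPolynomial.monomial (μ i) (1 : K))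
      (Matrix.of fun i j => dd (μ i) (g j))
    rw [h2, mul_zero] at this
    exact this
  have h4 : (Matrix.det (Matrix.of fun i j : Fin (s + 1) =>
      MvPolynomial.monomial (μ i) (1 : K) * dd (μ i) (g j))).coeff (∑ j, m.degree (g j)) =
      (∏ j, m.leadingCoeff (g j)) *
        Matrix.det (Matrix.of fun i j => r2_bino K (μ i) (m.degree (g j))) := by
    have hdeg : ∀ i j, m.toSyn (m.degree (MvPolynomial.monomial (μ i) (1 : K) * dd (μ i) (g j))) ≤
        m.toSyn (m.degree (g j)) := by
      intro i j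
      refine m.degree_le_degree_of_support_subset ?_
      intro d hd
      rw [MvPolynomial.mem_support_iff, r2_coeff_mono_mul_dd] at hd
      rw [MvPolynomial.mem_support_iff]
      exact fun h => hd (by rw [h, zero_mul])
    rw [Matrix.det_apply, Matrix.det_apply, MvPolynomial.coeff_sum, Finset.mul_sum]
    refine Finset.sum_congr rfl fun τ _ => ?_
    have h5 := (r2_coeff_prod_of_le m Finset.univ
      (fun i => MvPolynomial.monomial (μ (τ i)) (1 : K) * dd (μ (τ i)) (g i))
      (fun j => m.degree (g j)) fun i _ => hdeg _ _).2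
    simp only [r2_coeff_mono_mul_dd] at h5
    rw [Units.smul_def, zsmul_eq_mul, Units.smul_def, zsmul_eq_mul]
    simp only [Matrix.of_apply]
    have h6 : (((Equiv.Perm.sign τ : ℤˣ) : ℤ) : MvPolynomial σ K) =
        MvPolynomial.C (((Equiv.Perm.sign τ : ℤˣ) : ℤ) : K) := by simp
    rw [h6, MvPolynomial.coeff_C_mul, h5, Finset.prod_mul_distrib]
    change _ * ((∏ j, m.leadingCoeff (g j)) * _) = _
    ring
  rw [h3, MvPolynomial.coeff_zero] at h4
  have h7 : ∏ j, m.leadingCoeff (g j) ≠ 0 :=
    Finset.prod_ne_zero_iff.2 fun j _ => m.leadingCoeff_ne_zero_iff.2 (hg2 j)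
  exact (mul_ne_zero h7 hdet) h4.symm

end general

variable {K : Type*} [Field K] [NumberField K]

/-- R2. Generalised Wronskians. -/
theorem wronsk {n s : ℕ} (f : Fin (s + 1) → MvPolynomial (Fin n) K) (hf : LinearIndependent K f) :
    ∃ μ : Fin (s + 1) → (Fin n →₀ ℕ), (∀ i, ∑ h, μ i h ≤ s) ∧
      Matrix.det (Matrix.of fun i j => dd (μ i) (f j)) ≠ 0 :=
  r2_wronsk_aux MonomialOrder.lex f hf

theorem r2_dd_monomial' (q d : Fin 1 →₀ ℕ) (c : K) :
    dd q (MvPolynomial.monomial d c) =
      MvPolynomial.monomial (d - q) (c * (((d 0).choose (q 0) : ℕ) : K)) := by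
  classical
  by_cases hc : c = 0
  · rw [hc, zero_mul, map_zero, map_zero]
    unfold dd
    simp
  · unfold dd
    rw [MvPolynomial.support_monomial, if_neg hc, Finset.sum_singleton,
      MvPolynomial.coeff_monomial, if_pos rfl]
    simp

theorem r2_dd_aeval_X (q : Fin 1 →₀ ℕ) (g : Polynomial K) :
    dd q (Polynomial.aeval (MvPolynomial.X (0 : Fin 1)) g : MvPolynomial (Fin 1) K) =
      Polynomial.aeval (MvPolynomial.X (0 : Fin 1)) (Polynomial.hasseDeriv (q 0) g) := by
  have hmono : ∀ (k : ℕ) (c : K), (Polynomial.aeval (MvPolynomial.X (0 : Fin 1))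
      (Polynomial.monomial k c) : MvPolynomial (Fin 1) K) =
        MvPolynomial.monomial (Finsupp.single 0 k) c := by
    intro k c
    rw [Polynomial.aeval_monomial, ← MvPolynomial.C_mul_X_pow_eq_monomial]
    rfl
  induction g using Polynomial.induction_on' with
  | add p p' hp hp' => rw [map_add, r2_dd_add', hp, hp', map_add, map_add]
  | monomial k c =>
    rw [hmono, r2_dd_monomial', Polynomial.hasseDeriv_monomial, hmono]
    congr 1
    · congr 1
      ext
      simp
    · simp [mul_comm]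

/-- R2'. -/
theorem wronsk1 {s : ℕ} (g : Fin (s + 1) → Polynomial K) (hg : LinearIndependent K g) :
    Matrix.det (Matrix.of fun i j : Fin (s + 1) => Polynomial.hasseDeriv (i : ℕ) (g j)) ≠ 0 := by
  classical
  let φ : Polynomial K →ₐ[K] MvPolynomial (Fin 1) K := Polynomial.aeval (MvPolynomial.X (0 : Fin 1))
  have hφ : Function.Injective φ := by
    have h1 : ∀ x, MvPolynomial.aeval (fun _ : Fin 1 => (Polynomial.X : Polynomial K)) (φ x) = x := by
      intro x
      have h2 : (MvPolynomial.aeval (fun _ : Fin 1 => (Polynomial.X : Polynomial K))).comp φ =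
          AlgHom.id K (Polynomial K) := by
        apply Polynomial.algHom_ext
        simp [φ]
      exact DFunLike.congr_fun h2 x
    exact Function.LeftInverse.injective h1
  have hf : LinearIndependent K (fun j => φ (g j)) :=
    hg.map' φ.toLinearMap (LinearMap.ker_eq_bot.2 hφ)
  obtain ⟨μ, hμ, hdet⟩ := wronsk (fun j => φ (g j)) hf
  have h1 : (Matrix.of fun i j => dd (μ i) (φ (g j))) =
      φ.mapMatrix (Matrix.of fun i j => Polynomial.hasseDeriv (μ i 0) (g j)) := by
    ext1 i j
    exact r2_dd_aeval_X (μ i) (g j)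
  rw [h1, ← AlgHom.map_det] at hdet
  have h2 : Matrix.det (Matrix.of fun i j : Fin (s + 1) =>
      Polynomial.hasseDeriv (μ i 0) (g j)) ≠ 0 := fun h => hdet (by rw [h, map_zero])
  have hμ0 : ∀ i, μ i 0 < s + 1 := fun i => by
    have := hμ i
    simp only [Finset.univ_unique, Fin.default_eq_zero, Finset.sum_singleton] at this
    omega
  let e : Fin (s + 1) → Fin (s + 1) := fun i => ⟨μ i 0, hμ0 i⟩
  have he : Function.Injective e := by
    intro i j hij
    by_contra hne
    refine h2 (Matrix.det_zero_of_row_eq hne ?_)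
    funext k
    have h3 : μ i 0 = μ j 0 := congrArg Fin.val hij
    change Polynomial.hasseDeriv (μ i 0) (g k) = Polynomial.hasseDeriv (μ j 0) (g k)
    rw [h3]
  let π : Equiv.Perm (Fin (s + 1)) := Equiv.ofBijective e (Finite.injective_iff_bijective.1 he)
  have h3 : (Matrix.of fun i j : Fin (s + 1) => Polynomial.hasseDeriv (μ i 0) (g j)) =
      (Matrix.of fun i j : Fin (s + 1) => Polynomial.hasseDeriv (i : ℕ) (g j)).submatrix π id := by
    ext1 i j
    rfl
  rw [h3, Matrix.det_permute] at h2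
  exact right_ne_zero_of_mul h2

end Pool.Agent.V2
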