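import Pool.Agent.Helper21.V2.Defs

/-!
# Block R3: decomposition of a polynomial and product formula for Wronskians
-/

namespace Pool.Agent.V2

open NumberField Finset
open Pool.Agent.Helper64.Vojta (Pl nv)

section aux

variable {K : Type*} [Field K]

theorem finSucc_rename {n : ℕ} (q : MvPolynomial (Fin n) K) :
    (MvPolynomial.finSuccEquiv K n) (MvPolynomial.rename Fin.succ q) = Polynomial.C q := by
  induction q using MvPolynomial.induction_on with
  | C a =>
    rw [MvPolynomial.rename_C]
    exact (MvPolynomial.finSuccEquiv K n).commutes a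
  | add a b ha hb => rw [map_add, map_add, ha, hb, map_add]
  | mul_X a i ha =>
    rw [map_mul, map_mul, ha, MvPolynomial.rename_X, MvPolynomial.finSuccEquiv_X_succ, map_mul]

theorem finSucc_aeval {n : ℕ} (g : Polynomial K) :
    (MvPolynomial.finSuccEquiv K n) (Polynomial.aeval (MvPolynomial.X 0) g) =
      g.map MvPolynomial.C := by
  induction g using Polynomial.induction_on with
  | C a =>
    rw [Polynomial.aeval_C, Polynomial.map_C]
    exact (MvPolynomial.finSuccEquiv K n).commutes a
  | add p q hp hq => rw [map_add, map_add, hp, hq, Polynomial.map_add]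
  | monomial m a _ =>
    rw [map_mul, Polynomial.aeval_C, map_pow, Polynomial.aeval_X, map_mul, map_pow,
      MvPolynomial.finSuccEquiv_X_zero, Polynomial.map_mul, Polynomial.map_C, Polynomial.map_pow,
      Polynomial.map_X]
    congr 1
    exact (MvPolynomial.finSuccEquiv K n).commutes a

/-- coefficients of a product of polynomials in disjoint sets of variables -/
theorem coeff_disj {n : ℕ} (f : MvPolynomial (Fin n) K) (g : Polynomial K) (e : ℕ)
    (d : Fin n →₀ ℕ) :
    (MvPolynomial.rename Fin.succ f * Polynomial.aeval (MvPolynomial.X 0) g :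
      MvPolynomial (Fin (n + 1)) K).coeff (Finsupp.cons e d) = f.coeff d * g.coeff e := by
  rw [← MvPolynomial.finSuccEquiv_coeff_coeff, map_mul, finSucc_rename, finSucc_aeval,
    Polynomial.coeff_C_mul, Polynomial.coeff_map, mul_comm, MvPolynomial.coeff_C_mul, mul_comm]

/-- the inverse of `finSuccEquiv` as a sum -/
theorem eq_sum_finSucc {n : ℕ} (p : MvPolynomial (Fin (n + 1)) K) (D : ℕ)
    (hD : p.degreeOf 0 ≤ D) :
    p = ∑ i : Fin (D + 1), MvPolynomial.rename Fin.succ
      (((MvPolynomial.finSuccEquiv K n) p).coeff (i : ℕ)) * MvPolynomial.X 0 ^ (i : ℕ) := by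
  apply (MvPolynomial.finSuccEquiv K n).injective
  rw [map_sum]
  simp only [map_mul, map_pow, finSucc_rename, MvPolynomial.finSuccEquiv_X_zero]
  have h3 := ((MvPolynomial.finSuccEquiv K n) p).as_sum_range_C_mul_X_pow' (n := D + 1) (by
    rw [MvPolynomial.natDegree_finSuccEquiv]; omega)
  rw [Finset.sum_range] at h3
  exact h3

theorem coeff_dd' {σ : Type*} [Fintype σ] (q e : σ →₀ ℕ) (p : MvPolynomial σ K) :
    (dd q p).coeff e = ((∏ i, (e i + q i).choose (q i) : ℕ) : K) * p.coeff (e + q) := by
  classical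
  unfold dd
  rw [MvPolynomial.coeff_sum]
  simp only [MvPolynomial.coeff_monomial]
  have hz : ∀ d : σ →₀ ℕ, d - q = e → d ≠ e + q → (∏ i, (d i).choose (q i) : ℕ) = 0 := by
    intro d h1 h2
    have : ∃ i, d i < q i := by
      by_contra hn
      push Not at hn
      apply h2
      ext i
      have h3 := DFunLike.congr_fun h1 i
      have h4 := hn i
      simp only [Finsupp.coe_tsub, Pi.sub_apply, Finsupp.coe_add, Pi.add_apply] at h3 ⊢
      omega
    obtain ⟨i, hi⟩ := this
    exact Finset.prod_eq_zero (Finset.mem_univ i) (Nat.choose_eq_zero_of_lt hi)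
  rw [Finset.sum_eq_single (e + q)]
  · rw [if_pos (by simp), mul_comm]
    simp
  · intro d _ hd
    split_ifs with h
    · rw [hz d h hd]; simp
    · rfl
  · intro h
    rw [MvPolynomial.notMem_support_iff] at h
    rw [h]
    simp

theorem dd_sum {σ α : Type*} [Fintype σ] (q : σ →₀ ℕ) (s : Finset α)
    (p : α → MvPolynomial σ K) : dd q (∑ k ∈ s, p k) = ∑ k ∈ s, dd q (p k) := by
  ext e
  simp only [coeff_dd', MvPolynomial.coeff_sum, Finset.mul_sum]

theorem dd_disj {n : ℕ} (j : ℕ) (μ : Fin n →₀ ℕ) (f : MvPolynomial (Fin n) K)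
    (g : Polynomial K) :
    dd (Finsupp.cons j μ) (MvPolynomial.rename Fin.succ f *
      Polynomial.aeval (MvPolynomial.X 0) g : MvPolynomial (Fin (n + 1)) K) =
    MvPolynomial.rename Fin.succ (dd μ f) *
      Polynomial.aeval (MvPolynomial.X 0) (Polynomial.hasseDeriv j g) := by
  ext m
  obtain ⟨e, d, rfl⟩ : ∃ e d, m = Finsupp.cons e d := ⟨m 0, m.tail, (Finsupp.cons_tail m).symm⟩
  rw [coeff_disj, coeff_dd', coeff_dd', Polynomial.hasseDeriv_coeff]
  have h1 : (Finsupp.cons e d + Finsupp.cons j μ : Fin (n + 1) →₀ ℕ) =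
      Finsupp.cons (e + j) (d + μ) := by
    ext i
    refine Fin.cases ?_ (fun i => ?_) i
    · simp
    · simp
  rw [h1, coeff_disj, Fin.prod_univ_succ]
  simp only [Finsupp.cons_zero, Finsupp.cons_succ]
  push_cast
  ring

end aux

variable {K : Type*} [Field K] [NumberField K]

/-- R3. -/
theorem decomp {n : ℕ} (p : MvPolynomial (Fin (n + 1)) K) (hp : p ≠ 0) :
    ∃ s ≤ p.degreeOf 0, ∃ (f : Fin (s + 1) → MvPolynomial (Fin n) K)
      (g : Fin (s + 1) → Polynomial K), LinearIndependent K f ∧ LinearIndependent K g ∧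
      p = ∑ k, MvPolynomial.rename Fin.succ (f k) * Polynomial.aeval (MvPolynomial.X 0) (g k) ∧
      (∀ k h, (f k).degreeOf h ≤ p.degreeOf h.succ) ∧ ∀ k, (g k).natDegree ≤ p.degreeOf 0 := by
  classical
  set D := p.degreeOf 0 with hD
  let c : Fin (D + 1) → MvPolynomial (Fin n) K :=
    fun i => ((MvPolynomial.finSuccEquiv K n) p).coeff (i : ℕ)
  have hsum := eq_sum_finSucc p D le_rfl
  let W : Submodule K (MvPolynomial (Fin n) K) := Submodule.span K (Set.range c)
  haveI : Module.Finite K W := Module.Finite.span_of_finite K (Set.finite_range c)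
  have hfr : Module.finrank K W ≤ D + 1 := by
    have := finrank_range_le_card (R := K) c
    rw [Fintype.card_fin] at this
    exact this
  have hcW : ∀ i, c i ∈ W := fun i => Submodule.subset_span ⟨i, rfl⟩
  have hpos : 0 < Module.finrank K W := by
    rw [Module.finrank_pos_iff]
    by_contra hn
    rw [not_nontrivial_iff_subsingleton] at hn
    apply hp
    rw [hsum]
    apply Finset.sum_eq_zero
    intro i _
    have : c i = 0 := by
      have h1 : (⟨c i, hcW i⟩ : W) = 0 := Subsingleton.elim _ _
      exact congrArg Subtype.val h1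
    change MvPolynomial.rename Fin.succ (c i) * _ = 0
    rw [this, map_zero, zero_mul]
  obtain ⟨s, hs⟩ : ∃ s, Module.finrank K W = s + 1 := ⟨Module.finrank K W - 1, by omega⟩
  let b : Module.Basis (Fin (s + 1)) K W := Module.finBasisOfFinrankEq K W hs
  let γ : Fin (D + 1) → Fin (s + 1) → K := fun i k => b.repr ⟨c i, hcW i⟩ k
  have hγ : ∀ i, c i = ∑ k, γ i k • (b k : MvPolynomial (Fin n) K) := by
    intro i
    have h1 := b.sum_repr ⟨c i, hcW i⟩
    have h2 := congrArg Subtype.val h1
    rw [AddSubmonoidClass.coe_finset_sum] at h2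
    exact h2.symm
  let g : Fin (s + 1) → Polynomial K := fun k =>
    ∑ i : Fin (D + 1), Polynomial.monomial (i : ℕ) (γ i k)
  have hgc : ∀ k (i : Fin (D + 1)), (g k).coeff (i : ℕ) = γ i k := by
    intro k i
    simp only [g, Polynomial.finset_sum_coeff, Polynomial.coeff_monomial]
    rw [Finset.sum_eq_single i]
    · rw [if_pos rfl]
    · intro j _ hj
      rw [if_neg (fun h => hj (Fin.ext h))]
    · intro h
      exact absurd (Finset.mem_univ i) h
  refine ⟨s, by omega, fun k => (b k : MvPolynomial (Fin n) K), g, ?_, ?_, ?_, ?_, ?_⟩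
  · exact b.linearIndependent.map' W.subtype (Submodule.ker_subtype W)
  · rw [Fintype.linearIndependent_iff]
    intro a ha
    -- the functional with values `a`
    let φ : W →ₗ[K] K := b.constr K a
    have hφc : ∀ i, φ ⟨c i, hcW i⟩ = 0 := by
      intro i
      rw [Module.Basis.constr_apply_fintype]
      have h1 := congrArg (fun q : Polynomial K => q.coeff (i : ℕ)) ha
      simp only [Polynomial.finset_sum_coeff, Polynomial.coeff_smul, hgc, smul_eq_mul,
        Polynomial.coeff_zero] at h1
      rw [← h1]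
      apply Finset.sum_congr rfl
      intro k _
      rw [Module.Basis.equivFun_apply, smul_eq_mul, mul_comm]
    have hφ : ∀ w : W, φ w = 0 := by
      rintro ⟨w, hw⟩
      induction hw using Submodule.span_induction with
      | mem x hx =>
        obtain ⟨i, rfl⟩ := hx
        exact hφc i
      | zero => exact map_zero φ
      | add x y hx hy h1 h2 =>
        have : (⟨x + y, Submodule.add_mem _ hx hy⟩ : W) = ⟨x, hx⟩ + ⟨y, hy⟩ := rfl
        rw [this, map_add, h1, h2, add_zero]
      | smul t x hx h1 =>
        have : (⟨t • x, Submodule.smul_mem _ t hx⟩ : W) = t • ⟨x, hx⟩ := rfl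
        rw [this, map_smul, h1, smul_zero]
    intro k
    have := hφ (b k)
    rwa [Module.Basis.constr_basis] at this
  · rw [hsum]
    have h1 : ∀ i : Fin (D + 1), MvPolynomial.rename Fin.succ
        (((MvPolynomial.finSuccEquiv K n) p).coeff (i : ℕ)) * MvPolynomial.X 0 ^ (i : ℕ) =
        ∑ k, MvPolynomial.rename Fin.succ (b k : MvPolynomial (Fin n) K) *
          (γ i k • (MvPolynomial.X 0 : MvPolynomial (Fin (n + 1)) K) ^ (i : ℕ)) := by
      intro i
      change MvPolynomial.rename Fin.succ (c i) * _ = _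
      rw [hγ i, map_sum, Finset.sum_mul]
      apply Finset.sum_congr rfl
      intro k _
      rw [map_smul, smul_mul_assoc, mul_smul_comm]
    simp only [h1]
    rw [Finset.sum_comm]
    apply Finset.sum_congr rfl
    intro k _
    rw [← Finset.mul_sum]
    congr 1
    simp only [g, map_sum, Polynomial.aeval_monomial]
    apply Finset.sum_congr rfl
    intro i _
    rw [Algebra.smul_def]
  · intro k h
    have hle : ∀ w ∈ W, MvPolynomial.degreeOf h w ≤ p.degreeOf h.succ := by
      intro w hw
      induction hw using Submodule.span_induction with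
      | mem x hx =>
        obtain ⟨i, rfl⟩ := hx
        exact MvPolynomial.degreeOf_coeff_finSuccEquiv p h i
      | zero => rw [MvPolynomial.degreeOf_zero]; exact Nat.zero_le _
      | add x y _ _ h1 h2 =>
        exact (MvPolynomial.degreeOf_add_le h x y).trans (max_le h1 h2)
      | smul t x _ h1 =>
        rw [MvPolynomial.smul_eq_C_mul]
        exact (MvPolynomial.degreeOf_C_mul_le x h t).trans h1
    exact hle _ (b k).2
  · intro k
    apply Polynomial.natDegree_sum_le_of_forall_le
    intro i _
    exact (Polynomial.natDegree_monomial_le _).trans (by have := i.2; omega)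

/-- R3'. -/
theorem wr_prod {n s : ℕ} (f : Fin (s + 1) → MvPolynomial (Fin n) K)
    (g : Fin (s + 1) → Polynomial K) (μ : Fin (s + 1) → (Fin n →₀ ℕ)) :
    Matrix.det (Matrix.of fun i j : Fin (s + 1) => dd (Finsupp.cons (j : ℕ) (μ i))
      (∑ k, MvPolynomial.rename Fin.succ (f k) * Polynomial.aeval (MvPolynomial.X 0) (g k))) =
    MvPolynomial.rename Fin.succ (Matrix.det (Matrix.of fun i j => dd (μ i) (f j))) *
      Polynomial.aeval (MvPolynomial.X 0)
        (Matrix.det (Matrix.of fun i j : Fin (s + 1) => Polynomial.hasseDeriv (i : ℕ) (g j))) := by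
  have h1 : (Matrix.of fun i j : Fin (s + 1) => dd (Finsupp.cons (j : ℕ) (μ i))
      (∑ k, MvPolynomial.rename Fin.succ (f k) *
        Polynomial.aeval (MvPolynomial.X 0) (g k) : MvPolynomial (Fin (n + 1)) K)) =
      ((MvPolynomial.rename Fin.succ : MvPolynomial (Fin n) K →ₐ[K] _).mapMatrix
        (Matrix.of fun i j => dd (μ i) (f j))) *
      ((Polynomial.aeval (MvPolynomial.X 0) : Polynomial K →ₐ[K]
        MvPolynomial (Fin (n + 1)) K).mapMatrix
        (Matrix.of fun i j : Fin (s + 1) => Polynomial.hasseDeriv (i : ℕ) (g j))).transpose := by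
    ext1 i j
    rw [Matrix.mul_apply, Matrix.of_apply, dd_sum]
    apply Finset.sum_congr rfl
    intro k _
    rw [dd_disj]
    rfl
  rw [h1, Matrix.det_mul, Matrix.det_transpose, ← AlgHom.map_det, ← AlgHom.map_det]

end Pool.Agent.V2
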