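import Pool.Agent.Helper21.V2.BB

/-!
# Block R4: heights of determinants of divided derivatives, heights of products of polynomials in
disjoint variables
-/

namespace Pool.Agent.V2

open NumberField Finset
open Pool.Agent.Helper64.Vojta (Pl nv nv_nonneg nv_mul nv_one nv_zero nv_pos nv_sum_le_inr)

set_option linter.unusedVariables false

variable {K : Type*} [Field K] [NumberField K]

/-! ### coefficients and degrees of divided derivatives -/

theorem r4_coeff_dd_eq {σ : Type*} [Fintype σ] (q : σ →₀ ℕ) (p : MvPolynomial σ K) (e : σ →₀ ℕ) :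
    (dd q p).coeff e = p.coeff (e + q) * ((∏ i, ((e + q) i).choose (q i) : ℕ) : K) := by
  classical
  unfold dd
  rw [MvPolynomial.coeff_sum]
  simp only [MvPolynomial.coeff_monomial]
  rw [Finset.sum_eq_single (e + q)]
  · rw [if_pos (by ext i; simp)]
  · intro d _ hde
    split_ifs with h
    · have hlt : ∃ i, d i < q i := by
        by_contra hc
        push Not at hc
        apply hde
        ext i
        have h1 := DFunLike.congr_fun h i
        simp only [Finsupp.tsub_apply] at h1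
        have h2 := hc i
        rw [Finsupp.add_apply]
        omega
      obtain ⟨i, hi⟩ := hlt
      have : ∏ i, (d i).choose (q i) = 0 :=
        Finset.prod_eq_zero (Finset.mem_univ i) (Nat.choose_eq_zero_of_lt hi)
      rw [this]; simp
    · rfl
  · intro h
    rw [MvPolynomial.notMem_support_iff.1 h]
    simp

theorem r4_degreeOf_dd_le {σ : Type*} [Fintype σ] (q : σ →₀ ℕ) (p : MvPolynomial σ K) (h : σ) :
    (dd q p).degreeOf h ≤ p.degreeOf h := by
  classical
  rw [MvPolynomial.degreeOf_le_iff]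
  intro m hm
  have h1 : p.coeff (m + q) ≠ 0 := by
    intro h0
    rw [MvPolynomial.mem_support_iff, r4_coeff_dd_eq, h0, zero_mul] at hm
    exact hm rfl
  have h2 := MvPolynomial.monomial_le_degreeOf h (MvPolynomial.mem_support_iff.2 h1)
  rw [Finsupp.add_apply] at h2
  omega

/-! ### natural numbers -/

theorem r4_nv_natCast_inl (v : InfinitePlace K) (n : ℕ) :
    nv (.inl v) (n : K) = (n : ℝ) ^ v.mult := by
  show v (n : K) ^ v.mult = _
  rw [v.map_natCast]

theorem r4_nv_natCast_inr (v : FinitePlace K) (n : ℕ) : nv (.inr v) (n : K) ≤ 1 := by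
  have h := nv_sum_le_inr v (Finset.range n) (fun _ => (1 : K)) 1 zero_le_one
    (fun i _ => (nv_one _).le)
  simpa using h

theorem r4_nv_neg_one (v : Pl K) : nv v (-1 : K) = 1 := by
  have h : nv v (-1 : K) * nv v (-1 : K) = 1 := by rw [← nv_mul]; simp [nv_one]
  have h0 := nv_nonneg v (-1 : K)
  nlinarith

theorem r4_nv_neg (v : Pl K) (x : K) : nv v (-x) = nv v x := by
  rw [neg_eq_neg_one_mul, nv_mul, r4_nv_neg_one, one_mul]

theorem r4_pn_nonneg {σ : Type*} (v : Pl K) (p : MvPolynomial σ K) : 0 ≤ pn v p :=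
  Real.iSup_nonneg (fun _ => nv_nonneg _ _)

theorem r4_pn1_nonneg (v : Pl K) (p : Polynomial K) : 0 ≤ pn1 v p :=
  Real.iSup_nonneg (fun _ => nv_nonneg _ _)

/-! ### norms of divided derivatives -/

theorem r4_pn_dd_inr {σ : Type*} [Fintype σ] (v : FinitePlace K) (q : σ →₀ ℕ)
    (p : MvPolynomial σ K) : pn (.inr v) (dd q p) ≤ pn (.inr v) p := by
  refine pn_le _ _ (r4_pn_nonneg _ _) (fun d => ?_)
  rw [r4_coeff_dd_eq, nv_mul]
  calc nv (.inr v) (p.coeff (d + q)) * nv (.inr v) ((∏ i, ((d + q) i).choose (q i) : ℕ) : K)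
      ≤ pn (.inr v) p * 1 :=
        mul_le_mul (le_pn _ _ _) (r4_nv_natCast_inr v _) (nv_nonneg _ _) (r4_pn_nonneg _ _)
    _ = pn (.inr v) p := mul_one _

theorem r4_pn_dd_inl {σ : Type*} [Fintype σ] (v : InfinitePlace K) (q : σ →₀ ℕ)
    (p : MvPolynomial σ K) (r : σ → ℕ) (hr : ∀ h, p.degreeOf h ≤ r h) :
    pn (.inl v) (dd q p) ≤ ((2 : ℝ) ^ (∑ h, r h)) ^ v.mult * pn (.inl v) p := by
  refine pn_le _ _ (mul_nonneg (by positivity) (r4_pn_nonneg _ _)) (fun d => ?_)
  rw [r4_coeff_dd_eq, nv_mul, r4_nv_natCast_inl, mul_comm]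
  by_cases h0 : p.coeff (d + q) = 0
  · rw [h0, nv_zero, mul_zero]
    exact mul_nonneg (by positivity) (r4_pn_nonneg _ _)
  refine mul_le_mul ?_ (le_pn _ _ _) (nv_nonneg _ _) (by positivity)
  refine pow_le_pow_left₀ (Nat.cast_nonneg _) ?_ _
  have h1 : ∏ i, ((d + q) i).choose (q i) ≤ 2 ^ (∑ h, r h) := by
    rw [← Finset.prod_pow_eq_pow_sum]
    refine Finset.prod_le_prod' (fun i _ => ?_)
    refine le_trans (Nat.choose_le_two_pow _ _) (Nat.pow_le_pow_right (by norm_num) ?_)
    exact le_trans (MvPolynomial.monomial_le_degreeOf i (MvPolynomial.mem_support_iff.2 h0)) (hr i)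
  calc ((∏ i, ((d + q) i).choose (q i) : ℕ) : ℝ) ≤ ((2 ^ (∑ h, r h) : ℕ) : ℝ) := by
        exact_mod_cast h1
    _ = (2 : ℝ) ^ (∑ h, r h) := by push_cast; rfl

/-! ### norms of products -/

theorem r4_pn_mul_inr {σ : Type*} (v : FinitePlace K) (p q : MvPolynomial σ K) :
    pn (.inr v) (p * q) ≤ pn (.inr v) p * pn (.inr v) q := by
  classical
  refine pn_le _ _ (mul_nonneg (r4_pn_nonneg _ _) (r4_pn_nonneg _ _)) (fun d => ?_)
  rw [MvPolynomial.coeff_mul]
  refine nv_sum_le_inr v _ _ _ (mul_nonneg (r4_pn_nonneg _ _) (r4_pn_nonneg _ _)) (fun x _ => ?_)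
  rw [nv_mul]
  exact mul_le_mul (le_pn _ _ _) (le_pn _ _ _) (nv_nonneg _ _) (r4_pn_nonneg _ _)

theorem r4_pn_mul_inl {σ : Type*} (v : InfinitePlace K) (p q : MvPolynomial σ K) {N : ℝ}
    (hN : (p.support.card : ℝ) ≤ N) :
    pn (.inl v) (p * q) ≤ N ^ v.mult * (pn (.inl v) p * pn (.inl v) q) := by
  classical
  have hN0 : 0 ≤ N := le_trans (Nat.cast_nonneg _) hN
  have hpq : 0 ≤ pn (.inl v) p * pn (.inl v) q := mul_nonneg (r4_pn_nonneg _ _) (r4_pn_nonneg _ _)
  refine pn_le _ _ (mul_nonneg (by positivity) hpq) (fun d => ?_)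
  rw [MvPolynomial.coeff_mul]
  have h1 : ∑ x ∈ antidiagonal d, p.coeff x.1 * q.coeff x.2 =
      ∑ x ∈ (antidiagonal d).filter (fun x => x.1 ∈ p.support), p.coeff x.1 * q.coeff x.2 := by
    rw [Finset.sum_filter_of_ne]
    intro x _ hx
    rw [MvPolynomial.mem_support_iff]
    exact left_ne_zero_of_mul hx
  rw [h1]
  refine le_trans (nv_sum_inl v _ _ hpq (fun x _ => ?_)) ?_
  · rw [nv_mul]
    exact mul_le_mul (le_pn _ _ _) (le_pn _ _ _) (nv_nonneg _ _) (r4_pn_nonneg _ _)
  · refine mul_le_mul_of_nonneg_right (pow_le_pow_left₀ (Nat.cast_nonneg _) ?_ _) hpq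
    refine le_trans ?_ hN
    have h2 : ((antidiagonal d).filter (fun x => x.1 ∈ p.support)).card ≤ p.support.card := by
      refine Finset.card_le_card_of_injOn (fun x => x.1) (fun x hx => ?_) ?_
      · have hx := Finset.mem_filter.1 hx
        exact hx.2
      · intro x hx y hy hxy
        have hx := Finset.HasAntidiagonal.mem_antidiagonal.1 (Finset.mem_filter.1 hx).1
        have hy := Finset.HasAntidiagonal.mem_antidiagonal.1 (Finset.mem_filter.1 hy).1
        simp only at hxy
        refine Prod.ext hxy ?_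
        rw [← hy, hxy] at hx
        exact add_left_cancel hx
    exact_mod_cast h2

theorem r4_pn_one_le {σ : Type*} (v : Pl K) : pn v (1 : MvPolynomial σ K) ≤ 1 := by
  classical
  refine pn_le _ _ zero_le_one (fun d => ?_)
  rw [MvPolynomial.coeff_one]
  split_ifs
  · exact (nv_one _).le
  · rw [nv_zero]; exact zero_le_one

theorem r4_pn_prod_inr {σ α : Type*} (v : FinitePlace K) (s : Finset α) (f : α → MvPolynomial σ K)
    {B : ℝ} (h : ∀ i ∈ s, pn (.inr v) (f i) ≤ B) :
    pn (.inr v) (∏ i ∈ s, f i) ≤ B ^ s.card := by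
  classical
  induction s using Finset.induction_on with
  | empty => simpa using r4_pn_one_le (σ := σ) (.inr v)
  | insert a s ha ih =>
    rw [Finset.prod_insert ha, Finset.card_insert_of_notMem ha, pow_succ, mul_comm (B ^ _)]
    have hB : 0 ≤ B := le_trans (r4_pn_nonneg _ _) (h a (Finset.mem_insert_self a s))
    exact le_trans (r4_pn_mul_inr v _ _) (mul_le_mul (h a (Finset.mem_insert_self a s))
      (ih (fun i hi => h i (Finset.mem_insert_of_mem hi))) (r4_pn_nonneg _ _) hB)

theorem r4_pn_prod_inl {σ α : Type*} (v : InfinitePlace K) (s : Finset α)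
    (f : α → MvPolynomial σ K) {B N : ℝ} (h : ∀ i ∈ s, pn (.inl v) (f i) ≤ B)
    (hN : ∀ i ∈ s, ((f i).support.card : ℝ) ≤ N) :
    pn (.inl v) (∏ i ∈ s, f i) ≤ (N ^ v.mult * B) ^ s.card := by
  classical
  induction s using Finset.induction_on with
  | empty => simpa using r4_pn_one_le (σ := σ) (.inl v)
  | insert a s ha ih =>
    rw [Finset.prod_insert ha, Finset.card_insert_of_notMem ha, pow_succ, mul_comm ((_ : ℝ) ^ s.card)]
    have hB : 0 ≤ B := le_trans (r4_pn_nonneg _ _) (h a (Finset.mem_insert_self a s))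
    have hN0 : 0 ≤ N := le_trans (Nat.cast_nonneg _) (hN a (Finset.mem_insert_self a s))
    refine le_trans (r4_pn_mul_inl v _ _ (hN a (Finset.mem_insert_self a s))) ?_
    rw [← mul_assoc]
    refine mul_le_mul ?_ (ih (fun i hi => h i (Finset.mem_insert_of_mem hi))
      (fun i hi => hN i (Finset.mem_insert_of_mem hi))) (r4_pn_nonneg _ _) (by positivity)
    exact mul_le_mul_of_nonneg_left (h a (Finset.mem_insert_self a s)) (by positivity)

theorem r4_coeff_det_term {σ : Type*} {k : ℕ} (M : Matrix (Fin k) (Fin k) (MvPolynomial σ K))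
    (v : Pl K) (τ : Equiv.Perm (Fin k)) (d : σ →₀ ℕ) :
    nv v ((Equiv.Perm.sign τ • ∏ i, M (τ i) i).coeff d) = nv v ((∏ i, M (τ i) i).coeff d) := by
  rcases Int.units_eq_one_or (Equiv.Perm.sign τ) with h | h
  · rw [h, one_smul]
  · rw [h, Units.neg_smul, one_smul, MvPolynomial.coeff_neg, r4_nv_neg]

theorem r4_pn_det_inr {σ : Type*} {k : ℕ} (M : Matrix (Fin k) (Fin k) (MvPolynomial σ K))
    (v : FinitePlace K) {B : ℝ} (hB : 0 ≤ B) (h : ∀ i j, pn (.inr v) (M i j) ≤ B) :
    pn (.inr v) M.det ≤ B ^ k := by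
  refine pn_le _ _ (by positivity) (fun d => ?_)
  rw [Matrix.det_apply, MvPolynomial.coeff_sum]
  refine nv_sum_le_inr v _ _ _ (by positivity) (fun τ _ => ?_)
  rw [r4_coeff_det_term]
  refine le_trans (le_pn _ _ _) ?_
  have := r4_pn_prod_inr v Finset.univ (fun i => M (τ i) i) (fun i _ => h (τ i) i)
  simpa using this

theorem r4_pn_det_inl {σ : Type*} {k : ℕ} (M : Matrix (Fin k) (Fin k) (MvPolynomial σ K))
    (v : InfinitePlace K) {B N : ℝ} (hB : 0 ≤ B) (hN0 : 0 ≤ N)
    (h : ∀ i j, pn (.inl v) (M i j) ≤ B)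
    (hN : ∀ i j, ((M i j).support.card : ℝ) ≤ N) :
    pn (.inl v) M.det ≤ (k.factorial : ℝ) ^ v.mult * (N ^ v.mult * B) ^ k := by
  refine pn_le _ _ (by positivity) (fun d => ?_)
  rw [Matrix.det_apply, MvPolynomial.coeff_sum]
  have h1 := nv_sum_inl v (Finset.univ : Finset (Equiv.Perm (Fin k)))
    (fun τ => ((Equiv.Perm.sign τ • ∏ i, M (τ i) i).coeff d)) (B := (N ^ v.mult * B) ^ k)
    (by positivity) (fun τ _ => by
      rw [r4_coeff_det_term]
      refine le_trans (le_pn _ _ _) ?_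
      have := r4_pn_prod_inl v Finset.univ (fun i => M (τ i) i) (fun i _ => h (τ i) i)
        (fun i _ => hN (τ i) i)
      simpa using this)
  rw [Finset.card_univ, Fintype.card_perm, Fintype.card_fin] at h1
  exact h1

omit [NumberField K] in
/-- number of monomials of a polynomial with partial degrees at most `r` -/
theorem r4_card_support_le {n : ℕ} (p : MvPolynomial (Fin n) K) (r : Fin n → ℕ)
    (hr : ∀ h, p.degreeOf h ≤ r h) : p.support.card ≤ ∏ h, (r h + 1) := by
  classical
  have h1 : p.support.card ≤ (Fintype.piFinset (fun h => Finset.range (r h + 1))).card := by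
    refine Finset.card_le_card_of_injOn (fun d => (d : Fin n → ℕ)) (fun d hd => ?_) ?_
    · exact Finset.mem_coe.2 (Fintype.mem_piFinset.2 (fun h => Finset.mem_range.2
        (Nat.lt_succ_of_le (le_trans (MvPolynomial.monomial_le_degreeOf h hd) (hr h)))))
    · intro x _ y _ hxy
      exact DFunLike.coe_injective hxy
  simpa using h1

theorem r4_log_bound {n s : ℕ} (r : Fin n → ℕ) (hs : s ≤ ∑ h, r h) :
    Real.log (((s + 1).factorial : ℝ)) + (s + 1) * (Real.log (((∏ h, (r h + 1) : ℕ) : ℝ)) +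
      Real.log ((2 : ℝ) ^ (∑ h, r h))) ≤ (s + 1) * (3 * ∑ h, (r h : ℝ)) := by
  have h1 : Real.log (((s + 1).factorial : ℝ)) ≤ (s + 1) * s := by
    have h2 : (((s + 1).factorial : ℝ)) ≤ ((s : ℝ) + 1) ^ (s + 1) := by
      have := Nat.factorial_le_pow (s + 1)
      exact_mod_cast this
    calc Real.log (((s + 1).factorial : ℝ)) ≤ Real.log (((s : ℝ) + 1) ^ (s + 1)) :=
          Real.log_le_log (by positivity) h2
      _ = ((s : ℝ) + 1) * Real.log ((s : ℝ) + 1) := by rw [Real.log_pow]; push_cast; rfl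
      _ ≤ ((s : ℝ) + 1) * s := by
          refine mul_le_mul_of_nonneg_left ?_ (by positivity)
          have := Real.log_le_sub_one_of_pos (show (0 : ℝ) < (s : ℝ) + 1 by positivity)
          linarith
  have h2 : Real.log (((∏ h, (r h + 1) : ℕ) : ℝ)) ≤ ∑ h, (r h : ℝ) := by
    push_cast
    rw [Real.log_prod (fun i _ => by positivity)]
    refine Finset.sum_le_sum (fun i _ => ?_)
    have := Real.log_le_sub_one_of_pos (show (0 : ℝ) < (r i : ℝ) + 1 by positivity)
    linarith
  have h3 : Real.log ((2 : ℝ) ^ (∑ h, r h)) ≤ ∑ h, (r h : ℝ) := by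
    rw [Real.log_pow]
    push_cast
    have h4 : Real.log 2 ≤ 1 := by
      have := Real.log_le_sub_one_of_pos (show (0 : ℝ) < 2 by norm_num)
      linarith
    have h5 : (0 : ℝ) ≤ ∑ h, (r h : ℝ) := Finset.sum_nonneg (fun _ _ => Nat.cast_nonneg _)
    nlinarith
  have h4 : (s : ℝ) ≤ ∑ h, (r h : ℝ) := by exact_mod_cast hs
  have h5 : (0 : ℝ) ≤ (s : ℝ) + 1 := by positivity
  nlinarith

/-- R4. -/
theorem pH_det_le {n s : ℕ} (p : MvPolynomial (Fin n) K) (r : Fin n → ℕ)
    (hr : ∀ h, p.degreeOf h ≤ r h) (hs : s ≤ ∑ h, r h)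
    (q : Fin (s + 1) → Fin (s + 1) → (Fin n →₀ ℕ))
    (hW : Matrix.det (Matrix.of fun i j => dd (q i j) p) ≠ 0) :
    pH (Matrix.det (Matrix.of fun i j => dd (q i j) p)) ≤
      (s + 1) * (pH p + 3 * Module.finrank ℚ K * ∑ h, (r h : ℝ)) := by
  set W := Matrix.det (Matrix.of fun i j => dd (q i j) p) with hWdef
  have hp : p ≠ 0 := by
    rintro rfl
    apply hW
    rw [hWdef]
    have h1 : (Matrix.of fun i j : Fin (s + 1) => dd (q i j) (0 : MvPolynomial (Fin n) K)) = 0 := by
      ext i j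
      simp [dd]
    rw [h1, Matrix.det_zero]
  have hB : ∀ v : Pl K, 0 < pn v p := fun v => pn_pos v hp
  -- the local bounds
  have hfin : ∀ v : FinitePlace K,
      Real.log (pn (.inr v) W) - (s + 1) * Real.log (pn (.inr v) p) ≤ 0 := by
    intro v
    have h1 := r4_pn_det_inr (Matrix.of fun i j => dd (q i j) p) v (hB (.inr v)).le
      (fun i j => r4_pn_dd_inr v (q i j) p)
    have h2 := Real.log_le_log (pn_pos (.inr v) hW) h1
    rw [Real.log_pow] at h2
    push_cast at h2
    linarith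
  have hinf : ∀ v : InfinitePlace K,
      Real.log (pn (.inl v) W) - (s + 1) * Real.log (pn (.inl v) p) ≤
        v.mult * ((s + 1) * (3 * ∑ h, (r h : ℝ))) := by
    intro v
    have hN : ∀ i j : Fin (s + 1), (((dd (q i j) p).support.card : ℕ) : ℝ) ≤
        ((∏ h, (r h + 1) : ℕ) : ℝ) := by
      intro i j
      exact_mod_cast r4_card_support_le (dd (q i j) p) r
        (fun h => le_trans (r4_degreeOf_dd_le _ _ _) (hr h))
    have hNpos : (0 : ℝ) < ((∏ h, (r h + 1) : ℕ) : ℝ) := by
      have : 0 < ∏ h, (r h + 1) := Finset.prod_pos (fun i _ => Nat.succ_pos _)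
      exact_mod_cast this
    have hv := hB (.inl v)
    have h1 := r4_pn_det_inl (Matrix.of fun i j => dd (q i j) p) v
      (B := ((2 : ℝ) ^ (∑ h, r h)) ^ v.mult * pn (.inl v) p)
      (N := ((∏ h, (r h + 1) : ℕ) : ℝ)) (by positivity) hNpos.le
      (fun i j => r4_pn_dd_inl v (q i j) p r hr) hN
    have h2 := Real.log_le_log (pn_pos (.inl v) hW) h1
    have hf : (0 : ℝ) < ((s + 1).factorial : ℝ) := by
      exact_mod_cast Nat.factorial_pos _
    rw [Real.log_mul (by positivity) (by positivity), Real.log_pow, Real.log_pow,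
      Real.log_mul (by positivity) (by positivity), Real.log_pow,
      Real.log_mul (by positivity) (by positivity), Real.log_pow] at h2
    have h3 := mul_le_mul_of_nonneg_left (r4_log_bound (s := s) r hs)
      (Nat.cast_nonneg v.mult : (0 : ℝ) ≤ (v.mult : ℝ))
    have h4 : ((s + 1 : ℕ) : ℝ) = (s : ℝ) + 1 := by push_cast; rfl
    rw [h4] at h2
    linarith [h2, h3]
  have hFW : FinS (fun v => Real.log (pn v W)) := finS_pn hW
  have hFp : FinS (fun v => Real.log (pn v p)) := finS_pn hp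
  have hF1 : FinS (fun v => -((s + 1) * Real.log (pn v p))) :=
    (hFp.const_mul ((s : ℝ) + 1)).neg
  have h5 := gsum_le (hFW.add hF1) ((s + 1) * (3 * ∑ h, (r h : ℝ)))
    (fun v => by have := hinf v; linarith) (fun v => by have := hfin v; linarith)
  rw [gsum_add hFW hF1, gsum_neg, gsum_const_mul] at h5
  unfold pH
  linarith

/-! ### disjoint variables -/

omit [NumberField K] in
theorem r4_coeff_mul_disj {n : ℕ} (u : MvPolynomial (Fin n) K) (w : Polynomial K) (q : Fin n →₀ ℕ)
    (a : ℕ) : (MvPolynomial.rename Fin.succ u * Polynomial.aeval (MvPolynomial.X 0) w :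
      MvPolynomial (Fin (n + 1)) K).coeff (Finsupp.cons a q) = u.coeff q * w.coeff a := by
  have h1 : MvPolynomial.finSuccEquiv K n (MvPolynomial.rename Fin.succ u) = Polynomial.C u := by
    induction u using MvPolynomial.induction_on with
    | C a => simp [MvPolynomial.finSuccEquiv_apply]
    | add p q hp hq => rw [map_add, map_add, hp, hq, map_add]
    | mul_X p i hp =>
      rw [map_mul, map_mul, hp, MvPolynomial.rename_X, MvPolynomial.finSuccEquiv_X_succ, map_mul]
  have h2 : MvPolynomial.finSuccEquiv K n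
      (Polynomial.aeval (MvPolynomial.X 0 : MvPolynomial (Fin (n + 1)) K) w) =
      w.map MvPolynomial.C := by
    induction w using Polynomial.induction_on' with
    | add p q hp hq => rw [map_add, map_add, hp, hq, Polynomial.map_add]
    | monomial k c =>
      rw [Polynomial.aeval_monomial, map_mul, map_pow, MvPolynomial.finSuccEquiv_X_zero,
        Polynomial.map_monomial, ← Polynomial.C_mul_X_pow_eq_monomial]
      congr 1
      rw [AlgEquiv.commutes]
      rfl
  rw [← MvPolynomial.finSuccEquiv_coeff_coeff, map_mul, h1, h2, Polynomial.coeff_C_mul,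
    Polynomial.coeff_map, mul_comm u, MvPolynomial.coeff_C_mul, mul_comm]

theorem r4_pn_mul_disj {n : ℕ} (v : Pl K) (u : MvPolynomial (Fin n) K) (w : Polynomial K) :
    pn v (MvPolynomial.rename Fin.succ u * Polynomial.aeval (MvPolynomial.X 0) w :
      MvPolynomial (Fin (n + 1)) K) = pn v u * pn1 v w := by
  apply le_antisymm
  · refine pn_le _ _ (mul_nonneg (r4_pn_nonneg _ _) (r4_pn1_nonneg _ _)) (fun d => ?_)
    rw [← Finsupp.cons_tail d, r4_coeff_mul_disj, nv_mul]
    exact mul_le_mul (le_pn _ _ _) (le_pn1 _ _ _) (nv_nonneg _ _) (r4_pn_nonneg _ _)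
  · set R := pn v (MvPolynomial.rename Fin.succ u * Polynomial.aeval (MvPolynomial.X 0) w :
      MvPolynomial (Fin (n + 1)) K) with hR
    have hR0 : 0 ≤ R := r4_pn_nonneg _ _
    have h1 : ∀ q a, nv v (u.coeff q) * nv v (w.coeff a) ≤ R := by
      intro q a
      rw [← nv_mul, ← r4_coeff_mul_disj]
      exact le_pn _ _ _
    have h2 : ∀ a, pn v u * nv v (w.coeff a) ≤ R := by
      intro a
      by_cases h0 : nv v (w.coeff a) = 0
      · rw [h0, mul_zero]; exact hR0
      · have hpos : 0 < nv v (w.coeff a) := lt_of_le_of_ne (nv_nonneg _ _) (Ne.symm h0)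
        rw [← le_div_iff₀ hpos]
        refine pn_le _ _ (div_nonneg hR0 hpos.le) (fun q => ?_)
        rw [le_div_iff₀ hpos]
        exact h1 q a
    by_cases h0 : pn v u = 0
    · rw [h0, zero_mul]; exact hR0
    · have hpos : 0 < pn v u := lt_of_le_of_ne (r4_pn_nonneg _ _) (Ne.symm h0)
      rw [mul_comm, ← le_div_iff₀ hpos]
      refine pn1_le _ _ (div_nonneg hR0 hpos.le) (fun a => ?_)
      rw [le_div_iff₀ hpos, mul_comm]
      exact h2 a

/-- R4'. -/
theorem pH_mul_disj {n : ℕ} (u : MvPolynomial (Fin n) K) (w : Polynomial K) (hu : u ≠ 0)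
    (hw : w ≠ 0) :
    pH (MvPolynomial.rename Fin.succ u * Polynomial.aeval (MvPolynomial.X 0) w :
      MvPolynomial (Fin (n + 1)) K) = pH u + pH1 w := by
  unfold pH pH1
  rw [← gsum_add (finS_pn hu) (finS_pn1 hw)]
  congr 1
  funext v
  rw [r4_pn_mul_disj, Real.log_mul (pn_pos v hu).ne' (pn1_pos v hw).ne']

end Pool.Agent.V2
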