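import Pool.Agent.Helper21.V2.R3

/-!
# Block R5: index calculus
-/

namespace Pool.Agent.V2

open NumberField Finset
open Pool.Agent.Helper64.Vojta (Pl nv)

section aux

variable {K : Type*} [Field K]

theorem coeff_prod_shift {σ : Type*} [Fintype σ] (ξ : σ → K) (d : σ → ℕ) (q : σ →₀ ℕ) :
    (∏ i, (MvPolynomial.X i + MvPolynomial.C (ξ i)) ^ (d i) : MvPolynomial σ K).coeff q =
      ∏ i, (ξ i ^ (d i - q i) * ((d i).choose (q i) : K)) := by
  classical
  have h1 : (∏ i, (MvPolynomial.X i + MvPolynomial.C (ξ i)) ^ (d i) : MvPolynomial σ K) =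
      ∑ x ∈ Fintype.piFinset (fun i => range (d i + 1)),
        MvPolynomial.monomial (Finsupp.equivFunOnFinite.symm x)
          (∏ i, (ξ i ^ (d i - x i) * ((d i).choose (x i) : K))) := by
    simp only [add_pow]
    rw [Finset.prod_univ_sum]
    apply Finset.sum_congr rfl
    intro x _
    rw [MvPolynomial.monomial_eq, Finsupp.prod_fintype _ _ (fun i => pow_zero _), map_prod,
      ← Finset.prod_mul_distrib]
    apply Finset.prod_congr rfl
    intro i _
    rw [Finsupp.equivFunOnFinite_symm_apply_apply, map_mul, map_pow, map_natCast]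
    ring
  rw [h1, MvPolynomial.coeff_sum]
  simp only [MvPolynomial.coeff_monomial]
  by_cases hq : ∀ i, q i ≤ d i
  · rw [Finset.sum_eq_single (q : σ → ℕ)]
    · rw [if_pos]
      ext i
      rfl
    · intro x _ hx
      rw [if_neg]
      intro h
      apply hx
      rw [← h]
      rfl
    · intro h
      exfalso
      apply h
      rw [Fintype.mem_piFinset]
      intro i
      rw [Finset.mem_range]
      have := hq i
      omega
  · push Not at hq
    obtain ⟨i, hi⟩ := hq
    rw [Finset.prod_eq_zero (Finset.mem_univ i)]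
    · apply Finset.sum_eq_zero
      intro x hx
      rw [if_neg]
      intro h
      rw [Fintype.mem_piFinset] at hx
      have h2 := hx i
      rw [Finset.mem_range] at h2
      have h3 : x i = q i := by rw [← h]; rfl
      omega
    · rw [Nat.choose_eq_zero_of_lt hi, Nat.cast_zero, mul_zero]

theorem dd_monomial {σ : Type*} [Fintype σ] (q d : σ →₀ ℕ) (a : K) :
    dd q (MvPolynomial.monomial d a) =
      MvPolynomial.monomial (d - q) (a * ((∏ i, (d i).choose (q i) : ℕ) : K)) := by
  classical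
  unfold dd
  by_cases ha : a = 0
  · subst ha
    simp
  · rw [MvPolynomial.support_monomial, if_neg ha, Finset.sum_singleton,
      MvPolynomial.coeff_monomial, if_pos rfl]

theorem coeff_sh_aux {σ : Type*} [Fintype σ] (ξ : σ → K) (q : σ →₀ ℕ) (p : MvPolynomial σ K) :
    (sh ξ p).coeff q = MvPolynomial.eval ξ (dd q p) := by
  classical
  have h0 : ∀ (d : σ →₀ ℕ) (a : K), (sh ξ (MvPolynomial.monomial d a)).coeff q =
      MvPolynomial.eval ξ (dd q (MvPolynomial.monomial d a)) := by
    intro d a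
    have h1 : sh ξ (MvPolynomial.monomial d a) = MvPolynomial.C a *
        ∏ i, (MvPolynomial.X i + MvPolynomial.C (ξ i)) ^ (d i) := by
      unfold sh
      rw [MvPolynomial.monomial_eq, map_mul, Finsupp.prod_fintype _ _ (fun i => pow_zero _),
        map_prod]
      simp
    rw [h1, MvPolynomial.coeff_C_mul, coeff_prod_shift, dd_monomial, MvPolynomial.eval_monomial,
      Finsupp.prod_fintype _ _ (fun i => pow_zero _), Finset.prod_mul_distrib]
    push_cast
    simp only [Finsupp.coe_tsub, Pi.sub_apply]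
    ring
  rw [MvPolynomial.as_sum p]
  have h2 : sh ξ (∑ v ∈ p.support, MvPolynomial.monomial v (MvPolynomial.coeff v p)) =
      ∑ v ∈ p.support, sh ξ (MvPolynomial.monomial v (MvPolynomial.coeff v p)) := by
    unfold sh
    rw [map_sum]
  rw [h2, dd_sum, map_sum, MvPolynomial.coeff_sum]
  exact Finset.sum_congr rfl (fun v _ => h0 v _)

theorem dd_dd {σ : Type*} [Fintype σ] (e q : σ →₀ ℕ) (p : MvPolynomial σ K) :
    dd e (dd q p) = MvPolynomial.C ((∏ i, (e i + q i).choose (q i) : ℕ) : K) * dd (e + q) p := by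
  ext d
  rw [coeff_dd', coeff_dd', MvPolynomial.coeff_C_mul, coeff_dd', add_assoc, ← mul_assoc,
    ← mul_assoc]
  congr 1
  rw [← Nat.cast_mul, ← Nat.cast_mul, ← Finset.prod_mul_distrib, ← Finset.prod_mul_distrib]
  congr 1
  apply Finset.prod_congr rfl
  intro i _
  simp only [Finsupp.coe_add, Pi.add_apply]
  have h1 := Nat.choose_mul (n := d i + e i + q i) (k := e i + q i) (s := q i) (by omega)
  have h2 : d i + e i + q i - q i = d i + e i := by omega
  have h3 : e i + q i - q i = e i := by omega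
  rw [h2, h3] at h1
  rw [← add_assoc (d i)]
  rw [mul_comm, ← h1]
  ring

end aux

variable {K : Type*} [Field K] [NumberField K]

/-- R5a. -/
theorem coeff_sh {σ : Type*} [Fintype σ] (ξ : σ → K) (q : σ →₀ ℕ) (p : MvPolynomial σ K) :
    (sh ξ p).coeff q = MvPolynomial.eval ξ (dd q p) := coeff_sh_aux ξ q p

/-- R5b. -/
theorem IdxGe.dd {σ : Type*} [Fintype σ] {w : σ → ℝ} (hw : ∀ h, 0 ≤ w h) {ξ : σ → K}
    {p : MvPolynomial σ K} {a : ℝ} (h : IdxGe w ξ p a) (q : σ →₀ ℕ) :
    IdxGe w ξ (dd q p) (max 0 (a - ∑ h, w h * q h)) := by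
  intro e he
  rw [coeff_sh, dd_dd, map_mul] at he
  have h1 : (sh ξ p).coeff (e + q) ≠ 0 := by
    rw [coeff_sh]
    exact right_ne_zero_of_mul he
  have h2 := h _ h1
  have h3 : ∑ i, w i * ((e + q : σ →₀ ℕ) i : ℝ) = ∑ i, w i * e i + ∑ i, w i * q i := by
    rw [← Finset.sum_add_distrib]
    apply Finset.sum_congr rfl
    intro i _
    simp only [Finsupp.coe_add, Pi.add_apply]
    push_cast
    ring
  rw [h3] at h2
  apply max_le
  · exact Finset.sum_nonneg (fun i _ => mul_nonneg (hw i) (Nat.cast_nonneg _))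
  · linarith

omit [NumberField K] in
theorem IdxGe.add' {σ : Type*} [Fintype σ] {w : σ → ℝ} {ξ : σ → K} {p p' : MvPolynomial σ K}
    {a : ℝ} (h : IdxGe w ξ p a) (h' : IdxGe w ξ p' a) : IdxGe w ξ (p + p') a := by
  intro q hq
  unfold sh at hq
  rw [map_add, MvPolynomial.coeff_add] at hq
  by_cases h1 : (sh ξ p).coeff q = 0
  · apply h' q
    intro h2
    apply hq
    unfold sh at h1 h2
    rw [h1, h2, add_zero]
  · exact h q h1

omit [NumberField K] in
theorem IdxGe.zero' {σ : Type*} [Fintype σ] {w : σ → ℝ} {ξ : σ → K} {a : ℝ} :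
    IdxGe w ξ (0 : MvPolynomial σ K) a := by
  intro q hq
  unfold sh at hq
  rw [map_zero, MvPolynomial.coeff_zero] at hq
  exact absurd rfl hq

omit [NumberField K] in
theorem IdxGe.sum' {σ α : Type*} [Fintype σ] {w : σ → ℝ} {ξ : σ → K} (s : Finset α)
    (p : α → MvPolynomial σ K) {a : ℝ} (h : ∀ i ∈ s, IdxGe w ξ (p i) a) :
    IdxGe w ξ (∑ i ∈ s, p i) a := by
  classical
  induction s using Finset.induction_on with
  | empty => rw [Finset.sum_empty]; exact IdxGe.zero'
  | insert i s hi ih =>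
    rw [Finset.sum_insert hi]
    exact (h i (Finset.mem_insert_self i s)).add'
      (ih (fun j hj => h j (Finset.mem_insert_of_mem hj)))

omit [NumberField K] in
theorem IdxGe.mul' {σ : Type*} [Fintype σ] {w : σ → ℝ} {ξ : σ → K} {p p' : MvPolynomial σ K}
    {a b : ℝ} (h : IdxGe w ξ p a) (h' : IdxGe w ξ p' b) : IdxGe w ξ (p * p') (a + b) := by
  classical
  intro q hq
  unfold sh at hq
  rw [map_mul, MvPolynomial.coeff_mul] at hq
  obtain ⟨x, hx, hx0⟩ := Finset.exists_ne_zero_of_sum_ne_zero hq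
  rw [HasAntidiagonal.mem_antidiagonal] at hx
  have h1 := h x.1 (left_ne_zero_of_mul hx0)
  have h2 := h' x.2 (right_ne_zero_of_mul hx0)
  have h3 : ∑ i, w i * (q i : ℝ) = ∑ i, w i * x.1 i + ∑ i, w i * x.2 i := by
    rw [← Finset.sum_add_distrib, ← hx]
    apply Finset.sum_congr rfl
    intro i _
    simp only [Finsupp.coe_add, Pi.add_apply]
    push_cast
    ring
  rw [h3]
  linarith

omit [NumberField K] in
theorem IdxGe.one' {σ : Type*} [Fintype σ] {w : σ → ℝ} {ξ : σ → K} :
    IdxGe w ξ (1 : MvPolynomial σ K) 0 := by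
  classical
  intro q hq
  unfold sh at hq
  rw [map_one, MvPolynomial.coeff_one] at hq
  split_ifs at hq with h
  · rw [← h]
    simp
  · exact absurd rfl hq

omit [NumberField K] in
theorem IdxGe.prod' {σ α : Type*} [Fintype σ] {w : σ → ℝ} {ξ : σ → K} (s : Finset α)
    (p : α → MvPolynomial σ K) (a : α → ℝ) (h : ∀ i ∈ s, IdxGe w ξ (p i) (a i)) :
    IdxGe w ξ (∏ i ∈ s, p i) (∑ i ∈ s, a i) := by
  classical
  induction s using Finset.induction_on with
  | empty => rw [Finset.sum_empty, Finset.prod_empty]; exact IdxGe.one'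
  | insert i s hi ih =>
    rw [Finset.sum_insert hi, Finset.prod_insert hi]
    exact (h i (Finset.mem_insert_self i s)).mul'
      (ih (fun j hj => h j (Finset.mem_insert_of_mem hj)))

/-- R5c. -/
theorem IdxGe.det {σ : Type*} [Fintype σ] {w : σ → ℝ} {ξ : σ → K} {s : ℕ}
    (M : Matrix (Fin s) (Fin s) (MvPolynomial σ K)) (a : Fin s → ℝ)
    (h : ∀ i j, IdxGe w ξ (M i j) (a j)) : IdxGe w ξ (Matrix.det M) (∑ j, a j) := by
  rw [Matrix.det_apply]
  apply IdxGe.sum'
  intro τ _
  have h1 : IdxGe w ξ (∏ i, M (τ i) i) (∑ j, a j) :=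
    IdxGe.prod' Finset.univ (fun i => M (τ i) i) a (fun i _ => h (τ i) i)
  rcases Int.units_eq_one_or (Equiv.Perm.sign τ) with h2 | h2
  · rw [h2, one_smul]
    exact h1
  · rw [h2]
    intro q hq
    apply h1 q
    intro h3
    apply hq
    unfold sh at h3 ⊢
    rw [Units.neg_smul, one_smul, map_neg, MvPolynomial.coeff_neg, h3, neg_zero]

/-- R5d. -/
theorem coeff_sh_disj {n : ℕ} (u : MvPolynomial (Fin n) K) (w : Polynomial K)
    (ξ : Fin (n + 1) → K) (q : Fin n →₀ ℕ) (a : ℕ) :
    (sh ξ (MvPolynomial.rename Fin.succ u * Polynomial.aeval (MvPolynomial.X 0) w)).coeff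
      (Finsupp.cons a q) = (sh (fun h => ξ h.succ) u).coeff q *
        (w.comp (Polynomial.X + Polynomial.C (ξ 0))).coeff a := by
  rw [← coeff_disj]
  congr 1
  unfold sh
  rw [map_mul]
  congr 1
  · rw [MvPolynomial.bind₁_rename, MvPolynomial.rename_bind₁]
    congr 1
    congr 1
    funext i
    simp
  · rw [Polynomial.aeval_comp, ← Polynomial.aeval_algHom_apply]
    congr 2
    simp

omit [NumberField K] in
/-- R5e. -/
theorem sum_max_lower_aux (r s : ℕ) (hs : s ≤ r) (hr : 1 ≤ r) (a : ℝ) (ha : 0 ≤ a) (ha2 : a ≤ 2) :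
    (s + 1) * a ^ 2 / 8 ≤ ∑ j : Fin (s + 1), max 0 (a - (j : ℕ) / (r : ℝ)) := by
  have hr0 : (0 : ℝ) < r := by exact_mod_cast hr
  have hsr : (s : ℝ) ≤ r := by exact_mod_cast hs
  have hr1 : (1 : ℝ) ≤ r := by exact_mod_cast hr
  rw [Fin.sum_univ_eq_sum_range (fun j : ℕ => max 0 (a - (j : ℝ) / (r : ℝ))) (s + 1)]
  set M := ⌊a * r / 2⌋₊ with hM
  have hfl : (M : ℝ) ≤ a * r / 2 := Nat.floor_le (by positivity)
  have hfl2 : a * r / 2 < M + 1 := Nat.lt_floor_add_one _
  set N := min (s + 1) (M + 1) with hN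
  have h1 : ∑ j ∈ range N, (a / 2) ≤ ∑ j ∈ range (s + 1), max 0 (a - (j : ℝ) / (r : ℝ)) := by
    calc ∑ j ∈ range N, (a / 2) ≤ ∑ j ∈ range N, max 0 (a - (j : ℝ) / (r : ℝ)) := by
          apply Finset.sum_le_sum
          intro j hj
          rw [Finset.mem_range] at hj
          have hjM : j ≤ M := by omega
          have hj2 : (j : ℝ) ≤ a * r / 2 := le_trans (by exact_mod_cast hjM) hfl
          have hj3 : (j : ℝ) / r ≤ a / 2 := by
            rw [div_le_iff₀ hr0]; linarith
          exact le_max_of_le_right (by linarith)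
      _ ≤ _ := by
          apply Finset.sum_le_sum_of_subset_of_nonneg
          · intro j hj
            rw [Finset.mem_range] at hj ⊢
            omega
          · intro j _ _
            exact le_max_left _ _
  rw [Finset.sum_const, Finset.card_range, nsmul_eq_mul] at h1
  refine le_trans ?_ h1
  rcases le_total (s + 1) (M + 1) with hc | hc
  · rw [hN, min_eq_left hc]
    push_cast
    have : a ^ 2 ≤ 2 * a := by nlinarith
    have h0 : (0 : ℝ) ≤ s := Nat.cast_nonneg _
    nlinarith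
  · rw [hN, min_eq_right hc]
    push_cast
    have h2 : (s : ℝ) + 1 ≤ 2 * r := by linarith
    have h3 : a * r / 2 * (a / 2) ≤ (M + 1) * (a / 2) := by
      apply mul_le_mul_of_nonneg_right hfl2.le (by positivity)
    have h4 : (s + 1) * a ^ 2 / 8 ≤ a * r / 2 * (a / 2) := by nlinarith [sq_nonneg a]
    linarith

/-- R5e. -/
theorem sum_max_lower (r s : ℕ) (hs : s ≤ r) (hr : 1 ≤ r) (a : ℝ) (ha : 0 ≤ a) (ha2 : a ≤ 2) :
    (s + 1) * a ^ 2 / 8 ≤ ∑ j : Fin (s + 1), max 0 (a - (j : ℕ) / (r : ℝ)) :=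
  sum_max_lower_aux r s hs hr a ha ha2

end Pool.Agent.V2
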