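import Pool.Agent.Helper21.V2.BB
import Pool.Agent.Helper21.V2.R1
import Pool.Agent.Helper21.V2.R2
import Pool.Agent.Helper21.V2.R3
import Pool.Agent.Helper21.V2.R4
import Pool.Agent.Helper21.V2.R5

/-!
# Block R6: the lemma of Roth over a number field
-/

namespace Pool.Agent.V2

open NumberField Finset
open Pool.Agent.Helper64.Vojta (Pl nv)

set_option linter.unusedVariables false
set_option linter.unusedSectionVars false

variable {K : Type*} [Field K] [NumberField K] {ι : Type*} [Fintype ι] [DecidableEq ι]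

/-! ### degrees -/

theorem R6.degreeOf_dd_le {R σ : Type*} [CommRing R] [Fintype σ] (q : σ →₀ ℕ) (p : MvPolynomial σ R)
    (h : σ) : (dd q p).degreeOf h ≤ p.degreeOf h := by
  classical
  unfold dd
  refine (MvPolynomial.degreeOf_sum_le _ _ _).trans ?_
  refine Finset.sup_le fun d hd => ?_
  have h1 : d h ≤ p.degreeOf h := MvPolynomial.monomial_le_degreeOf h hd
  refine le_trans ?_ h1
  by_cases h0 : (MvPolynomial.monomial (d - q)) (p.coeff d * ((∏ i, (d i).choose (q i) : ℕ) : R)) = 0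
  · rw [h0]; simp
  · have h2 : (p.coeff d * ((∏ i, (d i).choose (q i) : ℕ) : R)) ≠ 0 := by
      intro h3; apply h0; rw [h3]; simp
    rw [MvPolynomial.degreeOf_monomial_eq _ _ h2]
    simp

theorem R6.degreeOf_det_le {R σ : Type*} [CommRing R] {s : ℕ}
    (M : Matrix (Fin s) (Fin s) (MvPolynomial σ R)) (h : σ) (D : ℕ)
    (hM : ∀ i j, (M i j).degreeOf h ≤ D) : (Matrix.det M).degreeOf h ≤ s * D := by
  classical
  rw [Matrix.det_apply]
  refine (MvPolynomial.degreeOf_sum_le _ _ _).trans ?_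
  refine Finset.sup_le fun τ _ => ?_
  have h1 : (∏ i, M (τ i) i).degreeOf h ≤ s * D := by
    refine (MvPolynomial.degreeOf_prod_le _ _ _).trans ?_
    refine (Finset.sum_le_card_nsmul _ _ D fun i _ => hM _ _).trans ?_
    simp
  rcases Int.units_eq_one_or (Equiv.Perm.sign τ) with h2 | h2
  · rw [h2]; simpa using h1
  · rw [h2]; simpa [MvPolynomial.degreeOf_neg] using h1

theorem R6.natDegree_det_le {R : Type*} [CommRing R] {s : ℕ}
    (M : Matrix (Fin s) (Fin s) (Polynomial R)) (D : ℕ)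
    (hM : ∀ i j, (M i j).natDegree ≤ D) : (Matrix.det M).natDegree ≤ s * D := by
  classical
  rw [Matrix.det_apply]
  refine Polynomial.natDegree_sum_le_of_forall_le _ _ fun τ _ => ?_
  have h1 : (∏ i, M (τ i) i).natDegree ≤ s * D := by
    refine (Polynomial.natDegree_prod_le _ _).trans ?_
    refine (Finset.sum_le_card_nsmul _ _ D fun i _ => hM _ _).trans ?_
    simp
  rcases Int.units_eq_one_or (Equiv.Perm.sign τ) with h2 | h2
  · rw [h2]; simpa using h1
  · rw [h2]; simpa [Polynomial.natDegree_neg] using h1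

/-! ### order of vanishing of a polynomial in one variable -/

theorem R6.exact_order (V : Polynomial K) (hV : V ≠ 0) (ξ : K) : ∃ l : ℕ,
    (Polynomial.X - Polynomial.C ξ) ^ l ∣ V ∧
      (V.comp (Polynomial.X + Polynomial.C ξ)).coeff l ≠ 0 := by
  obtain ⟨V', h1, h2⟩ := Polynomial.exists_eq_pow_rootMultiplicity_mul_and_not_dvd V hV ξ
  refine ⟨Polynomial.rootMultiplicity ξ V, ⟨V', h1⟩, ?_⟩
  have h3 : V.comp (Polynomial.X + Polynomial.C ξ) =
      Polynomial.X ^ (Polynomial.rootMultiplicity ξ V) *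
        V'.comp (Polynomial.X + Polynomial.C ξ) := by
    conv_lhs => rw [h1]
    rw [Polynomial.mul_comp, Polynomial.pow_comp, Polynomial.sub_comp, Polynomial.X_comp,
      Polynomial.C_comp]
    ring
  rw [h3]
  have h4 := Polynomial.coeff_X_pow_mul (V'.comp (Polynomial.X + Polynomial.C ξ))
    (Polynomial.rootMultiplicity ξ V) 0
  rw [zero_add] at h4
  rw [h4, Polynomial.coeff_zero_eq_eval_zero, Polynomial.eval_comp]
  simp only [Polynomial.eval_add, Polynomial.eval_X, Polynomial.eval_C, zero_add]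
  intro h5
  exact h2 (Polynomial.dvd_iff_isRoot.mpr h5)

/-! ### the induction step -/

/-- The analytic part of the induction step. -/
theorem R6.roth_step {m : ℕ} {θ : ℝ} (hθ : 0 < θ) (hθ1 : θ ≤ 1) {σ' A' : ℝ} (hσ' : 0 < σ')
    (hA' : 0 < A')
    (IH : ∀ (r : Fin m → ℕ), (∀ h, 1 ≤ r h) →
      (∀ h h' : Fin m, h < h' → (r h : ℝ) ≤ σ' * r h') →
      ∀ p : MvPolynomial (Fin m) K, p ≠ 0 → (∀ h, p.degreeOf h ≤ r h) →
      ∀ ξ : Fin m → K, (∀ h, A' * (pH p + ∑ h, (r h : ℝ)) ≤ r h * Height.logHeight₁ (ξ h)) →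
      ∃ q : Fin m →₀ ℕ, ∑ h, (q h : ℝ) / r h ≤ θ ^ 2 / 100 ∧ (sh ξ p).coeff q ≠ 0)
    {σ A : ℝ} (hσ : 0 < σ) (hσ1 : σ ≤ σ') (hσ2 : σ ≤ θ / 4)
    (hA1 : A' * (1 + 3 * Module.finrank ℚ K) ≤ A)
    (hA2 : 400 * (1 + 4 * Module.finrank ℚ K) / θ ^ 2 ≤ A)
    (r : Fin (m + 1) → ℕ) (hr : ∀ h, 1 ≤ r h)
    (hrσ : ∀ h h' : Fin (m + 1), h < h' → (r h : ℝ) ≤ σ * r h')
    (p : MvPolynomial (Fin (m + 1)) K) (hp : p ≠ 0) (hdeg : ∀ h, p.degreeOf h ≤ r h)
    (ξ : Fin (m + 1) → K)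
    (hξ : ∀ h, A * (pH p + ∑ h, (r h : ℝ)) ≤ r h * Height.logHeight₁ (ξ h))
    (hidx : IdxGe (fun h => (1 : ℝ) / r h) ξ p θ) : False := by
  classical
  set d : ℝ := (Module.finrank ℚ K : ℝ) with hd
  have hd0 : 0 ≤ d := by positivity
  obtain ⟨s, hs, f, g, hf, hg, hpfg, hfd, hgd⟩ := decomp p hp
  obtain ⟨μ, hμ, hU⟩ := wronsk f hf
  have hV := wronsk1 g hg
  have hW := wr_prod f g μ
  rw [← hpfg] at hW
  set U := Matrix.det (Matrix.of fun i j => dd (μ i) (f j)) with hUdef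
  set V := Matrix.det (Matrix.of fun i j : Fin (s + 1) => Polynomial.hasseDeriv (i : ℕ) (g j))
    with hVdef
  set W := Matrix.det (Matrix.of fun i j : Fin (s + 1) => dd (Finsupp.cons (j : ℕ) (μ i)) p)
    with hWdef
  have hUV := pH_mul_disj U V hU hV
  have hs' : s ≤ r 0 := hs.trans (hdeg 0)
  have hsr : s ≤ ∑ h, r h := hs'.trans (Finset.single_le_sum (fun _ _ => Nat.zero_le _)
    (Finset.mem_univ _))
  have hr0 : ∀ h, (0 : ℝ) < r h := fun h => by exact_mod_cast hr h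
  have hR : (0 : ℝ) < ∑ h, (r h : ℝ) := Finset.sum_pos (fun h _ => hr0 h) ⟨0, Finset.mem_univ _⟩
  have hp0 := pH_nonneg hp
  have hU0 := pH_nonneg hU
  have hV0 := pH1_nonneg hV
  -- W is nonzero
  have hUr : MvPolynomial.rename Fin.succ U ≠ (0 : MvPolynomial (Fin (m + 1)) K) := by
    intro h
    apply hU
    apply MvPolynomial.rename_injective _ (Fin.succ_injective m)
    rw [h, map_zero]
  obtain ⟨l, hl1, hl2⟩ := R6.exact_order V hV (ξ 0)
  have hHU : pH W ≤ (s + 1) * (pH p + 3 * d * ∑ h, (r h : ℝ)) := by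
    apply pH_det_le p r hdeg hsr (fun i j => Finsupp.cons (j : ℕ) (μ i))
    show W ≠ 0
    intro hW0
    -- the coefficient of the shift is nonzero
    rw [hW] at hW0
    rcases mul_eq_zero.mp hW0 with h | h
    · exact hUr h
    · apply hV
      have h6 : Function.Injective (Polynomial.aeval (MvPolynomial.X 0 : MvPolynomial (Fin (m + 1)) K)
          : Polynomial K →ₐ[K] MvPolynomial (Fin (m + 1)) K) := by
        have := (MvPolynomial.algebraicIndependent_X (Fin (m + 1)) K).transcendental 0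
        exact transcendental_iff_injective.mp this
      apply h6
      rw [h, map_zero]
  rw [hW, hUV] at hHU
  have hs1 : (0 : ℝ) < (s : ℝ) + 1 := by positivity
  -- degrees of U
  have hUdeg : ∀ h : Fin m, U.degreeOf h ≤ (s + 1) * r h.succ := fun h =>
    R6.degreeOf_det_le _ h _ fun i j =>
      (R6.degreeOf_dd_le _ _ _).trans ((hfd j h).trans (hdeg _))
  have hVdeg : V.natDegree ≤ (s + 1) * r 0 :=
    R6.natDegree_det_le _ _ fun i j =>
      (Polynomial.natDegree_hasseDeriv_le _ _).trans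
        ((Nat.sub_le _ _).trans ((hgd j).trans (hdeg 0)))
  -- use of the induction hypothesis
  have hsum : ∑ h : Fin m, (((s + 1) * r h.succ : ℕ) : ℝ) ≤ (s + 1) * ∑ h, (r h : ℝ) := by
    push_cast
    rw [← Finset.mul_sum, Fin.sum_univ_succ (fun h => (r h : ℝ))]
    have := (hr0 0).le
    nlinarith
  obtain ⟨q', hq1, hq2⟩ := IH (fun h => (s + 1) * r h.succ)
    (fun h => Nat.mul_pos (Nat.succ_pos s) (hr _)) (by
      intro h h' hh
      have h1 := hrσ h.succ h'.succ (Fin.succ_lt_succ_iff.mpr hh)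
      push_cast
      have h2 : (r h.succ : ℝ) ≤ σ' * r h'.succ :=
        h1.trans (mul_le_mul_of_nonneg_right hσ1 (hr0 _).le)
      nlinarith) U hU hUdeg (fun h => ξ h.succ) (by
      intro h
      have h1 := hξ h.succ
      have h2 : pH U + ∑ h : Fin m, (((s + 1) * r h.succ : ℕ) : ℝ) ≤
          (s + 1) * ((1 + 3 * d) * (pH p + ∑ h, (r h : ℝ))) := by
        have h3 : pH U ≤ (s + 1) * (pH p + 3 * d * ∑ h, (r h : ℝ)) := by linarith
        have h4 : (s + 1) * (pH p + 3 * d * ∑ h, (r h : ℝ)) + (s + 1) * ∑ h, (r h : ℝ) ≤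
            ((s : ℝ) + 1) * ((1 + 3 * d) * (pH p + ∑ h, (r h : ℝ))) := by
          rw [← mul_add]
          refine mul_le_mul_of_nonneg_left ?_ hs1.le
          have : 0 ≤ d * pH p := mul_nonneg hd0 hp0
          nlinarith
        linarith
      calc A' * (pH U + ∑ h : Fin m, (((s + 1) * r h.succ : ℕ) : ℝ))
          ≤ A' * ((s + 1) * ((1 + 3 * d) * (pH p + ∑ h, (r h : ℝ)))) :=
            mul_le_mul_of_nonneg_left h2 hA'.le
        _ = (s + 1) * ((A' * (1 + 3 * d)) * (pH p + ∑ h, (r h : ℝ))) := by ring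
        _ ≤ (s + 1) * (A * (pH p + ∑ h, (r h : ℝ))) := by
            refine mul_le_mul_of_nonneg_left ?_ hs1.le
            exact mul_le_mul_of_nonneg_right hA1 (by positivity)
        _ ≤ (s + 1) * (r h.succ * Height.logHeight₁ (ξ h.succ)) :=
            mul_le_mul_of_nonneg_left h1 hs1.le
        _ = (((s + 1) * r h.succ : ℕ) : ℝ) * Height.logHeight₁ (ξ h.succ) := by
            push_cast; ring)
  -- the order of vanishing of V
  have hA0 : 0 < A := lt_of_lt_of_le (by positivity) hA2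
  have hlV : (l : ℝ) / r 0 ≤ (s + 1) * (θ ^ 2 / 400) := by
    have h1 := one_var V hV (ξ 0) l hl1
    have h2 := hξ 0
    have h3 : Real.log (V.natDegree + 1) ≤ (s + 1) * ∑ h, (r h : ℝ) := by
      have h4 : Real.log (V.natDegree + 1) ≤ V.natDegree := by
        have := Real.log_le_sub_one_of_pos (show (0 : ℝ) < V.natDegree + 1 by positivity)
        linarith
      have h5 : (V.natDegree : ℝ) ≤ (s + 1) * r 0 := by exact_mod_cast hVdeg
      have h6 : (r 0 : ℝ) ≤ ∑ h, (r h : ℝ) :=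
        Finset.single_le_sum (f := fun h => (r h : ℝ)) (fun _ _ => (hr0 _).le) (Finset.mem_univ _)
      nlinarith
    have hH : 0 < Height.logHeight₁ (ξ 0) := by
      have h7 : 0 < (r 0 : ℝ) * Height.logHeight₁ (ξ 0) :=
        lt_of_lt_of_le (mul_pos hA0 (by linarith)) h2
      exact (pos_iff_pos_of_mul_pos h7).mp (hr0 0)
    have h8 : (l : ℝ) * Height.logHeight₁ (ξ 0) ≤
        (s + 1) * ((1 + 4 * d) * (pH p + ∑ h, (r h : ℝ))) := by
      have h9 : d * Real.log (V.natDegree + 1) ≤ d * ((s + 1) * ∑ h, (r h : ℝ)) :=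
        mul_le_mul_of_nonneg_left h3 hd0
      have h10 : (s + 1) * (pH p + 3 * d * ∑ h, (r h : ℝ)) + d * ((s + 1) * ∑ h, (r h : ℝ)) ≤
          ((s : ℝ) + 1) * ((1 + 4 * d) * (pH p + ∑ h, (r h : ℝ))) := by
        have : 0 ≤ d * pH p := mul_nonneg hd0 hp0
        have h11 : d * ((s + 1) * ∑ h, (r h : ℝ)) = (s + 1) * (d * ∑ h, (r h : ℝ)) := by ring
        rw [h11, ← mul_add]
        refine mul_le_mul_of_nonneg_left ?_ hs1.le
        nlinarith
      have h12 : (l : ℝ) * Height.logHeight₁ (ξ 0) ≤ pH1 V + d * Real.log (V.natDegree + 1) := h1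
      linarith
    have h13 : (l : ℝ) * Height.logHeight₁ (ξ 0) * A ≤
        (s + 1) * ((1 + 4 * d) * (r 0 * Height.logHeight₁ (ξ 0))) := by
      calc (l : ℝ) * Height.logHeight₁ (ξ 0) * A
          ≤ (s + 1) * ((1 + 4 * d) * (pH p + ∑ h, (r h : ℝ))) * A :=
            mul_le_mul_of_nonneg_right h8 hA0.le
        _ = (s + 1) * ((1 + 4 * d) * (A * (pH p + ∑ h, (r h : ℝ)))) := by ring
        _ ≤ _ := by
            refine mul_le_mul_of_nonneg_left ?_ hs1.le
            exact mul_le_mul_of_nonneg_left h2 (by positivity)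
    have h14 : (l : ℝ) * A ≤ (s + 1) * (1 + 4 * d) * r 0 := by
      have h15 : (l : ℝ) * A * Height.logHeight₁ (ξ 0) ≤
          (s + 1) * (1 + 4 * d) * r 0 * Height.logHeight₁ (ξ 0) := by
        calc _ = (l : ℝ) * Height.logHeight₁ (ξ 0) * A := by ring
          _ ≤ _ := h13
          _ = _ := by ring
      exact le_of_mul_le_mul_right h15 hH
    have h16 : (1 + 4 * d) ≤ θ ^ 2 / 400 * A := by
      have h17 := (div_le_iff₀ (by positivity : (0 : ℝ) < θ ^ 2)).mp hA2
      have : 400 * (1 + 4 * d) ≤ A * θ ^ 2 := h17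
      nlinarith
    rw [div_le_iff₀ (hr0 0)]
    have h18 : (l : ℝ) * A ≤ ((s + 1) * (θ ^ 2 / 400) * r 0) * A := by
      calc (l : ℝ) * A ≤ (s + 1) * (1 + 4 * d) * r 0 := h14
        _ ≤ (s + 1) * (θ ^ 2 / 400 * A) * r 0 := by
            refine mul_le_mul_of_nonneg_right ?_ (hr0 0).le
            exact mul_le_mul_of_nonneg_left h16 hs1.le
        _ = _ := by ring
    exact le_of_mul_le_mul_right h18 hA0
  -- the index of W from below
  have hw0 : ∀ h : Fin (m + 1), (0 : ℝ) ≤ 1 / r h := fun h => by positivity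
  have hidxW : IdxGe (fun h => (1 : ℝ) / r h) ξ W
      (∑ j : Fin (s + 1), max 0 ((θ - σ) - (j : ℕ) / (r 0 : ℝ))) := by
    apply IdxGe.det
    intro i j
    have h1 := IdxGe.dd hw0 hidx (Finsupp.cons (j : ℕ) (μ i))
    intro q hq
    refine le_trans ?_ (h1 q hq)
    apply max_le_max le_rfl
    have h2 : ∑ h, (1 / (r h : ℝ)) * (Finsupp.cons (j : ℕ) (μ i) h : ℕ) ≤
        (j : ℕ) / (r 0 : ℝ) + σ := by
      rw [Fin.sum_univ_succ]
      simp only [Finsupp.cons_zero, Finsupp.cons_succ]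
      have h3 : ∑ h : Fin m, 1 / (r h.succ : ℝ) * (μ i h : ℕ) ≤ σ := by
        have h4 : ∀ h : Fin m, 1 / (r h.succ : ℝ) * (μ i h : ℕ) ≤ (σ / r 0) * (μ i h : ℕ) := by
          intro h
          refine mul_le_mul_of_nonneg_right ?_ (by positivity)
          have h5 := hrσ 0 h.succ (Fin.succ_pos h)
          rw [div_le_div_iff₀ (hr0 _) (hr0 _)]
          linarith
        calc ∑ h : Fin m, 1 / (r h.succ : ℝ) * (μ i h : ℕ)
            ≤ ∑ h : Fin m, (σ / r 0) * ((μ i h : ℕ) : ℝ) := Finset.sum_le_sum fun h _ => h4 h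
          _ = (σ / r 0) * ((∑ h, μ i h : ℕ) : ℝ) := by rw [← Finset.mul_sum]; push_cast; rfl
          _ ≤ (σ / r 0) * (r 0 : ℝ) := by
              refine mul_le_mul_of_nonneg_left ?_ (by positivity)
              exact_mod_cast (hμ i).trans hs'
          _ = σ := div_mul_cancel₀ _ (hr0 0).ne'
      have h6 : 1 / (r 0 : ℝ) * ((j : ℕ) : ℝ) = (j : ℕ) / (r 0 : ℝ) := by ring
      rw [h6]
      linarith
    linarith
  have hlow := sum_max_lower (r 0) s hs' (hr 0) (θ - σ) (by linarith) (by linarith)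
  -- the coefficient of the shift of W
  have hcoef : (sh ξ W).coeff (Finsupp.cons l q') ≠ 0 := by
    rw [hW, coeff_sh_disj]
    exact mul_ne_zero hq2 hl2
  have hup := hidxW _ hcoef
  have hup2 : ∑ h, (1 / (r h : ℝ)) * (Finsupp.cons l q' h : ℕ) ≤
      (s + 1) * (θ ^ 2 / 400) + (s + 1) * (θ ^ 2 / 100) := by
    rw [Fin.sum_univ_succ]
    simp only [Finsupp.cons_zero, Finsupp.cons_succ]
    have h1 : 1 / (r 0 : ℝ) * (l : ℝ) = (l : ℝ) / r 0 := by ring
    have h2 : ∑ h : Fin m, 1 / (r h.succ : ℝ) * (q' h : ℕ) ≤ (s + 1) * (θ ^ 2 / 100) := by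
      have h3 : ∑ h : Fin m, 1 / (r h.succ : ℝ) * (q' h : ℕ) =
          (s + 1) * ∑ h : Fin m, (q' h : ℝ) / (((s + 1) * r h.succ : ℕ) : ℝ) := by
        rw [Finset.mul_sum]
        refine Finset.sum_congr rfl fun h _ => ?_
        have := (hr0 h.succ).ne'
        push_cast
        field_simp
      rw [h3]
      exact mul_le_mul_of_nonneg_left hq1 hs1.le
    rw [h1]
    linarith
  have hfin : (s + 1) * (θ - σ) ^ 2 / 8 ≤ ((s : ℝ) + 1) * (θ ^ 2 / 80) := by
    have : (s + 1) * (θ ^ 2 / 400) + (s + 1) * (θ ^ 2 / 100) = ((s : ℝ) + 1) * (θ ^ 2 / 80) := by ring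
    linarith
  have hfin2 : (θ - σ) ^ 2 / 8 ≤ θ ^ 2 / 80 := by
    have h1 : (s + 1) * ((θ - σ) ^ 2 / 8) ≤ ((s : ℝ) + 1) * (θ ^ 2 / 80) := by
      calc _ = (s + 1) * (θ - σ) ^ 2 / 8 := by ring
        _ ≤ _ := hfin
    exact le_of_mul_le_mul_left h1 hs1
  have h3 : 3 / 4 * θ ≤ θ - σ := by linarith
  have h4 : (3 / 4 * θ) ^ 2 ≤ (θ - σ) ^ 2 := pow_le_pow_left₀ (by positivity) h3 2
  nlinarith [sq_pos_of_pos hθ]

/-- R6. Roth's lemma (qualitative form). The degrees increase rapidly with the index. -/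
theorem roth_lemma (K : Type*) [Field K] [NumberField K] (m : ℕ) (θ : ℝ) (hθ : 0 < θ) :
    ∃ σ : ℝ, 0 < σ ∧ ∃ A : ℝ, 0 < A ∧ ∀ (r : Fin m → ℕ), (∀ h, 1 ≤ r h) →
      (∀ h h' : Fin m, h < h' → (r h : ℝ) ≤ σ * r h') →
      ∀ p : MvPolynomial (Fin m) K, p ≠ 0 → (∀ h, p.degreeOf h ≤ r h) →
      ∀ ξ : Fin m → K, (∀ h, A * (pH p + ∑ h, (r h : ℝ)) ≤ r h * Height.logHeight₁ (ξ h)) →
      ∃ q : Fin m →₀ ℕ, ∑ h, (q h : ℝ) / r h ≤ θ ∧ (sh ξ p).coeff q ≠ 0 := by
  induction m generalizing θ with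
  | zero =>
    refine ⟨1, one_pos, 1, one_pos, ?_⟩
    intro r _ _ p hp _ ξ _
    refine ⟨0, by simpa using hθ.le, ?_⟩
    obtain ⟨c, rfl⟩ := MvPolynomial.C_surjective (Fin 0) p
    unfold sh
    rw [MvPolynomial.bind₁_C_right]
    intro h
    rw [MvPolynomial.coeff_zero_C] at h
    exact hp (by rw [h, map_zero])
  | succ m ih =>
    have hmin : 0 < min θ 1 := lt_min hθ one_pos
    obtain ⟨σ', hσ', A', hA', IH⟩ := ih ((min θ 1) ^ 2 / 100) (by positivity)
    refine ⟨min σ' (min θ 1 / 4), lt_min hσ' (by positivity),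
      max (A' * (1 + 3 * Module.finrank ℚ K)) (400 * (1 + 4 * Module.finrank ℚ K) / (min θ 1) ^ 2),
      lt_max_of_lt_right (by positivity), ?_⟩
    intro r hr hrσ p hp hdeg ξ hξ
    by_contra hcon
    push Not at hcon
    apply R6.roth_step hmin (min_le_right _ _) hσ' hA' IH (lt_min hσ' (by positivity))
      (min_le_left _ _) (min_le_right _ _) (le_max_left _ _) (le_max_right _ _) r hr hrσ p hp hdeg
      ξ hξ
    intro q hq
    by_contra hlt
    push Not at hlt
    apply hq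
    apply hcon q
    have h1 : ∑ h, (q h : ℝ) / r h = ∑ h, 1 / (r h : ℝ) * q h :=
      Finset.sum_congr rfl fun h _ => by ring
    rw [h1]
    exact hlt.le.trans (min_le_left _ _)

end Pool.Agent.V2
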