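import Pool.Agent.Helper21.V2.BA
import Pool.Agent.Helper21.V2.BB
import Pool.Agent.Helper21.V2.R6

/-!
# Generalised Roth lemma (block G1)
-/

namespace Pool.Agent.V2

open NumberField Finset
open Pool.Agent.Helper64.Vojta (Pl nv nv_one nv_nonneg nv_pos nv_zero)

set_option linter.unusedVariables false
set_option linter.unusedSectionVars false



section heights

variable {K : Type*} [Field K] [NumberField K] {ι : Type*} [Fintype ι] [DecidableEq ι]

theorem g1_vH_le_sum (M : ι → K) (a : ι) (ha : M a ≠ 0) :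
    vH M ≤ ∑ b ∈ univ.erase a, Height.logHeight₁ (M b / M a) := by
  classical
  have hM : M ≠ 0 := fun h => ha (by rw [h]; rfl)
  set x : ι → K := (M a)⁻¹ • M with hx
  have hxa : x a = 1 := by simp [hx, ha]
  have hx0 : x ≠ 0 := fun h => by
    have : x a = 0 := by rw [h]; rfl
    rw [hxa] at this
    exact one_ne_zero this
  have h1 : vH M = vH x := (vH_smul hM (inv_ne_zero ha)).symm
  have hy : ∀ b : ι, (![x b, 1] : Fin 2 → K) ≠ 0 := fun b h => by
    have := congrFun h 1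
    simp at this
  have h2 : ∀ b : ι, Height.logHeight₁ (M b / M a) = vH (![x b, 1] : Fin 2 → K) := by
    intro b
    have h3 : x b = M b / M a := by
      simp [hx, div_eq_inv_mul]
    rw [← h3, Height.logHeight₁_eq_logHeight, vH_eq (hy b)]
  rw [h1]
  simp_rw [h2]
  unfold vH
  rw [← gsum_sum _ (fun b _ => finS_vn (hy b))]
  refine gsum_mono (finS_vn hx0) (FinS.sum _ fun b _ => finS_vn (hy b)) fun v => ?_
  have h4 : ∀ b : ι, 1 ≤ vn v (![x b, 1] : Fin 2 → K) := fun b => by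
    have := le_vn v (![x b, 1] : Fin 2 → K) 1
    simpa [nv_one] using this
  rw [← Real.log_prod (fun b _ => (lt_of_lt_of_le one_pos (h4 b)).ne')]
  refine Real.log_le_log (vn_pos v hx0) (vn_le v x (Finset.prod_nonneg fun b _ =>
    (zero_le_one.trans (h4 b))) fun i => ?_)
  have h5 : ∀ s : Finset ι, 1 ≤ ∏ b ∈ s, vn v (![x b, 1] : Fin 2 → K) := fun s =>
    Finset.prod_induction _ (fun y : ℝ => (1 : ℝ) ≤ y)
      (fun a b ha hb => one_le_mul_of_one_le_of_one_le ha hb) le_rfl (fun b _ => h4 b)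
  by_cases hi : i = a
  · rw [hi, hxa, nv_one]
    exact h5 _
  · have h6 : i ∈ univ.erase a := mem_erase.2 ⟨hi, mem_univ i⟩
    rw [← Finset.mul_prod_erase _ _ h6]
    have h7 := le_vn v (![x i, 1] : Fin 2 → K) 0
    have h8 : nv v (x i) ≤ vn v (![x i, 1] : Fin 2 → K) := by simpa using h7
    calc nv v (x i) ≤ vn v (![x i, 1] : Fin 2 → K) := h8
      _ = vn v (![x i, 1] : Fin 2 → K) * 1 := (mul_one _).symm
      _ ≤ _ := mul_le_mul_of_nonneg_left (h5 _) (zero_le_one.trans (h4 i))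

/-- choice of the two coordinates -/
theorem g1_choose (M : ι → K) (hM : 0 < vH M) (hM0 : M ≠ 0) : ∃ a b : ι, a ≠ b ∧ M a ≠ 0 ∧
    vH M ≤ Fintype.card ι * Height.logHeight₁ (M b / M a) := by
  classical
  obtain ⟨a, ha⟩ := Function.ne_iff.1 hM0
  have ha' : M a ≠ 0 := ha
  have h1 := g1_vH_le_sum M a ha'
  by_contra hcon
  push Not at hcon
  have h2 : ∀ b ∈ univ.erase a, (Fintype.card ι : ℝ) * Height.logHeight₁ (M b / M a) ≤ vH M :=
    fun b hb => (hcon a b (mem_erase.1 hb).1.symm ha').le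
  rcases (univ.erase a).eq_empty_or_nonempty with h3 | h3
  · rw [h3, sum_empty] at h1
    linarith
  · have hlt : (Fintype.card ι : ℝ) * ∑ b ∈ univ.erase a, Height.logHeight₁ (M b / M a) <
        ∑ b ∈ univ.erase a, vH M := by
      rw [mul_sum]
      obtain ⟨b, hb⟩ := h3
      exact sum_lt_sum h2 ⟨b, hb, hcon a b (mem_erase.1 hb).1.symm ha'⟩
    rw [sum_const, nsmul_eq_mul] at hlt
    have hc : (((univ.erase a).card : ℕ) : ℝ) ≤ Fintype.card ι := by
      exact_mod_cast card_le_univ _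
    have h4 : (((univ.erase a).card : ℕ) : ℝ) * vH M ≤ Fintype.card ι * vH M :=
      mul_le_mul_of_nonneg_right hc hM.le
    have h5 : (Fintype.card ι : ℝ) * vH M ≤
        Fintype.card ι * ∑ b ∈ univ.erase a, Height.logHeight₁ (M b / M a) :=
      mul_le_mul_of_nonneg_left h1 (Nat.cast_nonneg _)
    linarith

end heights

section poly

variable {K : Type*} [Field K] {ι : Type*} [Fintype ι] [DecidableEq ι] {m : ℕ}

/-- the exponents of the variables different from the two chosen ones -/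
noncomputable def g1z (a b : Fin m → ι) (d : Fin m × ι →₀ ℕ) : Fin m × ι →₀ ℕ :=
  d.filter fun x => x.2 ≠ a x.1 ∧ x.2 ≠ b x.1

/-- the exponents of the first chosen variables -/
noncomputable def g1e (a : Fin m → ι) (d : Fin m × ι →₀ ℕ) : Fin m →₀ ℕ :=
  Finsupp.equivFunOnFinite.symm fun h => d (h, a h)

@[simp] theorem g1e_apply (a : Fin m → ι) (d : Fin m × ι →₀ ℕ) (h : Fin m) :
    g1e a d h = d (h, a h) := rfl

theorem g1z_apply_pos {a b : Fin m → ι} (d : Fin m × ι →₀ ℕ) {h : Fin m} {i : ι} (h1 : i ≠ a h)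
    (h2 : i ≠ b h) : g1z a b d (h, i) = d (h, i) :=
  Finsupp.filter_apply_pos _ _ ⟨h1, h2⟩

theorem g1z_apply_neg {a b : Fin m → ι} (d : Fin m × ι →₀ ℕ) {h : Fin m} {i : ι}
    (h1 : ¬ (i ≠ a h ∧ i ≠ b h)) : g1z a b d (h, i) = 0 :=
  Finsupp.filter_apply_neg _ _ h1

/-- the terms with a given exponent of the other variables -/
noncomputable def g1S (P : MvPolynomial (Fin m × ι) K) (a b : Fin m → ι) (ζ : Fin m × ι →₀ ℕ) :
    Finset (Fin m × ι →₀ ℕ) := P.support.filter fun d => g1z a b d = ζ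

/-- the dehomogenised coefficient of the monomial `ζ` -/
noncomputable def g1p (P : MvPolynomial (Fin m × ι) K) (a b : Fin m → ι) (ζ : Fin m × ι →₀ ℕ) :
    MvPolynomial (Fin m) K := ∑ d ∈ g1S P a b ζ, MvPolynomial.monomial (g1e a d) (P.coeff d)

theorem g1_inj {r : Fin m → ℕ} {P : MvPolynomial (Fin m × ι) K} (hP : MHom r P) {a b : Fin m → ι}
    (hab : ∀ h, a h ≠ b h) {ζ : Fin m × ι →₀ ℕ} {d d' : Fin m × ι →₀ ℕ}
    (hd : d ∈ g1S P a b ζ) (hd' : d' ∈ g1S P a b ζ) (he : g1e a d = g1e a d') : d = d' := by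
  classical
  rw [g1S, mem_filter] at hd hd'
  have h1 : ∀ h i, i ≠ b h → d (h, i) = d' (h, i) := by
    intro h i hi
    by_cases hia : i = a h
    · subst hia
      have := DFunLike.congr_fun he h
      simpa using this
    · have := DFunLike.congr_fun (hd.2.trans hd'.2.symm) (h, i)
      rwa [g1z_apply_pos _ hia hi, g1z_apply_pos _ hia hi] at this
  ext ⟨h, i⟩
  by_cases hi : i = b h
  · have h2 := hP d hd.1 h
    have h3 := hP d' hd'.1 h
    rw [← Finset.add_sum_erase _ _ (mem_univ (b h))] at h2 h3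
    have h4 : ∑ i ∈ univ.erase (b h), d (h, i) = ∑ i ∈ univ.erase (b h), d' (h, i) :=
      sum_congr rfl fun i hi => h1 h i (mem_erase.1 hi).1
    rw [hi]
    omega
  · exact h1 h i hi

theorem g1p_coeff {r : Fin m → ℕ} {P : MvPolynomial (Fin m × ι) K} (hP : MHom r P)
    {a b : Fin m → ι} (hab : ∀ h, a h ≠ b h) {ζ : Fin m × ι →₀ ℕ} {d : Fin m × ι →₀ ℕ}
    (hd : d ∈ g1S P a b ζ) : (g1p P a b ζ).coeff (g1e a d) = P.coeff d := by
  classical
  rw [g1p, MvPolynomial.coeff_sum, Finset.sum_eq_single d]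
  · rw [MvPolynomial.coeff_monomial, if_pos rfl]
  · intro d' hd' hne
    rw [MvPolynomial.coeff_monomial, if_neg]
    intro h
    exact hne (g1_inj hP hab hd' hd h)
  · intro h
    exact absurd hd h

theorem g1p_coeff_zero {P : MvPolynomial (Fin m × ι) K} {a b : Fin m → ι} {ζ : Fin m × ι →₀ ℕ}
    {e : Fin m →₀ ℕ} (he : e ∉ (g1S P a b ζ).image (g1e a)) : (g1p P a b ζ).coeff e = 0 := by
  classical
  rw [g1p, MvPolynomial.coeff_sum]
  refine Finset.sum_eq_zero fun d hd => ?_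
  rw [MvPolynomial.coeff_monomial, if_neg]
  intro h
  exact he (mem_image.2 ⟨d, hd, h⟩)

theorem g1p_support {r : Fin m → ℕ} {P : MvPolynomial (Fin m × ι) K} (hP : MHom r P)
    {a b : Fin m → ι} (hab : ∀ h, a h ≠ b h) {ζ : Fin m × ι →₀ ℕ} :
    (g1p P a b ζ).support = (g1S P a b ζ).image (g1e a) := by
  classical
  ext e
  rw [MvPolynomial.mem_support_iff]
  constructor
  · intro h
    by_contra hcon
    exact h (g1p_coeff_zero hcon)
  · intro h
    obtain ⟨d, hd, rfl⟩ := mem_image.1 h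
    rw [g1p_coeff hP hab hd]
    exact MvPolynomial.mem_support_iff.1 (mem_filter.1 hd).1

theorem g1_eval_dd {r : Fin m → ℕ} {P : MvPolynomial (Fin m × ι) K} (hP : MHom r P)
    {a b : Fin m → ι} (hab : ∀ h, a h ≠ b h) {ζ : Fin m × ι →₀ ℕ} (q : Fin m →₀ ℕ)
    (ξ : Fin m → K) :
    MvPolynomial.eval ξ (dd q (g1p P a b ζ)) = ∑ d ∈ g1S P a b ζ,
      P.coeff d * ((∏ h, (d (h, a h)).choose (q h) : ℕ) : K) * ∏ h, ξ h ^ (d (h, a h) - q h) := by
  classical
  rw [dd, g1p_support hP hab, Finset.sum_image (fun d hd d' hd' h => g1_inj hP hab hd hd' h),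
    map_sum]
  refine sum_congr rfl fun d hd => ?_
  rw [g1p_coeff hP hab hd, MvPolynomial.eval_monomial, Finsupp.prod_fintype _ _ (by simp)]
  simp

/-- the substitution parametrising the product of the hyperplanes -/
noncomputable def g1f (M : Fin m → ι → K) (a b : Fin m → ι) (x : Fin m × ι) :
    MvPolynomial (Fin m × ι) K :=
  if x.2 = a x.1 then
    MvPolynomial.C (-(M x.1 (b x.1) / M x.1 (a x.1))) -
      ∑ j ∈ univ.filter (fun j => j ≠ a x.1 ∧ j ≠ b x.1),
        MvPolynomial.C (M x.1 j / M x.1 (a x.1)) * MvPolynomial.X (x.1, j)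
  else if x.2 = b x.1 then 1 else MvPolynomial.X x

theorem g1f_zero (M : Fin m → ι → K) (a b : Fin m → ι) (h : Fin m) :
    MvPolynomial.constantCoeff (g1f M a b (h, a h)) = -(M h (b h) / M h (a h)) := by
  simp [g1f]

/-- the point of the hyperplanes -/
noncomputable def g1x (M : Fin m → ι → K) (a b : Fin m → ι) (z : Fin m × ι → K) (h : Fin m)
    (i : ι) : K := MvPolynomial.eval z (g1f M a b (h, i))

theorem g1x_hyp (M : Fin m → ι → K) {a b : Fin m → ι} (hab : ∀ h, a h ≠ b h)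
    (hM : ∀ h, M h (a h) ≠ 0) (z : Fin m × ι → K) (h : Fin m) :
    ∑ i, M h i * g1x M a b z h i = 0 := by
  classical
  have h1 : g1x M a b z h (a h) = -(M h (b h) / M h (a h)) -
      ∑ j ∈ univ.filter (fun j => j ≠ a h ∧ j ≠ b h), M h j / M h (a h) * z (h, j) := by
    simp [g1x, g1f]
  have h2 : g1x M a b z h (b h) = 1 := by
    simp [g1x, g1f, (hab h).symm]
  have h3 : ∀ i ∈ univ.filter (fun j => j ≠ a h ∧ j ≠ b h), M h i * g1x M a b z h i =
      M h i * z (h, i) := by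
    intro i hi
    have hi' := (mem_filter.1 hi).2
    simp [g1x, g1f, hi'.1, hi'.2]
  have h4 : (univ : Finset ι) = insert (a h) (insert (b h)
      (univ.filter (fun j => j ≠ a h ∧ j ≠ b h))) := by
    ext i
    simp only [mem_univ, mem_insert, mem_filter, true_and, true_iff]
    tauto
  rw [h4, sum_insert (by simp [hab h]), sum_insert (by simp), sum_congr rfl h3, h1, h2]
  have h5 : M h (a h) * ∑ j ∈ univ.filter (fun j => j ≠ a h ∧ j ≠ b h),
      M h j / M h (a h) * z (h, j) =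
      ∑ j ∈ univ.filter (fun j => j ≠ a h ∧ j ≠ b h), M h j * z (h, j) := by
    rw [mul_sum]
    refine sum_congr rfl fun j _ => ?_
    field_simp [hM h]
  rw [mul_sub, h5]
  field_simp [hM h]
  ring

/-- the derivative in the directions of the first chosen variables -/
noncomputable def g1q (a : Fin m → ι) (q : Fin m →₀ ℕ) : Fin m × ι →₀ ℕ :=
  Finsupp.equivFunOnFinite.symm fun x => if x.2 = a x.1 then q x.1 else 0

theorem g1q_apply (a : Fin m → ι) (q : Fin m →₀ ℕ) (h : Fin m) (i : ι) :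
    g1q a q (h, i) = if i = a h then q h else 0 := rfl

theorem g1_prod {M : Type*} [CommMonoid M] (a : Fin m → ι) (f : Fin m × ι → M)
    (hf : ∀ h i, i ≠ a h → f (h, i) = 1) : ∏ x, f x = ∏ h, f (h, a h) := by
  classical
  rw [Fintype.prod_prod_type]
  refine prod_congr rfl fun h _ => ?_
  exact Finset.prod_eq_single (a h) (fun i _ hi => hf h i hi) (fun h => absurd (mem_univ _) h)

theorem g1_coeff_term (M : Fin m → ι → K) {a b : Fin m → ι} (hab : ∀ h, a h ≠ b h)
    (q : Fin m →₀ ℕ) (d : Fin m × ι →₀ ℕ) (ζ : Fin m × ι →₀ ℕ) (hζ : ¬ g1z a b d < ζ) :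
    (∏ x, g1f M a b x ^ (d - g1q a q) x).coeff ζ =
      if g1z a b d = ζ then ∏ h, (-(M h (b h) / M h (a h))) ^ (d (h, a h) - q h) else 0 := by
  classical
  have h1 : ∏ x, g1f M a b x ^ (d - g1q a q) x =
      MvPolynomial.monomial (g1z a b d) (1 : K) *
        ∏ h, g1f M a b (h, a h) ^ (d (h, a h) - q h) := by
    have h2 : MvPolynomial.monomial (g1z a b d) (1 : K) =
        ∏ x, (MvPolynomial.X x : MvPolynomial (Fin m × ι) K) ^ (g1z a b d x) := by
      rw [MvPolynomial.monomial_eq, Finsupp.prod_fintype _ _ (by simp)]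
      simp
    have h3 : ∏ h, g1f M a b (h, a h) ^ (d (h, a h) - q h) =
        ∏ x, (if x.2 = a x.1 then g1f M a b x ^ (d x - q x.1) else 1) := by
      rw [g1_prod a _ (fun h i hi => by simp [hi])]
      simp
    rw [h2, h3, ← prod_mul_distrib]
    refine prod_congr rfl fun x _ => ?_
    obtain ⟨h, i⟩ := x
    by_cases hia : i = a h
    · subst hia
      rw [g1z_apply_neg _ (by simp)]
      simp [g1q_apply]
    · by_cases hib : i = b h
      · subst hib
        rw [g1z_apply_neg _ (by simp)]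
        simp [g1f, hia]
      · rw [g1z_apply_pos _ hia hib]
        simp [g1f, hia, hib, g1q_apply]
  rw [h1, MvPolynomial.coeff_monomial_mul']
  by_cases h4 : g1z a b d = ζ
  · rw [if_pos h4.le, if_pos h4, h4, tsub_self, one_mul]
    change MvPolynomial.constantCoeff _ = _
    rw [map_prod]
    refine prod_congr rfl fun h _ => ?_
    rw [map_pow, g1f_zero]
  · rw [if_neg h4, if_neg]
    intro h5
    exact hζ (lt_of_le_of_ne h5 h4)

theorem g1_coeff (P : MvPolynomial (Fin m × ι) K) (M : Fin m → ι → K) {a b : Fin m → ι}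
    (hab : ∀ h, a h ≠ b h) (q : Fin m →₀ ℕ) (ζ : Fin m × ι →₀ ℕ)
    (hζ : ∀ d ∈ P.support, ¬ g1z a b d < ζ) :
    (MvPolynomial.bind₁ (g1f M a b) (dd (g1q a q) P)).coeff ζ = ∑ d ∈ g1S P a b ζ,
      P.coeff d * ((∏ h, (d (h, a h)).choose (q h) : ℕ) : K) *
        ∏ h, (-(M h (b h) / M h (a h))) ^ (d (h, a h) - q h) := by
  classical
  rw [dd, map_sum, MvPolynomial.coeff_sum, g1S, Finset.sum_filter]
  refine sum_congr rfl fun d hd => ?_
  have h0 : ∏ x ∈ (d - g1q a q).support, g1f M a b x ^ (d - g1q a q) x =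
      ∏ x, g1f M a b x ^ (d - g1q a q) x := by
    refine Finset.prod_subset (subset_univ _) fun x _ hx => ?_
    rw [Finsupp.notMem_support_iff.1 hx, pow_zero]
  rw [MvPolynomial.bind₁_monomial, h0, MvPolynomial.coeff_C_mul,
    g1_coeff_term M hab q d ζ (hζ d hd), g1_prod a (fun x => (d x).choose (g1q a q x))
      (fun h i hi => by simp [g1q_apply, hi])]
  split_ifs with h
  · simp [g1q_apply]
  · simp

end poly

/-- G1. Generalised Roth lemma. -/
theorem gen_roth (K : Type*) [Field K] [NumberField K] (ι : Type*) [Fintype ι] [DecidableEq ι]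
    (m : ℕ) (θ : ℝ) (hθ : 0 < θ) :
    ∃ σ : ℝ, 0 < σ ∧ ∃ A : ℝ, 0 < A ∧ ∀ (r : Fin m → ℕ), (∀ h, 1 ≤ r h) →
      (∀ h h' : Fin m, h < h' → (r h : ℝ) ≤ σ * r h') →
      ∀ P : MvPolynomial (Fin m × ι) K, P ≠ 0 → MHom r P →
      ∀ M : Fin m → ι → K, (∀ h, M h ≠ 0) →
      (∀ h, A * (pH P + ∑ h, (r h : ℝ)) ≤ r h * vH (M h)) →
      ∃ q : Fin m × ι →₀ ℕ, ∑ h, (∑ i, (q (h, i) : ℝ)) / r h ≤ θ ∧
        ∃ x : Fin m → ι → K, (∀ h, ∑ i, M h i * x h i = 0) ∧
          MvPolynomial.eval (fun a => x a.1 a.2) (dd q P) ≠ 0 := by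
  classical
  obtain ⟨σ, hσ, A, hA, H⟩ := roth_lemma K m θ hθ
  refine ⟨σ, hσ, (Fintype.card ι + 1) * A, by positivity, ?_⟩
  intro r hr hr' P hP0 hP M hM hH
  have hsum : ∀ h : Fin m, (1 : ℝ) ≤ ∑ h, (r h : ℝ) := by
    intro h
    calc (1 : ℝ) ≤ r h := by exact_mod_cast hr h
      _ ≤ ∑ h, (r h : ℝ) := Finset.single_le_sum (f := fun h => (r h : ℝ))
          (fun _ _ => Nat.cast_nonneg _) (mem_univ h)
  have hpH := pH_nonneg hP0
  have hvpos : ∀ h, 0 < vH (M h) := by
    intro h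
    have h1 := hH h
    have h2 := hsum h
    have h3 : 0 < (Fintype.card ι + 1) * A * (pH P + ∑ h, (r h : ℝ)) := by positivity
    have h4 : (0 : ℝ) < r h := by exact_mod_cast (lt_of_lt_of_le one_pos (hr h))
    by_contra h5
    push Not at h5
    nlinarith
  choose a b hab hMa hMb using fun h => g1_choose (M h) (hvpos h) (hM h)
  obtain ⟨d1, hd1⟩ := MvPolynomial.support_nonempty.2 hP0
  obtain ⟨ζ, hζ⟩ := (P.support.image (g1z a b)).exists_minimal ⟨_, mem_image_of_mem _ hd1⟩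
  have hζ' : ∀ d ∈ P.support, ¬ g1z a b d < ζ := fun d hd hlt =>
    absurd (hζ.2 (mem_image_of_mem _ hd) hlt.le) (not_le_of_gt hlt)
  obtain ⟨d0, hd0, hd0ζ⟩ := mem_image.1 hζ.1
  have hd0S : d0 ∈ g1S P a b ζ := mem_filter.2 ⟨hd0, hd0ζ⟩
  set p := g1p P a b ζ with hp
  have hp0 : p ≠ 0 := by
    intro h
    have h1 := g1p_coeff hP hab hd0S
    rw [← hp, h, MvPolynomial.coeff_zero] at h1
    exact MvPolynomial.mem_support_iff.1 hd0 h1.symm
  have hdeg : ∀ h, p.degreeOf h ≤ r h := by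
    intro h
    rw [MvPolynomial.degreeOf_le_iff]
    intro e he
    rw [hp, g1p_support hP hab] at he
    obtain ⟨d, hd, rfl⟩ := mem_image.1 he
    rw [g1e_apply, ← hP d (mem_filter.1 hd).1 h]
    exact Finset.single_le_sum (f := fun i => d (h, i)) (fun _ _ => Nat.zero_le _) (mem_univ _)
  have hpH2 : pH p ≤ pH P := by
    unfold pH
    refine gsum_mono (finS_pn hp0) (finS_pn hP0) fun v => Real.log_le_log (pn_pos v hp0) ?_
    refine pn_le v p (pn_pos v hP0).le fun e => ?_
    by_cases he : e ∈ (g1S P a b ζ).image (g1e a)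
    · obtain ⟨d, hd, rfl⟩ := mem_image.1 he
      rw [hp, g1p_coeff hP hab hd]
      exact le_pn v P d
    · rw [hp, g1p_coeff_zero he, nv_zero]
      exact (pn_pos v hP0).le
  obtain ⟨q, hq1, hq2⟩ := H r hr hr' p hp0 hdeg (fun h => -(M h (b h) / M h (a h))) (by
    intro h
    rw [Height.logHeight₁_neg]
    have h1 := hH h
    have h2 := hMb h
    have h3 : (0 : ℝ) < r h := by exact_mod_cast (lt_of_lt_of_le one_pos (hr h))
    have h4 : (0 : ℝ) ≤ Height.logHeight₁ (M h (b h) / M h (a h)) := Height.zero_le_logHeight₁ _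
    have h5 : (r h : ℝ) * vH (M h) ≤
        r h * ((Fintype.card ι + 1) * Height.logHeight₁ (M h (b h) / M h (a h))) := by
      refine mul_le_mul_of_nonneg_left ?_ h3.le
      linarith
    have h6 : (Fintype.card ι + 1 : ℝ) * (A * (pH P + ∑ h, (r h : ℝ))) ≤
        (Fintype.card ι + 1) * (r h * Height.logHeight₁ (M h (b h) / M h (a h))) := by
      calc (Fintype.card ι + 1 : ℝ) * (A * (pH P + ∑ h, (r h : ℝ))) =
          (Fintype.card ι + 1) * A * (pH P + ∑ h, (r h : ℝ)) := by ring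
        _ ≤ _ := h1.trans h5
        _ = _ := by ring
    have h7 := le_of_mul_le_mul_left h6 (by positivity)
    refine le_trans ?_ h7
    refine mul_le_mul_of_nonneg_left ?_ hA.le
    linarith)
  rw [coeff_sh, hp, g1_eval_dd hP hab] at hq2
  have hG : MvPolynomial.bind₁ (g1f M a b) (dd (g1q a q) P) ≠ 0 := by
    intro h
    have h1 := g1_coeff P M hab q ζ hζ'
    rw [h, MvPolynomial.coeff_zero] at h1
    exact hq2 h1.symm
  obtain ⟨z, hz⟩ : ∃ z : Fin m × ι → K,
      MvPolynomial.eval z (MvPolynomial.bind₁ (g1f M a b) (dd (g1q a q) P)) ≠ 0 := by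
    by_contra hcon
    push Not at hcon
    exact hG (MvPolynomial.funext fun z => by rw [hcon z, map_zero])
  refine ⟨g1q a q, ?_, g1x M a b z, g1x_hyp M hab hMa z, ?_⟩
  · refine le_trans (le_of_eq ?_) hq1
    refine sum_congr rfl fun h _ => ?_
    congr 1
    rw [Finset.sum_eq_single (a h)]
    · simp [g1q_apply]
    · intro i _ hi
      simp [g1q_apply, hi]
    · intro h
      exact absurd (mem_univ _) h
  · intro h
    apply hz
    rw [MvPolynomial.eval, MvPolynomial.eval₂Hom_bind₁]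
    exact h

end Pool.Agent.V2
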