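import Mathlib

/-!
V2-G2: Chebyshev's inequality for compositions.
-/

namespace Pool.Agent.V2

open Finset

set_option linter.unusedVariables false

/-- second moment of a sum of independent centred functions -/
theorem second_moment_piFinset {η : Type*} [Fintype η] [DecidableEq η] {β : η → Type*}
    [∀ h, DecidableEq (β h)]
    (A : ∀ h, Finset (β h)) (X : ∀ h, β h → ℝ) (c : ℝ)
    (h0 : ∀ h, ∑ a ∈ A h, X h a = 0) (h1 : ∀ h, ∑ a ∈ A h, X h a ^ 2 ≤ c * (A h).card) :
    ∑ j ∈ Fintype.piFinset A, (∑ h, X h (j h)) ^ 2 ≤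
      (Fintype.card η * c) * ((Fintype.piFinset A).card : ℝ) := by
  classical
  have e1 : ∀ h h' : η, ∑ j ∈ Fintype.piFinset A, X h (j h) * X h' (j h') =
      ∏ g, ∑ a ∈ A g, ((if g = h then X g a else 1) * (if g = h' then X g a else 1)) := by
    intro h h'
    rw [Finset.prod_univ_sum]
    refine sum_congr rfl fun j _ => ?_
    rw [prod_mul_distrib, prod_ite_eq', prod_ite_eq']
    simp
  have e2 : ∀ h h' : η, h ≠ h' → ∑ j ∈ Fintype.piFinset A, X h (j h) * X h' (j h') = 0 := by
    intro h h' hne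
    rw [e1]
    refine prod_eq_zero (mem_univ h) ?_
    simp only [if_true, if_neg hne, mul_one]
    exact h0 h
  have e3 : ∀ h : η, ∑ j ∈ Fintype.piFinset A, X h (j h) * X h (j h) ≤
      c * ((Fintype.piFinset A).card : ℝ) := by
    intro h
    rw [e1, Fintype.card_piFinset, ← mul_prod_erase univ _ (mem_univ h),
      ← mul_prod_erase univ (fun i => (A i).card) (mem_univ h)]
    have a1 : ∏ x ∈ univ.erase h, ∑ a ∈ A x,
        ((if x = h then X x a else 1) * (if x = h then X x a else 1)) =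
        ∏ x ∈ univ.erase h, ((A x).card : ℝ) := by
      refine prod_congr rfl fun x hx => ?_
      have hx' : x ≠ h := (mem_erase.1 hx).1
      simp [hx']
    rw [a1]
    have a2 : ∑ a ∈ A h, ((if h = h then X h a else 1) * (if h = h then X h a else 1)) ≤
        c * (A h).card := by
      refine le_trans (le_of_eq ?_) (h1 h)
      refine sum_congr rfl fun a _ => ?_
      simp [sq]
    push_cast
    rw [← mul_assoc]
    exact mul_le_mul_of_nonneg_right a2 (prod_nonneg fun x _ => by positivity)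
  have e4 : ∑ j ∈ Fintype.piFinset A, (∑ h, X h (j h)) ^ 2 =
      ∑ h, ∑ h', ∑ j ∈ Fintype.piFinset A, X h (j h) * X h' (j h') := by
    simp_rw [sq, sum_mul_sum]
    rw [sum_comm]
    refine sum_congr rfl fun h _ => ?_
    rw [sum_comm]
  rw [e4]
  have e5 : ∀ h, ∑ h', ∑ j ∈ Fintype.piFinset A, X h (j h) * X h' (j h') ≤
      c * ((Fintype.piFinset A).card : ℝ) := by
    intro h
    rw [sum_eq_single h (fun h' _ hne => e2 h h' (Ne.symm hne)) (fun hh => absurd (mem_univ h) hh)]
    exact e3 h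
  refine (sum_le_sum fun h _ => e5 h).trans (le_of_eq ?_)
  rw [sum_const, nsmul_eq_mul, Finset.card_univ]
  ring

variable {ι : Type*} [Fintype ι] [DecidableEq ι]

/-- symmetry of the compositions -/
theorem sum_piAntidiag_symm (r : ℕ) (i i' : ι) :
    ∑ a ∈ Finset.piAntidiag (Finset.univ : Finset ι) r, (a i : ℝ) =
      ∑ a ∈ Finset.piAntidiag (Finset.univ : Finset ι) r, (a i' : ℝ) := by
  refine sum_bij' (fun a _ => a ∘ Equiv.swap i i') (fun a _ => a ∘ Equiv.swap i i') ?_ ?_ ?_ ?_ ?_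
  · intro a ha
    rw [mem_piAntidiag] at ha ⊢
    refine ⟨?_, fun _ _ => mem_univ _⟩
    rw [← ha.1]
    exact Equiv.sum_comp (Equiv.swap i i') a
  · intro a ha
    rw [mem_piAntidiag] at ha ⊢
    refine ⟨?_, fun _ _ => mem_univ _⟩
    rw [← ha.1]
    exact Equiv.sum_comp (Equiv.swap i i') a
  · intro a _
    funext x
    simp
  · intro a _
    funext x
    simp
  · intro a _
    simp

theorem mean_piAntidiag (r : ℕ) (hr : 1 ≤ r) (i0 : ι) :
    ∑ a ∈ Finset.piAntidiag (Finset.univ : Finset ι) r,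
      ((a i0 : ℝ) / r - 1 / Fintype.card ι) = 0 := by
  have hn : (0 : ℝ) < Fintype.card ι := by
    have : 0 < Fintype.card ι := Fintype.card_pos_iff.2 ⟨i0⟩
    exact_mod_cast this
  have hr' : (0 : ℝ) < r := by exact_mod_cast hr
  have h1 : ∑ i : ι, ∑ a ∈ Finset.piAntidiag (Finset.univ : Finset ι) r, (a i : ℝ) =
      r * (Finset.piAntidiag (Finset.univ : Finset ι) r).card := by
    rw [sum_comm]
    have : ∀ a ∈ Finset.piAntidiag (Finset.univ : Finset ι) r, ∑ i, (a i : ℝ) = r := by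
      intro a ha
      rw [mem_piAntidiag] at ha
      rw [← ha.1]
      push_cast
      rfl
    rw [sum_congr rfl this, sum_const, nsmul_eq_mul, mul_comm]
  have h2 : ∑ i : ι, ∑ a ∈ Finset.piAntidiag (Finset.univ : Finset ι) r, (a i : ℝ) =
      Fintype.card ι * ∑ a ∈ Finset.piAntidiag (Finset.univ : Finset ι) r, (a i0 : ℝ) := by
    rw [sum_congr rfl fun i _ => sum_piAntidiag_symm r i i0, sum_const, nsmul_eq_mul,
      Finset.card_univ]
  rw [sum_sub_distrib, ← sum_div, sum_const, nsmul_eq_mul]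
  rw [h1] at h2
  field_simp
  linarith

theorem var_piAntidiag (r : ℕ) (hr : 1 ≤ r) (i0 : ι) :
    ∑ a ∈ Finset.piAntidiag (Finset.univ : Finset ι) r,
      ((a i0 : ℝ) / r - 1 / Fintype.card ι) ^ 2 ≤
      (1 / 4 : ℝ) * ((Finset.piAntidiag (Finset.univ : Finset ι) r).card : ℝ) := by
  have hr' : (0 : ℝ) < r := by exact_mod_cast hr
  have h0 := mean_piAntidiag r hr i0
  set u : ℝ := 1 / Fintype.card ι with hu
  have h1 : ∀ a ∈ Finset.piAntidiag (Finset.univ : Finset ι) r,
      ((a i0 : ℝ) / r - u) ^ 2 ≤ (1 - 2 * u) * ((a i0 : ℝ) / r - u) + (u - u ^ 2) := by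
    intro a ha
    rw [mem_piAntidiag] at ha
    have h2 : (a i0 : ℝ) ≤ r := by
      have : a i0 ≤ r := by
        rw [← ha.1]
        exact single_le_sum (fun _ _ => Nat.zero_le _) (mem_univ i0)
      exact_mod_cast this
    have h3 : (a i0 : ℝ) / r ≤ 1 := by rw [div_le_one hr']; exact h2
    have h4 : 0 ≤ (a i0 : ℝ) / r := by positivity
    nlinarith
  refine (sum_le_sum h1).trans ?_
  rw [sum_add_distrib, ← mul_sum, h0, mul_zero, zero_add, sum_const, nsmul_eq_mul, mul_comm]
  refine mul_le_mul_of_nonneg_right ?_ (by positivity)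
  nlinarith [sq_nonneg (u - 1 / 2)]

/-- the exponents of multidegree `r` -/
def J {m : ℕ} (r : Fin m → ℕ) : Finset (Fin m → ι → ℕ) :=
  Fintype.piFinset fun h => Finset.piAntidiag (Finset.univ : Finset ι) (r h)

/-- G2. Chebyshev. -/
theorem count_bad {m : ℕ} (r : Fin m → ℕ) (hr : ∀ h, 1 ≤ r h) (i0 : ι) (ε : ℝ) (hε : 0 < ε) :
    (((J r : Finset (Fin m → ι → ℕ)).filter
      fun j => ∑ h, (j h i0 : ℝ) / r h < m * (1 / Fintype.card ι - ε)).card : ℝ) *
        (4 * m * ε ^ 2) ≤ (J r : Finset (Fin m → ι → ℕ)).card := by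
  have key := second_moment_piFinset
    (fun h : Fin m => Finset.piAntidiag (Finset.univ : Finset ι) (r h))
    (fun h a => (a i0 : ℝ) / r h - 1 / Fintype.card ι) (1 / 4)
    (fun h => mean_piAntidiag (r h) (hr h) i0) (fun h => var_piAntidiag (r h) (hr h) i0)
  rw [Fintype.card_fin] at key
  set B := (J r : Finset (Fin m → ι → ℕ)).filter
    fun j => ∑ h, (j h i0 : ℝ) / r h < m * (1 / Fintype.card ι - ε) with hB
  have h1 : (B.card : ℝ) * ((m : ℝ) ^ 2 * ε ^ 2) ≤
      ∑ j ∈ Fintype.piFinset (fun h : Fin m => Finset.piAntidiag (Finset.univ : Finset ι) (r h)),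
        (∑ h, ((j h i0 : ℝ) / r h - 1 / Fintype.card ι)) ^ 2 := by
    calc (B.card : ℝ) * ((m : ℝ) ^ 2 * ε ^ 2) = ∑ j ∈ B, ((m : ℝ) ^ 2 * ε ^ 2) := by
          rw [sum_const, nsmul_eq_mul]
      _ ≤ ∑ j ∈ B, (∑ h, ((j h i0 : ℝ) / r h - 1 / Fintype.card ι)) ^ 2 := by
          refine sum_le_sum fun j hj => ?_
          have hj' := (mem_filter.1 hj).2
          have e : ∑ h, ((j h i0 : ℝ) / r h - 1 / Fintype.card ι) =
              ∑ h, (j h i0 : ℝ) / r h - m * (1 / Fintype.card ι) := by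
            rw [sum_sub_distrib, sum_const, nsmul_eq_mul, Finset.card_univ, Fintype.card_fin]
          rw [e]
          have h2 : ∑ h, (j h i0 : ℝ) / r h - m * (1 / Fintype.card ι) < - (m * ε) := by
            linarith
          have h3 : 0 ≤ (m : ℝ) * ε := by positivity
          nlinarith
      _ ≤ _ := sum_le_sum_of_subset_of_nonneg (filter_subset _ _) fun j _ _ => sq_nonneg _
  have h2 := h1.trans key
  rcases Nat.eq_zero_or_pos m with hm | hm
  · have hm' : (m : ℝ) = 0 := by exact_mod_cast hm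
    rw [hm']
    simp
  · have hm' : (0 : ℝ) < m := by exact_mod_cast hm
    have h3 : (m : ℝ) * ((B.card : ℝ) * (4 * m * ε ^ 2)) ≤
        m * ((J r : Finset (Fin m → ι → ℕ)).card : ℝ) := by
      have : ((J r : Finset (Fin m → ι → ℕ)).card : ℝ) = ((Fintype.piFinset
        (fun h : Fin m => Finset.piAntidiag (Finset.univ : Finset ι) (r h))).card : ℝ) := rfl
      rw [this]
      nlinarith
    exact le_of_mul_le_mul_left h3 hm'

end Pool.Agent.V2
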