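import Pool.Agent.Helper21.V2.Defs

/-!
# Block G4: local upper bound for values of divided derivatives
-/

namespace Pool.Agent.V2

open NumberField Finset
open Pool.Agent.Helper64.Vojta (Pl nv)

set_option linter.unusedVariables false

namespace G4

/-! ### Majorants -/

section maj

variable {K : Type*} [Field K] {σ : Type*}

/-- coefficientwise majorant -/
def Maj (ν : AbsoluteValue K ℝ) (p : MvPolynomial σ K) (P : MvPolynomial σ ℝ) : Prop :=
  ∀ d, ν (p.coeff d) ≤ P.coeff d

theorem Maj.nonneg {ν : AbsoluteValue K ℝ} {p : MvPolynomial σ K} {P : MvPolynomial σ ℝ}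
    (h : Maj ν p P) (d : σ →₀ ℕ) : 0 ≤ P.coeff d := (ν.nonneg _).trans (h d)

theorem Maj.C (ν : AbsoluteValue K ℝ) (c : K) {b : ℝ} (hb : ν c ≤ b) :
    Maj (σ := σ) ν (MvPolynomial.C c) (MvPolynomial.C b) := by
  classical
  intro d
  rw [MvPolynomial.coeff_C, MvPolynomial.coeff_C]
  split_ifs
  · exact hb
  · simp

theorem Maj.X (ν : AbsoluteValue K ℝ) (a : σ) :
    Maj (σ := σ) ν (MvPolynomial.X a) (MvPolynomial.X a) := by
  classical
  intro d
  rw [MvPolynomial.coeff_X, MvPolynomial.coeff_X]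
  split_ifs
  · simp
  · simp

theorem Maj.add {ν : AbsoluteValue K ℝ} {p q : MvPolynomial σ K} {P Q : MvPolynomial σ ℝ}
    (hp : Maj ν p P) (hq : Maj ν q Q) : Maj ν (p + q) (P + Q) := by
  intro d
  rw [MvPolynomial.coeff_add, MvPolynomial.coeff_add]
  exact (ν.add_le _ _).trans (add_le_add (hp d) (hq d))

theorem Maj.zero (ν : AbsoluteValue K ℝ) : Maj (σ := σ) ν 0 0 := by
  intro d
  simp

theorem Maj.sum {ν : AbsoluteValue K ℝ} {α : Type*} (s : Finset α) {p : α → MvPolynomial σ K}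
    {P : α → MvPolynomial σ ℝ} (h : ∀ a ∈ s, Maj ν (p a) (P a)) :
    Maj ν (∑ a ∈ s, p a) (∑ a ∈ s, P a) := by
  classical
  induction s using Finset.induction_on with
  | empty => simpa using Maj.zero ν
  | insert a s ha ih =>
    rw [Finset.sum_insert ha, Finset.sum_insert ha]
    exact (h a (Finset.mem_insert_self _ _)).add
      (ih fun b hb => h b (Finset.mem_insert_of_mem hb))

theorem Maj.mul {ν : AbsoluteValue K ℝ} {p q : MvPolynomial σ K} {P Q : MvPolynomial σ ℝ}
    (hp : Maj ν p P) (hq : Maj ν q Q) : Maj ν (p * q) (P * Q) := by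
  classical
  intro d
  rw [MvPolynomial.coeff_mul, MvPolynomial.coeff_mul]
  refine (ν.sum_le _ _).trans (Finset.sum_le_sum fun x _ => ?_)
  rw [ν.map_mul]
  exact mul_le_mul (hp _) (hq _) (ν.nonneg _) (hp.nonneg _)

theorem Maj.one (ν : AbsoluteValue K ℝ) : Maj (σ := σ) ν 1 1 := by
  have := Maj.C (σ := σ) ν (1 : K) (b := 1) (by simp)
  simpa using this

theorem Maj.pow {ν : AbsoluteValue K ℝ} {p : MvPolynomial σ K} {P : MvPolynomial σ ℝ}
    (hp : Maj ν p P) (n : ℕ) : Maj ν (p ^ n) (P ^ n) := by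
  induction n with
  | zero => simpa using Maj.one ν
  | succ n ih =>
    rw [pow_succ, pow_succ]
    exact ih.mul hp

theorem Maj.prod {ν : AbsoluteValue K ℝ} {α : Type*} (s : Finset α) {p : α → MvPolynomial σ K}
    {P : α → MvPolynomial σ ℝ} (h : ∀ a ∈ s, Maj ν (p a) (P a)) :
    Maj ν (∏ a ∈ s, p a) (∏ a ∈ s, P a) := by
  classical
  induction s using Finset.induction_on with
  | empty => simpa using Maj.one ν
  | insert a s ha ih =>
    rw [Finset.prod_insert ha, Finset.prod_insert ha]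
    exact (h a (Finset.mem_insert_self _ _)).mul
      (ih fun b hb => h b (Finset.mem_insert_of_mem hb))

theorem eval_one_eq (P : MvPolynomial σ ℝ) :
    MvPolynomial.eval (fun _ => (1 : ℝ)) P = ∑ d ∈ P.support, P.coeff d := by
  rw [MvPolynomial.eval_eq]
  simp

theorem Maj.sum_le {ν : AbsoluteValue K ℝ} {p : MvPolynomial σ K} {P : MvPolynomial σ ℝ}
    (h : Maj ν p P) :
    ∑ d ∈ p.support, ν (p.coeff d) ≤ MvPolynomial.eval (fun _ => (1 : ℝ)) P := by
  classical
  rw [eval_one_eq]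
  have hsub : p.support ⊆ P.support := by
    intro d hd
    rw [MvPolynomial.mem_support_iff] at hd ⊢
    have := ν.pos hd
    exact (this.trans_le (h d)).ne'
  exact (Finset.sum_le_sum fun d _ => h d).trans
    (Finset.sum_le_sum_of_subset_of_nonneg hsub fun d _ _ => h.nonneg d)

theorem Maj.coeff_le {ν : AbsoluteValue K ℝ} {p : MvPolynomial σ K} {P : MvPolynomial σ ℝ}
    (h : Maj ν p P) (d : σ →₀ ℕ) :
    ν (p.coeff d) ≤ MvPolynomial.eval (fun _ => (1 : ℝ)) P := by
  classical
  by_cases hd : p.coeff d = 0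
  · rw [hd, ν.map_zero, eval_one_eq]
    exact Finset.sum_nonneg fun d _ => h.nonneg d
  · exact (Finset.single_le_sum (f := fun d => ν (p.coeff d)) (fun d _ => ν.nonneg _)
      (MvPolynomial.mem_support_iff.mpr hd)).trans h.sum_le

end maj

/-! ### The shift -/

section shift

variable {K : Type*} [CommRing K] {σ : Type*} [Fintype σ]

theorem bind_eq {τ : Type*} (f : σ → MvPolynomial τ K) (p : MvPolynomial σ K) :
    MvPolynomial.bind₁ f p = ∑ d ∈ p.support, MvPolynomial.C (p.coeff d) * ∏ a, f a ^ d a := by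
  rw [MvPolynomial.bind₁, MvPolynomial.aeval_def, MvPolynomial.eval₂_eq']
  rfl

/-- expansion of a product of powers of binomials -/
theorem prod_add_pow [DecidableEq σ] (u w : σ → MvPolynomial σ K) (d : σ → ℕ) :
    ∏ a, (u a + w a) ^ d a = ∑ k ∈ Fintype.piFinset (fun a => Finset.range (d a + 1)),
      ∏ a, (u a ^ k a * w a ^ (d a - k a) * (((d a).choose (k a) : ℕ) : MvPolynomial σ K)) := by
  rw [← Finset.prod_univ_sum (fun a => Finset.range (d a + 1)) (fun a k =>
    (u a ^ k * w a ^ (d a - k) * (((d a).choose k : ℕ) : MvPolynomial σ K)))]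
  refine Finset.prod_congr rfl fun a _ => ?_
  rw [add_pow]

theorem coeff_sh' (ξ : σ → K) (q : σ →₀ ℕ) (p : MvPolynomial σ K) :
    (sh ξ p).coeff q = MvPolynomial.eval ξ (dd q p) := by
  classical
  rw [sh, dd, bind_eq, MvPolynomial.coeff_sum, map_sum]
  refine Finset.sum_congr rfl fun d _ => ?_
  rw [MvPolynomial.coeff_C_mul, prod_add_pow, MvPolynomial.coeff_sum, MvPolynomial.eval_monomial,
    mul_assoc]
  congr 1
  have hterm : ∀ k : σ → ℕ, MvPolynomial.coeff q (∏ a, ((MvPolynomial.X a : MvPolynomial σ K) ^ k a *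
      MvPolynomial.C (ξ a) ^ (d a - k a) * (((d a).choose (k a) : ℕ) : MvPolynomial σ K))) =
      if (Finsupp.equivFunOnFinite.symm k : σ →₀ ℕ) = q then
        ∏ a, (ξ a ^ (d a - k a) * (((d a).choose (k a) : ℕ) : K)) else 0 := by
    intro k
    have h1 : (∏ a, ((MvPolynomial.X a : MvPolynomial σ K) ^ k a *
      MvPolynomial.C (ξ a) ^ (d a - k a) * (((d a).choose (k a) : ℕ) : MvPolynomial σ K))) =
      MvPolynomial.monomial (Finsupp.equivFunOnFinite.symm k : σ →₀ ℕ)
        (∏ a, (ξ a ^ (d a - k a) * (((d a).choose (k a) : ℕ) : K))) := by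
      rw [MvPolynomial.monomial_eq, Finsupp.prod_fintype _ _ (by simp), mul_comm, map_prod,
        ← Finset.prod_mul_distrib]
      refine Finset.prod_congr rfl fun a _ => ?_
      simp [map_mul, map_pow]
      ring
    rw [h1, MvPolynomial.coeff_monomial]
  rw [Finset.sum_congr rfl fun k _ => hterm k, Finsupp.prod_fintype _ _ (by simp)]
  rw [Finset.sum_ite, Finset.sum_const_zero, add_zero]
  by_cases hq : ∀ a, q a ≤ d a
  · have : (Fintype.piFinset (fun a => Finset.range (d a + 1))).filter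
        (fun k => (Finsupp.equivFunOnFinite.symm k : σ →₀ ℕ) = q) = {(q : σ → ℕ)} := by
      ext k
      simp only [Finset.mem_filter, Fintype.mem_piFinset, Finset.mem_range, Finset.mem_singleton]
      constructor
      · rintro ⟨_, h⟩
        rw [← h]; rfl
      · rintro rfl
        exact ⟨fun a => Nat.lt_succ_of_le (hq a), by ext a; rfl⟩
    rw [this, Finset.sum_singleton]
    push_cast
    rw [← Finset.prod_mul_distrib]
    refine Finset.prod_congr rfl fun a _ => ?_
    rw [Pi.sub_apply]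
    ring
  · push Not at hq
    obtain ⟨a, ha⟩ := hq
    have h0 : (∏ i, (d i).choose (q i)) = 0 :=
      Finset.prod_eq_zero (Finset.mem_univ a) (Nat.choose_eq_zero_of_lt ha)
    rw [h0]
    simp only [Nat.cast_zero, zero_mul]
    refine Finset.sum_eq_zero fun k hk => ?_
    rw [Finset.mem_filter] at hk
    refine Finset.prod_eq_zero (Finset.mem_univ a) ?_
    have : k a = q a := by rw [← hk.2]; rfl
    rw [this, Nat.choose_eq_zero_of_lt ha]
    simp

end shift

/-! ### Absolute values -/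

section abs

variable {K : Type*} [Field K] [NumberField K]

theorem exists_abs (v : Pl K) : ∃ (ν : AbsoluteValue K ℝ) (e : ℕ), e ≠ 0 ∧
    ∀ y, nv v y = ν y ^ e := by
  rcases v with w | w
  · exact ⟨w.1, w.mult, w.mult_ne_zero, fun y => rfl⟩
  · exact ⟨w.1, 1, one_ne_zero, fun y => by rw [pow_one]; rfl⟩

theorem abs_natCast_le (ν : AbsoluteValue K ℝ) (n : ℕ) : ν (n : K) ≤ n := by
  induction n with
  | zero => simp
  | succ n ih =>
    push_cast
    refine (ν.add_le _ _).trans ?_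
    rw [ν.map_one]
    linarith

end abs

/-! ### Weights -/

section wt

variable {K : Type*} [CommRing K] {m : ℕ} {ι : Type*} [Fintype ι] [DecidableEq ι]

/-- the multidegree as a weight -/
def mw (a : Fin m × ι) : Fin m → ℕ := Pi.single a.1 1

omit [DecidableEq ι] in
theorem weight_mw (d : Fin m × ι →₀ ℕ) (h : Fin m) :
    Finsupp.weight (mw : Fin m × ι → Fin m → ℕ) d h = ∑ i, d (h, i) := by
  classical
  rw [Finsupp.weight_apply, Finsupp.sum_fintype _ _ (by simp), Finset.sum_apply,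
    Fintype.sum_prod_type]
  simp only [mw, Pi.smul_apply, smul_eq_mul]
  rw [Finset.sum_eq_single h]
  · simp
  · intro b _ hb
    refine Finset.sum_eq_zero fun i _ => ?_
    rw [Pi.single_apply, if_neg (Ne.symm hb), mul_zero]
  · simp

omit [DecidableEq ι] in
theorem mhom_iff (r : Fin m → ℕ) (p : MvPolynomial (Fin m × ι) K) :
    MHom r p ↔ MvPolynomial.IsWeightedHomogeneous (mw : Fin m × ι → Fin m → ℕ) p r := by
  constructor
  · intro h d hd
    funext h'
    rw [weight_mw]
    exact h d (MvPolynomial.mem_support_iff.mpr hd) h'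
  · intro h d hd h'
    rw [← weight_mw, h (MvPolynomial.mem_support_iff.mp hd)]

/-- the linear form in position `a` -/
noncomputable def lf (A : Matrix ι ι K) (a : Fin m × ι) : MvPolynomial (Fin m × ι) K :=
  ∑ l, MvPolynomial.C (A a.2 l) * MvPolynomial.X (a.1, l)

omit [DecidableEq ι] in
theorem lf_hom (A : Matrix ι ι K) (a : Fin m × ι) :
    MvPolynomial.IsWeightedHomogeneous (mw : Fin m × ι → Fin m → ℕ) (lf A a) (mw a) := by
  unfold lf
  refine MvPolynomial.IsWeightedHomogeneous.sum _ _ _ fun l _ => ?_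
  have h1 := MvPolynomial.isWeightedHomogeneous_X K (mw : Fin m × ι → Fin m → ℕ) (a.1, l)
  have h2 := (MvPolynomial.isWeightedHomogeneous_C (mw : Fin m × ι → Fin m → ℕ) (A a.2 l)).mul h1
  rw [zero_add] at h2
  exact h2

omit [DecidableEq ι] in
theorem prod_lf_hom (A : Matrix ι ι K) (k : Fin m × ι → ℕ) :
    MvPolynomial.IsWeightedHomogeneous (mw : Fin m × ι → Fin m → ℕ) (∏ a, lf A a ^ k a)
      (∑ a, k a • mw a) :=
  MvPolynomial.IsWeightedHomogeneous.prod _ _ _ fun a _ => (lf_hom A a).pow (k a)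

omit [DecidableEq ι] in
theorem sum_smul_mw (k : Fin m × ι → ℕ) (h : Fin m) :
    (∑ a, k a • (mw a : Fin m → ℕ)) h = ∑ i, k (h, i) := by
  classical
  have := weight_mw (Finsupp.equivFunOnFinite.symm k : Fin m × ι →₀ ℕ) h
  rw [Finsupp.weight_apply, Finsupp.sum_fintype _ _ (by simp)] at this
  exact this

omit [DecidableEq ι] in
theorem coeff_prod_lf (A : Matrix ι ι K) (k : Fin m × ι → ℕ) (q : Fin m × ι →₀ ℕ)
    (h : (∏ a, lf A a ^ k a).coeff q ≠ 0) (h' : Fin m) : ∑ i, k (h', i) = ∑ i, q (h', i) := by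
  rw [← sum_smul_mw, ← weight_mw, prod_lf_hom A k h]

omit [DecidableEq ι] in
theorem lin_eq (A : Matrix ι ι K) (p : MvPolynomial (Fin m × ι) K) :
    lin A p = ∑ d ∈ p.support, MvPolynomial.C (p.coeff d) * ∏ a, lf A a ^ d a :=
  bind_eq _ _

omit [DecidableEq ι] in
theorem lin_hom (A : Matrix ι ι K) {r : Fin m → ℕ} {p : MvPolynomial (Fin m × ι) K}
    (hp : MHom r p) : MHom r (lin A p) := by
  rw [mhom_iff, lin_eq]
  refine MvPolynomial.IsWeightedHomogeneous.sum _ _ _ fun d hd => ?_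
  have h1 := prod_lf_hom A (d : Fin m × ι → ℕ)
  have h2 : ∑ a, d a • (mw a : Fin m → ℕ) = r := by
    funext h
    rw [sum_smul_mw]
    exact hp d hd h
  rw [h2] at h1
  have h3 := (MvPolynomial.isWeightedHomogeneous_C (mw : Fin m × ι → Fin m → ℕ)
    (p.coeff d)).mul h1
  rw [zero_add] at h3
  exact h3

omit [DecidableEq ι] in
theorem lin_lin (A B : Matrix ι ι K) (p : MvPolynomial (Fin m × ι) K) :
    lin A (lin B p) = lin (B * A) p := by
  unfold lin
  rw [MvPolynomial.bind₁_bind₁]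
  congr 2
  funext a
  rw [map_sum]
  simp only [map_mul, MvPolynomial.bind₁_C_right, MvPolynomial.bind₁_X_right]
  simp only [Finset.mul_sum, Matrix.mul_apply, map_sum, Finset.sum_mul, map_mul]
  rw [Finset.sum_comm]
  refine Finset.sum_congr rfl fun l _ => Finset.sum_congr rfl fun l' _ => ?_
  ring

theorem lin_one (p : MvPolynomial (Fin m × ι) K) : lin (1 : Matrix ι ι K) p = p := by
  unfold lin
  have : (fun a : Fin m × ι => ∑ l, MvPolynomial.C ((1 : Matrix ι ι K) a.2 l) *
      MvPolynomial.X (a.1, l)) = (MvPolynomial.X : Fin m × ι → MvPolynomial (Fin m × ι) K) := by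
    funext a
    rw [Finset.sum_eq_single a.2]
    · simp
    · intro b _ hb
      rw [Matrix.one_apply_ne (Ne.symm hb), map_zero, zero_mul]
    · simp
  rw [this, MvPolynomial.bind₁_X_left]
  rfl

end wt

section main

variable {K : Type*} [Field K] [NumberField K] {m : ℕ} {ι : Type*} [Fintype ι] [DecidableEq ι]

omit [NumberField K] [DecidableEq ι] in
theorem lf_maj (ν : AbsoluteValue K ℝ) (A : Matrix ι ι K) (a : Fin m × ι) :
    Maj ν (lf A a) (∑ l, MvPolynomial.C (ν (A a.2 l)) * MvPolynomial.X (a.1, l)) :=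
  Maj.sum _ fun l _ => (Maj.C ν _ le_rfl).mul (Maj.X ν _)

/-- sum of the absolute values of all entries -/
noncomputable def ent (ν : AbsoluteValue K ℝ) (A : Matrix ι ι K) : ℝ := ∑ i, ∑ l, ν (A i l)

omit [NumberField K] [DecidableEq ι] in
theorem ent_nonneg (ν : AbsoluteValue K ℝ) (A : Matrix ι ι K) : 0 ≤ ent ν A :=
  Finset.sum_nonneg fun _ _ => Finset.sum_nonneg fun _ _ => ν.nonneg _

omit [NumberField K] [DecidableEq ι] in
theorem eval_lf_le (ν : AbsoluteValue K ℝ) (A : Matrix ι ι K) (a : Fin m × ι) :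
    MvPolynomial.eval (fun _ => (1 : ℝ))
      (∑ l, MvPolynomial.C (ν (A a.2 l)) * MvPolynomial.X (a.1, l) :
        MvPolynomial (Fin m × ι) ℝ) ≤ ent ν A := by
  simp only [map_sum, map_mul, MvPolynomial.eval_C, MvPolynomial.eval_X, mul_one]
  exact Finset.single_le_sum (f := fun i => ∑ l, ν (A i l))
    (fun i _ => Finset.sum_nonneg fun _ _ => ν.nonneg _) (Finset.mem_univ a.2)

omit [NumberField K] [DecidableEq ι] in
theorem eval_lf_nonneg (ν : AbsoluteValue K ℝ) (A : Matrix ι ι K) (a : Fin m × ι) :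
    0 ≤ MvPolynomial.eval (fun _ => (1 : ℝ))
      (∑ l, MvPolynomial.C (ν (A a.2 l)) * MvPolynomial.X (a.1, l) :
        MvPolynomial (Fin m × ι) ℝ) := by
  simp only [map_sum, map_mul, MvPolynomial.eval_C, MvPolynomial.eval_X, mul_one]
  exact Finset.sum_nonneg fun _ _ => ν.nonneg _

/-- majorant of a product of linear forms -/
noncomputable def lfM (ν : AbsoluteValue K ℝ) (A : Matrix ι ι K) (k : Fin m × ι → ℕ) :
    MvPolynomial (Fin m × ι) ℝ :=
  ∏ a, (∑ l, MvPolynomial.C (ν (A a.2 l)) * MvPolynomial.X (a.1, l)) ^ k a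

omit [NumberField K] [DecidableEq ι] in
theorem prod_lf_maj (ν : AbsoluteValue K ℝ) (A : Matrix ι ι K) (k : Fin m × ι → ℕ) :
    Maj ν (∏ a, lf A a ^ k a) (lfM ν A k) :=
  Maj.prod _ fun a _ => (lf_maj ν A a).pow (k a)

omit [NumberField K] [DecidableEq ι] in
theorem eval_lfM (ν : AbsoluteValue K ℝ) (A : Matrix ι ι K) (k : Fin m × ι → ℕ) :
    MvPolynomial.eval (fun _ => (1 : ℝ)) (lfM ν A k) ≤ ∏ a, ent ν A ^ k a := by
  unfold lfM
  rw [map_prod]
  refine Finset.prod_le_prod (fun a _ => ?_) fun a _ => ?_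
  · rw [map_pow]; exact pow_nonneg (eval_lf_nonneg ν A a) _
  · rw [map_pow]; exact pow_le_pow_left₀ (eval_lf_nonneg ν A a) (eval_lf_le ν A a) _

omit [NumberField K] [DecidableEq ι] in
theorem sum_exp {r : Fin m → ℕ} {p : MvPolynomial (Fin m × ι) K} (hp : MHom r p)
    {d : Fin m × ι →₀ ℕ} (hd : d ∈ p.support) : ∑ a, d a = ∑ h, r h := by
  rw [Fintype.sum_prod_type]
  exact Finset.sum_congr rfl fun h _ => hp d hd h

omit [NumberField K] [DecidableEq ι] in
theorem card_supp {r : Fin m → ℕ} {p : MvPolynomial (Fin m × ι) K} (hp : MHom r p) :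
    p.support.card ≤ (2 ^ Fintype.card ι) ^ (∑ h, r h) := by
  classical
  have h1 : p.support ⊆ (Fintype.piFinset (fun a : Fin m × ι => Finset.range (r a.1 + 1))).image
      (fun k => (Finsupp.equivFunOnFinite.symm k : Fin m × ι →₀ ℕ)) := by
    intro d hd
    rw [Finset.mem_image]
    refine ⟨(d : Fin m × ι → ℕ), ?_, by ext; rfl⟩
    rw [Fintype.mem_piFinset]
    intro a
    rw [Finset.mem_range, Nat.lt_succ_iff, ← hp d hd a.1]
    exact Finset.single_le_sum (f := fun i => d (a.1, i)) (fun _ _ => Nat.zero_le _)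
      (Finset.mem_univ a.2)
  refine (Finset.card_le_card h1).trans (Finset.card_image_le.trans ?_)
  rw [Fintype.card_piFinset]
  simp only [Finset.card_range]
  rw [Fintype.prod_prod_type]
  simp only [Finset.prod_const, Finset.card_univ]
  rw [← Finset.prod_pow_eq_pow_sum]
  refine Finset.prod_le_prod' fun h _ => ?_
  rw [← pow_mul, mul_comm, pow_mul]
  exact Nat.pow_le_pow_left (Nat.lt_two_pow_self) _

/-- the core bound for one absolute value -/
theorem core (ν : AbsoluteValue K ℝ) (A : Matrix ι ι K) (hA : A.det ≠ 0) (r : Fin m → ℕ)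
    (hr : ∀ h, 1 ≤ r h) (P : MvPolynomial (Fin m × ι) K) (hP : MHom r P) (b : ℝ) (hb0 : 0 ≤ b)
    (hb : ∀ d, ν (P.coeff d) ≤ b) (g : ℝ)
    (hg : ∀ j ∈ (lin A⁻¹ P).support, ∀ i, g ≤ ∑ h, (j (h, i) : ℝ) / r h)
    (q : Fin m × ι →₀ ℕ) (y : Fin m → ι → K) (β : Fin m → ι → ℝ)
    (hβ : ∀ h i, ν (Matrix.mulVec A (y h) i) ≤ Real.exp (β h i)) (E : ℝ)
    (hE : ∀ j' : Fin m → ι → ℕ, (∀ h, ∑ i, j' h i + ∑ i, q (h, i) = r h) →
        (∀ i, g - ∑ h, (∑ i, (q (h, i) : ℝ)) / r h ≤ ∑ h, (j' h i : ℝ) / r h) →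
        ∑ h, ∑ i, j' h i * β h i ≤ E) :
    ν (MvPolynomial.eval (fun a => y a.1 a.2) (dd q P)) ≤
      b * (2 ^ Fintype.card ι * ent ν A⁻¹ * (1 + ent ν A)) ^ (∑ h, r h) * Real.exp E := by
  classical
  set Q := lin A⁻¹ P with hQ
  have hQP : lin A Q = P := by
    rw [hQ, lin_lin, Matrix.nonsing_inv_mul A (isUnit_iff_ne_zero.mpr hA), lin_one]
  have hQh : MHom r Q := lin_hom _ hP
  -- the sum of the coefficients of `Q`
  have hQs : ∑ j ∈ Q.support, ν (Q.coeff j) ≤
      b * (2 ^ Fintype.card ι * ent ν A⁻¹) ^ (∑ h, r h) := by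
    have hM : Maj ν Q (∑ d ∈ P.support, MvPolynomial.C b * lfM ν A⁻¹ (d : Fin m × ι → ℕ)) := by
      rw [hQ, lin_eq]
      exact Maj.sum _ fun d _ => (Maj.C ν _ (hb d)).mul (prod_lf_maj ν A⁻¹ _)
    refine hM.sum_le.trans ?_
    rw [map_sum]
    calc ∑ d ∈ P.support, MvPolynomial.eval (fun _ => (1 : ℝ))
          (MvPolynomial.C b * lfM ν A⁻¹ (d : Fin m × ι → ℕ))
        ≤ ∑ d ∈ P.support, b * ent ν A⁻¹ ^ (∑ h, r h) := by
          refine Finset.sum_le_sum fun d hd => ?_
          rw [map_mul, MvPolynomial.eval_C]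
          refine mul_le_mul_of_nonneg_left ((eval_lfM ν A⁻¹ _).trans ?_) hb0
          rw [Finset.prod_pow_eq_pow_sum, sum_exp hP hd]
      _ = (P.support.card : ℝ) * (b * ent ν A⁻¹ ^ (∑ h, r h)) := by
          rw [Finset.sum_const, nsmul_eq_mul]
      _ ≤ ((2 ^ Fintype.card ι) ^ (∑ h, r h) : ℝ) * (b * ent ν A⁻¹ ^ (∑ h, r h)) := by
          refine mul_le_mul_of_nonneg_right ?_ (mul_nonneg hb0 (pow_nonneg (ent_nonneg _ _) _))
          exact_mod_cast card_supp hP
      _ = _ := by rw [mul_pow]; ring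
  -- expansion
  have hsh : sh (fun a : Fin m × ι => y a.1 a.2) P = ∑ j ∈ Q.support, MvPolynomial.C (Q.coeff j) *
      ∏ a, (lf A a + MvPolynomial.C (Matrix.mulVec A (y a.1) a.2)) ^ j a := by
    rw [← hQP, sh, lin, MvPolynomial.bind₁_bind₁, bind_eq]
    refine Finset.sum_congr rfl fun j _ => ?_
    congr 1
    refine Finset.prod_congr rfl fun a _ => ?_
    congr 1
    rw [map_sum]
    simp only [map_mul, MvPolynomial.bind₁_C_right, MvPolynomial.bind₁_X_right, mul_add,
      Finset.sum_add_distrib]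
    unfold lf Matrix.mulVec dotProduct
    rw [map_sum]
    simp only [map_mul]
  -- bound of one coefficient
  have hone : ∀ j ∈ Q.support, ν (MvPolynomial.coeff q (∏ a, (lf A a +
      MvPolynomial.C (Matrix.mulVec A (y a.1) a.2)) ^ j a)) ≤
      (1 + ent ν A) ^ (∑ h, r h) * Real.exp E := by
    intro j hj
    rw [prod_add_pow, MvPolynomial.coeff_sum]
    refine (ν.sum_le _ _).trans ?_
    have hk : ∀ k ∈ Fintype.piFinset (fun a => Finset.range (j a + 1)),
        ν (MvPolynomial.coeff q (∏ a, (lf A a ^ k a *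
          MvPolynomial.C (Matrix.mulVec A (y a.1) a.2) ^ (j a - k a) *
          (((j a).choose (k a) : ℕ) : MvPolynomial (Fin m × ι) K)))) ≤
        (∏ a, (((j a).choose (k a) : ℕ) * ent ν A ^ k a)) * Real.exp E := by
      intro k hk
      rw [Fintype.mem_piFinset] at hk
      have hkj : ∀ a, k a ≤ j a := fun a => Nat.lt_succ_iff.mp (Finset.mem_range.mp (hk a))
      have hsplit : (∏ a, (lf A a ^ k a *
          MvPolynomial.C (Matrix.mulVec A (y a.1) a.2) ^ (j a - k a) *
          (((j a).choose (k a) : ℕ) : MvPolynomial (Fin m × ι) K))) =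
          MvPolynomial.C (∏ a, (Matrix.mulVec A (y a.1) a.2 ^ (j a - k a) *
            (((j a).choose (k a) : ℕ) : K))) * ∏ a, lf A a ^ k a := by
        rw [map_prod, ← Finset.prod_mul_distrib]
        refine Finset.prod_congr rfl fun a _ => ?_
        rw [map_mul, map_pow, map_natCast]
        ring
      rw [hsplit, MvPolynomial.coeff_C_mul, ν.map_mul]
      have hE0 := Real.exp_pos E
      by_cases h0 : (∏ a, lf A a ^ k a).coeff q = 0
      · rw [h0, ν.map_zero, mul_zero]
        refine mul_nonneg (Finset.prod_nonneg fun a _ => ?_) hE0.le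
        exact mul_nonneg (Nat.cast_nonneg _) (pow_nonneg (ent_nonneg _ _) _)
      · have hkq := coeff_prod_lf A k q h0
        have hc : ν ((∏ a, lf A a ^ k a).coeff q) ≤ ∏ a, ent ν A ^ k a :=
          ((prod_lf_maj ν A k).coeff_le q).trans (eval_lfM ν A k)
        have hη : ν (∏ a, (Matrix.mulVec A (y a.1) a.2 ^ (j a - k a) *
            (((j a).choose (k a) : ℕ) : K))) ≤ (∏ a, (((j a).choose (k a) : ℕ) : ℝ)) *
            Real.exp E := by
          have h1 : ν (∏ a, (Matrix.mulVec A (y a.1) a.2 ^ (j a - k a) *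
            (((j a).choose (k a) : ℕ) : K))) ≤ ∏ a, (Real.exp ((j a - k a : ℕ) * β a.1 a.2) *
              (((j a).choose (k a) : ℕ) : ℝ)) := by
            rw [map_prod]
            refine Finset.prod_le_prod (fun a _ => ν.nonneg _) fun a _ => ?_
            rw [ν.map_mul, ν.map_pow, Real.exp_nat_mul]
            exact mul_le_mul (pow_le_pow_left₀ (ν.nonneg _) (hβ _ _) _) (abs_natCast_le ν _)
              (ν.nonneg _) (pow_nonneg (Real.exp_pos _).le _)
          refine h1.trans ?_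
          rw [Finset.prod_mul_distrib, mul_comm]
          refine mul_le_mul_of_nonneg_left ?_ (Finset.prod_nonneg fun a _ => Nat.cast_nonneg _)
          rw [← Real.exp_sum, Real.exp_le_exp, Fintype.sum_prod_type]
          refine hE (fun h i => j (h, i) - k (h, i)) (fun h => ?_) fun i => ?_
          · have h2 := hQh j hj h
            have h3 : ∑ i, (j (h, i) - k (h, i)) + ∑ i, k (h, i) = ∑ i, j (h, i) := by
              rw [← Finset.sum_add_distrib]
              exact Finset.sum_congr rfl fun i _ => Nat.sub_add_cancel (hkj _)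
            rw [← hkq h, h3, h2]
          · have h4 := hg j hj i
            have h5 : ∑ h, (j (h, i) : ℝ) / r h ≤ ∑ h, ((j (h, i) - k (h, i) : ℕ) : ℝ) / r h +
                ∑ h, (∑ i, (q (h, i) : ℝ)) / r h := by
              rw [← Finset.sum_add_distrib]
              refine Finset.sum_le_sum fun h _ => ?_
              have h6 : (0 : ℝ) < r h := by exact_mod_cast hr h
              rw [← add_div]
              refine div_le_div_of_nonneg_right ?_ h6.le
              have h7 : j (h, i) ≤ (j (h, i) - k (h, i)) + ∑ i, q (h, i) := by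
                rw [← hkq h]
                have h8 : k (h, i) ≤ ∑ i, k (h, i) :=
                  Finset.single_le_sum (f := fun i => k (h, i)) (fun _ _ => Nat.zero_le _)
                    (Finset.mem_univ i)
                have := hkj (h, i)
                omega
              exact_mod_cast h7
            linarith
        have hd : (∏ a, ((((j a).choose (k a) : ℕ) : ℝ) * ent ν A ^ k a)) =
            (∏ a, (((j a).choose (k a) : ℕ) : ℝ)) * ∏ a, ent ν A ^ k a :=
          Finset.prod_mul_distrib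
        rw [hd]
        calc ν (∏ a, (Matrix.mulVec A (y a.1) a.2 ^ (j a - k a) *
              (((j a).choose (k a) : ℕ) : K))) * ν ((∏ a, lf A a ^ k a).coeff q)
            ≤ ((∏ a, (((j a).choose (k a) : ℕ) : ℝ)) * Real.exp E) * ∏ a, ent ν A ^ k a :=
              mul_le_mul hη hc (ν.nonneg _) (mul_nonneg
                (Finset.prod_nonneg fun a _ => Nat.cast_nonneg _) hE0.le)
          _ = _ := by ring
    refine (Finset.sum_le_sum hk).trans ?_
    rw [← Finset.sum_mul]
    refine mul_le_mul_of_nonneg_right ?_ (Real.exp_pos E).le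
    rw [← Finset.prod_univ_sum (fun a => Finset.range (j a + 1)) (fun a k =>
      (((j a).choose k : ℕ) * ent ν A ^ k))]
    have h9 : ∀ a, ∑ k ∈ Finset.range (j a + 1), (((j a).choose k : ℕ) * ent ν A ^ k) =
        (1 + ent ν A) ^ j a := by
      intro a
      rw [add_comm 1 (ent ν A), add_pow]
      refine Finset.sum_congr rfl fun k _ => ?_
      rw [one_pow]; ring
    rw [Finset.prod_congr rfl fun a _ => h9 a, Finset.prod_pow_eq_pow_sum, sum_exp hQh hj]
  rw [← coeff_sh', hsh, MvPolynomial.coeff_sum]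
  refine (ν.sum_le _ _).trans ?_
  have hF : (0 : ℝ) ≤ (1 + ent ν A) ^ (∑ h, r h) * Real.exp E :=
    mul_nonneg (pow_nonneg (add_nonneg zero_le_one (ent_nonneg _ _)) _) (Real.exp_pos E).le
  calc ∑ j ∈ Q.support, ν (MvPolynomial.coeff q (MvPolynomial.C (Q.coeff j) *
        ∏ a, (lf A a + MvPolynomial.C (Matrix.mulVec A (y a.1) a.2)) ^ j a))
      ≤ ∑ j ∈ Q.support, ν (Q.coeff j) * ((1 + ent ν A) ^ (∑ h, r h) * Real.exp E) := by
        refine Finset.sum_le_sum fun j hj => ?_
        rw [MvPolynomial.coeff_C_mul, ν.map_mul]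
        exact mul_le_mul_of_nonneg_left (hone j hj) (ν.nonneg _)
    _ = (∑ j ∈ Q.support, ν (Q.coeff j)) * ((1 + ent ν A) ^ (∑ h, r h) * Real.exp E) := by
        rw [Finset.sum_mul]
    _ ≤ (b * (2 ^ Fintype.card ι * ent ν A⁻¹) ^ (∑ h, r h)) *
        ((1 + ent ν A) ^ (∑ h, r h) * Real.exp E) := mul_le_mul_of_nonneg_right hQs hF
    _ = _ := by rw [mul_pow (2 ^ Fintype.card ι * ent ν A⁻¹) (1 + ent ν A)]; ring

end main

end G4

variable {K : Type*} [Field K] [NumberField K] {ι : Type*} [Fintype ι] [DecidableEq ι]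

/-- G4. Local upper bound. -/
theorem eval_bound (v : Pl K) (A : Matrix ι ι K) (hA : A.det ≠ 0) :
    ∃ C : ℝ, 1 ≤ C ∧ ∀ (m : ℕ) (r : Fin m → ℕ), (∀ h, 1 ≤ r h) →
      ∀ P : MvPolynomial (Fin m × ι) K, MHom r P → ∀ B : ℝ, (∀ d, nv v (P.coeff d) ≤ B) →
      ∀ g : ℝ, (∀ j ∈ (lin A⁻¹ P).support, ∀ i, g ≤ ∑ h, (j (h, i) : ℝ) / r h) →
      ∀ (q : Fin m × ι →₀ ℕ) (y : Fin m → ι → K) (β : Fin m → ι → ℝ),
      (∀ h i, nv v (Matrix.mulVec A (y h) i) ≤ Real.exp (β h i)) → ∀ E : ℝ,
      (∀ j' : Fin m → ι → ℕ, (∀ h, ∑ i, j' h i + ∑ i, q (h, i) = r h) →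
        (∀ i, g - ∑ h, (∑ i, (q (h, i) : ℝ)) / r h ≤ ∑ h, (j' h i : ℝ) / r h) →
        ∑ h, ∑ i, j' h i * β h i ≤ E) →
      nv v (MvPolynomial.eval (fun a => y a.1 a.2) (dd q P)) ≤ B * C ^ (∑ h, r h) * Real.exp E := by
  obtain ⟨ν, e, he, hν⟩ := G4.exists_abs v
  have he0 : (0 : ℝ) < e := by exact_mod_cast Nat.pos_of_ne_zero he
  set C0 : ℝ := 2 ^ Fintype.card ι * G4.ent ν A⁻¹ * (1 + G4.ent ν A) with hC0
  have hC00 : 0 ≤ C0 := by
    have h1 := G4.ent_nonneg ν A⁻¹
    have h2 := G4.ent_nonneg ν A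
    positivity
  refine ⟨(1 + C0) ^ e, one_le_pow₀ (by linarith), ?_⟩
  intro m r hr P hP B hB g hg q y β hβ E hE
  have hB0 : 0 ≤ B := (Pool.Agent.Helper64.Vojta.nv_nonneg v _).trans (hB 0)
  have hroot : ∀ {x : K} {c : ℝ}, 0 ≤ c → nv v x ≤ c → ν x ≤ c ^ (1 / (e : ℝ)) := by
    intro x c hc h
    rw [hν] at h
    rw [one_div]
    rw [Real.le_rpow_inv_iff_of_pos (ν.nonneg _) hc he0, Real.rpow_natCast]
    exact h
  have hcore := G4.core ν A hA r hr P hP (B ^ (1 / (e : ℝ))) (Real.rpow_nonneg hB0 _)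
    (fun d => hroot hB0 (hB d)) g hg q y (fun h i => β h i / e) (fun h i => by
      have := hroot (Real.exp_pos _).le (hβ h i)
      rw [← Real.exp_mul, mul_one_div] at this
      exact this) (E / e) (fun j' h1 h2 => by
      have := hE j' h1 h2
      rw [le_div_iff₀ he0, Finset.sum_mul]
      refine le_trans (le_of_eq ?_) this
      refine Finset.sum_congr rfl fun h _ => ?_
      rw [Finset.sum_mul]
      refine Finset.sum_congr rfl fun i _ => ?_
      rw [mul_assoc, div_mul_cancel₀ _ he0.ne'])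
  rw [hν]
  refine (pow_le_pow_left₀ (ν.nonneg _) hcore e).trans ?_
  rw [mul_pow, mul_pow, ← Real.exp_nat_mul, mul_div_cancel₀ _ he0.ne']
  refine mul_le_mul_of_nonneg_right ?_ (Real.exp_pos E).le
  have h3 : (B ^ (1 / (e : ℝ))) ^ e = B := by
    rw [← Real.rpow_natCast, ← Real.rpow_mul hB0, one_div_mul_cancel he0.ne', Real.rpow_one]
  rw [h3]
  refine mul_le_mul_of_nonneg_left ?_ hB0
  rw [← pow_mul, ← pow_mul, mul_comm e]
  exact pow_le_pow_left₀ hC00 (by linarith) _

/-- G4'. integral points at the finite places outside `S`. -/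
theorem eval_le_one {σ : Type*} [Fintype σ] (v : FinitePlace K) (p : MvPolynomial σ K)
    (hp : ∀ d, nv (.inr v) (p.coeff d) ≤ 1) (q : σ →₀ ℕ) (y : σ → K)
    (hy : ∀ i, nv (.inr v) (y i) ≤ 1) : nv (.inr v) (MvPolynomial.eval y (dd q p)) ≤ 1 := by
  have hnat : ∀ n : ℕ, nv (.inr v) ((n : ℕ) : K) ≤ 1 := by
    intro n
    have := Pool.Agent.Helper64.Vojta.nv_sum_le_inr v (Finset.range n) (fun _ => (1 : K)) 1
      zero_le_one (fun i _ => by rw [Pool.Agent.Helper64.Vojta.nv_one])
    simpa using this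
  have hmul : ∀ x z : K, nv (.inr v) x ≤ 1 → nv (.inr v) z ≤ 1 → nv (.inr v) (x * z) ≤ 1 := by
    intro x z hx hz
    rw [Pool.Agent.Helper64.Vojta.nv_mul]
    exact mul_le_one₀ hx (Pool.Agent.Helper64.Vojta.nv_nonneg _ _) hz
  rw [dd, map_sum]
  refine Pool.Agent.Helper64.Vojta.nv_sum_le_inr v _ _ 1 zero_le_one fun d _ => ?_
  rw [MvPolynomial.eval_monomial]
  refine hmul _ _ (hmul _ _ (hp d) (hnat _)) ?_
  rw [Finsupp.prod_fintype _ _ (by simp)]
  have : ∀ s : Finset σ, nv (.inr v) (∏ i ∈ s, y i ^ (d - q) i) ≤ 1 := by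
    classical
    intro s
    induction s using Finset.induction_on with
    | empty => simp [Pool.Agent.Helper64.Vojta.nv_one]
    | insert a s ha ih =>
      rw [Finset.prod_insert ha]
      refine hmul _ _ ?_ ih
      generalize (d - q) a = n
      induction n with
      | zero => simp [Pool.Agent.Helper64.Vojta.nv_one]
      | succ n ihn => rw [pow_succ]; exact hmul _ _ ihn (hy a)
  exact this _

end Pool.Agent.V2
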