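import Pool.Agent.Helper21.V2.Defs
import Pool.Agent.Helper21.V2.G2
import Pool.Agent.Helper21.V2.G4

/-!
# Block G3: the auxiliary polynomial (Siegel's lemma)
-/

namespace Pool.Agent.V2

open NumberField Finset
open Pool.Agent.Helper64.Vojta (Pl nv)

set_option linter.unusedVariables false

namespace G3

universe u w

/-- Siegel's lemma with at least twice as many unknowns as equations. -/
theorem siegel_const (K : Type*) [Field K] [NumberField K] : ∃ c : ℝ, 1 ≤ c ∧
    ∀ (α : Type u) (β : Type w) [Fintype α] [Fintype β] (M : Matrix α β (𝓞 K)),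
      0 < Fintype.card β → 2 * Fintype.card α ≤ Fintype.card β → ∀ A : ℝ, 1 ≤ A →
      (∀ k l, house (algebraMap (𝓞 K) K (M k l)) ≤ A) →
      ∃ ξ : β → 𝓞 K, ξ ≠ 0 ∧ Matrix.mulVec M ξ = 0 ∧
        ∀ l, house (algebraMap (𝓞 K) K (ξ l)) ≤ c * Fintype.card β * A := by
  classical
  obtain ⟨c0, hc0⟩ : ∃ c0 : ℝ, ∀ (α : Type u) (β : Type w) [Fintype α] [Fintype β]
      (M : Matrix α β (𝓞 K)) (_ : M ≠ 0) (p q : ℕ) (_ : 0 < p) (_ : p < q)
      (_ : Fintype.card β = q) (A : ℝ)
      (_ : ∀ k l, house (algebraMap (𝓞 K) K (M k l)) ≤ A) (_ : Fintype.card α = p),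
      ∃ ξ : β → 𝓞 K, ξ ≠ 0 ∧ Matrix.mulVec M ξ = 0 ∧
        ∀ l, house (algebraMap (𝓞 K) K (ξ l)) ≤ c0 * ((c0 * q * A) ^ ((p : ℝ) / (q - p))) :=
    ⟨_, fun α β _ _ M hM p q h0p hpq hβ A habs hα =>
      NumberField.house.exists_ne_zero_int_vec_house_le K M hM h0p hpq hβ habs hα⟩
  have hc1 : 1 ≤ max 1 |c0| := le_max_left _ _
  refine ⟨(max 1 |c0|) ^ 2, one_le_pow₀ hc1, ?_⟩
  intro α β _ _ M hβ hαβ A hA habs
  have hq1 : (1 : ℝ) ≤ Fintype.card β := by exact_mod_cast hβ
  by_cases hM : M = 0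
  · subst hM
    have : Nonempty β := Fintype.card_pos_iff.1 hβ
    refine ⟨fun _ => 1, fun h => ?_, ?_, fun l => ?_⟩
    · have := congrFun h (Classical.arbitrary β)
      exact one_ne_zero this
    · rw [Matrix.zero_mulVec]
    · have h1 : house (algebraMap (𝓞 K) K (1 : 𝓞 K)) = 1 := by
        rw [map_one]
        have := house_intCast (K := K) 1
        rw [Int.cast_one] at this
        rw [this]
        simp
      rw [h1]
      have h2 : (1 : ℝ) ≤ (max 1 |c0|) ^ 2 := one_le_pow₀ hc1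
      have h3 : (1 : ℝ) ≤ (max 1 |c0|) ^ 2 * Fintype.card β := by nlinarith
      nlinarith
  · have hα0 : 0 < Fintype.card α := by
      rw [Fintype.card_pos_iff]
      by_contra hne
      rw [not_nonempty_iff] at hne
      exact hM (by ext k; exact (hne.false k).elim)
    have hlt : Fintype.card α < Fintype.card β := by omega
    obtain ⟨ξ, h0, h1, h2⟩ := hc0 α β M hM _ _ hα0 hlt rfl A habs rfl
    refine ⟨ξ, h0, h1, fun l => (h2 l).trans ?_⟩
    set q : ℝ := (Fintype.card β : ℝ) with hq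
    set p : ℝ := (Fintype.card α : ℝ) with hp
    have hp0 : 0 < p := by rw [hp]; exact_mod_cast hα0
    have hpq : 2 * p ≤ q := by rw [hp, hq]; exact_mod_cast hαβ
    have he0 : 0 ≤ p / (q - p) := div_nonneg hp0.le (by linarith)
    have he1 : p / (q - p) ≤ 1 := by
      rw [div_le_one (by linarith)]
      linarith
    have hqA : 1 ≤ q * A := by nlinarith
    have hx : |c0 * q * A| ≤ max 1 |c0| * q * A := by
      rw [mul_assoc, abs_mul, abs_of_pos (by linarith : (0 : ℝ) < q * A), mul_assoc]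
      exact mul_le_mul_of_nonneg_right (le_max_right _ _) (by linarith)
    have hx1 : 1 ≤ max 1 |c0| * q * A := by
      rw [mul_assoc]
      nlinarith
    calc c0 * ((c0 * q * A) ^ (p / (q - p)))
        ≤ |c0 * ((c0 * q * A) ^ (p / (q - p)))| := le_abs_self _
      _ = |c0| * |(c0 * q * A) ^ (p / (q - p))| := abs_mul _ _
      _ ≤ |c0| * (|c0 * q * A| ^ (p / (q - p))) :=
          mul_le_mul_of_nonneg_left (Real.abs_rpow_le_abs_rpow _ _) (abs_nonneg _)
      _ ≤ |c0| * ((max 1 |c0| * q * A) ^ (p / (q - p))) :=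
          mul_le_mul_of_nonneg_left (Real.rpow_le_rpow (abs_nonneg _) hx he0) (abs_nonneg _)
      _ ≤ |c0| * ((max 1 |c0| * q * A) ^ (1 : ℝ)) :=
          mul_le_mul_of_nonneg_left (Real.rpow_le_rpow_of_exponent_le hx1 he1) (abs_nonneg _)
      _ = |c0| * (max 1 |c0| * q * A) := by rw [Real.rpow_one]
      _ ≤ max 1 |c0| * (max 1 |c0| * q * A) :=
          mul_le_mul_of_nonneg_right (le_max_right _ _) (by linarith)
      _ = (max 1 |c0|) ^ 2 * q * A := by ring

section lin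

variable {K : Type*} [CommRing K] {m : ℕ} {ι : Type*} [Fintype ι]

/-- the exponent belonging to an element of `J r` -/
noncomputable def ex (j : Fin m → ι → ℕ) : Fin m × ι →₀ ℕ :=
  Finsupp.equivFunOnFinite.symm fun a => j a.1 a.2

theorem ex_apply (j : Fin m → ι → ℕ) (a : Fin m × ι) : ex j a = j a.1 a.2 := rfl

theorem ex_inj : Function.Injective (ex : (Fin m → ι → ℕ) → (Fin m × ι →₀ ℕ)) := by
  intro j j' h
  funext a b
  have := DFunLike.congr_fun h (a, b)
  exact this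

theorem lin_monomial (B : Matrix ι ι K) (d : Fin m × ι →₀ ℕ) (c : K) :
    lin B (MvPolynomial.monomial d c) = MvPolynomial.C c * ∏ a, G4.lf B a ^ d a := by
  unfold lin
  rw [MvPolynomial.bind₁_monomial]
  congr 1
  exact Finset.prod_subset (Finset.subset_univ _) (fun a _ ha => by
    rw [Finsupp.notMem_support_iff.1 ha, pow_zero])

theorem lf_smul (D : K) (B : Matrix ι ι K) (a : Fin m × ι) :
    G4.lf (D • B) a = MvPolynomial.C D * G4.lf B a := by
  unfold G4.lf
  rw [Finset.mul_sum]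
  refine Finset.sum_congr rfl fun l _ => ?_
  rw [Matrix.smul_apply, smul_eq_mul, map_mul, mul_assoc]

theorem prod_lf_smul (D : K) (B : Matrix ι ι K) (k : Fin m × ι → ℕ) :
    ∏ a, G4.lf (D • B) a ^ k a = MvPolynomial.C (D ^ ∑ a, k a) * ∏ a, G4.lf B a ^ k a := by
  simp only [lf_smul, mul_pow]
  rw [Finset.prod_mul_distrib, Finset.prod_pow_eq_pow_sum, map_pow]

theorem lin_smul (D : K) (B : Matrix ι ι K) {r : Fin m → ℕ} {p : MvPolynomial (Fin m × ι) K}
    (hp : MHom r p) :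
    lin (D • B) p = MvPolynomial.C (D ^ ∑ h, r h) * lin B p := by
  rw [G4.lin_eq, G4.lin_eq, Finset.mul_sum]
  refine Finset.sum_congr rfl fun d hd => ?_
  have hs : ∑ a, d a = ∑ h, r h := by
    rw [Fintype.sum_prod_type]
    exact Finset.sum_congr rfl fun h _ => hp d hd h
  rw [prod_lf_smul, hs]
  ring

theorem map_lf {L : Type*} [CommRing L] (f : K →+* L) (B : Matrix ι ι K) (a : Fin m × ι) :
    MvPolynomial.map f (G4.lf B a) = G4.lf (B.map f) a := by
  unfold G4.lf
  rw [map_sum]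
  refine Finset.sum_congr rfl fun l _ => ?_
  rw [map_mul, MvPolynomial.map_C, MvPolynomial.map_X, Matrix.map_apply]

theorem map_prod_lf {L : Type*} [CommRing L] (f : K →+* L) (B : Matrix ι ι K)
    (k : Fin m × ι → ℕ) :
    MvPolynomial.map f (∏ a, G4.lf B a ^ k a) = ∏ a, G4.lf (B.map f) a ^ k a := by
  rw [map_prod]
  refine Finset.prod_congr rfl fun a _ => ?_
  rw [map_pow, map_lf]

end lin

section J

variable {ι : Type*} [Fintype ι] [DecidableEq ι] {m : ℕ}

theorem mem_J {r : Fin m → ℕ} {j : Fin m → ι → ℕ} : j ∈ J r ↔ ∀ h, ∑ i, j h i = r h := by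
  unfold J
  rw [Fintype.mem_piFinset]
  refine forall_congr' fun h => ?_
  rw [mem_piAntidiag]
  simp

theorem J_nonempty [Nonempty ι] (r : Fin m → ℕ) : (J r : Finset (Fin m → ι → ℕ)).Nonempty := by
  refine ⟨fun h => Pi.single (Classical.arbitrary ι) (r h), ?_⟩
  rw [mem_J]
  intro h
  rw [Finset.sum_pi_single']
  simp

theorem card_J_le (r : Fin m → ℕ) :
    (J r : Finset (Fin m → ι → ℕ)).card ≤ (2 ^ Fintype.card ι) ^ (∑ h, r h) := by
  have h1 : (J r : Finset (Fin m → ι → ℕ)) ⊆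
      Fintype.piFinset fun h => Fintype.piFinset fun _ : ι => Finset.range (r h + 1) := by
    intro j hj
    rw [mem_J] at hj
    rw [Fintype.mem_piFinset]
    intro h
    rw [Fintype.mem_piFinset]
    intro i
    rw [Finset.mem_range, Nat.lt_succ_iff, ← hj h]
    exact Finset.single_le_sum (f := fun i => j h i) (fun _ _ => Nat.zero_le _)
      (Finset.mem_univ i)
  refine (Finset.card_le_card h1).trans ?_
  rw [Fintype.card_piFinset]
  calc ∏ h, (Fintype.piFinset fun _ : ι => Finset.range (r h + 1)).card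
      = ∏ h, (r h + 1) ^ Fintype.card ι := by
        refine Finset.prod_congr rfl fun h _ => ?_
        rw [Fintype.card_piFinset, Finset.prod_const, Finset.card_range, Finset.card_univ]
    _ ≤ ∏ h, (2 ^ Fintype.card ι) ^ r h := by
        refine Finset.prod_le_prod' fun h _ => ?_
        rw [← pow_mul, mul_comm, pow_mul]
        exact Nat.pow_le_pow_left (Nat.lt_two_pow_self) _
    _ = (2 ^ Fintype.card ι) ^ (∑ h, r h) := by rw [Finset.prod_pow_eq_pow_sum]

open Classical in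
/-- the exponents with a small coordinate -/
noncomputable def Bad (r : Fin m → ℕ) (ε : ℝ) : Finset (Fin m → ι → ℕ) :=
  (J r).filter fun j => ∃ i, ∑ h, (j h i : ℝ) / r h < m * (1 / Fintype.card ι - ε)

theorem card_Bad (r : Fin m → ℕ) (hr : ∀ h, 1 ≤ r h) (ε : ℝ) (hε : 0 < ε) :
    ((Bad r ε : Finset (Fin m → ι → ℕ)).card : ℝ) * (4 * m * ε ^ 2) ≤
      Fintype.card ι * (J r : Finset (Fin m → ι → ℕ)).card := by
  classical
  have h1 : (Bad r ε : Finset (Fin m → ι → ℕ)) ⊆ Finset.univ.biUnion fun i0 : ι =>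
      (J r).filter fun j => ∑ h, (j h i0 : ℝ) / r h < m * (1 / Fintype.card ι - ε) := by
    intro j hj
    unfold Bad at hj
    rw [Finset.mem_filter] at hj
    obtain ⟨h2, i, h3⟩ := hj
    rw [Finset.mem_biUnion]
    exact ⟨i, Finset.mem_univ _, Finset.mem_filter.2 ⟨h2, h3⟩⟩
  have h2 : ((Bad r ε : Finset (Fin m → ι → ℕ)).card : ℝ) ≤ ∑ i0 : ι,
      (((J r : Finset (Fin m → ι → ℕ)).filter fun j =>
        ∑ h, (j h i0 : ℝ) / r h < m * (1 / Fintype.card ι - ε)).card : ℝ) := by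
    have := (Finset.card_le_card h1).trans Finset.card_biUnion_le
    exact_mod_cast this
  have h3 : 0 ≤ 4 * (m : ℝ) * ε ^ 2 := by positivity
  calc _ ≤ (∑ i0 : ι, (((J r : Finset (Fin m → ι → ℕ)).filter fun j =>
        ∑ h, (j h i0 : ℝ) / r h < m * (1 / Fintype.card ι - ε)).card : ℝ)) *
          (4 * m * ε ^ 2) := mul_le_mul_of_nonneg_right h2 h3
    _ = ∑ i0 : ι, (((J r : Finset (Fin m → ι → ℕ)).filter fun j =>
        ∑ h, (j h i0 : ℝ) / r h < m * (1 / Fintype.card ι - ε)).card : ℝ) *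
          (4 * m * ε ^ 2) := by rw [Finset.sum_mul]
    _ ≤ ∑ _i0 : ι, ((J r : Finset (Fin m → ι → ℕ)).card : ℝ) :=
        Finset.sum_le_sum fun i0 _ => by
          have := count_bad r hr i0 ε hε
          convert this using 3
    _ = _ := by rw [Finset.sum_const, nsmul_eq_mul, Finset.card_univ]

end J

end G3

variable {K : Type*} [Field K] [NumberField K] {ι : Type*} [Fintype ι] [DecidableEq ι]

open G3 in
/-- G3. Auxiliary polynomial. -/
theorem aux_poly [Nonempty ι] {α : Type*} [Fintype α] (A : α → Matrix ι ι K)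
    (hA : ∀ a, (A a).det ≠ 0) (ε : ℝ) (hε : 0 < ε) :
    ∃ m0 : ℕ, 1 ≤ m0 ∧ ∀ m : ℕ, m0 ≤ m → ∃ C : ℝ, 1 ≤ C ∧ ∀ r : Fin m → ℕ, (∀ h, 1 ≤ r h) →
      ∃ P : MvPolynomial (Fin m × ι) K, P ≠ 0 ∧ MHom r P ∧ (∀ d, IsIntegral ℤ (P.coeff d)) ∧
        (∀ (v : InfinitePlace K) d, v (P.coeff d) ≤ C ^ (∑ h, r h)) ∧
        ∀ a, ∀ j ∈ (lin (A a)⁻¹ P).support, ∀ i,
          m * (1 / Fintype.card ι - ε) ≤ ∑ h, (j (h, i) : ℝ) / r h := by
  classical
  obtain ⟨c, hc1, hc⟩ := siegel_const K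
  -- common denominator
  obtain ⟨D, hD⟩ := IsLocalization.exist_integer_multiples_of_finite (nonZeroDivisors (𝓞 K))
    (fun x : α × ι × ι => (A x.1)⁻¹ x.2.1 x.2.2)
  choose b hb using fun x : α × ι × ι => hD x
  set B : α → Matrix ι ι (𝓞 K) := fun a => Matrix.of fun i l => b (a, i, l) with hB
  set DK : K := algebraMap (𝓞 K) K D with hDK
  have hD0 : DK ≠ 0 := by
    rw [hDK]
    simp
  have hBD : ∀ a, (B a).map (algebraMap (𝓞 K) K) = DK • (A a)⁻¹ := by
    intro a
    ext i l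
    rw [Matrix.map_apply, Matrix.smul_apply, smul_eq_mul]
    have := hb (a, i, l)
    rw [hDK]
    simp only at this
    rw [Algebra.smul_def] at this
    exact this
  set E : ℝ := 1 + ∑ a : α, ∑ φ : K →+* ℂ, G4.ent (place φ) (DK • (A a)⁻¹) with hE
  have hEge : ∀ (a : α) (φ : K →+* ℂ), G4.ent (place φ) (DK • (A a)⁻¹) ≤ E := by
    intro a φ
    have h1 := Finset.single_le_sum (f := fun φ : K →+* ℂ => G4.ent (place φ) (DK • (A a)⁻¹))
      (fun _ _ => G4.ent_nonneg _ _) (Finset.mem_univ φ)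
    have h2 := Finset.single_le_sum (f := fun a => ∑ φ : K →+* ℂ,
      G4.ent (place φ) (DK • (A a)⁻¹))
      (fun _ _ => Finset.sum_nonneg fun _ _ => G4.ent_nonneg _ _) (Finset.mem_univ a)
    rw [hE]
    linarith
  have hE1 : 1 ≤ E := by
    rw [hE]
    have : 0 ≤ ∑ a : α, ∑ φ : K →+* ℂ, G4.ent (place φ) (DK • (A a)⁻¹) :=
      Finset.sum_nonneg fun _ _ => Finset.sum_nonneg fun _ _ => G4.ent_nonneg _ _
    linarith
  set n : ℕ := Fintype.card ι with hn
  set m1 : ℕ := ⌈(Fintype.card α : ℝ) * n / (2 * ε ^ 2)⌉₊ with hm1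
  refine ⟨max 1 m1, le_max_left _ _, fun m hm => ?_⟩
  have hm1' : 1 ≤ m := (le_max_left _ _).trans hm
  have hm2 : (Fintype.card α : ℝ) * n ≤ 2 * ε ^ 2 * m := by
    have h1 : (Fintype.card α : ℝ) * n / (2 * ε ^ 2) ≤ m := by
      exact (Nat.le_ceil _).trans (Nat.cast_le.2 ((le_max_right 1 m1).trans hm))
    rw [div_le_iff₀ (by positivity)] at h1
    linarith
  have h2n : (1 : ℝ) ≤ 2 ^ n := one_le_pow₀ (by norm_num)
  refine ⟨c * 2 ^ n * E, ?_, fun r hr => ?_⟩
  · have : 1 ≤ c * 2 ^ n := by nlinarith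
    nlinarith
  have hR1 : 1 ≤ ∑ h, r h := by
    calc 1 ≤ m := hm1'
      _ = ∑ _h : Fin m, 1 := by simp
      _ ≤ ∑ h, r h := Finset.sum_le_sum fun h _ => hr h
  set R := ∑ h, r h with hR
  -- the linear system
  set M : Matrix (α × {j // j ∈ (Bad r ε : Finset (Fin m → ι → ℕ))})
      {j // j ∈ (J r : Finset (Fin m → ι → ℕ))} (𝓞 K) :=
    Matrix.of fun x j => (∏ a, G4.lf (B x.1) a ^ (ex j.1 a)).coeff (ex x.2.1) with hM
  have hMK : ∀ x j, algebraMap (𝓞 K) K (M x j) =
      (∏ a, G4.lf (DK • (A x.1)⁻¹) a ^ (ex j.1 a)).coeff (ex x.2.1) := by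
    intro x j
    rw [hM, Matrix.of_apply, ← hBD, ← map_prod_lf, MvPolynomial.coeff_map]
  have hhouse : ∀ x j, house (algebraMap (𝓞 K) K (M x j)) ≤ E ^ R := by
    intro x j
    rw [house_eq_sup']
    have hcoe : ∀ φ : K →+* ℂ, ‖φ (algebraMap (𝓞 K) K (M x j))‖ ≤ E ^ R := by
      intro φ
      rw [← place_apply, hMK]
      refine ((G4.prod_lf_maj (place φ) _ _).coeff_le _).trans
        ((G4.eval_lfM (place φ) _ _).trans ?_)
      calc ∏ a, G4.ent (place φ) (DK • (A x.1)⁻¹) ^ (ex j.1 a)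
          ≤ ∏ a, E ^ (ex j.1 a) := Finset.prod_le_prod
            (fun a _ => pow_nonneg (G4.ent_nonneg _ _) _)
            (fun a _ => pow_le_pow_left₀ (G4.ent_nonneg _ _) (hEge x.1 φ) _)
        _ = E ^ (∑ a, ex j.1 a) := by rw [Finset.prod_pow_eq_pow_sum]
        _ = E ^ R := by
            congr 1
            rw [Fintype.sum_prod_type, hR]
            exact Finset.sum_congr rfl fun h _ => mem_J.1 j.2 h
    have h0 : 0 ≤ E ^ R := by positivity
    rw [← Real.coe_toNNReal _ h0, NNReal.coe_le_coe]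
    refine Finset.sup'_le _ _ fun φ _ => ?_
    rw [← NNReal.coe_le_coe, Real.coe_toNNReal _ h0]
    exact hcoe φ
  have hcardJ : 0 < Fintype.card {j // j ∈ (J r : Finset (Fin m → ι → ℕ))} := by
    rw [Fintype.card_coe]
    exact (J_nonempty r).card_pos
  have hcard : 2 * Fintype.card (α × {j // j ∈ (Bad r ε : Finset (Fin m → ι → ℕ))}) ≤
      Fintype.card {j // j ∈ (J r : Finset (Fin m → ι → ℕ))} := by
    rw [Fintype.card_prod, Fintype.card_coe, Fintype.card_coe]
    have h1 := card_Bad (ι := ι) r hr ε hε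
    have hm0 : (0 : ℝ) < m := by exact_mod_cast hm1'
    set NB : ℝ := ((Bad r ε : Finset (Fin m → ι → ℕ)).card : ℝ) with hNB
    set NJ : ℝ := ((J r : Finset (Fin m → ι → ℕ)).card : ℝ) with hNJ
    have hNJ0 : 0 ≤ NJ := Nat.cast_nonneg _
    have h2 : 2 * ((Fintype.card α : ℝ) * NB) * (2 * ε ^ 2 * m) ≤ NJ * (2 * ε ^ 2 * m) := by
      calc 2 * ((Fintype.card α : ℝ) * NB) * (2 * ε ^ 2 * m)
          = (Fintype.card α : ℝ) * (NB * (4 * m * ε ^ 2)) := by ring
        _ ≤ (Fintype.card α : ℝ) * ((Fintype.card ι : ℝ) * NJ) :=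
            mul_le_mul_of_nonneg_left h1 (Nat.cast_nonneg _)
        _ = ((Fintype.card α : ℝ) * n) * NJ := by
            rw [hn]; ring
        _ ≤ (2 * ε ^ 2 * m) * NJ :=
            mul_le_mul_of_nonneg_right hm2 hNJ0
        _ = _ := by ring
    have h3 := le_of_mul_le_mul_right h2 (by positivity)
    rw [hNB, hNJ] at h3
    exact_mod_cast h3
  obtain ⟨ξ, hξ0, hξ1, hξ2⟩ := hc _ _ M hcardJ hcard (E ^ R) (one_le_pow₀ hE1) hhouse
  set P : MvPolynomial (Fin m × ι) K :=
    ∑ j : {j // j ∈ (J r : Finset (Fin m → ι → ℕ))},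
      MvPolynomial.monomial (ex j.1) (algebraMap (𝓞 K) K (ξ j)) with hP
  have hPc : ∀ j : {j // j ∈ (J r : Finset (Fin m → ι → ℕ))},
      P.coeff (ex j.1) = algebraMap (𝓞 K) K (ξ j) := by
    intro j
    rw [hP, MvPolynomial.coeff_sum, Finset.sum_eq_single j]
    · rw [MvPolynomial.coeff_monomial, if_pos rfl]
    · intro j' _ hj'
      rw [MvPolynomial.coeff_monomial, if_neg]
      intro h
      exact hj' (Subtype.ext (ex_inj h))
    · simp
  have hPc0 : ∀ d, (∀ j : {j // j ∈ (J r : Finset (Fin m → ι → ℕ))}, ex j.1 ≠ d) →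
      P.coeff d = 0 := by
    intro d hd
    rw [hP, MvPolynomial.coeff_sum]
    exact Finset.sum_eq_zero fun j _ => by rw [MvPolynomial.coeff_monomial, if_neg (hd j)]
  have hPcases : ∀ d, P.coeff d = 0 ∨ ∃ j : {j // j ∈ (J r : Finset (Fin m → ι → ℕ))},
      ex j.1 = d := by
    intro d
    by_cases h : ∃ j : {j // j ∈ (J r : Finset (Fin m → ι → ℕ))}, ex j.1 = d
    · exact Or.inr h
    · left
      push Not at h
      exact hPc0 d h
  have hPM : MHom r P := by
    intro d hd h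
    rw [MvPolynomial.mem_support_iff] at hd
    obtain ⟨j, rfl⟩ := (hPcases d).resolve_left hd
    exact mem_J.1 j.2 h
  have hlin : ∀ a : α, ∀ x : {j // j ∈ (Bad r ε : Finset (Fin m → ι → ℕ))},
      (lin (A a)⁻¹ P).coeff (ex x.1) = 0 := by
    intro a x
    have h1 := congrFun hξ1 (a, x)
    rw [Matrix.mulVec, dotProduct, Pi.zero_apply] at h1
    have h2 := congrArg (algebraMap (𝓞 K) K) h1
    rw [map_sum, map_zero] at h2
    have h3 : (lin (DK • (A a)⁻¹) P).coeff (ex x.1) = 0 := by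
      rw [← h2, hP]
      unfold lin
      rw [map_sum, MvPolynomial.coeff_sum]
      refine Finset.sum_congr rfl fun j _ => ?_
      have h4 := lin_monomial (DK • (A a)⁻¹) (ex j.1) (algebraMap (𝓞 K) K (ξ j))
      unfold lin at h4
      rw [h4, MvPolynomial.coeff_C_mul, map_mul, hMK, mul_comm]
    rw [lin_smul DK _ hPM, MvPolynomial.coeff_C_mul] at h3
    exact (mul_eq_zero.1 h3).resolve_left (pow_ne_zero _ hD0)
  refine ⟨P, ?_, hPM, ?_, ?_, ?_⟩
  · intro h
    apply hξ0
    funext j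
    have h1 := hPc j
    rw [h, MvPolynomial.coeff_zero] at h1
    have h2 : algebraMap (𝓞 K) K (ξ j) = algebraMap (𝓞 K) K 0 := by rw [← h1, map_zero]
    exact (IsFractionRing.injective (𝓞 K) K) h2
  · intro d
    rcases hPcases d with h | ⟨j, rfl⟩
    · rw [h]; exact isIntegral_zero
    · rw [hPc]; exact (ξ j).isIntegral_coe
  · intro v d
    have hC0 : 0 ≤ (c * 2 ^ n * E) ^ R := by positivity
    rcases hPcases d with h | ⟨j, rfl⟩
    · rw [h, map_zero]; exact hC0
    · rw [hPc, ← InfinitePlace.norm_embedding_eq]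
      refine (norm_embedding_le_house _ _).trans ((hξ2 j).trans ?_)
      rw [Fintype.card_coe, mul_pow, mul_pow]
      have h1 : ((J r : Finset (Fin m → ι → ℕ)).card : ℝ) ≤ (2 ^ n) ^ R := by
        exact_mod_cast card_J_le (ι := ι) r
      have h2 : c ≤ c ^ R := le_self_pow₀ hc1 (by omega)
      exact mul_le_mul_of_nonneg_right (mul_le_mul h2 h1 (by positivity) (by positivity))
        (by positivity)
  · intro a j hj i
    by_contra hlt
    rw [not_le] at hlt
    have hjM := G4.lin_hom (A a)⁻¹ hPM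
    have hjr := hjM j hj
    set j' : Fin m → ι → ℕ := fun h i => j (h, i) with hj'
    have hex : ex j' = j := by
      ext x
      rfl
    have hmem : j' ∈ (Bad r ε : Finset (Fin m → ι → ℕ)) := by
      unfold Bad
      rw [Finset.mem_filter]
      exact ⟨mem_J.2 hjr, i, hlt⟩
    have := hlin a ⟨j', hmem⟩
    rw [hex] at this
    exact (MvPolynomial.mem_support_iff.1 hj) this

end Pool.Agent.V2
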