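import Pool.Agent.Helper21.V2.Defs

/-!
# Block G5: the grid lemma
-/

namespace Pool.Agent.V2

open NumberField Finset
open Pool.Agent.Helper64.Vojta (Pl nv)

/-- a polynomial of degree `≤ r` cannot vanish to order `> r / (N + 1)` at `0, …, N` -/
theorem G5_one_var {K : Type*} [Field K] [CharZero K] (p : Polynomial K) (r N : ℕ)
    (hr : p.natDegree ≤ r)
    (h : ∀ u ≤ N, ∀ a, (N + 1) * a ≤ r → (Polynomial.hasseDeriv a p).eval (u : K) = 0) :
    p = 0 := by
  set A := r / (N + 1) with hA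
  have hA1 : ∀ a ≤ A, (N + 1) * a ≤ r := by
    intro a ha
    calc (N + 1) * a ≤ (N + 1) * A := Nat.mul_le_mul_left _ ha
      _ ≤ r := Nat.mul_div_le r (N + 1)
  have hdvd : ∀ u ∈ range (N + 1), (Polynomial.X - Polynomial.C (u : K)) ^ (A + 1) ∣ p := by
    intro u hu
    rw [mem_range] at hu
    have h1 : (Polynomial.X : Polynomial K) ^ (A + 1) ∣ Polynomial.taylor (u : K) p := by
      rw [Polynomial.X_pow_dvd_iff]
      intro d hd
      rw [Polynomial.taylor_coeff]
      exact h u (by omega) d (hA1 d (by omega))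
    obtain ⟨q, hq⟩ := h1
    refine ⟨Polynomial.taylor (-(u : K)) q, ?_⟩
    have h2 := congrArg (Polynomial.taylor (-(u : K))) hq
    rw [Polynomial.taylor_taylor, Polynomial.taylor_mul, Polynomial.taylor_pow, Polynomial.taylor_X] at h2
    simpa [sub_eq_add_neg] using h2
  have hprod : ∏ u ∈ range (N + 1), (Polynomial.X - Polynomial.C (u : K)) ^ (A + 1) ∣ p := by
    refine Finset.prod_dvd_of_coprime ?_ hdvd
    intro u _ w _ huw
    refine IsCoprime.pow ?_
    refine Polynomial.isCoprime_X_sub_C_of_isUnit_sub ?_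
    rw [isUnit_iff_ne_zero, sub_ne_zero]
    exact fun h => huw (by exact_mod_cast h)
  refine Polynomial.eq_zero_of_dvd_of_natDegree_lt hprod ?_
  rw [Polynomial.natDegree_prod_of_monic _ _
    (fun u _ => (Polynomial.monic_X_sub_C _).pow _)]
  have h3 : ∀ u ∈ range (N + 1),
      ((Polynomial.X - Polynomial.C (u : K)) ^ (A + 1)).natDegree = A + 1 := by
    intro u _
    rw [Polynomial.natDegree_pow, Polynomial.natDegree_X_sub_C, mul_one]
  rw [sum_congr rfl h3, sum_const, card_range, smul_eq_mul]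
  have h4 := Nat.lt_mul_div_succ r (Nat.succ_pos N)
  simp only [Nat.succ_eq_add_one] at h4
  rw [← hA] at h4
  omega

/-- the pairs `(u, a)` with `u ≤ N` and `(N + 1) * a ≤ r` -/
def G5I (r N : ℕ) : Finset (ℕ × ℕ) :=
  (range (N + 1)) ×ˢ (range (r + 1)).filter (fun a => (N + 1) * a ≤ r)

theorem mem_G5I {r N : ℕ} {q : ℕ × ℕ} : q ∈ G5I r N ↔ q.1 ≤ N ∧ (N + 1) * q.2 ≤ r := by
  unfold G5I
  rw [mem_product, mem_filter, mem_range, mem_range]
  constructor
  · rintro ⟨h1, h2, h3⟩
    exact ⟨by omega, h3⟩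
  · rintro ⟨h1, h2⟩
    refine ⟨by omega, ?_, h2⟩
    have : q.2 ≤ (N + 1) * q.2 := Nat.le_mul_of_pos_left _ (Nat.succ_pos N)
    omega

theorem G5_dual (K : Type*) [Field K] [CharZero K] (r N : ℕ) :
    ∃ c : ℕ → ℕ × ℕ → K, ∀ d ≤ r, ∀ e ≤ r,
      ∑ q ∈ G5I r N, c d q * (((e.choose q.2 : ℕ) : K) * (q.1 : K) ^ (e - q.2)) =
        if d = e then 1 else 0 := by
  classical
  set M : Matrix (G5I r N) (Fin (r + 1)) K := fun q e =>
    (((e : ℕ).choose q.1.2 : ℕ) : K) * (q.1.1 : K) ^ ((e : ℕ) - q.1.2) with hM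
  have hker : LinearMap.ker (Matrix.mulVecLin M) = ⊥ := by
    rw [LinearMap.ker_eq_bot']
    intro g hg
    set p : Polynomial K := ∑ e : Fin (r + 1), Polynomial.monomial (e : ℕ) (g e) with hp
    have hp0 : p = 0 := by
      refine G5_one_var p r N ?_ ?_
      · refine Polynomial.natDegree_sum_le_of_forall_le _ _ (fun e _ => ?_)
        exact le_trans (Polynomial.natDegree_monomial_le _) (by omega)
      · intro u hu a ha
        have h1 := congrFun hg ⟨(u, a), mem_G5I.2 ⟨hu, ha⟩⟩
        rw [Matrix.mulVecLin_apply, Matrix.mulVec, dotProduct] at h1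
        simp only [hM, Pi.zero_apply] at h1
        rw [hp, map_sum, Polynomial.eval_finsetSum, ← h1]
        refine sum_congr rfl (fun e _ => ?_)
        rw [Polynomial.hasseDeriv_monomial, Polynomial.eval_monomial]
        ring
    funext e
    have h2 := congrArg (fun p => Polynomial.coeff p (e : ℕ)) hp0
    simp only [hp, Polynomial.finsetSum_coeff, Polynomial.coeff_monomial,
      Polynomial.coeff_zero] at h2
    rw [sum_eq_single e] at h2
    · simpa using h2
    · intro b _ hb
      rw [if_neg]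
      intro h
      exact hb (Fin.ext h)
    · intro h
      exact absurd (mem_univ e) h
  obtain ⟨Ψ, hΨ⟩ := LinearMap.exists_leftInverse_of_injective _ hker
  have h1 : LinearMap.toMatrix' Ψ * M = 1 := by
    have h2 := congrArg LinearMap.toMatrix' hΨ
    rw [LinearMap.toMatrix'_comp, LinearMap.toMatrix'_id] at h2
    have h3 : LinearMap.toMatrix' (Matrix.mulVecLin M) = M := by
      rw [← Matrix.toLin'_apply']
      exact LinearMap.toMatrix'_toLin' M
    rw [h3] at h2
    exact h2
  obtain ⟨T, hT⟩ : ∃ T : Fin (r + 1) → G5I r N → K, ∀ i j, T i j = LinearMap.toMatrix' Ψ i j :=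
    ⟨fun i j => LinearMap.toMatrix' Ψ i j, fun i j => rfl⟩
  refine ⟨fun d q => if h : d < r + 1 ∧ q ∈ G5I r N then T ⟨d, h.1⟩ ⟨q, h.2⟩ else 0, ?_⟩
  intro d hd e he
  have h4 := congrFun (congrFun h1 ⟨d, by omega⟩) ⟨e, by omega⟩
  rw [Matrix.mul_apply, Matrix.one_apply] at h4
  simp only [Fin.mk.injEq] at h4
  rw [← h4, ← sum_coe_sort]
  refine sum_congr rfl (fun q _ => ?_)
  have h5 : d < r + 1 ∧ (q : ℕ × ℕ) ∈ G5I r N := ⟨by omega, q.2⟩
  beta_reduce
  rw [dif_pos h5, hT]

theorem G5_eval_dd {K : Type*} [CommRing K] {σ : Type*} [Fintype σ] (q : σ →₀ ℕ)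
    (p : MvPolynomial σ K) (x : σ → K) :
    MvPolynomial.eval x (dd q p) = ∑ d ∈ p.support, p.coeff d *
      ∏ i, ((((d i).choose (q i) : ℕ) : K) * x i ^ (d i - q i)) := by
  unfold dd
  rw [map_sum]
  refine sum_congr rfl (fun d _ => ?_)
  rw [MvPolynomial.eval_monomial, Finsupp.prod_fintype _ _ (fun i => pow_zero _), prod_mul_distrib]
  simp only [Finsupp.coe_tsub, Pi.sub_apply]
  push_cast
  ring

/-- G5. Grid lemma. -/
theorem grid {K : Type*} [Field K] [NumberField K] {σ : Type*} [Fintype σ]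
    (G : MvPolynomial σ K) (hG : G ≠ 0) (r : σ → ℕ)
    (hdeg : ∀ h, G.degreeOf h ≤ r h) (N : ℕ) :
    ∃ (u : σ → ℕ) (a : σ →₀ ℕ), (∀ h, u h ≤ N) ∧ (∀ h, (N + 1) * a h ≤ r h) ∧
      MvPolynomial.eval (fun h => (u h : K)) (dd a G) ≠ 0 := by
  classical
  by_contra hcon
  push Not at hcon
  apply hG
  choose c hc using fun h => G5_dual K (r h) N
  ext d
  rw [MvPolynomial.coeff_zero]
  by_cases hd : d ∈ G.support
  · have hle : ∀ e ∈ G.support, ∀ h, e h ≤ r h := fun e he h =>
      le_trans (MvPolynomial.degreeOf_le_iff.1 le_rfl e he) (hdeg h)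
    have h1 : MvPolynomial.coeff d G = ∑ e ∈ G.support, G.coeff e *
        ∏ h, (if d h = e h then (1 : K) else 0) := by
      rw [sum_eq_single d]
      · simp
      · intro e _ hed
        have h2 : ∃ h, d h ≠ e h := by
          by_contra h3
          push Not at h3
          exact hed (Finsupp.ext fun h => (h3 h).symm)
        obtain ⟨h, hh⟩ := h2
        rw [prod_eq_zero (mem_univ h) (if_neg hh), mul_zero]
      · intro h
        exact absurd hd h
    rw [h1]
    have h2 : ∀ e ∈ G.support, G.coeff e * ∏ h, (if d h = e h then (1 : K) else 0) =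
        ∑ w ∈ Fintype.piFinset (fun h => G5I (r h) N), (∏ h, c h (d h) (w h)) *
          (G.coeff e * ∏ h, ((((e h).choose (w h).2 : ℕ) : K) *
            ((w h).1 : K) ^ (e h - (w h).2))) := by
      intro e he
      have h3 : ∏ h, (if d h = e h then (1 : K) else 0) =
          ∏ h, ∑ q ∈ G5I (r h) N, c h (d h) q *
            ((((e h).choose q.2 : ℕ) : K) * (q.1 : K) ^ (e h - q.2)) :=
        prod_congr rfl (fun h _ => (hc h (d h) (hle d hd h) (e h) (hle e he h)).symm)
      rw [h3, prod_univ_sum, mul_sum]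
      refine sum_congr rfl (fun w _ => ?_)
      rw [prod_mul_distrib]
      ring
    rw [sum_congr rfl h2, sum_comm]
    refine sum_eq_zero (fun w hw => ?_)
    rw [← mul_sum]
    rw [Fintype.mem_piFinset] at hw
    have h4 := hcon (fun h => (w h).1) (Finsupp.equivFunOnFinite.symm fun h => (w h).2)
      (fun h => (mem_G5I.1 (hw h)).1) (fun h => (mem_G5I.1 (hw h)).2)
    rw [G5_eval_dd] at h4
    simp only [Finsupp.equivFunOnFinite_symm_apply_apply] at h4
    rw [h4, mul_zero]
  · exact MvPolynomial.notMem_support_iff.1 hd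

theorem G5_coeff_dd {K : Type*} [CommRing K] {σ : Type*} [Fintype σ] (q : σ →₀ ℕ)
    (p : MvPolynomial σ K) (e : σ →₀ ℕ) :
    (dd q p).coeff e = p.coeff (e + q) * ((∏ i, ((e + q) i).choose (q i) : ℕ) : K) := by
  classical
  unfold dd
  rw [MvPolynomial.coeff_sum, sum_eq_single (e + q)]
  · rw [MvPolynomial.coeff_monomial, if_pos (add_tsub_cancel_right e q)]
  · intro d _ hd
    rw [MvPolynomial.coeff_monomial]
    split_ifs with h
    · have h1 : ¬ q ≤ d := by
        intro h2
        apply hd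
        rw [← h, tsub_add_cancel_of_le h2]
      rw [Finsupp.le_def] at h1
      push Not at h1
      obtain ⟨i, hi⟩ := h1
      have h3 : (∏ i, (d i).choose (q i)) = 0 :=
        prod_eq_zero (mem_univ i) (Nat.choose_eq_zero_of_lt hi)
      rw [h3, Nat.cast_zero, mul_zero]
    · rfl
  · intro h
    rw [MvPolynomial.notMem_support_iff] at h
    rw [h, zero_mul, MvPolynomial.monomial_zero, MvPolynomial.coeff_zero]

theorem G5_dd_dd {K : Type*} [CommRing K] {σ : Type*} [Fintype σ] (q q' : σ →₀ ℕ)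
    (p : MvPolynomial σ K) :
    dd q' (dd q p) = MvPolynomial.C ((∏ i, ((q' + q) i).choose (q i) : ℕ) : K) * dd (q' + q) p := by
  ext e
  rw [MvPolynomial.coeff_C_mul, G5_coeff_dd, G5_coeff_dd, G5_coeff_dd, add_assoc]
  have h : ((∏ i, ((e + (q' + q)) i).choose (q i)) * ∏ i, ((e + q') i).choose (q' i) : ℕ) =
      (∏ i, ((q' + q) i).choose (q i)) * ∏ i, ((e + (q' + q)) i).choose ((q' + q) i) := by
    rw [← prod_mul_distrib, ← prod_mul_distrib]
    refine prod_congr rfl (fun i _ => ?_)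
    simp only [Finsupp.add_apply]
    have h1 := Nat.choose_mul (n := e i + (q' i + q i)) (k := q' i + q i) (s := q i)
      (by omega)
    have h2 : e i + (q' i + q i) - q i = e i + q' i := by omega
    have h3 : q' i + q i - q i = q' i := by omega
    rw [h2, h3] at h1
    rw [← h1]
    ring
  have h4 := congrArg (Nat.cast (R := K)) h
  push_cast at h4 ⊢
  linear_combination (MvPolynomial.coeff (e + (q' + q)) p) * h4

theorem G5_coeff_sh {K : Type*} [CommRing K] {σ : Type*} [Fintype σ] (ξ : σ → K) (q : σ →₀ ℕ)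
    (p : MvPolynomial σ K) :
    (sh ξ p).coeff q = MvPolynomial.eval ξ (dd q p) := by
  classical
  rw [G5_eval_dd]
  conv_lhs => rw [← MvPolynomial.support_sum_monomial_coeff p]
  unfold sh
  rw [map_sum, MvPolynomial.coeff_sum]
  refine sum_congr rfl (fun d _ => ?_)
  rw [MvPolynomial.bind₁_monomial, MvPolynomial.coeff_C_mul]
  congr 1
  have h1 : ∏ i ∈ d.support, (MvPolynomial.X i + MvPolynomial.C (ξ i) : MvPolynomial σ K) ^ d i =
      ∏ i, ∑ k ∈ range (d i + 1), (MvPolynomial.X i : MvPolynomial σ K) ^ k *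
        MvPolynomial.C (((d i).choose k : K) * ξ i ^ (d i - k)) := by
    rw [← prod_subset (subset_univ d.support)]
    · refine prod_congr rfl (fun i _ => ?_)
      rw [add_pow]
      refine sum_congr rfl (fun k _ => ?_)
      rw [map_mul, map_pow, map_natCast]
      ring
    · intro i _ hi
      rw [Finsupp.notMem_support_iff] at hi
      simp [hi]
  rw [h1, prod_univ_sum, MvPolynomial.coeff_sum]
  have h2 : ∀ k : σ → ℕ, ∏ i, ((MvPolynomial.X i : MvPolynomial σ K) ^ k i *
        MvPolynomial.C (((d i).choose (k i) : K) * ξ i ^ (d i - k i))) =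
      MvPolynomial.monomial (Finsupp.equivFunOnFinite.symm k)
        (∏ i, (((d i).choose (k i) : K) * ξ i ^ (d i - k i))) := by
    intro k
    rw [prod_mul_distrib, MvPolynomial.monomial_eq, map_prod,
      Finsupp.prod_fintype _ _ (fun i => pow_zero _)]
    simp only [Finsupp.equivFunOnFinite_symm_apply_apply]
    ring
  rw [sum_congr rfl (fun k _ => by rw [h2 k, MvPolynomial.coeff_monomial])]
  by_cases hq : ∀ i, q i ≤ d i
  · rw [sum_eq_single (fun i => q i)]
    · rw [if_pos]
      ext i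
      simp
    · intro k _ hk
      rw [if_neg]
      intro h
      apply hk
      rw [← h]
      rfl
    · intro h
      exfalso
      apply h
      rw [Fintype.mem_piFinset]
      intro i
      rw [mem_range]
      have := hq i
      omega
  · push Not at hq
    obtain ⟨i, hi⟩ := hq
    rw [prod_eq_zero (mem_univ i)]
    · refine sum_eq_zero (fun k hk => ?_)
      rw [if_neg]
      intro h
      rw [Fintype.mem_piFinset] at hk
      have h3 := hk i
      rw [mem_range] at h3
      rw [← h] at hi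
      simp only [Finsupp.equivFunOnFinite_symm_apply_apply] at hi
      omega
    · rw [Nat.choose_eq_zero_of_lt hi, Nat.cast_zero, zero_mul]

/-- the substitution of a combination of vectors in every block -/
noncomputable def G5L {K : Type*} [CommRing K] {m n : ℕ} {ι : Type*} (z : Fin m → Fin n → ι → K)
    (a : Fin m × ι) : MvPolynomial (Fin m × Fin n) K :=
  ∑ l, MvPolynomial.C (z a.1 l a.2) * MvPolynomial.X (a.1, l)

theorem G5L_support {K : Type*} [CommRing K] {m n : ℕ} {ι : Type*} [Fintype ι]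
    (z : Fin m → Fin n → ι → K) (Q : MvPolynomial (Fin m × ι) K) (e : Fin m × Fin n →₀ ℕ)
    (he : (MvPolynomial.bind₁ (G5L z) Q).coeff e ≠ 0) :
    ∃ d : Fin m × ι →₀ ℕ, Q.coeff d ≠ 0 ∧ ∀ h, ∑ l, e (h, l) = ∑ i, d (h, i) := by
  classical
  rw [← MvPolynomial.support_sum_monomial_coeff Q, map_sum, MvPolynomial.coeff_sum] at he
  obtain ⟨d, hd, hd2⟩ := exists_ne_zero_of_sum_ne_zero he
  rw [MvPolynomial.mem_support_iff] at hd
  refine ⟨d, hd, fun h => ?_⟩
  rw [MvPolynomial.bind₁_monomial, MvPolynomial.coeff_C_mul] at hd2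
  have h1 := right_ne_zero_of_mul hd2
  have h2 : MvPolynomial.IsWeightedHomogeneous
      (fun a : Fin m × Fin n => if a.1 = h then (1 : ℕ) else 0)
      (∏ a ∈ d.support, G5L z a ^ d a) (∑ a ∈ d.support, d a • (if a.1 = h then (1 : ℕ) else 0)) := by
    refine MvPolynomial.IsWeightedHomogeneous.prod _ _ _ (fun a _ => ?_)
    refine MvPolynomial.IsWeightedHomogeneous.pow ?_ _
    unfold G5L
    refine MvPolynomial.IsWeightedHomogeneous.sum _ _ _ (fun l _ => ?_)
    have h3 := (MvPolynomial.isWeightedHomogeneous_C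
      (fun a : Fin m × Fin n => if a.1 = h then (1 : ℕ) else 0) (z a.1 l a.2)).mul
      (MvPolynomial.isWeightedHomogeneous_X K
        (fun a : Fin m × Fin n => if a.1 = h then (1 : ℕ) else 0) (a.1, l))
    rwa [zero_add] at h3
  have h4 := h2 h1
  rw [Finsupp.weight_eq_sum, Fintype.sum_prod_type] at h4
  have h5 : ∑ a ∈ d.support, d a • (if a.1 = h then (1 : ℕ) else 0) =
      ∑ a : Fin m × ι, d a • (if a.1 = h then (1 : ℕ) else 0) := by
    refine sum_subset (subset_univ _) (fun a _ ha => ?_)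
    rw [Finsupp.notMem_support_iff] at ha
    rw [ha, zero_smul]
  rw [h5, Fintype.sum_prod_type] at h4
  rw [sum_eq_single h, sum_eq_single h] at h4
  · simpa using h4
  · intro b _ hb
    simp [hb]
  · intro hh
    exact absurd (mem_univ h) hh
  · intro b _ hb
    simp [hb]
  · intro hh
    exact absurd (mem_univ h) hh

theorem G5L_sh {K : Type*} [CommRing K] {m n : ℕ} {ι : Type*} [Fintype ι]
    (z : Fin m → Fin n → ι → K) (Q : MvPolynomial (Fin m × ι) K) (u : Fin m × Fin n → K) :
    sh u (MvPolynomial.bind₁ (G5L z) Q) =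
      MvPolynomial.bind₁ (G5L z) (sh (fun a => ∑ l, u (a.1, l) * z a.1 l a.2) Q) := by
  unfold sh
  rw [MvPolynomial.bind₁_bind₁, MvPolynomial.bind₁_bind₁]
  congr 2
  funext a
  rw [map_add, MvPolynomial.bind₁_X_right, MvPolynomial.bind₁_C_right]
  unfold G5L
  rw [map_sum, map_sum, ← sum_add_distrib]
  refine sum_congr rfl (fun l _ => ?_)
  rw [map_mul, map_mul, MvPolynomial.bind₁_C_right, MvPolynomial.bind₁_X_right]
  ring

theorem G5L_eval {K : Type*} [CommRing K] {m n : ℕ} {ι : Type*}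
    (z : Fin m → Fin n → ι → K) (Q : MvPolynomial (Fin m × ι) K) (u : Fin m × Fin n → K) :
    MvPolynomial.eval u (MvPolynomial.bind₁ (G5L z) Q) =
      MvPolynomial.eval (fun a => ∑ l, u (a.1, l) * z a.1 l a.2) Q := by
  have h1 : MvPolynomial.eval u (MvPolynomial.bind₁ (G5L z) Q) =
      MvPolynomial.eval (fun a => MvPolynomial.eval u (G5L z a)) Q :=
    MvPolynomial.eval₂Hom_bind₁ (RingHom.id K) u (G5L z) Q
  rw [h1]
  congr 2
  funext a
  unfold G5L
  rw [map_sum]
  refine sum_congr rfl (fun l _ => ?_)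
  rw [map_mul, MvPolynomial.eval_C, MvPolynomial.eval_X]
  ring

/-- G5'. Grid lemma on subspaces. -/
theorem grid_sub {K : Type*} [Field K] [NumberField K] {ι : Type*} [Fintype ι] [DecidableEq ι]
    {m n : ℕ} (P : MvPolynomial (Fin m × ι) K) (r : Fin m → ℕ) (hP : MHom r P)
    (z : Fin m → Fin n → ι → K) (q0 : Fin m × ι →₀ ℕ) (x : Fin m → Fin n → K)
    (hx : MvPolynomial.eval (fun a => ∑ l, x a.1 l * z a.1 l a.2) (dd q0 P) ≠ 0) (N : ℕ) :
    ∃ u : Fin m → Fin n → ℕ, (∀ h l, u h l ≤ N) ∧ ∃ q : Fin m × ι →₀ ℕ,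
      (∀ h, (N + 1) * ∑ i, q (h, i) ≤ (N + 1) * ∑ i, q0 (h, i) + n * r h) ∧
      MvPolynomial.eval (fun a => ∑ l, (u a.1 l : K) * z a.1 l a.2) (dd q P) ≠ 0 := by
  have hG : MvPolynomial.bind₁ (G5L z) (dd q0 P) ≠ 0 := by
    intro h0
    have h1 := G5L_eval z (dd q0 P) (fun a => x a.1 a.2)
    rw [h0, map_zero] at h1
    exact hx h1.symm
  have hdeg : ∀ a : Fin m × Fin n,
      (MvPolynomial.bind₁ (G5L z) (dd q0 P)).degreeOf a ≤ r a.1 := by
    intro a
    rw [MvPolynomial.degreeOf_le_iff]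
    intro e he
    rw [MvPolynomial.mem_support_iff] at he
    obtain ⟨d, hd, hsum⟩ := G5L_support z (dd q0 P) e he
    rw [G5_coeff_dd] at hd
    have h1 := hP (d + q0) (MvPolynomial.mem_support_iff.2 (left_ne_zero_of_mul hd)) a.1
    simp only [Finsupp.add_apply, sum_add_distrib] at h1
    have h2 : e a ≤ ∑ l, e (a.1, l) :=
      single_le_sum (f := fun l => e (a.1, l)) (fun l _ => Nat.zero_le _) (mem_univ a.2)
    rw [hsum a.1] at h2
    omega
  obtain ⟨u, a, hu, ha, hne⟩ := grid _ hG (fun b => r b.1) hdeg N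
  rw [← G5_coeff_sh, G5L_sh] at hne
  obtain ⟨d, hd, hsum⟩ := G5L_support z _ a hne
  rw [G5_coeff_sh, G5_dd_dd, map_mul] at hd
  refine ⟨fun h l => u (h, l), fun h l => hu (h, l), d + q0, fun h => ?_,
    right_ne_zero_of_mul hd⟩
  simp only [Finsupp.add_apply, sum_add_distrib]
  rw [← hsum h, mul_add, mul_sum]
  have h1 : ∑ l, (N + 1) * a (h, l) ≤ ∑ _l : Fin n, r h := sum_le_sum (fun l _ => ha (h, l))
  rw [sum_const, card_univ, Fintype.card_fin, smul_eq_mul] at h1
  omega

end Pool.Agent.V2
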