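import Pool.Agent.Helper21.V2.BB
import Pool.Agent.Helper21.V2.G3
import Pool.Agent.Helper21.V2.G4
import Pool.Agent.Helper21.V2.G5
import Pool.Agent.Helper21.V2.G1

/-!
# Block P2: the Roth machine
-/

namespace Pool.Agent.V2

open NumberField Finset
open Pool.Agent.Helper64.Vojta (Pl nv nv_nonneg nv_mul nv_one nv_zero nv_pos nv_sum_le nv_sum_le_inr mult_le_two)

namespace P2

variable {K : Type*} [Field K] [NumberField K] {ι : Type*} [Fintype ι] [DecidableEq ι]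

/-! ### elementary facts on places -/

theorem nv_inr_int (v : FinitePlace K) {x : K} (hx : IsIntegral ℤ x) : nv (.inr v) x ≤ 1 := by
  obtain ⟨w, ⟨P, hP⟩⟩ := v
  have h1 := FinitePlace.norm_le_one (K := K) P (⟨x, hx⟩ : 𝓞 K)
  change (w : AbsoluteValue K ℝ) x ≤ 1
  rw [← hP]
  exact h1

theorem nv_inr_nat (v : FinitePlace K) (u : ℕ) : nv (.inr v) (u : K) ≤ 1 :=
  nv_inr_int v (by
    have : IsIntegral ℤ (algebraMap ℤ K u) := isIntegral_algebraMap
    simpa using this)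

theorem nv_inl_nat_le (v : InfinitePlace K) (u N : ℕ) (h : u ≤ N) :
    nv (.inl v) (u : K) ≤ ((N : ℝ) + 1) ^ 2 := by
  have h1 : v (u : K) = u := by
    rw [← InfinitePlace.norm_embedding_eq, map_natCast]
    simp
  change v (u : K) ^ v.mult ≤ _
  rw [h1]
  have h2 : (u : ℝ) ≤ N := by exact_mod_cast h
  have h0 : (0 : ℝ) ≤ u := Nat.cast_nonneg _
  calc (u : ℝ) ^ v.mult ≤ ((N : ℝ) + 1) ^ v.mult := by
        apply pow_le_pow_left₀ h0; linarith
    _ ≤ ((N : ℝ) + 1) ^ 2 := pow_le_pow_right₀ (by linarith) (mult_le_two v)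

theorem nv_nat_le (v : Pl K) (u N : ℕ) (h : u ≤ N) : nv v (u : K) ≤ ((N : ℝ) + 1) ^ 2 := by
  rcases v with v | v
  · exact nv_inl_nat_le v u N h
  · refine (nv_inr_nat v u).trans ?_
    have h0 : (0 : ℝ) ≤ N := Nat.cast_nonneg _
    nlinarith

/-- the values of the forms at a combination with small natural coefficients -/
theorem comb_le {n : ℕ} (v : Pl K) (A : Matrix ι ι K) (u : Fin n → ℕ) (N : ℕ) (hu : ∀ l, u l ≤ N)
    (z : Fin n → ι → K) (b : ι → ℝ)
    (hz : ∀ l i, nv v (Matrix.mulVec A (z l) i) ≤ Real.exp (b i)) (i : ι) :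
    nv v (Matrix.mulVec A (fun i => ∑ l, (u l : K) * z l i) i) ≤
      (((n : ℝ) + 1) ^ 2 * ((N : ℝ) + 1) ^ 2) * Real.exp (b i) := by
  have h1 : Matrix.mulVec A (fun i => ∑ l, (u l : K) * z l i) i =
      ∑ l, (u l : K) * Matrix.mulVec A (z l) i := by
    simp only [Matrix.mulVec, dotProduct, Finset.mul_sum]
    rw [Finset.sum_comm]
    refine Finset.sum_congr rfl fun l _ => Finset.sum_congr rfl fun j _ => by ring
  rw [h1]
  have h2 := nv_sum_le v (Finset.univ : Finset (Fin n))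
    (fun l => (u l : K) * Matrix.mulVec A (z l) i) (((N : ℝ) + 1) ^ 2 * Real.exp (b i))
    (by positivity) (fun l _ => by
      rw [nv_mul]
      exact mul_le_mul (nv_nat_le v (u l) N (hu l)) (hz l i) (nv_nonneg _ _) (by positivity))
  rw [Finset.card_univ, Fintype.card_fin] at h2
  rw [mul_assoc]
  exact h2

theorem comb_le_fin {n : ℕ} (v : FinitePlace K) (A : Matrix ι ι K) (u : Fin n → ℕ)
    (z : Fin n → ι → K) (b : ι → ℝ)
    (hz : ∀ l i, nv (.inr v) (Matrix.mulVec A (z l) i) ≤ Real.exp (b i)) (i : ι) :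
    nv (.inr v) (Matrix.mulVec A (fun i => ∑ l, (u l : K) * z l i) i) ≤ Real.exp (b i) := by
  have h1 : Matrix.mulVec A (fun i => ∑ l, (u l : K) * z l i) i =
      ∑ l, (u l : K) * Matrix.mulVec A (z l) i := by
    simp only [Matrix.mulVec, dotProduct, Finset.mul_sum]
    rw [Finset.sum_comm]
    refine Finset.sum_congr rfl fun l _ => Finset.sum_congr rfl fun j _ => by ring
  rw [h1]
  apply nv_sum_le_inr v _ _ _ (Real.exp_pos _).le
  intro l _
  rw [nv_mul]
  calc nv (.inr v) (u l : K) * nv (.inr v) (Matrix.mulVec A (z l) i)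
      ≤ 1 * Real.exp (b i) :=
        mul_le_mul (nv_inr_nat v (u l)) (hz l i) (nv_nonneg _ _) (by norm_num)
    _ = Real.exp (b i) := one_mul _

/-! ### the exponent estimate -/

theorem E_bound {m n : ℕ} (hn : Fintype.card ι = n + 1) (r : Fin m → ℕ) (hr : ∀ h, 1 ≤ r h)
    (t : Fin m → ℝ) (T' ρ τ κ : ℝ) (hT0 : 0 ≤ T') (hρ : 0 ≤ ρ) (hρ1 : ρ ≤ 1) (hτ : 0 ≤ τ)
    (hT1 : ∀ h, (1 - ρ) * T' ≤ r h * t h) (hT2 : ∀ h, r h * t h ≤ T')
    (qs : Fin m → ℕ) (j' : Fin m → ι → ℕ) (hj : ∀ h, ∑ i, j' h i + qs h = r h)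
    (hg : ∀ i, m * (1 / (n + 1 : ℝ) - τ) ≤ ∑ h, (j' h i : ℝ) / r h)
    (cv : ι → ℝ) (hκ : 0 ≤ κ) :
    ∑ h, ∑ i, (j' h i : ℝ) * (t h * cv i + κ) ≤
      T' * m / (n + 1) * ∑ i, cv i + T' * m * ((n + 1) * τ + ρ) * ∑ i, |cv i| + κ * ∑ h, (r h : ℝ) := by
  have hrpos : ∀ h, (0 : ℝ) < r h := fun h => by exact_mod_cast hr h
  have hrow : ∀ h, ∑ i, (j' h i : ℝ) ≤ r h := by
    intro h
    have := hj h
    have h2 : ∑ i, j' h i ≤ r h := by omega
    exact_mod_cast h2
  set S : ι → ℝ := fun i => ∑ h, (j' h i : ℝ) / r h with hS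
  have hSsum : ∑ i, S i ≤ m := by
    rw [hS, Finset.sum_comm]
    calc ∑ h : Fin m, ∑ i, (j' h i : ℝ) / r h ≤ ∑ h : Fin m, (1 : ℝ) := by
          apply Finset.sum_le_sum
          intro h _
          rw [← Finset.sum_div, div_le_one (hrpos h)]
          exact hrow h
      _ = m := by simp
  have hS0 : ∀ i, 0 ≤ S i := fun i => Finset.sum_nonneg fun h _ => by positivity
  have hSm : ∀ i, S i ≤ m := fun i =>
    (Finset.single_le_sum (f := S) (fun i _ => hS0 i) (Finset.mem_univ i)).trans hSsum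
  have hSup : ∀ i, S i ≤ m * (1 / (n + 1 : ℝ)) + m * (n * τ) := by
    intro i
    have h1 : ∑ i' ∈ Finset.univ.erase i, S i' + S i = ∑ i, S i :=
      Finset.sum_erase_add _ _ (Finset.mem_univ i)
    have h2 : (n : ℝ) * (m * (1 / (n + 1 : ℝ) - τ)) ≤ ∑ i' ∈ Finset.univ.erase i, S i' := by
      calc (n : ℝ) * (m * (1 / (n + 1 : ℝ) - τ))
          = ∑ i' ∈ Finset.univ.erase i, (m * (1 / (n + 1 : ℝ) - τ)) := by
            rw [Finset.sum_const, nsmul_eq_mul, Finset.card_erase_of_mem (Finset.mem_univ i),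
              Finset.card_univ, hn]
            simp
        _ ≤ _ := Finset.sum_le_sum fun i' _ => hg i'
    have h3 : (n : ℝ) * (m * (1 / (n + 1 : ℝ))) = m - m * (1 / (n + 1 : ℝ)) := by
      have : (n : ℝ) + 1 ≠ 0 := by positivity
      field_simp
      ring
    have h4 : (n : ℝ) * (m * (1 / (n + 1 : ℝ) - τ)) = m - m * (1 / (n + 1 : ℝ)) - m * (n * τ) := by
      rw [← h3]; ring
    linarith
  set W : ι → ℝ := fun i => ∑ h, (j' h i : ℝ) * t h with hW
  have hWup : ∀ i, W i ≤ T' * S i := by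
    intro i
    rw [hW, hS, Finset.mul_sum]
    apply Finset.sum_le_sum
    intro h _
    have h1 : (j' h i : ℝ) * t h = (j' h i : ℝ) / r h * (r h * t h) := by
      have := (hrpos h).ne'
      field_simp
    rw [h1, mul_comm T']
    exact mul_le_mul_of_nonneg_left (hT2 h) (by positivity)
  have hWlo : ∀ i, (1 - ρ) * T' * S i ≤ W i := by
    intro i
    rw [hW, hS, Finset.mul_sum]
    apply Finset.sum_le_sum
    intro h _
    have h1 : (j' h i : ℝ) * t h = (j' h i : ℝ) / r h * (r h * t h) := by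
      have := (hrpos h).ne'
      field_simp
    rw [h1, mul_comm ((1 - ρ) * T')]
    exact mul_le_mul_of_nonneg_left (hT1 h) (by positivity)
  have hm0 : (0 : ℝ) ≤ m := Nat.cast_nonneg _
  have hn0 : (0 : ℝ) ≤ n := Nat.cast_nonneg _
  have hWabs : ∀ i, |W i - T' * m / (n + 1)| ≤ T' * m * ((n + 1) * τ + ρ) := by
    intro i
    have hmτ : 0 ≤ T' * m * τ := by positivity
    have hmnτ : 0 ≤ T' * m * (n * τ) := by positivity
    have hmρ : 0 ≤ T' * m * ρ := by positivity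
    have e1 : T' * (m * (1 / (n + 1 : ℝ))) = T' * m / (n + 1) := by ring
    rw [abs_le]
    constructor
    · have h1 := hWlo i
      have h2 := mul_le_mul_of_nonneg_left (hg i) hT0
      have h3 : ρ * T' * S i ≤ ρ * T' * m := mul_le_mul_of_nonneg_left (hSm i) (by positivity)
      have h4 : S i = ∑ h, (j' h i : ℝ) / r h := rfl
      rw [← h4] at h2
      nlinarith
    · have h1 := hWup i
      have h2 := mul_le_mul_of_nonneg_left (hSup i) hT0
      nlinarith
  have hsplit : ∑ h, ∑ i, (j' h i : ℝ) * (t h * cv i + κ) =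
      ∑ i, cv i * W i + κ * ∑ h, ∑ i, (j' h i : ℝ) := by
    have h1 : ∀ h, ∑ i, (j' h i : ℝ) * (t h * cv i + κ) =
        ∑ i, cv i * ((j' h i : ℝ) * t h) + κ * ∑ i, (j' h i : ℝ) := by
      intro h
      rw [Finset.mul_sum, ← Finset.sum_add_distrib]
      exact Finset.sum_congr rfl fun i _ => by ring
    rw [Finset.sum_congr rfl fun h _ => h1 h, Finset.sum_add_distrib, Finset.sum_comm,
      ← Finset.mul_sum]
    congr 1
    refine Finset.sum_congr rfl fun i _ => ?_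
    rw [hW, Finset.mul_sum]
  rw [hsplit]
  have hA : ∑ i, cv i * W i ≤
      T' * m / (n + 1) * ∑ i, cv i + T' * m * ((n + 1) * τ + ρ) * ∑ i, |cv i| := by
    rw [Finset.mul_sum, Finset.mul_sum, ← Finset.sum_add_distrib]
    apply Finset.sum_le_sum
    intro i _
    have h1 : cv i * W i = T' * m / (n + 1) * cv i + cv i * (W i - T' * m / (n + 1)) := by ring
    rw [h1]
    have h2 : cv i * (W i - T' * m / (n + 1)) ≤ |cv i| * (T' * m * ((n + 1) * τ + ρ)) :=
      (le_abs_self _).trans (by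
        rw [abs_mul]; exact mul_le_mul_of_nonneg_left (hWabs i) (abs_nonneg _))
    linarith
  have hB : κ * ∑ h, ∑ i, (j' h i : ℝ) ≤ κ * ∑ h, (r h : ℝ) :=
    mul_le_mul_of_nonneg_left (Finset.sum_le_sum fun h _ => hrow h) hκ
  linarith

/-! ### rapidly decreasing parameters -/

theorem exists_params {α : Type*} (p : ℝ → α → Prop) (hp : ∀ T0 : ℝ, ∃ t, T0 ≤ t ∧ ∃ a, p t a) (m : ℕ)
    (σ tmin : ℝ) (hσ : 0 < σ) (htmin : 0 < tmin) :
    ∃ (t : Fin m → ℝ) (a : Fin m → α), (∀ h, tmin ≤ t h) ∧ (∀ h, p (t h) (a h)) ∧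
      ∀ h h' : Fin m, h < h' → 2 * t h' ≤ σ * t h := by
  choose f hf a ha using hp
  let s : ℕ → ℝ := fun k => Nat.rec (f tmin) (fun _ x => f (max x (2 / σ * x))) k
  have hs0 : s 0 = f tmin := rfl
  have hss : ∀ k, s (k + 1) = f (max (s k) (2 / σ * s k)) := fun k => rfl
  have hmono : Monotone s := by
    apply monotone_nat_of_le_succ
    intro k
    rw [hss]
    exact (le_max_left _ _).trans (hf _)
  have hstep : ∀ k, 2 * s k ≤ σ * s (k + 1) := by
    intro k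
    have h1 : 2 / σ * s k ≤ s (k + 1) := by
      rw [hss]
      exact (le_max_right _ _).trans (hf _)
    have h2 := mul_le_mul_of_nonneg_left h1 hσ.le
    have h3 : σ * (2 / σ * s k) = 2 * s k := by
      field_simp
    linarith
  have hge : ∀ k, tmin ≤ s k := fun k => (hf tmin).trans (hmono (Nat.zero_le k))
  have hex : ∀ k, ∃ b, p (s k) b := by
    intro k
    cases k with
    | zero => exact ⟨_, ha _⟩
    | succ k => rw [hss]; exact ⟨_, ha _⟩
  choose b hb using hex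
  refine ⟨fun h => s (m - 1 - h), fun h => b (m - 1 - h), fun h => hge _, fun h => hb _, ?_⟩
  intro h h' hh
  have h1 : (m - 1 - (h' : ℕ)) + 1 ≤ m - 1 - h := by
    have := h'.2
    have : (h : ℕ) < h' := hh
    omega
  have h2 := hmono h1
  have h3 := hstep (m - 1 - h')
  have h4 := mul_le_mul_of_nonneg_left h2 hσ.le
  linarith

/-! ### sums over all places against sums over a finite set of places -/

theorem gsum_le_T (S : Finset (FinitePlace K)) (f g : Pl K → ℝ) (hf : FinS f)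
    (h0 : ∀ v, v ∉ S → f (.inr v) ≤ 0) (h1 : ∀ v : InfinitePlace K, f (.inl v) ≤ g (.inl v))
    (h2 : ∀ v ∈ S, f (.inr v) ≤ g (.inr v)) :
    gsum f ≤ ∑ v : InfinitePlace K, g (.inl v) + ∑ v ∈ S, g (.inr v) := by
  classical
  have e1 : ∑ᶠ v : FinitePlace K, f (.inr v) = ∑ v ∈ hf.toFinset ∪ S, f (.inr v) := by
    apply finsum_eq_sum_of_support_subset
    intro v hv
    rw [Finset.coe_union, Set.Finite.coe_toFinset]
    exact Or.inl hv
  unfold gsum
  rw [e1, ← Finset.sum_sdiff (Finset.subset_union_right (s₁ := hf.toFinset) (s₂ := S))]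
  have h3 : ∑ v ∈ (hf.toFinset ∪ S) \ S, f (.inr v) ≤ 0 :=
    Finset.sum_nonpos fun v hv => h0 v (Finset.mem_sdiff.mp hv).2
  have h4 := Finset.sum_le_sum (s := S) h2
  have h5 := Finset.sum_le_sum (s := (Finset.univ : Finset (InfinitePlace K))) fun v _ => h1 v
  linarith

theorem gsum_eq_T (S : Finset (FinitePlace K)) (f : Pl K → ℝ) (h0 : ∀ v, v ∉ S → f (.inr v) = 0) :
    gsum f = ∑ v : InfinitePlace K, f (.inl v) + ∑ v ∈ S, f (.inr v) := by
  unfold gsum
  congr 1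
  apply finsum_eq_sum_of_support_subset
  intro v hv
  by_contra h
  exact hv (h0 v h)

/-! ### vectors in the kernel -/

theorem exists_coords {n : ℕ} (hn : Fintype.card ι = n + 1) {M : ι → K} (hM : M ≠ 0)
    {z : Fin n → ι → K} (hz : LinearIndependent K z) (hMz : ∀ l, ∑ i, M i * z l i = 0)
    {x : ι → K} (hx : ∑ i, M i * x i = 0) : ∃ ξ : Fin n → K, ∀ i, x i = ∑ l, ξ l * z l i := by
  let φ : (ι → K) →ₗ[K] K :=
    { toFun := fun x => ∑ i, M i * x i
      map_add' := by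
        intro x y
        simp only [Pi.add_apply, mul_add, Finset.sum_add_distrib]
      map_smul' := by
        intro a x
        simp only [Pi.smul_apply, smul_eq_mul, RingHom.id_apply, Finset.mul_sum]
        exact Finset.sum_congr rfl fun i _ => by ring }
  have hφ : ∀ x, φ x = ∑ i, M i * x i := fun x => rfl
  obtain ⟨k, hk⟩ := Function.ne_iff.mp hM
  have hk' : M k ≠ 0 := hk
  have hsurj : Function.Surjective φ := by
    intro a
    refine ⟨Pi.single k (a / M k), ?_⟩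
    rw [hφ, Finset.sum_eq_single k]
    · rw [Pi.single_eq_same]; field_simp
    · intro j _ hj
      rw [Pi.single_eq_of_ne hj, mul_zero]
    · intro h; exact absurd (Finset.mem_univ k) h
  have hrange : Module.finrank K (LinearMap.range φ) = 1 := by
    rw [LinearMap.range_eq_top.mpr hsurj, finrank_top, Module.finrank_self]
  have hrn := LinearMap.finrank_range_add_finrank_ker φ
  rw [hrange, Module.finrank_fintype_fun_eq_card, hn] at hrn
  have hker : Module.finrank K (LinearMap.ker φ) = n := by omega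
  have hle : Submodule.span K (Set.range z) ≤ LinearMap.ker φ := by
    rw [Submodule.span_le]
    rintro _ ⟨l, rfl⟩
    exact LinearMap.mem_ker.mpr (hMz l)
  have hspan : Module.finrank K (Submodule.span K (Set.range z)) = n := by
    rw [finrank_span_eq_card hz, Fintype.card_fin]
  have heq : Submodule.span K (Set.range z) = LinearMap.ker φ :=
    Submodule.eq_of_le_of_finrank_eq hle (by rw [hspan, hker])
  have hxs : x ∈ Submodule.span K (Set.range z) := by
    rw [heq]; exact LinearMap.mem_ker.mpr hx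
  obtain ⟨ξ, hξ⟩ := (Submodule.mem_span_range_iff_exists_fun K).mp hxs
  refine ⟨ξ, fun i => ?_⟩
  rw [← hξ, Finset.sum_apply]
  exact Finset.sum_congr rfl fun l _ => by rw [Pi.smul_apply, smul_eq_mul]

/-! ### the local estimate -/

theorem local_T {m n : ℕ} (hn : Fintype.card ι = n + 1) (v : Pl K) (A : Matrix ι ι K) (Ce : ℝ)
    (hCe1 : 1 ≤ Ce)
    (hCe : ∀ (m : ℕ) (r : Fin m → ℕ), (∀ h, 1 ≤ r h) →
      ∀ P : MvPolynomial (Fin m × ι) K, MHom r P → ∀ B : ℝ, (∀ d, nv v (P.coeff d) ≤ B) →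
      ∀ g : ℝ, (∀ j ∈ (lin A⁻¹ P).support, ∀ i, g ≤ ∑ h, (j (h, i) : ℝ) / r h) →
      ∀ (q : Fin m × ι →₀ ℕ) (y : Fin m → ι → K) (β : Fin m → ι → ℝ),
      (∀ h i, nv v (Matrix.mulVec A (y h) i) ≤ Real.exp (β h i)) → ∀ E : ℝ,
      (∀ j' : Fin m → ι → ℕ, (∀ h, ∑ i, j' h i + ∑ i, q (h, i) = r h) →
        (∀ i, g - ∑ h, (∑ i, (q (h, i) : ℝ)) / r h ≤ ∑ h, (j' h i : ℝ) / r h) →
        ∑ h, ∑ i, j' h i * β h i ≤ E) →
      nv v (MvPolynomial.eval (fun a => y a.1 a.2) (dd q P)) ≤ B * Ce ^ (∑ h, r h) * Real.exp E)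
    (r : Fin m → ℕ) (hr : ∀ h, 1 ≤ r h)
    (t : Fin m → ℝ) (T' ρ τ κ : ℝ) (hT0 : 0 ≤ T') (hρ : 0 ≤ ρ) (hρ1 : ρ ≤ 1) (hτ : 0 ≤ τ)
    (hT1 : ∀ h, (1 - ρ) * T' ≤ r h * t h) (hT2 : ∀ h, r h * t h ≤ T') (hκ : 0 ≤ κ)
    (P : MvPolynomial (Fin m × ι) K) (hMH : MHom r P) (C : ℝ) (hC : 1 ≤ C)
    (hcoef : ∀ d, nv v (P.coeff d) ≤ (C ^ (∑ h, r h)) ^ 2)
    (hsupp : ∀ j ∈ (lin A⁻¹ P).support, ∀ i,
      m * (1 / Fintype.card ι - τ / 3) ≤ ∑ h, (j (h, i) : ℝ) / r h)
    (q : Fin m × ι →₀ ℕ) (hq : ∑ h, (∑ i, (q (h, i) : ℝ)) / r h ≤ 2 * (τ * m) / 3)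
    (y : Fin m → ι → K) (cv : ι → ℝ)
    (hy : ∀ h i, nv v (Matrix.mulVec A (y h) i) ≤ Real.exp (t h * cv i + κ))
    (hne : MvPolynomial.eval (fun a => y a.1 a.2) (dd q P) ≠ 0) :
    Real.log (nv v (MvPolynomial.eval (fun a => y a.1 a.2) (dd q P))) ≤
      (∑ h, (r h : ℝ)) * (2 * Real.log C + Real.log Ce + κ) + T' * m / (n + 1) * ∑ i, cv i +
        T' * m * ((n + 1) * τ + ρ) * ∑ i, |cv i| := by
  have h1 := hCe m r hr P hMH _ hcoef _ hsupp q y (fun h i => t h * cv i + κ) hy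
    (T' * m / (n + 1) * ∑ i, cv i + T' * m * ((n + 1) * τ + ρ) * ∑ i, |cv i| + κ * ∑ h, (r h : ℝ))
    (by
      intro j' hj' hg
      refine E_bound hn r hr t T' ρ τ κ hT0 hρ hρ1 hτ hT1 hT2 (fun h => ∑ i, q (h, i)) j' hj' ?_ cv hκ
      intro i
      refine le_trans ?_ (hg i)
      rw [hn]
      push_cast
      have : (m : ℝ) * (1 / (n + 1 : ℝ) - τ) = m * (1 / (n + 1 : ℝ) - τ / 3) - 2 * (τ * m) / 3 := by
        ring
      rw [this]
      linarith)
  have hpos : 0 < nv v (MvPolynomial.eval (fun a => y a.1 a.2) (dd q P)) := nv_pos v hne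
  have h2 := Real.log_le_log hpos h1
  have hC0 : 0 < C := by linarith
  have hCe0 : 0 < Ce := by linarith
  rw [Real.log_mul (by positivity) (Real.exp_pos _).ne', Real.log_mul (by positivity) (by positivity),
    Real.log_exp, Real.log_pow, Real.log_pow, Real.log_pow] at h2
  push_cast at h2
  linarith

/-- the product formula for the value of the auxiliary polynomial -/
theorem global {m n : ℕ} (hn : Fintype.card ι = n + 1) (F : Frm K ι) (c : Pl K → ι → ℝ)
    (hc : ExpS F.S c) (Ce : Pl K → ℝ)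
    (hCe1 : ∀ v, 1 ≤ Ce v)
    (hCe : ∀ v, ∀ (m : ℕ) (r : Fin m → ℕ), (∀ h, 1 ≤ r h) →
      ∀ P : MvPolynomial (Fin m × ι) K, MHom r P → ∀ B : ℝ, (∀ d, nv v (P.coeff d) ≤ B) →
      ∀ g : ℝ, (∀ j ∈ (lin (F.L v)⁻¹ P).support, ∀ i, g ≤ ∑ h, (j (h, i) : ℝ) / r h) →
      ∀ (q : Fin m × ι →₀ ℕ) (y : Fin m → ι → K) (β : Fin m → ι → ℝ),
      (∀ h i, nv v (Matrix.mulVec (F.L v) (y h) i) ≤ Real.exp (β h i)) → ∀ E : ℝ,
      (∀ j' : Fin m → ι → ℕ, (∀ h, ∑ i, j' h i + ∑ i, q (h, i) = r h) →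
        (∀ i, g - ∑ h, (∑ i, (q (h, i) : ℝ)) / r h ≤ ∑ h, (j' h i : ℝ) / r h) →
        ∑ h, ∑ i, j' h i * β h i ≤ E) →
      nv v (MvPolynomial.eval (fun a => y a.1 a.2) (dd q P)) ≤ B * Ce v ^ (∑ h, r h) * Real.exp E)
    (N : ℕ) (r : Fin m → ℕ) (hr : ∀ h, 1 ≤ r h)
    (t : Fin m → ℝ) (T' ρ τ : ℝ) (hT0 : 0 ≤ T') (hρ : 0 ≤ ρ) (hρ1 : ρ ≤ 1) (hτ : 0 ≤ τ)
    (hT1 : ∀ h, (1 - ρ) * T' ≤ r h * t h) (hT2 : ∀ h, r h * t h ≤ T')
    (P : MvPolynomial (Fin m × ι) K) (hMH : MHom r P) (C : ℝ) (hC : 1 ≤ C)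
    (hint : ∀ d, IsIntegral ℤ (P.coeff d))
    (hinf : ∀ (v : InfinitePlace K) d, v (P.coeff d) ≤ C ^ (∑ h, r h))
    (hsupp : ∀ v : InfinitePlace K, ∀ j ∈ (lin (F.L (.inl v))⁻¹ P).support, ∀ i,
      m * (1 / Fintype.card ι - τ / 3) ≤ ∑ h, (j (h, i) : ℝ) / r h)
    (hsupp' : ∀ v ∈ F.S, ∀ j ∈ (lin (F.L (.inr v))⁻¹ P).support, ∀ i,
      m * (1 / Fintype.card ι - τ / 3) ≤ ∑ h, (j (h, i) : ℝ) / r h)
    (q : Fin m × ι →₀ ℕ) (hq : ∑ h, (∑ i, (q (h, i) : ℝ)) / r h ≤ 2 * (τ * m) / 3)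
    (u : Fin m → Fin n → ℕ) (hu : ∀ h l, u h l ≤ N) (z : Fin m → Fin n → ι → K)
    (hz : ∀ h l, Bb F (sc (t h) c) (z h l))
    (hne : MvPolynomial.eval (fun a => ∑ l, (u a.1 l : K) * z a.1 l a.2) (dd q P) ≠ 0) :
    0 ≤ (∑ h, (r h : ℝ)) * (∑ v : InfinitePlace K,
        (2 * Real.log C + Real.log (Ce (.inl v)) +
          Real.log (((n : ℝ) + 1) ^ 2 * ((N : ℝ) + 1) ^ 2)) +
        ∑ v ∈ F.S, (2 * Real.log C + Real.log (Ce (.inr v)) +
          Real.log (((n : ℝ) + 1) ^ 2 * ((N : ℝ) + 1) ^ 2))) +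
      T' * m / (n + 1) * deg c +
      T' * m * ((n + 1) * τ + ρ) * (∑ v : InfinitePlace K, ∑ i, |c (.inl v) i| +
        ∑ v ∈ F.S, ∑ i, |c (.inr v) i|) := by
  set κ : ℝ := Real.log (((n : ℝ) + 1) ^ 2 * ((N : ℝ) + 1) ^ 2) with hκd
  have hn0 : (0 : ℝ) ≤ n := Nat.cast_nonneg _
  have hN0 : (0 : ℝ) ≤ N := Nat.cast_nonneg _
  have hκe : Real.exp κ = ((n : ℝ) + 1) ^ 2 * ((N : ℝ) + 1) ^ 2 := by
    rw [hκd, Real.exp_log (by positivity)]
  have hκ0 : 0 ≤ κ := by
    apply Real.log_nonneg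
    have h1 : (1 : ℝ) ≤ ((n : ℝ) + 1) ^ 2 := by nlinarith
    have h2 : (1 : ℝ) ≤ ((N : ℝ) + 1) ^ 2 := by nlinarith
    nlinarith
  set y : Fin m → ι → K := fun h i => ∑ l, (u h l : K) * z h l i with hy
  have hval : MvPolynomial.eval (fun a : Fin m × ι => ∑ l, (u a.1 l : K) * z a.1 l a.2) (dd q P) =
      MvPolynomial.eval (fun a => y a.1 a.2) (dd q P) := rfl
  rw [hval] at hne
  set y0 : K := MvPolynomial.eval (fun a => y a.1 a.2) (dd q P) with hy0
  have hyb : ∀ v h i, nv v (Matrix.mulVec (F.L v) (y h) i) ≤ Real.exp (t h * c v i + κ) := by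
    intro v h i
    have h1 := comb_le v (F.L v) (u h) N (hu h) (z h) (fun i => t h * c v i)
      (fun l i => hz h l v i) i
    rw [Real.exp_add, hκe, mul_comm (Real.exp _)]
    exact h1
  have hcoef : ∀ (v : Pl K) d, nv v (P.coeff d) ≤ (C ^ (∑ h, r h)) ^ 2 := by
    have hC1 : 1 ≤ C ^ (∑ h, r h) := one_le_pow₀ hC
    intro v d
    rcases v with v | v
    · change v (P.coeff d) ^ v.mult ≤ _
      calc v (P.coeff d) ^ v.mult ≤ (C ^ (∑ h, r h)) ^ v.mult :=
            pow_le_pow_left₀ (apply_nonneg v _) (hinf v d) _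
        _ ≤ (C ^ (∑ h, r h)) ^ 2 := pow_le_pow_right₀ hC1 (mult_le_two v)
    · refine (nv_inr_int v (hint d)).trans ?_
      nlinarith
  have hprod : gsum (fun v => Real.log (nv v y0)) = 0 := gsum_nv hne
  have hbound := gsum_le_T F.S (fun v => Real.log (nv v y0))
    (fun v => (∑ h, (r h : ℝ)) * (2 * Real.log C + Real.log (Ce v) + κ) +
      T' * m / (n + 1) * ∑ i, c v i + T' * m * ((n + 1) * τ + ρ) * ∑ i, |c v i|) (finS_nv hne)
    (by
      intro v hv
      apply Real.log_nonpos (nv_nonneg _ _)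
      apply eval_le_one v P (fun d => nv_inr_int v (hint d)) q (fun a => y a.1 a.2)
      intro a
      have h1 := comb_le_fin v (F.L (.inr v)) (u a.1) (z a.1) (fun i => t a.1 * c (.inr v) i)
        (fun l i => hz a.1 l (.inr v) i) a.2
      rw [F.hS v hv, Matrix.one_mulVec, hc v hv] at h1
      simpa using h1)
    (fun v => local_T hn (.inl v) (F.L (.inl v)) (Ce (.inl v)) (hCe1 _) (hCe _) r hr t T' ρ τ κ hT0
      hρ hρ1 hτ hT1 hT2 hκ0 P hMH C hC (hcoef _) (hsupp v) q hq y (c (.inl v)) (hyb _) hne)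
    (fun v hv => local_T hn (.inr v) (F.L (.inr v)) (Ce (.inr v)) (hCe1 _) (hCe _) r hr t T' ρ τ κ
      hT0 hρ hρ1 hτ hT1 hT2 hκ0 P hMH C hC (hcoef _) (hsupp' v hv) q hq y (c (.inr v)) (hyb _) hne)
  rw [hprod] at hbound
  have hdeg : deg c = ∑ v : InfinitePlace K, ∑ i, c (.inl v) i + ∑ v ∈ F.S, ∑ i, c (.inr v) i := by
    apply gsum_eq_T
    intro v hv
    rw [hc v hv]
    simp
  rw [hdeg]
  refine hbound.trans (le_of_eq ?_)
  simp only [Finset.sum_add_distrib, ← Finset.mul_sum]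
  ring

end P2

open P2 in
/-- P2. The Roth machine. -/
theorem roth_machine {K : Type*} [Field K] [NumberField K] {ι : Type*} [Fintype ι] [DecidableEq ι]
    {n : ℕ} (hn : Fintype.card ι = n + 1) (F : Frm K ι) (c : Pl K → ι → ℝ)
    (hc : ExpS F.S c) (hd : deg c < 0) (η : ℝ) (hη : 0 < η) :
    ∃ T0 : ℝ, ∀ t, T0 ≤ t → ∀ M : ι → K, M ≠ 0 →
      ∀ z : Fin n → ι → K, LinearIndependent K z → (∀ l, Bb F (sc t c) (z l)) →
      (∀ l, ∑ i, M i * z l i = 0) → vH M < η * t := by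
  by_contra hcon
  push Not at hcon
  have hp : ∀ T0 : ℝ, ∃ t, T0 ≤ t ∧ ∃ a : (ι → K) × (Fin n → ι → K),
      (a.1 ≠ 0 ∧ LinearIndependent K a.2 ∧ (∀ l, Bb F (sc t c) (a.2 l)) ∧
        (∀ l, ∑ i, a.1 i * a.2 l i = 0) ∧ η * t ≤ vH a.1) := by
    intro T0
    obtain ⟨t, h1, M, h2, z, h3, h4, h5, h6⟩ := hcon T0
    exact ⟨t, h1, (M, z), h2, h3, h4, h5, h6⟩
  clear hcon
  have hn0 : (0 : ℝ) ≤ n := Nat.cast_nonneg _
  haveI : Nonempty ι := Fintype.card_pos_iff.mp (by omega)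
  -- constants
  set D : ℝ := -deg c with hD
  have hD0 : 0 < D := by linarith
  set cs : ℝ := ∑ v : InfinitePlace K, ∑ i, |c (.inl v) i| + ∑ v ∈ F.S, ∑ i, |c (.inr v) i| with hcs
  have hcs0 : 0 ≤ cs := by
    apply add_nonneg
    · exact Finset.sum_nonneg fun v _ => Finset.sum_nonneg fun i _ => abs_nonneg _
    · exact Finset.sum_nonneg fun v _ => Finset.sum_nonneg fun i _ => abs_nonneg _
  set τ : ℝ := D / (4 * ((n : ℝ) + 1) ^ 2 * (cs + 1)) with hτd
  have hτ : 0 < τ := by positivity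
  have hτ1 : ((n : ℝ) + 1) * τ * cs ≤ D / (4 * (n + 1)) := by
    rw [hτd]
    have h1 : ((n : ℝ) + 1) * (D / (4 * ((n : ℝ) + 1) ^ 2 * (cs + 1))) * cs =
        D / (4 * (n + 1)) * (cs / (cs + 1)) := by
      field_simp
    rw [h1]
    have h2 : cs / (cs + 1) ≤ 1 := by rw [div_le_one (by linarith)]; linarith
    calc D / (4 * (n + 1)) * (cs / (cs + 1)) ≤ D / (4 * (n + 1)) * 1 :=
          mul_le_mul_of_nonneg_left h2 (by positivity)
      _ = _ := mul_one _
  set ρ : ℝ := min (1 / 2) (D / (4 * ((n : ℝ) + 1) * (cs + 1))) with hρd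
  have hρ : 0 < ρ := by
    rw [hρd]; apply lt_min (by norm_num); positivity
  have hρ2 : ρ ≤ 1 / 2 := min_le_left _ _
  have hρ1 : ρ * cs ≤ D / (4 * (n + 1)) := by
    have h1 : ρ ≤ D / (4 * ((n : ℝ) + 1) * (cs + 1)) := min_le_right _ _
    calc ρ * cs ≤ D / (4 * ((n : ℝ) + 1) * (cs + 1)) * cs := mul_le_mul_of_nonneg_right h1 hcs0
      _ = D / (4 * (n + 1)) * (cs / (cs + 1)) := by field_simp
      _ ≤ D / (4 * (n + 1)) * 1 := by
          apply mul_le_mul_of_nonneg_left _ (by positivity)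
          rw [div_le_one (by linarith)]; linarith
      _ = _ := mul_one _
  -- the auxiliary polynomials
  let A : InfinitePlace K ⊕ {v // v ∈ F.S} → Matrix ι ι K := fun a =>
    match a with
    | .inl v => F.L (.inl v)
    | .inr v => F.L (.inr v.1)
  have hA : ∀ a, (A a).det ≠ 0 := by
    intro a
    rcases a with v | v
    · exact F.hL _
    · exact F.hL _
  obtain ⟨m, hm1, hm⟩ := aux_poly A hA (τ / 3) (by positivity)
  obtain ⟨C, hC, haux⟩ := hm m le_rfl
  have hm0 : (0 : ℝ) < m := by exact_mod_cast hm1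
  have hlogC : 0 ≤ Real.log C := Real.log_nonneg hC
  obtain ⟨σ, hσ, Ag, hAg, hgr⟩ := gen_roth K ι m (τ * m / 3) (by positivity)
  obtain ⟨N, hN⟩ := exists_nat_gt (3 * (n : ℝ) / τ)
  have hN1 : (n : ℝ) / (N + 1) ≤ τ / 3 := by
    rw [div_lt_iff₀ hτ] at hN
    rw [div_le_iff₀ (by positivity)]
    nlinarith
  choose Ce hCe1 hCe using fun v => eval_bound v (F.L v) (F.hL v)
  set κ : ℝ := Real.log (((n : ℝ) + 1) ^ 2 * ((N : ℝ) + 1) ^ 2) with hκd
  set C' : ℝ := ∑ v : InfinitePlace K, (2 * Real.log C + Real.log (Ce (.inl v)) + κ) +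
        ∑ v ∈ F.S, (2 * Real.log C + Real.log (Ce (.inr v)) + κ) with hC'
  have hN0 : (0 : ℝ) ≤ N := Nat.cast_nonneg _
  have hκ0 : 0 ≤ κ := by
    apply Real.log_nonneg
    have h1 : (1 : ℝ) ≤ ((n : ℝ) + 1) ^ 2 := by nlinarith
    have h2 : (1 : ℝ) ≤ ((N : ℝ) + 1) ^ 2 := by nlinarith
    nlinarith
  have hC'0 : 0 ≤ C' := by
    have : ∀ v, 0 ≤ 2 * Real.log C + Real.log (Ce v) + κ := by
      intro v
      have := Real.log_nonneg (hCe1 v)
      positivity
    exact add_nonneg (Finset.sum_nonneg fun v _ => this _) (Finset.sum_nonneg fun v _ => this _)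
  set d : ℝ := (Module.finrank ℚ K : ℝ) with hdd
  have hd0 : 0 ≤ d := Nat.cast_nonneg _
  -- the parameters `t h`
  set tmin : ℝ := max 1 (max (2 * Ag * m * (d * Real.log C + 1) / η) (4 * (n + 1) * C' / D))
    with htmin
  have htm1 : 1 ≤ tmin := le_max_left _ _
  have htm0 : 0 < tmin := by linarith
  have htm2 : 2 * Ag * m * (d * Real.log C + 1) / η ≤ tmin :=
    (le_max_left _ _).trans (le_max_right _ _)
  have htm3 : 4 * (n + 1) * C' / D ≤ tmin := (le_max_right _ _).trans (le_max_right _ _)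
  obtain ⟨t, a, ht1, ha, ht2⟩ := exists_params _ hp m σ tmin hσ htm0
  have ht0 : ∀ h, 0 < t h := fun h => htm0.trans_le (ht1 h)
  -- the big parameter
  set T' : ℝ := 1 + ∑ h, t h / ρ with hT'
  have hTh : ∀ h, t h / ρ ≤ T' := by
    intro h
    have h1 : t h / ρ ≤ ∑ h, t h / ρ :=
      Finset.single_le_sum (f := fun h => t h / ρ) (fun h _ => by have := ht0 h; positivity)
        (Finset.mem_univ h)
    linarith
  have hT'0 : 0 < T' := by
    have : 0 ≤ ∑ h, t h / ρ := Finset.sum_nonneg fun h _ => by have := ht0 h; positivity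
    linarith
  have hTh' : ∀ h, t h ≤ ρ * T' := by
    intro h
    have := hTh h
    rw [div_le_iff₀ hρ] at this
    linarith
  let r : Fin m → ℕ := fun h => ⌊T' / t h⌋₊
  have hr_le : ∀ h, (r h : ℝ) ≤ T' / t h := fun h =>
    Nat.floor_le (div_nonneg hT'0.le (ht0 h).le)
  have hT2 : ∀ h, r h * t h ≤ T' := by
    intro h
    have := hr_le h
    rwa [le_div_iff₀ (ht0 h)] at this
  have hT1 : ∀ h, (1 - ρ) * T' ≤ r h * t h := by
    intro h
    have h1 : T' / t h < r h + 1 := Nat.lt_floor_add_one _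
    rw [div_lt_iff₀ (ht0 h)] at h1
    have h2 := hTh' h
    nlinarith
  have hr : ∀ h, 1 ≤ r h := by
    intro h
    apply Nat.le_floor
    rw [Nat.cast_one, le_div_iff₀ (ht0 h), one_mul]
    have := hTh' h
    nlinarith
  have hrpos : ∀ h, (0 : ℝ) < r h := fun h => by exact_mod_cast hr h
  have hhalf : ∀ h, T' / 2 ≤ r h * t h := by
    intro h
    have := hT1 h
    nlinarith
  have hratio : ∀ h h' : Fin m, h < h' → (r h : ℝ) ≤ σ * r h' := by
    intro h h' hh
    have h1 := ht2 h h' hh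
    have h2 := hr_le h
    have h3 := hhalf h'
    rw [le_div_iff₀ (ht0 h)] at h2
    -- r h * t h ≤ T' ≤ 2 r h' t h' ≤ σ t h r h'
    have h4 : (r h : ℝ) * t h ≤ (σ * r h') * t h := by
      have h5 : (r h' : ℝ) * (2 * t h') ≤ r h' * (σ * t h) :=
        mul_le_mul_of_nonneg_left h1 (hrpos h').le
      linarith
    exact le_of_mul_le_mul_right h4 (ht0 h)
  set R : ℝ := ∑ h, (r h : ℝ) with hR
  have hR0 : 0 ≤ R := Finset.sum_nonneg fun h _ => (hrpos h).le
  have hRle : R * tmin ≤ m * T' := by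
    rw [hR, Finset.sum_mul]
    calc ∑ h, (r h : ℝ) * tmin ≤ ∑ h : Fin m, T' := by
          apply Finset.sum_le_sum
          intro h _
          exact (mul_le_mul_of_nonneg_left (ht1 h) (hrpos h).le).trans (hT2 h)
      _ = m * T' := by rw [Finset.sum_const, Finset.card_univ, Fintype.card_fin, nsmul_eq_mul]
  obtain ⟨P, hP, hMH, hint, hinf, hsupp⟩ := haux r hr
  -- the height of `P`
  have hpH : pH P ≤ d * (R * Real.log C) := by
    apply gsum_le (finS_pn hP)
    · intro v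
      have h1 : pn (.inl v) P ≤ (C ^ (∑ h, r h)) ^ v.mult := by
        apply pn_le _ _ (by positivity)
        intro e
        exact pow_le_pow_left₀ (apply_nonneg v _) (hinf v e) _
      have h2 := Real.log_le_log (pn_pos _ hP) h1
      rw [Real.log_pow, Real.log_pow] at h2
      push_cast at h2
      exact h2
    · intro v
      apply Real.log_nonpos (pn_pos _ hP).le
      exact pn_le _ _ zero_le_one fun e => nv_inr_int v (hint e)
  -- the generalised Roth lemma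
  have hcond : ∀ h, Ag * (pH P + ∑ h, (r h : ℝ)) ≤ r h * vH ((fun h => (a h).1) h) := by
    intro h
    have h1 : (r h : ℝ) * (η * t h) ≤ r h * vH (a h).1 :=
      mul_le_mul_of_nonneg_left (ha h).2.2.2.2 (hrpos h).le
    have h2 : η * (T' / 2) ≤ r h * (η * t h) := by
      have := mul_le_mul_of_nonneg_left (hhalf h) hη.le
      linarith
    have h3 : Ag * (pH P + R) ≤ Ag * ((d * Real.log C + 1) * R) := by
      apply mul_le_mul_of_nonneg_left _ hAg.le
      linarith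
    have h4 : Ag * ((d * Real.log C + 1) * R) ≤ η * (T' / 2) := by
      rw [div_le_iff₀ hη] at htm2
      have h5 : 0 ≤ d * Real.log C + 1 := by positivity
      -- Ag (..) R tmin ≤ Ag (..) m T' ≤ tmin η T'/2
      have h6 : (Ag * ((d * Real.log C + 1) * R)) * tmin ≤ (η * (T' / 2)) * tmin := by
        have h7 : Ag * (d * Real.log C + 1) * (R * tmin) ≤ Ag * (d * Real.log C + 1) * (m * T') :=
          mul_le_mul_of_nonneg_left hRle (by positivity)
        have h8 : 2 * Ag * m * (d * Real.log C + 1) * T' ≤ tmin * η * T' :=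
          mul_le_mul_of_nonneg_right htm2 hT'0.le
        linarith
      exact le_of_mul_le_mul_right h6 htm0
    exact h3.trans (h4.trans (h2.trans h1))
  obtain ⟨q0, hq0, x, hx, hxne⟩ := hgr r hr hratio P hP hMH (fun h => (a h).1) (fun h => (ha h).1)
    hcond
  choose ξ hξ using fun h => exists_coords hn (ha h).1 (ha h).2.1 (ha h).2.2.2.1 (hx h)
  have hxne' : MvPolynomial.eval (fun b : Fin m × ι => ∑ l, ξ b.1 l * (a b.1).2 l b.2) (dd q0 P) ≠ 0 := by
    have h1 : (fun b : Fin m × ι => ∑ l, ξ b.1 l * (a b.1).2 l b.2) = fun b => x b.1 b.2 := by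
      funext b
      rw [hξ]
    rw [h1]
    exact hxne
  obtain ⟨u, hu, q, hq, hne⟩ := grid_sub P r hMH (fun h => (a h).2) q0 ξ hxne' N
  have hq' : ∑ h, (∑ i, (q (h, i) : ℝ)) / r h ≤ 2 * (τ * m) / 3 := by
    have h1 : ∀ h, (∑ i, (q (h, i) : ℝ)) / r h ≤ (∑ i, (q0 (h, i) : ℝ)) / r h + τ / 3 := by
      intro h
      have h2 := hq h
      have h3 : ((N : ℝ) + 1) * ∑ i, (q (h, i) : ℝ) ≤
          ((N : ℝ) + 1) * ∑ i, (q0 (h, i) : ℝ) + n * r h := by exact_mod_cast h2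
      have h4 : ∑ i, (q (h, i) : ℝ) ≤ ∑ i, (q0 (h, i) : ℝ) + n / (N + 1) * r h := by
        have h5 : (0 : ℝ) < (N : ℝ) + 1 := by positivity
        have h6 : ((N : ℝ) + 1) * ∑ i, (q (h, i) : ℝ) ≤
            ((N : ℝ) + 1) * (∑ i, (q0 (h, i) : ℝ) + n / (N + 1) * r h) := by
          have : ((N : ℝ) + 1) * (∑ i, (q0 (h, i) : ℝ) + n / (N + 1) * r h) =
              ((N : ℝ) + 1) * ∑ i, (q0 (h, i) : ℝ) + n * r h := by
            field_simp
          rw [this]; exact h3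
        exact le_of_mul_le_mul_left h6 h5
      rw [div_le_iff₀ (hrpos h), add_mul, div_mul_cancel₀ _ (hrpos h).ne']
      have h7 : (n : ℝ) / (N + 1) * r h ≤ τ / 3 * r h :=
        mul_le_mul_of_nonneg_right hN1 (hrpos h).le
      linarith
    calc ∑ h, (∑ i, (q (h, i) : ℝ)) / r h ≤ ∑ h : Fin m, ((∑ i, (q0 (h, i) : ℝ)) / r h + τ / 3) :=
          Finset.sum_le_sum fun h _ => h1 h
      _ = ∑ h, (∑ i, (q0 (h, i) : ℝ)) / r h + m * (τ / 3) := by
          rw [Finset.sum_add_distrib, Finset.sum_const, Finset.card_univ, Fintype.card_fin,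
            nsmul_eq_mul]
      _ ≤ 2 * (τ * m) / 3 := by linarith
  have hfin := global hn F c hc Ce hCe1 hCe N r hr t T' ρ τ hT'0.le hρ.le (by linarith) hτ.le hT1 hT2
    P hMH C hC hint hinf (fun v => hsupp (.inl v)) (fun v hv => hsupp (.inr ⟨v, hv⟩)) q hq' u hu
    (fun h => (a h).2) (fun h l => (ha h).2.2.1 l) hne
  rw [← hκd, ← hC', ← hcs, ← hR] at hfin
  have hdegc : deg c = -D := by rw [hD]; ring
  rw [hdegc] at hfin
  -- `0 ≤ R C' - T' m D / (n+1) + T' m ((n+1) τ + ρ) cs`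
  have hTm : 0 < T' * m := by positivity
  have k1 : R * C' ≤ T' * m * (D / (4 * (n + 1))) := by
    rw [div_le_iff₀ hD0] at htm3
    have h1 : (R * C') * tmin ≤ (T' * m * (D / (4 * (n + 1)))) * tmin := by
      have h2 : C' * (R * tmin) ≤ C' * (m * T') := mul_le_mul_of_nonneg_left hRle hC'0
      have h3 : C' ≤ tmin * D / (4 * (n + 1)) := by
        rw [le_div_iff₀ (by positivity)]
        linarith
      have h4 : (m * T') * C' ≤ (m * T') * (tmin * D / (4 * (n + 1))) :=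
        mul_le_mul_of_nonneg_left h3 (by positivity)
      have h5 : (m * T') * (tmin * D / (4 * (n + 1))) = (T' * m * (D / (4 * (n + 1)))) * tmin := by
        ring
      rw [← h5]
      linarith
    exact le_of_mul_le_mul_right h1 htm0
  have k2 : T' * m * ((n + 1) * τ + ρ) * cs ≤ T' * m * (D / (2 * (n + 1))) := by
    have h1 : ((n + 1) * τ + ρ) * cs ≤ D / (2 * (n + 1)) := by
      have h2 : D / (2 * ((n : ℝ) + 1)) = D / (4 * (n + 1)) + D / (4 * (n + 1)) := by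
        field_simp; ring
      rw [h2, add_mul]
      exact add_le_add hτ1 hρ1
    rw [mul_assoc]
    exact mul_le_mul_of_nonneg_left h1 hTm.le
  have k3 : T' * m / (n + 1) * -D = -(T' * m * (D / (n + 1))) := by ring
  rw [k3] at hfin
  have k4 : D / ((n : ℝ) + 1) = D / (4 * (n + 1)) + D / (2 * (n + 1)) + D / (4 * (n + 1)) := by
    field_simp; ring
  have k5 : 0 < T' * m * (D / (4 * (n + 1))) := by positivity
  rw [k4] at hfin
  linarith

end Pool.Agent.V2
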