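import Pool.Agent.Helper21.V2.Defs2

/-!
# Block CU1: Newton polygon lemma
-/

namespace Pool.Agent.V2

open MvPolynomial

set_option linter.unusedVariables false

section alg

variable {k : Type*} [Field k] [CharZero k]

/-- weight of an exponent -/
def cu1_wt (α β : ℕ) (d : Fin 2 →₀ ℕ) : ℕ := d 0 * α + d 1 * β

theorem cu1_wt_add (α β : ℕ) (d e : Fin 2 →₀ ℕ) :
    cu1_wt α β (d + e) = cu1_wt α β d + cu1_wt α β e := by
  unfold cu1_wt
  simp only [Finsupp.add_apply]
  ring

/-- the kernel as a submodule -/
def cu1_Z (Zν : MvPolynomial (Fin 2) k → Prop)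
    (hZ0 : Zν 0) (hZadd : ∀ s t, Zν s → Zν t → Zν (s + t)) (hZmul : ∀ s t, Zν s → Zν (s * t)) :
    Submodule k (MvPolynomial (Fin 2) k) where
  carrier := {s | Zν s}
  add_mem' := fun ha hb => hZadd _ _ ha hb
  zero_mem' := hZ0
  smul_mem' := fun c s hs => by
    have h := hZmul s (C c) hs
    rwa [mul_comm, ← smul_eq_C_mul] at h

/-- polynomials all of whose monomials have weight `≥ n` -/
def cu1_M (k : Type*) [Field k] (α β n : ℕ) : Submodule k (MvPolynomial (Fin 2) k) where
  carrier := {s | ∀ d, s.coeff d ≠ 0 → n ≤ cu1_wt α β d}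
  add_mem' := by
    intro a b ha hb d hd
    by_cases h : a.coeff d = 0
    · refine hb d fun h2 => hd ?_
      rw [coeff_add, h, h2, add_zero]
    · exact ha d h
  zero_mem' := fun d hd => absurd (coeff_zero d) hd
  smul_mem' := by
    intro c a ha d hd
    refine ha d fun h => hd ?_
    rw [coeff_smul, h, smul_zero]

omit [CharZero k] in
theorem cu1_monomial (d : Fin 2 →₀ ℕ) (c : k) :
    monomial d c = C c * X 0 ^ d 0 * X 1 ^ d 1 := by
  rw [monomial_eq, Finsupp.prod_fintype _ _ (fun i => pow_zero _), Fin.prod_univ_two, mul_assoc]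

theorem newton (ν : MvPolynomial (Fin 2) k → ℝ) (Zν : MvPolynomial (Fin 2) k → Prop)
    (hZ0 : Zν 0) (hZadd : ∀ s t, Zν s → Zν t → Zν (s + t)) (hZmul : ∀ s t, Zν s → Zν (s * t))
    (α β : ℕ) (hα : 1 ≤ α) (hβ : 1 ≤ β)
    (hmono : ∀ (i j : ℕ) (c : k), c ≠ 0 → ¬ Zν (C c * X 0 ^ i * X 1 ^ j) ∧
      ν (C c * X 0 ^ i * X 1 ^ j) = i * α + j * β)
    (hadd : ∀ s t (a : ℝ), (Zν s ∨ a ≤ ν s) → (Zν t ∨ a ≤ ν t) → (Zν (s + t) ∨ a ≤ ν (s + t)))
    (φ : MvPolynomial (Fin 2) k) (hφ : φ ≠ 0) (hφZ : Zν φ) (C0 : ℕ)
    (hcod : ∀ n : ℕ, ∃ (m : ℕ) (s : Fin m → MvPolynomial (Fin 2) k), n ≤ m + C0 ∧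
      ∀ a : Fin m → k, a ≠ 0 → ¬ (Zν (∑ i, C (a i) * s i) ∨ (n : ℝ) ≤ ν (∑ i, C (a i) * s i))) :
    ∀ d ∈ φ.support, α * β ≤ d 0 * α + d 1 * β := by
  classical
  -- the exponent of minimal weight with the largest first coordinate
  have hne : φ.support.Nonempty := by
    rw [Finset.nonempty_iff_ne_empty, Ne, MvPolynomial.support_eq_empty]
    exact hφ
  obtain ⟨e1, he1, hmin⟩ := Finset.exists_min_image φ.support (cu1_wt α β) hne
  have hne2 : (φ.support.filter fun e => cu1_wt α β e = cu1_wt α β e1).Nonempty :=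
    ⟨e1, Finset.mem_filter.2 ⟨he1, rfl⟩⟩
  obtain ⟨e0, he0, hmax⟩ := Finset.exists_max_image _ (fun e : Fin 2 →₀ ℕ => e 0) hne2
  rw [Finset.mem_filter] at he0
  have hmin0 : ∀ e ∈ φ.support, cu1_wt α β e0 ≤ cu1_wt α β e := fun e he =>
    he0.2 ▸ hmin e he
  have hmax0 : ∀ e ∈ φ.support, e ≠ e0 → cu1_wt α β e = cu1_wt α β e0 → e 0 < e0 0 := by
    intro e he hne' hw
    refine lt_of_le_of_ne (hmax e (Finset.mem_filter.2 ⟨he, hw.trans he0.2⟩)) fun h0 => hne' ?_
    have h1 : e 1 = e0 1 := by
      unfold cu1_wt at hw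
      rw [h0] at hw
      exact Nat.eq_of_mul_eq_mul_right (by omega) (Nat.add_left_cancel hw)
    ext i
    fin_cases i
    · exact h0
    · exact h1
  suffices hmain : α * β ≤ cu1_wt α β e0 by
    intro d hd
    exact hmain.trans (hmin0 d hd)
  -- the codimension count
  have hcount : ∀ n : ℕ, n ≤ e0 0 * (n / β + 1) + (n / α + 1) * e0 1 + C0 := by
    intro n
    obtain ⟨m, s, hm, hs⟩ := hcod n
    let ZZ := cu1_Z Zν hZ0 hZadd hZmul
    let U : Submodule k (MvPolynomial (Fin 2) k) := ZZ ⊔ cu1_M k α β n
    have hU : ∀ x ∈ U, Zν x ∨ (n : ℝ) ≤ ν x := by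
      intro x hx
      obtain ⟨z, hz, y, hy, rfl⟩ := Submodule.mem_sup.1 hx
      refine hadd z y n (Or.inl hz) ?_
      rw [MvPolynomial.as_sum y]
      have hgen : ∀ T : Finset (Fin 2 →₀ ℕ), T ⊆ y.support →
          (Zν (∑ v ∈ T, monomial v (coeff v y)) ∨
            (n : ℝ) ≤ ν (∑ v ∈ T, monomial v (coeff v y))) := by
        intro T
        induction T using Finset.induction_on with
        | empty =>
          intro _
          rw [Finset.sum_empty]
          exact Or.inl hZ0
        | insert v T hv ih =>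
          intro hT
          rw [Finset.sum_insert hv]
          refine hadd _ _ n (Or.inr ?_) (ih fun t ht => hT (Finset.mem_insert_of_mem ht))
          have hv' : coeff v y ≠ 0 := mem_support_iff.1 (hT (Finset.mem_insert_self _ _))
          rw [cu1_monomial, (hmono _ _ _ hv').2]
          have := hy v hv'
          unfold cu1_wt at this
          exact_mod_cast this
      exact hgen _ (Finset.Subset.refl _)
    -- the spanning set
    let Bs : Finset (ℕ × ℕ) := (Finset.range (e0 0) ×ˢ Finset.range (n / β + 1)) ∪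
      (Finset.range (n / α + 1) ×ˢ Finset.range (e0 1))
    let G : Finset (MvPolynomial (Fin 2) k) :=
      Bs.image fun t => monomial (Finsupp.single 0 t.1 + Finsupp.single 1 t.2) (1 : k)
    let T : Submodule k (MvPolynomial (Fin 2) k) := U ⊔ Submodule.span k (G : Set _)
    have hmem : ∀ w i : ℕ, ∀ d : Fin 2 →₀ ℕ, n - cu1_wt α β d = w → d 0 = i →
        monomial d (1 : k) ∈ T := by
      intro w
      induction w using Nat.strong_induction_on with
      | _ w ihw =>
      intro i
      induction i using Nat.strong_induction_on with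
      | _ i ihi =>
      intro d hdw hdi
      by_cases hw : n ≤ cu1_wt α β d
      · refine Submodule.mem_sup_left (Submodule.mem_sup_right ?_)
        intro e he
        rw [coeff_monomial] at he
        by_cases hde : d = e
        · rw [← hde]
          exact hw
        · rw [if_neg hde] at he
          exact absurd rfl he
      by_cases hB : d 0 < e0 0 ∨ d 1 < e0 1
      · refine Submodule.mem_sup_right (Submodule.subset_span ?_)
        rw [Finset.mem_coe, Finset.mem_image]
        refine ⟨(d 0, d 1), ?_, ?_⟩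
        · have hw' : d 0 * α + d 1 * β < n := not_le.1 hw
          rw [Finset.mem_union, Finset.mem_product, Finset.mem_product, Finset.mem_range,
            Finset.mem_range, Finset.mem_range, Finset.mem_range]
          rcases hB with hB | hB
          · left
            refine ⟨hB, Nat.lt_succ_of_le ((Nat.le_div_iff_mul_le (by omega)).2 ?_)⟩
            have : d 1 * β ≤ d 0 * α + d 1 * β := Nat.le_add_left _ _
            exact this.trans hw'.le
          · right
            refine ⟨Nat.lt_succ_of_le ((Nat.le_div_iff_mul_le (by omega)).2 ?_), hB⟩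
            have : d 0 * α ≤ d 0 * α + d 1 * β := Nat.le_add_right _ _
            exact this.trans hw'.le
        · have hdd : (Finsupp.single (0 : Fin 2) (d 0) + Finsupp.single (1 : Fin 2) (d 1) :
              Fin 2 →₀ ℕ) = d := by
            refine Finsupp.ext (Fin.forall_fin_two.2 ⟨?_, ?_⟩) <;> simp
          show monomial (Finsupp.single (0 : Fin 2) (d 0) + Finsupp.single (1 : Fin 2) (d 1))
            (1 : k) = monomial d 1
          rw [hdd]
      · push Not at hB
        have hle : e0 ≤ d := by
          rw [Finsupp.le_def]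
          exact Fin.forall_fin_two.2 ⟨hB.1, hB.2⟩
        obtain ⟨r, rfl⟩ : ∃ r, d = e0 + r := ⟨d - e0, (add_tsub_cancel_of_le hle).symm⟩
        have hZr : φ * monomial r (1 : k) ∈ T :=
          Submodule.mem_sup_left (Submodule.mem_sup_left (hZmul _ _ hφZ))
        have hexp : φ * monomial r (1 : k) =
            ∑ e ∈ φ.support, (coeff e φ) • monomial (e + r) (1 : k) := by
          conv_lhs => rw [MvPolynomial.as_sum φ]
          rw [Finset.sum_mul]
          refine Finset.sum_congr rfl fun e _ => ?_
          rw [monomial_mul, mul_one, smul_monomial, smul_eq_mul, mul_one]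
        rw [hexp, ← Finset.add_sum_erase _ _ he0.1] at hZr
        have hrest : ∑ e ∈ φ.support.erase e0, (coeff e φ) • monomial (e + r) (1 : k) ∈ T := by
          refine Submodule.sum_mem _ fun e he => Submodule.smul_mem _ _ ?_
          have hes := Finset.mem_of_mem_erase he
          have hen := Finset.ne_of_mem_erase he
          rcases (hmin0 e hes).lt_or_eq with hlt | heq
          · refine ihw (n - cu1_wt α β (e + r)) ?_ _ _ rfl rfl
            rw [← hdw]
            rw [cu1_wt_add] at hw ⊢
            rw [cu1_wt_add]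
            omega
          · refine ihi ((e + r) 0) ?_ _ ?_ rfl
            · have := hmax0 e hes hen heq.symm
              rw [← hdi]
              simp only [Finsupp.add_apply]
              omega
            · rw [← hdw, cu1_wt_add, cu1_wt_add, heq]
        have h1 : (coeff e0 φ) • monomial (e0 + r) (1 : k) ∈ T := by
          have := Submodule.sub_mem _ hZr hrest
          rwa [add_sub_cancel_right] at this
        have h2 : coeff e0 φ ≠ 0 := mem_support_iff.1 he0.1
        have h3 := Submodule.smul_mem T (coeff e0 φ)⁻¹ h1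
        rwa [smul_smul, inv_mul_cancel₀ h2, one_smul] at h3
    have hT : T = ⊤ := by
      rw [eq_top_iff]
      intro x _
      rw [MvPolynomial.as_sum x]
      refine Submodule.sum_mem _ fun v _ => ?_
      have h1 : monomial v (coeff v x) = (coeff v x) • monomial v (1 : k) := by
        rw [smul_monomial, smul_eq_mul, mul_one]
      rw [h1]
      exact Submodule.smul_mem _ _ (hmem _ _ v rfl rfl)
    -- dimension of the quotient
    have hspan : Submodule.span k ((G.image U.mkQ : Finset _) : Set (MvPolynomial (Fin 2) k ⧸ U)) =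
        ⊤ := by
      rw [Finset.coe_image, ← Submodule.map_span]
      have h1 : (T.map U.mkQ) = ⊤ := by
        rw [hT, Submodule.map_top, Submodule.range_mkQ]
      rw [Submodule.map_sup] at h1
      have h2 : U.map U.mkQ = ⊥ := by
        exact Submodule.mkQ_map_self U
      rwa [h2, bot_sup_eq] at h1
    haveI : Module.Finite k (MvPolynomial (Fin 2) k ⧸ U) := ⟨⟨_, hspan⟩⟩
    have hfin : Module.finrank k (MvPolynomial (Fin 2) k ⧸ U) ≤ G.card := by
      rw [← finrank_top, ← hspan]
      exact (finrank_span_finset_le_card _).trans Finset.card_image_le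
    have hli : LinearIndependent k (fun i => U.mkQ (s i)) := by
      rw [Fintype.linearIndependent_iff]
      intro a ha
      by_contra! hcon
      obtain ⟨i, hi⟩ := hcon
      refine hs a (fun h => hi (by rw [h]; rfl)) (hU _ ?_)
      have h1 : U.mkQ (∑ i, C (a i) * s i) = 0 := by
        rw [map_sum, ← ha]
        refine Finset.sum_congr rfl fun i _ => ?_
        rw [← smul_eq_C_mul, map_smul]
      exact (Submodule.Quotient.mk_eq_zero U).1 h1
    have h4 := hli.fintype_card_le_finrank
    rw [Fintype.card_fin] at h4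
    have h5 : G.card ≤ e0 0 * (n / β + 1) + (n / α + 1) * e0 1 := by
      refine Finset.card_image_le.trans ((Finset.card_union_le _ _).trans ?_)
      simp only [Finset.card_product, Finset.card_range]
      exact le_rfl
    omega
  by_contra! hlt
  have h1 := hcount (α * β * (e0 0 + e0 1 + C0) + 1)
  set n := α * β * (e0 0 + e0 1 + C0) + 1 with hn
  have h2 : β * (n / β) ≤ n := Nat.mul_div_le n β
  have h3 : α * (n / α) ≤ n := Nat.mul_div_le n α
  have h4 : α * β * n ≤ cu1_wt α β e0 * n + α * β * (e0 0 + e0 1 + C0) := by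
    calc α * β * n ≤ α * β * (e0 0 * (n / β + 1) + (n / α + 1) * e0 1 + C0) :=
          Nat.mul_le_mul_left _ h1
      _ = α * e0 0 * (β * (n / β)) + β * e0 1 * (α * (n / α)) +
          α * β * (e0 0 + e0 1 + C0) := by ring
      _ ≤ α * e0 0 * n + β * e0 1 * n + α * β * (e0 0 + e0 1 + C0) := by
          gcongr
      _ = _ := by
          unfold cu1_wt
          ring
  have h5 : (cu1_wt α β e0 + 1) * n ≤ α * β * n := Nat.mul_le_mul_right _ hlt
  have h6 : (cu1_wt α β e0 + 1) * n = cu1_wt α β e0 * n + n := by ring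
  omega

end alg

end Pool.Agent.V2
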