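import Mathlib

/-! CU2 (helper31): the integer inequality for two places. -/

namespace Pool.Agent.V2

/-- CU2. integer inequality -/
theorem int_ineq (δ I e m M : ℕ) (he : 1 ≤ e) (hm : 1 ≤ m) (hmM : m ≤ M) (h1 : e + m ≤ δ)
    (h2 : I ≤ 2 * δ) (h3 : M ≤ δ) (h4 : 2 * e ≤ δ) (hI : 1 ≤ I)
    (h5 : e * (I - 1) + m * M ≤ δ ^ 2) : I + 2 * e + m + M ≤ 4 * δ := by
  by_contra hcon
  push Not at hcon
  obtain ⟨i, hi⟩ : ∃ i, I + i = 2 * δ := ⟨2 * δ - I, by omega⟩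
  obtain ⟨j, hj⟩ : ∃ j, M + j = δ := ⟨δ - M, by omega⟩
  obtain ⟨I', hI'⟩ : ∃ I', I = I' + 1 := ⟨I - 1, by omega⟩
  obtain ⟨t, ht⟩ : ∃ t, 2 * e + m = δ + t + i + j + 1 := ⟨2 * e + m - (δ + i + j + 1), by omega⟩
  subst hI'
  rw [Nat.add_sub_cancel] at h5
  -- pass to integers
  zify at *
  have eI : (I' : ℤ) = 2 * δ - i - 1 := by linarith
  have eM : (M : ℤ) = δ - j := by linarith
  rw [eI, eM] at h5
  have hs : (2 * e + m - δ : ℤ) = t + i + j + 1 := by linarith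
  -- `δ s - e ≤ e i + m j`, `s = t + i + j + 1`
  have h6 : (δ : ℤ) * (t + i + j + 1) - e ≤ e * i + m * j := by
    rw [← hs]; nlinarith
  have hi0 : (0 : ℤ) ≤ i := Int.natCast_nonneg i
  have hj0 : (0 : ℤ) ≤ j := Int.natCast_nonneg j
  have ht0 : (0 : ℤ) ≤ t := Int.natCast_nonneg t
  rcases le_or_gt (m : ℤ) e with hme | hme
  · have a1 : (m : ℤ) * j ≤ e * j := mul_le_mul_of_nonneg_right hme hj0
    have a2 : (0 : ℤ) ≤ e * t := by positivity
    have a3 : ((δ : ℤ) - e) * (t + i + j + 1) ≤ 0 := by nlinarith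
    have a4 : (0 : ℤ) < (δ - e) * (t + i + j + 1) := by
      apply mul_pos <;> linarith
    linarith
  · have a1 : (e : ℤ) * i ≤ m * i := mul_le_mul_of_nonneg_right hme.le hi0
    have a2 : (0 : ℤ) ≤ m * t := by positivity
    have a3 : (0 : ℤ) ≤ (δ - m) * (t + i + j + 1) := by
      apply mul_nonneg <;> linarith
    nlinarith

end Pool.Agent.V2
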