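import Pool.Agent.Helper21.V2.PL0
import Pool.Agent.Helper21.V2.CU2

/-!
# Block CU6 (helper80): two places in normal position, up to the two estimates for `VF f`
-/

namespace Pool.Agent.V2

open MvPolynomial

variable {k : Type*} [Field k] [CharZero k]

namespace CU6

omit [CharZero k] in
theorem zi {f : MvPolynomial (Fin 3) k} (hf : Irreducible f) : ZI (fun s => f ∣ s) where
  zero := dvd_zero f
  one := fun h => hf.not_isUnit (isUnit_of_dvd_one h)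
  add := fun _ _ _ _ _ => dvd_add
  mul := fun _ _ _ _ _ _ => (UniqueFactorizationMonoid.irreducible_iff_prime.1 hf).dvd_mul
  C_mul := fun _ _ _ _ h => h.mul_left _

omit [CharZero k] in
theorem hom_VF {f : MvPolynomial (Fin 3) k} {δ : ℕ} (hδ : f.IsHomogeneous δ) (h1 : 1 ≤ δ) :
    (VF f).IsHomogeneous δ := by
  have hX : ∀ i : Fin 3, (X i : MvPolynomial (Fin 3) k).IsHomogeneous 1 := isHomogeneous_X k
  have e1 : 1 + (δ - 1) = δ := by omega
  have hp : ∀ i, (pderiv i f).IsHomogeneous (δ - 1) := fun i => hδ.pderiv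
  unfold VF
  refine ((?_ : IsHomogeneous _ _).add ?_).add ?_
  · have := (hX 1).mul (hp 0)
    rwa [e1] at this
  · have h2 := (hom_C_mul ((hX 0).add (hX 2)) (2 : k)).mul (hp 1)
    rwa [e1] at h2
  · have := (hX 1).mul (hp 2)
    rwa [e1] at this

omit [CharZero k] in
theorem hom_Dis : (Dis : MvPolynomial (Fin 3) k).IsHomogeneous 2 := by
  have hX : ∀ i : Fin 3, (X i : MvPolynomial (Fin 3) k).IsHomogeneous 1 := isHomogeneous_X k
  unfold Dis
  refine IsHomogeneous.sub ?_ ?_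
  · have := (hX 1).pow 2
    simpa using this
  · exact (hom_C_mul (hX 0) 4).mul (hX 2)

/-- CU6, with the estimates for `VF f` as hypotheses. -/
theorem core {f : MvPolynomial (Fin 3) k} (hf : Irreducible f) {δ : ℕ}
    (hδ : f.IsHomogeneous δ) (h1 : 1 ≤ δ) {u v : MvPolynomial (Fin 3) k → ℝ}
    (hu : GV (fun s => f ∣ s) u) (nu : NormC f δ u) (hv : GV (fun s => f ∣ s) v)
    (nv : NormC f δ v)
    (bez : ∀ s (N : ℕ), s.IsHomogeneous N → ¬ f ∣ s → u s + v s ≤ δ * N)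
    (hfD : ¬ f ∣ Dis) (hf1 : ¬ f ∣ X 0) (hf2 : ¬ f ∣ (X 0 + X 1 + X 2))
    (hf3 : ¬ f ∣ (X 0 - X 1 + X 2))
    (hL : 0 < u (X 0)) (hI : 0 < u Dis) (hM : 0 < v (X 0 + X 1 + X 2))
    (hm : 0 < v (X 0 - X 1 + X 2))
    (Hv : ∀ m M : ℕ, 1 ≤ m → 1 ≤ M → v (X 0 + X 1 + X 2) = M → v (X 0 - X 1 + X 2) = m →
      ¬ f ∣ VF f ∧ (m * M : ℝ) ≤ v (VF f))
    (Hu : ∀ e I : ℕ, 1 ≤ e → 2 * e < I → ¬ f ∣ X 1 → ¬ f ∣ X 2 → u (X 1) = e → u (X 2) = 0 →
      u Dis = I → ¬ f ∣ VF f → (e * I - e : ℝ) ≤ u (VF f)) :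
    u Dis + u (X 0) + v (X 0 + X 1 + X 2) + v (X 0 - X 1 + X 2) ≤ 4 * δ := by
  have hZ := zi hf
  have hX : ∀ i : Fin 3, (X i : MvPolynomial (Fin 3) k).IsHomogeneous 1 := isHomogeneous_X k
  have hT2 : (X 0 + X 1 + X 2 : MvPolynomial (Fin 3) k).IsHomogeneous 1 :=
    ((hX 0).add (hX 1)).add (hX 2)
  have hT3 : (X 0 - X 1 + X 2 : MvPolynomial (Fin 3) k).IsHomogeneous 1 :=
    ((hX 0).sub (hX 1)).add (hX 2)
  have hD : (Dis : MvPolynomial (Fin 3) k).IsHomogeneous 2 := hom_Dis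
  have h4 : (4 : k) ≠ 0 := by norm_num
  have h2k : (2 : k) ≠ 0 := by norm_num
  have b0 := nu.le _ 1 (hX 0) hf1
  have b2 := nv.le _ 1 hT2 hf2
  have b3 := nv.le _ 1 hT3 hf3
  have bD := nu.le _ 2 hD hfD
  push_cast at b0 b2 b3 bD
  rw [mul_one] at b0 b2 b3
  rcases le_or_gt (u Dis) (u (X 0)) with hle | hgt
  · linarith
  -- now `L < I`
  have hX0X2 : (X 0 * X 2 : MvPolynomial (Fin 3) k).IsHomogeneous 2 := (hX 0).mul (hX 2)
  have hC4 : (C (-4) * (X 0 * X 2) : MvPolynomial (Fin 3) k).IsHomogeneous 2 := hom_C_mul hX0X2 _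
  have hX1X1 : (X 1 * X 1 : MvPolynomial (Fin 3) k).IsHomogeneous 2 := (hX 1).mul (hX 1)
  have hDis : (Dis : MvPolynomial (Fin 3) k) = X 1 * X 1 + C (-4) * (X 0 * X 2) := by
    unfold Dis
    rw [map_neg]
    ring
  have hneg4 : (-4 : k) ≠ 0 := neg_ne_zero.2 h4
  have hub : ¬ (¬ f ∣ X 1 ∧ u (X 1) = 0) := by
    rintro ⟨hb1, hb2⟩
    have hbb : ¬ f ∣ (X 1 * X 1 : MvPolynomial (Fin 3) k) := by
      rw [hZ.mul _ _ 1 1 (hX 1) (hX 1)]
      tauto
    have hbu : u (X 1 * X 1) = 0 := by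
      rw [hu.mul _ _ 1 1 (hX 1) (hX 1) hb1 hb1, hb2, add_zero]
    have h5 := hu.add_eq hZ (X 1 * X 1) (C (-4) * (X 0 * X 2)) 2 hX1X1 hC4 hbb (by
      by_cases hc : f ∣ X 2
      · left
        exact (hc.mul_left _).mul_left _
      · right
        have hac : ¬ f ∣ (X 0 * X 2 : MvPolynomial (Fin 3) k) := by
          rw [hZ.mul _ _ 1 1 (hX 0) (hX 2)]
          tauto
        rw [hu.C_mul hZ hX0X2 hac hneg4, hu.mul _ _ 1 1 (hX 0) (hX 2) hf1 hc, hbu]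
        have := hu.nonneg _ 1 (hX 2) hc
        linarith)
    rw [← hDis, hbu] at h5
    linarith [h5.2]
  obtain ⟨hc1, hc2⟩ : ¬ f ∣ X 2 ∧ u (X 2) = 0 := by
    obtain ⟨i, hi1, hi2⟩ := hu.unit
    fin_cases i
    · exact absurd hi2 hL.ne'
    · exact absurd ⟨hi1, hi2⟩ hub
    · exact ⟨hi1, hi2⟩
  have hac : ¬ f ∣ (X 0 * X 2 : MvPolynomial (Fin 3) k) := by
    rw [hZ.mul _ _ 1 1 (hX 0) (hX 2)]
    tauto
  have hacu : u (X 0 * X 2) = u (X 0) := by
    rw [hu.mul _ _ 1 1 (hX 0) (hX 2) hf1 hc1, hc2, add_zero]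
  have hac4 : ¬ f ∣ (C (-4) * (X 0 * X 2) : MvPolynomial (Fin 3) k) :=
    hZ.not_C_mul hX0X2 hac hneg4
  have hac4u : u (C (-4) * (X 0 * X 2)) = u (X 0) := by
    rw [hu.C_mul hZ hX0X2 hac hneg4, hacu]
  have hb1 : ¬ f ∣ X 1 := by
    intro hb
    have h5 := hu.congr (C (-4) * (X 0 * X 2)) (X 1 * X 1) 2 hC4 hX1X1 hac4 (hb.mul_left _)
    rw [add_comm, ← hDis, hac4u] at h5
    linarith
  obtain ⟨e, he⟩ := nu.int _ 1 (hX 1) hb1
  obtain ⟨I, hIe⟩ := nu.int _ 2 hD hfD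
  obtain ⟨L, hLe⟩ := nu.int _ 1 (hX 0) hf1
  obtain ⟨M, hMe⟩ := nv.int _ 1 hT2 hf2
  obtain ⟨m, hme⟩ := nv.int _ 1 hT3 hf3
  have he1 : 1 ≤ e := by
    rcases Nat.eq_zero_or_pos e with h0 | h0
    · exact absurd ⟨hb1, by rw [he, h0]; norm_num⟩ hub
    · exact h0
  have hbb : ¬ f ∣ (X 1 * X 1 : MvPolynomial (Fin 3) k) := by
    rw [hZ.mul _ _ 1 1 (hX 1) (hX 1)]
    tauto
  have hbu : u (X 1 * X 1) = 2 * e := by
    rw [hu.mul _ _ 1 1 (hX 1) (hX 1) hb1 hb1, he]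
    ring
  -- `4 a c = b² - Dis`
  have hnD : (C (-1) * Dis : MvPolynomial (Fin 3) k).IsHomogeneous 2 := hom_C_mul hD _
  have hm1 : (-1 : k) ≠ 0 := neg_ne_zero.mpr one_ne_zero
  have hid : X 1 * X 1 + C (-1) * (Dis : MvPolynomial (Fin 3) k) = C 4 * (X 0 * X 2) := by
    rw [hDis, map_neg, map_neg, map_one]
    ring
  have hnDu : u (C (-1) * Dis) = u Dis := hu.C_mul hZ hD hfD hm1
  have hnDf : ¬ f ∣ (C (-1) * Dis : MvPolynomial (Fin 3) k) := hZ.not_C_mul hD hfD hm1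
  have hac4' : u (C 4 * (X 0 * X 2)) = u (X 0) := by
    rw [hu.C_mul hZ hX0X2 hac h4, hacu]
  have hL2e : u (X 0) = 2 * e := by
    rcases lt_trichotomy (2 * (e : ℝ)) (u Dis) with h5 | h5 | h5
    · have h6 := hu.add_eq hZ (X 1 * X 1) (C (-1) * Dis) 2 hX1X1 hnD hbb
        (Or.inr (by rw [hbu, hnDu]; exact h5))
      rw [hid, hac4', hbu] at h6
      exact h6.2
    · have h6 := hu.add (X 1 * X 1) (C (-1) * Dis) 2 hX1X1 hnD hbb hnDf (by
        rw [hid]; exact hZ.not_C_mul hX0X2 hac h4)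
      rw [hid, hac4', hbu, hnDu, h5, min_self] at h6
      linarith
    · have h6 := hu.add_eq hZ (C (-1) * Dis) (X 1 * X 1) 2 hnD hX1X1 hnDf
        (Or.inr (by rw [hbu, hnDu]; exact h5))
      rw [add_comm, hid, hac4', hnDu] at h6
      linarith [h6.2]
  have hIL : 2 * e < I := by
    have h5 : (2 * e : ℝ) < I := by rw [← hL2e, ← hIe]; exact hgt
    exact_mod_cast h5
  have hM1 : 1 ≤ M := by
    rw [hMe] at hM
    exact_mod_cast hM
  have hm1' : 1 ≤ m := by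
    rw [hme] at hm
    exact_mod_cast hm
  obtain ⟨hVF, hVv⟩ := Hv m M hm1' hM1 hMe hme
  have hVu := Hu e I he1 hIL hb1 hc1 he hc2 hIe hVF
  have hB := bez _ δ (hom_VF hδ h1) hVF
  -- `v b ≥ min m M`
  have hvb : min (m : ℝ) M ≤ v (X 1) := by
    have hnT3 : (C (-1) * (X 0 - X 1 + X 2) : MvPolynomial (Fin 3) k).IsHomogeneous 1 :=
      hom_C_mul hT3 _
    have hid2 : (X 0 + X 1 + X 2) + C (-1) * (X 0 - X 1 + X 2) =
        (C 2 * X 1 : MvPolynomial (Fin 3) k) := by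
      rw [map_neg, map_one]
      have h2 : (C 2 : MvPolynomial (Fin 3) k) = 2 := by rfl
      rw [h2]
      ring
    have h6 := hv.add _ _ 1 hT2 hnT3 hf2 (hZ.not_C_mul hT3 hf3 hm1) (by
      rw [hid2]; exact hZ.not_C_mul (hX 1) hb1 h2k)
    rw [hid2, hv.C_mul hZ hT3 hf3 hm1, hv.C_mul hZ (hX 1) hb1 h2k, hMe, hme, min_comm] at h6
    exact h6
  have hbb1 := bez _ 1 (hX 1) hb1
  rw [he] at hbb1
  push_cast at hbb1
  rw [mul_one] at hbb1
  -- the integer inequality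
  have hMδ : M ≤ δ := by rw [hMe] at b2; exact_mod_cast b2
  have hmδ : m ≤ δ := by rw [hme] at b3; exact_mod_cast b3
  have hIδ : I ≤ 2 * δ := by
    rw [hIe] at bD
    have : (I : ℝ) ≤ ((2 * δ : ℕ) : ℝ) := by push_cast; linarith
    exact_mod_cast this
  have h2eδ : 2 * e ≤ δ := by
    rw [hL2e] at b0
    have : ((2 * e : ℕ) : ℝ) ≤ δ := by push_cast; linarith
    exact_mod_cast this
  have h5 : e * (I - 1) + m * M ≤ δ ^ 2 := by
    have h6 : ((e * (I - 1) + m * M : ℕ) : ℝ) ≤ ((δ ^ 2 : ℕ) : ℝ) := by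
      push_cast [Nat.cast_sub (by omega : 1 ≤ I)]
      nlinarith
    exact_mod_cast h6
  have hfin : I + 2 * e + m + M ≤ 4 * δ := by
    rcases le_total m M with hmM | hmM
    · have h7 : e + m ≤ δ := by
        have : ((e + m : ℕ) : ℝ) ≤ δ := by
          push_cast
          rw [min_eq_left (by exact_mod_cast hmM)] at hvb
          linarith
        exact_mod_cast this
      exact int_ineq δ I e m M he1 hm1' hmM h7 hIδ hMδ h2eδ (by omega) h5
    · have h7 : e + M ≤ δ := by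
        have : ((e + M : ℕ) : ℝ) ≤ δ := by
          push_cast
          rw [min_eq_right (by exact_mod_cast hmM)] at hvb
          linarith
        exact_mod_cast this
      have := int_ineq δ I e M m he1 hM1 hmM h7 hIδ hmδ h2eδ (by omega) (by
        rw [mul_comm M m]; exact h5)
      omega
  rw [hIe, hL2e, hMe, hme]
  have : ((I + 2 * e + m + M : ℕ) : ℝ) ≤ ((4 * δ : ℕ) : ℝ) := by exact_mod_cast hfin
  push_cast at this
  linarith

end CU6

end Pool.Agent.V2
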