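import Mathlib

/-!
MP_71c16a_nt, block CV2: the centre of a valuation of a function field which is nonnegative on
`k[X]`.
-/

namespace Pool.Agent.V2

open Polynomial

section abstract

variable {E : Type*} [Field E]

/-- The valuation ring of a real valued (additive) valuation. -/
def vring (ν : E → ℝ) (hmul : ∀ a b : E, a ≠ 0 → b ≠ 0 → ν (a * b) = ν a + ν b)
    (hadd : ∀ a b : E, a ≠ 0 → b ≠ 0 → a + b ≠ 0 → min (ν a) (ν b) ≤ ν (a + b)) :
    ValuationSubring E where
  carrier := {a | a = 0 ∨ 0 ≤ ν a}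
  mul_mem' := by
    rintro a b (rfl | ha) (rfl | hb)
    · exact Or.inl (by simp)
    · exact Or.inl (by simp)
    · exact Or.inl (by simp)
    · by_cases ha0 : a = 0
      · exact Or.inl (by simp [ha0])
      by_cases hb0 : b = 0
      · exact Or.inl (by simp [hb0])
      right
      rw [hmul a b ha0 hb0]
      positivity
  one_mem' := by
    right
    have := hmul 1 1 one_ne_zero one_ne_zero
    rw [mul_one] at this
    linarith
  add_mem' := by
    rintro a b ha hb
    by_cases ha0 : a = 0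
    · subst ha0; rwa [zero_add]
    by_cases hb0 : b = 0
    · subst hb0; rwa [add_zero]
    by_cases hab : a + b = 0
    · exact Or.inl hab
    right
    have h1 := ha.resolve_left ha0
    have h2 := hb.resolve_left hb0
    exact (le_min h1 h2).trans (hadd a b ha0 hb0 hab)
  zero_mem' := Or.inl rfl
  neg_mem' := by
    rintro a ha
    by_cases ha0 : a = 0
    · exact Or.inl (by rw [ha0, neg_zero])
    right
    have h1 : ν 1 = 0 := by
      have := hmul 1 1 one_ne_zero one_ne_zero
      rw [mul_one] at this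
      linarith
    have h2 : ν (-1) = 0 := by
      have := hmul (-1) (-1) (neg_ne_zero.mpr one_ne_zero) (neg_ne_zero.mpr one_ne_zero)
      rw [neg_mul_neg, mul_one] at this
      linarith
    have h3 := hmul (-1) a (neg_ne_zero.mpr one_ne_zero) ha0
    rw [neg_one_mul, h2, zero_add] at h3
    rw [h3]
    exact ha.resolve_left ha0
  mem_or_inv_mem' := by
    intro a
    by_cases ha0 : a = 0
    · exact Or.inl (Or.inl ha0)
    have h1 : ν 1 = 0 := by
      have := hmul 1 1 one_ne_zero one_ne_zero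
      rw [mul_one] at this
      linarith
    have h2 := hmul a a⁻¹ ha0 (inv_ne_zero ha0)
    rw [mul_inv_cancel₀ ha0, h1] at h2
    rcases le_total 0 (ν a) with h | h
    · exact Or.inl (Or.inr h)
    · exact Or.inr (Or.inr (by linarith))

theorem mem_vring {ν : E → ℝ} {hmul : ∀ a b : E, a ≠ 0 → b ≠ 0 → ν (a * b) = ν a + ν b}
    {hadd : ∀ a b : E, a ≠ 0 → b ≠ 0 → a + b ≠ 0 → min (ν a) (ν b) ≤ ν (a + b)} {a : E} :
    a ∈ vring ν hmul hadd ↔ a = 0 ∨ 0 ≤ ν a := Iff.rfl

theorem ν_one {ν : E → ℝ} (hmul : ∀ a b : E, a ≠ 0 → b ≠ 0 → ν (a * b) = ν a + ν b) :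
    ν 1 = 0 := by
  have := hmul 1 1 one_ne_zero one_ne_zero
  rw [mul_one] at this
  linarith

theorem ν_pow {ν : E → ℝ} (hmul : ∀ a b : E, a ≠ 0 → b ≠ 0 → ν (a * b) = ν a + ν b)
    {a : E} (ha : a ≠ 0) (n : ℕ) : ν (a ^ n) = n * ν a := by
  induction n with
  | zero => simp [ν_one hmul]
  | succ n ih =>
    rw [pow_succ, hmul _ _ (pow_ne_zero n ha) ha, ih]
    push_cast
    ring

/-- The centre of a valuation on a Dedekind domain contained in its valuation ring. -/
theorem center_dedekind {B : Type*} [CommRing B] [IsDedekindDomain B] [Algebra B E]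
    [IsFractionRing B E] (ν : E → ℝ)
    (hmul : ∀ a b : E, a ≠ 0 → b ≠ 0 → ν (a * b) = ν a + ν b)
    (hadd : ∀ a b : E, a ≠ 0 → b ≠ 0 → a + b ≠ 0 → min (ν a) (ν b) ≤ ν (a + b))
    (hB : ∀ b : B, b ≠ 0 → 0 ≤ ν (algebraMap B E b)) (hnt : ∃ a : E, a ≠ 0 ∧ ν a ≠ 0) :
    ∃ (p : Ideal B) (γ : ℝ), p.IsPrime ∧ p ≠ ⊥ ∧ 0 < γ ∧
      ∀ b : B, b ≠ 0 → (∃ a : ℕ, ν (algebraMap B E b) = γ * a) ∧
        ∀ j : ℕ, b ∈ p ^ j ↔ γ * j ≤ ν (algebraMap B E b) := by
  have hinj : ∀ b : B, b ≠ 0 → algebraMap B E b ≠ 0 := fun b hb h =>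
    hb ((IsFractionRing.injective B E) (by rw [h, map_zero]))
  -- the centre
  let p : Ideal B :=
    { carrier := {b | b = 0 ∨ 0 < ν (algebraMap B E b)}
      zero_mem' := Or.inl rfl
      add_mem' := by
        rintro a b ha hb
        by_cases ha0 : a = 0
        · subst ha0; rwa [zero_add]
        by_cases hb0 : b = 0
        · subst hb0; rwa [add_zero]
        by_cases hab : a + b = 0
        · exact Or.inl hab
        right
        have h1 := ha.resolve_left ha0
        have h2 := hb.resolve_left hb0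
        have h3 := hadd _ _ (hinj a ha0) (hinj b hb0) (by
          rw [← map_add]; exact hinj _ hab)
        rw [map_add]
        exact (lt_min h1 h2).trans_le h3
      smul_mem' := by
        rintro c b hb
        by_cases hc0 : c = 0
        · exact Or.inl (by rw [hc0, zero_smul])
        by_cases hb0 : b = 0
        · exact Or.inl (by rw [hb0, smul_zero])
        right
        have h2 := hb.resolve_left hb0
        rw [smul_eq_mul, map_mul, hmul _ _ (hinj c hc0) (hinj b hb0)]
        have := hB c hc0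
        linarith }
  have hmem : ∀ b : B, b ∈ p ↔ b = 0 ∨ 0 < ν (algebraMap B E b) := fun b => Iff.rfl
  have hp1 : (1 : B) ∉ p := by
    rw [hmem]
    rintro (h | h)
    · exact one_ne_zero h
    · rw [map_one, ν_one hmul] at h
      exact lt_irrefl _ h
  have hp : p.IsPrime := by
    refine ⟨fun h => hp1 (by rw [h]; trivial), ?_⟩
    intro a b hab
    by_contra hcon
    push Not at hcon
    obtain ⟨ha, hb⟩ := hcon
    rw [hmem] at ha hb hab
    push Not at ha hb
    rcases hab with h | h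
    · exact (mul_ne_zero ha.1 hb.1) h
    · rw [map_mul, hmul _ _ (hinj a ha.1) (hinj b hb.1)] at h
      linarith [ha.2, hb.2]
  have hp0 : p ≠ ⊥ := by
    obtain ⟨a, ha, hνa⟩ := hnt
    obtain ⟨x, y, hy, rfl⟩ := IsFractionRing.div_surjective (A := B) a
    have hy0 : y ≠ 0 := nonZeroDivisors.ne_zero hy
    have hx0 : x ≠ 0 := by
      rintro rfl
      exact ha (by simp)
    have h1 : ν (algebraMap B E x) = ν (algebraMap B E x / algebraMap B E y) +
        ν (algebraMap B E y) := by
      rw [← hmul _ _ ha (hinj y hy0), div_mul_cancel₀ _ (hinj y hy0)]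
    rw [Submodule.ne_bot_iff]
    have hx := hB x hx0
    have hy' := hB y hy0
    by_cases h2 : 0 < ν (algebraMap B E x)
    · exact ⟨x, Or.inr h2, hx0⟩
    · refine ⟨y, Or.inr (lt_of_le_of_ne hy' fun h3 => hνa ?_), hy0⟩
      linarith
  have hunit : ∀ b : B, b ∉ p → b ≠ 0 ∧ ν (algebraMap B E b) = 0 := by
    intro b hb
    rw [hmem] at hb
    push Not at hb
    exact ⟨hb.1, le_antisymm hb.2 (hB b hb.1)⟩
  -- a uniformizer
  obtain ⟨π, hπ, hπ2⟩ : ∃ π ∈ p, π ∉ p ^ 2 := by
    have h1 : p ^ 2 < p ^ 1 := Ideal.pow_right_strictAnti p hp0 hp.ne_top (by norm_num)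
    rw [pow_one] at h1
    exact Set.exists_of_ssubset h1
  have hπ0 : π ≠ 0 := fun h => hπ2 (by rw [h]; exact Ideal.zero_mem _)
  have hγ : 0 < ν (algebraMap B E π) := ((hmem π).mp hπ).resolve_left hπ0
  obtain ⟨J, hJ⟩ : p ∣ Ideal.span {π} := by
    rw [Ideal.dvd_span_singleton]; exact hπ
  obtain ⟨s, hsJ, hsp⟩ : ∃ s ∈ J, s ∉ p := by
    by_contra! hcon
    apply hπ2
    have h1 : p ∣ J := Ideal.dvd_iff_le.mpr fun x hx => hcon x hx
    have h2 : p ^ 2 ∣ Ideal.span {π} := by
      rw [hJ, sq]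
      exact mul_dvd_mul_left p h1
    rwa [Ideal.dvd_span_singleton] at h2
  have key : ∀ (j : ℕ) (b : B), b ∈ p ^ j → b ∉ p ^ (j + 1) →
      ν (algebraMap B E b) = ν (algebraMap B E π) * j := by
    intro j b hb hb'
    have hb0 : b ≠ 0 := fun h => hb' (by rw [h]; exact Ideal.zero_mem _)
    have hs := hunit (s ^ j) (fun h => hsp (hp.mem_of_pow_mem j h))
    have h1 : s ^ j * b ∈ Ideal.span {π ^ j} := by
      rw [← Ideal.span_singleton_pow, hJ, mul_pow, mul_comm]
      exact Ideal.mul_mem_mul (Ideal.pow_mem_pow hsJ j) hb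
    obtain ⟨t, ht⟩ := Ideal.mem_span_singleton'.mp h1
    have htp : t ∉ p := by
      intro h2
      have h3 : s ^ j * b ∈ p ^ (j + 1) := by
        rw [← ht, pow_succ']
        exact Ideal.mul_mem_mul h2 (Ideal.pow_mem_pow hπ j)
      rcases hp.mul_mem_pow p h3 with h4 | h4
      · exact hsp (hp.mem_of_pow_mem j h4)
      · exact hb' h4
    have htu := hunit t htp
    have h5 := congrArg (fun x => ν (algebraMap B E x)) ht
    simp only [map_mul] at h5
    rw [hmul _ _ (hinj t htu.1) (hinj _ (pow_ne_zero j hπ0)), hmul _ _ (hinj _ hs.1) (hinj b hb0),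
      htu.2, hs.2, map_pow, ν_pow hmul (hinj π hπ0)] at h5
    linarith
  refine ⟨p, ν (algebraMap B E π), hp, hp0, hγ, fun b hb => ?_⟩
  obtain ⟨n, hn⟩ : ∃ n, b ∉ p ^ n := by
    by_contra! hcon
    apply hb
    have h1 : b ∈ (⨅ i : ℕ, p ^ i) := by
      rw [Submodule.mem_iInf]; exact hcon
    rw [Ideal.iInf_pow_eq_bot_of_isDomain p hp.ne_top] at h1
    exact h1
  classical
  have hex : ∃ n, b ∉ p ^ n := ⟨n, hn⟩
  obtain ⟨j, hj⟩ : ∃ j, Nat.find hex = j + 1 := by
    refine Nat.exists_eq_succ_of_ne_zero fun h => ?_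
    have := Nat.find_spec hex
    rw [h, pow_zero] at this
    exact this (by rw [Ideal.one_eq_top]; trivial)
  have h1 : b ∉ p ^ (j + 1) := by rw [← hj]; exact Nat.find_spec hex
  have h2 : b ∈ p ^ j := by
    have := Nat.find_min hex (m := j) (by omega)
    exact not_not.mp this
  have h3 := key j b h2 h1
  refine ⟨⟨j, h3⟩, fun i => ?_⟩
  rw [h3, mul_le_mul_iff_right₀ hγ, Nat.cast_le]
  constructor
  · intro hi
    by_contra hcon
    exact h1 (Ideal.pow_le_pow_right (by omega) hi)
  · intro hi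
    exact Ideal.pow_le_pow_right hi h2

end abstract

section funfield

variable (k : Type*) [Field k] [CharZero k] (E : Type*) [Field E] [Algebra k E]
  [Algebra k[X] E] [IsScalarTower k k[X] E]
  [Algebra (RatFunc k) E] [IsScalarTower k[X] (RatFunc k) E] [FiniteDimensional (RatFunc k) E]

/-- CV2. The centre of a valuation of a function field which is nonnegative on `k[X]`. -/
theorem center (ν : E → ℝ)
    (hmul : ∀ a b : E, a ≠ 0 → b ≠ 0 → ν (a * b) = ν a + ν b)
    (hadd : ∀ a b : E, a ≠ 0 → b ≠ 0 → a + b ≠ 0 → min (ν a) (ν b) ≤ ν (a + b))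
    (hk : ∀ c : k, c ≠ 0 → ν (algebraMap k E c) = 0)
    (hx : 0 ≤ ν (algebraMap k[X] E X)) (hnt : ∃ a : E, a ≠ 0 ∧ ν a ≠ 0) :
    ∃ (p : Ideal (integralClosure k[X] E)) (γ : ℝ), p.IsPrime ∧ p ≠ ⊥ ∧ 0 < γ ∧
      ∀ b : integralClosure k[X] E, b ≠ 0 →
        (∃ a : ℕ, ν (b : E) = γ * a) ∧ ∀ j : ℕ, b ∈ p ^ j ↔ γ * j ≤ ν (b : E) := by
  have _ : IsDedekindDomain (integralClosure k[X] E) :=
    integralClosure.isDedekindDomain k[X] (RatFunc k) E
  have _ : IsFractionRing (integralClosure k[X] E) E :=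
    integralClosure.isFractionRing_of_finite_extension (RatFunc k) E
  let O := vring ν hmul hadd
  have hpoly : ∀ f : k[X], algebraMap k[X] E f ∈ O := by
    intro f
    induction f using Polynomial.induction_on' with
    | add p q hp hq => rw [map_add]; exact O.add_mem _ _ hp hq
    | monomial n a =>
      rw [← C_mul_X_pow_eq_monomial, map_mul, map_pow]
      refine O.mul_mem _ _ ?_ (pow_mem (Or.inr hx) n)
      have h1 : algebraMap k[X] E (C a) = algebraMap k E a := by
        rw [IsScalarTower.algebraMap_apply k k[X] E]; rfl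
      rw [h1]
      by_cases ha : a = 0
      · exact Or.inl (by rw [ha, map_zero])
      · exact Or.inr (hk a ha).ge
  refine center_dedekind (B := integralClosure k[X] E) ν hmul hadd ?_ hnt
  intro b hb
  have h1 : (b : E) ∈ O := by
    have hint : IsIntegral O (b : E) := by
      obtain ⟨f, hf, hfb⟩ := b.2
      let φ : k[X] →+* O := (algebraMap k[X] E).codRestrict O hpoly
      refine ⟨f.map φ, hf.map φ, ?_⟩
      rw [eval₂_map]
      exact hfb
    obtain ⟨y, hy⟩ := IsIntegrallyClosed.isIntegral_iff.mp hint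
    rw [← hy]
    exact y.2
  have h2 : (b : E) ≠ 0 := fun h => hb (Subtype.ext h)
  exact h1.resolve_left h2

end funfield

end Pool.Agent.V2
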