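import Mathlib

/-! CV3 (helper31): dimensions of the residue rings of the integral closure of `k[X]`, degree of
the norm. -/

namespace Pool.Agent.V2

open Polynomial

section general

variable {k : Type*} [Field k] {B : Type*} [CommRing B] [IsDedekindDomain B] [Algebra k B]
  [Algebra k[X] B] [IsScalarTower k k[X] B]

theorem cv3_fin {ι : Type*} [Finite ι] (bs : Module.Basis ι k[X] B) {I : Ideal B} (hI : I ≠ ⊥) :
    Module.Finite k (B ⧸ I) := by
  classical
  have := Fintype.ofFinite ι
  have e := Ideal.quotientEquivDirectSum k bs hI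
  have : Module.Finite k (DirectSum ι fun i => k[X] ⧸ Ideal.span {I.smithCoeffs bs hI i}) :=
    Module.Finite.equiv (DirectSum.linearEquivFunOnFintype k ι _).symm
  exact Module.Finite.equiv e.symm

omit [Algebra k[X] B] [IsScalarTower k k[X] B] in
theorem cv3_succ {p : Ideal B} [hp : p.IsPrime] (h0 : p ≠ ⊥)
    (hfin : ∀ I : Ideal B, I ≠ ⊥ → Module.Finite k (B ⧸ I)) (j : ℕ) :
    Module.finrank k (B ⧸ p ^ (j + 1)) =
      Module.finrank k (B ⧸ p ^ j) + Module.finrank k (B ⧸ p) := by
  have hne : ∀ i, p ^ i ≠ ⊥ := fun i => pow_ne_zero i h0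
  obtain ⟨a, ha, ha'⟩ : ∃ a ∈ p ^ j, a ∉ p ^ (j + 1) :=
    Set.exists_of_ssubset (Ideal.pow_succ_lt_pow h0 j)
  have hle : p ^ (j + 1) ≤ p ^ j := Ideal.pow_le_pow_right (Nat.le_succ j)
  -- the projection
  let ψ : (B ⧸ p ^ (j + 1)) →ₗ[k] (B ⧸ p ^ j) := (Ideal.Quotient.factorₐ k hle).toLinearMap
  have hψ : Function.Surjective ψ := Ideal.Quotient.factor_surjective hle
  -- multiplication by `a`
  let φ0 : B →ₗ[k] (B ⧸ p ^ (j + 1)) :=
    (Ideal.Quotient.mkₐ k (p ^ (j + 1))).toLinearMap ∘ₗ LinearMap.mulLeft k a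
  have hφ0 : ∀ x, φ0 x = 0 ↔ x ∈ p := by
    intro x
    have h1 : φ0 x = Ideal.Quotient.mk (p ^ (j + 1)) (a * x) := rfl
    rw [h1, Ideal.Quotient.eq_zero_iff_mem]
    constructor
    · exact Ideal.mem_prime_of_mul_mem_pow h0 ha'
    · intro hx
      rw [pow_succ]
      exact Ideal.mul_mem_mul ha hx
  have hker : LinearMap.ker ψ = LinearMap.range φ0 := by
    ext y
    obtain ⟨c, rfl⟩ := Ideal.Quotient.mk_surjective y
    rw [LinearMap.mem_ker, LinearMap.mem_range]
    have h2 : ψ (Ideal.Quotient.mk (p ^ (j + 1)) c) = Ideal.Quotient.mk (p ^ j) c := rfl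
    rw [h2, Ideal.Quotient.eq_zero_iff_mem]
    constructor
    · intro hc
      obtain ⟨d, e, he, hde⟩ := Ideal.exists_mul_add_mem_pow_succ h0 a c ha ha' hc
      refine ⟨d, ?_⟩
      have h3 : φ0 d = Ideal.Quotient.mk (p ^ (j + 1)) (a * d) := rfl
      rw [h3, Ideal.Quotient.eq, ← hde]
      have : a * d - (a * d + e) = -e := by ring
      rw [this]
      exact neg_mem he
    · rintro ⟨d, hd⟩
      have h3 : φ0 d = Ideal.Quotient.mk (p ^ (j + 1)) (a * d) := rfl
      rw [h3, Ideal.Quotient.eq] at hd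
      have h4 := hle hd
      have h5 : a * d ∈ p ^ j := Ideal.mul_mem_right d _ ha
      have h6 : c = a * d - (a * d - c) := by ring
      rw [h6]
      exact Ideal.sub_mem _ h5 h4
  have hfi := hfin _ (hne (j + 1))
  have hr := LinearMap.finrank_range_add_finrank_ker ψ
  rw [LinearMap.range_eq_top.2 hψ, finrank_top, hker] at hr
  rw [← hr]
  congr 1
  -- range of `φ0` is isomorphic to `B / p`
  have e1 : (B ⧸ LinearMap.ker φ0) ≃ₗ[k] LinearMap.range φ0 := φ0.quotKerEquivRange
  have hk : LinearMap.ker φ0 = p.restrictScalars k := by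
    ext x
    rw [LinearMap.mem_ker, hφ0]
    rfl
  rw [← e1.finrank_eq, hk]
  rfl

omit [Algebra k[X] B] [IsScalarTower k k[X] B] in
theorem cv3_mul {p : Ideal B} [hp : p.IsPrime] (h0 : p ≠ ⊥)
    (hfin : ∀ I : Ideal B, I ≠ ⊥ → Module.Finite k (B ⧸ I)) (j : ℕ) :
    Module.finrank k (B ⧸ p ^ j) = j * Module.finrank k (B ⧸ p) := by
  induction j with
  | zero =>
    rw [pow_zero, Ideal.one_eq_top, zero_mul]
    have : Subsingleton (B ⧸ (⊤ : Ideal B)) := Ideal.Quotient.subsingleton_iff.2 rfl
    exact Module.finrank_zero_of_subsingleton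
  | succ j ih =>
    rw [cv3_succ h0 hfin j, ih]
    ring

omit [IsDedekindDomain B] [Algebra k[X] B] [IsScalarTower k k[X] B] in
theorem cv3_le {I J : Ideal B} (h : I ≤ J) (hfin : Module.Finite k (B ⧸ I)) :
    Module.finrank k (B ⧸ J) ≤ Module.finrank k (B ⧸ I) :=
  LinearMap.finrank_le_finrank_of_surjective (f := (Ideal.Quotient.factorₐ k h).toLinearMap)
    (Ideal.Quotient.factor_surjective h)

omit [IsDedekindDomain B] [Algebra k[X] B] [IsScalarTower k k[X] B] in
theorem cv3_crt {I J K : Ideal B} (hI : K ≤ I) (hJ : K ≤ J) (hcop : IsCoprime I J)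
    (hK : Module.Finite k (B ⧸ K)) (f1 : Module.Finite k (B ⧸ I)) (f2 : Module.Finite k (B ⧸ J)) :
    Module.finrank k (B ⧸ I) + Module.finrank k (B ⧸ J) ≤ Module.finrank k (B ⧸ K) := by
  let φ : (B ⧸ K) →ₗ[k] (B ⧸ I) × (B ⧸ J) :=
    LinearMap.prod (Ideal.Quotient.factorₐ k hI).toLinearMap
      (Ideal.Quotient.factorₐ k hJ).toLinearMap
  have hφ : Function.Surjective φ := by
    rintro ⟨x, y⟩
    obtain ⟨x, rfl⟩ := Ideal.Quotient.mk_surjective x
    obtain ⟨y, rfl⟩ := Ideal.Quotient.mk_surjective y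
    obtain ⟨u, hu, v, hv, huv⟩ := Ideal.isCoprime_iff_exists.1 hcop
    refine ⟨Ideal.Quotient.mk _ (x * v + y * u), ?_⟩
    have e1 : φ (Ideal.Quotient.mk _ (x * v + y * u)) =
      (Ideal.Quotient.mk _ (x * v + y * u), Ideal.Quotient.mk _ (x * v + y * u)) := rfl
    rw [e1, Prod.mk.injEq, Ideal.Quotient.eq, Ideal.Quotient.eq]
    constructor
    · have : x * v + y * u - x = (y - x) * u := by linear_combination x * huv
      rw [this]
      exact Ideal.mul_mem_left _ _ hu
    · have : x * v + y * u - y = (x - y) * v := by linear_combination y * huv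
      rw [this]
      exact Ideal.mul_mem_left _ _ hv
  rw [← Module.finrank_prod]
  exact LinearMap.finrank_le_finrank_of_surjective hφ

end general

section funfield

variable (k : Type*) [Field k] [CharZero k]
variable (E : Type*) [Field E] [Algebra k E] [Algebra k[X] E] [IsScalarTower k k[X] E]
  [Algebra (RatFunc k) E] [IsScalarTower k[X] (RatFunc k) E] [FiniteDimensional (RatFunc k) E]

omit [Algebra k E] [IsScalarTower k k[X] E] in
theorem cv3_setup : IsDedekindDomain (integralClosure k[X] E) ∧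
    Module.Finite k[X] (integralClosure k[X] E) ∧ Module.Free k[X] (integralClosure k[X] E) ∧
    Algebra.IsSeparable (RatFunc k) E := by
  have : CharZero (RatFunc k) := charZero_of_injective_algebraMap
    (algebraMap k (RatFunc k)).injective
  have h1 : IsDedekindDomain (integralClosure k[X] E) :=
    integralClosure.isDedekindDomain k[X] (RatFunc k) E
  have h2 : Module.Finite k[X] (integralClosure k[X] E) :=
    IsIntegralClosure.finite k[X] (RatFunc k) E (integralClosure k[X] E)
  have hinj : Function.Injective (algebraMap k[X] E) := by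
    rw [IsScalarTower.algebraMap_eq k[X] (RatFunc k) E]
    exact (algebraMap (RatFunc k) E).injective.comp (IsFractionRing.injective k[X] (RatFunc k))
  have h3' : FaithfulSMul k[X] E := (faithfulSMul_iff_algebraMap_injective _ _).2 hinj
  have h3 : Module.IsTorsionFree k[X] E := inferInstance
  have h4 : Module.Free k[X] (integralClosure k[X] E) :=
    IsIntegralClosure.module_free k[X] (RatFunc k) E (integralClosure k[X] E)
  exact ⟨h1, h2, h4, inferInstance⟩

theorem cv3_finquot (I : Ideal (integralClosure k[X] E)) (hI : I ≠ ⊥) :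
    Module.Finite k (integralClosure k[X] E ⧸ I) := by
  obtain ⟨h1, h2, h3, h4⟩ := cv3_setup k E
  exact cv3_fin (Module.Free.chooseBasis k[X] (integralClosure k[X] E)) hI

/-- CV3. Dimensions of the residue rings. -/
theorem residue_dim (p : Ideal (integralClosure k[X] E)) (hp : p.IsPrime) (h0 : p ≠ ⊥) :
    0 < Module.finrank k (integralClosure k[X] E ⧸ p) ∧
    ∀ j : ℕ, Module.Finite k (integralClosure k[X] E ⧸ p ^ j) ∧
      Module.finrank k (integralClosure k[X] E ⧸ p ^ j) =
        j * Module.finrank k (integralClosure k[X] E ⧸ p) := by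
  obtain ⟨h1, h2, h3, h4⟩ := cv3_setup k E
  have h5 := cv3_finquot k E p h0
  have h6 : Nontrivial (integralClosure k[X] E ⧸ p) := Ideal.Quotient.nontrivial_iff.2 hp.ne_top
  refine ⟨Module.finrank_pos, fun j => ⟨cv3_finquot k E _ (pow_ne_zero j h0), ?_⟩⟩
  exact cv3_mul h0 (cv3_finquot k E) j

/-- CV3'. Degree of the norm. -/
theorem norm_dim (b : integralClosure k[X] E) (hb : b ≠ 0)
    (p q : Ideal (integralClosure k[X] E)) (hp : p.IsPrime) (h0 : p ≠ ⊥) (hq : q.IsPrime)
    (h0' : q ≠ ⊥) (i j : ℕ) (hi : b ∈ p ^ i) (hj : b ∈ q ^ j) :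
    i * Module.finrank k (integralClosure k[X] E ⧸ p) ≤
      (Algebra.norm (RatFunc k) (b : E)).num.natDegree ∧
    (p ≠ q → i * Module.finrank k (integralClosure k[X] E ⧸ p) +
      j * Module.finrank k (integralClosure k[X] E ⧸ q) ≤
        (Algebra.norm (RatFunc k) (b : E)).num.natDegree) := by
  obtain ⟨h1, h2, h3, h4⟩ := cv3_setup k E
  have hloc : IsLocalization (Algebra.algebraMapSubmonoid (integralClosure k[X] E) (nonZeroDivisors k[X])) E :=
    IsIntegralClosure.isLocalization k[X] (RatFunc k) E (integralClosure k[X] E)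
  have hnorm : Algebra.norm (RatFunc k) (b : E) =
      algebraMap k[X] (RatFunc k) (Algebra.norm k[X] b) :=
    Algebra.norm_localization k[X] (nonZeroDivisors k[X]) b
  have hdeg : (Algebra.norm (RatFunc k) (b : E)).num.natDegree =
      Module.finrank k (integralClosure k[X] E ⧸ Ideal.span {b}) := by
    rw [hnorm, RatFunc.num_algebraMap]
    exact (finrank_quotient_span_eq_natDegree_norm
      (Module.Free.chooseBasis k[X] (integralClosure k[X] E)) hb).symm
  have hspan : Ideal.span {b} ≠ ⊥ := by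
    rw [Ne, Ideal.span_singleton_eq_bot]
    exact hb
  have hfb := cv3_finquot k E _ hspan
  rw [hdeg, ← ((residue_dim k E p hp h0).2 i).2, ← ((residue_dim k E q hq h0').2 j).2]
  have hsi : Ideal.span {b} ≤ p ^ i := (Ideal.span_singleton_le_iff_mem _).2 hi
  have hsj : Ideal.span {b} ≤ q ^ j := (Ideal.span_singleton_le_iff_mem _).2 hj
  refine ⟨cv3_le hsi hfb, fun hpq => ?_⟩
  have hcop : IsCoprime (p ^ i) (q ^ j) := by
    apply IsCoprime.pow
    have m1 : p.IsMaximal := hp.isMaximal h0
    have m2 : q.IsMaximal := hq.isMaximal h0'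
    rw [Ideal.isCoprime_iff_sup_eq]
    exact m1.coprime_of_ne m2 hpq
  exact cv3_crt hsi hsj hcop hfb (cv3_finquot k E _ (pow_ne_zero i h0))
    (cv3_finquot k E _ (pow_ne_zero j h0'))

end funfield

end Pool.Agent.V2
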