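import Pool.Agent.Helper21.V2.Defs2

/-!
# Block CV5: the function field of a plane curve
-/

namespace Pool.Agent.V2

open MvPolynomial

set_option linter.unusedVariables false

section alg

variable {k : Type*} [Field k]

/-! ### Dehomogenisation -/

theorem cv5_deh_mul (s t : MvPolynomial (Fin 3) k) : deh (s * t) = deh s * deh t := by
  unfold deh; exact map_mul _ _ _

theorem cv5_deh_add (s t : MvPolynomial (Fin 3) k) : deh (s + t) = deh s + deh t := by
  unfold deh; exact map_add _ _ _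

theorem cv5_deh_sub (s t : MvPolynomial (Fin 3) k) : deh (s - t) = deh s - deh t := by
  unfold deh; exact map_sub _ _ _

theorem cv5_deh_pow (s : MvPolynomial (Fin 3) k) (n : ℕ) : deh (s ^ n) = deh s ^ n := by
  unfold deh; exact map_pow _ _ _

theorem cv5_deh_zero : deh (0 : MvPolynomial (Fin 3) k) = 0 := by
  unfold deh; exact map_zero _

theorem cv5_deh_X0 : deh (X 0 : MvPolynomial (Fin 3) k) = Polynomial.C Polynomial.X := by
  unfold deh; rw [aeval_X]; rfl

theorem cv5_deh_X1 : deh (X 1 : MvPolynomial (Fin 3) k) = Polynomial.X := by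
  unfold deh; rw [aeval_X]; rfl

theorem cv5_deh_X2 : deh (X 2 : MvPolynomial (Fin 3) k) = 1 := by
  unfold deh; rw [aeval_X]; rfl

theorem cv5_deh_C (c : k) :
    deh (C c : MvPolynomial (Fin 3) k) = Polynomial.C (Polynomial.C c) := by
  unfold deh; rw [aeval_C]; rfl

/-- coefficients of the dehomogenisation -/
theorem cv5_coeff_deh (s : MvPolynomial (Fin 3) k) (i j : ℕ) :
    ((deh s).coeff j).coeff i =
      ∑ d ∈ s.support.filter (fun d => d 0 = i ∧ d 1 = j), s.coeff d := by
  classical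
  conv_lhs => rw [deh, aeval_def, eval₂_eq']
  rw [Polynomial.finsetSum_coeff, Polynomial.finsetSum_coeff, Finset.sum_filter]
  refine Finset.sum_congr rfl (fun d _ => ?_)
  rw [Fin.prod_univ_three]
  simp only [Matrix.cons_val_zero, Matrix.cons_val_one, Matrix.cons_val_two, Matrix.head_cons,
    Matrix.tail_cons, one_pow, mul_one]
  have h1 : (algebraMap k (Polynomial (Polynomial k))) (coeff d s) *
      (Polynomial.C Polynomial.X ^ d 0 * Polynomial.X ^ d 1) =
      Polynomial.C (Polynomial.C (coeff d s) * Polynomial.X ^ d 0) * Polynomial.X ^ d 1 := by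
    rw [Polynomial.C_mul, Polynomial.C_pow, mul_assoc]
    rfl
  rw [h1, Polynomial.coeff_C_mul_X_pow]
  split_ifs with h3 h4 h4
  · rw [Polynomial.coeff_C_mul_X_pow, if_pos h4.1.symm]
  · rw [Polynomial.coeff_C_mul_X_pow, if_neg]
    intro h5
    exact h4 ⟨h5.symm, h3.symm⟩
  · exact absurd h4.2.symm h3
  · exact Polynomial.coeff_zero _

theorem cv5_sum3 (d : Fin 3 →₀ ℕ) : d.degree = d 0 + d 1 + d 2 := by
  rw [Finsupp.degree_eq_sum, Fin.sum_univ_three]

theorem cv5_degree {s : MvPolynomial (Fin 3) k} {N : ℕ} (hs : s.IsHomogeneous N)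
    {d : Fin 3 →₀ ℕ} (hd : d ∈ s.support) : d 0 + d 1 + d 2 = N := by
  rw [← cv5_sum3]
  have := hs (mem_support_iff.1 hd)
  rw [← this]
  exact (Finsupp.degree_eq_weight_one (R := ℕ) ▸ rfl)

/-- the coefficient at a monomial of the right degree -/
theorem cv5_coeff_deh_hom {s : MvPolynomial (Fin 3) k} {N : ℕ} (hs : s.IsHomogeneous N)
    (d : Fin 3 →₀ ℕ) (hd : d 0 + d 1 + d 2 = N) :
    ((deh s).coeff (d 1)).coeff (d 0) = s.coeff d := by
  classical
  rw [cv5_coeff_deh]
  by_cases h0 : d ∈ s.support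
  · rw [Finset.sum_eq_single d]
    · intro e he hed
      exfalso
      apply hed
      have he := Finset.mem_filter.1 he
      have h1 := cv5_degree hs he.1
      ext i
      fin_cases i
      · exact he.2.1
      · exact he.2.2
      · show e 2 = d 2
        have h2 := he.2.1
        have h3 := he.2.2
        omega
    · intro hn
      exact absurd (Finset.mem_filter.2 ⟨h0, rfl, rfl⟩) hn
  · rw [notMem_support_iff.1 h0]
    refine Finset.sum_eq_zero (fun e he => ?_)
    exfalso
    apply h0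
    have he := Finset.mem_filter.1 he
    have h1 := cv5_degree hs he.1
    have : e = d := by
      ext i
      fin_cases i
      · exact he.2.1
      · exact he.2.2
      · show e 2 = d 2
        have h2 := he.2.1
        have h3 := he.2.2
        omega
    rw [← this]
    exact he.1

theorem cv5_deh_inj {s t : MvPolynomial (Fin 3) k} {N : ℕ} (hs : s.IsHomogeneous N)
    (ht : t.IsHomogeneous N) (h : deh s = deh t) : s = t := by
  rw [← sub_eq_zero]
  have hst : (s - t).IsHomogeneous N := hs.sub ht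
  have h0 : deh (s - t) = 0 := by rw [cv5_deh_sub, h, sub_self]
  ext d
  by_cases hd : d ∈ (s - t).support
  · have h1 := cv5_degree hst hd
    rw [← cv5_coeff_deh_hom hst d h1, h0]
    simp
  · rw [notMem_support_iff.1 hd, coeff_zero]

/-- homogenisation -/
theorem cv5_exists_hom (a : Polynomial (Polynomial k)) :
    ∃ D0 : ℕ, ∀ D, D0 ≤ D → ∃ g : MvPolynomial (Fin 3) k, g.IsHomogeneous D ∧ deh g = a := by
  induction a using Polynomial.induction_on' with
  | add p q hp hq =>
    obtain ⟨D1, h1⟩ := hp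
    obtain ⟨D2, h2⟩ := hq
    refine ⟨max D1 D2, fun D hD => ?_⟩
    obtain ⟨g1, hg1, e1⟩ := h1 D (le_trans (le_max_left _ _) hD)
    obtain ⟨g2, hg2, e2⟩ := h2 D (le_trans (le_max_right _ _) hD)
    exact ⟨g1 + g2, hg1.add hg2, by rw [cv5_deh_add, e1, e2]⟩
  | monomial j b =>
    induction b using Polynomial.induction_on' with
    | add p q hp hq =>
      obtain ⟨D1, h1⟩ := hp
      obtain ⟨D2, h2⟩ := hq
      refine ⟨max D1 D2, fun D hD => ?_⟩
      obtain ⟨g1, hg1, e1⟩ := h1 D (le_trans (le_max_left _ _) hD)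
      obtain ⟨g2, hg2, e2⟩ := h2 D (le_trans (le_max_right _ _) hD)
      exact ⟨g1 + g2, hg1.add hg2, by rw [cv5_deh_add, e1, e2, map_add]⟩
    | monomial i c =>
      refine ⟨i + j, fun D hD => ⟨C c * X 0 ^ i * X 1 ^ j * X 2 ^ (D - i - j), ?_, ?_⟩⟩
      · have h1 : (C c * X 0 ^ i * X 1 ^ j * X 2 ^ (D - i - j) :
            MvPolynomial (Fin 3) k).IsHomogeneous (0 + i + j + (D - i - j)) :=
          (((isHomogeneous_C _ _).mul (isHomogeneous_X_pow _ _)).mul
            (isHomogeneous_X_pow _ _)).mul (isHomogeneous_X_pow _ _)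
        convert h1 using 1
        omega
      · rw [cv5_deh_mul, cv5_deh_mul, cv5_deh_mul, cv5_deh_pow, cv5_deh_pow, cv5_deh_pow,
          cv5_deh_X0, cv5_deh_X1, cv5_deh_X2, cv5_deh_C, one_pow, mul_one,
          ← Polynomial.C_mul_X_pow_eq_monomial, ← Polynomial.C_mul_X_pow_eq_monomial,
          Polynomial.C_mul, Polynomial.C_pow]

/-! ### The curve -/

theorem cv5_coeff_top {f : MvPolynomial (Fin 3) k} {δ : ℕ} (hδ : f.IsHomogeneous δ) :
    (deh f).coeff δ = Polynomial.C (f.coeff (Finsupp.single 1 δ)) := by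
  classical
  ext i
  rw [Polynomial.coeff_C]
  split_ifs with h
  · subst h
    have h1 := cv5_coeff_deh_hom hδ (Finsupp.single 1 δ) (by simp)
    simpa using h1
  · rw [cv5_coeff_deh]
    refine Finset.sum_eq_zero (fun d hd => ?_)
    exfalso
    have hd := Finset.mem_filter.1 hd
    have h1 := cv5_degree hδ hd.1
    have h2 := hd.2.1
    have h3 := hd.2.2
    omega

theorem cv5_natDegree_le {f : MvPolynomial (Fin 3) k} {δ : ℕ} (hδ : f.IsHomogeneous δ) :
    (deh f).natDegree ≤ δ := by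
  classical
  rw [Polynomial.natDegree_le_iff_coeff_eq_zero]
  intro j hj
  ext i
  rw [cv5_coeff_deh, Polynomial.coeff_zero]
  refine Finset.sum_eq_zero (fun d hd => ?_)
  exfalso
  have hd := Finset.mem_filter.1 hd
  have h1 := cv5_degree hδ hd.1
  have h3 := hd.2.2
  omega

theorem cv5_natDegree {f : MvPolynomial (Fin 3) k} {δ : ℕ} (hδ : f.IsHomogeneous δ)
    (hc : f.coeff (Finsupp.single 1 δ) ≠ 0) : (deh f).natDegree = δ := by
  refine le_antisymm (cv5_natDegree_le hδ) (Polynomial.le_natDegree_of_ne_zero ?_)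
  rw [cv5_coeff_top hδ]
  simpa using hc

theorem cv5_isPrimitive {f : MvPolynomial (Fin 3) k} {δ : ℕ} (hδ : f.IsHomogeneous δ)
    (hc : f.coeff (Finsupp.single 1 δ) ≠ 0) : (deh f).IsPrimitive := by
  intro r hr
  rw [Polynomial.C_dvd_iff_dvd_coeff] at hr
  have h1 := hr δ
  rw [cv5_coeff_top hδ] at h1
  exact isUnit_of_dvd_unit h1 (Polynomial.isUnit_C.2 (isUnit_iff_ne_zero.2 hc))

theorem cv5_not_dvd_X2 {f : MvPolynomial (Fin 3) k} (hf : Irreducible f) {δ : ℕ}
    (hδ : f.IsHomogeneous δ) (h1 : 1 ≤ δ) (hc : f.coeff (Finsupp.single 1 δ) ≠ 0) (e : ℕ) :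
    ¬ f ∣ X 2 ^ e := by
  intro h
  obtain ⟨g, hg⟩ := h
  have h2 : deh f * deh g = 1 := by
    rw [← cv5_deh_mul, ← hg, cv5_deh_pow, cv5_deh_X2, one_pow]
  have h3 : IsUnit (deh f) := IsUnit.of_mul_eq_one _ h2
  have h4 := Polynomial.natDegree_eq_zero_of_isUnit h3
  rw [cv5_natDegree hδ hc] at h4
  omega

theorem cv5_dvd_of_deh {f : MvPolynomial (Fin 3) k} (hf : Irreducible f) {δ : ℕ}
    (hδ : f.IsHomogeneous δ) (h1 : 1 ≤ δ) (hc : f.coeff (Finsupp.single 1 δ) ≠ 0)
    {s : MvPolynomial (Fin 3) k} {N : ℕ} (hs : s.IsHomogeneous N) (h : deh f ∣ deh s) :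
    f ∣ s := by
  obtain ⟨a, ha⟩ := h
  obtain ⟨D0, hD⟩ := cv5_exists_hom a
  obtain ⟨g, hg, hga⟩ := hD (max D0 N) (le_max_left _ _)
  have h2 : X 2 ^ (δ + max D0 N - N) * s = f * g := by
    refine cv5_deh_inj (N := δ + max D0 N) ?_ (hδ.mul hg) ?_
    · have h3 : (X 2 ^ (δ + max D0 N - N) * s).IsHomogeneous (δ + max D0 N - N + N) :=
        (isHomogeneous_X_pow _ _).mul hs
      convert h3 using 1
      have := le_max_right D0 N
      omega
    · rw [cv5_deh_mul, cv5_deh_pow, cv5_deh_X2, one_pow, one_mul, cv5_deh_mul, ha, hga]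
  have h3 : f ∣ X 2 ^ (δ + max D0 N - N) * s := ⟨g, h2⟩
  rcases hf.prime.dvd_or_dvd h3 with h4 | h4
  · exact absurd h4 (cv5_not_dvd_X2 hf hδ h1 hc _)
  · exact h4

theorem cv5_irreducible {f : MvPolynomial (Fin 3) k} (hf : Irreducible f) {δ : ℕ}
    (hδ : f.IsHomogeneous δ) (h1 : 1 ≤ δ) (hc : f.coeff (Finsupp.single 1 δ) ≠ 0) :
    Irreducible (deh f) := by
  have hne : deh f ≠ 0 := by
    intro h0
    have := cv5_natDegree hδ hc
    rw [h0, Polynomial.natDegree_zero] at this
    omega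
  refine ⟨?_, ?_⟩
  · intro hu
    have h4 := Polynomial.natDegree_eq_zero_of_isUnit hu
    rw [cv5_natDegree hδ hc] at h4
    omega
  · intro a b hab
    obtain ⟨Da, hDa⟩ := cv5_exists_hom a
    obtain ⟨Db, hDb⟩ := cv5_exists_hom b
    obtain ⟨a', ha', ea⟩ := hDa (max Da δ) (le_max_left _ _)
    obtain ⟨b', hb', eb⟩ := hDb Db le_rfl
    have h2 : X 2 ^ (max Da δ + Db - δ) * f = a' * b' := by
      refine cv5_deh_inj (N := max Da δ + Db) ?_ (ha'.mul hb') ?_
      · have h3 : (X 2 ^ (max Da δ + Db - δ) * f).IsHomogeneous (max Da δ + Db - δ + δ) :=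
          (isHomogeneous_X_pow _ _).mul hδ
        convert h3 using 1
        have := le_max_right Da δ
        omega
      · rw [cv5_deh_mul, cv5_deh_pow, cv5_deh_X2, one_pow, one_mul, cv5_deh_mul, ea, eb, hab]
    have h3 : f ∣ a' * b' := ⟨X 2 ^ (max Da δ + Db - δ), by rw [← h2, mul_comm]⟩
    have ha0 : a ≠ 0 := by rintro rfl; rw [zero_mul] at hab; exact hne hab
    have hb0 : b ≠ 0 := by rintro rfl; rw [mul_zero] at hab; exact hne hab
    rcases hf.prime.dvd_or_dvd h3 with ⟨g, hg⟩ | ⟨g, hg⟩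
    · right
      have h4 : a * (b * deh g) = a * 1 := by
        rw [mul_one, ← mul_assoc, ← hab, ← cv5_deh_mul, ← hg, ea]
      exact IsUnit.of_mul_eq_one _ (mul_left_cancel₀ ha0 h4)
    · left
      have h4 : b * (a * deh g) = b * 1 := by
        rw [mul_one, ← mul_assoc, mul_comm b a, ← hab, ← cv5_deh_mul, ← hg, eb]
      exact IsUnit.of_mul_eq_one _ (mul_left_cancel₀ hb0 h4)

end alg

section alg0

variable {k : Type*} [Field k] [CharZero k]

/-- CV5. The function field of the curve. -/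
theorem curve_field {f : MvPolynomial (Fin 3) k} (hf : Irreducible f) {δ : ℕ}
    (hδ : f.IsHomogeneous δ) (h1 : 1 ≤ δ) (hc : f.coeff (Finsupp.single 1 δ) ≠ 0) :
    Irreducible ((deh f).map (algebraMap (Polynomial k) (RatFunc k))) ∧
      ((deh f).map (algebraMap (Polynomial k) (RatFunc k))).natDegree = δ ∧
      ∀ s N, MvPolynomial.IsHomogeneous s N → (f ∣ s ↔
        (deh f).map (algebraMap (Polynomial k) (RatFunc k)) ∣
          (deh s).map (algebraMap (Polynomial k) (RatFunc k))) := by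
  classical
  have hprim := cv5_isPrimitive hδ hc
  refine ⟨?_, ?_, ?_⟩
  · exact (hprim.irreducible_iff_irreducible_map_fraction_map (K := RatFunc k)).1
      (cv5_irreducible hf hδ h1 hc)
  · rw [Polynomial.natDegree_map_eq_of_injective
      (IsFractionRing.injective (Polynomial k) (RatFunc k)), cv5_natDegree hδ hc]
  · intro s N hs
    constructor
    · rintro ⟨g, rfl⟩
      rw [cv5_deh_mul, Polynomial.map_mul]
      exact dvd_mul_right _ _
    · intro h
      exact cv5_dvd_of_deh hf hδ h1 hc hs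
        (hprim.dvd_of_fraction_map_dvd_fraction_map (K := RatFunc k) h)

end alg0

end Pool.Agent.V2
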