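import Pool.Agent.Helper21.V2.Defs2
import Pool.Agent.Helper21.V2.CV1
import Pool.Agent.Helper21.V2.CV2
import Pool.Agent.Helper21.V2.CV3
import Pool.Agent.Helper21.V2.CV5
import Pool.Agent.Helper38.V2.CV4

/-!
# Block CV6: Bezout inequality for places of a plane curve in normal position
-/

namespace Pool.Agent.V2

open MvPolynomial

set_option linter.unusedVariables false
set_option linter.unusedSectionVars false

section alg

variable {k : Type*} [Field k] [CharZero k]

/-! ### extension of the valuation to the function field -/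

theorem CV6.w_pow {f : MvPolynomial (Fin 3) k} {w : MvPolynomial (Fin 3) k → ℝ}
    (hw : GV (fun s => f ∣ s) w) (h2 : w (X 2) = 0) {E : Type*} [Field E] [Algebra k E]
    (img : MvPolynomial (Fin 3) k →ₐ[k] E) (himg2 : img (X 2) = 1)
    (hker : ∀ s N, MvPolynomial.IsHomogeneous s N → (img s = 0 ↔ f ∣ s)) (s) (N : ℕ)
    (hs : MvPolynomial.IsHomogeneous s N) (hfs : ¬ f ∣ s) (n : ℕ) :
    (s * X 2 ^ n).IsHomogeneous (N + n) ∧ img (s * X 2 ^ n) = img s ∧ ¬ f ∣ s * X 2 ^ n ∧
      w (s * X 2 ^ n) = w s := by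
  have hX2 : ¬ f ∣ (X 2 : MvPolynomial (Fin 3) k) := by
    rw [← hker _ 1 (isHomogeneous_X _ _), himg2]
    exact one_ne_zero
  induction n with
  | zero => simpa using ⟨hs, hfs⟩
  | succ n ih =>
    obtain ⟨i1, i2, i3, i4⟩ := ih
    have e : s * X 2 ^ (n + 1) = (s * X 2 ^ n) * X 2 := by ring
    have e1 : (s * X 2 ^ (n + 1)).IsHomogeneous (N + (n + 1)) := by
      rw [e]
      exact i1.mul (isHomogeneous_X _ _)
    have e2 : img (s * X 2 ^ (n + 1)) = img s := by
      rw [e, map_mul, i2, himg2, mul_one]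
    have e3 : ¬ f ∣ s * X 2 ^ (n + 1) := by
      rw [← hker _ _ e1, e2, hker _ _ hs]
      exact hfs
    refine ⟨e1, e2, e3, ?_⟩
    rw [e, hw.mul _ _ _ _ i1 (isHomogeneous_X _ 2) i3 hX2, i4, h2, add_zero]

theorem CV6.w_eq {f : MvPolynomial (Fin 3) k} {w : MvPolynomial (Fin 3) k → ℝ}
    (hw : GV (fun s => f ∣ s) w) (h2 : w (X 2) = 0) {E : Type*} [Field E] [Algebra k E]
    (img : MvPolynomial (Fin 3) k →ₐ[k] E) (himg2 : img (X 2) = 1)
    (hker : ∀ s N, MvPolynomial.IsHomogeneous s N → (img s = 0 ↔ f ∣ s)) (s s') (N N' : ℕ)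
    (hs : MvPolynomial.IsHomogeneous s N) (hs' : MvPolynomial.IsHomogeneous s' N')
    (hfs : ¬ f ∣ s) (hfs' : ¬ f ∣ s') (h : img s = img s') : w s = w s' := by
  obtain ⟨a1, a2, a3, a4⟩ := CV6.w_pow hw h2 img himg2 hker s N hs hfs N'
  obtain ⟨b1, b2, b3, b4⟩ := CV6.w_pow hw h2 img himg2 hker s' N' hs' hfs' N
  rw [add_comm] at b1
  have hd : f ∣ s * X 2 ^ N' - s' * X 2 ^ N := by
    rw [← hker _ _ (a1.sub b1), map_sub, a2, b2, h, sub_self]
  have := hw.congr (s' * X 2 ^ N) (s * X 2 ^ N' - s' * X 2 ^ N) (N + N') b1 (a1.sub b1) b3 hd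
  rw [add_sub_cancel] at this
  rw [← a4, ← b4, this]

theorem CV6.exists_val {f : MvPolynomial (Fin 3) k} {w : MvPolynomial (Fin 3) k → ℝ}
    (hw : GV (fun s => f ∣ s) w) (h2 : w (X 2) = 0) {E : Type*} [Field E] [Algebra k E]
    (img : MvPolynomial (Fin 3) k →ₐ[k] E) (himg2 : img (X 2) = 1)
    (hker : ∀ s N, MvPolynomial.IsHomogeneous s N → (img s = 0 ↔ f ∣ s))
    (hfrac : ∀ a : E, ∃ s r : MvPolynomial (Fin 3) k, ∃ N M : ℕ, s.IsHomogeneous N ∧
      r.IsHomogeneous M ∧ img r ≠ 0 ∧ a * img r = img s) :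
    ∃ ν : E → ℝ, (∀ a b : E, a ≠ 0 → b ≠ 0 → ν (a * b) = ν a + ν b) ∧
      (∀ a b : E, a ≠ 0 → b ≠ 0 → a + b ≠ 0 → min (ν a) (ν b) ≤ ν (a + b)) ∧
      (∀ c : k, c ≠ 0 → ν (algebraMap k E c) = 0) ∧
      (∀ s N, MvPolynomial.IsHomogeneous s N → ¬ f ∣ s → ν (img s) = w s) := by
  classical
  let R : E → ℝ → Prop := fun a x => ∃ s r : MvPolynomial (Fin 3) k, ∃ N M : ℕ,
    s.IsHomogeneous N ∧ r.IsHomogeneous M ∧ ¬ f ∣ s ∧ ¬ f ∣ r ∧ a * img r = img s ∧ x = w s - w r
  have hprod : ∀ s s' : MvPolynomial (Fin 3) k, ∀ N N' : ℕ, s.IsHomogeneous N →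
      s'.IsHomogeneous N' → ¬ f ∣ s → ¬ f ∣ s' → ¬ f ∣ s * s' := by
    intro s s' N N' hs hs' hfs hfs'
    rw [← hker _ _ (hs.mul hs'), map_mul]
    rw [← hker _ _ hs] at hfs
    rw [← hker _ _ hs'] at hfs'
    exact mul_ne_zero hfs hfs'
  have huniq : ∀ a x x', R a x → R a x' → x = x' := by
    rintro a x x' ⟨s, r, N, M, hs, hr, hfs, hfr, h, rfl⟩
      ⟨s', r', N', M', hs', hr', hfs', hfr', h', rfl⟩
    have e : img (s * r') = img (s' * r) := by
      rw [map_mul, map_mul, ← h, ← h']; ring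
    have := CV6.w_eq hw h2 img himg2 hker _ _ _ _ (hs.mul hr') (hs'.mul hr)
      (hprod _ _ _ _ hs hr' hfs hfr') (hprod _ _ _ _ hs' hr hfs' hfr) e
    rw [hw.mul _ _ _ _ hs hr' hfs hfr', hw.mul _ _ _ _ hs' hr hfs' hfr] at this
    linarith
  have hex : ∀ a, a ≠ 0 → ∃ x, R a x := by
    intro a ha
    obtain ⟨s, r, N, M, hs, hr, hr0, h⟩ := hfrac a
    refine ⟨w s - w r, s, r, N, M, hs, hr, ?_, ?_, h, rfl⟩
    · rw [← hker _ _ hs, ← h]
      exact mul_ne_zero ha hr0
    · rw [← hker _ _ hr]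
      exact hr0
  let ν : E → ℝ := fun a => if h : a ≠ 0 then Classical.choose (hex a h) else 0
  have hν : ∀ a, a ≠ 0 → ∀ x, R a x → ν a = x := by
    intro a ha x hx
    have h1 : ν a = Classical.choose (hex a ha) := dif_pos ha
    rw [h1]
    exact huniq a _ _ (Classical.choose_spec (hex a ha)) hx
  have hν' : ∀ a, a ≠ 0 → R a (ν a) := by
    intro a ha
    obtain ⟨x, hx⟩ := hex a ha
    rwa [hν a ha x hx]
  have hone : w 1 = 0 := by
    have := hw.const 1 one_ne_zero
    rwa [map_one] at this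
  have hf1 : ¬ f ∣ (1 : MvPolynomial (Fin 3) k) := by
    rw [← hker _ 0 (isHomogeneous_one _ _), map_one]
    exact one_ne_zero
  refine ⟨ν, ?_, ?_, ?_, ?_⟩
  · intro a b ha hb
    obtain ⟨s, r, N, M, hs, hr, hfs, hfr, h, hx⟩ := hν' a ha
    obtain ⟨s', r', N', M', hs', hr', hfs', hfr', h', hx'⟩ := hν' b hb
    apply hν _ (mul_ne_zero ha hb)
    refine ⟨s * s', r * r', _, _, hs.mul hs', hr.mul hr', hprod _ _ _ _ hs hs' hfs hfs',
      hprod _ _ _ _ hr hr' hfr hfr', ?_, ?_⟩
    · rw [map_mul, map_mul, ← h, ← h']; ring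
    · rw [hw.mul _ _ _ _ hs hs' hfs hfs', hw.mul _ _ _ _ hr hr' hfr hfr', hx, hx']; ring
  · intro a b ha hb hab
    obtain ⟨s, r, N, M, hs, hr, hfs, hfr, h, hx⟩ := hν' a ha
    obtain ⟨s', r', N', M', hs', hr', hfs', hfr', h', hx'⟩ := hν' b hb
    obtain ⟨a1, a2, a3, a4⟩ := CV6.w_pow hw h2 img himg2 hker _ _ (hs.mul hr')
      (hprod _ _ _ _ hs hr' hfs hfr') (N' + M)
    obtain ⟨b1, b2, b3, b4⟩ := CV6.w_pow hw h2 img himg2 hker _ _ (hs'.mul hr)
      (hprod _ _ _ _ hs' hr hfs' hfr) (N + M')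
    have hdeg : N' + M + (N + M') = N + M' + (N' + M) := by ring
    rw [hdeg] at b1
    have hsum : img (s * r' * X 2 ^ (N' + M) + s' * r * X 2 ^ (N + M')) =
        (a + b) * img (r * r') := by
      rw [map_add, a2, b2, map_mul, map_mul, map_mul, ← h, ← h']; ring
    have hr0 : img (r * r') ≠ 0 := by
      rw [Ne, hker _ _ (hr.mul hr')]
      exact hprod _ _ _ _ hr hr' hfr hfr'
    have hnd : ¬ f ∣ s * r' * X 2 ^ (N' + M) + s' * r * X 2 ^ (N + M') := by
      rw [← hker _ _ (a1.add b1), hsum]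
      exact mul_ne_zero hab hr0
    have hνab : ν (a + b) = w (s * r' * X 2 ^ (N' + M) + s' * r * X 2 ^ (N + M')) -
        w (r * r') := by
      apply hν _ hab
      exact ⟨_, _, _, _, a1.add b1, hr.mul hr', hnd, hprod _ _ _ _ hr hr' hfr hfr', hsum.symm, rfl⟩
    have hmin := hw.add _ _ _ a1 b1 a3 b3 hnd
    rw [a4, b4, hw.mul _ _ _ _ hs hr' hfs hfr', hw.mul _ _ _ _ hs' hr hfs' hfr] at hmin
    rw [hνab, hw.mul _ _ _ _ hr hr' hfr hfr', hx, hx']
    rcases min_le_iff.mp hmin with h3 | h3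
    · exact (min_le_left _ _).trans (by linarith)
    · exact (min_le_right _ _).trans (by linarith)
  · intro c hc
    have hc' : algebraMap k E c ≠ 0 := by
      rw [Ne, map_eq_zero_iff _ (algebraMap k E).injective]; exact hc
    have hfc : ¬ f ∣ (C c : MvPolynomial (Fin 3) k) := by
      rw [← hker _ 0 (isHomogeneous_C _ _)]
      have : img (C c) = algebraMap k E c := by
        rw [← MvPolynomial.algebraMap_eq, AlgHom.commutes]
      rw [this]; exact hc'
    apply hν _ hc'
    refine ⟨C c, 1, 0, 0, isHomogeneous_C _ _, isHomogeneous_one _ _, hfc, hf1, ?_, ?_⟩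
    · rw [map_one, mul_one, ← MvPolynomial.algebraMap_eq, AlgHom.commutes]
    · rw [hw.const c hc, hone, sub_zero]
  · intro s N hs hfs
    have h0 : img s ≠ 0 := by rw [Ne, hker _ _ hs]; exact hfs
    apply hν _ h0
    refine ⟨s, 1, N, 0, hs, isHomogeneous_one _ _, hfs, hf1, ?_, ?_⟩
    · rw [map_one, mul_one]
    · rw [hone, sub_zero]

end alg

section alg

variable {k : Type*} [Field k] [CharZero k]

/-! ### dimensions of spaces of homogeneous polynomials -/

/-- the homogeneous polynomials of degree `N` divisible by `f` -/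
noncomputable def CV6.D (f : MvPolynomial (Fin 3) k) (N : ℕ) :
    Submodule k (MvPolynomial (Fin 3) k) :=
  hs k N ⊓ (Ideal.span {f}).restrictScalars k

theorem CV6.mem_D {f s : MvPolynomial (Fin 3) k} {N : ℕ} :
    s ∈ CV6.D f N ↔ s.IsHomogeneous N ∧ f ∣ s := by
  unfold CV6.D
  rw [Submodule.mem_inf, Submodule.restrictScalars_mem, Ideal.mem_span_singleton,
    mem_homogeneousSubmodule]

/-- homogeneous quotient -/
theorem CV6.quot {f s : MvPolynomial (Fin 3) k} {δ N : ℕ} (hδ : f.IsHomogeneous δ)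
    (hs : s.IsHomogeneous (δ + N)) (h : f ∣ s) :
    ∃ g : MvPolynomial (Fin 3) k, g.IsHomogeneous N ∧ s = f * g := by
  let _ := MvPolynomial.gradedAlgebra (σ := Fin 3) (R := k)
  obtain ⟨g, rfl⟩ := h
  refine ⟨homogeneousComponent N g, homogeneousComponent_isHomogeneous N g, ?_⟩
  have h1 := DirectSum.coe_decompose_mul_add_of_left_mem (homogeneousSubmodule (Fin 3) k)
    (a := f) (b := g) (i := δ) (j := N) hδ
  have h2 : ∀ (p : MvPolynomial (Fin 3) k) (i : ℕ),
      ((DirectSum.decompose (homogeneousSubmodule (Fin 3) k) p) i : MvPolynomial (Fin 3) k) =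
        homogeneousComponent i p := fun p i => decomposition.decompose'_apply p i
  rw [h2, h2] at h1
  rw [← h1]
  exact (homogeneousComponent_eq_self hs).symm

theorem CV6.finrank_D {f : MvPolynomial (Fin 3) k} (hf0 : f ≠ 0) {δ : ℕ}
    (hδ : f.IsHomogeneous δ) (N : ℕ) :
    Module.finrank k (CV6.D f N) + δ * N ≤ Module.finrank k (hs k N) + δ ^ 2 := by
  have := finite_hs (k := k) N
  rw [finrank_hs]
  rcases lt_or_ge N δ with h | h
  · -- no nonzero multiples
    have h0 : CV6.D f N = ⊥ := by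
      rw [eq_bot_iff]
      intro s hs
      rw [CV6.mem_D] at hs
      rw [Submodule.mem_bot]
      obtain ⟨hs, g, rfl⟩ := hs
      by_contra hne
      have hg : g ≠ 0 := right_ne_zero_of_mul hne
      have h1 := hs.totalDegree hne
      have h2 : (f * g).totalDegree = f.totalDegree + g.totalDegree :=
        MvPolynomial.totalDegree_mul_of_isDomain hf0 hg
      have h3 := hδ.totalDegree hf0
      omega
    rw [h0, finrank_bot]
    nlinarith
  · obtain ⟨M, rfl⟩ := Nat.exists_eq_add_of_le h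
    have := finite_hs (k := k) M
    have hle : CV6.D f (δ + M) ≤ (hs k M).map (LinearMap.mulLeft k f) := by
      intro s hs
      rw [CV6.mem_D] at hs
      obtain ⟨g, hg, rfl⟩ := CV6.quot hδ hs.1 hs.2
      exact ⟨g, hg, rfl⟩
    have h1 : Module.finrank k (CV6.D f (δ + M)) ≤ Nat.choose (M + 2) 2 := by
      rw [← finrank_hs (k := k) M]
      exact (Submodule.finrank_mono hle).trans (Submodule.finrank_map_le _ _)
    refine (Nat.add_le_add_right h1 _).trans ?_
    rw [Nat.choose_two_right, Nat.choose_two_right]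
    have e1 : (M + 2) * (M + 2 - 1) = (M + 2) * (M + 1) := by congr 1
    have e2 : (δ + M + 2) * (δ + M + 2 - 1) = (δ + M + 2) * (δ + M + 1) := by congr 1
    rw [e1, e2]
    have h2 : 2 ∣ (M + 2) * (M + 1) := by
      have := Nat.even_mul_succ_self (M + 1)
      rw [mul_comm]
      exact this.two_dvd
    have h3 : 2 ∣ (δ + M + 2) * (δ + M + 1) := by
      have := Nat.even_mul_succ_self (δ + M + 1)
      rw [mul_comm]
      exact this.two_dvd
    obtain ⟨a, ha⟩ := h2
    obtain ⟨b, hb⟩ := h3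
    rw [ha, hb, Nat.mul_div_cancel_left _ two_pos, Nat.mul_div_cancel_left _ two_pos]
    nlinarith

end alg

section abs

open Polynomial in
/-- the image in the integral closure, as a linear map -/
noncomputable def CV6.imgB {k : Type*} [Field k] {E : Type*} [Field E] [Algebra k E]
    [Algebra (Polynomial k) E] [IsScalarTower k (Polynomial k) E]
    (img : MvPolynomial (Fin 3) k →ₐ[k] E) (hint : ∀ s, IsIntegral (Polynomial k) (img s)) :
    MvPolynomial (Fin 3) k →ₗ[k] integralClosure (Polynomial k) E where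
  toFun s := ⟨img s, hint s⟩
  map_add' s t := Subtype.ext (map_add img s t)
  map_smul' c s := Subtype.ext (map_smul img c s)

variable {k : Type*} [Field k] [CharZero k] {E : Type*} [Field E] [Algebra k E]
  [Algebra (Polynomial k) E] [IsScalarTower k (Polynomial k) E] [Algebra (RatFunc k) E]
  [IsScalarTower (Polynomial k) (RatFunc k) E] [FiniteDimensional (RatFunc k) E]

theorem CV6.place {f : MvPolynomial (Fin 3) k}
    (img : MvPolynomial (Fin 3) k →ₐ[k] E) (hint : ∀ s, IsIntegral (Polynomial k) (img s))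
    (himg2 : img (X 2) = 1) (hx : img (X 0) = algebraMap (Polynomial k) E Polynomial.X)
    (hker : ∀ s N, MvPolynomial.IsHomogeneous s N → (img s = 0 ↔ f ∣ s))
    (hfrac : ∀ a : E, ∃ s r : MvPolynomial (Fin 3) k, ∃ N M : ℕ, s.IsHomogeneous N ∧
      r.IsHomogeneous M ∧ img r ≠ 0 ∧ a * img r = img s)
    {w : MvPolynomial (Fin 3) k → ℝ} (hw : GV (fun s => f ∣ s) w) (h2 : w (X 2) = 0)
    (hnt : ∃ s N, MvPolynomial.IsHomogeneous s N ∧ ¬ f ∣ s ∧ 0 < w s) :
    ∃ (p : Ideal (integralClosure (Polynomial k) E)) (γ : ℝ), p.IsPrime ∧ p ≠ ⊥ ∧ 0 < γ ∧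
      ∀ s N, MvPolynomial.IsHomogeneous s N → ¬ f ∣ s →
        ∃ a : ℕ, w s = γ * a ∧ ∀ j : ℕ, CV6.imgB img hint s ∈ p ^ j ↔ j ≤ a := by
  obtain ⟨ν, ν1, ν2, ν3, ν4⟩ := CV6.exists_val hw h2 img himg2 hker hfrac
  have hX0 : ¬ f ∣ (X 0 : MvPolynomial (Fin 3) k) := by
    rw [← hker _ 1 (isHomogeneous_X _ _), hx]
    rw [IsScalarTower.algebraMap_apply (Polynomial k) (RatFunc k) E,
      map_eq_zero_iff _ (algebraMap (RatFunc k) E).injective,
      map_eq_zero_iff _ (IsFractionRing.injective (Polynomial k) (RatFunc k))]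
    exact Polynomial.X_ne_zero
  obtain ⟨p, γ, hp, hp0, hγ, hval⟩ := center k E ν ν1 ν2 ν3 (by
    rw [← hx, ν4 _ 1 (isHomogeneous_X _ _) hX0]
    exact hw.nonneg _ 1 (isHomogeneous_X _ _) hX0) (by
    obtain ⟨s, N, hs, hfs, hpos⟩ := hnt
    refine ⟨img s, ?_, ?_⟩
    · rw [Ne, hker _ _ hs]; exact hfs
    · rw [ν4 _ _ hs hfs]; exact hpos.ne')
  refine ⟨p, γ, hp, hp0, hγ, ?_⟩
  intro s N hs hfs
  have hb0 : CV6.imgB img hint s ≠ 0 := by
    intro h
    have : img s = 0 := congrArg Subtype.val h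
    rw [hker _ _ hs] at this
    exact hfs this
  obtain ⟨⟨a, ha⟩, hj⟩ := hval _ hb0
  have hνs : ν ((CV6.imgB img hint s : integralClosure (Polynomial k) E) : E) = w s :=
    ν4 s N hs hfs
  rw [hνs] at ha
  refine ⟨a, ha, fun j => ?_⟩
  rw [hj j, hνs, ha, mul_le_mul_iff_right₀ hγ]
  exact Nat.cast_le

end abs

section abs2

variable {k : Type*} [Field k] [CharZero k] {E : Type*} [Field E] [Algebra k E]
  [Algebra (Polynomial k) E] [IsScalarTower k (Polynomial k) E] [Algebra (RatFunc k) E]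
  [IsScalarTower (Polynomial k) (RatFunc k) E] [FiniteDimensional (RatFunc k) E]

/-- reduction modulo a power of `p` -/
noncomputable def CV6.Q (img : MvPolynomial (Fin 3) k →ₐ[k] E)
    (hint : ∀ s, IsIntegral (Polynomial k) (img s))
    (p : Ideal (integralClosure (Polynomial k) E)) (i : ℕ) :
    MvPolynomial (Fin 3) k →ₗ[k] (integralClosure (Polynomial k) E ⧸ p ^ i) :=
  (Ideal.Quotient.mkₐ k (p ^ i)).toLinearMap.comp (CV6.imgB img hint)

theorem CV6.Q_eq_zero (img : MvPolynomial (Fin 3) k →ₐ[k] E)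
    (hint : ∀ s, IsIntegral (Polynomial k) (img s))
    (p : Ideal (integralClosure (Polynomial k) E)) (i : ℕ) (s : MvPolynomial (Fin 3) k) :
    CV6.Q img hint p i s = 0 ↔ CV6.imgB img hint s ∈ p ^ i := by
  unfold CV6.Q
  rw [LinearMap.comp_apply]
  exact Ideal.Quotient.eq_zero_iff_mem

/-- homogeneous polynomials whose image lies in `p ^ i` -/
noncomputable def CV6.KK (img : MvPolynomial (Fin 3) k →ₐ[k] E)
    (hint : ∀ s, IsIntegral (Polynomial k) (img s))
    (p : Ideal (integralClosure (Polynomial k) E)) (i N : ℕ) :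
    Submodule k (MvPolynomial (Fin 3) k) := hs k N ⊓ LinearMap.ker (CV6.Q img hint p i)

theorem CV6.mem_KK (img : MvPolynomial (Fin 3) k →ₐ[k] E)
    (hint : ∀ s, IsIntegral (Polynomial k) (img s))
    (p : Ideal (integralClosure (Polynomial k) E)) (i N : ℕ) (s : MvPolynomial (Fin 3) k) :
    s ∈ CV6.KK img hint p i N ↔ s.IsHomogeneous N ∧ CV6.imgB img hint s ∈ p ^ i := by
  unfold CV6.KK
  rw [Submodule.mem_inf, mem_homogeneousSubmodule, LinearMap.mem_ker, CV6.Q_eq_zero]

theorem CV6.up (img : MvPolynomial (Fin 3) k →ₐ[k] E)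
    (hint : ∀ s, IsIntegral (Polynomial k) (img s))
    (p : Ideal (integralClosure (Polynomial k) E)) (hp : p.IsPrime) (hp0 : p ≠ ⊥) (i N : ℕ) :
    Module.finrank k (hs k N) ≤ Module.finrank k (CV6.KK img hint p i N) +
      i * Module.finrank k (integralClosure (Polynomial k) E ⧸ p) := by
  have h1 := finite_hs (k := k) N
  obtain ⟨hfin, hdim⟩ := (residue_dim k E p hp hp0).2 i
  set q : hs k N →ₗ[k] (integralClosure (Polynomial k) E ⧸ p ^ i) :=
    (CV6.Q img hint p i).comp (hs k N).subtype with hq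
  have h2 := LinearMap.finrank_range_add_finrank_ker q
  have h3 : Module.finrank k (LinearMap.range q) ≤
      i * Module.finrank k (integralClosure (Polynomial k) E ⧸ p) := by
    rw [← hdim]
    exact Submodule.finrank_le _
  have h4 : CV6.KK img hint p i N = (LinearMap.ker q).map (hs k N).subtype := by
    ext s
    rw [CV6.mem_KK, Submodule.mem_map]
    constructor
    · rintro ⟨hs, hs'⟩
      refine ⟨⟨s, hs⟩, ?_, rfl⟩
      rw [LinearMap.mem_ker, hq, LinearMap.comp_apply]
      exact (CV6.Q_eq_zero _ _ _ _ _).mpr hs'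
    · rintro ⟨⟨s', hs'⟩, h5, rfl⟩
      refine ⟨hs', ?_⟩
      rw [LinearMap.mem_ker, hq, LinearMap.comp_apply] at h5
      exact (CV6.Q_eq_zero _ _ _ _ _).mp h5
  rw [h4, Submodule.finrank_map_subtype_eq]
  omega

theorem CV6.low {f : MvPolynomial (Fin 3) k} (img : MvPolynomial (Fin 3) k →ₐ[k] E)
    (hint : ∀ s, IsIntegral (Polynomial k) (img s))
    (p : Ideal (integralClosure (Polynomial k) E)) (hp : p.IsPrime) (hp0 : p ≠ ⊥) (i i2 N : ℕ)
    (hi : i ≤ i2)
    (hdvd : ∀ s, MvPolynomial.IsHomogeneous s N → CV6.imgB img hint s ∈ p ^ i2 → f ∣ s) :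
    Module.finrank k (CV6.KK img hint p i N) +
      i * Module.finrank k (integralClosure (Polynomial k) E ⧸ p) ≤
      Module.finrank k (CV6.D f N) +
        i2 * Module.finrank k (integralClosure (Polynomial k) E ⧸ p) := by
  have h1 := finite_hs (k := k) N
  obtain ⟨hfin, hdim⟩ := (residue_dim k E p hp hp0).2 i
  obtain ⟨hfin2, hdim2⟩ := (residue_dim k E p hp hp0).2 i2
  have hKfin : Module.Finite k (CV6.KK img hint p i N) :=
    Submodule.finiteDimensional_of_le (S₂ := hs k N) inf_le_left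
  have hDfin : Module.Finite k (CV6.D f N) :=
    Submodule.finiteDimensional_of_le (S₂ := hs k N) inf_le_left
  set L : CV6.KK img hint p i N →ₗ[k] (integralClosure (Polynomial k) E ⧸ p ^ i2) :=
    (CV6.Q img hint p i2).comp (CV6.KK img hint p i N).subtype with hL
  have h2 := LinearMap.finrank_range_add_finrank_ker L
  -- the kernel
  have h3 : Module.finrank k (LinearMap.ker L) ≤ Module.finrank k (CV6.D f N) := by
    rw [← Submodule.finrank_map_subtype_eq]
    apply Submodule.finrank_mono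
    rintro s ⟨⟨s', hs'⟩, h4, rfl⟩
    rw [CV6.mem_D]
    have h5 := (CV6.mem_KK _ _ _ _ _ _).mp hs'
    refine ⟨h5.1, hdvd _ h5.1 ?_⟩
    have h6 : L ⟨s', hs'⟩ = 0 := h4
    rw [hL, LinearMap.comp_apply] at h6
    exact (CV6.Q_eq_zero _ _ _ _ _).mp h6
  -- the range
  set fac : (integralClosure (Polynomial k) E ⧸ p ^ i2) →ₗ[k]
      (integralClosure (Polynomial k) E ⧸ p ^ i) :=
    (Ideal.Quotient.factorₐ k (Ideal.pow_le_pow_right hi)).toLinearMap with hfac
  have hsurj : Function.Surjective fac := by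
    intro y
    obtain ⟨x, rfl⟩ := Ideal.Quotient.mk_surjective y
    exact ⟨Ideal.Quotient.mk _ x, rfl⟩
  have h4 := LinearMap.finrank_range_add_finrank_ker fac
  rw [LinearMap.range_eq_top.mpr hsurj, finrank_top, hdim, hdim2] at h4
  have h5 : LinearMap.range L ≤ LinearMap.ker fac := by
    rintro _ ⟨⟨s', hs'⟩, rfl⟩
    rw [LinearMap.mem_ker]
    have h5 := (CV6.mem_KK _ _ _ _ _ _).mp hs'
    exact Ideal.Quotient.eq_zero_iff_mem.mpr h5.2
  have h6 := Submodule.finrank_mono h5
  omega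

theorem CV6.normC {f : MvPolynomial (Fin 3) k} (hf0 : f ≠ 0) {δ : ℕ}
    (hδ : f.IsHomogeneous δ) (img : MvPolynomial (Fin 3) k →ₐ[k] E)
    (hint : ∀ s, IsIntegral (Polynomial k) (img s))
    (hker : ∀ s N, MvPolynomial.IsHomogeneous s N → (img s = 0 ↔ f ∣ s))
    (hnorm : ∀ s (N : ℕ), MvPolynomial.IsHomogeneous s N → ∃ P : Polynomial k,
      P.natDegree ≤ δ * N ∧
        Algebra.norm (RatFunc k) (img s) = algebraMap (Polynomial k) (RatFunc k) P)
    {w : MvPolynomial (Fin 3) k → ℝ}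
    (p : Ideal (integralClosure (Polynomial k) E)) (hp : p.IsPrime) (hp0 : p ≠ ⊥) (γ : ℝ)
    (hγ : 0 < γ)
    (hpl : ∀ s N, MvPolynomial.IsHomogeneous s N → ¬ f ∣ s →
        ∃ a : ℕ, w s = γ * a ∧ ∀ j : ℕ, CV6.imgB img hint s ∈ p ^ j ↔ j ≤ a) :
    NormC f δ (fun s => w s /
      (γ / Module.finrank k (integralClosure (Polynomial k) E ⧸ p))) := by
  obtain ⟨hφ, hres⟩ := residue_dim k E p hp hp0
  set φ := Module.finrank k (integralClosure (Polynomial k) E ⧸ p) with hφdef
  have hφ' : (0 : ℝ) < φ := by exact_mod_cast hφ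
  have hval : ∀ (s : MvPolynomial (Fin 3) k) (a : ℕ), w s = γ * a →
      w s / (γ / φ) = ((a * φ : ℕ) : ℝ) := by
    intro s a ha
    rw [ha]
    push_cast
    field_simp
  -- Bezout for one place
  have hle : ∀ s (N : ℕ) (a : ℕ), MvPolynomial.IsHomogeneous s N → ¬ f ∣ s →
      CV6.imgB img hint s ∈ p ^ a → a * φ ≤ δ * N := by
    intro s N a hs hfs ha
    have hb0 : CV6.imgB img hint s ≠ 0 := by
      intro h
      have : img s = 0 := congrArg Subtype.val h
      rw [hker _ _ hs] at this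
      exact hfs this
    obtain ⟨P, hP, hnP⟩ := hnorm s N hs
    have h1 := (norm_dim k E _ hb0 p p hp hp0 hp hp0 a a ha ha).1
    have h2 : ((CV6.imgB img hint s : integralClosure (Polynomial k) E) : E) = img s := rfl
    rw [h2, hnP, RatFunc.num_algebraMap] at h1
    exact h1.trans hP
  -- the filtration
  have hfil : ∀ N j i : ℕ, j ≤ φ * i → (∀ a, j ≤ φ * a → i ≤ a) →
      fil f (fun s => w s / (γ / φ)) N j = CV6.KK img hint p i N := by
    intro N j i hi1 hi2
    have hset : {s : MvPolynomial (Fin 3) k | s.IsHomogeneous N ∧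
        (f ∣ s ∨ (j : ℝ) ≤ w s / (γ / φ))} = (CV6.KK img hint p i N : Set _) := by
      ext s
      rw [SetLike.mem_coe, CV6.mem_KK, Set.mem_ofPred_eq]
      constructor
      · rintro ⟨hs, h⟩
        refine ⟨hs, ?_⟩
        by_cases hfs : f ∣ s
        · have h0 : CV6.imgB img hint s = 0 := Subtype.ext ((hker s N hs).mpr hfs)
          rw [h0]
          exact Ideal.zero_mem _
        · obtain ⟨a, ha, haj⟩ := hpl s N hs hfs
          rw [haj]
          apply hi2
          have h1 := h.resolve_left hfs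
          rw [hval s a ha] at h1
          have h2 : j ≤ a * φ := by exact_mod_cast h1
          rwa [mul_comm] at h2
      · rintro ⟨hs, h⟩
        refine ⟨hs, ?_⟩
        by_cases hfs : f ∣ s
        · exact Or.inl hfs
        · right
          obtain ⟨a, ha, haj⟩ := hpl s N hs hfs
          rw [haj] at h
          rw [hval s a ha]
          have h2 : j ≤ a * φ := by
            calc j ≤ φ * i := hi1
              _ ≤ φ * a := Nat.mul_le_mul_left _ h
              _ = a * φ := mul_comm _ _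
          exact_mod_cast h2
    unfold fil
    rw [hset, Submodule.span_eq]
  have hceil : ∀ j : ℕ, ∃ i : ℕ, j ≤ φ * i ∧ (∀ a, j ≤ φ * a → i ≤ a) ∧ φ * i ≤ j + φ := by
    intro j
    refine ⟨(j + φ - 1) / φ, ?_, ?_, ?_⟩
    · have := Nat.lt_mul_div_succ (j + φ - 1) hφ
      rw [mul_add, mul_one] at this
      omega
    · intro a ha
      rw [Nat.div_le_iff_le_mul_add_pred hφ]
      omega
    · have := Nat.mul_div_le (j + φ - 1) φ
      omega
  refine ⟨?_, ?_, ?_, ?_⟩
  · intro s N hs hfs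
    obtain ⟨a, ha, haj⟩ := hpl s N hs hfs
    exact ⟨a * φ, hval s a ha⟩
  · intro s N hs hfs
    obtain ⟨a, ha, haj⟩ := hpl s N hs hfs
    show w s / (γ / φ) ≤ _
    rw [hval s a ha]
    exact_mod_cast hle s N a hs hfs ((haj a).mpr le_rfl)
  · refine ⟨φ, fun N j => ?_⟩
    obtain ⟨i, hi1, hi2, hi3⟩ := hceil j
    rw [hfil N j i hi1 hi2]
    have h1 := CV6.up img hint p hp hp0 i N
    rw [← hφdef, mul_comm i φ] at h1
    omega
  · refine ⟨δ ^ 2 + φ, fun N j hj => ?_⟩
    obtain ⟨i, hi1, hi2, hi3⟩ := hceil j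
    rw [hfil N j i hi1 hi2]
    have h2 : δ * N < φ * (δ * N / φ + 1) := Nat.lt_mul_div_succ _ hφ
    have h3 : φ * (δ * N / φ) ≤ δ * N := Nat.mul_div_le _ _
    have hi : i ≤ δ * N / φ + 1 := hi2 _ (by omega)
    have h1 := CV6.low (f := f) img hint p hp hp0 i (δ * N / φ + 1) N hi (by
      intro s hs h4
      by_contra hfs
      have h5 := hle s N _ hs hfs h4
      rw [mul_comm] at h5
      omega)
    rw [← hφdef, mul_comm i φ, mul_comm _ φ] at h1
    have h4 := CV6.finrank_D hf0 hδ N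
    rw [mul_add, mul_one] at h1
    omega

theorem CV6.bez {f : MvPolynomial (Fin 3) k} {δ : ℕ}
    (img : MvPolynomial (Fin 3) k →ₐ[k] E)
    (hint : ∀ s, IsIntegral (Polynomial k) (img s))
    (hker : ∀ s N, MvPolynomial.IsHomogeneous s N → (img s = 0 ↔ f ∣ s))
    (hnorm : ∀ s (N : ℕ), MvPolynomial.IsHomogeneous s N → ∃ P : Polynomial k,
      P.natDegree ≤ δ * N ∧
        Algebra.norm (RatFunc k) (img s) = algebraMap (Polynomial k) (RatFunc k) P)
    {w w' : MvPolynomial (Fin 3) k → ℝ}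
    (p : Ideal (integralClosure (Polynomial k) E)) (hp : p.IsPrime) (hp0 : p ≠ ⊥) (γ : ℝ)
    (hγ : 0 < γ)
    (hpl : ∀ s N, MvPolynomial.IsHomogeneous s N → ¬ f ∣ s →
        ∃ a : ℕ, w s = γ * a ∧ ∀ j : ℕ, CV6.imgB img hint s ∈ p ^ j ↔ j ≤ a)
    (p' : Ideal (integralClosure (Polynomial k) E)) (hp' : p'.IsPrime) (hp0' : p' ≠ ⊥) (γ' : ℝ)
    (hγ' : 0 < γ')
    (hpl' : ∀ s N, MvPolynomial.IsHomogeneous s N → ¬ f ∣ s →
        ∃ a : ℕ, w' s = γ' * a ∧ ∀ j : ℕ, CV6.imgB img hint s ∈ p' ^ j ↔ j ≤ a) :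
    (∀ s N, MvPolynomial.IsHomogeneous s N → ¬ f ∣ s →
      w s / (γ / Module.finrank k (integralClosure (Polynomial k) E ⧸ p)) =
      w' s / (γ' / Module.finrank k (integralClosure (Polynomial k) E ⧸ p'))) ∨
    (∀ s (N : ℕ), s.IsHomogeneous N → ¬ f ∣ s →
      w s / (γ / Module.finrank k (integralClosure (Polynomial k) E ⧸ p)) +
      w' s / (γ' / Module.finrank k (integralClosure (Polynomial k) E ⧸ p')) ≤ δ * N) := by
  obtain ⟨hφ, hres⟩ := residue_dim k E p hp hp0
  obtain ⟨hφ', hres'⟩ := residue_dim k E p' hp' hp0'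
  have hφr : (0 : ℝ) < Module.finrank k (integralClosure (Polynomial k) E ⧸ p) := by
    exact_mod_cast hφ
  have hφr' : (0 : ℝ) < Module.finrank k (integralClosure (Polynomial k) E ⧸ p') := by
    exact_mod_cast hφ'
  by_cases hpp : p = p'
  · left
    subst hpp
    intro s N hs hfs
    obtain ⟨a, ha, haj⟩ := hpl s N hs hfs
    obtain ⟨a', ha', haj'⟩ := hpl' s N hs hfs
    have h1 : a = a' := by
      apply le_antisymm
      · rw [← haj' a, haj a]
      · rw [← haj a', haj' a']
    rw [ha, ha', h1]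
    field_simp
  · right
    intro s N hs hfs
    obtain ⟨a, ha, haj⟩ := hpl s N hs hfs
    obtain ⟨a', ha', haj'⟩ := hpl' s N hs hfs
    have hb0 : CV6.imgB img hint s ≠ 0 := by
      intro h
      have : img s = 0 := congrArg Subtype.val h
      rw [hker _ _ hs] at this
      exact hfs this
    obtain ⟨P, hP, hnP⟩ := hnorm s N hs
    have h1 := (norm_dim k E _ hb0 p p' hp hp0 hp' hp0' a a' ((haj a).mpr le_rfl)
      ((haj' a').mpr le_rfl)).2 hpp
    have h2 : ((CV6.imgB img hint s : integralClosure (Polynomial k) E) : E) = img s := rfl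
    rw [h2, hnP, RatFunc.num_algebraMap] at h1
    have h3 := h1.trans hP
    have h4 : (a : ℝ) * Module.finrank k (integralClosure (Polynomial k) E ⧸ p) +
        a' * Module.finrank k (integralClosure (Polynomial k) E ⧸ p') ≤ δ * N := by
      exact_mod_cast h3
    rw [ha, ha']
    refine le_trans (le_of_eq ?_) h4
    field_simp

end abs2

section inst

variable {k : Type*} [Field k] [CharZero k]

theorem CV6.deh_add (s t : MvPolynomial (Fin 3) k) : deh (s + t) = deh s + deh t := by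
  unfold deh; exact map_add _ _ _

theorem CV6.deh_mul (s t : MvPolynomial (Fin 3) k) : deh (s * t) = deh s * deh t := by
  unfold deh; exact map_mul _ _ _

theorem CV6.deh_X0 : deh (X 0 : MvPolynomial (Fin 3) k) = Polynomial.C Polynomial.X := by
  unfold deh; simp

theorem CV6.deh_X1 : deh (X 1 : MvPolynomial (Fin 3) k) = Polynomial.X := by
  unfold deh; simp

theorem CV6.deh_X2 : deh (X 2 : MvPolynomial (Fin 3) k) = 1 := by
  unfold deh; simp

theorem CV6.deh_C (a : k) : deh (C a : MvPolynomial (Fin 3) k) =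
    Polynomial.C (Polynomial.C a) := by
  unfold deh
  rw [← MvPolynomial.algebraMap_eq, AlgHom.commutes]
  rfl

theorem CV6.deh_surj (P : Polynomial (Polynomial k)) : ∃ (s : MvPolynomial (Fin 3) k) (N : ℕ),
    s.IsHomogeneous N ∧ deh s = P := by
  have hadd : ∀ P Q : Polynomial (Polynomial k),
      (∃ (s : MvPolynomial (Fin 3) k) (N : ℕ), s.IsHomogeneous N ∧ deh s = P) →
      (∃ (s : MvPolynomial (Fin 3) k) (N : ℕ), s.IsHomogeneous N ∧ deh s = Q) →
      ∃ (s : MvPolynomial (Fin 3) k) (N : ℕ), s.IsHomogeneous N ∧ deh s = P + Q := by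
    rintro P Q ⟨s, N, hs, rfl⟩ ⟨t, M, ht, rfl⟩
    have h2 : ∀ n : ℕ, deh ((X 2 : MvPolynomial (Fin 3) k) ^ n) = 1 := by
      intro n
      induction n with
      | zero => rw [pow_zero]; unfold deh; simp
      | succ n ih => rw [pow_succ, CV6.deh_mul, ih, CV6.deh_X2, one_mul]
    refine ⟨s * X 2 ^ M + t * X 2 ^ N, N + M, ?_, ?_⟩
    · have e1 : (s * X 2 ^ M).IsHomogeneous (N + M) := by
        have := hs.mul (isHomogeneous_X_pow (R := k) (2 : Fin 3) M)
        exact this
      have e2 : (t * X 2 ^ N).IsHomogeneous (N + M) := by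
        have := ht.mul (isHomogeneous_X_pow (R := k) (2 : Fin 3) N)
        rw [add_comm] at this
        exact this
      exact e1.add e2
    · rw [CV6.deh_add, CV6.deh_mul, CV6.deh_mul, h2, h2, mul_one, mul_one]
  have hmul : ∀ P Q : Polynomial (Polynomial k),
      (∃ (s : MvPolynomial (Fin 3) k) (N : ℕ), s.IsHomogeneous N ∧ deh s = P) →
      (∃ (s : MvPolynomial (Fin 3) k) (N : ℕ), s.IsHomogeneous N ∧ deh s = Q) →
      ∃ (s : MvPolynomial (Fin 3) k) (N : ℕ), s.IsHomogeneous N ∧ deh s = P * Q := by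
    rintro P Q ⟨s, N, hs, rfl⟩ ⟨t, M, ht, rfl⟩
    exact ⟨s * t, N + M, hs.mul ht, CV6.deh_mul s t⟩
  have hC : ∀ p : Polynomial k, ∃ (s : MvPolynomial (Fin 3) k) (N : ℕ), s.IsHomogeneous N ∧
      deh s = Polynomial.C p := by
    intro p
    induction p using Polynomial.induction_on with
    | C a => exact ⟨C a, 0, isHomogeneous_C _ _, CV6.deh_C a⟩
    | add p q hp hq => rw [map_add]; exact hadd _ _ hp hq
    | monomial n a ih =>
      rw [pow_succ, ← mul_assoc, map_mul]
      exact hmul _ _ ih ⟨X 0, 1, isHomogeneous_X _ _, CV6.deh_X0⟩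
  induction P using Polynomial.induction_on with
  | C a => exact hC a
  | add p q hp hq => exact hadd _ _ hp hq
  | monomial n a ih =>
    rw [pow_succ, ← mul_assoc]
    exact hmul _ _ ih ⟨X 1, 1, isHomogeneous_X _ _, CV6.deh_X1⟩

/-- the leading coefficient -/
theorem CV6.deh_coeff {f : MvPolynomial (Fin 3) k} {δ : ℕ} (hδ : f.IsHomogeneous δ) :
    (deh f).coeff δ = Polynomial.C (f.coeff (Finsupp.single 1 δ)) := by
  classical
  have h1 : deh f = ∑ d ∈ f.support, Polynomial.C (Polynomial.C (f.coeff d) *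
      Polynomial.X ^ d 0) * Polynomial.X ^ d 1 := by
    unfold deh
    rw [MvPolynomial.aeval_def, MvPolynomial.eval₂_eq']
    refine Finset.sum_congr rfl fun d _ => ?_
    rw [Fin.prod_univ_three]
    simp only [Matrix.cons_val_zero, Matrix.cons_val_one, Matrix.cons_val, one_pow, mul_one]
    rw [map_mul, map_pow, mul_assoc]
    rfl
  rw [h1, Polynomial.finsetSum_coeff]
  have h2 : ∀ d ∈ f.support, d ≠ Finsupp.single 1 δ →
      (Polynomial.C (Polynomial.C (f.coeff d) * Polynomial.X ^ d 0) *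
        Polynomial.X ^ d 1 : Polynomial (Polynomial k)).coeff δ = 0 := by
    intro d hd hne
    rw [Polynomial.coeff_C_mul, Polynomial.coeff_X_pow, if_neg, mul_zero]
    intro h3
    apply hne
    have h4 := hδ (MvPolynomial.mem_support_iff.mp hd)
    rw [Finsupp.weight_apply, Finsupp.sum_fintype _ _ (by simp), Fin.sum_univ_three] at h4
    simp only [Pi.one_apply, smul_eq_mul, mul_one] at h4
    ext i
    fin_cases i
    · simp; omega
    · simp; omega
    · simp; omega
  by_cases hmem : Finsupp.single 1 δ ∈ f.support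
  · rw [Finset.sum_eq_single_of_mem _ hmem h2]
    simp
  · rw [Finset.sum_eq_zero fun d hd => h2 d hd fun h => hmem (h ▸ hd)]
    rw [MvPolynomial.notMem_support_iff.mp hmem, map_zero]

end inst

section final

variable {k : Type*} [Field k] [CharZero k]

/-- CV6. Bezout, normal position. -/
theorem bezout_normal {f : MvPolynomial (Fin 3) k} (hf : Irreducible f) {δ : ℕ}
    (hδ : f.IsHomogeneous δ) (h1 : 1 ≤ δ) (hc : f.coeff (Finsupp.single 1 δ) ≠ 0)
    {τ : Type*} [Fintype τ] (w : τ → MvPolynomial (Fin 3) k → ℝ)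
    (hw : ∀ t, GV (fun s => f ∣ s) (w t))
    (hnt : ∀ t, ∃ s N, MvPolynomial.IsHomogeneous s N ∧ ¬ f ∣ s ∧ 0 < w t s)
    (h2 : ∀ t, w t (X 2) = 0) :
    ∃ c : τ → ℝ, (∀ t, 0 < c t) ∧ (∀ t, NormC f δ (fun s => w t s / c t)) ∧
      ∀ t t', (∀ s N, MvPolynomial.IsHomogeneous s N → ¬ f ∣ s → w t s / c t = w t' s / c t') ∨
        (∀ s (N : ℕ), s.IsHomogeneous N → ¬ f ∣ s → w t s / c t + w t' s / c t' ≤ δ * N) := by
  classical
  obtain ⟨hirr, hnd, hdvd⟩ := curve_field hf hδ h1 hc
  set φ : Polynomial (RatFunc k) := (deh f).map (algebraMap (Polynomial k) (RatFunc k)) with hφ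
  have : Fact (Irreducible φ) := ⟨hirr⟩
  have hφ0 : φ ≠ 0 := hirr.ne_zero
  let y : AdjoinRoot φ := AdjoinRoot.root φ
  have hfin : FiniteDimensional (RatFunc k) (AdjoinRoot φ) := (AdjoinRoot.powerBasis hφ0).finite
  have hdeg : Module.finrank (RatFunc k) (AdjoinRoot φ) = δ := by
    rw [(AdjoinRoot.powerBasis hφ0).finrank, AdjoinRoot.powerBasis_dim, hnd]
  have hgen : IntermediateField.adjoin (RatFunc k) {y} = ⊤ :=
    IntermediateField.adjoin_eq_top_of_algebra _ _ AdjoinRoot.adjoinRoot_eq_top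
  have haev : ∀ P : Polynomial (Polynomial k), Polynomial.aeval y P =
      AdjoinRoot.mk φ (P.map (algebraMap (Polynomial k) (RatFunc k))) := by
    intro P
    rw [← AdjoinRoot.aeval_eq, Polynomial.aeval_map_algebraMap]
  have hy : Polynomial.aeval y (deh f) = 0 := by
    rw [haev, AdjoinRoot.mk_eq_zero]
  -- the map to the function field
  let img : MvPolynomial (Fin 3) k →ₐ[k] AdjoinRoot φ :=
    ((Polynomial.aeval y : Polynomial (Polynomial k) →ₐ[Polynomial k] AdjoinRoot φ).restrictScalars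
      k).comp (MvPolynomial.aeval ![Polynomial.C Polynomial.X, Polynomial.X, 1])
  have himg : ∀ s, img s = Polynomial.aeval y (deh s) := fun s => rfl
  have himg2 : img (X 2) = 1 := by rw [himg, CV6.deh_X2, map_one]
  have himg0 : img (X 0) = algebraMap (Polynomial k) (AdjoinRoot φ) Polynomial.X := by
    rw [himg, CV6.deh_X0, Polynomial.aeval_C]
  have hker : ∀ s N, MvPolynomial.IsHomogeneous s N → (img s = 0 ↔ f ∣ s) := by
    intro s N hs
    rw [himg, haev, AdjoinRoot.mk_eq_zero, hdvd s N hs]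
  -- integrality
  have hyint : IsIntegral (Polynomial k) y := by
    have hinj : Function.Injective (algebraMap (Polynomial k) (RatFunc k)) :=
      IsFractionRing.injective _ _
    have hnd' : (deh f).natDegree = δ := by
      rw [← hnd, hφ, Polynomial.natDegree_map_eq_of_injective hinj]
    have hlc : (deh f).leadingCoeff = Polynomial.C (f.coeff (Finsupp.single 1 δ)) := by
      rw [Polynomial.leadingCoeff, hnd', CV6.deh_coeff hδ]
    refine ⟨Polynomial.C (Polynomial.C (f.coeff (Finsupp.single 1 δ))⁻¹) * deh f, ?_, ?_⟩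
    · rw [Polynomial.Monic, Polynomial.leadingCoeff_mul, Polynomial.leadingCoeff_C, hlc,
        ← map_mul, inv_mul_cancel₀ hc, map_one]
    · rw [Polynomial.eval₂_mul]
      have : Polynomial.eval₂ (algebraMap (Polynomial k) (AdjoinRoot φ)) y (deh f) = 0 := hy
      rw [this, mul_zero]
  have hint : ∀ s, IsIntegral (Polynomial k) (img s) := by
    intro s
    induction s using MvPolynomial.induction_on with
    | C a =>
      rw [himg, CV6.deh_C, Polynomial.aeval_C]
      exact isIntegral_algebraMap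
    | add p q hp hq =>
      rw [map_add]
      exact hp.add hq
    | mul_X p i hp =>
      rw [map_mul]
      refine hp.mul ?_
      fin_cases i
      · show IsIntegral (Polynomial k) (img (X 0))
        rw [himg0]
        exact isIntegral_algebraMap
      · show IsIntegral (Polynomial k) (img (X 1))
        rw [himg, CV6.deh_X1, Polynomial.aeval_X]
        exact hyint
      · show IsIntegral (Polynomial k) (img (X 2))
        rw [himg2]
        exact isIntegral_one
  -- fractions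
  have hfrac : ∀ a : AdjoinRoot φ, ∃ s r : MvPolynomial (Fin 3) k, ∃ N M : ℕ,
      s.IsHomogeneous N ∧ r.IsHomogeneous M ∧ img r ≠ 0 ∧ a * img r = img s := by
    intro a
    obtain ⟨P, rfl⟩ := AdjoinRoot.mk_surjective a
    obtain ⟨b0, hb0, hb⟩ := IsLocalization.integerNormalization_spec
      (nonZeroDivisors (Polynomial k)) (S := RatFunc k) P
    set P0 := IsLocalization.integerNormalization (nonZeroDivisors (Polynomial k)) P with hP0
    obtain ⟨s, N, hs, hsP⟩ := CV6.deh_surj P0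
    obtain ⟨r, M, hr, hrb⟩ := CV6.deh_surj (Polynomial.C b0)
    refine ⟨s, r, N, M, hs, hr, ?_, ?_⟩
    · rw [himg, hrb, Polynomial.aeval_C]
      rw [IsScalarTower.algebraMap_apply (Polynomial k) (RatFunc k) (AdjoinRoot φ), Ne,
        map_eq_zero_iff _ (algebraMap (RatFunc k) (AdjoinRoot φ)).injective,
        map_eq_zero_iff _ (IsFractionRing.injective (Polynomial k) (RatFunc k))]
      exact nonZeroDivisors.ne_zero hb0
    · rw [himg, himg, hrb, hsP, haev, haev, ← map_mul]
      congr 1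
      rw [Polynomial.map_C, hb, mul_comm, Algebra.smul_def]
      rfl
  have hnorm : ∀ s (N : ℕ), MvPolynomial.IsHomogeneous s N → ∃ P : Polynomial k,
      P.natDegree ≤ δ * N ∧
        Algebra.norm (RatFunc k) (img s) = algebraMap (Polynomial k) (RatFunc k) P := by
    intro s N hs
    rw [himg]
    exact norm_deg (AdjoinRoot φ) hδ h1 hc y hy hgen hdeg s N hs
  choose p γ hp hp0 hγ hpl using fun t =>
    CV6.place (f := f) img hint himg2 himg0 hker hfrac (hw t) (h2 t) (hnt t)
  have hφpos : ∀ t, (0 : ℝ) < Module.finrank k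
      (integralClosure (Polynomial k) (AdjoinRoot φ) ⧸ p t) := fun t => by
    exact_mod_cast (residue_dim k (AdjoinRoot φ) (p t) (hp t) (hp0 t)).1
  refine ⟨fun t => γ t / Module.finrank k
    (integralClosure (Polynomial k) (AdjoinRoot φ) ⧸ p t), fun t => div_pos (hγ t) (hφpos t), ?_, ?_⟩
  · intro t
    exact CV6.normC hf.ne_zero hδ img hint hker hnorm (p t) (hp t) (hp0 t) (γ t) (hγ t) (hpl t)
  · intro t t'
    exact CV6.bez img hint hker hnorm (p t) (hp t) (hp0 t) (γ t) (hγ t) (hpl t)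
      (p t') (hp t') (hp0 t') (γ t') (hγ t') (hpl t')

end final

end Pool.Agent.V2
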