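import Pool.Agent.Helper21.V2.TR
import Pool.Agent.Helper21.V2.CV6

/-!
# Block CV7: Bezout (general position from normal position)
-/

set_option autoImplicit false

namespace Pool.Agent.V2

open MvPolynomial

section alg

variable {k : Type*} [Field k] [CharZero k]

/-- a linear form. -/
noncomputable def cv7lin (a : Fin 3 → k) : MvPolynomial (Fin 3) k := ∑ j, C (a j) * X j

omit [CharZero k] in
theorem cv7lin_add (a b : Fin 3 → k) : cv7lin (a + b) = cv7lin a + cv7lin b := by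
  unfold cv7lin
  rw [← Finset.sum_add_distrib]
  apply Finset.sum_congr rfl
  intro j _
  rw [Pi.add_apply, map_add, add_mul]

omit [CharZero k] in
theorem cv7lin_smul (c : k) (a : Fin 3 → k) : cv7lin (c • a) = C c * cv7lin a := by
  unfold cv7lin
  rw [Finset.mul_sum]
  apply Finset.sum_congr rfl
  intro j _
  rw [Pi.smul_apply, smul_eq_mul, map_mul, mul_assoc]

omit [CharZero k] in
theorem cv7lin_zero : cv7lin (0 : Fin 3 → k) = 0 := by
  unfold cv7lin
  simp

omit [CharZero k] in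
theorem cv7lin_single (i : Fin 3) : cv7lin (Pi.single i (1 : k)) = X i := by
  unfold cv7lin
  rw [Finset.sum_eq_single i]
  · rw [Pi.single_eq_same, map_one, one_mul]
  · intro j _ hj
    rw [Pi.single_eq_of_ne hj, map_zero, zero_mul]
  · intro h; exact absurd (Finset.mem_univ i) h

omit [CharZero k] in
theorem cv7lin_hom (a : Fin 3 → k) : (cv7lin a).IsHomogeneous 1 := by
  unfold cv7lin
  apply IsHomogeneous.sum
  intro j _
  have := (isHomogeneous_C (Fin 3) (a j)).mul (isHomogeneous_X k j)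
  simpa using this

omit [CharZero k] in
theorem cv7_sub3_X (g : Matrix (Fin 3) (Fin 3) k) (i : Fin 3) : sub3 g (X i) = cv7lin (g i) := by
  unfold sub3 cv7lin
  rw [bind₁_X_right]

omit [CharZero k] in
theorem cv7_eval (g : Matrix (Fin 3) (Fin 3) k) (s : MvPolynomial (Fin 3) k) (x : Fin 3 → k) :
    eval x (sub3 g s) = eval (fun i => ∑ j, g i j * x j) s := by
  unfold sub3
  have h := eval₂Hom_bind₁ (RingHom.id k) x (fun i => ∑ j, C (g i j) * X j) s
  have h1 : ∀ (y : Fin 3 → k) (q : MvPolynomial (Fin 3) k), eval₂Hom (RingHom.id k) y q = eval y q :=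
    fun y q => rfl
  simp only [h1] at h
  rw [h]
  congr 2
  funext i
  rw [map_sum]
  apply Finset.sum_congr rfl
  intro j _
  rw [map_mul, eval_C, eval_X]

omit [CharZero k] in
/-- the coefficient of `X₁ ^ δ`. -/
theorem cv7_coeff {F : MvPolynomial (Fin 3) k} {δ : ℕ} (hF : F.IsHomogeneous δ) :
    F.coeff (Finsupp.single 1 δ) = eval (Pi.single 1 1) F := by
  rw [eval_eq']
  rw [Finset.sum_eq_single (Finsupp.single 1 δ)]
  · rw [Finset.prod_eq_one, mul_one]
    intro i _
    rcases eq_or_ne i 1 with rfl | hi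
    · rw [Pi.single_eq_same, one_pow]
    · rw [Finsupp.single_eq_of_ne hi, pow_zero]
  · intro m hm hne
    have hdeg := hF (mem_support_iff.mp hm)
    by_cases h0 : ∀ i, i ≠ 1 → m i = 0
    · exfalso
      apply hne
      have h2 : m = Finsupp.single 1 (m 1) := by
        ext i
        rcases eq_or_ne i 1 with rfl | hi
        · rw [Finsupp.single_eq_same]
        · rw [Finsupp.single_eq_of_ne hi, h0 i hi]
      have h3 : m 1 = δ := by
        rw [h2] at hdeg
        simpa [Finsupp.weight_apply] using hdeg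
      rw [h2, h3]
    · push Not at h0
      obtain ⟨i, hi, hmi⟩ := h0
      rw [Finset.prod_eq_zero (Finset.mem_univ i), mul_zero]
      rw [Pi.single_eq_of_ne hi, zero_pow hmi]
  · intro h
    rw [notMem_support_iff.mp h, zero_mul]

omit [CharZero k] in
/-- the subspace of linear forms divisible by `f` or of positive value. -/
theorem cv7_subspace {f : MvPolynomial (Fin 3) k} (hf : Irreducible f)
    {w : MvPolynomial (Fin 3) k → ℝ} (hw : GV (fun s => f ∣ s) w) :
    ∃ L : Submodule k (Fin 3 → k), L ≠ ⊤ ∧ ∀ a, a ∈ L ↔ (f ∣ cv7lin a ∨ 0 < w (cv7lin a)) := by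
  have hfC : ∀ c : k, c ≠ 0 → ¬ f ∣ C c := by
    intro c hc h
    apply hf.not_isUnit
    exact isUnit_of_dvd_unit h ((isUnit_iff_ne_zero.mpr hc).map C)
  refine ⟨{
    carrier := {a | f ∣ cv7lin a ∨ 0 < w (cv7lin a)}
    zero_mem' := Or.inl (by rw [cv7lin_zero]; exact dvd_zero _)
    add_mem' := ?_
    smul_mem' := ?_ }, ?_, fun a => Iff.rfl⟩
  · intro a b ha hb
    change f ∣ cv7lin (a + b) ∨ 0 < w (cv7lin (a + b))
    rw [cv7lin_add]
    by_cases h1 : f ∣ cv7lin a
    · by_cases h2 : f ∣ cv7lin b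
      · exact Or.inl (dvd_add h1 h2)
      · right
        rw [add_comm, hw.congr _ _ 1 (cv7lin_hom b) (cv7lin_hom a) h2 h1]
        exact hb.resolve_left h2
    · by_cases h2 : f ∣ cv7lin b
      · right
        rw [hw.congr _ _ 1 (cv7lin_hom a) (cv7lin_hom b) h1 h2]
        exact ha.resolve_left h1
      · by_cases h3 : f ∣ cv7lin a + cv7lin b
        · exact Or.inl h3
        · right
          exact lt_of_lt_of_le (lt_min (ha.resolve_left h1) (hb.resolve_left h2))
            (hw.add _ _ 1 (cv7lin_hom a) (cv7lin_hom b) h1 h2 h3)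
  · intro c a ha
    change f ∣ cv7lin (c • a) ∨ 0 < w (cv7lin (c • a))
    rw [cv7lin_smul]
    by_cases hc : c = 0
    · left; rw [hc, map_zero, zero_mul]; exact dvd_zero _
    by_cases h1 : f ∣ cv7lin a
    · exact Or.inl (h1.mul_left _)
    · right
      rw [hw.mul _ _ 0 1 (isHomogeneous_C _ _) (cv7lin_hom a) (hfC c hc) h1, hw.const c hc, zero_add]
      exact ha.resolve_left h1
  · intro h
    obtain ⟨i, hi, hwi⟩ := hw.unit
    have h1 : Pi.single i (1 : k) ∈ (⊤ : Submodule k (Fin 3 → k)) := Submodule.mem_top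
    rw [← h] at h1
    rcases h1 with h1 | h1
    · rw [cv7lin_single] at h1; exact hi h1
    · rw [cv7lin_single, hwi] at h1; exact lt_irrefl _ h1

/-- a linear form of value `0` for all valuations. -/
theorem cv7_exists_lin {f : MvPolynomial (Fin 3) k} (hf : Irreducible f)
    {τ : Type*} [Fintype τ] [Nonempty τ] {w : τ → MvPolynomial (Fin 3) k → ℝ}
    (hw : ∀ t, GV (fun s => f ∣ s) (w t)) :
    ∃ a : Fin 3 → k, ¬ f ∣ cv7lin a ∧ ∀ t, w t (cv7lin a) = 0 := by
  choose L hL hmem using fun t => cv7_subspace hf (hw t)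
  have h1 : (⋃ t, (L t : Set (Fin 3 → k))) ≠ Set.univ := by
    intro h
    obtain ⟨t, ht⟩ := Subspace.exists_eq_top_of_iUnion_eq_univ h
    exact hL t ht
  obtain ⟨a, ha⟩ := (Set.ne_univ_iff_exists_notMem _).mp h1
  rw [Set.mem_iUnion] at ha
  push Not at ha
  have h2 : ∀ t, ¬ (f ∣ cv7lin a ∨ 0 < w t (cv7lin a)) := fun t h => ha t ((hmem t a).mpr h)
  obtain ⟨t0⟩ := ‹Nonempty τ›
  refine ⟨a, fun h => h2 t0 (Or.inl h), fun t => ?_⟩
  have h3 := h2 t
  push Not at h3
  exact le_antisymm h3.2 ((hw t).nonneg _ 1 (cv7lin_hom a) h3.1)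

/-- transport along a linear change of coordinates. -/
theorem cv7_transport {g g' : Matrix (Fin 3) (Fin 3) k} (hg : g * g' = 1)
    {f : MvPolynomial (Fin 3) k} {δ : ℕ}
    {τ : Type*} {w : τ → MvPolynomial (Fin 3) k → ℝ}
    (h : ∃ c : τ → ℝ, (∀ t, 0 < c t) ∧
      (∀ t, NormC (sub3 g' f) δ (fun s => w t (sub3 g s) / c t)) ∧
      ∀ t t', (∀ s N, MvPolynomial.IsHomogeneous s N → ¬ sub3 g' f ∣ s →
          w t (sub3 g s) / c t = w t' (sub3 g s) / c t') ∨
        (∀ s (N : ℕ), s.IsHomogeneous N → ¬ sub3 g' f ∣ s →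
          w t (sub3 g s) / c t + w t' (sub3 g s) / c t' ≤ δ * N)) :
    ∃ c : τ → ℝ, (∀ t, 0 < c t) ∧ (∀ t, NormC f δ (fun s => w t s / c t)) ∧
      ∀ t t', (∀ s N, MvPolynomial.IsHomogeneous s N → ¬ f ∣ s → w t s / c t = w t' s / c t') ∨
        (∀ s (N : ℕ), s.IsHomogeneous N → ¬ f ∣ s → w t s / c t + w t' s / c t' ≤ δ * N) := by
  have hg' : g' * g = 1 := mul_eq_one_comm.mp hg
  have hid : ∀ s : MvPolynomial (Fin 3) k, sub3 g (sub3 g' s) = s := by
    intro s; rw [sub3_sub3, hg', sub3_one]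
  obtain ⟨c, hc, hn, hb⟩ := h
  refine ⟨c, hc, fun t => ?_, fun t t' => ?_⟩
  · have h1 := NormC.sub3 hg' (hn t)
    simp only [hid] at h1
    exact h1
  · have hdv : ∀ s, ¬ f ∣ s → ¬ sub3 g' f ∣ sub3 g' s := by
      intro s hs h
      rw [sub3_dvd hg, hid] at h
      exact hs h
    rcases hb t t' with h1 | h1
    · left
      intro s N hs hfs
      have := h1 (sub3 g' s) N (sub3_hom g' hs) (hdv s hfs)
      rwa [hid] at this
    · right
      intro s N hs hfs
      have := h1 (sub3 g' s) N (sub3_hom g' hs) (hdv s hfs)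
      rwa [hid] at this

theorem cv7_hnt {g g' : Matrix (Fin 3) (Fin 3) k} (hg : g * g' = 1)
    {f : MvPolynomial (Fin 3) k} {w : MvPolynomial (Fin 3) k → ℝ}
    (h : ∃ s N, MvPolynomial.IsHomogeneous s N ∧ ¬ f ∣ s ∧ 0 < w s) :
    ∃ s N, MvPolynomial.IsHomogeneous s N ∧ ¬ sub3 g' f ∣ s ∧ 0 < w (sub3 g s) := by
  have hg' : g' * g = 1 := mul_eq_one_comm.mp hg
  have hid : ∀ s : MvPolynomial (Fin 3) k, sub3 g (sub3 g' s) = s := by
    intro s; rw [sub3_sub3, hg', sub3_one]
  obtain ⟨s, N, hs, hfs, hws⟩ := h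
  refine ⟨sub3 g' s, N, sub3_hom g' hs, ?_, by rwa [hid]⟩
  intro h
  rw [sub3_dvd hg, hid] at h
  exact hfs h

omit [CharZero k] in
theorem cv7_eval_zero {F : MvPolynomial (Fin 3) k} {δ : ℕ} (hF : F.IsHomogeneous δ) (h1 : 1 ≤ δ) :
    eval (0 : Fin 3 → k) F = 0 := by
  rw [eval_eq']
  apply Finset.sum_eq_zero
  intro m hm
  have hdeg := hF (mem_support_iff.mp hm)
  have h2 : ∃ i, m i ≠ 0 := by
    by_contra hcon
    push Not at hcon
    have h3 : m = 0 := by ext i; exact hcon i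
    rw [h3, map_zero] at hdeg
    omega
  obtain ⟨i, hi⟩ := h2
  rw [Finset.prod_eq_zero (Finset.mem_univ i), mul_zero]
  rw [Pi.zero_apply, zero_pow hi]

/-- step 1: the line `X₂ = 0` has value `0` and contains a point off the curve. -/
theorem cv7_step {f : MvPolynomial (Fin 3) k} (hf : Irreducible f) {δ : ℕ}
    (hδ : f.IsHomogeneous δ) (h1 : 1 ≤ δ) {x y : k} (hxy : eval ![x, y, 0] f ≠ 0)
    {τ : Type*} [Fintype τ] (w : τ → MvPolynomial (Fin 3) k → ℝ)
    (hw : ∀ t, GV (fun s => f ∣ s) (w t))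
    (hnt : ∀ t, ∃ s N, MvPolynomial.IsHomogeneous s N ∧ ¬ f ∣ s ∧ 0 < w t s)
    (h2 : ∀ t, w t (X 2) = 0) :
    ∃ c : τ → ℝ, (∀ t, 0 < c t) ∧ (∀ t, NormC f δ (fun s => w t s / c t)) ∧
      ∀ t t', (∀ s N, MvPolynomial.IsHomogeneous s N → ¬ f ∣ s → w t s / c t = w t' s / c t') ∨
        (∀ s (N : ℕ), s.IsHomogeneous N → ¬ f ∣ s → w t s / c t + w t' s / c t' ≤ δ * N) := by
  -- the matrices
  obtain ⟨g, g', hg, hrow, hcol⟩ : ∃ g g' : Matrix (Fin 3) (Fin 3) k, g * g' = 1 ∧
      g 2 = Pi.single 2 1 ∧ ∀ i, g' i 1 = (![x, y, 0] : Fin 3 → k) i := by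
    by_cases hy : y = 0
    · have hx : x ≠ 0 := by
        rintro rfl
        apply hxy
        rw [hy]
        have h3 : (![0, 0, 0] : Fin 3 → k) = 0 := by
          funext i; fin_cases i <;> rfl
        rw [h3]
        exact cv7_eval_zero hδ h1
      refine ⟨!![0, 1, 0; x⁻¹, 0, 0; 0, 0, 1], !![0, x, 0; 1, 0, 0; 0, 0, 1], ?_, ?_, ?_⟩
      · ext i j
        fin_cases i <;> fin_cases j <;> simp [Matrix.mul_apply, Fin.sum_univ_three, hx]
      · funext j; fin_cases j <;> simp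
      · intro i; fin_cases i <;> simp [hy]
    · refine ⟨!![1, -(x * y⁻¹), 0; 0, y⁻¹, 0; 0, 0, 1], !![1, x, 0; 0, y, 0; 0, 0, 1], ?_, ?_, ?_⟩
      · ext i j
        fin_cases i <;> fin_cases j <;> simp [Matrix.mul_apply, Fin.sum_univ_three, hy]
      · funext j; fin_cases j <;> simp
      · intro i; fin_cases i <;> simp
  apply cv7_transport hg
  apply bezout_normal (sub3_irr hg hf) (sub3_hom g' hδ) h1
  · rw [cv7_coeff (sub3_hom g' hδ), cv7_eval]
    have h3 : (fun i => ∑ j, g' i j * (Pi.single 1 1 : Fin 3 → k) j) = ![x, y, 0] := by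
      funext i
      rw [← hcol i, Finset.sum_eq_single 1]
      · rw [Pi.single_eq_same, mul_one]
      · intro j _ hj
        rw [Pi.single_eq_of_ne hj, mul_zero]
      · intro h; exact absurd (Finset.mem_univ _) h
    rw [h3]
    exact hxy
  · intro t; exact GV.sub3 hg hf hδ h1 (hw t)
  · intro t; exact cv7_hnt hg (hnt t)
  · intro t
    rw [cv7_sub3_X, hrow, cv7lin_single]
    exact h2 t

/-- `X₂ ↦ 0`. -/
noncomputable def cv7phi (k : Type*) [Field k] : Fin 3 → MvPolynomial (Fin 3) k := ![X 0, X 1, 0]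

omit [CharZero k] in
theorem cv7_sub_dvd (F : MvPolynomial (Fin 3) k) :
    (X 2 : MvPolynomial (Fin 3) k) ∣ F - bind₁ (cv7phi k) F := by
  induction F using MvPolynomial.induction_on with
  | C a => rw [bind₁_C_right, sub_self]; exact dvd_zero _
  | add p q hp hq =>
    rw [map_add, add_sub_add_comm]
    exact dvd_add hp hq
  | mul_X p i hp =>
    rw [map_mul, bind₁_X_right]
    have h1 : (X 2 : MvPolynomial (Fin 3) k) ∣ X i - cv7phi k i := by
      unfold cv7phi
      fin_cases i <;> simp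
    have h2 : p * X i - bind₁ (cv7phi k) p * cv7phi k i =
        (p - bind₁ (cv7phi k) p) * X i +
          bind₁ (cv7phi k) p * (X i - cv7phi k i) := by ring
    rw [h2]
    exact dvd_add (hp.mul_right _) (h1.mul_left _)

theorem cv7_X_dvd {F : MvPolynomial (Fin 3) k} (h : ∀ x y : k, eval ![x, y, 0] F = 0) :
    (X 2 : MvPolynomial (Fin 3) k) ∣ F := by
  have h0 : bind₁ (cv7phi k) F = 0 := by
    apply MvPolynomial.funext
    intro x
    rw [map_zero]
    have h1 := eval₂Hom_bind₁ (RingHom.id k) x (cv7phi k) F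
    have h2 : ∀ (y : Fin 3 → k) (q : MvPolynomial (Fin 3) k),
      eval₂Hom (RingHom.id k) y q = eval y q := fun y q => rfl
    simp only [h2] at h1
    rw [h1]
    have h3 : (fun i => eval x ((cv7phi k) i)) =
        ![x 0, x 1, 0] := by
      unfold cv7phi
      funext i
      fin_cases i <;> simp
    rw [h3]
    exact h _ _
  have h1 := cv7_sub_dvd F
  rwa [h0, sub_zero] at h1

omit [CharZero k] in
theorem cv7_matrix (a : Fin 3 → k) (ha : a ≠ 0) :
    ∃ g g' : Matrix (Fin 3) (Fin 3) k, g * g' = 1 ∧ g 2 = a := by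
  have key : ∀ g : Matrix (Fin 3) (Fin 3) k, g.det ≠ 0 → ∃ g' : Matrix (Fin 3) (Fin 3) k,
      g * g' = 1 := fun g hg => ⟨g⁻¹, Matrix.mul_nonsing_inv g (isUnit_iff_ne_zero.mpr hg)⟩
  by_cases h2 : a 2 = 0
  · by_cases h1 : a 1 = 0
    · have h0 : a 0 ≠ 0 := by
        intro h0
        apply ha
        funext i
        fin_cases i
        · exact h0
        · exact h1
        · exact h2
      obtain ⟨g', hg'⟩ := key !![0, 1, 0; 0, 0, 1; a 0, a 1, a 2] (by
        rw [Matrix.det_fin_three]; simpa using h0)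
      exact ⟨_, g', hg', by funext i; fin_cases i <;> rfl⟩
    · obtain ⟨g', hg'⟩ := key !![1, 0, 0; 0, 0, 1; a 0, a 1, a 2] (by
        rw [Matrix.det_fin_three]; simpa using h1)
      exact ⟨_, g', hg', by funext i; fin_cases i <;> rfl⟩
  · obtain ⟨g', hg'⟩ := key !![1, 0, 0; 0, 1, 0; a 0, a 1, a 2] (by
      rw [Matrix.det_fin_three]; simpa using h2)
    exact ⟨_, g', hg', by funext i; fin_cases i <;> rfl⟩

/-- CV7. Bezout. -/
theorem bezout {f : MvPolynomial (Fin 3) k} (hf : Irreducible f) {δ : ℕ}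
    (hδ : f.IsHomogeneous δ) (h1 : 1 ≤ δ)
    {τ : Type*} [Fintype τ] (w : τ → MvPolynomial (Fin 3) k → ℝ)
    (hw : ∀ t, GV (fun s => f ∣ s) (w t))
    (hnt : ∀ t, ∃ s N, MvPolynomial.IsHomogeneous s N ∧ ¬ f ∣ s ∧ 0 < w t s) :
    ∃ c : τ → ℝ, (∀ t, 0 < c t) ∧ (∀ t, NormC f δ (fun s => w t s / c t)) ∧
      ∀ t t', (∀ s N, MvPolynomial.IsHomogeneous s N → ¬ f ∣ s → w t s / c t = w t' s / c t') ∨
        (∀ s (N : ℕ), s.IsHomogeneous N → ¬ f ∣ s → w t s / c t + w t' s / c t' ≤ δ * N) := by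
  rcases isEmpty_or_nonempty τ with hE | hE
  · exact ⟨fun t => (hE.false t).elim, fun t => (hE.false t).elim, fun t => (hE.false t).elim,
      fun t => (hE.false t).elim⟩
  obtain ⟨a, ha, hwa⟩ := cv7_exists_lin hf hw
  have ha0 : a ≠ 0 := by
    rintro rfl
    apply ha
    rw [cv7lin_zero]; exact dvd_zero _
  obtain ⟨g, g', hg, hrow⟩ := cv7_matrix a ha0
  obtain ⟨x, y, hxy⟩ : ∃ x y : k, eval ![x, y, 0] (sub3 g' f) ≠ 0 := by
    by_contra hcon
    push Not at hcon
    have h2 := cv7_X_dvd hcon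
    have h3 := sub3_irr hg hf
    obtain ⟨u, hu⟩ := h2
    rcases h3.isUnit_or_isUnit hu with h4 | h4
    · have : (X 2 : MvPolynomial (Fin 3) k) = 0 ∨ True := Or.inr trivial
      have h5 : ¬ IsUnit (X 2 : MvPolynomial (Fin 3) k) := by
        intro h6
        have h7 := h6.map (MvPolynomial.eval (0 : Fin 3 → k))
        rw [eval_X] at h7
        exact not_isUnit_zero h7
      exact h5 h4
    · have h5 : sub3 g' f ∣ X 2 := by
        obtain ⟨v, hv⟩ := h4.exists_right_inv
        exact ⟨v, by rw [hu, mul_assoc, hv, mul_one]⟩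
      rw [sub3_dvd hg, cv7_sub3_X, hrow] at h5
      exact ha h5
  apply cv7_transport hg
  apply cv7_step (sub3_irr hg hf) (sub3_hom g' hδ) h1 hxy
  · intro t; exact GV.sub3 hg hf hδ h1 (hw t)
  · intro t; exact cv7_hnt hg (hnt t)
  · intro t
    rw [cv7_sub3_X, hrow]
    exact hwa t

end alg

end Pool.Agent.V2
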