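import Mathlib
import Pool.Agent.Helper21.V2.Defs

/-!
# Linear algebra for the dichotomy (block P1)
-/

namespace Pool.Agent.V2

open NumberField Finset
open Pool.Agent.Helper64.Vojta (Pl nv nv_nonneg nv_mul nv_one nv_zero nv_pos nv_inv)

namespace P1

section lin

variable {K : Type*} [Field K] {ι : Type*} [Fintype ι] [DecidableEq ι]

/-- the standard basis, indexed by `Fin (n + 1)` -/
noncomputable def bas (K : Type*) [Field K] {ι : Type*} [Fintype ι] [DecidableEq ι] {n : ℕ}
    (hn : Fintype.card ι = n + 1) : Module.Basis (Fin (n + 1)) K (ι → K) :=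
  (Pi.basisFun K ι).reindex (Fintype.equivFinOfCardEq hn)

/-- the functional `e ↦ det (e, z)` is proportional to `M` -/
lemma exists_kappa {n : ℕ} (hn : Fintype.card ι = n + 1) {M : ι → K} (hM : M ≠ 0)
    {z : Fin n → ι → K} (hz : LinearIndependent K z) (h0 : ∀ l, ∑ i, M i * z l i = 0) :
    ∃ κ : K, κ ≠ 0 ∧ ∀ e : ι → K, (bas K hn).det (Matrix.vecCons e z) = κ * ∑ i, M i * e i := by
  classical
  set φ : (ι → K) →ₗ[K] K := ∑ i, M i • LinearMap.proj i with hφ
  have hφa : ∀ e, φ e = ∑ i, M i * e i := by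
    intro e
    simp [hφ, LinearMap.sum_apply]
  obtain ⟨i₀, hi₀⟩ : ∃ i, M i ≠ 0 := by
    by_contra hcon
    push Not at hcon
    exact hM (funext hcon)
  set e₀ : ι → K := Pi.single i₀ 1 with he₀
  have hφe : φ e₀ ≠ 0 := by
    rw [hφa]
    simpa [he₀, Pi.single_apply] using hi₀
  have hφ0 : φ ≠ 0 := fun h => hφe (by rw [h]; rfl)
  have hrank : Module.finrank K (ι → K) = n + 1 := by rw [Module.finrank_fintype_fun_eq_card, hn]
  have hspan : Submodule.span K (Set.range z) = LinearMap.ker φ := by
    apply Submodule.eq_of_le_of_finrank_eq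
    · rw [Submodule.span_le]
      rintro _ ⟨l, rfl⟩
      show φ (z l) = 0
      rw [hφa]
      exact h0 l
    · rw [finrank_span_eq_card hz, Fintype.card_fin]
      have := Module.Dual.finrank_ker_add_one_of_ne_zero (f := φ) hφ0
      rw [hrank] at this
      omega
  have hmem : ∀ x : ι → K, φ x = 0 → x ∈ Submodule.span K (Set.range z) := by
    intro x hx
    rw [hspan]
    exact hx
  have he₀' : e₀ ∉ Submodule.span K (Set.range z) := by
    rw [hspan]
    exact hφe
  have hli : LinearIndependent K (Matrix.vecCons e₀ z) := by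
    show LinearIndependent K (Fin.cons e₀ z : Fin (n + 1) → ι → K)
    rw [linearIndependent_finCons]
    exact ⟨hz, he₀'⟩
  have hD0 : (bas K hn).det (Matrix.vecCons e₀ z) ≠ 0 := by
    have h1 : IsUnit ((bas K hn).det (Matrix.vecCons e₀ z)) := by
      rw [← Module.Basis.is_basis_iff_det]
      exact ⟨hli, hli.span_eq_top_of_card_eq_finrank' (by rw [Fintype.card_fin, hrank])⟩
    exact h1.ne_zero
  -- the functional `D`
  have hadd : ∀ (x y : ι → K) (a : K), (bas K hn).det (Matrix.vecCons (x + a • y) z) =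
      (bas K hn).det (Matrix.vecCons x z) + a * (bas K hn).det (Matrix.vecCons y z) := by
    intro x y a
    have h1 := (bas K hn).det.map_vecCons_add z x (a • y)
    have h2 := (bas K hn).det.map_vecCons_smul z a y
    rw [h1, h2, smul_eq_mul]
  refine ⟨(bas K hn).det (Matrix.vecCons e₀ z) / φ e₀, div_ne_zero hD0 hφe, fun e => ?_⟩
  rw [← hφa]
  have h1 : φ (e + (-(φ e / φ e₀)) • e₀) = 0 := by
    rw [map_add, map_smul, smul_eq_mul]
    field_simp
    ring
  have h2 := hmem _ h1
  have h3 : (bas K hn).det (Matrix.vecCons (e + (-(φ e / φ e₀)) • e₀) z) = 0 := by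
    apply AlternatingMap.map_linearDependent
    intro hcon
    have hcon' : LinearIndependent K (Fin.cons (e + (-(φ e / φ e₀)) • e₀) z : Fin (n + 1) → ι → K) := hcon
    rw [linearIndependent_finCons] at hcon'
    exact hcon'.2 h2
  rw [hadd] at h3
  field_simp
  field_simp at h3
  linear_combination h3

/-- change of coordinates -/
lemma det_change {n : ℕ} (hn : Fintype.card ι = n + 1) (L : Matrix ι ι K) (w : Fin (n + 1) → ι → K) :
    (bas K hn).det (fun l => Matrix.mulVec L (w l)) = L.det * (bas K hn).det w := by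
  have h := Module.Basis.det_comp (bas K hn) (Matrix.mulVecLin L) w
  have h2 : LinearMap.det (Matrix.mulVecLin L) = L.det := by
    rw [← Matrix.toLin'_apply', LinearMap.det_toLin']
  rw [h2] at h
  exact h

/-- the key formula -/
lemma kappa_formula {n : ℕ} (hn : Fintype.card ι = n + 1) {M : ι → K} {z : Fin n → ι → K} {κ : K}
    (hκ : ∀ e : ι → K, (bas K hn).det (Matrix.vecCons e z) = κ * ∑ i, M i * e i)
    {L : Matrix ι ι K} (hL : L.det ≠ 0) (i : ι) :
    L.det * (κ * Matrix.vecMul M L⁻¹ i) =
      (bas K hn).det (Matrix.vecCons (Pi.single i 1) fun l => Matrix.mulVec L (z l)) := by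
  have hu : IsUnit L.det := hL.isUnit
  have h1 : Matrix.vecMul M L⁻¹ i = ∑ j, M j * (Matrix.mulVec L⁻¹ (Pi.single i 1)) j := by
    simp [Matrix.vecMul, dotProduct]
  rw [h1, ← hκ, ← det_change]
  congr 1
  funext l
  refine Fin.cases ?_ (fun l => ?_) l
  · simp only [Matrix.cons_val_zero]
    rw [Matrix.mulVec_mulVec, Matrix.mul_nonsing_inv _ hu, Matrix.one_mulVec]
  · simp only [Matrix.cons_val_succ]

end lin

section nvl

variable {K : Type*} [Field K] [NumberField K] {ι : Type*} [Fintype ι] [DecidableEq ι]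

lemma nv_neg (v : Pl K) (y : K) : nv v (-y) = nv v y := by
  rcases v with v | v
  · have h : v (-y) = v y := v.1.map_neg y
    simp [nv, h]
  · simp [nv]

lemma nv_prod {α : Type*} (v : Pl K) (s : Finset α) (f : α → K) :
    nv v (∏ i ∈ s, f i) = ∏ i ∈ s, nv v (f i) := by
  classical
  induction s using Finset.induction_on with
  | empty => simp [nv_one]
  | insert a s ha ih => rw [Finset.prod_insert ha, Finset.prod_insert ha, nv_mul, ih]

/-- the local number of terms -/
noncomputable def mlt (N : ℝ) : Pl K → ℝ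
  | .inl v => N ^ v.mult
  | .inr _ => 1

lemma mlt_pos {N : ℝ} (hN : 0 < N) (v : Pl K) : 0 < mlt N v := by
  rcases v with v | v
  · exact pow_pos hN _
  · exact one_pos

end nvl

end P1

end Pool.Agent.V2
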