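import Mathlib
import Pool.Agent.Helper21.V2.P1a
import Pool.Agent.Helper21.V2.BA
import Pool.Agent.Helper21.V2.BB

/-!
# Block P1: the dichotomy
-/

namespace Pool.Agent.V2

open NumberField Finset
open Pool.Agent.Helper64.Vojta (Pl nv nv_nonneg nv_mul nv_one nv_zero nv_pos nv_inv)

namespace P1

variable {K : Type*} [Field K] [NumberField K] {ι : Type*} [Fintype ι] [DecidableEq ι]

lemma nv_sum_mlt (v : Pl K) {α : Type*} (s : Finset α) (f : α → K) {B : ℝ} (hB : 0 ≤ B)
    (h : ∀ i ∈ s, nv v (f i) ≤ B) : nv v (∑ i ∈ s, f i) ≤ mlt (s.card : ℝ) v * B := by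
  rcases v with v | v
  · exact nv_sum_inl v s f hB h
  · rw [mlt, one_mul]
    exact nv_sum_inr v s f hB h

lemma det_bound {n : ℕ} (hn : Fintype.card ι = n + 1) (v : Pl K) (i : ι) (y : Fin n → ι → K)
    (b : ι → ℝ) (hy : ∀ l i', nv v (y l i') ≤ Real.exp (b i')) :
    nv v ((bas K hn).det (Matrix.vecCons (Pi.single i 1) y)) ≤
      mlt ((n + 1).factorial : ℝ) v * Real.exp (∑ i', b i' - b i) := by
  classical
  set e : ι ≃ Fin (n + 1) := Fintype.equivFinOfCardEq hn with he
  have h1 : (bas K hn).det (Matrix.vecCons (Pi.single i 1) y) =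
      ∑ σ : Equiv.Perm (Fin (n + 1)), Equiv.Perm.sign σ •
        ∏ b : Fin (n + 1), (Matrix.vecCons (Pi.single i 1) y : Fin (n + 1) → ι → K) b (e.symm (σ b)) := by
    rw [Module.Basis.det_apply, Matrix.det_apply]
    refine Finset.sum_congr rfl fun σ _ => ?_
    congr 1
  rw [h1]
  have hcard : (Finset.univ : Finset (Equiv.Perm (Fin (n + 1)))).card = (n + 1).factorial := by
    rw [Finset.card_univ, Fintype.card_perm, Fintype.card_fin]
  have h2 := nv_sum_mlt v (Finset.univ : Finset (Equiv.Perm (Fin (n + 1))))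
    (fun σ => Equiv.Perm.sign σ •
        ∏ b : Fin (n + 1), (Matrix.vecCons (Pi.single i 1) y : Fin (n + 1) → ι → K) b (e.symm (σ b)))
    (B := Real.exp (∑ i', b i' - b i)) (Real.exp_pos _).le ?_
  · rwa [hcard] at h2
  · intro σ _
    have h3 : nv v (Equiv.Perm.sign σ •
        ∏ b : Fin (n + 1), (Matrix.vecCons (Pi.single i 1) y : Fin (n + 1) → ι → K) b (e.symm (σ b))) =
        nv v (∏ b : Fin (n + 1), (Matrix.vecCons (Pi.single i 1) y : Fin (n + 1) → ι → K) b (e.symm (σ b))) := by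
      rcases Int.units_eq_one_or (Equiv.Perm.sign σ) with h | h
      · rw [h, one_smul]
      · rw [h, Units.neg_smul, one_smul, nv_neg]
    rw [h3, nv_prod, Fin.prod_univ_succ]
    simp only [Matrix.cons_val_zero, Matrix.cons_val_succ]
    by_cases hi : e.symm (σ 0) = i
    · rw [hi, Pi.single_eq_same, nv_one, one_mul]
      have h4 : ∏ b' : Fin n, nv v (y b' (e.symm (σ b'.succ))) ≤
          ∏ b' : Fin n, Real.exp (b (e.symm (σ b'.succ))) :=
        Finset.prod_le_prod (fun _ _ => nv_nonneg _ _) fun b' _ => hy _ _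
      refine h4.trans (le_of_eq ?_)
      rw [← Real.exp_sum]
      congr 1
      have h5 : ∑ i', b i' = ∑ a : Fin (n + 1), b (e.symm (σ a)) := by
        rw [← Equiv.sum_comp (σ.trans e.symm) b]
        rfl
      rw [h5, Fin.sum_univ_succ, hi]
      ring
    · rw [Pi.single_eq_of_ne hi, nv_zero, zero_mul]
      exact (Real.exp_pos _).le

/-! ### Finite supports -/

lemma finS_of_zero (S : Finset (FinitePlace K)) {f : Pl K → ℝ}
    (h : ∀ v : FinitePlace K, v ∉ S → f (.inr v) = 0) : FinS f := by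
  refine S.finite_toSet.subset fun v hv => ?_
  by_contra hcon
  exact hv (h v hcon)

lemma finS_of_eq (S : Finset (FinitePlace K)) {f g : Pl K → ℝ} (hg : FinS g)
    (h : ∀ v : FinitePlace K, v ∉ S → f (.inr v) = g (.inr v)) : FinS f := by
  refine (S.finite_toSet.union hg).subset fun v hv => ?_
  by_cases hvS : v ∈ S
  · exact Or.inl hvS
  · right
    intro h0
    exact hv (by
      show f (.inr v) = 0
      rw [h v hvS]
      exact h0)

lemma finS_mlt (N : ℝ) : FinS (K := K) (fun v => Real.log (mlt N v)) :=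
  finS_of_zero ∅ fun v _ => by simp [mlt]

open Classical in
/-- the indicator of the infinite places and of `S` -/
noncomputable def ind (S : Finset (FinitePlace K)) : Pl K → ℝ
  | .inl _ => 1
  | .inr v => if v ∈ S then 1 else 0

open Classical in
lemma ind_nonneg (S : Finset (FinitePlace K)) (v : Pl K) : 0 ≤ ind S v := by
  rcases v with v | v
  · exact zero_le_one
  · show (0 : ℝ) ≤ if v ∈ S then 1 else 0
    split_ifs <;> norm_num

lemma finS_ind (S : Finset (FinitePlace K)) : FinS (ind S) :=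
  finS_of_zero S fun v hv => by simp [ind, hv]

/-! ### Coordinates with respect to the forms at a place -/

lemma xf_ne_zero {L : Matrix ι ι K} (hL : L.det ≠ 0) {M : ι → K} (hM : M ≠ 0) :
    Matrix.vecMul M L⁻¹ ≠ 0 := by
  intro h
  apply hM
  have h1 : Matrix.vecMul (Matrix.vecMul M L⁻¹) L = M := by
    rw [Matrix.vecMul_vecMul, Matrix.nonsing_inv_mul _ hL.isUnit, Matrix.vecMul_one]
  rw [← h1, h, Matrix.zero_vecMul]

lemma xf_eval {L : Matrix ι ι K} (hL : L.det ≠ 0) (M z : ι → K) :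
    ∑ i, M i * z i = ∑ i, Matrix.vecMul M L⁻¹ i * Matrix.mulVec L z i := by
  have h1 : dotProduct (Matrix.vecMul M L⁻¹) (Matrix.mulVec L z) = dotProduct M z := by
    rw [Matrix.dotProduct_mulVec, Matrix.vecMul_vecMul, Matrix.nonsing_inv_mul _ hL.isUnit,
      Matrix.vecMul_one]
  exact h1.symm

/-- lower bound for a nonzero coordinate -/
lemma low {L : Matrix ι ι K} (i : ι) (v : Pl K) : ∃ C : ℝ, ∀ M : ι → K, M ≠ 0 →
    Matrix.vecMul M L⁻¹ i ≠ 0 →
    Real.log (vn v M) - vH M - C ≤ Real.log (nv v (Matrix.vecMul M L⁻¹ i)) := by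
  classical
  set col : ι → K := fun j => L⁻¹ j i with hcol
  by_cases hc0 : col = 0
  · refine ⟨0, fun M _ h => ?_⟩
    exfalso
    apply h
    show ∑ j, M j * L⁻¹ j i = 0
    exact Finset.sum_eq_zero fun j _ => by
      have : L⁻¹ j i = 0 := congrFun hc0 j
      rw [this, mul_zero]
  set N : ℝ := (((Finset.univ : Finset ι).card : ℕ) : ℝ) with hN
  have hN0 : 0 < N := by
    have : (Finset.univ : Finset ι).Nonempty := ⟨i, Finset.mem_univ i⟩
    rw [hN]
    exact_mod_cast this.card_pos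
  refine ⟨-Real.log (vn v col) - Real.log (mlt N v) + vH col +
    gsum (K := K) (fun w => Real.log (mlt N w)), fun M hM h => ?_⟩
  have hf1 := finS_vn hM
  have hf2 := finS_vn hc0
  have hf3 := finS_mlt (K := K) N
  have h1 := le_nv_of_ne_zero h
    (fun w => (Real.log (vn w M) + Real.log (vn w col)) + Real.log (mlt N w))
    ((hf1.add hf2).add hf3) (fun w => ?_) v
  · rw [gsum_add (hf1.add hf2) hf3, gsum_add hf1 hf2] at h1
    unfold vH
    linarith
  · have hw1 := vn_pos w hM
    have hw2 := vn_pos w hc0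
    have h2 : nv w (Matrix.vecMul M L⁻¹ i) ≤ mlt N w * (vn w M * vn w col) := by
      show nv w (∑ j, M j * L⁻¹ j i) ≤ _
      refine nv_sum_mlt w _ _ (by positivity) fun j _ => ?_
      rw [nv_mul]
      exact mul_le_mul (le_vn w M j) (le_vn w col j) (nv_nonneg _ _) hw1.le
    have h3 := Real.log_le_log (nv_pos w h) h2
    rw [Real.log_mul (mlt_pos hN0 w).ne' (by positivity), Real.log_mul hw1.ne' hw2.ne'] at h3
    linarith

/-- uniform version -/
lemma low_unif (F : Frm K ι) : ∃ C : ℝ, ∀ v : Pl K, ind F.S v = 1 → ∀ i : ι, ∀ M : ι → K, M ≠ 0 →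
    Matrix.vecMul M (F.L v)⁻¹ i ≠ 0 →
    Real.log (vn v M) - vH M - C ≤ Real.log (nv v (Matrix.vecMul M (F.L v)⁻¹ i)) := by
  classical
  choose C hC using fun (v : Pl K) (i : ι) => low (L := F.L v) i v
  refine ⟨∑ v : InfinitePlace K, ∑ i, |C (.inl v) i| + ∑ v ∈ F.S, ∑ i, |C (.inr v) i|, ?_⟩
  intro v hv i M hM h
  have h1 := hC v i M hM h
  have h2 : C v i ≤ ∑ v : InfinitePlace K, ∑ i, |C (.inl v) i| + ∑ v ∈ F.S, ∑ i, |C (.inr v) i| := by
    have p1 : 0 ≤ ∑ v : InfinitePlace K, ∑ i, |C (.inl v) i| :=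
      Finset.sum_nonneg fun _ _ => Finset.sum_nonneg fun _ _ => abs_nonneg _
    have p2 : 0 ≤ ∑ v ∈ F.S, ∑ i, |C (.inr v) i| :=
      Finset.sum_nonneg fun _ _ => Finset.sum_nonneg fun _ _ => abs_nonneg _
    have q1 : C v i ≤ ∑ i, |C v i| :=
      (le_abs_self _).trans (Finset.single_le_sum (f := fun i => |C v i|)
        (fun _ _ => abs_nonneg _) (Finset.mem_univ i))
    rcases v with v | v
    · have q2 : ∑ i, |C (.inl v) i| ≤ ∑ v : InfinitePlace K, ∑ i, |C (.inl v) i| :=
        Finset.single_le_sum (f := fun v : InfinitePlace K => ∑ i, |C (.inl v) i|)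
          (fun _ _ => Finset.sum_nonneg fun _ _ => abs_nonneg _) (Finset.mem_univ v)
      linarith
    · have hvS : v ∈ F.S := by
        by_contra hcon
        simp [ind, hcon] at hv
      have q2 : ∑ i, |C (.inr v) i| ≤ ∑ v ∈ F.S, ∑ i, |C (.inr v) i| :=
        Finset.single_le_sum (f := fun v : FinitePlace K => ∑ i, |C (.inr v) i|)
          (fun _ _ => Finset.sum_nonneg fun _ _ => abs_nonneg _) hvS
      linarith
  linarith

/-- Case A -/
lemma caseA {n : ℕ} (hn : Fintype.card ι = n + 1) (F : Frm K ι) (c : Pl K → ι → ℝ)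
    (hc : ExpS F.S c) (hd : deg c < 0) :
    ∃ η : ℝ, 0 < η ∧ ∃ T0 : ℝ, ∀ t, T0 ≤ t → 0 < t → ∀ M : ι → K, M ≠ 0 →
      ∀ z : Fin n → ι → K, LinearIndependent K z → (∀ l, Bb F (sc t c) (z l)) →
      (∀ l, ∑ i, M i * z l i = 0) → ∀ iv : Pl K → ι,
      (∀ v, Matrix.vecMul M (F.L v)⁻¹ (iv v) ≠ 0) → deg c / 2 ≤ gsum (fun v => c v (iv v)) →
      η * t ≤ vH M := by
  classical
  obtain ⟨C₁, hC₁⟩ := low_unif F
  set N : ℝ := gsum (ind F.S) with hN
  have hN0 : 0 ≤ N := gsum_nonneg (ind_nonneg F.S)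
  set Cf : Pl K → ℝ := fun v => C₁ * ind F.S v + Real.log (mlt ((n + 1).factorial : ℝ) v) +
    -Real.log (nv v (F.L v).det) with hCf
  have hS1 : ∀ v : FinitePlace K, v ∉ F.S → (F.L (.inr v)) = 1 := F.hS
  have hfdet : FinS (fun v => Real.log (nv v (F.L v).det)) :=
    finS_of_zero F.S fun v hv => by rw [hS1 v hv, Matrix.det_one, nv_one, Real.log_one]
  have hfCf : FinS Cf := (((finS_ind F.S).const_mul C₁).add (finS_mlt _)).add hfdet.neg
  set C₂ : ℝ := gsum Cf with hC₂
  refine ⟨-deg c / (4 * (N + 1)), by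
    apply div_pos (by linarith) (by positivity), 4 * |C₂| / -deg c, ?_⟩
  intro t ht ht0 M hM z hz hb h0 iv hiv hdeg
  obtain ⟨κ, hκ0, hκ⟩ := exists_kappa hn hM hz h0
  have hfM := finS_vn hM
  have hfκ := finS_nv hκ0
  have hfc : FinS (fun v => ∑ l, c v l) := finS_of_zero F.S fun v hv => by
    rw [hc v hv]; simp
  have hfi : FinS (fun v => c v (iv v)) := finS_of_zero F.S fun v hv => by
    rw [hc v hv]; rfl
  have key : ∀ v : Pl K, Real.log (vn v M) + -(vH M) * ind F.S v ≤
      -Real.log (nv v κ) + Cf v + t * (∑ l, c v l + -(c v (iv v))) := by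
    intro v
    -- the bound for the coordinates
    have hco : ∀ i, Matrix.vecMul M (F.L v)⁻¹ i ≠ 0 →
        Real.log (nv v (F.L v).det) + Real.log (nv v κ) + Real.log (nv v (Matrix.vecMul M (F.L v)⁻¹ i)) ≤
        Real.log (mlt ((n + 1).factorial : ℝ) v) + t * (∑ l, c v l + -(c v i)) := by
      intro i hi
      have h1 := det_bound hn v i (fun l => Matrix.mulVec (F.L v) (z l)) (fun i => t * c v i)
        (fun l i' => hb l v i')
      rw [← kappa_formula hn hκ (F.hL v) i, nv_mul, nv_mul] at h1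
      have p1 := nv_pos v (F.hL v)
      have p2 := nv_pos v hκ0
      have p3 := nv_pos v hi
      have p4 : 0 < mlt ((n + 1).factorial : ℝ) v := mlt_pos (by positivity) v
      have h2 := Real.log_le_log (by positivity) h1
      rw [Real.log_mul p1.ne' (by positivity), Real.log_mul p2.ne' p3.ne',
        Real.log_mul p4.ne' (Real.exp_pos _).ne', Real.log_exp, ← Finset.mul_sum] at h2
      linarith
    rcases v with v | v
    · have h1 : ind F.S (.inl v : Pl K) = 1 := rfl
      have h2 := hC₁ (.inl v) h1 (iv (.inl v)) M hM (hiv _)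
      have h3 := hco _ (hiv _)
      simp only [hCf, h1]
      linarith
    · by_cases hvS : v ∈ F.S
      · have h1 : ind F.S (.inr v : Pl K) = 1 := by simp [ind, hvS]
        have h2 := hC₁ (.inr v) h1 (iv (.inr v)) M hM (hiv _)
        have h3 := hco _ (hiv _)
        simp only [hCf, h1]
        linarith
      · have h1 : ind F.S (.inr v : Pl K) = 0 := by simp [ind, hvS]
        have h4 : c (.inr v) = 0 := hc v hvS
        have h5 : vn (.inr v) M ≤ (nv (.inr v) κ)⁻¹ := by
          refine vn_le _ _ (inv_nonneg.mpr (nv_nonneg _ _)) fun i => ?_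
          by_cases hi : M i = 0
          · rw [hi, nv_zero]
            exact inv_nonneg.mpr (nv_nonneg _ _)
          · have h6 : Matrix.vecMul M (F.L (.inr v))⁻¹ i = M i := by
              rw [hS1 v hvS, inv_one, Matrix.vecMul_one]
            have h7 := hco i (by rw [h6]; exact hi)
            rw [h6, hS1 v hvS, Matrix.det_one, nv_one, Real.log_one, h4] at h7
            simp only [mlt, Real.log_one, Pi.zero_apply, Finset.sum_const_zero, neg_zero, add_zero,
              mul_zero, zero_add] at h7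
            have p2 := nv_pos (.inr v : Pl K) hκ0
            have p3 := nv_pos (.inr v : Pl K) hi
            refine (Real.log_le_log_iff p3 (inv_pos.mpr p2)).mp ?_
            rw [Real.log_inv]
            linarith
        have h8 := Real.log_le_log (vn_pos (.inr v : Pl K) hM) h5
        rw [Real.log_inv] at h8
        simp only [hCf, h1, h4, hS1 v hvS, Matrix.det_one, nv_one, Real.log_one, mlt, Pi.zero_apply,
          Finset.sum_const_zero]
        linarith
  have hsum := gsum_mono (hfM.add ((finS_ind F.S).const_mul _))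
    ((hfκ.neg.add hfCf).add ((hfc.add hfi.neg).const_mul t)) key
  rw [gsum_add hfM ((finS_ind F.S).const_mul _), gsum_const_mul,
    gsum_add (hfκ.neg.add hfCf) ((hfc.add hfi.neg).const_mul t), gsum_add hfκ.neg hfCf, gsum_neg,
    gsum_nv hκ0, gsum_const_mul, gsum_add hfc hfi.neg, gsum_neg, ← hN, ← hC₂] at hsum
  have hdc : gsum (fun v => ∑ l, c v l) = deg c := rfl
  have hvH : gsum (fun v => Real.log (vn v M)) = vH M := rfl
  rw [hdc, hvH] at hsum
  have hH := vH_nonneg hM
  have hmain : t * (-deg c) / 2 ≤ |C₂| + (N - 1) * vH M := by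
    have h1 := le_abs_self C₂
    have h2 : t * (deg c + -gsum (fun v => c v (iv v))) ≤ t * (deg c / 2) :=
      mul_le_mul_of_nonneg_left (by linarith) ht0.le
    nlinarith
  have hC2t : |C₂| ≤ t * (-deg c) / 4 := by
    rw [div_le_iff₀ (by linarith)] at ht
    linarith
  rw [div_mul_eq_mul_div, div_le_iff₀ (by positivity)]
  nlinarith

/-- Case B: a nonzero `M'` whose coordinates are supported where the exponents are at most
`c v (iv v)` is proportional to `M`. -/
lemma caseB {n : ℕ} (hn : Fintype.card ι = n + 1) (F : Frm K ι) (c : Pl K → ι → ℝ)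
    (hc : ExpS F.S c) (hd : deg c < 0) {M' : ι → K} (hM' : M' ≠ 0) :
    ∃ T0 : ℝ, ∀ t, T0 ≤ t → 0 < t → ∀ M : ι → K, M ≠ 0 →
      ∀ z : Fin n → ι → K, LinearIndependent K z → (∀ l, Bb F (sc t c) (z l)) →
      (∀ l, ∑ i, M i * z l i = 0) → ∀ iv : Pl K → ι,
      gsum (fun v => c v (iv v)) < deg c / 2 →
      (∀ v, ∀ i, Matrix.vecMul M' (F.L v)⁻¹ i ≠ 0 → c v i ≤ c v (iv v)) →
      ∃ a : K, a ≠ 0 ∧ M = a • M' := by
  classical
  have hS1 : ∀ v : FinitePlace K, v ∉ F.S → (F.L (.inr v)) = 1 := F.hS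
  set N : ℝ := (((Finset.univ : Finset ι).card : ℕ) : ℝ) with hN
  have hN0 : 0 < N := by
    rw [hN, Finset.card_univ, hn]
    positivity
  set D : Pl K → ℝ := fun v => Real.log (mlt N v) + Real.log (vn v (Matrix.vecMul M' (F.L v)⁻¹)) with hD
  have hfx : FinS (fun v => Real.log (vn v (Matrix.vecMul M' (F.L v)⁻¹))) :=
    finS_of_eq F.S (finS_vn hM') fun v hv => by
      rw [hS1 v hv, inv_one, Matrix.vecMul_one]
  have hfD : FinS D := (finS_mlt N).add hfx
  refine ⟨2 * |gsum D| / -deg c, ?_⟩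
  intro t ht ht0 M hM z hz hb h0 iv hdeg hsupp
  by_contra hcon
  -- some `M' · z_l` is not zero
  obtain ⟨l, hl⟩ : ∃ l, ∑ i, M' i * z l i ≠ 0 := by
    by_contra hcon2
    push Not at hcon2
    apply hcon
    obtain ⟨κ, hκ0, hκ⟩ := exists_kappa hn hM hz h0
    obtain ⟨κ', hκ'0, hκ'⟩ := exists_kappa hn hM' hz hcon2
    refine ⟨κ' / κ, div_ne_zero hκ'0 hκ0, ?_⟩
    funext i
    have h1 := hκ (Pi.single i 1)
    rw [hκ'] at h1
    simp only [Pi.single_apply, mul_ite, mul_one, mul_zero, Finset.sum_ite_eq', Finset.mem_univ,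
      if_true] at h1
    rw [Pi.smul_apply, smul_eq_mul, div_mul_eq_mul_div, eq_div_iff hκ0]
    linear_combination -h1
  have hfi : FinS (fun v => c v (iv v)) := finS_of_zero F.S fun v hv => by
    rw [hc v hv]; rfl
  have key : ∀ v : Pl K, Real.log (nv v (∑ i, M' i * z l i)) ≤ D v + t * c v (iv v) := by
    intro v
    rw [xf_eval (F.hL v) M' (z l)]
    have hx : Matrix.vecMul M' (F.L v)⁻¹ ≠ 0 := xf_ne_zero (F.hL v) hM'
    have hx0 := vn_pos v hx
    have h1 : nv v (∑ i, Matrix.vecMul M' (F.L v)⁻¹ i * Matrix.mulVec (F.L v) (z l) i) ≤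
        mlt N v * (vn v (Matrix.vecMul M' (F.L v)⁻¹) * Real.exp (t * c v (iv v))) := by
      refine nv_sum_mlt v _ _ (by positivity) fun i _ => ?_
      rw [nv_mul]
      by_cases hi : Matrix.vecMul M' (F.L v)⁻¹ i = 0
      · rw [hi, nv_zero, zero_mul]
        positivity
      · refine mul_le_mul (le_vn v _ i) ?_ (nv_nonneg _ _) hx0.le
        refine (hb l v i).trans (Real.exp_le_exp.mpr ?_)
        exact mul_le_mul_of_nonneg_left (hsupp v i hi) ht0.le
    have hne : ∑ i, Matrix.vecMul M' (F.L v)⁻¹ i * Matrix.mulVec (F.L v) (z l) i ≠ 0 := by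
      rw [← xf_eval (F.hL v) M' (z l)]
      exact hl
    have h2 := Real.log_le_log (nv_pos v hne) h1
    rw [Real.log_mul (mlt_pos hN0 v).ne' (by positivity), Real.log_mul hx0.ne' (Real.exp_pos _).ne',
      Real.log_exp] at h2
    simp only [hD]
    linarith
  have hsum := gsum_mono (finS_nv hl) (hfD.add (hfi.const_mul t)) key
  rw [gsum_nv hl, gsum_add hfD (hfi.const_mul t), gsum_const_mul] at hsum
  have h1 := le_abs_self (gsum D)
  have h2 : |gsum D| ≤ t * (-deg c) / 2 := by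
    rw [div_le_iff₀ (by linarith)] at ht
    linarith
  have h3 : t * gsum (fun v => c v (iv v)) < t * (deg c / 2) := mul_lt_mul_of_pos_left hdeg ht0
  linarith

end P1

open P1 in
/-- P1. -/
theorem dichotomy {K : Type*} [Field K] [NumberField K] {ι : Type*} [Fintype ι] [DecidableEq ι]
    {n : ℕ} (hn : Fintype.card ι = n + 1) (F : Frm K ι) (c : Pl K → ι → ℝ)
    (hc : ExpS F.S c) (hd : deg c < 0) :
    ∃ η : ℝ, 0 < η ∧ ∃ (T0 : ℝ) (s : Finset (ι → K)), ∀ t, T0 ≤ t → ∀ M : ι → K, M ≠ 0 →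
      ∀ z : Fin n → ι → K, LinearIndependent K z → (∀ l, Bb F (sc t c) (z l)) →
      (∀ l, ∑ i, M i * z l i = 0) → η * t ≤ vH M ∨ ∃ M0 ∈ s, ∃ a : K, a ≠ 0 ∧ M = a • M0 := by
  classical
  obtain ⟨η, hη, T1, hA⟩ := caseA hn F c hc hd
  -- the patterns
  set J : Type _ := (InfinitePlace K → ι) × (F.S → ι) with hJ
  set W : J → Set (ι → K) := fun j => {M' | M' ≠ 0 ∧
    (∀ v : InfinitePlace K, ∀ i, Matrix.vecMul M' (F.L (.inl v))⁻¹ i ≠ 0 →
      c (.inl v) i ≤ c (.inl v) (j.1 v)) ∧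
    (∀ v : F.S, ∀ i, Matrix.vecMul M' (F.L (.inr v.1))⁻¹ i ≠ 0 →
      c (.inr v.1) i ≤ c (.inr v.1) (j.2 v))} with hW
  have hne : Nonempty ι := Fintype.card_pos_iff.mp (by omega)
  obtain ⟨M1, hM1⟩ : ∃ M1 : J → ι → K, ∀ j, M1 j ≠ 0 ∧ ((W j).Nonempty → M1 j ∈ W j) := by
    refine ⟨fun j => if h : (W j).Nonempty then h.some else fun _ => 1, fun j => ?_⟩
    by_cases h : (W j).Nonempty
    · simp only [dif_pos h]
      exact ⟨h.some_mem.1, fun _ => h.some_mem⟩
    · simp only [dif_neg h]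
      refine ⟨fun h0 => ?_, fun h' => absurd h' h⟩
      have := congrFun h0 hne.some
      simp at this
  choose T2 hT2 using fun j => caseB hn F c hc hd (hM1 j).1
  have : Fintype J := by rw [hJ]; infer_instance
  refine ⟨η, hη, max 1 (max T1 (∑ j, |T2 j|)), Finset.univ.image M1, ?_⟩
  intro t ht M hM z hz hb h0
  have ht1 : 1 ≤ t := (le_max_left _ _).trans ht
  have ht0 : 0 < t := by linarith
  have htT1 : T1 ≤ t := (le_max_left _ _).trans ((le_max_right _ _).trans ht)
  have htT2 : ∀ j, T2 j ≤ t := fun j => by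
    have h1 : |T2 j| ≤ ∑ j, |T2 j| :=
      Finset.single_le_sum (f := fun j => |T2 j|) (fun _ _ => abs_nonneg _) (Finset.mem_univ j)
    have h2 : ∑ j, |T2 j| ≤ t := (le_max_right _ _).trans ((le_max_right _ _).trans ht)
    exact (le_abs_self _).trans (h1.trans h2)
  -- the choice of the largest exponent
  have hmax : ∀ v : Pl K, ∃ i, Matrix.vecMul M (F.L v)⁻¹ i ≠ 0 ∧
      ∀ i', Matrix.vecMul M (F.L v)⁻¹ i' ≠ 0 → c v i' ≤ c v i := by
    intro v
    have hx : Matrix.vecMul M (F.L v)⁻¹ ≠ 0 := xf_ne_zero (F.hL v) hM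
    obtain ⟨i₀, hi₀⟩ : ∃ i, Matrix.vecMul M (F.L v)⁻¹ i ≠ 0 := by
      by_contra hcon
      push Not at hcon
      exact hx (funext hcon)
    obtain ⟨i, hi, hi2⟩ := Finset.exists_max_image
      (Finset.univ.filter fun i => Matrix.vecMul M (F.L v)⁻¹ i ≠ 0) (fun i => c v i)
      ⟨i₀, by simpa using hi₀⟩
    refine ⟨i, by simpa using hi, fun i' hi' => hi2 i' (by simpa using hi')⟩
  choose iv hiv1 hiv2 using hmax
  rcases le_or_gt (deg c / 2) (gsum (fun v => c v (iv v))) with h | h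
  · left
    exact hA t htT1 ht0 M hM z hz hb h0 iv hiv1 h
  · right
    set j : J := (fun v => iv (.inl v), fun v => iv (.inr v.1)) with hj
    have hjW : (W j).Nonempty := ⟨M, hM, fun v i hi => hiv2 _ i hi, fun v i hi => hiv2 _ i hi⟩
    obtain ⟨_, g2, g3⟩ := (hM1 j).2 hjW
    refine ⟨M1 j, Finset.mem_image_of_mem _ (Finset.mem_univ j), ?_⟩
    refine hT2 j t (htT2 j) ht0 M hM z hz hb h0 iv h fun v i hi => ?_
    rcases v with v | v
    · exact g2 v i hi
    · by_cases hvS : v ∈ F.S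
      · exact g3 ⟨v, hvS⟩ i hi
      · rw [hc v hvS]
        exact le_rfl

end Pool.Agent.V2
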