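import Pool.Agent.Helper21.V2.BA
import Pool.Agent.Helper21.V2.M0
import Pool.Agent.Helper21.V2.M4
import Pool.Agent.Helper21.V2.SL2

/-!
# SL4: Davenport's lemma (ultrafilter form)
-/

namespace Pool.Agent.V2

open NumberField Finset
open Pool.Agent.Helper64.Vojta (Pl nv nv_nonneg nv_pos nv_zero)

set_option linter.unusedSectionVars false

variable {K : Type*} [Field K] [NumberField K] {ι : Type*} [Fintype ι] [DecidableEq ι]

namespace SL4

/-! ### Elementary facts on the local twisted norm -/

theorem tn_congr (F : Frm K ι) {b b' : Pl K → ι → ℝ} (v : Pl K) (y : ι → K)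
    (h : b v = b' v) : tn F b v y = tn F b' v y := by
  unfold tn
  rw [h]

/-! ### A function supported at one infinite place -/

open Classical in
theorem gsum_single (v0 : InfinitePlace K) (a : ℝ) :
    gsum (fun v : Pl K => if v = .inl v0 then a else 0) = a := by
  unfold gsum
  simp

open Classical in
theorem finS_single (v0 : InfinitePlace K) (a : ℝ) :
    FinS (fun v : Pl K => if v = .inl v0 then a else 0) := by
  unfold FinS
  simp

/-! ### The modified exponents -/

open Classical in
/-- exponents lowered by `r` at the place `v0` -/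
noncomputable def md (v0 : InfinitePlace K) (r : ι → ℝ) (c : Pl K → ι → ℝ) : Pl K → ι → ℝ :=
  fun v i => if v = .inl v0 then c v i - r i else c v i

theorem md_self (v0 : InfinitePlace K) (r : ι → ℝ) (c : Pl K → ι → ℝ) (i : ι) :
    md v0 r c (.inl v0) i = c (.inl v0) i - r i := by
  simp [md]

theorem md_of_ne (v0 : InfinitePlace K) (r : ι → ℝ) (c : Pl K → ι → ℝ) {v : Pl K}
    (hv : v ≠ .inl v0) : md v0 r c v = c v := by
  funext i
  simp [md, hv]

theorem expS_md {S : Finset (FinitePlace K)} {c : Pl K → ι → ℝ} (hc : ExpS S c)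
    (v0 : InfinitePlace K) (r : ι → ℝ) : ExpS S (md v0 r c) := by
  intro v hv
  rw [md_of_ne v0 r c (by simp)]
  exact hc v hv

open Classical in
theorem deg_md {F : Frm K ι} {c : Pl K → ι → ℝ} (hc : ExpS F.S c) (v0 : InfinitePlace K)
    (r : ι → ℝ) : deg (md v0 r c) = deg c - ∑ i, r i := by
  have h1 : (fun v => ∑ i, md v0 r c v i)
      = fun v => (∑ i, c v i) + (if v = .inl v0 then -(∑ i, r i) else 0) := by
    funext v
    by_cases hv : v = .inl v0
    · subst hv
      simp only [md_self, if_true, Finset.sum_sub_distrib]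
      ring
    · rw [md_of_ne v0 r c hv, if_neg hv, add_zero]
  unfold deg
  rw [h1, gsum_add (finS_deg F c hc) (finS_single v0 _), gsum_single]
  ring

/-- The effect of the modification on the twisted height. -/
theorem tH_md {F : Frm K ι} {c : Pl K → ι → ℝ} (hc : ExpS F.S c) (v0 : InfinitePlace K)
    (r : ι → ℝ) {t : ℝ} {y : ι → K} (hy : y ≠ 0) {C a : ℝ} (hC : 0 < C)
    (h : tn F (sc t c) (.inl v0) y ≤
      C * Real.exp (-a) * tn F (sc t (md v0 r c)) (.inl v0) y) :
    tH F (sc t c) y + a - Real.log C ≤ tH F (sc t (md v0 r c)) y := by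
  classical
  have hf : FinS (fun v => Real.log (tn F (sc t c) v y)) := finS_tn F _ (ExpS.sc hc t) hy
  have hf' : FinS (fun v => Real.log (tn F (sc t (md v0 r c)) v y)) :=
    finS_tn F _ (ExpS.sc (expS_md hc v0 r) t) hy
  have h1 : tH F (sc t c) y + a - Real.log C
      = gsum (fun v => Real.log (tn F (sc t c) v y) +
        (if v = .inl v0 then a - Real.log C else 0)) := by
    rw [gsum_add hf (finS_single v0 _), gsum_single]
    unfold tH
    ring
  rw [h1]
  unfold tH
  apply gsum_mono (hf.add (finS_single v0 _)) hf'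
  intro v
  by_cases hv : v = .inl v0
  · subst hv
    rw [if_pos rfl]
    have p1 := tn_pos F (sc t c) (.inl v0) hy
    have p2 := tn_pos F (sc t (md v0 r c)) (.inl v0) hy
    have h2 := Real.log_le_log p1 h
    rw [Real.log_mul (mul_pos hC (Real.exp_pos _)).ne' p2.ne',
      Real.log_mul hC.ne' (Real.exp_pos _).ne', Real.log_exp] at h2
    linarith
  · rw [if_neg hv, add_zero]
    have : tn F (sc t c) v y = tn F (sc t (md v0 r c)) v y := by
      apply tn_congr
      unfold sc
      rw [md_of_ne v0 r c hv]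
    rw [this]

/-! ### Linear algebra -/

theorem exists_not_mem {V : Type*} [AddCommGroup V] [Module K V] {N : ℕ}
    {z x : Fin N → V} (hz : LinearIndependent K z) (l : Fin N) :
    ∃ m ≤ l, z m ∉ Submodule.span K (x '' {l' | l' < l}) := by
  classical
  by_contra hcon
  push Not at hcon
  have h1 : Submodule.span K (Set.range fun m : {m : Fin N // m ≤ l} => z m) ≤
      Submodule.span K (((Finset.univ.filter (fun l' : Fin N => l' < l)).image x : Finset V) : Set V) := by
    rw [Submodule.span_le]
    rintro _ ⟨m, rfl⟩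
    have := hcon m m.2
    simpa using this
  have h2 := Submodule.finrank_mono h1
  have h3 : Module.finrank K (Submodule.span K (Set.range fun m : {m : Fin N // m ≤ l} => z m))
      = l + 1 := by
    have h6 : LinearIndependent K (fun m : {m : Fin N // m ≤ l} => z m) :=
      hz.comp _ Subtype.val_injective
    rw [finrank_span_eq_card h6, Fintype.card_subtype]
    have : (Finset.univ.filter fun m : Fin N => m ≤ l) = Finset.Iic l := by
      ext; simp
    rw [this, Fin.card_Iic]
  have h4 : Module.finrank K (Submodule.span K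
      (((Finset.univ.filter (fun l' : Fin N => l' < l)).image x : Finset V) : Set V)) ≤ _ :=
    finrank_span_finset_le_card (R := K) ((Finset.univ.filter (fun l' : Fin N => l' < l)).image x)
  have h5 : ((Finset.univ.filter (fun l' : Fin N => l' < l)).image x).card ≤ l := by
    refine Finset.card_image_le.trans ?_
    have : (Finset.univ.filter fun m : Fin N => m < l) = Finset.Iio l := by
      ext; simp
    rw [this, Fin.card_Iio]
  omega

theorem exists_level {n : ℕ} (hn : Fintype.card ι = n) {x : Fin n → ι → K}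
    (hx : LinearIndependent K x) (l : Fin n) {y : ι → K}
    (hy : y ∉ Submodule.span K (x '' {l' | l' < l})) :
    ∃ l' ≥ l, y ∈ Submodule.span K (x '' {m | m ≤ l'}) ∧
      y ∉ Submodule.span K (x '' {m | m < l'}) := by
  classical
  have htop : Submodule.span K (Set.range x) = ⊤ := by
    apply hx.span_eq_top_of_card_eq_finrank'
    simp [hn]
  have hne : ∃ k : Fin n, y ∈ Submodule.span K (x '' {m | m ≤ k}) := by
    have hl : 0 < n := Fin.pos l
    refine ⟨⟨n - 1, by omega⟩, ?_⟩
    have : x '' {m : Fin n | m ≤ ⟨n - 1, by omega⟩} = Set.range x := by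
      rw [← Set.image_univ]
      congr 1
      ext m
      simp only [Set.mem_ofPred_eq, Set.mem_univ, iff_true, Fin.le_def]
      omega
    rw [this, htop]
    trivial
  let T : Finset (Fin n) := Finset.univ.filter fun k => y ∈ Submodule.span K (x '' {m | m ≤ k})
  have hT : T.Nonempty := by
    obtain ⟨k, hk⟩ := hne
    exact ⟨k, by simp [T, hk]⟩
  set k := T.min' hT with hk
  have hkT : k ∈ T := T.min'_mem hT
  have hky : y ∈ Submodule.span K (x '' {m | m ≤ k}) := by
    simpa [T] using hkT
  have hky2 : y ∉ Submodule.span K (x '' {m | m < k}) := by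
    intro h
    by_cases h0 : (k : ℕ) = 0
    · have : {m : Fin n | m < k} = ∅ := by
        ext m
        simp only [Set.mem_ofPred_eq, Set.mem_empty_iff_false, iff_false, Fin.lt_def]
        omega
      rw [this, Set.image_empty, Submodule.span_empty, Submodule.mem_bot] at h
      apply hy
      rw [h]
      exact Submodule.zero_mem _
    · have hk' : (k : ℕ) - 1 < n := by omega
      have h2 : (⟨(k : ℕ) - 1, hk'⟩ : Fin n) ∈ T := by
        simp only [T, Finset.mem_filter, Finset.mem_univ, true_and]
        have : {m : Fin n | m < k} = {m : Fin n | m ≤ ⟨(k : ℕ) - 1, hk'⟩} := by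
          ext m
          simp only [Set.mem_ofPred_eq, Fin.lt_def, Fin.le_def]
          omega
        rwa [this] at h
      have h3 := T.min'_le _ h2
      rw [← hk, Fin.le_def] at h3
      simp only at h3
      omega
  refine ⟨k, ?_, hky, hky2⟩
  by_contra hlt
  push Not at hlt
  apply hy
  refine Submodule.span_mono (Set.image_mono ?_) hky
  intro m hm
  exact lt_of_le_of_lt hm hlt

end SL4

open SL4

/-- SL4. Davenport's lemma. -/
theorem davenport {n : ℕ} {F : Frm K ι} {c : Pl K → ι → ℝ} (hc : ExpS F.S c) (hd : deg c = 0)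
    {U : Ultrafilter ℕ} {t : ℕ → ℝ} (ht : Filter.Tendsto t (U : Filter ℕ) Filter.atTop)
    {x : ℕ → Fin (n + 2) → ι → K} {ν : Fin (n + 2) → ℝ} (h : Slopes F c U t x ν)
    (hgap : ∀ l' < Fin.last (n + 1), ν l' < ν (Fin.last (n + 1))) :
    ∃ c' : Pl K → ι → ℝ, ExpS F.S c' ∧ deg c' < 0 ∧ ∀ᶠ j in (U : Filter ℕ),
      ∃ z : Fin (n + 1) → ι → K, LinearIndependent K z ∧ (∀ l, Bb F (sc (t j) c') (z l)) ∧
        Submodule.span K (Set.range z) =
          Submodule.span K (x j '' {l' | l' < Fin.last (n + 1)}) := by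
  classical
  obtain ⟨v0⟩ : Nonempty (InfinitePlace K) := inferInstance
  have hcard := h.card
  set L : Fin (n + 2) := Fin.last (n + 1) with hL
  set P : Fin (n + 2) := (Fin.last n).castSucc with hP
  have hPL : P < L := Fin.castSucc_lt_last _
  set g : ℝ := ν L - ν P with hg
  have hg0 : 0 < g := sub_pos.mpr (hgap P hPL)
  have hleP : ∀ l : Fin (n + 2), l < L → ν l ≤ ν P := by
    intro l hl
    apply h.mono
    rw [Fin.le_def]
    have : (l : ℕ) < n + 1 := hl
    simp only [hP, Fin.val_castSucc, Fin.val_last]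
    omega
  have hN : (0 : ℝ) < n + 2 := by positivity
  set σ : ℝ := -g / (n + 2) with hσ
  have hσ0 : σ < 0 := by
    rw [hσ]
    exact div_neg_of_neg_of_pos (by linarith) hN
  have hσN : (n + 2) * σ = -g := by
    rw [hσ]; field_simp
  -- the modification
  set r : Fin (n + 2) → ℝ := fun l => if l = L then σ - ν P else σ - ν l with hr
  have hrL : r L = σ - ν P := by simp [hr]
  have hrl : ∀ l, l < L → r l = σ - ν l := by
    intro l hl
    simp [hr, hl.ne]
  have hltL : ∀ l : Fin (n + 2), l ≠ L → l < L := fun l hl => lt_of_le_of_ne (Fin.le_last l) hl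
  have hr_anti : ∀ m l : Fin (n + 2), m ≤ l → r l ≤ r m := by
    intro m l hml
    by_cases hl : l = L
    · by_cases hm : m = L
      · rw [hl, hm]
      · rw [hl, hrL, hrl m (hltL m hm)]
        linarith [hleP m (hltL m hm)]
    · have hl' := hltL l hl
      rw [hrl l hl', hrl m (lt_of_le_of_lt hml hl')]
      linarith [h.mono hml]
  set ρ : Fin (n + 2) → ℝ := fun l => ν l + r l with hρ
  have hρl : ∀ l, l < L → ρ l = σ := by
    intro l hl
    simp only [hρ, hrl l hl]
    ring
  have hρL : ρ L = σ + g := by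
    simp only [hρ, hrL, hg]
    ring
  have hρ_mono : ∀ m l : Fin (n + 2), m ≤ l → ρ m ≤ ρ l := by
    intro m l hml
    by_cases hl : l = L
    · by_cases hm : m = L
      · rw [hl, hm]
      · rw [hl, hρL, hρl m (hltL m hm)]
        linarith
    · have hl' := hltL l hl
      rw [hρl l hl', hρl m (lt_of_le_of_lt hml hl')]
  have hsumν : ∑ l, ν l = 0 := by rw [h.sum, hd, neg_zero]
  have hsumr : ∑ l, r l = 0 := by
    rw [Fin.sum_univ_castSucc] at hsumν ⊢
    have h1 : ∀ l : Fin (n + 1), r l.castSucc = σ - ν l.castSucc := fun l =>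
      hrl _ (Fin.castSucc_lt_last l)
    rw [Finset.sum_congr rfl (fun l _ => h1 l), Finset.sum_sub_distrib, Finset.sum_const,
      Finset.card_univ, Fintype.card_fin, nsmul_eq_mul]
    have h2 : r (Fin.last (n + 1)) = σ - ν P := hrL
    rw [h2]
    push_cast
    have h3 : ν (Fin.last (n + 1)) = g + ν P := by rw [hg]; ring
    rw [h3] at hsumν
    linarith
  have hsumρ : ∑ l, ρ l = 0 := by
    simp only [hρ, Finset.sum_add_distrib, hsumν, hsumr, add_zero]
  -- Davenport's permutation, constant along the ultrafilter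
  set D : ℝ := ((n + 2 : ℕ) : ℝ) ^ (2 * (n + 2)) with hD
  have hD0 : 0 < D := by rw [hD]; positivity
  have hdav : ∃ π : Fin (n + 2) ≃ ι, ∀ᶠ j in (U : Filter ℕ), LinearIndependent K (x j) ∧
      ∀ l, ∀ y ∈ Submodule.span K (x j '' {l' | l' ≤ l}), ∀ i, ∃ m ≤ l,
        nv (.inl v0) (Matrix.mulVec (F.L (.inl v0)) y i) * Real.exp (-(t j * c (.inl v0) i)) ≤
          D * (nv (.inl v0) (Matrix.mulVec (F.L (.inl v0)) y (π m)) *
            Real.exp (-(t j * c (.inl v0) (π m)))) := by
    by_contra hcon
    have h1 : ∀ π : Fin (n + 2) ≃ ι, ∀ᶠ j in (U : Filter ℕ), ¬ (LinearIndependent K (x j) ∧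
      ∀ l, ∀ y ∈ Submodule.span K (x j '' {l' | l' ≤ l}), ∀ i, ∃ m ≤ l,
        nv (.inl v0) (Matrix.mulVec (F.L (.inl v0)) y i) * Real.exp (-(t j * c (.inl v0) i)) ≤
          D * (nv (.inl v0) (Matrix.mulVec (F.L (.inl v0)) y (π m)) *
            Real.exp (-(t j * c (.inl v0) (π m))))) :=
      fun π => Ultrafilter.eventually_not.mpr fun hev => hcon ⟨π, hev⟩
    have h2 := Filter.eventually_all.mpr h1
    obtain ⟨j, hj, hind⟩ := (h2.and h.indep).exists
    obtain ⟨π, hπ⟩ := dav hcard (.inl v0) (F.L (.inl v0)) (F.hL _)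
      (fun i => t j * c (.inl v0) i) (x j) hind
    exact hj π ⟨hind, hπ⟩
  obtain ⟨π, hπ⟩ := hdav
  set c2 : Pl K → ι → ℝ := md v0 (fun i => r (π.symm i)) c with hc2
  have hc2E : ExpS F.S c2 := expS_md hc v0 _
  have hc2d : deg c2 = 0 := by
    rw [hc2, deg_md hc, hd, Equiv.sum_comp π.symm r, hsumr, sub_zero]
  obtain ⟨x2, ν2, h2⟩ := slopes_exist hcard F c2 hc2E U t ht
  -- lower bounds for the new twisted heights
  have hlow : ∀ ε : ℝ, 0 < ε → ∀ l, ∀ᶠ j in (U : Filter ℕ), ∀ y : ι → K,
      y ∉ Submodule.span K (x j '' {l' | l' < l}) → (ρ l - ε) * t j ≤ tH F (sc (t j) c2) y := by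
    intro ε hε l
    have e1 : ∀ᶠ j in (U : Filter ℕ), ∀ l, ∀ y : ι → K,
        y ∉ Submodule.span K (x j '' {l' | l' < l}) →
          (ν l - ε / 2) * t j ≤ tH F (sc (t j) c) y :=
      Filter.eventually_all.mpr fun l => h.lower (ε / 2) (by linarith) l
    have e2 : ∀ᶠ j in (U : Filter ℕ), max 0 (2 * Real.log D / ε) ≤ t j :=
      ht.eventually_ge_atTop _
    filter_upwards [e1, e2, hπ] with j e1 e2 hπ y hy
    obtain ⟨hind, hπ⟩ := hπ
    have ht0 : 0 ≤ t j := (le_max_left _ _).trans e2
    have htD : Real.log D ≤ ε / 2 * t j := by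
      have := (le_max_right _ _).trans e2
      rw [div_le_iff₀ hε] at this
      linarith
    obtain ⟨l', hl', hy1, hy2⟩ := exists_level hcard hind l hy
    have hy0 : y ≠ 0 := by
      rintro rfl
      exact hy2 (Submodule.zero_mem _)
    have hkey : tn F (sc (t j) c) (.inl v0) y ≤
        D * Real.exp (-(t j * r l')) * tn F (sc (t j) c2) (.inl v0) y := by
      apply tn_le
      · exact mul_nonneg (mul_pos hD0 (Real.exp_pos _)).le (tn_pos F _ _ hy0).le
      intro i
      obtain ⟨m, hm, hineq⟩ := hπ l' y hy1 i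
      refine hineq.trans ?_
      rw [mul_assoc]
      apply mul_le_mul_of_nonneg_left _ hD0.le
      have e3 := le_tn F (sc (t j) c2) (.inl v0) y (π m)
      have e4 : sc (t j) c2 (.inl v0) (π m) = t j * c (.inl v0) (π m) - t j * r m := by
        unfold sc
        rw [hc2, md_self, Equiv.symm_apply_apply]
        ring
      rw [e4] at e3
      have e5 : Real.exp (-(t j * c (.inl v0) (π m))) ≤
          Real.exp (-(t j * r l')) * Real.exp (-(t j * c (.inl v0) (π m) - t j * r m)) := by
        rw [← Real.exp_add]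
        apply Real.exp_le_exp.mpr
        have := mul_le_mul_of_nonneg_left (hr_anti m l' hm) ht0
        linarith
      calc nv (.inl v0) (Matrix.mulVec (F.L (.inl v0)) y (π m)) *
            Real.exp (-(t j * c (.inl v0) (π m)))
          ≤ nv (.inl v0) (Matrix.mulVec (F.L (.inl v0)) y (π m)) *
            (Real.exp (-(t j * r l')) * Real.exp (-(t j * c (.inl v0) (π m) - t j * r m))) :=
            mul_le_mul_of_nonneg_left e5 (nv_nonneg _ _)
        _ = Real.exp (-(t j * r l')) * (nv (.inl v0) (Matrix.mulVec (F.L (.inl v0)) y (π m)) *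
            Real.exp (-(t j * c (.inl v0) (π m) - t j * r m))) := by ring
        _ ≤ _ := mul_le_mul_of_nonneg_left e3 (Real.exp_pos _).le
    have e6 := tH_md hc v0 (fun i => r (π.symm i)) hy0 hD0 hkey
    have e7 := e1 l' y hy2
    have e8 : ρ l ≤ ρ l' := hρ_mono l l' hl'
    have e9 : (ρ l - ε) * t j ≤ (ρ l' - ε) * t j := by
      apply mul_le_mul_of_nonneg_right _ ht0
      linarith
    have e10 : (ρ l' - ε) * t j = (ν l' - ε / 2) * t j + t j * r l' - ε / 2 * t j := by
      simp only [hρ]; ring
    linarith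
  -- upper bounds
  have hup : ∀ ε : ℝ, 0 < ε → ∀ᶠ j in (U : Filter ℕ), ∀ l,
      tH F (sc (t j) c2) (x2 j l) ≤ (ν2 l + ε) * t j := by
    intro ε hε
    have e1 := Filter.eventually_all.mpr fun l => h2.upper ε hε l
    filter_upwards [e1, h2.indep] with j e1 e2 l
    have e3 : sc (t j) (rai c2 (ν2 l + ε)) = rai (sc (t j) c2) (t j * (ν2 l + ε)) := by
      funext v i
      rcases v with v | v
      · simp only [sc, rai]; ring
      · simp only [sc, rai]
    have e4 := e1 l
    rw [e3] at e4
    have e5 := Bb.tH_le (ExpS.sc hc2E (t j)) (e2.ne_zero l) e4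
    linarith
  have htpos : ∀ᶠ j in (U : Filter ℕ), 0 < t j := ht.eventually_gt_atTop 0
  -- comparison of the slopes
  have hge : ∀ l, ρ l ≤ ν2 l := by
    intro l
    by_contra hlt
    push Not at hlt
    set ε := (ρ l - ν2 l) / 4 with hε
    have hε0 : 0 < ε := by rw [hε]; linarith
    obtain ⟨j, ⟨⟨j1, j2⟩, j3⟩, j4⟩ :=
      (((hlow ε hε0 l).and (hup ε hε0)).and h2.indep |>.and htpos).exists
    obtain ⟨m, hm, hm2⟩ := exists_not_mem (x := x j) j3 l
    have f1 := j1 _ hm2
    have f2 := j2 m
    have f3 : ν2 m ≤ ν2 l := h2.mono hm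
    have f4 : (ρ l - ε) * t j ≤ (ν2 l + ε) * t j :=
      f1.trans (f2.trans (mul_le_mul_of_nonneg_right (by linarith) j4.le))
    have f5 := le_of_mul_le_mul_right f4 j4
    linarith
  have heq : ∀ l, ν2 l = ρ l := by
    have hs2 : ∑ l, ν2 l = 0 := by rw [h2.sum, hc2d, neg_zero]
    have := (Finset.sum_eq_sum_iff_of_le (fun l _ => hge l)).mp (by rw [hs2, hsumρ])
    intro l
    exact (this l (Finset.mem_univ l)).symm
  -- the final exponents
  refine ⟨rai c2 (σ + -σ / 2), ExpS.rai hc2E _, ?_, ?_⟩
  · rw [deg_rai F.S c2 hc2E, hc2d, hcard]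
    push_cast
    have : ((n : ℝ) + 2) * (σ + -σ / 2) = -g / 2 := by
      have : ((n : ℝ) + 2) * (σ + -σ / 2) = ((n + 2) * σ) / 2 := by ring
      rw [this, hσN]
    linarith
  · have e1 : ∀ᶠ j in (U : Filter ℕ), ∀ l,
        Bb F (sc (t j) (rai c2 (ν2 l + -σ / 2))) (x2 j l) :=
      Filter.eventually_all.mpr fun l => h2.upper (-σ / 2) (by linarith) l
    filter_upwards [e1, h2.indep, h.indep, htpos, hlow (g / 4) (by linarith) L,
      hup (g / 4) (by linarith)] with j e1 e2 e3 e4 e5 e6
    refine ⟨fun l => x2 j l.castSucc, e2.comp _ (Fin.castSucc_injective _), ?_, ?_⟩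
    · intro l
      have := e1 l.castSucc
      rwa [heq, hρl _ (Fin.castSucc_lt_last l)] at this
    · have hmem : ∀ l : Fin (n + 1), x2 j l.castSucc ∈
          Submodule.span K (x j '' {l' | l' < L}) := by
        intro l
        by_contra hl
        have f1 := e5 _ hl
        have f2 := e6 l.castSucc
        rw [heq, hρl _ (Fin.castSucc_lt_last l)] at f2
        rw [hρL] at f1
        have f3 := le_of_mul_le_mul_right (f1.trans f2) e4
        linarith
      have hrange : (x j '' {l' | l' < L}) = Set.range fun l : Fin (n + 1) => x j l.castSucc := by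
        ext w
        simp only [Set.mem_image, Set.mem_ofPred_eq, Set.mem_range]
        constructor
        · rintro ⟨l', hl', rfl⟩
          exact ⟨l'.castLT hl', by simp⟩
        · rintro ⟨l, rfl⟩
          exact ⟨l.castSucc, Fin.castSucc_lt_last l, rfl⟩
      apply Submodule.eq_of_le_of_finrank_eq
      · rw [Submodule.span_le]
        rintro _ ⟨l, rfl⟩
        exact hmem l
      · have i1 : LinearIndependent K (fun l : Fin (n + 1) => x2 j l.castSucc) :=
          e2.comp _ (Fin.castSucc_injective _)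
        have i2 : LinearIndependent K (fun l : Fin (n + 1) => x j l.castSucc) :=
          e3.comp _ (Fin.castSucc_injective _)
        rw [hrange, finrank_span_eq_card i1, finrank_span_eq_card i2]

end Pool.Agent.V2
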