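import Pool.Agent.Helper21.V2.P1
import Pool.Agent.Helper21.V2.P2
import Pool.Agent.Helper21.V2.SL4

/-!
# Theorem P and the constancy of the last hyperplane (blocks P3, SL5)
-/

namespace Pool.Agent.V2

open NumberField Finset
open Pool.Agent.Helper64.Vojta (Pl nv)

variable {K : Type*} [Field K] [NumberField K] {ι : Type*} [Fintype ι] [DecidableEq ι]

namespace P3

/-- the hyperplane orthogonal to `M` -/
def hyp (M : ι → K) : Submodule K (ι → K) where
  carrier := {z | ∑ i, M i * z i = 0}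
  add_mem' := by
    intro a b ha hb
    simp only [Set.mem_ofPred_eq, Pi.add_apply] at ha hb ⊢
    simp only [mul_add, Finset.sum_add_distrib, ha, hb, add_zero]
  zero_mem' := by simp
  smul_mem' := by
    intro c a ha
    simp only [Set.mem_ofPred_eq, Pi.smul_apply, smul_eq_mul] at ha ⊢
    have : ∑ i, M i * (c * a i) = c * ∑ i, M i * a i := by
      rw [Finset.mul_sum]
      exact Finset.sum_congr rfl fun i _ => by ring
    rw [this, ha, mul_zero]

theorem mem_hyp {M z : ι → K} : z ∈ hyp M ↔ ∑ i, M i * z i = 0 := Iff.rfl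

theorem hyp_smul {a : K} (ha : a ≠ 0) (M : ι → K) : hyp (a • M) = hyp M := by
  ext z
  rw [mem_hyp, mem_hyp]
  have : ∑ i, (a • M) i * z i = a * ∑ i, M i * z i := by
    rw [Finset.mul_sum]
    exact Finset.sum_congr rfl fun i _ => by simp only [Pi.smul_apply, smul_eq_mul]; ring
  rw [this]
  simp [ha]

theorem hyp_ne_top {M : ι → K} (hM : M ≠ 0) : hyp M ≠ ⊤ := by
  intro h
  apply hM
  ext i
  have : (Pi.single i 1 : ι → K) ∈ hyp M := by rw [h]; trivial
  rw [mem_hyp] at this
  simpa [Pi.single_apply] using this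

/-- `n` vectors in a space of dimension `n + 1` lie in a hyperplane. -/
theorem exists_hyp {n : ℕ} (hn : Fintype.card ι = n + 1) (z : Fin n → ι → K) :
    ∃ M : ι → K, M ≠ 0 ∧ ∀ l, ∑ i, M i * z l i = 0 := by
  have hlt : Module.finrank K (Fin n → K) < Module.finrank K (ι → K) := by
    simp [hn]
  let f : (ι → K) →ₗ[K] (Fin n → K) := Matrix.mulVecLin (Matrix.of fun (l : Fin n) (i : ι) => z l i)
  have hker := LinearMap.ker_ne_bot_of_finrank_lt (f := f) hlt
  obtain ⟨M, hM, hM0⟩ := Submodule.exists_mem_ne_zero_of_ne_bot hker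
  refine ⟨M, hM0, fun l => ?_⟩
  have h1 : f M = 0 := hM
  have h2 : f M l = 0 := by rw [h1]; rfl
  have h3 : f M l = ∑ i, z l i * M i := by
    simp only [f, Matrix.mulVecLin_apply, Matrix.mulVec, dotProduct, Matrix.of_apply]
  rw [h3] at h2
  rw [← h2]
  exact Finset.sum_congr rfl fun i _ => mul_comm _ _

theorem span_eq_hyp {n : ℕ} (hn : Fintype.card ι = n + 1) {z : Fin n → ι → K}
    (hz : LinearIndependent K z) {M : ι → K} (hM : M ≠ 0) (h : ∀ l, ∑ i, M i * z l i = 0) :
    Submodule.span K (Set.range z) = hyp M := by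
  have hle : Submodule.span K (Set.range z) ≤ hyp M := by
    rw [Submodule.span_le]
    rintro _ ⟨l, rfl⟩
    exact h l
  apply Submodule.eq_of_le_of_finrank_le hle
  have h1 : Module.finrank K (Submodule.span K (Set.range z)) = n := by
    rw [finrank_span_eq_card hz, Fintype.card_fin]
  have h2 : Module.finrank K (hyp M) < Module.finrank K (ι → K) :=
    Submodule.finrank_lt (hyp_ne_top hM)
  rw [Module.finrank_fintype_fun_eq_card, hn] at h2
  omega

/-- A function which takes eventually only finitely many values along an ultrafilter is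
eventually constant. -/
theorem eventually_const {α β : Type*} (U : Ultrafilter α) (f : α → β) (s : Set β) (hs : s.Finite)
    (h : ∀ᶠ a in (U : Filter α), f a ∈ s) : ∃ b, ∀ᶠ a in (U : Filter α), f a = b := by
  have h1 : (⋃ b ∈ s, f ⁻¹' {b}) ∈ U := by
    have : (⋃ b ∈ s, f ⁻¹' {b}) = {a | f a ∈ s} := by
      ext a
      simp
    rw [this]
    exact h
  rw [Ultrafilter.finite_biUnion_mem_iff hs] at h1
  obtain ⟨b, _, hb⟩ := h1
  exact ⟨b, hb⟩

end P3

/-- P3. Theorem P. -/
theorem thmP {n : ℕ} (hn : Fintype.card ι = n + 1) (F : Frm K ι) (c : Pl K → ι → ℝ)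
    (hc : ExpS F.S c) (hd : deg c < 0) :
    ∃ (T0 : ℝ) (s : Set (Submodule K (ι → K))), s.Finite ∧ ∀ t, T0 ≤ t →
      ∀ z : Fin n → ι → K, LinearIndependent K z → (∀ l, Bb F (sc t c) (z l)) →
      Submodule.span K (Set.range z) ∈ s := by
  obtain ⟨η, hη, T1, s, h1⟩ := dichotomy hn F c hc hd
  obtain ⟨T2, h2⟩ := roth_machine hn F c hc hd η hη
  refine ⟨max T1 T2, P3.hyp '' (s : Set (ι → K)), (Finset.finite_toSet s).image _, ?_⟩
  intro t ht z hz hb
  obtain ⟨M, hM, hMz⟩ := P3.exists_hyp hn z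
  have h3 := h2 t ((le_max_right _ _).trans ht) M hM z hz hb hMz
  rcases h1 t ((le_max_left _ _).trans ht) M hM z hz hb hMz with h4 | ⟨M0, hM0, a, ha, h4⟩
  · exact absurd h4 (not_le.mpr h3)
  · refine ⟨M0, hM0, ?_⟩
    rw [P3.span_eq_hyp hn hz hM hMz, h4, P3.hyp_smul ha]

/-- SL5. -/
theorem last_const {n : ℕ} {F : Frm K ι} {c : Pl K → ι → ℝ} (hc : ExpS F.S c) (hd : deg c = 0)
    {U : Ultrafilter ℕ} {t : ℕ → ℝ} (ht : Filter.Tendsto t (U : Filter ℕ) Filter.atTop)
    {x : ℕ → Fin (n + 2) → ι → K} {ν : Fin (n + 2) → ℝ} (h : Slopes F c U t x ν)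
    (hgap : ∀ l' < Fin.last (n + 1), ν l' < ν (Fin.last (n + 1))) :
    ∃ W : Submodule K (ι → K), ∀ᶠ j in (U : Filter ℕ),
      Submodule.span K (x j '' {l' | l' < Fin.last (n + 1)}) = W := by
  obtain ⟨c', hc', hd', hev⟩ := davenport hc hd ht h hgap
  have hcard : Fintype.card ι = (n + 1) + 1 := h.card
  obtain ⟨T0, s, hs, hP⟩ := thmP hcard F c' hc' hd'
  apply P3.eventually_const U _ s hs
  filter_upwards [hev, ht.eventually_ge_atTop T0] with j hj hT
  obtain ⟨z, hz, hb, hspan⟩ := hj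
  rw [← hspan]
  exact hP (t j) hT z hz hb

end Pool.Agent.V2
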