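import Pool.Agent.Helper21.V2.Defs2

/-!
# Block TR: linear changes of coordinates
-/

namespace Pool.Agent.V2

open MvPolynomial

set_option linter.unusedVariables false

section alg

variable {k : Type*} [Field k] [CharZero k]

/-- TR1. -/
theorem sub3_sub3 (g h : Matrix (Fin 3) (Fin 3) k) (s : MvPolynomial (Fin 3) k) :
    sub3 g (sub3 h s) = sub3 (h * g) s := by
  unfold sub3
  rw [bind₁_bind₁]
  congr 2
  funext i
  rw [map_sum]
  simp only [map_mul, algHom_C, bind₁_X_right, Matrix.mul_apply, map_sum, Finset.sum_mul,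
    Finset.mul_sum]
  rw [Finset.sum_comm]
  refine Finset.sum_congr rfl fun a _ => Finset.sum_congr rfl fun b _ => ?_
  rw [algebraMap_eq]
  ring

theorem sub3_one (s : MvPolynomial (Fin 3) k) : sub3 1 s = s := by
  unfold sub3
  have : (fun i => ∑ j, C ((1 : Matrix (Fin 3) (Fin 3) k) i j) * (X j : MvPolynomial (Fin 3) k))
      = X := by
    funext i
    rw [Finset.sum_eq_single i]
    · simp
    · intro j _ hj
      rw [Matrix.one_apply_ne hj.symm]
      simp
    · intro h
      exact absurd (Finset.mem_univ i) h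
  rw [this, bind₁_X_left]
  rfl

theorem sub3_hom (g : Matrix (Fin 3) (Fin 3) k) {s : MvPolynomial (Fin 3) k} {N : ℕ}
    (hs : s.IsHomogeneous N) : (sub3 g s).IsHomogeneous N := by
  unfold sub3 bind₁
  have := hs.aeval (fun i => ∑ j, C (g i j) * (X j : MvPolynomial (Fin 3) k)) (n := 1) (by
    intro i
    refine IsHomogeneous.sum _ _ _ fun j _ => ?_
    have h := (isHomogeneous_C (Fin 3) (g i j)).mul (isHomogeneous_X k j)
    rwa [zero_add] at h)
  rwa [one_mul] at this

theorem sub3_mul (g : Matrix (Fin 3) (Fin 3) k) (s t : MvPolynomial (Fin 3) k) :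
    sub3 g (s * t) = sub3 g s * sub3 g t := by
  unfold sub3
  rw [map_mul]

theorem sub3_add (g : Matrix (Fin 3) (Fin 3) k) (s t : MvPolynomial (Fin 3) k) :
    sub3 g (s + t) = sub3 g s + sub3 g t := by
  unfold sub3
  rw [map_add]

theorem sub3_C (g : Matrix (Fin 3) (Fin 3) k) (a : k) : sub3 g (C a) = C a := by
  unfold sub3
  exact bind₁_C_right _ _

/-- the automorphism of the polynomial ring -/
noncomputable def sub3E {g g' : Matrix (Fin 3) (Fin 3) k} (hg : g * g' = 1) :
    MvPolynomial (Fin 3) k ≃ₐ[k] MvPolynomial (Fin 3) k :=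
  AlgEquiv.ofAlgHom (bind₁ (fun i => ∑ j, C (g i j) * X j)) (bind₁ (fun i => ∑ j, C (g' i j) * X j))
    (AlgHom.ext fun s => by
      have h := sub3_sub3 g g' s
      rw [mul_eq_one_comm.mp hg, sub3_one] at h
      exact h)
    (AlgHom.ext fun s => by
      have h := sub3_sub3 g' g s
      rw [hg, sub3_one] at h
      exact h)

theorem sub3E_apply {g g' : Matrix (Fin 3) (Fin 3) k} (hg : g * g' = 1)
    (s : MvPolynomial (Fin 3) k) : sub3E hg s = sub3 g s := rfl

theorem sub3E_symm {g g' : Matrix (Fin 3) (Fin 3) k} (hg : g * g' = 1)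
    (s : MvPolynomial (Fin 3) k) : (sub3E hg).symm s = sub3 g' s := rfl

theorem sub3_left {g g' : Matrix (Fin 3) (Fin 3) k} (hg : g * g' = 1)
    (s : MvPolynomial (Fin 3) k) : sub3 g (sub3 g' s) = s := (sub3E hg).apply_symm_apply s

theorem sub3_right {g g' : Matrix (Fin 3) (Fin 3) k} (hg : g * g' = 1)
    (s : MvPolynomial (Fin 3) k) : sub3 g' (sub3 g s) = s := (sub3E hg).symm_apply_apply s

theorem sub3_irr {g g' : Matrix (Fin 3) (Fin 3) k} (hg : g * g' = 1)
    {f : MvPolynomial (Fin 3) k} (hf : Irreducible f) : Irreducible (sub3 g' f) := by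
  have h : Irreducible ((sub3E hg).symm f) := (MulEquiv.irreducible_iff (sub3E hg).symm).mpr hf
  exact h

/-- TR2. divisibility -/
theorem sub3_dvd {g g' : Matrix (Fin 3) (Fin 3) k} (hg : g * g' = 1)
    (f s : MvPolynomial (Fin 3) k) : sub3 g' f ∣ s ↔ f ∣ sub3 g s := by
  constructor
  · rintro ⟨t, rfl⟩
    rw [sub3_mul, sub3_left hg]
    exact dvd_mul_right _ _
  · rintro ⟨t, ht⟩
    refine ⟨sub3 g' t, ?_⟩
    rw [← sub3_mul, ← ht, sub3_right hg]

/-- TR3. transport of a valuation; the new curve is `sub3 g' f`. -/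
theorem GV.sub3 {g g' : Matrix (Fin 3) (Fin 3) k} (hg : g * g' = 1)
    {f : MvPolynomial (Fin 3) k} (hf : Irreducible f) {δ : ℕ} (hδ : f.IsHomogeneous δ)
    (h1 : 1 ≤ δ) {w : MvPolynomial (Fin 3) k → ℝ} (hw : GV (fun s => f ∣ s) w) :
    GV (fun s => V2.sub3 g' f ∣ s) (fun s => w (V2.sub3 g s)) := by
  have hd := sub3_dvd hg f
  refine ⟨?_, ?_, ?_, ?_, ?_, ?_⟩
  · intro s N hs hZ
    exact hw.nonneg _ N (sub3_hom g hs) (fun h => hZ ((hd s).mpr h))
  · intro s t M N hs ht hZs hZt
    change w (V2.sub3 g (s * t)) = w (V2.sub3 g s) + w (V2.sub3 g t)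
    rw [sub3_mul]
    exact hw.mul _ _ M N (sub3_hom g hs) (sub3_hom g ht) (fun h => hZs ((hd s).mpr h))
      (fun h => hZt ((hd t).mpr h))
  · intro s t N hs ht hZs hZt hZ
    change min (w (V2.sub3 g s)) (w (V2.sub3 g t)) ≤ w (V2.sub3 g (s + t))
    rw [sub3_add]
    refine hw.add _ _ N (sub3_hom g hs) (sub3_hom g ht) (fun h => hZs ((hd s).mpr h))
      (fun h => hZt ((hd t).mpr h)) (fun h => hZ ((hd _).mpr ?_))
    rw [sub3_add]; exact h
  · intro s t N hs ht hZs hZt
    change w (V2.sub3 g (s + t)) = w (V2.sub3 g s)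
    rw [sub3_add]
    exact hw.congr _ _ N (sub3_hom g hs) (sub3_hom g ht) (fun h => hZs ((hd s).mpr h))
      ((hd t).mp hZt)
  · intro a ha
    change w (V2.sub3 g (C a)) = 0
    rw [sub3_C]
    exact hw.const a ha
  · -- the unit
    have hCnd : ∀ a : k, a ≠ 0 → ¬ f ∣ C a := by
      intro a ha h
      have hu : IsUnit (C a : MvPolynomial (Fin 3) k) := (isUnit_iff_ne_zero.mpr ha).map C
      exact hf.not_isUnit (isUnit_of_dvd_unit h hu)
    have hC : ∀ (a : k) (s : MvPolynomial (Fin 3) k) (N : ℕ), s.IsHomogeneous N →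
        (f ∣ s ∨ 0 < w s) → (f ∣ C a * s ∨ 0 < w (C a * s)) := by
      intro a s N hs h
      by_cases ha : a = 0
      · left; rw [ha, C_0, zero_mul]; exact dvd_zero _
      by_cases hfs : f ∣ s
      · left; exact hfs.mul_left _
      · right
        have hws : 0 < w s := h.resolve_left hfs
        rw [hw.mul (C a) s 0 N (isHomogeneous_C _ _) hs (hCnd a ha) hfs, hw.const a ha, zero_add]
        exact hws
    have hadd : ∀ (s t : MvPolynomial (Fin 3) k) (N : ℕ), s.IsHomogeneous N → t.IsHomogeneous N →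
        (f ∣ s ∨ 0 < w s) → (f ∣ t ∨ 0 < w t) → (f ∣ s + t ∨ 0 < w (s + t)) := by
      intro s t N hs ht h h'
      by_cases hst : f ∣ s + t
      · exact Or.inl hst
      right
      by_cases hfs : f ∣ s
      · by_cases hft : f ∣ t
        · exact absurd (dvd_add hfs hft) hst
        · rw [add_comm, hw.congr t s N ht hs hft hfs]
          exact h'.resolve_left hft
      · by_cases hft : f ∣ t
        · rw [hw.congr s t N hs ht hfs hft]
          exact h.resolve_left hfs
        · exact lt_of_lt_of_le (lt_min (h.resolve_left hfs) (h'.resolve_left hft))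
            (hw.add s t N hs ht hfs hft hst)
    by_contra hcon
    push Not at hcon
    obtain ⟨i0, hi0, hw0⟩ := hw.unit
    have hX : ∀ i, V2.sub3 g (X i) = ∑ j, C (g i j) * (X j : MvPolynomial (Fin 3) k) := by
      intro i
      unfold V2.sub3
      exact bind₁_X_right _ _
    have hhom : ∀ i, (V2.sub3 g (X i)).IsHomogeneous 1 := fun i => sub3_hom g (isHomogeneous_X k i)
    have hpos : ∀ i, f ∣ V2.sub3 g (X i) ∨ 0 < w (V2.sub3 g (X i)) := by
      intro i
      by_cases h : f ∣ V2.sub3 g (X i)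
      · exact Or.inl h
      · right
        have h1 := hcon i (fun h' => h ((hd _).mp h'))
        have h2 := hw.nonneg _ 1 (hhom i) h
        exact lt_of_le_of_ne h2 (Ne.symm h1)
    have hX0 : (X i0 : MvPolynomial (Fin 3) k) =
        C (g' i0 0) * V2.sub3 g (X 0) + C (g' i0 1) * V2.sub3 g (X 1)
          + C (g' i0 2) * V2.sub3 g (X 2) := by
      have h := sub3_left hg (X i0 : MvPolynomial (Fin 3) k)
      have h2 : V2.sub3 g' (X i0) = ∑ j, C (g' i0 j) * (X j : MvPolynomial (Fin 3) k) := by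
        unfold V2.sub3
        exact bind₁_X_right _ _
      rw [h2, Fin.sum_univ_three, sub3_add, sub3_add, sub3_mul, sub3_mul, sub3_mul, sub3_C, sub3_C,
        sub3_C] at h
      exact h.symm
    have hCh : ∀ j, (C (g' i0 j) * V2.sub3 g (X j)).IsHomogeneous 1 := by
      intro j
      have h := (isHomogeneous_C (Fin 3) (g' i0 j)).mul (hhom j)
      rwa [zero_add] at h
    have hfin := hadd _ _ 1 ((hCh 0).add (hCh 1)) (hCh 2)
      (hadd _ _ 1 (hCh 0) (hCh 1) (hC (g' i0 0) _ 1 (hhom 0) (hpos 0))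
        (hC (g' i0 1) _ 1 (hhom 1) (hpos 1))) (hC (g' i0 2) _ 1 (hhom 2) (hpos 2))
    rw [← hX0] at hfin
    rcases hfin with h | h
    · exact hi0 h
    · rw [hw0] at h; exact lt_irrefl _ h

/-- the filtration is transported -/
theorem fil_sub3 {g g' : Matrix (Fin 3) (Fin 3) k} (hg : g * g' = 1)
    {f : MvPolynomial (Fin 3) k} {w : MvPolynomial (Fin 3) k → ℝ} (N : ℕ) (x : ℝ) :
    Module.finrank k (fil (sub3 g' f) (fun s => w (sub3 g s)) N x) =
      Module.finrank k (fil f w N x) := by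
  have h : fil f w N x = (fil (sub3 g' f) (fun s => w (sub3 g s)) N x).map
      ((sub3E hg).toLinearEquiv : MvPolynomial (Fin 3) k →ₗ[k] MvPolynomial (Fin 3) k) := by
    unfold fil
    rw [Submodule.map_span]
    congr 1
    ext t
    constructor
    · rintro ⟨ht, ht2⟩
      refine ⟨sub3 g' t, ⟨sub3_hom g' ht, ?_⟩, sub3_left hg t⟩
      rcases ht2 with h | h
      · left
        rw [sub3_dvd hg, sub3_left hg]; exact h
      · right
        simp only
        rw [sub3_left hg]; exact h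
    · rintro ⟨s, ⟨hs, hs2⟩, rfl⟩
      refine ⟨sub3_hom g hs, ?_⟩
      rcases hs2 with h | h
      · left
        exact (sub3_dvd hg f s).mp h
      · right
        exact h
  rw [h]
  exact (LinearEquiv.finrank_map_eq (sub3E hg).toLinearEquiv _).symm

/-- TR4. transport of the normalisation -/
theorem NormC.sub3 {g g' : Matrix (Fin 3) (Fin 3) k} (hg : g * g' = 1)
    {f : MvPolynomial (Fin 3) k} {δ : ℕ} {w : MvPolynomial (Fin 3) k → ℝ}
    (hn : NormC f δ w) : NormC (V2.sub3 g' f) δ (fun s => w (V2.sub3 g s)) := by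
  have hd := sub3_dvd hg f
  refine ⟨?_, ?_, ?_, ?_⟩
  · intro s N hs hZ
    exact hn.int _ N (sub3_hom g hs) (fun h => hZ ((hd s).mpr h))
  · intro s N hs hZ
    exact hn.le _ N (sub3_hom g hs) (fun h => hZ ((hd s).mpr h))
  · obtain ⟨C0, hC⟩ := hn.up
    refine ⟨C0, fun N j => ?_⟩
    rw [fil_sub3 hg]
    exact hC N j
  · obtain ⟨C0, hC⟩ := hn.low
    refine ⟨C0, fun N j hj => ?_⟩
    rw [fil_sub3 hg]
    exact hC N j hj

end alg

end Pool.Agent.V2
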